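import Pool.Agent.Lib.MP_3004b3_ag.Defs

/-!
# JOB A0: calculus of `HolAt` (easy closure properties)

`HolAt f q` means: `f` is complex differentiable in a neighbourhood of `q`.
-/

set_option autoImplicit false

namespace Pool.Agent.K3Pieces

open scoped Topology

section
variable {E F G : Type} [NormedAddCommGroup E] [NormedSpace ℂ E] [NormedAddCommGroup F]
  [NormedSpace ℂ F] [NormedAddCommGroup G] [NormedSpace ℂ G]

theorem HolAt.differentiableAt {f : E → F} {q : E} (h : HolAt f q) : DifferentiableAt ℂ f q :=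
  h.self_of_nhds

theorem HolAt.continuousAt {f : E → F} {q : E} (h : HolAt f q) : ContinuousAt f q :=
  h.differentiableAt.continuousAt

theorem HolAt.eventually {f : E → F} {q : E} (h : HolAt f q) : ∀ᶠ z in 𝓝 q, HolAt f z :=
  eventually_eventually_nhds.2 h

theorem HolAt.congr {f g : E → F} {q : E} (h : HolAt f q) (hg : f =ᶠ[𝓝 q] g) : HolAt g q := by
  have h1 : ∀ᶠ z in 𝓝 q, f =ᶠ[𝓝 z] g := eventually_eventually_nhds.2 hg
  filter_upwards [h, h1] with z h2 h3
  exact h2.congr_of_eventuallyEq h3.symm

theorem holAt_const (c : F) (q : E) : HolAt (fun _ : E => c) q :=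
  Filter.Eventually.of_forall fun _ => differentiableAt_const _

theorem holAt_id (q : E) : HolAt (fun z : E => z) q :=
  Filter.Eventually.of_forall fun _ => differentiableAt_id

theorem Differentiable.holAt {f : E → F} (h : Differentiable ℂ f) (q : E) : HolAt f q :=
  Filter.Eventually.of_forall fun z => h z

theorem HolAt.add {f g : E → F} {q : E} (h : HolAt f q) (h' : HolAt g q) :
    HolAt (fun z => f z + g z) q := by
  filter_upwards [h, h'] with z h1 h2
  exact h1.add h2

theorem HolAt.sub {f g : E → F} {q : E} (h : HolAt f q) (h' : HolAt g q) :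
    HolAt (fun z => f z - g z) q := by
  filter_upwards [h, h'] with z h1 h2
  exact h1.sub h2

theorem HolAt.neg {f : E → F} {q : E} (h : HolAt f q) : HolAt (fun z => - f z) q := by
  filter_upwards [h] with z h1
  exact h1.neg

theorem HolAt.smul {f : E → ℂ} {g : E → F} {q : E} (h : HolAt f q) (h' : HolAt g q) :
    HolAt (fun z => f z • g z) q := by
  filter_upwards [h, h'] with z h1 h2
  exact h1.smul h2

theorem HolAt.mul {f g : E → ℂ} {q : E} (h : HolAt f q) (h' : HolAt g q) :
    HolAt (fun z => f z * g z) q := by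
  filter_upwards [h, h'] with z h1 h2
  exact h1.mul h2

theorem HolAt.pow {f : E → ℂ} {q : E} (h : HolAt f q) (n : ℕ) :
    HolAt (fun z => f z ^ n) q := by
  filter_upwards [h] with z h1
  exact h1.pow n

theorem HolAt.inv {f : E → ℂ} {q : E} (h : HolAt f q) (h0 : f q ≠ 0) :
    HolAt (fun z => (f z)⁻¹) q := by
  filter_upwards [h, h.continuousAt.eventually_ne h0] with z h1 h2
  exact h1.inv h2

theorem HolAt.div {f g : E → ℂ} {q : E} (h : HolAt f q) (h' : HolAt g q) (h0 : g q ≠ 0) :
    HolAt (fun z => f z / g z) q := by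
  simpa only [div_eq_mul_inv] using h.mul (h'.inv h0)

theorem HolAt.comp {g : F → G} {f : E → F} {q : E} (h : HolAt g (f q)) (h' : HolAt f q) :
    HolAt (fun z => g (f z)) q := by
  filter_upwards [h'.continuousAt.eventually h, h'] with z h1 h2
  exact h1.comp z h2

theorem HolAt.clm_apply {f : E → (F →L[ℂ] G)} {g : E → F} {q : E} (h : HolAt f q)
    (h' : HolAt g q) : HolAt (fun z => f z (g z)) q := by
  filter_upwards [h, h'] with z h1 h2
  exact h1.clm_apply h2

theorem holAt_pi {n : ℕ} {f : E → (Fin n → ℂ)} {q : E} :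
    HolAt f q ↔ ∀ i, HolAt (fun z => f z i) q := by
  constructor
  · intro h i
    filter_upwards [h] with z h1
    exact differentiableAt_pi.1 h1 i
  · intro h
    have := Filter.eventually_all.2 h
    filter_upwards [this] with z h1
    exact differentiableAt_pi.2 h1

theorem HolAt.act {n : ℕ} (w : Fin n → ℕ) {l : E → ℂ} {f : E → (Fin n → ℂ)} {q : E}
    (hl : HolAt l q) (hf : HolAt f q) : HolAt (fun z => act w (l z) (f z)) q := by
  rw [holAt_pi]
  intro i
  exact (hl.pow (w i)).mul (holAt_pi.1 hf i)

end

end Pool.Agent.K3Pieces
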