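import Pool.Agent.Lib.MP_3004b3_ag.A0

/-!
# JOB A1: holomorphic functions of several variables

Everything is finite dimensional.

Model to copy: `Pool/Agent/Lib/MP_c0402d_ag/TE2.lean`, section `osgood` (theorems `te2_line`,
`te2_cauchy1`, `te2_dirderiv`, `te2_contDiff`): for `Ψ : (Fin m → ℂ) → ℂ` complex differentiable on
an open set `U`, the directional derivatives are complex differentiable on `U`, and `Ψ` is
`ContDiffOn ℂ n` for every `n`. Copy these proofs here under new names (do not import that file).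

* `HolAt.contDiffAt`: choose linear isomorphisms `E ≃L[ℂ] (Fin m → ℂ)` and `F ≃L[ℂ] (Fin n → ℂ)`
  (for instance `ContinuousLinearEquiv.ofFinrankEq`), use
  `ContinuousLinearEquiv.contDiffAt_comp_iff`, `ContinuousLinearEquiv.comp_contDiffAt_iff`,
  `contDiffAt_pi`, and the copied theorem on a small open ball.
* `HolAt.fderiv`: from `ContDiffAt ℂ 2` in a neighbourhood (`ContDiffAt.fderiv_right`), using
  `HolAt.eventually`.
* `HolAt.snd_symm`: `ContDiffAt.isSymmSndFDerivAt`.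
* `HolAt.exists_inverse`: `ContDiffAt.toOpenPartialHomeomorph` / `HasStrictFDerivAt.localInverse`
  and `ContDiffAt.to_localInverse` (with `n = 1`; a `ContDiffAt ℂ 1` function is differentiable in
  a neighbourhood: `ContDiffAt.eventually` and `ContDiffAt.differentiableAt`).
-/

set_option autoImplicit false

namespace Pool.Agent.K3Pieces

open scoped Topology

section osgood
open Metric
variable {m : ℕ} {U : Set (Fin m → ℂ)} {Ψ : (Fin m → ℂ) → ℂ}

/-- Derivative along a line. -/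
theorem a1_line (hU : IsOpen U) (hΨ : DifferentiableOn ℂ Ψ U) {y : Fin m → ℂ}
    (u : Fin m → ℂ) {ζ : ℂ} (h : y + ζ • u ∈ U) :
    HasDerivAt (fun ζ : ℂ => Ψ (y + ζ • u)) (fderiv ℂ Ψ (y + ζ • u) u) ζ := by
  have h1 : HasFDerivAt Ψ (fderiv ℂ Ψ (y + ζ • u)) (y + ζ • u) :=
    (hΨ.differentiableAt (hU.mem_nhds h)).hasFDerivAt
  have h2 : HasDerivAt (fun ζ : ℂ => y + ζ • u) u ζ := by
    simpa using ((hasDerivAt_id ζ).smul_const u).const_add y
  exact h1.comp_hasDerivAt ζ h2

/-- Cauchy's inequality for the derivative in one direction. -/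
theorem a1_cauchy1 (hU : IsOpen U) (hΨ : DifferentiableOn ℂ Ψ U) {y u : Fin m → ℂ}
    {r B : ℝ} (hr : 0 < r) (h : ∀ ζ : ℂ, ‖ζ‖ ≤ r → y + ζ • u ∈ U)
    (hB : ∀ ζ : ℂ, ‖ζ‖ = r → ‖Ψ (y + ζ • u)‖ ≤ B) : ‖fderiv ℂ Ψ y u‖ ≤ B / r := by
  have h0 : HasDerivAt (fun ζ : ℂ => Ψ (y + ζ • u)) (fderiv ℂ Ψ y u) 0 := by
    have := a1_line hU hΨ (y := y) u (ζ := 0) (h 0 (by simpa using hr.le))
    simpa using this
  rw [← h0.deriv]
  refine Complex.norm_deriv_le_of_forall_mem_sphere_norm_le hr ?_ ?_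
  · have : DifferentiableOn ℂ (fun ζ : ℂ => Ψ (y + ζ • u)) (closedBall 0 r) := by
      intro ζ hζ
      exact (a1_line hU hΨ u (h ζ (by simpa using hζ))).differentiableAt.differentiableWithinAt
    exact (this.mono closure_ball_subset_closedBall).diffContOnCl
  · intro ζ hζ
    exact hB ζ (by simpa using hζ)

/-- The directional derivatives of a complex differentiable function are differentiable. -/
theorem a1_dirderiv (hU : IsOpen U) (hΨ : DifferentiableOn ℂ Ψ U) (v : Fin m → ℂ) :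
    DifferentiableOn ℂ (fun x => fderiv ℂ Ψ x v) U := by
  intro x0 hx0
  obtain ⟨ε, hε, hball⟩ := Metric.isOpen_iff.1 hU x0 hx0
  obtain ⟨ρ, hρ0, hρ⟩ : ∃ ρ : ℝ, 0 < ρ ∧ 2 * ρ < ε := ⟨ε / 3, by positivity, by linarith⟩
  have hsub : closedBall x0 (2 * ρ) ⊆ U := (closedBall_subset_ball hρ).trans hball
  obtain ⟨B, hB⟩ := (isCompact_closedBall x0 (2 * ρ)).exists_bound_of_continuousOn
    (hΨ.continuousOn.mono hsub)
  have hB0 : 0 ≤ B := (norm_nonneg _).trans (hB x0 (mem_closedBall_self (by positivity)))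
  have hin : ∀ y ∈ closedBall x0 ρ, ∀ w : Fin m → ℂ, ‖w‖ ≤ ρ → y + w ∈ closedBall x0 (2 * ρ) := by
    intro y hy w hw
    rw [mem_closedBall, dist_eq_norm] at hy ⊢
    calc ‖y + w - x0‖ = ‖(y - x0) + w‖ := by congr 1; abel
      _ ≤ ‖y - x0‖ + ‖w‖ := norm_add_le _ _
      _ ≤ 2 * ρ := by linarith
  have hbd : ∀ y ∈ closedBall x0 ρ, ‖fderiv ℂ Ψ y‖ ≤ B / ρ := by
    intro y hy
    refine ContinuousLinearMap.opNorm_le_bound _ (by positivity) fun u => ?_
    by_cases hu : u = 0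
    · simp [hu]
    have hu' : 0 < ‖u‖ := norm_pos_iff.2 hu
    have h1 : ∀ ζ : ℂ, ‖ζ‖ ≤ ρ / ‖u‖ → ‖ζ • u‖ ≤ ρ := by
      intro ζ hζ
      rw [norm_smul]
      rwa [le_div_iff₀ hu'] at hζ
    have := a1_cauchy1 hU hΨ (y := y) (u := u) (r := ρ / ‖u‖) (B := B) (by positivity)
      (fun ζ hζ => hsub (hin y hy _ (h1 ζ hζ))) (fun ζ hζ => hB _ (hin y hy _ (h1 ζ hζ.le)))
    calc ‖fderiv ℂ Ψ y u‖ ≤ B / (ρ / ‖u‖) := this
      _ = B / ρ * ‖u‖ := by field_simp
  obtain ⟨r, hr0, hr⟩ : ∃ r : ℝ, 0 < r ∧ r * ‖v‖ ≤ ρ / 2 := by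
    refine ⟨ρ / 2 / (‖v‖ + 1), by positivity, ?_⟩
    rw [div_mul_eq_mul_div, div_le_iff₀ (by positivity)]
    nlinarith [norm_nonneg v]
  have hc : ∀ θ : ℝ, ‖circleMap 0 r θ • v‖ ≤ ρ / 2 := by
    intro θ
    rw [norm_smul, norm_circleMap_zero, abs_of_pos hr0]
    exact hr
  have hc2 : ∀ x ∈ ball x0 (ρ / 2), ∀ θ : ℝ, x + circleMap 0 r θ • v ∈ closedBall x0 ρ := by
    intro x hx θ
    rw [mem_ball, dist_eq_norm] at hx
    rw [mem_closedBall, dist_eq_norm]
    calc ‖x + circleMap 0 r θ • v - x0‖ = ‖(x - x0) + circleMap 0 r θ • v‖ := by congr 1; abel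
      _ ≤ ‖x - x0‖ + ‖circleMap 0 r θ • v‖ := norm_add_le _ _
      _ ≤ ρ := by linarith [hc θ]
  have hρsub : closedBall x0 ρ ⊆ U := (closedBall_subset_closedBall (by linarith)).trans hsub
  -- the integrand
  set k : ℝ → ℂ := fun θ => deriv (circleMap 0 r) θ * (1 / (circleMap 0 r θ - 0) ^ 2) with hk
  have hkc : Continuous k := by
    rw [hk]
    have h1 : Continuous fun θ : ℝ => deriv (circleMap 0 r) θ := by
      simp only [deriv_circleMap]
      exact (continuous_circleMap 0 r).mul continuous_const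
    refine h1.mul (Continuous.div continuous_const (by fun_prop) fun θ => ?_)
    rw [sub_zero]
    exact pow_ne_zero _ (circleMap_ne_center hr0.ne')
  have hform : ∀ x ∈ ball x0 (ρ / 2), fderiv ℂ Ψ x v =
      (2 * Real.pi * Complex.I)⁻¹ * ∫ θ in (0 : ℝ)..2 * Real.pi,
        k θ * Ψ (x + circleMap 0 r θ • v) := by
    intro x hx
    have hxU : ∀ ζ : ℂ, ‖ζ‖ ≤ r → x + ζ • v ∈ U := by
      intro ζ hζ
      refine hρsub ?_
      rw [mem_ball, dist_eq_norm] at hx
      rw [mem_closedBall, dist_eq_norm]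
      have h3 : ‖ζ • v‖ ≤ ρ / 2 := by
        rw [norm_smul]
        exact (mul_le_mul_of_nonneg_right hζ (norm_nonneg v)).trans hr
      calc ‖x + ζ • v - x0‖ = ‖(x - x0) + ζ • v‖ := by congr 1; abel
        _ ≤ ‖x - x0‖ + ‖ζ • v‖ := norm_add_le _ _
        _ ≤ ρ := by linarith
    have h0 : HasDerivAt (fun ζ : ℂ => Ψ (x + ζ • v)) (fderiv ℂ Ψ x v) 0 := by
      have := a1_line hU hΨ (y := x) v (ζ := 0) (hxU 0 (by simpa using hr0.le))
      simpa using this
    have h4 : DifferentiableOn ℂ (fun ζ : ℂ => Ψ (x + ζ • v)) (closedBall 0 r) := by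
      intro ζ hζ
      exact (a1_line hU hΨ v (hxU ζ (by simpa using hζ))).differentiableAt.differentiableWithinAt
    have h5 := h4.deriv_eq_smul_circleIntegral hr0
    rw [h0.deriv] at h5
    have h6 : (2 * Real.pi * Complex.I : ℂ) ≠ 0 := Complex.two_pi_I_ne_zero
    rw [smul_eq_mul] at h5
    rw [eq_inv_mul_iff_mul_eq₀ h6, ← h5]
    simp only [circleIntegral, smul_eq_mul, hk]
    congr 1
    funext θ
    ring
  -- differentiate under the integral sign
  have hmeasΨ' : Measurable fun θ : ℝ => fderiv ℂ Ψ (x0 + circleMap 0 r θ • v) := by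
    refine (measurable_fderiv ℂ Ψ).comp ?_
    exact (continuous_const.add ((continuous_circleMap 0 r).smul continuous_const)).measurable
  have hmain := intervalIntegral.hasFDerivAt_integral_of_dominated_of_fderiv_le (𝕜 := ℂ)
    (μ := MeasureTheory.volume) (a := 0) (b := 2 * Real.pi)
    (F := fun x θ => k θ * Ψ (x + circleMap 0 r θ • v))
    (F' := fun x θ => k θ • fderiv ℂ Ψ (x + circleMap 0 r θ • v)) (x₀ := x0)
    (s := ball x0 (ρ / 2)) (bound := fun θ => ‖k θ‖ * (B / ρ)) (ball_mem_nhds x0 (by positivity))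
    ?_ ?_ ?_ ?_ ?_ ?_
  · have h7 : HasFDerivAt (fun x => (2 * Real.pi * Complex.I)⁻¹ * ∫ θ in (0 : ℝ)..2 * Real.pi,
        k θ * Ψ (x + circleMap 0 r θ • v)) ((2 * Real.pi * Complex.I : ℂ)⁻¹ •
        ∫ θ in (0 : ℝ)..2 * Real.pi, k θ • fderiv ℂ Ψ (x0 + circleMap 0 r θ • v)) x0 := by
      exact hmain.const_mul _
    have h8 : (fun x => fderiv ℂ Ψ x v) =ᶠ[nhds x0] fun x => (2 * Real.pi * Complex.I)⁻¹ *
        ∫ θ in (0 : ℝ)..2 * Real.pi, k θ * Ψ (x + circleMap 0 r θ • v) :=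
      Filter.eventuallyEq_of_mem (ball_mem_nhds x0 (by positivity)) hform
    exact (h7.congr_of_eventuallyEq h8).differentiableAt.differentiableWithinAt
  · refine Filter.eventually_of_mem (ball_mem_nhds x0 (half_pos hρ0)) fun x hx => ?_
    have : Continuous fun θ : ℝ => k θ * Ψ (x + circleMap 0 r θ • v) := by
      refine hkc.mul ?_
      refine (hΨ.continuousOn.mono hρsub).comp_continuous ?_ (hc2 x hx)
      exact continuous_const.add ((continuous_circleMap 0 r).smul continuous_const)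
    exact this.aestronglyMeasurable
  · have : Continuous fun θ : ℝ => k θ * Ψ (x0 + circleMap 0 r θ • v) := by
      refine hkc.mul ?_
      refine (hΨ.continuousOn.mono hρsub).comp_continuous ?_
        (hc2 x0 (mem_ball_self (by positivity)))
      exact continuous_const.add ((continuous_circleMap 0 r).smul continuous_const)
    exact this.intervalIntegrable _ _
  · have : Measurable fun θ : ℝ => k θ • fderiv ℂ Ψ (x0 + circleMap 0 r θ • v) :=
      hkc.measurable.smul hmeasΨ'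
    exact this.aestronglyMeasurable
  · refine Filter.Eventually.of_forall fun θ _ x hx => ?_
    rw [norm_smul]
    exact mul_le_mul_of_nonneg_left (hbd _ (hc2 x hx θ)) (norm_nonneg _)
  · exact (hkc.norm.mul continuous_const).intervalIntegrable _ _
  · refine Filter.Eventually.of_forall fun θ _ x hx => ?_
    have h9 : HasFDerivAt Ψ (fderiv ℂ Ψ (x + circleMap 0 r θ • v)) (x + circleMap 0 r θ • v) :=
      (hΨ.differentiableAt (hU.mem_nhds (hρsub (hc2 x hx θ)))).hasFDerivAt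
    have h10 : HasFDerivAt (fun x => Ψ (x + circleMap 0 r θ • v))
        (fderiv ℂ Ψ (x + circleMap 0 r θ • v)) x := by
      have := h9.comp x ((hasFDerivAt_id x).add_const (circleMap 0 r θ • v))
      rw [ContinuousLinearMap.comp_id] at this
      exact this
    exact h10.const_mul _

theorem a1_contDiff (hU : IsOpen U) (n : ℕ) {Ψ : (Fin m → ℂ) → ℂ}
    (hΨ : DifferentiableOn ℂ Ψ U) : ContDiffOn ℂ n Ψ U := by
  induction n generalizing Ψ with
  | zero => exact contDiffOn_zero.2 hΨ.continuousOn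
  | succ n ih =>
    have : ((n + 1 : ℕ) : WithTop ℕ∞) = (n : WithTop ℕ∞) + 1 := by simp
    rw [this, contDiffOn_succ_iff_fderiv_of_isOpen hU]
    refine ⟨hΨ, fun h => ?_, ?_⟩
    · exact absurd h (by simp)
    · rw [contDiffOn_clm_apply]
      exact fun y => ih (a1_dirderiv hU hΨ y)

end osgood

variable {E F : Type} [NormedAddCommGroup E] [NormedSpace ℂ E] [FiniteDimensional ℂ E]
  [NormedAddCommGroup F] [NormedSpace ℂ F] [FiniteDimensional ℂ F]

theorem a1_contDiffAt_pi {m : ℕ} {g : (Fin m → ℂ) → ℂ} {p : Fin m → ℂ} (h : HolAt g p) (n : ℕ) :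
    ContDiffAt ℂ n g p := by
  obtain ⟨V, hV, hVo, hpV⟩ := eventually_nhds_iff.1 h
  have h1 : DifferentiableOn ℂ g V := fun y hy => (hV y hy).differentiableWithinAt
  exact (a1_contDiff hVo n h1).contDiffAt (hVo.mem_nhds hpV)

theorem HolAt.contDiffAt {f : E → F} {q : E} (h : HolAt f q) (n : ℕ) :
    ContDiffAt ℂ n f q := by
  set e : (Fin (Module.finrank ℂ E) → ℂ) ≃L[ℂ] E :=
    ContinuousLinearEquiv.ofFinrankEq (by simp) with he
  set e' : F ≃L[ℂ] (Fin (Module.finrank ℂ F) → ℂ) :=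
    ContinuousLinearEquiv.ofFinrankEq (by simp) with he'
  rw [← e.contDiffAt_comp_iff, ← e'.comp_contDiffAt_iff, contDiffAt_pi]
  intro i
  refine a1_contDiffAt_pi ?_ n
  have h1 : Filter.Tendsto (fun y => e y) (𝓝 (e.symm q)) (𝓝 q) := by
    have := e.continuous.continuousAt (x := e.symm q)
    rw [ContinuousAt, e.apply_symm_apply] at this
    exact this
  have h2 : ∀ᶠ y in 𝓝 (e.symm q), DifferentiableAt ℂ f (e y) := h1.eventually h
  filter_upwards [h2] with y hy
  have h3 : DifferentiableAt ℂ (fun y => f (e y)) y := hy.comp y e.differentiableAt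
  have h4 : DifferentiableAt ℂ (fun y => e' (f (e y))) y :=
    e'.differentiableAt.comp y h3
  exact differentiableAt_pi.1 h4 i

theorem HolAt.fderiv {f : E → F} {q : E} (h : HolAt f q) :
    HolAt (fun z => fderiv ℂ f z) q := by
  filter_upwards [h.eventually] with z hz
  have h1 : ContDiffAt ℂ (1 : ℕ) (fun z => _root_.fderiv ℂ f z) z :=
    (hz.contDiffAt 2).fderiv_right (by norm_num)
  exact h1.differentiableAt (by norm_num)

theorem HolAt.snd_symm {f : E → F} {q : E} (h : HolAt f q) (a b : E) :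
    _root_.fderiv ℂ (fun z => _root_.fderiv ℂ f z) q a b =
      _root_.fderiv ℂ (fun z => _root_.fderiv ℂ f z) q b a := by
  have h1 : IsSymmSndFDerivAt ℂ f q :=
    (h.contDiffAt 2).isSymmSndFDerivAt (by simp)
  exact h1 a b

/-- The inverse function theorem. -/
theorem HolAt.exists_inverse {f : E → F} {q : E} (h : HolAt f q) (e : E ≃L[ℂ] F)
    (he : _root_.fderiv ℂ f q = (e : E →L[ℂ] F)) :
    ∃ g : F → E, HolAt g (f q) ∧ g (f q) = q ∧ (∀ᶠ x in 𝓝 q, g (f x) = x) ∧
      ∀ᶠ y in 𝓝 (f q), f (g y) = y := by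
  have : CompleteSpace E := FiniteDimensional.complete ℂ E
  have h1 : ContDiffAt ℂ (1 : ℕ) f q := h.contDiffAt 1
  have hf' : HasFDerivAt f (e : E →L[ℂ] F) q := by
    rw [← he]
    exact h.differentiableAt.hasFDerivAt
  have hn : ((1 : ℕ) : WithTop ℕ∞) ≠ 0 := by norm_num
  have hs := h1.hasStrictFDerivAt' hf' hn
  refine ⟨h1.localInverse hf' hn, ?_, h1.localInverse_apply_image hf' hn,
    hs.eventually_left_inverse, hs.eventually_right_inverse⟩
  have h2 : ContDiffAt ℂ (1 : ℕ) (h1.localInverse hf' hn) (f q) := h1.to_localInverse hf' hn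
  have h3 : ∀ᶠ y in 𝓝 (f q), ContDiffAt ℂ (1 : ℕ) (h1.localInverse hf' hn) y :=
    h2.eventually (by simp)
  filter_upwards [h3] with y hy
  exact hy.differentiableAt (by norm_num)

end Pool.Agent.K3Pieces
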