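import Pool.Agent.Lib.MP_3004b3_ag.A0

/-!
# JOB B0: the action, the cone, the points, local holomorphic maps (basic facts)

* `act_mem_cone`: for `F` weighted homogeneous of degree `d`,
  `eval (act w l v) F = l ^ d * eval v F`: expand `F` as the sum of its monomials
  (`MvPolynomial.eval_eq'`), every monomial `s` in the support has `weight w s = d`
  (`MvPolynomial.IsWeightedHomogeneous`; `∏ i, (l ^ w i * v i) ^ s i = l ^ (∑ i, w i * s i) * …`).
  `act X.w l v ≠ 0` since `v = act l⁻¹ (act l v)`.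
* `isOpen_proj_image`: `IsOpen` in the quotient means that the preimage in `X.cone` is open; the
  preimage of the image of `U ∩ X.cone` is the union over `l ≠ 0` of
  `{v | act X.w l v ∈ U}` (use `act` with `l⁻¹`), each open.
* `continuousOn_proj`: restricted to the subtype `X.cone` the map `X.proj` is the quotient map
  (`continuous_quotient_mk'`, `continuousOn_iff_continuous_domRestrict`).
-/

set_option autoImplicit false

namespace Pool.Agent.K3Pieces

open scoped Topology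

theorem act_one {n : ℕ} (w : Fin n → ℕ) (v : Fin n → ℂ) : act w 1 v = v := by
  funext i
  simp [act]

theorem act_act {n : ℕ} (w : Fin n → ℕ) (a b : ℂ) (v : Fin n → ℂ) :
    act w a (act w b v) = act w (a * b) v := by
  funext i
  simp only [act, mul_pow, mul_assoc]

theorem continuous_act {n : ℕ} (w : Fin n → ℕ) :
    Continuous (fun x : ℂ × (Fin n → ℂ) => act w x.1 x.2) := by
  refine continuous_pi fun i => ?_
  show Continuous (fun x : ℂ × (Fin n → ℂ) => x.1 ^ w i * x.2 i)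
  exact (continuous_fst.pow (w i)).mul ((continuous_apply i).comp continuous_snd)

namespace Surf

variable (X : Surf)

theorem b0_eval {n : ℕ} {w : Fin n → ℕ} {F : MvPolynomial (Fin n) ℂ} {d : ℕ}
    (hF : F.IsWeightedHomogeneous w d) (l : ℂ) (v : Fin n → ℂ) :
    MvPolynomial.eval (act w l v) F = l ^ d * MvPolynomial.eval v F := by
  rw [MvPolynomial.eval_eq', MvPolynomial.eval_eq', Finset.mul_sum]
  refine Finset.sum_congr rfl fun s hs => ?_
  have h1 : Finsupp.weight w s = d := hF (MvPolynomial.mem_support_iff.1 hs)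
  have h2 : ∑ i, w i * s i = d := by
    rw [← h1, Finsupp.weight_apply, Finsupp.sum_fintype]
    · refine Finset.sum_congr rfl fun i _ => ?_
      rw [smul_eq_mul, mul_comm]
    · intro i
      exact zero_smul _ _
  have h3 : ∏ i, (act w l v i) ^ s i = l ^ d * ∏ i, v i ^ s i := by
    rw [← h2, ← Finset.prod_pow_eq_pow_sum, ← Finset.prod_mul_distrib]
    refine Finset.prod_congr rfl fun i _ => ?_
    simp only [act]
    rw [mul_pow, pow_mul]
  rw [h3]
  ring

theorem act_mem_cone {v : X.Amb} (hv : v ∈ X.cone) {l : ℂ} (hl : l ≠ 0) :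
    act X.w l v ∈ X.cone := by
  refine ⟨fun h => hv.1 ?_, fun F hF => ?_⟩
  · have h1 : act X.w l⁻¹ (act X.w l v) = v := by
      rw [act_act, inv_mul_cancel₀ hl, act_one]
    rw [← h1, h]
    funext i
    simp [act]
  · obtain ⟨d, hd⟩ := X.homog F hF
    rw [b0_eval hd, hv.2 F hF, mul_zero]

theorem proj_eq_iff {u v : X.Amb} (hu : u ∈ X.cone) (hv : v ∈ X.cone) :
    X.proj u = X.proj v ↔ ∃ l : ℂ, l ≠ 0 ∧ v = act X.w l u := by
  unfold proj
  rw [dif_pos hu, dif_pos hv]
  exact Quotient.eq (r := X.orbit)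

theorem proj_act {v : X.Amb} (hv : v ∈ X.cone) {l : ℂ} (hl : l ≠ 0) :
    X.proj (act X.w l v) = X.proj v :=
  ((X.proj_eq_iff hv (X.act_mem_cone hv hl)).2 ⟨l, hl, rfl⟩).symm

theorem proj_surj (p : X.Pt) : ∃ v ∈ X.cone, X.proj v = p := by
  obtain ⟨⟨v, hv⟩, h⟩ := Quotient.exists_rep (s := X.orbit) p
  refine ⟨v, hv, ?_⟩
  unfold proj
  rw [dif_pos hv]
  exact h

theorem b0_restrict : X.cone.domRestrict X.proj = Quotient.mk X.orbit := by
  funext ⟨v, hv⟩
  show X.proj v = _
  unfold proj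
  rw [dif_pos hv]

theorem continuousOn_proj : ContinuousOn X.proj X.cone := by
  rw [continuousOn_iff_continuous_domRestrict, b0_restrict]
  exact continuous_quotient_mk'

theorem isOpen_proj_image {U : Set X.Amb} (hU : IsOpen U) : IsOpen (X.proj '' (U ∩ X.cone)) := by
  have hq : IsOpen (X.proj '' (U ∩ X.cone)) ↔
      IsOpen (Quotient.mk X.orbit ⁻¹' (X.proj '' (U ∩ X.cone))) :=
    (isQuotientMap_quotient_mk' (s := X.orbit)).isOpen_preimage.symm
  rw [hq]
  have h1 : (Quotient.mk X.orbit ⁻¹' (X.proj '' (U ∩ X.cone))) =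
      ⋃ l : {l : ℂ // l ≠ 0}, {v : X.cone | act X.w l.1 v.1 ∈ U} := by
    ext ⟨v, hv⟩
    have hmk : Quotient.mk X.orbit ⟨v, hv⟩ = X.proj v := (congrFun X.b0_restrict ⟨v, hv⟩).symm
    simp only [Set.mem_preimage, Set.mem_image, Set.mem_iUnion, Set.mem_ofPred_eq, hmk]
    constructor
    · rintro ⟨u, ⟨huU, hu⟩, h⟩
      obtain ⟨l, hl, h2⟩ := (X.proj_eq_iff hu hv).1 h
      refine ⟨⟨l⁻¹, inv_ne_zero hl⟩, ?_⟩
      rw [h2, act_act, inv_mul_cancel₀ hl, act_one]
      exact huU
    · rintro ⟨⟨l, hl⟩, h⟩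
      exact ⟨act X.w l v, ⟨h, X.act_mem_cone hv hl⟩, X.proj_act hv hl⟩
  rw [h1]
  refine isOpen_iUnion fun l => ?_
  have hc : Continuous (fun v : X.cone => act X.w l.1 v.1) :=
    (continuous_act X.w).comp (Continuous.prodMk continuous_const continuous_subtype_val)
  exact hU.preimage hc

/-- The zero set of the equations is closed. -/
theorem isClosed_zeros : IsClosed {v : X.Amb | ∀ F ∈ X.eqs, MvPolynomial.eval v F = 0} := by
  have h1 : {v : X.Amb | ∀ F ∈ X.eqs, MvPolynomial.eval v F = 0} =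
      ⋂ F ∈ X.eqs, {v : X.Amb | MvPolynomial.eval v F = 0} := by
    ext v
    simp
  rw [h1]
  refine isClosed_biInter fun F _ => ?_
  exact isClosed_eq (MvPolynomial.continuous_eval F) continuous_const

variable {X}

theorem PlotAt.mem {f : C2 → X.Amb} {q : C2} (h : X.PlotAt f q) : f q ∈ X.cone :=
  (Filter.Eventually.self_of_nhds h).2

theorem PlotAt.holAt {f : C2 → X.Amb} {q : C2} (h : X.PlotAt f q) : HolAt f q :=
  Filter.Eventually.mono h fun _ hz => hz.1

theorem PlotAt.eventually {f : C2 → X.Amb} {q : C2} (h : X.PlotAt f q) :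
    ∀ᶠ z in 𝓝 q, X.PlotAt f z :=
  eventually_eventually_nhds.2 h

theorem PlotAt.congr {f g : C2 → X.Amb} {q : C2} (h : X.PlotAt f q) (hg : f =ᶠ[𝓝 q] g) :
    X.PlotAt g q := by
  have h1 : HolAt g q := h.holAt.congr hg
  have h2 : ∀ᶠ z in 𝓝 q, f z ∈ X.cone := Filter.Eventually.mono h fun _ hz => hz.2
  unfold PlotAt
  filter_upwards [h1, h2, hg] with z h3 h4 h5
  exact ⟨h3, h5 ▸ h4⟩

theorem PlotAt.comp {f : C2 → X.Amb} {g : C2 → C2} {q : C2} (h : X.PlotAt f (g q))
    (hg : HolAt g q) : X.PlotAt (fun z => f (g z)) q := by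
  have h1 : HolAt (fun z => f (g z)) q := h.holAt.comp hg
  have h2 : ∀ᶠ z in 𝓝 (g q), f z ∈ X.cone := Filter.Eventually.mono h fun _ hz => hz.2
  have h3 := hg.continuousAt.eventually h2
  unfold PlotAt
  filter_upwards [h1, h3] with z h4 h5
  exact ⟨h4, h5⟩

theorem PlotAt.act {f : C2 → X.Amb} {l : C2 → ℂ} {q : C2} (h : X.PlotAt f q)
    (hl : HolAt l q) (h0 : l q ≠ 0) : X.PlotAt (fun z => act X.w (l z) (f z)) q := by
  have h1 : HolAt (fun z => Pool.Agent.K3Pieces.act X.w (l z) (f z)) q :=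
    HolAt.act X.w hl h.holAt
  have h2 : ∀ᶠ z in 𝓝 q, f z ∈ X.cone := Filter.Eventually.mono h fun _ hz => hz.2
  unfold PlotAt
  filter_upwards [h1, h2, hl.continuousAt.eventually_ne h0] with z h3 h4 h5
  exact ⟨h3, X.act_mem_cone h4 h5⟩

theorem PlotAt.continuousAt_proj {f : C2 → X.Amb} {q : C2} (h : X.PlotAt f q) :
    ContinuousAt (fun z => X.proj (f z)) q := by
  have h2 : ∀ᶠ z in 𝓝 q, f z ∈ X.cone := Filter.Eventually.mono h fun _ hz => hz.2
  have h3 : Filter.Tendsto f (𝓝 q) (𝓝[X.cone] (f q)) :=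
    tendsto_nhdsWithin_iff.2 ⟨h.holAt.continuousAt, h2⟩
  exact Filter.Tendsto.comp (X.continuousOn_proj (f q) h.mem) h3

/-- A local holomorphic map stays in an open set of the surface. -/
theorem PlotAt.eventually_mem {f : C2 → X.Amb} {q : C2} (h : X.PlotAt f q) {U : Set X.Pt}
    (hU : IsOpen U) (hq : X.proj (f q) ∈ U) : ∀ᶠ z in 𝓝 q, X.proj (f z) ∈ U :=
  h.continuousAt_proj.eventually_mem (hU.mem_nhds hq)

end Surf

end Pool.Agent.K3Pieces
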