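import Pool.Agent.Lib.MP_3004b3_ag.B0

/-!
# JOB B1: the surface is compact

Let `K = {v | ‖v‖ = 1 ∧ all equations vanish at v}`, a compact set contained in the cone. Every
orbit meets `K`: for `v` in the cone the function `t ↦ ‖act X.w t v‖` (`t ≥ 0` real) is continuous,
`0` at `t = 0` (all weights are positive) and tends to infinity (some `v i ≠ 0`, and
`‖act X.w t v‖ ≥ t ^ w i * ‖v i‖ ≥ t ‖v i‖` for `t ≥ 1`), so it takes the value `1` (intermediate
value theorem). Hence `X.Pt = X.proj '' K` is compact (`IsCompact.image_of_continuousOn`,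
`isCompact_univ_iff`).
-/

set_option autoImplicit false

namespace Pool.Agent.K3Pieces

open scoped Topology

namespace Surf

variable (X : Surf)

theorem b1_act_zero {n : ℕ} {w : Fin n → ℕ} (hw : ∀ i, 0 < w i) (v : Fin n → ℂ) :
    act w 0 v = 0 := by
  funext i
  simp [act, (hw i).ne']

instance compactSpace_Pt : CompactSpace X.Pt := by
  set K : Set X.Amb := Metric.sphere 0 1 ∩
    {v : X.Amb | ∀ F ∈ X.eqs, MvPolynomial.eval v F = 0} with hK
  have hKc : IsCompact K := (isCompact_sphere 0 1).inter_right X.isClosed_zeros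
  have hKsub : K ⊆ X.cone := by
    rintro v ⟨h1, h2⟩
    refine ⟨?_, h2⟩
    rintro rfl
    simp at h1
  have hcomp : IsCompact (X.proj '' K) :=
    hKc.image_of_continuousOn (X.continuousOn_proj.mono hKsub)
  have huniv : X.proj '' K = Set.univ := by
    refine Set.eq_univ_of_forall fun p => ?_
    obtain ⟨v, hv, rfl⟩ := X.proj_surj p
    obtain ⟨i, hi⟩ : ∃ i, v i ≠ 0 := Function.ne_iff.mp hv.1
    have hcont : Continuous fun t : ℝ => ‖act X.w (t : ℂ) v‖ := by
      have h1 : Continuous fun t : ℝ => ((t : ℂ), v) :=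
        Complex.continuous_ofReal.prodMk continuous_const
      exact ((continuous_act X.w).comp h1).norm
    have h0 : ‖act X.w ((0 : ℝ) : ℂ) v‖ = 0 := by
      rw [Complex.ofReal_zero, b1_act_zero X.w_pos, norm_zero]
    have hvi : 0 < ‖v i‖ := norm_pos_iff.mpr hi
    have hT0 : (1 : ℝ) ≤ max 1 (1 / ‖v i‖) := le_max_left _ _
    have hT : 1 ≤ ‖act X.w ((max 1 (1 / ‖v i‖) : ℝ) : ℂ) v‖ := by
      refine le_trans ?_ (norm_le_pi_norm _ i)
      have h1 : ‖act X.w ((max 1 (1 / ‖v i‖) : ℝ) : ℂ) v i‖ =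
          max 1 (1 / ‖v i‖) ^ X.w i * ‖v i‖ := by
        change ‖((max 1 (1 / ‖v i‖) : ℝ) : ℂ) ^ X.w i * v i‖ = _
        rw [norm_mul, norm_pow, Complex.norm_real, Real.norm_of_nonneg (by linarith)]
      rw [h1]
      have h2 : max 1 (1 / ‖v i‖) ≤ max 1 (1 / ‖v i‖) ^ X.w i :=
        le_self_pow₀ hT0 (X.w_pos i).ne'
      calc (1 : ℝ) = 1 / ‖v i‖ * ‖v i‖ := by field_simp
        _ ≤ max 1 (1 / ‖v i‖) * ‖v i‖ := by gcongr; exact le_max_right _ _
        _ ≤ max 1 (1 / ‖v i‖) ^ X.w i * ‖v i‖ := by gcongr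
    have hmem : (1 : ℝ) ∈ Set.Icc ‖act X.w ((0 : ℝ) : ℂ) v‖
        ‖act X.w ((max 1 (1 / ‖v i‖) : ℝ) : ℂ) v‖ := ⟨h0.le.trans zero_le_one, hT⟩
    have hle : (0 : ℝ) ≤ max 1 (1 / ‖v i‖) := by linarith
    obtain ⟨t, ht, ht1⟩ := intermediate_value_Icc hle hcont.continuousOn hmem
    have ht0 : (t : ℂ) ≠ 0 := by
      intro h
      have h3 : t = 0 := by exact_mod_cast h
      subst h3
      simp only [h0] at ht1
      exact zero_ne_one ht1
    exact ⟨act X.w t v, ⟨by simpa using ht1, (X.act_mem_cone hv ht0).2⟩, X.proj_act hv ht0⟩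
  exact ⟨huniv ▸ hcomp⟩

end Surf

end Pool.Agent.K3Pieces
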