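import Pool.Agent.Lib.MP_3004b3_ag.B0

/-!
# JOB B2: the surface is a Hausdorff space

`t2Space_iff_of_isOpenQuotientMap` for the quotient map `X.cone → X.Pt` (open by
`isOpen_proj_image`). The relation `{(u, v) | ∃ l ≠ 0, v = act X.w l u}` is closed in
`X.cone × X.cone`: metric spaces, so take sequences `u_n → u`, `v_n = act l_n u_n → v` in the cone.
Choose `i` with `u i ≠ 0`: then `l_n ^ w i = v_n i / u_n i` is bounded, so `l_n` is bounded
(`w i ≥ 1`) and has a convergent subsequence with limit `l` (`tendsto_subseq_of_bounded`);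
`v = act l u` by continuity, and `l ≠ 0` since `v ≠ 0` and all the weights are positive.
-/

set_option autoImplicit false

namespace Pool.Agent.K3Pieces

open scoped Topology

namespace Surf

variable (X : Surf)

/-- The quotient map from the cone. -/
theorem b2_quot : IsOpenQuotientMap (X.cone.domRestrict X.proj) := by
  refine ⟨?_, continuousOn_iff_continuous_domRestrict.1 X.continuousOn_proj, ?_⟩
  · intro p
    obtain ⟨v, hv, h⟩ := X.proj_surj p
    exact ⟨⟨v, hv⟩, h⟩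
  · intro U hU
    obtain ⟨V, hV, rfl⟩ := isOpen_induced_iff.1 hU
    have h : X.cone.domRestrict X.proj '' (Subtype.val ⁻¹' V) = X.proj '' (V ∩ X.cone) := by
      ext p
      constructor
      · rintro ⟨v, hv, rfl⟩
        exact ⟨v.1, ⟨hv, v.2⟩, rfl⟩
      · rintro ⟨v, ⟨hv, hv'⟩, rfl⟩
        exact ⟨⟨v, hv'⟩, hv, rfl⟩
    rw [h]
    exact X.isOpen_proj_image hV

theorem b2_closed : IsClosed {q : X.cone × X.cone |
    X.cone.domRestrict X.proj q.1 = X.cone.domRestrict X.proj q.2} := by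
  refine IsSeqClosed.isClosed ?_
  intro q a hq hlim
  have hex : ∀ n, ∃ l : ℂ, l ≠ 0 ∧ ((q n).2 : X.Amb) = act X.w l (q n).1 :=
    fun n => (X.proj_eq_iff (q n).1.2 (q n).2.2).1 (hq n)
  choose l hl0 hl using hex
  have hu : Filter.Tendsto (fun n => ((q n).1 : X.Amb)) Filter.atTop (𝓝 (a.1 : X.Amb)) :=
    ((continuous_subtype_val.comp continuous_fst).tendsto a).comp hlim
  have hv : Filter.Tendsto (fun n => ((q n).2 : X.Amb)) Filter.atTop (𝓝 (a.2 : X.Amb)) :=
    ((continuous_subtype_val.comp continuous_snd).tendsto a).comp hlim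
  have ha1 : (a.1 : X.Amb) ≠ 0 := a.1.2.1
  have ha2 : (a.2 : X.Amb) ≠ 0 := a.2.2.1
  obtain ⟨i, hi⟩ := Function.ne_iff.1 ha1
  have hi' : (a.1 : X.Amb) i ≠ 0 := hi
  have hui : Filter.Tendsto (fun n => ((q n).1 : X.Amb) i) Filter.atTop (𝓝 ((a.1 : X.Amb) i)) :=
    (tendsto_pi_nhds.1 hu) i
  have hvi : Filter.Tendsto (fun n => ((q n).2 : X.Amb) i) Filter.atTop (𝓝 ((a.2 : X.Amb) i)) :=
    (tendsto_pi_nhds.1 hv) i
  have hdiv := (hvi.div hui hi').norm
  set C : ℝ := ‖(a.2 : X.Amb) i / (a.1 : X.Amb) i‖ + 1 with hC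
  have hev1 : ∀ᶠ n in Filter.atTop, ‖((q n).2 : X.Amb) i / ((q n).1 : X.Amb) i‖ < C :=
    hdiv.eventually_lt_const (by rw [hC]; linarith)
  have hev2 : ∀ᶠ n in Filter.atTop, ((q n).1 : X.Amb) i ≠ 0 := hui.eventually_ne hi'
  have hbd : ∀ᶠ n in Filter.atTop, l n ∈ Metric.closedBall (0 : ℂ) (max 1 C) := by
    filter_upwards [hev1, hev2] with n h1 h2
    rw [mem_closedBall_zero_iff]
    have h3 : ((q n).2 : X.Amb) i = l n ^ X.w i * ((q n).1 : X.Amb) i := by
      rw [hl n]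
      rfl
    rw [h3, mul_div_cancel_right₀ _ h2, norm_pow] at h1
    rcases le_or_gt ‖l n‖ 1 with h4 | h4
    · exact h4.trans (le_max_left _ _)
    · have h5 : ‖l n‖ ≤ ‖l n‖ ^ X.w i := le_self_pow₀ h4.le (X.w_pos i).ne'
      exact (h5.trans h1.le).trans (le_max_right _ _)
  obtain ⟨b, _, φ, hφ, hb⟩ := tendsto_subseq_of_frequently_bounded
    (Metric.isBounded_closedBall (x := (0 : ℂ)) (r := max 1 C)) hbd.frequently
  have hφ' := hφ.tendsto_atTop
  have h1 : Filter.Tendsto (fun n => act X.w (l (φ n)) ((q (φ n)).1 : X.Amb)) Filter.atTop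
      (𝓝 (act X.w b (a.1 : X.Amb))) :=
    ((continuous_act X.w).tendsto (b, (a.1 : X.Amb))).comp
      (hb.prodMk_nhds (hu.comp hφ'))
  have h2 : Filter.Tendsto (fun n => act X.w (l (φ n)) ((q (φ n)).1 : X.Amb)) Filter.atTop
      (𝓝 (a.2 : X.Amb)) := by
    refine (hv.comp hφ').congr fun n => ?_
    exact hl (φ n)
  have h3 : (a.2 : X.Amb) = act X.w b (a.1 : X.Amb) := tendsto_nhds_unique h2 h1
  have hb0 : b ≠ 0 := by
    rintro rfl
    apply ha2
    rw [h3]
    funext j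
    simp [act, (X.w_pos j).ne']
  exact (X.proj_eq_iff a.1.2 a.2.2).2 ⟨b, hb0, h3⟩

instance t2Space_Pt : T2Space X.Pt :=
  (t2Space_iff_of_isOpenQuotientMap X.b2_quot).2 X.b2_closed

end Surf

end Pool.Agent.K3Pieces
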