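import Pool.Agent.Lib.MP_3004b3_ag.B0
import Pool.Agent.Lib.MP_3004b3_ag.A1

/-!
# JOB C0: charts, derived facts

`Chart X p` is defined here; its existence is proved in `C1`, `C2`. The facts below follow from
the fields.

* `factor`: with `c`, `l` from `coord` at `v = g q`, take `d z = c (g z)` and `l (g z)`.
* `left_inv_coord`: for `d0 ∈ D` and `c`, `l` from `coord` at `v = f d0`, `c (f d) = d` for `d` near
  `d0`: `f d = act (l (f d)) (f (c (f d)))` gives `proj (f d) = proj (f (c (f d)))`, now `inj`.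
* `immersive`: let `c` be as before, at `v = f d0`. Derivative of `c (f d) = d`:
  `Dc ∘ Df = id`. Moreover `c (act s v) = c v` for `s` near `1`: `act s v` is in the cone, and
  `proj (f (c (act s v))) = proj (act s v) = proj v = proj (f d0)`, so `c (act s v) = d0` by `inj`;
  its derivative in `s` at `s = 1` is `Dc (euler v) = 0`. If
  `a • euler v + b • Df e0 + b' • Df e1 = 0`, apply `Dc`: `b = b' = 0`; and `euler v ≠ 0` since
  `v ≠ 0` and the weights are positive.
* `open_sub`: the image of an open subset of `D` is open: at a point `d0` of `D'`, with `c` from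
  `coord` at `v = f d0`: there is an open ball `O` around `v` with: every `u ∈ O ∩ cone` has
  `c u ∈ D'` and `u = act (l u) (f (c u))` and `l u ≠ 0`; so
  `X.proj '' (O ∩ cone) ⊆ X.proj ∘ f '' D'`, and the left hand side is open
  (`isOpen_proj_image`) and contains `proj (f d0)`.
-/

set_option autoImplicit false

namespace Pool.Agent.K3Pieces

open scoped Topology

namespace Surf

/-- A chart of the surface at the point `p`: a holomorphic map `f` from the open set `D ∋ 0` of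
`ℂ²` to the cone, such that `d ↦ X.proj (f d)` is injective on `D` with open image, with `0 ↦ p`, and
such that locally on the cone `u = act (l u) (f (c u))` for holomorphic functions `c`, `l`
of the ambient variables. -/
structure Chart (X : Surf) (p : X.Pt) where
  f : C2 → X.Amb
  D : Set C2
  isOpen : IsOpen D
  mem : (0 : C2) ∈ D
  plot : ∀ d ∈ D, X.PlotAt f d
  map : X.proj (f 0) = p
  isOpen_image : IsOpen ((fun d => X.proj (f d)) '' D)
  inj : Set.InjOn (fun d => X.proj (f d)) D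
  coord : ∀ v ∈ X.cone, X.proj v ∈ (fun d => X.proj (f d)) '' D →
    ∃ (c : X.Amb → C2) (l : X.Amb → ℂ), HolAt c v ∧ HolAt l v ∧ l v ≠ 0 ∧ c v ∈ D ∧
      ∀ᶠ u in 𝓝 v, u ∈ X.cone → u = act X.w (l u) (f (c u))

namespace Chart

variable {X : Surf} {p : X.Pt} (C : X.Chart p)

/-- The open set of the surface covered by the chart. -/
def V : Set X.Pt := (fun d => X.proj (C.f d)) '' C.D

theorem mem_V : p ∈ C.V := ⟨0, C.mem, C.map⟩

theorem isOpen_V : IsOpen C.V := C.isOpen_image

open Classical in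
/-- The coordinate function of the chart (junk outside `C.V`). -/
noncomputable def κ (x : X.Pt) : C2 :=
  if h : ∃ d ∈ C.D, X.proj (C.f d) = x then h.choose else 0

theorem κ_proj {d : C2} (hd : d ∈ C.D) : C.κ (X.proj (C.f d)) = d := by
  have h : ∃ e ∈ C.D, X.proj (C.f e) = X.proj (C.f d) := ⟨d, hd, rfl⟩
  unfold κ
  rw [dif_pos h]
  exact C.inj h.choose_spec.1 hd h.choose_spec.2

theorem κ_mem {x : X.Pt} (hx : x ∈ C.V) : C.κ x ∈ C.D := by
  obtain ⟨d, hd, rfl⟩ := hx
  change C.κ (X.proj (C.f d)) ∈ C.D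
  rw [C.κ_proj hd]
  exact hd

theorem proj_κ {x : X.Pt} (hx : x ∈ C.V) : X.proj (C.f (C.κ x)) = x := by
  obtain ⟨d, hd, rfl⟩ := hx
  change X.proj (C.f (C.κ (X.proj (C.f d)))) = X.proj (C.f d)
  rw [C.κ_proj hd]

/-- If `u = act (l u) (f (c u))`, then `f (c u)` represents the same point as `u`. -/
theorem c0_aux_proj {u : X.Amb} {e : C2} {s : ℂ} (he : e ∈ C.D) (hs : s ≠ 0)
    (h : u = act X.w s (C.f e)) : X.proj u = X.proj (C.f e) := by
  rw [h]
  exact X.proj_act (C.plot e he).mem hs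

/-- Every local holomorphic map into `C.V` factors holomorphically through the chart. -/
theorem factor {g : C2 → X.Amb} {q : C2} (hg : X.PlotAt g q) (hq : X.proj (g q) ∈ C.V) :
    HolAt (fun z => C.κ (X.proj (g z))) q ∧ ∃ l : C2 → ℂ, HolAt l q ∧ l q ≠ 0 ∧
      g =ᶠ[𝓝 q] fun z => act X.w (l z) (C.f (C.κ (X.proj (g z)))) := by
  obtain ⟨c, l, hc, hl, hl0, hcD, h⟩ := C.coord (g q) hg.mem hq
  have hgc : ContinuousAt g q := hg.holAt.continuousAt
  have h1 : ∀ᶠ z in 𝓝 q, C.κ (X.proj (g z)) = c (g z) ∧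
      g z = act X.w (l (g z)) (C.f (c (g z))) := by
    have h2 : ∀ᶠ z in 𝓝 q, c (g z) ∈ C.D :=
      hgc.eventually (hc.continuousAt.eventually_mem (C.isOpen.mem_nhds hcD))
    have h3 : ∀ᶠ z in 𝓝 q, l (g z) ≠ 0 := hgc.eventually (hl.continuousAt.eventually_ne hl0)
    filter_upwards [h2, h3, hgc.eventually h, hg] with z h4 h5 h6 h7
    have h8 := h6 h7.2
    refine ⟨?_, h8⟩
    rw [C.c0_aux_proj h4 h5 h8, C.κ_proj h4]
  refine ⟨?_, fun z => l (g z), hl.comp hg.holAt, hl0, ?_⟩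
  · refine (hc.comp hg.holAt).congr ?_
    filter_upwards [h1] with z h2
    exact h2.1.symm
  · filter_upwards [h1] with z h2
    rw [h2.1]
    exact h2.2

/-- The coordinate functions of the chart near `C.f d0`. -/
theorem left_inv_coord {d0 : C2} (hd : d0 ∈ C.D) {c : X.Amb → C2} {l : X.Amb → ℂ}
    (hc : HolAt c (C.f d0)) (hl : HolAt l (C.f d0)) (hl0 : l (C.f d0) ≠ 0)
    (hcD : c (C.f d0) ∈ C.D)
    (h : ∀ᶠ u in 𝓝 (C.f d0), u ∈ X.cone → u = act X.w (l u) (C.f (c u))) :
    ∀ᶠ d in 𝓝 d0, c (C.f d) = d := by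
  have hf := C.plot d0 hd
  have hfc : ContinuousAt C.f d0 := hf.holAt.continuousAt
  have h2 : ∀ᶠ z in 𝓝 d0, c (C.f z) ∈ C.D :=
    hfc.eventually (hc.continuousAt.eventually_mem (C.isOpen.mem_nhds hcD))
  have h3 : ∀ᶠ z in 𝓝 d0, l (C.f z) ≠ 0 := hfc.eventually (hl.continuousAt.eventually_ne hl0)
  filter_upwards [h2, h3, hfc.eventually h, hf, C.isOpen.mem_nhds hd] with z h4 h5 h6 h7 h8
  have h9 := C.c0_aux_proj h4 h5 (h6 h7.2)
  exact (C.inj h8 h4 h9).symm

theorem immersive {d : C2} (hd : d ∈ C.D) : X.Immersive C.f d := by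
  have hf := C.plot d hd
  have hv : C.f d ∈ X.cone := hf.mem
  obtain ⟨c, l, hc, hl, hl0, hcD, h⟩ := C.coord (C.f d) hv ⟨d, hd, rfl⟩
  have hinv := C.left_inv_coord hd hc hl hl0 hcD h
  have hfd : DifferentiableAt ℂ C.f d := hf.holAt.differentiableAt
  have hcd : DifferentiableAt ℂ c (C.f d) := hc.differentiableAt
  -- the derivative of `c ∘ f` is the identity
  have hD1 : ∀ e : C2, fderiv ℂ c (C.f d) (fderiv ℂ C.f d e) = e := by
    intro e
    have h1 : HasFDerivAt (fun z => c (C.f z)) ((fderiv ℂ c (C.f d)).comp (fderiv ℂ C.f d)) d :=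
      hcd.hasFDerivAt.comp d hfd.hasFDerivAt
    have h2 : HasFDerivAt (fun z => c (C.f z)) (ContinuousLinearMap.id ℂ C2) d :=
      (hasFDerivAt_id d).congr_of_eventuallyEq hinv
    have h3 := h1.unique h2
    have h4 := DFunLike.congr_fun h3 e
    simpa using h4
  -- the derivative of `c` vanishes on the Euler vector
  have hs : HasDerivAt (fun s : ℂ => act X.w s (C.f d)) (X.euler (C.f d)) 1 := by
    rw [hasDerivAt_pi]
    intro i
    have h1 := (hasDerivAt_pow (X.w i) (1 : ℂ)).mul_const (C.f d i)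
    simpa [act, euler] using h1
  have hs1 : act X.w 1 (C.f d) = C.f d := act_one X.w _
  have hD2 : fderiv ℂ c (C.f d) (X.euler (C.f d)) = 0 := by
    have hsc : ContinuousAt (fun s : ℂ => act X.w s (C.f d)) 1 := hs.continuousAt
    have hst : Filter.Tendsto (fun s : ℂ => act X.w s (C.f d)) (𝓝 1) (𝓝 (C.f d)) := by
      have h1 := hsc.tendsto
      rwa [hs1] at h1
    have h2 : ∀ᶠ s in 𝓝 (1 : ℂ), c (act X.w s (C.f d)) ∈ C.D :=
      hst.eventually (hc.continuousAt.eventually_mem (C.isOpen.mem_nhds hcD))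
    have h3 : ∀ᶠ s in 𝓝 (1 : ℂ), l (act X.w s (C.f d)) ≠ 0 :=
      hst.eventually (hl.continuousAt.eventually_ne hl0)
    have h4 : ∀ᶠ s in 𝓝 (1 : ℂ), s ≠ 0 := continuousAt_id.eventually_ne one_ne_zero
    have h5 : (fun s : ℂ => c (act X.w s (C.f d))) =ᶠ[𝓝 1] fun _ => d := by
      filter_upwards [h2, h3, h4, hst.eventually h] with s h6 h7 h8 h9
      have h10 := C.c0_aux_proj h6 h7 (h9 (X.act_mem_cone hv h8))
      rw [X.proj_act hv h8] at h10
      exact (C.inj hd h6 h10).symm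
    have h6 : HasDerivAt (fun s : ℂ => c (act X.w s (C.f d))) 0 1 :=
      (hasDerivAt_const (1 : ℂ) d).congr_of_eventuallyEq h5
    have h7 : HasDerivAt (fun s : ℂ => c (act X.w s (C.f d)))
        (fderiv ℂ c (C.f d) (X.euler (C.f d))) 1 := by
      have h8 : HasFDerivAt c (fderiv ℂ c (C.f d)) (act X.w 1 (C.f d)) := by
        rw [hs1]
        exact hcd.hasFDerivAt
      exact h8.comp_hasDerivAt 1 hs
    exact h7.unique h6
  -- the Euler vector is not zero
  have heul : X.euler (C.f d) ≠ 0 := by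
    intro h0
    apply hv.1
    funext i
    have h1 := congrFun h0 i
    simp only [euler, Pi.zero_apply, mul_eq_zero, Nat.cast_eq_zero] at h1
    rcases h1 with h1 | h1
    · exact absurd h1 (X.w_pos i).ne'
    · exact h1
  unfold Immersive
  rw [Fintype.linearIndependent_iff]
  intro a ha
  rw [Fin.sum_univ_three] at ha
  simp only [Matrix.cons_val_zero, Matrix.cons_val_one, Matrix.cons_val_two, Matrix.head_cons,
    Matrix.tail_cons] at ha
  have h1 := congrArg (fderiv ℂ c (C.f d)) ha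
  simp only [map_add, map_smul, hD1, hD2, smul_zero, zero_add, map_zero] at h1
  have ha1 : a 1 = 0 := by
    have := congrFun h1 0
    simpa using this
  have ha2 : a 2 = 0 := by
    have := congrFun h1 1
    simpa using this
  rw [ha1, ha2, zero_smul, zero_smul, add_zero, add_zero] at ha
  have ha0 : a 0 = 0 := (smul_eq_zero.1 ha).resolve_right heul
  intro i
  fin_cases i
  · exact ha0
  · exact ha1
  · exact ha2

/-- Images of open sets are open. -/
theorem open_sub {D' : Set C2} (hD' : IsOpen D') (hsub : D' ⊆ C.D) :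
    IsOpen ((fun d => X.proj (C.f d)) '' D') := by
  rw [isOpen_iff_forall_mem_open]
  rintro _ ⟨d0, hd0, rfl⟩
  have hd := hsub hd0
  have hv : C.f d0 ∈ X.cone := (C.plot d0 hd).mem
  obtain ⟨c, l, hc, hl, hl0, hcD, h⟩ := C.coord (C.f d0) hv ⟨d0, hd, rfl⟩
  have hcv : c (C.f d0) = d0 := (C.left_inv_coord hd hc hl hl0 hcD h).self_of_nhds
  have h1 : ∀ᶠ u in 𝓝 (C.f d0), c u ∈ D' :=
    hc.continuousAt.eventually_mem (hD'.mem_nhds (by rw [hcv]; exact hd0))
  have h2 : ∀ᶠ u in 𝓝 (C.f d0), l u ≠ 0 := hl.continuousAt.eventually_ne hl0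
  obtain ⟨O, hO, hOo, hOm⟩ := eventually_nhds_iff.1 (h1.and (h2.and h))
  refine ⟨X.proj '' (O ∩ X.cone), ?_, X.isOpen_proj_image hOo, ⟨C.f d0, ⟨hOm, hv⟩, rfl⟩⟩
  rintro _ ⟨u, ⟨hu1, hu2⟩, rfl⟩
  obtain ⟨h3, h4, h5⟩ := hO u hu1
  exact ⟨c u, h3, (C.c0_aux_proj (hsub h3) h4 (h5 hu2)).symm⟩

/-- The coordinate function is continuous. -/
theorem continuousOn_κ : ContinuousOn C.κ C.V := by
  rw [continuousOn_open_iff C.isOpen_V]
  intro t ht
  have h1 : C.V ∩ C.κ ⁻¹' t = (fun d => X.proj (C.f d)) '' (C.D ∩ t) := by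
    ext x
    constructor
    · rintro ⟨hx, hxt⟩
      exact ⟨C.κ x, ⟨C.κ_mem hx, hxt⟩, C.proj_κ hx⟩
    · rintro ⟨d, ⟨hd, hdt⟩, rfl⟩
      refine ⟨⟨d, hd, rfl⟩, ?_⟩
      change C.κ (X.proj (C.f d)) ∈ t
      rw [C.κ_proj hd]
      exact hdt
  rw [h1]
  exact C.open_sub (C.isOpen.inter ht) Set.inter_subset_left

end Chart

end Surf

end Pool.Agent.K3Pieces
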