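import Pool.Agent.Lib.MP_3004b3_ag.B0
import Pool.Agent.Lib.MP_3004b3_ag.A1

/-!
# JOB C1: a local slice of the `ℂˣ`-action on the cone

Let `v0` be a point of the cone and `Φ` a local submersion as in `X.smooth`. Write
`E0 = euler v0` and `K = ker (fderiv ℂ Φ v0)`, of dimension `(c + 3) - c = 3`.

1. `E0 ∈ K`: the function `s ↦ Φ (act s v0)` vanishes near `s = 1` (`act_mem_cone`), and its
   derivative at `s = 1` is `fderiv Φ v0 E0`. And `E0 ≠ 0`, as `v0 ≠ 0` and all weights are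
   positive.
2. There is a linear isomorphism `κ0 : K ≃ (Fin 3 → ℂ)` with `κ0 E0 = e_0` (extend `E0` to a basis),
   and a linear projection of the ambient space onto `K` (`Submodule.exists_isCompl`,
   `LinearMap.exists_leftInverse_of_injective`); the composition is a linear map
   `L : Amb → (Fin 3 → ℂ)` with `L E0 = e_0` and such that `(fderiv Φ v0, L)` is an isomorphism onto
   `(Fin c → ℂ) × (Fin 3 → ℂ)`.
3. Inverse function theorem (`HolAt.exists_inverse`) for `Θ v = (Φ v, L (v - v0))` at `v0`, with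
   local inverse `ψ`; put `f d = ψ (0, ![0, d 0, d 1])`. So `f 0 = v0`, near `0` the vector `f d` is in
   the cone, `L (f d - v0) = ![0, d 0, d 1]`.
4. `Ψ t = L (act (1 + t 0) (f ![t 1, t 2]) - v0)` maps `Fin 3 → ℂ` to itself, `Ψ 0 = 0`, and its
   derivative at `0` is the identity (`∂/∂t_0`: `L E0 = e_0`). Let `Ψ'` be its local
   inverse. Put `c u = ![Ψ' (L (u - v0)) 1, Ψ' (L (u - v0)) 2]`, `l u = 1 + Ψ' (L (u - v0)) 0`.
5. The last but one claim: let `u` be in the cone near `v0`, and `u' = act (l u) (f (c u))`. Then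
   `L (u' - v0) = Ψ (Ψ' (L (u - v0))) = L (u - v0)` and `Φ u' = 0 = Φ u`, so `Θ u' = Θ u`, and
   `u = u'` as both are near `v0`. The last claim is `Ψ' (Ψ t) = t`.
-/

set_option autoImplicit false

namespace Pool.Agent.K3Pieces

open scoped Topology

/-- Linear algebra: complement a surjection with nonzero vector in the kernel. -/
private theorem c1_linear {c : ℕ} (A : (Fin (c + 3) → ℂ) →L[ℂ] (Fin c → ℂ))
    (hA : Function.Surjective A) {E0 : Fin (c + 3) → ℂ} (hE : E0 ≠ 0) (hAE : A E0 = 0) :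
    ∃ (L : (Fin (c + 3) → ℂ) →L[ℂ] (Fin 3 → ℂ))
      (e : (Fin (c + 3) → ℂ) ≃L[ℂ] (Fin c → ℂ) × (Fin 3 → ℂ)),
      L E0 = Pi.single 0 1 ∧ (e : (Fin (c + 3) → ℂ) →L[ℂ] (Fin c → ℂ) × (Fin 3 → ℂ)) = A.prod L := by
  set K : Submodule ℂ (Fin (c + 3) → ℂ) := LinearMap.ker (A : (Fin (c + 3) → ℂ) →ₗ[ℂ] (Fin c → ℂ))
    with hK
  have hKfin : Module.finrank ℂ K = 3 := by
    have h1 := LinearMap.finrank_range_add_finrank_ker
      (A : (Fin (c + 3) → ℂ) →ₗ[ℂ] (Fin c → ℂ))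
    have h2 : LinearMap.range (A : (Fin (c + 3) → ℂ) →ₗ[ℂ] (Fin c → ℂ)) = ⊤ :=
      LinearMap.range_eq_top.2 hA
    rw [h2, finrank_top, Module.finrank_fin_fun, Module.finrank_fin_fun] at h1
    change Module.finrank ℂ (LinearMap.ker (A : (Fin (c + 3) → ℂ) →ₗ[ℂ] (Fin c → ℂ))) = 3
    omega
  have hE0K : E0 ∈ K := by
    rw [hK, LinearMap.mem_ker]
    exact hAE
  have hfr : Module.finrank ℂ K = Module.finrank ℂ (Fin 3 → ℂ) := by
    rw [hKfin, Module.finrank_fin_fun]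
  let κ1 : K ≃ₗ[ℂ] (Fin 3 → ℂ) := LinearEquiv.ofFinrankEq K (Fin 3 → ℂ) hfr
  have hne : κ1 ⟨E0, hE0K⟩ ≠ 0 := by
    intro h
    have h1 : (⟨E0, hE0K⟩ : K) = 0 := by
      have := congrArg κ1.symm h
      rwa [LinearEquiv.symm_apply_apply, map_zero] at this
    exact hE (congrArg Subtype.val h1)
  have hne' : (Pi.single 0 1 : Fin 3 → ℂ) ≠ 0 := by
    intro h
    have := congrFun h 0
    simp at this
  obtain ⟨M, hM⟩ := SeparatingDual.exists_continuousLinearEquiv_apply_eq (R := ℂ) hne hne'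
  obtain ⟨P, hP⟩ := LinearMap.exists_leftInverse_of_injective K.subtype
    (LinearMap.ker_eq_bot.2 K.injective_subtype)
  let L0 : (Fin (c + 3) → ℂ) →ₗ[ℂ] (Fin 3 → ℂ) :=
    (M.toLinearEquiv.toLinearMap.comp κ1.toLinearMap).comp P
  have hL0 : ∀ v (hv : v ∈ K), L0 v = M (κ1 ⟨v, hv⟩) := by
    intro v hv
    have h1 : P v = ⟨v, hv⟩ := LinearMap.congr_fun hP ⟨v, hv⟩
    change M (κ1 (P v)) = _
    rw [h1]
  let L : (Fin (c + 3) → ℂ) →L[ℂ] (Fin 3 → ℂ) := LinearMap.toContinuousLinearMap L0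
  have hLapp : ∀ v, L v = L0 v := fun v => rfl
  let T : (Fin (c + 3) → ℂ) →ₗ[ℂ] (Fin c → ℂ) × (Fin 3 → ℂ) :=
    ((A.prod L : (Fin (c + 3) → ℂ) →L[ℂ] (Fin c → ℂ) × (Fin 3 → ℂ)) :
      (Fin (c + 3) → ℂ) →ₗ[ℂ] (Fin c → ℂ) × (Fin 3 → ℂ))
  have hTapp : ∀ v, T v = (A v, L v) := fun v => rfl
  have hinj : Function.Injective T := by
    rw [← LinearMap.ker_eq_bot, LinearMap.ker_eq_bot']
    intro v hv
    rw [hTapp, Prod.mk_eq_zero] at hv
    have hvK : v ∈ K := by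
      rw [hK, LinearMap.mem_ker]
      exact hv.1
    have h1 := hv.2
    rw [hLapp, hL0 v hvK] at h1
    have h2 : κ1 ⟨v, hvK⟩ = 0 := by
      have := congrArg M.symm h1
      rwa [ContinuousLinearEquiv.symm_apply_apply, map_zero] at this
    have h3 : (⟨v, hvK⟩ : K) = 0 := by
      have := congrArg κ1.symm h2
      rwa [LinearEquiv.symm_apply_apply, map_zero] at this
    exact congrArg Subtype.val h3
  have hdim : Module.finrank ℂ (Fin (c + 3) → ℂ) =
      Module.finrank ℂ ((Fin c → ℂ) × (Fin 3 → ℂ)) := by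
    rw [Module.finrank_prod, Module.finrank_fin_fun, Module.finrank_fin_fun,
      Module.finrank_fin_fun]
  let e0 := T.linearEquivOfInjective hinj hdim
  refine ⟨L, e0.toContinuousLinearEquiv, ?_, ?_⟩
  · rw [hLapp, hL0 E0 hE0K, hM]
  · ext1 v
    change e0 v = _
    rw [LinearMap.linearEquivOfInjective_apply]
    rfl

private theorem c1_cons3 {E : Type} [NormedAddCommGroup E] [NormedSpace ℂ E] {a b d : E → ℂ} {q : E}
    (ha : HolAt a q) (hb : HolAt b q) (hd : HolAt d q) :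
    HolAt (fun z => (![a z, b z, d z] : Fin 3 → ℂ)) q := by
  rw [holAt_pi]
  intro i
  fin_cases i
  · exact ha
  · exact hb
  · exact hd

private theorem c1_cons2 {E : Type} [NormedAddCommGroup E] [NormedSpace ℂ E] {a b : E → ℂ} {q : E}
    (ha : HolAt a q) (hb : HolAt b q) : HolAt (fun z => (![a z, b z] : Fin 2 → ℂ)) q := by
  rw [holAt_pi]
  intro i
  fin_cases i
  · exact ha
  · exact hb

private theorem c1_deriv_act {n : ℕ} (w : Fin n → ℕ) {f : C2 → (Fin n → ℂ)}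
    {v0 : Fin n → ℂ} (hf0 : f 0 = v0) {f' : C2 →L[ℂ] (Fin n → ℂ)} (hf : HasFDerivAt f f' 0) :
    HasFDerivAt (fun x : ℂ × C2 => act w x.1 (f x.2))
      ((ContinuousLinearMap.fst ℂ ℂ C2).smulRight (fun i => (w i : ℂ) * v0 i) +
        f'.comp (ContinuousLinearMap.snd ℂ ℂ C2)) ((1 : ℂ), (0 : C2)) := by
  rw [hasFDerivAt_pi']
  intro i
  have h1 : HasFDerivAt (fun x : ℂ × C2 => x.1 ^ w i)
      (((w i : ℂ) * (1 : ℂ) ^ (w i - 1)) • ContinuousLinearMap.fst ℂ ℂ C2) ((1 : ℂ), (0 : C2)) :=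
    (hasDerivAt_pow (w i) (1 : ℂ)).comp_hasFDerivAt ((1 : ℂ), (0 : C2)) hasFDerivAt_fst
  have h2 : HasFDerivAt (fun x : ℂ × C2 => f x.2 i)
      (((ContinuousLinearMap.proj i).comp f').comp (ContinuousLinearMap.snd ℂ ℂ C2))
      ((1 : ℂ), (0 : C2)) := by
    have h3 : HasFDerivAt (fun d : C2 => f d i) ((ContinuousLinearMap.proj i).comp f') (0 : C2) :=
      (hasFDerivAt_pi'.1 hf) i
    have h3' : HasFDerivAt (fun d : C2 => f d i) ((ContinuousLinearMap.proj i).comp f')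
        (((1 : ℂ), (0 : C2)).2) := h3
    exact h3'.comp ((1 : ℂ), (0 : C2)) (f := Prod.snd) hasFDerivAt_snd
  have h4 := h1.mul h2
  refine h4.congr_fderiv (ContinuousLinearMap.ext fun x => ?_)
  show (1 : ℂ) ^ w i • (f' x.2 i) + f 0 i • (((w i : ℂ) * (1 : ℂ) ^ (w i - 1)) • x.1) =
    (x.1 • (fun i => (w i : ℂ) * v0 i) + f' x.2) i
  rw [hf0, one_pow, one_pow, Pi.add_apply, Pi.smul_apply, smul_eq_mul, smul_eq_mul, smul_eq_mul,
    smul_eq_mul]
  ring

namespace Surf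

variable (X : Surf)

theorem exists_slice {v0 : X.Amb} (hv0 : v0 ∈ X.cone) :
    ∃ (f : C2 → X.Amb) (c : X.Amb → C2) (l : X.Amb → ℂ),
      HolAt f 0 ∧ f 0 = v0 ∧ HolAt c v0 ∧ HolAt l v0 ∧ c v0 = 0 ∧ l v0 = 1 ∧
      (∀ᶠ d in 𝓝 (0 : C2), f d ∈ X.cone) ∧
      (∀ᶠ u in 𝓝 v0, u ∈ X.cone → u = act X.w (l u) (f (c u))) ∧
      (∀ᶠ x in 𝓝 ((1 : ℂ), (0 : C2)), c (act X.w x.1 (f x.2)) = x.2 ∧
        l (act X.w x.1 (f x.2)) = x.1) := by
  obtain ⟨Φ, hΦ, hsurj, hiff⟩ := X.smooth v0 hv0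
  set A := fderiv ℂ Φ v0 with hA
  set E0 : X.Amb := X.euler v0 with hE0
  have hΦ0 : Φ v0 = 0 := hiff.self_of_nhds.1 hv0
  have hdΦ : HasFDerivAt Φ A v0 := hΦ.differentiableAt.hasFDerivAt
  -- the Euler vector
  have hE0ne : E0 ≠ 0 := by
    intro h
    apply hv0.1
    funext i
    have h1 : (X.w i : ℂ) * v0 i = 0 := congrFun h i
    have h2 : (X.w i : ℂ) ≠ 0 := by exact_mod_cast (X.w_pos i).ne'
    exact (mul_eq_zero.1 h1).resolve_left h2
  have hact : HasDerivAt (fun s : ℂ => act X.w s v0) E0 1 := by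
    rw [hasDerivAt_pi]
    intro i
    have h1 := (hasDerivAt_pow (X.w i) (1 : ℂ)).mul_const (v0 i)
    refine h1.congr_deriv ?_
    rw [one_pow, mul_one]
    rfl
  have hact1 : act X.w 1 v0 = v0 := act_one X.w v0
  have hAE : A E0 = 0 := by
    have h1 : HasDerivAt (fun s : ℂ => Φ (act X.w s v0)) (A E0) 1 := by
      have h2 : HasFDerivAt Φ A (act X.w 1 v0) := by rw [hact1]; exact hdΦ
      exact h2.comp_hasDerivAt (1 : ℂ) hact
    have h3 : (fun s : ℂ => Φ (act X.w s v0)) =ᶠ[𝓝 1] fun _ => (0 : Fin X.c → ℂ) := by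
      have h4 : Filter.Tendsto (fun s : ℂ => act X.w s v0) (𝓝 1) (𝓝 v0) := by
        have := hact.continuousAt.tendsto
        rwa [hact1] at this
      have h5 : ∀ᶠ s : ℂ in 𝓝 1, s ≠ 0 := isOpen_ne.mem_nhds one_ne_zero
      filter_upwards [h4.eventually hiff, h5] with s h6 h7
      exact h6.1 (X.act_mem_cone hv0 h7)
    have h8 : HasDerivAt (fun s : ℂ => Φ (act X.w s v0)) 0 1 :=
      (hasDerivAt_const (1 : ℂ) (0 : Fin X.c → ℂ)).congr_of_eventuallyEq h3
    exact h1.unique h8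
  obtain ⟨L, e, hLE, heL⟩ := c1_linear A hsurj hE0ne hAE
  -- the map Θ and its inverse
  set Θ : X.Amb → (Fin X.c → ℂ) × (Fin 3 → ℂ) := fun v => (Φ v, L (v - v0)) with hΘ
  have hΘ0 : Θ v0 = 0 := by
    simp only [hΘ, hΦ0, sub_self, map_zero]
    rfl
  have hLsub : ∀ q : X.Amb, HolAt (fun v : X.Amb => L (v - v0)) q := fun q =>
    Differentiable.holAt (L.differentiable.comp (differentiable_id.sub_const v0)) q
  have hΘhol : HolAt Θ v0 := by
    filter_upwards [hΦ, hLsub v0] with v h1 h2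
    exact h1.prodMk h2
  have hΘd : fderiv ℂ Θ v0 = (e : X.Amb →L[ℂ] (Fin X.c → ℂ) × (Fin 3 → ℂ)) := by
    rw [heL]
    have h1 : HasFDerivAt (fun v : X.Amb => L (v - v0)) L v0 := by
      have := L.hasFDerivAt.comp v0 ((hasFDerivAt_id v0).sub_const v0)
      simpa using this
    exact (hdΦ.prodMk h1).fderiv
  obtain ⟨ψ, hψhol, hψ0, hψΘ, hΘψ⟩ := hΘhol.exists_inverse e hΘd
  rw [hΘ0] at hψhol hψ0 hΘψ
  -- the map f
  set ι : C2 → (Fin X.c → ℂ) × (Fin 3 → ℂ) := fun d => (0, ![0, d 0, d 1]) with hι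
  have hι0 : ι 0 = 0 := by
    simp only [hι, Pi.zero_apply]
    refine Prod.ext rfl ?_
    funext i
    fin_cases i <;> rfl
  have hιhol : HolAt ι 0 := by
    have h1 : HolAt (fun d : C2 => (![0, d 0, d 1] : Fin 3 → ℂ)) 0 :=
      c1_cons3 (holAt_const 0 _) (holAt_pi.1 (holAt_id (0 : C2)) 0)
        (holAt_pi.1 (holAt_id (0 : C2)) 1)
    filter_upwards [h1] with d h2
    exact (differentiableAt_const _).prodMk h2
  set f : C2 → X.Amb := fun d => ψ (ι d) with hf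
  have hf0 : f 0 = v0 := by
    simp only [hf, hι0, hψ0]
  have hfhol : HolAt f 0 := by
    have h1 : HolAt ψ (ι 0) := by rw [hι0]; exact hψhol
    exact h1.comp hιhol
  have hΘf : ∀ᶠ d in 𝓝 (0 : C2), Θ (f d) = ι d := by
    have h1 : Filter.Tendsto ι (𝓝 0) (𝓝 0) := by
      have := hιhol.continuousAt.tendsto
      rwa [hι0] at this
    exact h1.eventually hΘψ
  have hfv : Filter.Tendsto f (𝓝 0) (𝓝 v0) := by
    have := hfhol.continuousAt.tendsto
    rwa [hf0] at this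
  have hfcone : ∀ᶠ d in 𝓝 (0 : C2), f d ∈ X.cone := by
    filter_upwards [hΘf, hfv.eventually hiff] with d h1 h2
    refine h2.2 ?_
    have := congrArg Prod.fst h1
    exact this
  -- the map Ψ
  set G : ℂ × C2 → X.Amb := fun x => act X.w x.1 (f x.2) with hG
  have hG0 : G (1, 0) = v0 := by
    simp only [hG, hf0, hact1]
  have hGhol : HolAt G ((1 : ℂ), (0 : C2)) := by
    have h1 : HolAt (fun x : ℂ × C2 => f x.2) ((1 : ℂ), (0 : C2)) :=
      HolAt.comp (g := f) (f := fun x : ℂ × C2 => x.2) hfhol (Differentiable.holAt differentiable_snd _)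
    exact HolAt.act X.w (Differentiable.holAt differentiable_fst _) h1
  have hdf : HasFDerivAt f (fderiv ℂ f 0) 0 := hfhol.differentiableAt.hasFDerivAt
  have hGd := c1_deriv_act X.w hf0 hdf
  have hLf : L.comp (fderiv ℂ f 0) = fderiv ℂ (fun d : C2 => (![0, d 0, d 1] : Fin 3 → ℂ)) 0 := by
    have h1 : HasFDerivAt (fun d : C2 => L (f d - v0)) (L.comp (fderiv ℂ f 0)) 0 :=
      L.hasFDerivAt.comp (0 : C2) (hdf.sub_const v0)
    have h2 : (fun d : C2 => L (f d - v0)) =ᶠ[𝓝 0] fun d : C2 => (![0, d 0, d 1] : Fin 3 → ℂ) := by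
      filter_upwards [hΘf] with d h3
      exact congrArg Prod.snd h3
    rw [← h1.fderiv]
    exact h2.fderiv_eq
  let J : C2 →L[ℂ] (Fin 3 → ℂ) := ContinuousLinearMap.pi
    ![0, ContinuousLinearMap.proj 0, ContinuousLinearMap.proj 1]
  have hJ : ∀ d : C2, J d = ![0, d 0, d 1] := by
    intro d
    funext i
    fin_cases i <;> rfl
  have hJf : L.comp (fderiv ℂ f 0) = J := by
    rw [hLf]
    have h1 : (fun d : C2 => (![0, d 0, d 1] : Fin 3 → ℂ)) = fun d => J d :=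
      funext fun d => (hJ d).symm
    rw [h1]
    exact J.hasFDerivAt.fderiv
  let I : (Fin 3 → ℂ) → ℂ × C2 := fun t => (1 + t 0, ![t 1, t 2])
  let I' : (Fin 3 → ℂ) →L[ℂ] ℂ × C2 := (ContinuousLinearMap.proj 0).prod
    (ContinuousLinearMap.pi ![ContinuousLinearMap.proj 1, ContinuousLinearMap.proj 2])
  have hI' : ∀ t, I' t = (t 0, ![t 1, t 2]) := by
    intro t
    refine Prod.ext rfl ?_
    funext i
    fin_cases i <;> rfl
  have hIeq : I = fun t => ((1 : ℂ), (0 : C2)) + I' t := by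
    funext t
    rw [hI' t]
    refine Prod.ext rfl ?_
    show ![t 1, t 2] = (0 : C2) + ![t 1, t 2]
    rw [zero_add]
  have hI0 : I 0 = (1, 0) := by
    rw [hIeq]
    simp
  have hId : ∀ t, HasFDerivAt I I' t := by
    intro t
    rw [hIeq]
    exact I'.hasFDerivAt.const_add _
  have hIhol : HolAt I 0 := Differentiable.holAt (fun t => (hId t).differentiableAt) 0
  set Ψ : (Fin 3 → ℂ) → (Fin 3 → ℂ) := fun t => L (G (I t) - v0) with hΨ
  have hΨ0 : Ψ 0 = 0 := by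
    simp only [hΨ, hI0, hG0, sub_self, map_zero]
  have hΨhol : HolAt Ψ 0 := by
    have h1 : HolAt G (I 0) := by rw [hI0]; exact hGhol
    exact HolAt.comp (g := fun v : X.Amb => L (v - v0)) (f := fun t => G (I t)) (hLsub _)
      (h1.comp hIhol)
  have hΨd : fderiv ℂ Ψ 0 =
      ((ContinuousLinearEquiv.refl ℂ (Fin 3 → ℂ)) : (Fin 3 → ℂ) →L[ℂ] (Fin 3 → ℂ)) := by
    have h1 : HasFDerivAt G ((ContinuousLinearMap.fst ℂ ℂ C2).smulRight
        (fun i => (X.w i : ℂ) * v0 i) + (fderiv ℂ f 0).comp (ContinuousLinearMap.snd ℂ ℂ C2))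
        (I 0) := by
      rw [hI0]; exact hGd
    have h2 := L.hasFDerivAt.comp (0 : Fin 3 → ℂ) ((h1.comp (0 : Fin 3 → ℂ) (hId 0)).sub_const v0)
    have h3 : HasFDerivAt Ψ (L.comp (((ContinuousLinearMap.fst ℂ ℂ C2).smulRight
        (fun i => (X.w i : ℂ) * v0 i) +
          (fderiv ℂ f 0).comp (ContinuousLinearMap.snd ℂ ℂ C2)).comp I')) 0 := h2
    rw [h3.fderiv]
    ext1 t
    rw [ContinuousLinearMap.comp_apply, ContinuousLinearMap.comp_apply,
      add_apply, map_add, ContinuousLinearMap.smulRight_apply, map_smul,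
      ContinuousLinearMap.comp_apply, ContinuousLinearMap.coe_fst', ContinuousLinearMap.coe_snd',
      hI' t]
    have h4 : L (fun i => (X.w i : ℂ) * v0 i) = Pi.single 0 1 := hLE
    have h5 : L (fderiv ℂ f 0 (![t 1, t 2] : C2)) = ![0, t 1, t 2] := by
      have h6 := congrArg (fun M : C2 →L[ℂ] (Fin 3 → ℂ) => M ![t 1, t 2]) hJf
      change L (fderiv ℂ f 0 ![t 1, t 2]) = J ![t 1, t 2] at h6
      rw [h6, hJ]
      rfl
    change t 0 • L (fun i => (X.w i : ℂ) * v0 i) + L (fderiv ℂ f 0 (![t 1, t 2] : C2)) = t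
    rw [h4, h5]
    funext i
    fin_cases i <;> simp
  obtain ⟨Ψ', hΨ'hol, hΨ'0, hΨ'Ψ, hΨΨ'⟩ := hΨhol.exists_inverse _ hΨd
  rw [hΨ0] at hΨ'hol hΨ'0 hΨΨ'
  -- the functions c and l
  set τ : X.Amb → (Fin 3 → ℂ) := fun u => Ψ' (L (u - v0)) with hτ
  have hLv0 : L (v0 - v0) = 0 := by rw [sub_self, map_zero]
  have hτ0 : τ v0 = 0 := by
    simp only [hτ, hLv0, hΨ'0]
  have hτhol : HolAt τ v0 := by
    have h1 : HolAt Ψ' (L (v0 - v0)) := by rw [hLv0]; exact hΨ'hol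
    exact HolAt.comp (g := Ψ') (f := fun u : X.Amb => L (u - v0)) h1 (hLsub v0)
  set c : X.Amb → C2 := fun u => ![τ u 1, τ u 2] with hc
  set l : X.Amb → ℂ := fun u => 1 + τ u 0 with hl
  have hchol : HolAt c v0 := c1_cons2 (holAt_pi.1 hτhol 1) (holAt_pi.1 hτhol 2)
  have hlhol : HolAt l v0 := (holAt_const 1 _).add (holAt_pi.1 hτhol 0)
  have hc0 : c v0 = 0 := by
    simp only [hc, hτ0, Pi.zero_apply]
    funext i
    fin_cases i <;> rfl
  have hl0 : l v0 = 1 := by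
    simp only [hl, hτ0, Pi.zero_apply, add_zero]
  have hcl : ∀ u, (l u, c u) = I (τ u) := fun u => rfl
  have hLt : Filter.Tendsto (fun u : X.Amb => L (u - v0)) (𝓝 v0) (𝓝 0) := by
    have := (hLsub v0).continuousAt.tendsto
    rwa [hLv0] at this
  have hut : Filter.Tendsto (fun u : X.Amb => act X.w (l u) (f (c u))) (𝓝 v0) (𝓝 v0) := by
    have h1 : HolAt G (l v0, c v0) := by rw [hl0, hc0]; exact hGhol
    have h2 : ContinuousAt (fun u : X.Amb => G (l u, c u)) v0 :=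
      ContinuousAt.comp (f := fun u : X.Amb => (l u, c u)) (g := G) h1.continuousAt
        (hlhol.continuousAt.prodMk hchol.continuousAt)
    have h3 := h2.tendsto
    rw [hl0, hc0, hG0] at h3
    exact h3
  refine ⟨f, c, l, hfhol, hf0, hchol, hlhol, hc0, hl0, hfcone, ?_, ?_⟩
  · have hct : Filter.Tendsto c (𝓝 v0) (𝓝 0) := by
      have := hchol.continuousAt.tendsto
      rwa [hc0] at this
    have hlne : ∀ᶠ u in 𝓝 v0, l u ≠ 0 :=
      hlhol.continuousAt.eventually_ne (by rw [hl0]; exact one_ne_zero)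
    filter_upwards [hLt.eventually hΨΨ', hct.eventually hfcone, hlne, hut.eventually hiff, hiff,
      hψΘ, hut.eventually hψΘ] with u h1 h2 h3 h4 h5 h6 h7 hu
    set u' := act X.w (l u) (f (c u)) with hu'
    have h8 : L (u' - v0) = L (u - v0) := by
      have h9 : Ψ (τ u) = L (u' - v0) := rfl
      rw [← h9]
      exact h1
    have h10 : Φ u' = 0 := h4.1 (X.act_mem_cone h2 h3)
    have h11 : Φ u = 0 := h5.1 hu
    have h12 : Θ u' = Θ u := by
      simp only [hΘ]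
      rw [h8, h10, h11]
    rw [← h6, ← h7, h12]
  · have h1 : Filter.Tendsto (fun x : ℂ × C2 => (![x.1 - 1, x.2 0, x.2 1] : Fin 3 → ℂ))
        (𝓝 ((1 : ℂ), (0 : C2))) (𝓝 0) := by
      have h2 : HolAt (fun x : ℂ × C2 => (![x.1 - 1, x.2 0, x.2 1] : Fin 3 → ℂ))
          ((1 : ℂ), (0 : C2)) :=
        c1_cons3 ((Differentiable.holAt differentiable_fst _).sub (holAt_const 1 _))
          (holAt_pi.1 (Differentiable.holAt differentiable_snd _) 0)
          (holAt_pi.1 (Differentiable.holAt differentiable_snd _) 1)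
      have h3 := h2.continuousAt.tendsto
      have h4 : (![((1 : ℂ), (0 : C2)).1 - 1, ((1 : ℂ), (0 : C2)).2 0, ((1 : ℂ), (0 : C2)).2 1] :
          Fin 3 → ℂ) = 0 := by
        funext i
        fin_cases i <;> simp
      rw [h4] at h3
      exact h3
    filter_upwards [h1.eventually hΨ'Ψ] with x h5
    have h6 : I ![x.1 - 1, x.2 0, x.2 1] = x := by
      refine Prod.ext ?_ ?_
      · show 1 + (x.1 - 1) = x.1
        ring
      · funext i
        fin_cases i <;> rfl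
    have h7 : τ (act X.w x.1 (f x.2)) = ![x.1 - 1, x.2 0, x.2 1] := by
      have h8 : Ψ ![x.1 - 1, x.2 0, x.2 1] = L (act X.w x.1 (f x.2) - v0) := by
        simp only [hΨ, h6, hG]
      simp only [hτ]
      rw [← h8]
      exact h5
    have h9 := hcl (act X.w x.1 (f x.2))
    rw [h7, h6] at h9
    exact ⟨congrArg Prod.snd h9, congrArg Prod.fst h9⟩

end Surf

end Pool.Agent.K3Pieces
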