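import Pool.Agent.Lib.MP_3004b3_ag.C0
import Pool.Agent.Lib.MP_3004b3_ag.C1

/-!
# JOB C2: existence of charts

Take `v0` in the cone with `proj v0 = p` and `f`, `c`, `l` from `exists_slice`.

* `slice_inj`: near `0` the map `d ↦ proj (f d)` is injective. Otherwise there are sequences
  `d_n, d'_n → 0` with `d_n ≠ d'_n` and `f d'_n = act l_n (f d_n)`, `l_n ≠ 0`. Choose `i` with
  `v0 i ≠ 0`; `l_n ^ w i = f d'_n i / f d_n i → 1`, so `l_n` is bounded, and any limit `l` of a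
  subsequence satisfies `act l v0 = v0`, so `l = 1` by `X.free`. So along the subsequence
  `(l_n, d_n) → (1, 0)` and `d'_n = c (f d'_n) = c (act l_n (f d_n)) = d_n` for large `n` (use the
  last claim of `exists_slice`, also with `x.1 = 1`), a contradiction. (Or the same argument with
  filters and compactness.)
* `exists_chart`: choose an open `O ∋ v0` such that all `u ∈ O` satisfy `HolAt c u`, `HolAt l u`,
  `l u ≠ 0` and (`u ∈ cone → u = act (l u) (f (c u))`), and `r > 0` such that on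
  `D = ball 0 r`: `f` is differentiable with values in `O ∩ cone`, `c (f d) = d`,
  `proj (f d) ∈ N`, and the injectivity holds. The chart is `f` on `D`. Field `coord` at `v` with
  `proj v = proj (f d1)`: `v = act l1 (f d1)`, `l1 ≠ 0`; take `c' u = c (act l1⁻¹ u)` and
  `l' u = l1 * l (act l1⁻¹ u)`: near `v` the vector `act l1⁻¹ u` is near `f d1 ∈ O`. Field
  `isOpen_image`: for `d0 ∈ D` the vectors `u ∈ O ∩ cone` near `f d0` have `c u ∈ D` (continuity,
  `c (f d0) = d0`) and `u = act (l u) (f (c u))`, so `proj u` is in the image; use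
  `isOpen_proj_image`.
-/

set_option autoImplicit false

namespace Pool.Agent.K3Pieces

open scoped Topology

namespace Surf

variable (X : Surf)

theorem slice_inj {v0 : X.Amb} (hv0 : v0 ∈ X.cone) {f : C2 → X.Amb} {c : X.Amb → C2}
    (hf : ContinuousAt f 0) (hf0 : f 0 = v0) (hfc : ∀ᶠ d in 𝓝 (0 : C2), f d ∈ X.cone)
    (h : ∀ᶠ x in 𝓝 ((1 : ℂ), (0 : C2)), c (act X.w x.1 (f x.2)) = x.2) :
    ∃ r : ℝ, 0 < r ∧ Set.InjOn (fun d => X.proj (f d)) (Metric.ball (0 : C2) r) := by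
  have hft : Filter.Tendsto f (𝓝 0) (𝓝 v0) := by
    have := hf.tendsto
    rwa [hf0] at this
  have hact1 : ∀ v : X.Amb, act X.w 1 v = v := act_one X.w
  obtain ⟨i, hi⟩ : ∃ i, v0 i ≠ 0 := by
    by_contra hno
    push Not at hno
    exact hv0.1 (funext hno)
  -- local statement
  have hloc : ∀ y ∈ Metric.closedBall (0 : ℂ) 2, ∀ᶠ z : (C2 × C2) × ℂ in 𝓝 (((0 : C2), (0 : C2)), y),
      f z.1.2 = act X.w z.2 (f z.1.1) → z.1.1 = z.1.2 := by
    intro y _
    have t1 : Filter.Tendsto (fun z : (C2 × C2) × ℂ => f z.1.1) (𝓝 (((0 : C2), (0 : C2)), y))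
        (𝓝 v0) := hft.comp ((continuous_fst.comp continuous_fst).tendsto' _ _ rfl)
    have t2 : Filter.Tendsto (fun z : (C2 × C2) × ℂ => f z.1.2) (𝓝 (((0 : C2), (0 : C2)), y))
        (𝓝 v0) := hft.comp ((continuous_snd.comp continuous_fst).tendsto' _ _ rfl)
    have t3 : Filter.Tendsto (fun z : (C2 × C2) × ℂ => z.2) (𝓝 (((0 : C2), (0 : C2)), y))
        (𝓝 y) := continuous_snd.tendsto' _ _ rfl
    have t4 : Filter.Tendsto (fun z : (C2 × C2) × ℂ => act X.w z.2 (f z.1.1))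
        (𝓝 (((0 : C2), (0 : C2)), y)) (𝓝 (act X.w y v0)) := by
      have := ((continuous_act X.w).tendsto (y, v0)).comp (t3.prodMk_nhds t1)
      exact this
    by_cases hy : act X.w y v0 = v0
    · have hy1 : y = 1 := X.free v0 hv0 y hy
      subst hy1
      have t5 : Filter.Tendsto (fun z : (C2 × C2) × ℂ => (z.2, z.1.1))
          (𝓝 (((0 : C2), (0 : C2)), (1 : ℂ))) (𝓝 ((1 : ℂ), (0 : C2))) :=
        (continuous_snd.prodMk (continuous_fst.comp continuous_fst)).tendsto' _ _ rfl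
      have t6 : Filter.Tendsto (fun z : (C2 × C2) × ℂ => ((1 : ℂ), z.1.2))
          (𝓝 (((0 : C2), (0 : C2)), (1 : ℂ))) (𝓝 ((1 : ℂ), (0 : C2))) :=
        (continuous_const.prodMk (continuous_snd.comp continuous_fst)).tendsto' _ _ rfl
      filter_upwards [t5.eventually h, t6.eventually h] with z h1 h2 h3
      have h4 : c (act X.w 1 (f z.1.2)) = z.1.2 := h2
      have h5 : c (act X.w z.2 (f z.1.1)) = z.1.1 := h1
      rw [hact1, h3, h5] at h4
      exact h4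
    · have hne : ∀ᶠ z : (C2 × C2) × ℂ in 𝓝 (((0 : C2), (0 : C2)), y),
          act X.w z.2 (f z.1.1) ≠ f z.1.2 := by
        have h6 : ∀ᶠ q : X.Amb × X.Amb in 𝓝 (act X.w y v0, v0), q.1 ≠ q.2 :=
          (isOpen_ne_fun continuous_fst continuous_snd).mem_nhds hy
        exact (t4.prodMk_nhds t2).eventually h6
      filter_upwards [hne] with z h1 h2
      exact absurd h2.symm h1
  have hglob := (isCompact_closedBall (0 : ℂ) 2).eventually_forall_of_forall_eventually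
    (P := fun (z : C2 × C2) (y : ℂ) => f z.2 = act X.w y (f z.1) → z.1 = z.2) hloc
  have s1 : Filter.Tendsto (fun z : C2 × C2 => f z.1) (𝓝 ((0 : C2), (0 : C2))) (𝓝 v0) :=
    hft.comp (continuous_fst.tendsto' _ _ rfl)
  have s2 : Filter.Tendsto (fun z : C2 × C2 => f z.2) (𝓝 ((0 : C2), (0 : C2))) (𝓝 v0) :=
    hft.comp (continuous_snd.tendsto' _ _ rfl)
  have c1 : ∀ᶠ z : C2 × C2 in 𝓝 ((0 : C2), (0 : C2)), f z.1 ∈ X.cone :=
    (continuous_fst.tendsto' ((0 : C2), (0 : C2)) (0 : C2) rfl).eventually hfc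
  have c2 : ∀ᶠ z : C2 × C2 in 𝓝 ((0 : C2), (0 : C2)), f z.2 ∈ X.cone :=
    (continuous_snd.tendsto' ((0 : C2), (0 : C2)) (0 : C2) rfl).eventually hfc
  have n1 : Filter.Tendsto (fun z : C2 × C2 => 2 * ‖f z.1 i‖) (𝓝 ((0 : C2), (0 : C2)))
      (𝓝 (2 * ‖v0 i‖)) := (((tendsto_pi_nhds.1 s1) i).norm).const_mul 2
  have n2 : Filter.Tendsto (fun z : C2 × C2 => ‖f z.2 i‖) (𝓝 ((0 : C2), (0 : C2)))
      (𝓝 ‖v0 i‖) := ((tendsto_pi_nhds.1 s2) i).norm
  have hpos : 0 < ‖v0 i‖ := norm_pos_iff.2 hi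
  have c3 : ∀ᶠ z : C2 × C2 in 𝓝 ((0 : C2), (0 : C2)), ‖f z.2 i‖ < 2 * ‖f z.1 i‖ :=
    n2.eventually_lt n1 (by linarith)
  obtain ⟨r, hr, hall⟩ := Metric.eventually_nhds_iff.1 (hglob.and (c1.and (c2.and c3)))
  refine ⟨r, hr, fun d hd d' hd' hdd => ?_⟩
  have hdist : dist (d, d') ((0 : C2), (0 : C2)) < r := by
    rw [Prod.dist_eq]
    exact max_lt (Metric.mem_ball.1 hd) (Metric.mem_ball.1 hd')
  obtain ⟨h1, h2, h3, h4⟩ := hall hdist
  simp only at h1 h2 h3 h4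
  obtain ⟨l, _, hl⟩ := (X.proj_eq_iff h2 h3).1 hdd
  refine h1 l ?_ hl
  rw [mem_closedBall_zero_iff]
  by_contra hbig
  push Not at hbig
  have h5 : ‖f d' i‖ = ‖l‖ ^ X.w i * ‖f d i‖ := by
    rw [hl]
    simp only [act, norm_mul, norm_pow]
  have h6 : ‖l‖ ≤ ‖l‖ ^ X.w i := le_self_pow₀ (by linarith) (X.w_pos i).ne'
  have h7 : 0 ≤ ‖f d i‖ := norm_nonneg _
  nlinarith [mul_le_mul_of_nonneg_right (hbig.le.trans h6) h7]

theorem exists_chart (p : X.Pt) {N : Set X.Pt} (hN : IsOpen N) (hp : p ∈ N) :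
    ∃ C : X.Chart p, C.V ⊆ N := by
  obtain ⟨v0, hv0, hp0⟩ := X.proj_surj p
  obtain ⟨f, c, l, hf, hf0, hc, hl, hc0, hl0, hfc, hrec, hinv⟩ := X.exists_slice hv0
  have hft : Filter.Tendsto f (𝓝 0) (𝓝 v0) := by
    have := hf.continuousAt.tendsto
    rwa [hf0] at this
  have hact1 : ∀ v : X.Amb, act X.w 1 v = v := act_one X.w
  -- good vectors
  have hgood : ∀ᶠ u in 𝓝 v0, (HolAt c u ∧ HolAt l u) ∧ l u ≠ 0 ∧
      ∀ᶠ u' in 𝓝 u, u' ∈ X.cone → u' = act X.w (l u') (f (c u')) :=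
    (hc.eventually.and hl.eventually).and
      ((hl.continuousAt.eventually_ne (by rw [hl0]; exact one_ne_zero)).and
        (eventually_eventually_nhds.2 hrec))
  obtain ⟨O, hO, hOo, hOv⟩ := eventually_nhds_iff.1 hgood
  have hplot0 : X.PlotAt f 0 := by
    have h1 : ∀ᶠ z in 𝓝 (0 : C2), DifferentiableAt ℂ f z := hf
    exact h1.and hfc
  have hcf : ∀ᶠ d in 𝓝 (0 : C2), c (f d) = d := by
    have t1 : Filter.Tendsto (fun d : C2 => ((1 : ℂ), d)) (𝓝 0) (𝓝 ((1 : ℂ), (0 : C2))) :=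
      (continuous_const.prodMk continuous_id).tendsto' _ _ rfl
    filter_upwards [t1.eventually hinv] with d h1
    have h2 := h1.1
    simp only [hact1] at h2
    exact h2
  have hpN : ∀ᶠ d in 𝓝 (0 : C2), X.proj (f d) ∈ N :=
    hplot0.eventually_mem hN (by rw [hf0, hp0]; exact hp)
  obtain ⟨r1, hr1, hall⟩ := Metric.eventually_nhds_iff.1
    (hplot0.eventually.and ((hft.eventually (hOo.mem_nhds hOv)).and (hcf.and hpN)))
  obtain ⟨r2, hr2, hinj⟩ := X.slice_inj hv0 hf.continuousAt hf0 hfc (hinv.mono fun x hx => hx.1)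
  have hr : 0 < min r1 r2 := lt_min hr1 hr2
  have hD : ∀ d ∈ Metric.ball (0 : C2) (min r1 r2),
      X.PlotAt f d ∧ f d ∈ O ∧ c (f d) = d ∧ X.proj (f d) ∈ N := fun d hd =>
    hall (lt_of_lt_of_le (Metric.mem_ball.1 hd) (min_le_left _ _))
  have himg : IsOpen ((fun d => X.proj (f d)) '' Metric.ball (0 : C2) (min r1 r2)) := by
    rw [isOpen_iff_mem_nhds]
    rintro _ ⟨d0, hd0, rfl⟩
    obtain ⟨hp1, hp2, hp3, -⟩ := hD d0 hd0
    obtain ⟨⟨g1, -⟩, g3, g4⟩ := hO (f d0) hp2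
    have hg2 := (hO (f d0) hp2).1.2
    have e1 : ∀ᶠ u in 𝓝 (f d0), c u ∈ Metric.ball (0 : C2) (min r1 r2) := by
      refine g1.continuousAt.eventually_mem (Metric.isOpen_ball.mem_nhds ?_)
      rw [hp3]
      exact hd0
    have e2 : ∀ᶠ u in 𝓝 (f d0), l u ≠ 0 := hg2.continuousAt.eventually_ne g3
    obtain ⟨W, hW, hWo, hWv⟩ := eventually_nhds_iff.1 (g4.and (e1.and e2))
    refine Filter.mem_of_superset ((X.isOpen_proj_image hWo).mem_nhds
      ⟨f d0, ⟨hWv, hp1.mem⟩, rfl⟩) ?_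
    rintro _ ⟨u, ⟨huW, huc⟩, rfl⟩
    obtain ⟨k1, k2, k3⟩ := hW u huW
    refine ⟨c u, k2, ?_⟩
    show X.proj (f (c u)) = X.proj u
    have h4 := (hD (c u) k2).1.mem
    conv_rhs => rw [k1 huc]
    exact (X.proj_act h4 k3).symm
  have hcoord : ∀ v ∈ X.cone, X.proj v ∈ (fun d => X.proj (f d)) ''
      Metric.ball (0 : C2) (min r1 r2) →
      ∃ (c : X.Amb → C2) (l : X.Amb → ℂ), HolAt c v ∧ HolAt l v ∧ l v ≠ 0 ∧
        c v ∈ Metric.ball (0 : C2) (min r1 r2) ∧
        ∀ᶠ u in 𝓝 v, u ∈ X.cone → u = act X.w (l u) (f (c u)) := by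
    rintro v hv ⟨d1, hd1, hd1v⟩
    obtain ⟨hp1, hp2, hp3, -⟩ := hD d1 hd1
    obtain ⟨⟨g1, g2⟩, g3, g4⟩ := hO (f d1) hp2
    obtain ⟨l1, hl1, hv1⟩ := (X.proj_eq_iff hp1.mem hv).1 hd1v
    have hm : act X.w l1⁻¹ v = f d1 := by
      rw [hv1, act_act, inv_mul_cancel₀ hl1, hact1]
    have hmhol : HolAt (fun u : X.Amb => act X.w l1⁻¹ u) v :=
      HolAt.act X.w (holAt_const _ _) (holAt_id _)
    have hmt : Filter.Tendsto (fun u : X.Amb => act X.w l1⁻¹ u) (𝓝 v) (𝓝 (f d1)) := by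
      have := hmhol.continuousAt.tendsto
      rwa [hm] at this
    have g1' : HolAt c (act X.w l1⁻¹ v) := by rw [hm]; exact g1
    have g2' : HolAt l (act X.w l1⁻¹ v) := by rw [hm]; exact g2
    refine ⟨fun u => c (act X.w l1⁻¹ u), fun u => l1 * l (act X.w l1⁻¹ u), g1'.comp hmhol,
      (holAt_const l1 _).mul (g2'.comp hmhol), ?_, ?_, ?_⟩
    · simp only [hm]
      exact mul_ne_zero hl1 g3
    · simp only [hm, hp3]
      exact hd1
    · filter_upwards [hmt.eventually g4] with u h1 hu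
      have h2 := h1 (X.act_mem_cone hu (inv_ne_zero hl1))
      have h3 : u = act X.w l1 (act X.w l1⁻¹ u) := by
        rw [act_act, mul_inv_cancel₀ hl1, hact1]
      conv_lhs => rw [h3, h2]
      rw [act_act]
  refine ⟨{ f := f
            D := Metric.ball (0 : C2) (min r1 r2)
            isOpen := Metric.isOpen_ball
            mem := Metric.mem_ball_self hr
            plot := fun d hd => (hD d hd).1
            map := by rw [hf0, hp0]
            isOpen_image := himg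
            inj := hinj.mono (Metric.ball_subset_ball (min_le_right _ _))
            coord := hcoord }, ?_⟩
  rintro _ ⟨d, hd, rfl⟩
  exact (hD d hd).2.2.2

end Surf

end Pool.Agent.K3Pieces
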