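import Pool.Agent.Lib.MP_3004b3_ag.A1

/-!
# JOB D1: the local Poincaré lemmas on `ℂ²`

* `poincare1`: on a small ball around `q` the closed holomorphic 1-form `θ` has a primitive.
  Mathlib: `Convex.exists_forall_hasFDerivAt_of_fderiv_symmetric` (file
  `Mathlib/MeasureTheory/Integral/CurveIntegral/Poincare.lean`): it is stated for real
  differentiable `𝕜`-linear forms; the symmetry of `fderiv ℝ θ a x y` for all `x y : C2` follows
  from the symmetry for `e_0, e_1` since `fderiv ℝ θ a = (fderiv ℂ θ a).restrictScalars ℝ` and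
  `fderiv ℂ θ a` is complex bilinear.
* `poincare2`: a holomorphic function `f` near `q` is `∂g/∂z_0` for a holomorphic `g`: for instance
  `g z = (z 0 - q 0) * ∫ t in 0..1, f ![q 0 + t * (z 0 - q 0), z 1]`; differentiation under the
  integral (`intervalIntegral.hasFDerivAt_integral_of_dominated_of_fderiv_le`, see the use in
  `Pool/Agent/Lib/MP_c0402d_ag/TE2.lean`) shows that `g` is complex differentiable on a small
  ball, and in the variable `z 0` alone `g` is the primitive of `f` (for fixed `z 1`: a primitive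
  `G` of `ζ ↦ f ![ζ, z 1]` on a disc exists, for instance by `DifferentiableOn.isExactOn_ball` or
  `Complex.IsExactOn`, and the segment integral is `G (z 0) - G (q 0)` by the fundamental theorem
  of calculus).
-/

set_option autoImplicit false

namespace Pool.Agent.K3Pieces

open scoped Topology

theorem poincare1 {θ : C2 → (C2 →L[ℂ] ℂ)} {q : C2} (hθ : HolAt θ q)
    (hc : ∀ᶠ z in 𝓝 q, fderiv ℂ θ z (Pi.single 0 1) (Pi.single 1 1) =
      fderiv ℂ θ z (Pi.single 1 1) (Pi.single 0 1)) :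
    ∃ h : C2 → ℂ, HolAt h q ∧ ∀ᶠ z in 𝓝 q, fderiv ℂ h z = θ z := by
  obtain ⟨ε, hε, hb⟩ := Metric.eventually_nhds_iff_ball.1 (hθ.and hc)
  have hx : ∀ x : C2, x = x 0 • (Pi.single 0 1 : C2) + x 1 • (Pi.single 1 1 : C2) := by
    intro x
    ext i
    fin_cases i <;> simp
  have hsym : ∀ a ∈ Metric.ball q ε, ∀ x y : C2,
      fderiv ℝ θ a x y = fderiv ℝ θ a y x := by
    intro a ha x y
    obtain ⟨h1, h2⟩ := hb a ha
    have h3 : ∀ u v : C2, fderiv ℝ θ a u v = fderiv ℂ θ a u v := by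
      intro u v
      rw [h1.fderiv_restrictScalars ℝ]
      rfl
    rw [h3, h3]
    have key : ∀ (B : C2 →L[ℂ] (C2 →L[ℂ] ℂ)) (a b c d : ℂ) (e f : C2), B e f = B f e →
        B (a • e + b • f) (c • e + d • f) = B (c • e + d • f) (a • e + b • f) := by
      intro B a b c d e f hB
      simp only [map_add, map_smul, add_apply, smul_apply,
        smul_eq_mul, hB]
      ring
    have h4 := key (fderiv ℂ θ a) (x 0) (x 1) (y 0) (y 1) (Pi.single 0 1) (Pi.single 1 1) h2
    rw [← hx x, ← hx y] at h4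
    exact h4
  obtain ⟨h, hh⟩ := (convex_ball q ε).exists_forall_hasFDerivAt_of_fderiv_symmetric Metric.isOpen_ball
    (fun a ha => ((hb a ha).1.restrictScalars ℝ).differentiableWithinAt) hsym
  have hball : ∀ᶠ z in 𝓝 q, z ∈ Metric.ball q ε := Metric.isOpen_ball.mem_nhds (Metric.mem_ball_self hε)
  refine ⟨h, ?_, ?_⟩
  · filter_upwards [hball] with z hz
    exact (hh z hz).differentiableAt
  · filter_upwards [hball] with z hz
    exact (hh z hz).fderiv

/-- The projection to the line through `z` in the first direction, at time `t`. -/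
noncomputable def d1p (q : C2) (t : ℝ) (z : C2) : C2 :=
  z + ((1 - (t : ℂ)) * (q 0 - z 0)) • (Pi.single 0 1 : C2)

/-- Its derivative. -/
noncomputable def d1P (t : ℝ) : C2 →L[ℂ] C2 :=
  ContinuousLinearMap.id ℂ C2 -
    (1 - (t : ℂ)) • (ContinuousLinearMap.proj (R := ℂ) (φ := fun _ : Fin 2 => ℂ) 0).smulRight
      (Pi.single 0 1 : C2)

theorem d1p_hasFDerivAt (q : C2) (t : ℝ) (z : C2) : HasFDerivAt (d1p q t) (d1P t) z := by
  have h0 : HasFDerivAt (fun z : C2 => z 0)
      (ContinuousLinearMap.proj (R := ℂ) (φ := fun _ : Fin 2 => ℂ) 0) z :=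
    (ContinuousLinearMap.proj (R := ℂ) (φ := fun _ : Fin 2 => ℂ) 0).hasFDerivAt
  have h1 := ((h0.const_sub (q 0)).const_mul (1 - (t : ℂ))).smul_const (Pi.single 0 1 : C2)
  have h2 := (hasFDerivAt_id z).add h1
  refine h2.congr_fderiv ?_
  unfold d1P
  ext v i
  simp [ContinuousLinearMap.smulRight_apply]
  ring

theorem d1p_continuous (q z : C2) : Continuous (fun t : ℝ => d1p q t z) := by
  unfold d1p
  fun_prop

theorem d1P_continuous : Continuous d1P := by
  unfold d1P
  fun_prop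

theorem d1p_mem {q z : C2} {r : ℝ} (hz : z ∈ Metric.ball q r) {t : ℝ} (ht : t ∈ Set.Icc (0 : ℝ) 1) :
    d1p q t z ∈ Metric.ball q r := by
  have hr : 0 < r := dist_nonneg.trans_lt hz
  rw [Metric.mem_ball, dist_pi_lt_iff hr] at hz ⊢
  intro i
  fin_cases i
  · have h0 := hz 0
    simp only [d1p, Fin.zero_eta, Pi.add_apply, Pi.smul_apply, Pi.single_eq_same, smul_eq_mul, mul_one]
    rw [dist_eq_norm] at h0 ⊢
    have : z 0 + (1 - (t : ℂ)) * (q 0 - z 0) - q 0 = (t : ℂ) * (z 0 - q 0) := by ring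
    rw [this, norm_mul, Complex.norm_real, Real.norm_of_nonneg ht.1]
    calc t * ‖z 0 - q 0‖ ≤ 1 * ‖z 0 - q 0‖ := mul_le_mul_of_nonneg_right ht.2 (norm_nonneg _)
      _ = ‖z 0 - q 0‖ := one_mul _
      _ < r := h0
  · have h1 := hz 1
    simpa [d1p] using h1

theorem d1P_norm {t : ℝ} (ht : t ∈ Set.Icc (0 : ℝ) 1) : ‖d1P t‖ ≤
    ‖ContinuousLinearMap.id ℂ C2‖ + ‖(ContinuousLinearMap.proj (R := ℂ) (φ := fun _ : Fin 2 => ℂ) 0).smulRight
      (Pi.single 0 1 : C2)‖ := by
  unfold d1P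
  refine (norm_sub_le _ _).trans (add_le_add le_rfl ?_)
  rw [norm_smul]
  have : ‖(1 - (t : ℂ))‖ ≤ 1 := by
    have e : (1 - (t : ℂ)) = ((1 - t : ℝ) : ℂ) := by push_cast; ring
    rw [e, Complex.norm_real, Real.norm_of_nonneg (by linarith [ht.2])]
    linarith [ht.1]
  calc _ ≤ 1 * _ := mul_le_mul_of_nonneg_right this (norm_nonneg _)
    _ = _ := one_mul _

theorem d1_int {f : C2 → ℂ} {q : C2} {r C : ℝ} (hr : 0 < r)
    (h : ∀ z ∈ Metric.ball q r, DifferentiableAt ℂ f z ∧ ContinuousAt (fderiv ℂ f) z ∧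
      ‖fderiv ℂ f z‖ ≤ C) {z0 : C2} (hz0 : z0 ∈ Metric.ball q r) :
    DifferentiableAt ℂ (fun z => ∫ t in (0:ℝ)..1, f (d1p q t z)) z0 := by
  have hsub : Set.uIoc (0:ℝ) 1 ⊆ Set.Icc 0 1 := by
    rw [Set.uIoc_of_le zero_le_one]
    exact Set.Ioc_subset_Icc_self
  have hcont : ∀ z ∈ Metric.ball q r, ContinuousOn (fun t : ℝ => f (d1p q t z)) (Set.Icc 0 1) := by
    intro z hz t ht
    exact ((h _ (d1p_mem hz ht)).1.continuousAt.comp (f := fun t : ℝ => d1p q t z)
      (d1p_continuous q z).continuousAt).continuousWithinAt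
  have hcont' : ∀ z ∈ Metric.ball q r,
      ContinuousOn (fun t : ℝ => (fderiv ℂ f (d1p q t z)).comp (d1P t)) (Set.Icc 0 1) := by
    intro z hz t ht
    have h1 : ContinuousAt (fun t : ℝ => fderiv ℂ f (d1p q t z)) t :=
      (h _ (d1p_mem hz ht)).2.1.comp (f := fun t : ℝ => d1p q t z) (d1p_continuous q z).continuousAt
    exact (h1.clm_comp d1P_continuous.continuousAt).continuousWithinAt
  have hC : 0 ≤ C := (norm_nonneg _).trans (h q (Metric.mem_ball_self hr)).2.2
  set D : ℝ := ‖ContinuousLinearMap.id ℂ C2‖ +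
    ‖(ContinuousLinearMap.proj (R := ℂ) (φ := fun _ : Fin 2 => ℂ) 0).smulRight (Pi.single 0 1 : C2)‖ with hD
  have key := intervalIntegral.hasFDerivAt_integral_of_dominated_of_fderiv_le (𝕜 := ℂ) (μ := MeasureTheory.volume)
    (a := 0) (b := 1) (F := fun z (t : ℝ) => f (d1p q t z))
    (F' := fun z t => (fderiv ℂ f (d1p q t z)).comp (d1P t)) (x₀ := z0) (s := Metric.ball q r)
    (bound := fun _ => C * D) (Metric.isOpen_ball.mem_nhds hz0)
    (by
      filter_upwards [Metric.isOpen_ball.mem_nhds hz0] with z hz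
      exact ((hcont z hz).mono hsub).aestronglyMeasurable measurableSet_uIoc)
    (by
      apply ContinuousOn.intervalIntegrable
      rw [Set.uIcc_of_le zero_le_one]
      exact hcont z0 hz0)
    (((hcont' z0 hz0).mono hsub).aestronglyMeasurable measurableSet_uIoc)
    (Filter.Eventually.of_forall fun t ht z hz => by
      have ht' := hsub ht
      refine (ContinuousLinearMap.opNorm_comp_le _ _).trans ?_
      exact mul_le_mul (h _ (d1p_mem hz ht')).2.2 (d1P_norm ht') (norm_nonneg _) hC)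
    (by simp)
    (Filter.Eventually.of_forall fun t ht z hz => by
      have ht' := hsub ht
      exact (h _ (d1p_mem hz ht')).1.hasFDerivAt.comp z (d1p_hasFDerivAt q t z))
  exact key.differentiableAt

theorem poincare2 {f : C2 → ℂ} {q : C2} (hf : HolAt f q) :
    ∃ g : C2 → ℂ, HolAt g q ∧ ∀ᶠ z in 𝓝 q, fderiv ℂ g z (Pi.single 0 1) = f z := by
  have hf' := hf.fderiv
  have hbd : ∀ᶠ z in 𝓝 q, ‖fderiv ℂ f z‖ ≤ ‖fderiv ℂ f q‖ + 1 := by
    have := hf'.continuousAt.norm
    exact (this.eventually_lt continuousAt_const (by simp : ‖fderiv ℂ f q‖ < ‖fderiv ℂ f q‖ + 1)).mono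
      fun z hz => hz.le
  obtain ⟨r, hr, hb⟩ := Metric.eventually_nhds_iff_ball.1 (hf.and (hf'.and hbd))
  have h : ∀ z ∈ Metric.ball q r, DifferentiableAt ℂ f z ∧ ContinuousAt (fderiv ℂ f) z ∧
      ‖fderiv ℂ f z‖ ≤ ‖fderiv ℂ f q‖ + 1 := fun z hz =>
    ⟨(hb z hz).1, (hb z hz).2.1.continuousAt, (hb z hz).2.2⟩
  set G : C2 → ℂ := fun z => ∫ t in (0:ℝ)..1, f (d1p q t z) with hG
  have hGd : ∀ z ∈ Metric.ball q r, DifferentiableAt ℂ G z := fun z hz => d1_int hr h hz
  have hproj : ∀ z : C2, DifferentiableAt ℂ (fun z : C2 => z 0 - q 0) z := by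
    intro z
    fun_prop
  have hball : ∀ᶠ z in 𝓝 q, z ∈ Metric.ball q r := Metric.isOpen_ball.mem_nhds (Metric.mem_ball_self hr)
  refine ⟨fun z => (z 0 - q 0) * G z, ?_, ?_⟩
  · filter_upwards [hball] with z hz
    exact (hproj z).mul (hGd z hz)
  · filter_upwards [hball] with z hz
    -- the line through `z`
    set ℓ : ℂ → C2 := fun w => z + (w - z 0) • (Pi.single 0 1 : C2) with hℓ
    have hℓz : ℓ (z 0) = z := by simp [hℓ]
    have hℓd : ∀ w, HasDerivAt ℓ (Pi.single 0 1 : C2) w := by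
      intro w
      have h1 : HasDerivAt (fun w : ℂ => w - z 0) 1 w := (hasDerivAt_id w).sub_const _
      have h2 := (h1.smul_const (Pi.single 0 1 : C2)).const_add z
      rw [one_smul] at h2
      exact h2
    have hℓm : ∀ w ∈ Metric.ball (q 0) r, ℓ w ∈ Metric.ball q r := by
      intro w hw
      rw [Metric.mem_ball, dist_pi_lt_iff hr] at hz ⊢
      intro i
      fin_cases i
      · simpa [hℓ] using hw
      · simpa [hℓ] using hz 1
    have hz0 : z 0 ∈ Metric.ball (q 0) r := by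
      rw [Metric.mem_ball, dist_pi_lt_iff hr] at hz
      exact hz 0
    -- a primitive on the line
    obtain ⟨Φ, hΦ⟩ := (convex_ball (q 0) r).exists_forall_hasDerivWithinAt (𝕜 := ℂ) (f := fun w => f (ℓ w))
      (fun w hw => ((h _ (hℓm w hw)).1.comp w (hℓd w).differentiableAt).differentiableWithinAt)
    have hΦ' : ∀ w ∈ Metric.ball (q 0) r, HasDerivAt Φ (f (ℓ w)) w := fun w hw =>
      (hΦ w hw).hasDerivAt (Metric.isOpen_ball.mem_nhds hw)
    have hseg : ∀ w ∈ Metric.ball (q 0) r, ∀ t ∈ Set.Icc (0:ℝ) 1,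
        q 0 + (t : ℂ) * (w - q 0) ∈ Metric.ball (q 0) r := by
      intro w hw t ht
      rw [Metric.mem_ball, dist_eq_norm] at hw ⊢
      rw [add_sub_cancel_left, norm_mul, Complex.norm_real, Real.norm_of_nonneg ht.1]
      calc t * ‖w - q 0‖ ≤ 1 * ‖w - q 0‖ := mul_le_mul_of_nonneg_right ht.2 (norm_nonneg _)
        _ = ‖w - q 0‖ := one_mul _
        _ < r := hw
    have hpt : ∀ (w : ℂ) (t : ℝ), d1p q t (ℓ w) = ℓ (q 0 + (t : ℂ) * (w - q 0)) := by
      intro w t
      simp only [d1p, hℓ]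
      ext i
      fin_cases i
      · simp
        ring
      · simp
    have hval : ∀ w ∈ Metric.ball (q 0) r, (ℓ w 0 - q 0) * G (ℓ w) = Φ w - Φ (q 0) := by
      intro w hw
      have h1 : ∀ t ∈ Set.uIcc (0:ℝ) 1, HasDerivAt (fun t : ℝ => Φ (q 0 + (t : ℂ) * (w - q 0)))
          ((w - q 0) * f (d1p q t (ℓ w))) t := by
        intro t ht
        rw [Set.uIcc_of_le zero_le_one] at ht
        have h2 : HasDerivAt (fun t : ℝ => q 0 + (t : ℂ) * (w - q 0)) (w - q 0) t := by
          have h3 : HasDerivAt (fun t : ℝ => (t : ℂ)) 1 t := Complex.ofRealCLM.hasDerivAt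
          simpa using (h3.mul_const (w - q 0)).const_add (q 0)
        have h4 := (hΦ' _ (hseg w hw t ht)).scomp t h2
        rw [hpt]
        exact h4
      have h5 := intervalIntegral.integral_eq_sub_of_hasDerivAt h1 (by
        apply ContinuousOn.intervalIntegrable
        rw [Set.uIcc_of_le zero_le_one]
        intro t ht
        have h6 : ContinuousAt (fun t : ℝ => f (d1p q t (ℓ w))) t :=
          (h _ (d1p_mem (hℓm w hw) ht)).1.continuousAt.comp (f := fun t : ℝ => d1p q t (ℓ w))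
            (d1p_continuous q _).continuousAt
        exact (continuousAt_const.mul h6).continuousWithinAt)
      rw [intervalIntegral.integral_const_mul] at h5
      have h7 : ℓ w 0 = w := by simp [hℓ]
      rw [h7, hG]
      simpa using h5
    -- two computations of the derivative
    have hd1 : HasDerivAt (fun w => (ℓ w 0 - q 0) * G (ℓ w)) (f (ℓ (z 0))) (z 0) := by
      refine ((hΦ' _ hz0).sub_const (Φ (q 0))).congr_of_eventuallyEq ?_
      filter_upwards [Metric.isOpen_ball.mem_nhds hz0] with w hw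
      exact hval w hw
    have hgz : DifferentiableAt ℂ (fun z : C2 => (z 0 - q 0) * G z) (ℓ (z 0)) := by
      rw [hℓz]
      exact (hproj z).mul (hGd z hz)
    have hd2 := hgz.hasFDerivAt.comp_hasDerivAt (z 0) (hℓd (z 0))
    have hd3 := hd2.unique hd1
    rw [hℓz] at hd3
    exact hd3

end Pool.Agent.K3Pieces
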