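import Mathlib

/-!
# Smooth projective surfaces, their Hodge structures on `H²`, and K3 pieces: the definitions

* A smooth projective surface is a closed subvariety of a weighted projective space
  `ℙ(w_0, …, w_{c+2})` over `ℂ`, presented by its punctured affine cone, which is asked to be a
  connected complex submanifold of dimension three on which `ℂˣ` acts freely (`Surf`).
* `H²(X, A)` is the Čech cohomology of the space of points `X.Pt` with its classical topology
  (`H2`); open coverings are indexed by the points of the space.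
* `F¹H²(X, ℂ)`: the classes which become coboundaries of cochains of holomorphic functions (the
  kernel of `H²(X, ℂ) → H²(X, 𝒪)`); `F²H²(X, ℂ)`: moreover the differentials of these functions are
  coboundaries of holomorphic 1-forms (the image of `H⁰(X, Ω²)`).
* `H²_tr(X) ⊆ H²(X, ℚ)` is the smallest rational subspace whose complexification contains
  `F² H²(X, ℂ)` (by the Lefschetz theorem on (1,1)-classes and the Hodge index theorem this is the
  orthogonal complement of the classes of divisors).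
-/

set_option autoImplicit false

namespace Pool.Agent.K3Pieces

open scoped Topology TensorProduct

/-! ### Čech cohomology in degree two -/

section Cech

variable {Y : Type}

/-- `g` is locally constant on the (open) set `O`. -/
def LC [TopologicalSpace Y] {A : Type} (g : Y → A) (O : Set Y) : Prop :=
  ∀ y ∈ O, ∀ᶠ z in 𝓝 y, g z = g y

/-- An open covering of `Y`, indexed by the points of `Y`, with `y ∈ U y`. -/
structure IsCover [TopologicalSpace Y] (U : Y → Set Y) : Prop where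
  isOpen : ∀ y, IsOpen (U y)
  mem : ∀ y, y ∈ U y

theorem IsCover.inter [TopologicalSpace Y] {U V : Y → Set Y} (hU : IsCover U) (hV : IsCover V) :
    IsCover (fun y => U y ∩ V y) :=
  ⟨fun y => (hU.isOpen y).inter (hV.isOpen y), fun y => ⟨hU.mem y, hV.mem y⟩⟩

theorem isCover_univ [TopologicalSpace Y] : IsCover (fun _ : Y => (Set.univ : Set Y)) :=
  ⟨fun _ => isOpen_univ, fun _ => Set.mem_univ _⟩

/-- On the covering `U`, the 2-cochain `c` is the coboundary of the 1-cochain `b`. -/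
def IsDelta {A : Type} [AddCommGroup A] (U : Y → Set Y) (c : Y → Y → Y → Y → A)
    (b : Y → Y → Y → A) : Prop :=
  ∀ x y z, ∀ p ∈ U x ∩ U y ∩ U z, c x y z p = b y z p - b x z p + b x y p

variable (R A : Type) [Ring R] [AddCommGroup A] [Module R A] (Y) [TopologicalSpace Y]

/-- `c` is a Čech 2-cocycle with values in the constant sheaf `A`, for some covering. -/
def IsZ2 {A : Type} [AddCommGroup A] {Y : Type} [TopologicalSpace Y]
    (c : Y → Y → Y → Y → A) : Prop :=
  ∃ U : Y → Set Y, IsCover U ∧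
    (∀ x y z, LC (c x y z) (U x ∩ U y ∩ U z)) ∧
    ∀ x y z t, ∀ p ∈ U x ∩ U y ∩ U z ∩ U t,
      c y z t p - c x z t p + c x y t p - c x y z p = 0

/-- `c` is a Čech 2-coboundary with values in the constant sheaf `A`, for some covering. -/
def IsB2 {A : Type} [AddCommGroup A] {Y : Type} [TopologicalSpace Y]
    (c : Y → Y → Y → Y → A) : Prop :=
  ∃ U : Y → Set Y, IsCover U ∧ ∃ b : Y → Y → Y → A,
    (∀ x y, LC (b x y) (U x ∩ U y)) ∧ IsDelta U c b

theorem IsZ2.zero {A : Type} [AddCommGroup A] {Y : Type} [TopologicalSpace Y] :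
    IsZ2 (0 : Y → Y → Y → Y → A) :=
  ⟨_, isCover_univ, fun x y z p _ => by simp, by simp⟩

theorem IsZ2.add {A : Type} [AddCommGroup A] {Y : Type} [TopologicalSpace Y]
    {c d : Y → Y → Y → Y → A} (hc : IsZ2 c) (hd : IsZ2 d) : IsZ2 (c + d) := by
  obtain ⟨U, hU, h1, h2⟩ := hc
  obtain ⟨V, hV, h3, h4⟩ := hd
  refine ⟨_, hU.inter hV, fun x y z p hp => ?_, fun x y z t p hp => ?_⟩
  · filter_upwards [h1 x y z p ⟨⟨hp.1.1.1, hp.1.2.1⟩, hp.2.1⟩,
      h3 x y z p ⟨⟨hp.1.1.2, hp.1.2.2⟩, hp.2.2⟩] with q h5 h6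
    simp only [Pi.add_apply, h5, h6]
  · have h5 := h2 x y z t p ⟨⟨⟨hp.1.1.1.1, hp.1.1.2.1⟩, hp.1.2.1⟩, hp.2.1⟩
    have h6 := h4 x y z t p ⟨⟨⟨hp.1.1.1.2, hp.1.1.2.2⟩, hp.1.2.2⟩, hp.2.2⟩
    simp only [Pi.add_apply]
    have h7 : ∀ a b c d a' b' c' d' : A, (a + a') - (b + b') + (c + c') - (d + d') =
      (a - b + c - d) + (a' - b' + c' - d') := by intros; abel
    rw [h7, h5, h6, add_zero]

theorem IsZ2.smul {R A : Type} [Ring R] [AddCommGroup A] [Module R A] {Y : Type}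
    [TopologicalSpace Y] (r : R) {c : Y → Y → Y → Y → A} (hc : IsZ2 c) : IsZ2 (r • c) := by
  obtain ⟨U, hU, h1, h2⟩ := hc
  refine ⟨U, hU, fun x y z p hp => ?_, fun x y z t p hp => ?_⟩
  · filter_upwards [h1 x y z p hp] with q h5
    simp only [Pi.smul_apply, h5]
  · have h5 := h2 x y z t p hp
    simp only [Pi.smul_apply]
    rw [← smul_sub, ← smul_add, ← smul_sub, h5, smul_zero]

theorem IsB2.zero {A : Type} [AddCommGroup A] {Y : Type} [TopologicalSpace Y] :
    IsB2 (0 : Y → Y → Y → Y → A) :=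
  ⟨_, isCover_univ, 0, fun x y p _ => by simp, fun x y z p _ => by simp⟩

theorem IsB2.add {A : Type} [AddCommGroup A] {Y : Type} [TopologicalSpace Y]
    {c d : Y → Y → Y → Y → A} (hc : IsB2 c) (hd : IsB2 d) : IsB2 (c + d) := by
  obtain ⟨U, hU, b, h1, h2⟩ := hc
  obtain ⟨V, hV, b', h3, h4⟩ := hd
  refine ⟨_, hU.inter hV, b + b', fun x y p hp => ?_, fun x y z p hp => ?_⟩
  · filter_upwards [h1 x y p ⟨hp.1.1, hp.2.1⟩, h3 x y p ⟨hp.1.2, hp.2.2⟩] with q h5 h6
    simp only [Pi.add_apply, h5, h6]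
  · have h5 := h2 x y z p ⟨⟨hp.1.1.1, hp.1.2.1⟩, hp.2.1⟩
    have h6 := h4 x y z p ⟨⟨hp.1.1.2, hp.1.2.2⟩, hp.2.2⟩
    simp only [Pi.add_apply, h5, h6]
    abel

theorem IsB2.smul {R A : Type} [Ring R] [AddCommGroup A] [Module R A] {Y : Type}
    [TopologicalSpace Y] (r : R) {c : Y → Y → Y → Y → A} (hc : IsB2 c) : IsB2 (r • c) := by
  obtain ⟨U, hU, b, h1, h2⟩ := hc
  refine ⟨U, hU, r • b, fun x y p hp => ?_, fun x y z p hp => ?_⟩
  · filter_upwards [h1 x y p hp] with q h5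
    simp only [Pi.smul_apply, h5]
  · have h5 := h2 x y z p hp
    simp only [Pi.smul_apply, h5, smul_add, smul_sub]

/-- Čech 2-cocycles of `Y` with values in the constant sheaf `A`. -/
def Z2 : Submodule R (Y → Y → Y → Y → A) where
  carrier := {c | IsZ2 c}
  zero_mem' := IsZ2.zero
  add_mem' := IsZ2.add
  smul_mem' r _ h := IsZ2.smul r h

/-- Čech 2-coboundaries of `Y` with values in the constant sheaf `A`. -/
def B2 : Submodule R (Y → Y → Y → Y → A) where
  carrier := {c | IsB2 c}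
  zero_mem' := IsB2.zero
  add_mem' := IsB2.add
  smul_mem' r _ h := IsB2.smul r h

/-- Čech cohomology `Ȟ²(Y, A)` with values in the constant sheaf `A`. -/
abbrev H2 : Type := ↥(Z2 Y R A) ⧸ (B2 Y R A).comap (Z2 Y R A).subtype

/-- A rational cocycle, as a complex cocycle. -/
theorem toC_mem {c : Y → Y → Y → Y → ℚ} (hc : c ∈ Z2 Y ℚ ℚ) :
    (fun x y z p => (c x y z p : ℂ)) ∈ Z2 Y ℂ ℂ := by
  obtain ⟨U, hU, h1, h2⟩ := hc
  refine ⟨U, hU, fun x y z p hp => ?_, fun x y z t p hp => ?_⟩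
  · filter_upwards [h1 x y z p hp] with q h5
    simp only [h5]
  · have := h2 x y z t p hp
    have h3 : ((c y z t p - c x z t p + c x y t p - c x y z p : ℚ) : ℂ) = 0 := by rw [this]; simp
    push_cast at h3
    exact h3

/-- A rational cocycle as a complex cocycle. -/
noncomputable def castC (c : ↥(Z2 Y ℚ ℚ)) : ↥(Z2 Y ℂ ℂ) :=
  ⟨fun x y z p => (c.1 x y z p : ℂ), toC_mem Y c.2⟩

theorem castC_add (c d : ↥(Z2 Y ℚ ℚ)) : castC Y (c + d) = castC Y c + castC Y d := by
  apply Subtype.ext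
  funext x y z p
  simp [castC]

theorem castC_smul (r : ℚ) (c : ↥(Z2 Y ℚ ℚ)) : castC Y (r • c) = r • castC Y c := by
  apply Subtype.ext
  funext x y z p
  simp [castC, Rat.smul_def]

/-- Rational cocycles to complex cocycles. -/
noncomputable def castZ : ↥(Z2 Y ℚ ℚ) →ₗ[ℚ] ↥(Z2 Y ℂ ℂ) where
  toFun := castC Y
  map_add' := castC_add Y
  map_smul' := castC_smul Y

/-- Rational cocycles to complex cohomology classes. -/
noncomputable def toC0 : ↥(Z2 Y ℚ ℚ) →ₗ[ℚ] H2 Y ℂ ℂ :=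
  ((Submodule.mkQ ((B2 Y ℂ ℂ).comap (Z2 Y ℂ ℂ).subtype)).restrictScalars ℚ).comp (castZ Y)

theorem le_ker_toC0 : (B2 Y ℚ ℚ).comap (Z2 Y ℚ ℚ).subtype ≤ LinearMap.ker (toC0 Y) := by
  rintro ⟨c, hc⟩ ⟨U, hU, b, h1, h2⟩
  rw [LinearMap.mem_ker]
  refine (Submodule.Quotient.mk_eq_zero _).2 ⟨U, hU, fun x y p => (b x y p : ℂ), ?_, ?_⟩
  · intro x y p hp
    filter_upwards [h1 x y p hp] with q h5
    simp only [h5]
  · intro x y z p hp
    have h3 := h2 x y z p hp
    change c x y z p = _ at h3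
    change ((c x y z p : ℚ) : ℂ) = _
    rw [h3]
    push_cast
    rfl

/-- The natural map `Ȟ²(Y, ℚ) → Ȟ²(Y, ℂ)`. -/
noncomputable def toC : H2 Y ℚ ℚ →ₗ[ℚ] H2 Y ℂ ℂ :=
  Submodule.liftQ _ (toC0 Y) (le_ker_toC0 Y)

end Cech

/-! ### Smooth projective surfaces -/

/-- The parameter space `ℂ²` of holomorphic maps to a surface. -/
abbrev C2 : Type := Fin 2 → ℂ

/-- `f` is holomorphic (complex differentiable in a neighbourhood) at `q`. -/
def HolAt {E F : Type} [NormedAddCommGroup E] [NormedSpace ℂ E] [NormedAddCommGroup F]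
    [NormedSpace ℂ F] (f : E → F) (q : E) : Prop :=
  ∀ᶠ z in 𝓝 q, DifferentiableAt ℂ f z

/-- The weighted action of a scalar on `ℂⁿ`. -/
def act {n : ℕ} (w : Fin n → ℕ) (l : ℂ) (v : Fin n → ℂ) : Fin n → ℂ := fun i => l ^ w i * v i

/-- The punctured affine cone over the closed subset of the weighted projective space defined by
the polynomials in `eqs`. -/
def coneOf {n : ℕ} (eqs : Set (MvPolynomial (Fin n) ℂ)) : Set (Fin n → ℂ) :=
  {v | v ≠ 0 ∧ ∀ F ∈ eqs, MvPolynomial.eval v F = 0}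

/-- A smooth (connected) complex projective surface, as a closed subvariety of the weighted
projective space with weights `w`: the punctured cone is a connected complex submanifold of
dimension three of `ℂ^(c+3)` (locally the zero set of a holomorphic submersion to `ℂ^c`), and
the action of `ℂˣ` on it is free. All weights one: the ordinary projective space. -/
structure Surf where
  /-- The codimension. -/
  c : ℕ
  /-- The weights. -/
  w : Fin (c + 3) → ℕ
  w_pos : ∀ i, 0 < w i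
  /-- The equations. -/
  eqs : Set (MvPolynomial (Fin (c + 3)) ℂ)
  homog : ∀ F ∈ eqs, ∃ d, F.IsWeightedHomogeneous w d
  free : ∀ v ∈ coneOf eqs, ∀ l : ℂ, act w l v = v → l = 1
  smooth : ∀ v ∈ coneOf eqs, ∃ Φ : (Fin (c + 3) → ℂ) → (Fin c → ℂ),
    HolAt Φ v ∧ Function.Surjective (fderiv ℂ Φ v) ∧
      ∀ᶠ u in 𝓝 v, u ∈ coneOf eqs ↔ Φ u = 0
  conn : IsConnected (coneOf eqs)

namespace Surf

variable (X : Surf)

/-- The ambient affine space of the cone. -/
abbrev Amb : Type := Fin (X.c + 3) → ℂ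

/-- The punctured cone. -/
def cone : Set X.Amb := coneOf X.eqs

theorem orbit_equivalence :
    Equivalence (fun u v : X.cone => ∃ l : ℂ, l ≠ 0 ∧ (v : X.Amb) = act X.w l u) where
  refl := fun u => ⟨1, one_ne_zero, by funext i; simp [act]⟩
  symm := by
    rintro u v ⟨l, hl, h⟩
    refine ⟨l⁻¹, inv_ne_zero hl, ?_⟩
    funext i
    rw [h]
    simp only [act]
    rw [← mul_assoc, ← mul_pow, inv_mul_cancel₀ hl, one_pow, one_mul]
  trans := by
    rintro u v t ⟨l, hl, h⟩ ⟨m, hm, h'⟩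
    refine ⟨m * l, mul_ne_zero hm hl, ?_⟩
    funext i
    rw [h', h]
    simp only [act]
    rw [mul_pow, mul_assoc]

/-- Two points of the cone are equivalent if they are in the same `ℂˣ`-orbit. -/
def orbit : Setoid X.cone where
  r u v := ∃ l : ℂ, l ≠ 0 ∧ (v : X.Amb) = act X.w l u
  iseqv := X.orbit_equivalence

/-- The points of the surface, with the classical topology (quotient topology). -/
def Pt : Type := Quotient X.orbit

instance : TopologicalSpace X.Pt := inferInstanceAs (TopologicalSpace (Quotient X.orbit))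

theorem cone_nonempty : X.cone.Nonempty := X.conn.nonempty

open Classical in
/-- The point of the surface given by a vector of the cone (an arbitrary point for other
vectors). -/
noncomputable def proj (v : X.Amb) : X.Pt :=
  if h : v ∈ X.cone then Quotient.mk X.orbit ⟨v, h⟩
  else Quotient.mk X.orbit ⟨X.cone_nonempty.some, X.cone_nonempty.some_mem⟩

/-- `f` is, near `q`, a holomorphic map from `ℂ²` to the cone (a local lift of a holomorphic map
to the surface; every holomorphic map to the surface has such lifts locally). -/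
def PlotAt (f : C2 → X.Amb) (q : C2) : Prop :=
  ∀ᶠ z in 𝓝 q, DifferentiableAt ℂ f z ∧ f z ∈ X.cone

/-- `h` is a holomorphic function on the open set `U` of the surface: its composition with every
holomorphic map from an open subset of `ℂ²` is holomorphic. -/
def HolOn (h : X.Pt → ℂ) (U : Set X.Pt) : Prop :=
  ∀ (f : C2 → X.Amb) (q : C2), X.PlotAt f q → X.proj (f q) ∈ U →
    DifferentiableAt ℂ (fun z => h (X.proj (f z))) q

/-- A holomorphic 1-form on the open set `U` of the surface: a rule `α` which assigns to every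
local holomorphic map `f` from `ℂ²` to the surface the pulled back form `f^* α` (a covector
`α f q` at every point `q`), compatible with composition on the right and independent of the
lift of `f` to the cone. -/
structure IsForm1 (U : Set X.Pt) (α : (C2 → X.Amb) → C2 → (C2 →L[ℂ] ℂ)) : Prop where
  germ : ∀ f g q, X.PlotAt f q → X.proj (f q) ∈ U → f =ᶠ[𝓝 q] g → α f q = α g q
  scale : ∀ (f : C2 → X.Amb) (l : C2 → ℂ) (q : C2), X.PlotAt f q → X.proj (f q) ∈ U →
    HolAt l q → l q ≠ 0 → α (fun z => act X.w (l z) (f z)) q = α f q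
  pull : ∀ (f : C2 → X.Amb) (g : C2 → C2) (q : C2), HolAt g q → X.PlotAt f (g q) →
    X.proj (f (g q)) ∈ U → α (f ∘ g) q = (α f (g q)).comp (fderiv ℂ g q)
  hol : ∀ f q, X.PlotAt f q → X.proj (f q) ∈ U → DifferentiableAt ℂ (α f) q

/-- A holomorphic section of `(Ω²)^{⊗ m}` over the open set `U` of the surface: to every local
holomorphic map `f` from `ℂ²` to the surface and every point `q` it assigns the coefficient
`ω f q` of `(dz_0 ∧ dz_1)^{⊗ m}` in the pull back `f^* ω`. For `m = 1`: holomorphic 2-forms. -/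
structure IsPluri (m : ℕ) (U : Set X.Pt) (ω : (C2 → X.Amb) → C2 → ℂ) : Prop where
  germ : ∀ f g q, X.PlotAt f q → X.proj (f q) ∈ U → f =ᶠ[𝓝 q] g → ω f q = ω g q
  scale : ∀ (f : C2 → X.Amb) (l : C2 → ℂ) (q : C2), X.PlotAt f q → X.proj (f q) ∈ U →
    HolAt l q → l q ≠ 0 → ω (fun z => act X.w (l z) (f z)) q = ω f q
  pull : ∀ (f : C2 → X.Amb) (g : C2 → C2) (q : C2), HolAt g q → X.PlotAt f (g q) →
    X.proj (f (g q)) ∈ U → ω (f ∘ g) q = ω f (g q) * (fderiv ℂ g q).det ^ m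
  hol : ∀ f q, X.PlotAt f q → X.proj (f q) ∈ U → DifferentiableAt ℂ (ω f) q

/-- The geometric genus is `m`: the global holomorphic 2-forms have a basis with `m` elements
(two rules are equal as forms if they agree on all local holomorphic maps). -/
def HasPg (m : ℕ) : Prop :=
  ∃ b : Fin m → (C2 → X.Amb) → C2 → ℂ, (∀ i, X.IsPluri 1 Set.univ (b i)) ∧
    ∀ ω, X.IsPluri 1 Set.univ ω →
      ∃! a : Fin m → ℂ, ∀ f q, X.PlotAt f q → ω f q = ∑ i, a i * b i f q

/-- General type (Kodaira dimension two): for some `m ≥ 1` there are three `m`-canonical forms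
whose ratios are two functions which are independent (their Jacobian determinant does not
vanish identically), that is, some pluricanonical map has a two-dimensional image. -/
def GeneralType : Prop :=
  ∃ m : ℕ, 1 ≤ m ∧ ∃ s : Fin 3 → (C2 → X.Amb) → C2 → ℂ,
    (∀ i, X.IsPluri m Set.univ (s i)) ∧ ∃ f q, X.PlotAt f q ∧ s 0 f q ≠ 0 ∧
      (fderiv ℂ (fun z => (![s 1 f z / s 0 f z, s 2 f z / s 0 f z] : C2)) q).det ≠ 0

/-- The Euler vector at a point of the cone (the tangent vector of the `ℂˣ`-orbit). -/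
def euler (v : X.Amb) : X.Amb := fun i => (X.w i : ℂ) * v i

/-- The local holomorphic map `f` to the surface is an immersion at `q`. -/
def Immersive (f : C2 → X.Amb) (q : C2) : Prop :=
  LinearIndependent ℂ ![X.euler (f q), fderiv ℂ f q (Pi.single 0 1), fderiv ℂ f q (Pi.single 1 1)]

/-- A K3 surface: there is a nowhere vanishing holomorphic 2-form, and there is no nonzero
holomorphic 1-form (for projective surfaces `h⁰(Ω¹) = h¹(𝒪)`). -/
def IsK3 : Prop :=
  (∃ ω, X.IsPluri 1 Set.univ ω ∧ ∀ f q, X.PlotAt f q → X.Immersive f q → ω f q ≠ 0) ∧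
    ∀ α, X.IsForm1 Set.univ α → ∀ f q, X.PlotAt f q → α f q = 0

/-! ### The Hodge filtration on `H²` and the transcendental part -/

/-- The cochain `c` becomes the coboundary of a cochain of holomorphic functions. -/
def IsF1 (c : X.Pt → X.Pt → X.Pt → X.Pt → ℂ) : Prop :=
  ∃ U : X.Pt → Set X.Pt, IsCover U ∧ ∃ h : X.Pt → X.Pt → X.Pt → ℂ,
    (∀ x y, X.HolOn (h x y) (U x ∩ U y)) ∧ IsDelta U c h

theorem isF1_zero : X.IsF1 0 :=
  ⟨_, isCover_univ, 0, fun x y f q _ _ => by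
    simp only [Pi.zero_apply]; exact differentiableAt_const _, fun x y z p _ => by simp⟩

theorem isF1_add {c d : X.Pt → X.Pt → X.Pt → X.Pt → ℂ} (hc : X.IsF1 c) (hd : X.IsF1 d) :
    X.IsF1 (c + d) := by
  obtain ⟨U, hU, b, h1, h2⟩ := hc
  obtain ⟨V, hV, b', h3, h4⟩ := hd
  refine ⟨_, hU.inter hV, b + b', fun x y f q hf hp => ?_, fun x y z p hp => ?_⟩
  · exact (h1 x y f q hf ⟨hp.1.1, hp.2.1⟩).add (h3 x y f q hf ⟨hp.1.2, hp.2.2⟩)
  · have h5 := h2 x y z p ⟨⟨hp.1.1.1, hp.1.2.1⟩, hp.2.1⟩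
    have h6 := h4 x y z p ⟨⟨hp.1.1.2, hp.1.2.2⟩, hp.2.2⟩
    simp only [Pi.add_apply, h5, h6]
    abel

theorem isF1_smul (r : ℂ) {c : X.Pt → X.Pt → X.Pt → X.Pt → ℂ} (hc : X.IsF1 c) :
    X.IsF1 (r • c) := by
  obtain ⟨U, hU, b, h1, h2⟩ := hc
  refine ⟨U, hU, r • b, fun x y f q hf hp => ?_, fun x y z p hp => ?_⟩
  · exact (h1 x y f q hf hp).const_mul r
  · have h5 := h2 x y z p hp
    simp only [Pi.smul_apply, h5, smul_add, smul_sub]

/-- The cochains which become coboundaries of holomorphic cochains. -/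
def F1c : Submodule ℂ (X.Pt → X.Pt → X.Pt → X.Pt → ℂ) where
  carrier := {c | X.IsF1 c}
  zero_mem' := X.isF1_zero
  add_mem' := X.isF1_add
  smul_mem' r _ h := X.isF1_smul r h

theorem IsForm1.zero (U : Set X.Pt) : X.IsForm1 U 0 :=
  ⟨fun _ _ _ _ _ _ => rfl, fun _ _ _ _ _ _ _ => rfl, fun _ _ _ _ _ _ => by simp,
    fun _ _ _ _ => by
      simp only [Pi.zero_apply]
      exact differentiableAt_const _⟩

theorem IsForm1.mono {X : Surf} {U V : Set X.Pt} {α : (C2 → X.Amb) → C2 → (C2 →L[ℂ] ℂ)}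
    (h : X.IsForm1 U α) (hV : V ⊆ U) : X.IsForm1 V α :=
  ⟨fun f g q h1 h2 => h.germ f g q h1 (hV h2), fun f l q h1 h2 => h.scale f l q h1 (hV h2),
    fun f g q h1 h2 h3 => h.pull f g q h1 h2 (hV h3), fun f q h1 h2 => h.hol f q h1 (hV h2)⟩

theorem IsForm1.add {X : Surf} {U : Set X.Pt} {α β : (C2 → X.Amb) → C2 → (C2 →L[ℂ] ℂ)}
    (h : X.IsForm1 U α) (h' : X.IsForm1 U β) : X.IsForm1 U (α + β) where
  germ f g q h1 h2 h3 := by
    simp only [Pi.add_apply, h.germ f g q h1 h2 h3, h'.germ f g q h1 h2 h3]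
  scale f l q h1 h2 h3 h4 := by
    simp only [Pi.add_apply, h.scale f l q h1 h2 h3 h4, h'.scale f l q h1 h2 h3 h4]
  pull f g q h1 h2 h3 := by
    simp only [Pi.add_apply, h.pull f g q h1 h2 h3, h'.pull f g q h1 h2 h3,
      ContinuousLinearMap.add_comp]
  hol f q h1 h2 := (h.hol f q h1 h2).add (h'.hol f q h1 h2)

theorem IsForm1.smul {X : Surf} {U : Set X.Pt} {α : (C2 → X.Amb) → C2 → (C2 →L[ℂ] ℂ)}
    (h : X.IsForm1 U α) (r : ℂ) : X.IsForm1 U (r • α) where
  germ f g q h1 h2 h3 := by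
    simp only [Pi.smul_apply, h.germ f g q h1 h2 h3]
  scale f l q h1 h2 h3 h4 := by
    simp only [Pi.smul_apply, h.scale f l q h1 h2 h3 h4]
  pull f g q h1 h2 h3 := by
    simp only [Pi.smul_apply, h.pull f g q h1 h2 h3, ContinuousLinearMap.smul_comp]
  hol f q h1 h2 := (h.hol f q h1 h2).const_smul r

/-- The cochain `c` becomes the coboundary of a cochain `h` of holomorphic functions, such that
`dh` is the coboundary of a cochain of holomorphic 1-forms. -/
def IsF2 (c : X.Pt → X.Pt → X.Pt → X.Pt → ℂ) : Prop :=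
  ∃ U : X.Pt → Set X.Pt, IsCover U ∧ ∃ h : X.Pt → X.Pt → X.Pt → ℂ,
    ∃ θ : X.Pt → (C2 → X.Amb) → C2 → (C2 →L[ℂ] ℂ),
    (∀ x y, X.HolOn (h x y) (U x ∩ U y)) ∧ (∀ x, X.IsForm1 (U x) (θ x)) ∧
    (∀ x y f q, X.PlotAt f q → X.proj (f q) ∈ U x ∩ U y →
      fderiv ℂ (fun z => h x y (X.proj (f z))) q = θ y f q - θ x f q) ∧ IsDelta U c h

theorem isF2_zero : X.IsF2 0 :=
  ⟨_, isCover_univ, 0, 0, fun x y f q _ _ => by
    simp only [Pi.zero_apply]; exact differentiableAt_const _, fun x => IsForm1.zero X _,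
    fun x y f q _ _ => by simp, fun x y z p _ => by simp⟩

theorem isF2_add {c d : X.Pt → X.Pt → X.Pt → X.Pt → ℂ} (hc : X.IsF2 c) (hd : X.IsF2 d) :
    X.IsF2 (c + d) := by
  obtain ⟨U, hU, b, θ, h1, h5, h6, h2⟩ := hc
  obtain ⟨V, hV, b', θ', h3, h7, h8, h4⟩ := hd
  refine ⟨_, hU.inter hV, b + b', θ + θ', fun x y f q hf hp => ?_, fun x => ?_,
    fun x y f q hf hp => ?_, fun x y z p hp => ?_⟩
  · exact (h1 x y f q hf ⟨hp.1.1, hp.2.1⟩).add (h3 x y f q hf ⟨hp.1.2, hp.2.2⟩)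
  · exact ((h5 x).mono Set.inter_subset_left).add ((h7 x).mono Set.inter_subset_right)
  · have h9 := h6 x y f q hf ⟨hp.1.1, hp.2.1⟩
    have h10 := h8 x y f q hf ⟨hp.1.2, hp.2.2⟩
    simp only [Pi.add_apply]
    rw [fderiv_fun_add (h1 x y f q hf ⟨hp.1.1, hp.2.1⟩) (h3 x y f q hf ⟨hp.1.2, hp.2.2⟩), h9,
      h10]
    abel
  · have h5 := h2 x y z p ⟨⟨hp.1.1.1, hp.1.2.1⟩, hp.2.1⟩
    have h6 := h4 x y z p ⟨⟨hp.1.1.2, hp.1.2.2⟩, hp.2.2⟩
    simp only [Pi.add_apply, h5, h6]
    abel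

theorem isF2_smul (r : ℂ) {c : X.Pt → X.Pt → X.Pt → X.Pt → ℂ} (hc : X.IsF2 c) :
    X.IsF2 (r • c) := by
  obtain ⟨U, hU, b, θ, h1, h5, h6, h2⟩ := hc
  refine ⟨U, hU, r • b, r • θ, fun x y f q hf hp => ?_, fun x => (h5 x).smul r,
    fun x y f q hf hp => ?_, fun x y z p hp => ?_⟩
  · exact (h1 x y f q hf hp).const_mul r
  · simp only [Pi.smul_apply]
    rw [fderiv_fun_const_smul (h1 x y f q hf hp), h6 x y f q hf hp, smul_sub]
  · have h5 := h2 x y z p hp
    simp only [Pi.smul_apply, h5, smul_add, smul_sub]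

/-- The cochains which become coboundaries of holomorphic cochains `h`, such that `dh` is the
coboundary of a cochain of holomorphic 1-forms. -/
def F2c : Submodule ℂ (X.Pt → X.Pt → X.Pt → X.Pt → ℂ) where
  carrier := {c | X.IsF2 c}
  zero_mem' := X.isF2_zero
  add_mem' := X.isF2_add
  smul_mem' r _ h := X.isF2_smul r h

/-- `F¹ H²(X, ℂ)`. -/
def F1 : Submodule ℂ (H2 X.Pt ℂ ℂ) :=
  (X.F1c.comap (Z2 X.Pt ℂ ℂ).subtype).map (Submodule.mkQ _)

/-- `F² H²(X, ℂ)`. -/
def F2 : Submodule ℂ (H2 X.Pt ℂ ℂ) :=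
  (X.F2c.comap (Z2 X.Pt ℂ ℂ).subtype).map (Submodule.mkQ _)

/-- The transcendental part `H²_tr(X)` of `H²(X, ℚ)`: the smallest rational subspace whose
complexification contains `F² H²(X, ℂ) = H^{2,0}(X)`. -/
def T : Submodule ℚ (H2 X.Pt ℚ ℚ) :=
  sInf {W | ∀ ξ ∈ X.F2, ξ ∈ Submodule.span ℂ ((toC X.Pt) '' (W : Set (H2 X.Pt ℚ ℚ)))}

/-- The natural map `ℂ ⊗ H²_tr(X) → H²(X, ℂ)`. -/
noncomputable def Tmap : ℂ ⊗[ℚ] X.T →ₗ[ℂ] H2 X.Pt ℂ ℂ :=
  LinearMap.liftBaseChange ℂ ((toC X.Pt).comp X.T.subtype)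

/-- The Hodge filtration `F¹` on `ℂ ⊗ H²_tr(X)`. -/
noncomputable def TF1 : Submodule ℂ (ℂ ⊗[ℚ] X.T) := X.F1.comap X.Tmap

/-- The Hodge filtration `F²` on `ℂ ⊗ H²_tr(X)`. -/
noncomputable def TF2 : Submodule ℂ (ℂ ⊗[ℚ] X.T) := X.F2.comap X.Tmap

end Surf

/-- `H²_tr(S)` is isomorphic, as a rational Hodge structure, to the direct sum of the
`H²_tr(X j)`: there is an isomorphism of rational vector spaces whose complexification identifies
the Hodge filtrations. -/
def TrSplits (S : Surf) {m : ℕ} (X : Fin m → Surf) : Prop :=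
  ∃ φ : ((j : Fin m) → (X j).T) ≃ₗ[ℚ] S.T, ∀ τ : ℂ ⊗[ℚ] ((j : Fin m) → (X j).T),
    (φ.toLinearMap.baseChange ℂ τ ∈ S.TF1 ↔
      ∀ j, (LinearMap.proj j : ((j : Fin m) → (X j).T) →ₗ[ℚ] (X j).T).baseChange ℂ τ ∈ (X j).TF1) ∧
    (φ.toLinearMap.baseChange ℂ τ ∈ S.TF2 ↔
      ∀ j, (LinearMap.proj j : ((j : Fin m) → (X j).T) →ₗ[ℚ] (X j).T).baseChange ℂ τ ∈ (X j).TF2)

end Pool.Agent.K3Pieces
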