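import Pool.Agent.Lib.MP_3004b3_ag.C0

/-!
# The differential of a function and of a 1-form (definitions)
-/

set_option autoImplicit false

namespace Pool.Agent.K3Pieces

open scoped Topology

/-- The first coordinate vector of `ℂ²`. -/
abbrev e0 : C2 := Pi.single 0 1

/-- The second coordinate vector of `ℂ²`. -/
abbrev e1 : C2 := Pi.single 1 1

namespace Surf

variable (X : Surf)

/-- The differential of a function on the surface. -/
noncomputable def dfun (h : X.Pt → ℂ) (f : C2 → X.Amb) (q : C2) : C2 →L[ℂ] ℂ :=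
  fderiv ℂ (fun z => h (X.proj (f z))) q

/-- The differential (coefficient of `dz_0 ∧ dz_1`) of a 1-form. -/
noncomputable def curl (θ : (C2 → X.Amb) → C2 → (C2 →L[ℂ] ℂ)) (f : C2 → X.Amb) (q : C2) : ℂ :=
  fderiv ℂ (θ f) q e0 e1 - fderiv ℂ (θ f) q e1 e0

/-- The cochain `c` is represented by the 2-form `ω` (a zigzag in the Čech - de Rham complex of
holomorphic forms). -/
def Zig (c : X.Pt → X.Pt → X.Pt → X.Pt → ℂ) (ω : (C2 → X.Amb) → C2 → ℂ) : Prop :=
  ∃ U : X.Pt → Set X.Pt, IsCover U ∧ ∃ h : X.Pt → X.Pt → X.Pt → ℂ,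
    ∃ θ : X.Pt → (C2 → X.Amb) → C2 → (C2 →L[ℂ] ℂ),
    (∀ x y, X.HolOn (h x y) (U x ∩ U y)) ∧ (∀ x, X.IsForm1 (U x) (θ x)) ∧
    (∀ x y f q, X.PlotAt f q → X.proj (f q) ∈ U x ∩ U y →
      fderiv ℂ (fun z => h x y (X.proj (f z))) q = θ y f q - θ x f q) ∧ IsDelta U c h ∧
    ∀ x f q, X.PlotAt f q → X.proj (f q) ∈ U x → X.curl (θ x) f q = ω f q

end Surf

/-- `det` of a linear map of `ℂ²`. -/
theorem det_C2 (A : C2 →L[ℂ] C2) : A.det = A e0 0 * A e1 1 - A e0 1 * A e1 0 := by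
  rw [ContinuousLinearMap.det, ← LinearMap.det_toMatrix']
  rw [Matrix.det_fin_two]
  simp [LinearMap.toMatrix'_apply, e0, e1]
  ring

end Pool.Agent.K3Pieces
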