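import Pool.Agent.Lib.MP_3004b3_ag.E0
import Pool.Agent.Lib.MP_3004b3_ag.C2

/-!
# JOB E1: functions and their differentials

`U` is open.

* `HolOn.holAt`: near `q` the map stays in `U` (`PlotAt.eventually_mem`), and `HolOn` applies at
  all points near `q`.
* `dfun_isForm1`: `germ`: the functions agree near `q`. `scale`: `proj (act (l z) (f z)) = proj (f z)`
  near `q` (`proj_act`). `pull`: chain rule. `hol`: `HolAt.fderiv`.
* `curl_dfun`: `HolAt.snd_symm`.
* `lc_of_dfun_zero`: let `p ∈ U`; chart `C` at `p` with `C.V ⊆ U`; on a ball around `0` in `C.D` the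
  function `d ↦ h (proj (C.f d))` has derivative `0`, so it is constant
  (`Convex.is_const_of_fderivWithin_eq_zero` or similar); the image of this ball is an open
  neighbourhood of `p` (`Chart.open_sub`).
* `holOn_of_lc`, `dfun_of_lc`: `z ↦ h (proj (f z))` is constant near `q` (continuity of
  `proj ∘ f`).
-/

set_option autoImplicit false

namespace Pool.Agent.K3Pieces

open scoped Topology

namespace Surf

variable {X : Surf} {U : Set X.Pt} {h : X.Pt → ℂ}

theorem HolOn.holAt (hh : X.HolOn h U) (hU : IsOpen U) {f : C2 → X.Amb} {q : C2}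
    (hf : X.PlotAt f q) (hq : X.proj (f q) ∈ U) : HolAt (fun z => h (X.proj (f z))) q := by
  filter_upwards [hf.eventually, hf.eventually_mem hU hq] with z h1 h2
  exact hh f z h1 h2

theorem dfun_isForm1 (hh : X.HolOn h U) (hU : IsOpen U) : X.IsForm1 U (X.dfun h) := by
  refine ⟨?_, ?_, ?_, ?_⟩
  · intro f g q _ _ h3
    have h4 : (fun z => h (X.proj (f z))) =ᶠ[𝓝 q] fun z => h (X.proj (g z)) := by
      filter_upwards [h3] with z hz
      rw [hz]
    exact h4.fderiv_eq
  · intro f l q hf hq hl hl0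
    have h4 : (fun z => h (X.proj (act X.w (l z) (f z)))) =ᶠ[𝓝 q] fun z => h (X.proj (f z)) := by
      filter_upwards [hf, hl.continuousAt.eventually_ne hl0] with z hz hlz
      rw [X.proj_act hz.2 hlz]
    exact h4.fderiv_eq
  · intro f g q hg hf hq
    have h1 : DifferentiableAt ℂ (fun z => h (X.proj (f z))) (g q) := hh f (g q) hf hq
    exact fderiv_comp q h1 hg.differentiableAt
  · intro f q hf hq
    have h1 := (hh.holAt hU hf hq).fderiv.differentiableAt
    exact h1

theorem curl_dfun (hh : X.HolOn h U) (hU : IsOpen U) {f : C2 → X.Amb} {q : C2}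
    (hf : X.PlotAt f q) (hq : X.proj (f q) ∈ U) : X.curl (X.dfun h) f q = 0 := by
  exact sub_eq_zero.2 (HolAt.snd_symm (hh.holAt hU hf hq) e0 e1)

theorem lc_of_dfun_zero (hh : X.HolOn h U) (hU : IsOpen U)
    (h0 : ∀ f q, X.PlotAt f q → X.proj (f q) ∈ U → X.dfun h f q = 0) : LC h U := by
  intro p hp
  obtain ⟨C, hC⟩ := X.exists_chart p hU hp
  obtain ⟨r, hr, hsub⟩ := Metric.isOpen_iff.1 C.isOpen 0 C.mem
  have hmem : ∀ d ∈ Metric.ball (0 : C2) r, X.proj (C.f d) ∈ U := fun d hd => hC ⟨d, hsub hd, rfl⟩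
  have hdiff : DifferentiableOn ℂ (fun d => h (X.proj (C.f d))) (Metric.ball (0 : C2) r) := fun d hd =>
    (hh C.f d (C.plot d (hsub hd)) (hmem d hd)).differentiableWithinAt
  have hzero : (Metric.ball (0 : C2) r).EqOn (fderiv ℂ (fun d => h (X.proj (C.f d)))) 0 := fun d hd =>
    h0 C.f d (C.plot d (hsub hd)) (hmem d hd)
  have h0r : (0 : C2) ∈ Metric.ball (0 : C2) r := Metric.mem_ball_self hr
  have hconst : ∀ d ∈ Metric.ball (0 : C2) r, h (X.proj (C.f d)) = h (X.proj (C.f 0)) := fun d hd =>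
    Metric.isOpen_ball.is_const_of_fderiv_eq_zero (convex_ball (0 : C2) r).isPreconnected hdiff hzero hd h0r
  have hopen := C.open_sub Metric.isOpen_ball hsub
  have hpm : p ∈ (fun d => X.proj (C.f d)) '' Metric.ball (0 : C2) r := ⟨0, h0r, C.map⟩
  filter_upwards [hopen.mem_nhds hpm] with z hz
  obtain ⟨d, hd, rfl⟩ := hz
  have h1 := hconst d hd
  rw [C.map] at h1
  exact h1

theorem holOn_of_lc (hh : LC h U) : X.HolOn h U := by
  intro f q hf hq
  have h1 : (fun z => h (X.proj (f z))) =ᶠ[𝓝 q] fun _ => h (X.proj (f q)) :=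
    hf.continuousAt_proj.eventually (hh _ hq)
  exact (differentiableAt_const _).congr_of_eventuallyEq h1

theorem dfun_of_lc (hh : LC h U) {f : C2 → X.Amb} {q : C2}
    (hf : X.PlotAt f q) (hq : X.proj (f q) ∈ U) : X.dfun h f q = 0 := by
  have h1 : (fun z => h (X.proj (f z))) =ᶠ[𝓝 q] fun _ => h (X.proj (f q)) :=
    hf.continuousAt_proj.eventually (hh _ hq)
  have h2 := h1.fderiv_eq (𝕜 := ℂ)
  have h3 : X.dfun h f q = fderiv ℂ (fun _ : C2 => h (X.proj (f q))) q := h2
  rw [h3]
  simp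

end Surf

end Pool.Agent.K3Pieces
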