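import Pool.Agent.Lib.MP_3004b3_ag.E0

/-!
# JOB E2: the differential of a 1-form is a 2-form

`U` is open.

* `IsForm1.holAt`: as in `HolOn.holAt`: near `q` the points `X.proj (f z)` stay in `U`.
* `IsForm1.eventuallyEq`: if two maps agree near `q`, then `θ f` and `θ g` agree near `q`
  (`germ` at all points near `q`; `Filter.EventuallyEq.eventuallyEq_nhds`).
* `curl_isPluri`: `germ` and `scale` from the previous item (for `scale`: near `q` the function `l` is
  holomorphic and nonzero, so `θ (act l f) z = θ f z` for all `z` near `q`). `hol`: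
  `HolAt.fderiv`. `pull`: near `q`, `θ (f ∘ g) z = (θ f (g z)).comp (fderiv ℂ g z)`; differentiate
  (`HasFDerivAt.clm_comp`, `HolAt.fderiv`): the derivative at `q` applied to `a` and then to `b` is
  `(fderiv (θ f) (g q) (Dg a)) (Dg b) + θ f (g q) (D²g a b)`, with `D²g a b = D²g b a`
  (`HolAt.snd_symm`). The difference for `(a, b) = (e0, e1)` and `(e1, e0)` is
  `B (Dg e0) (Dg e1) - B (Dg e1) (Dg e0)` with the bilinear map `B = fderiv (θ f) (g q)`, and with
  `Dg e0 = x e0 + y e1`, `Dg e1 = x' e0 + y' e1` this is `(x y' - y x') (B e0 e1 - B e1 e0)`; `det_C2`.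
* `curl_add`, `curl_smul`, `curl_sub`: derivative of a sum.
-/

set_option autoImplicit false

namespace Pool.Agent.K3Pieces

open scoped Topology

namespace Surf

variable {X : Surf} {U : Set X.Pt} {θ θ' : (C2 → X.Amb) → C2 → (C2 →L[ℂ] ℂ)}

theorem IsForm1.holAt (h : X.IsForm1 U θ) (hU : IsOpen U) {f : C2 → X.Amb} {q : C2}
    (hf : X.PlotAt f q) (hq : X.proj (f q) ∈ U) : HolAt (θ f) q := by
  filter_upwards [hf.eventually, hf.eventually_mem hU hq] with z h1 h2
  exact h.hol f z h1 h2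

theorem IsForm1.eventuallyEq (h : X.IsForm1 U θ) (hU : IsOpen U) {f g : C2 → X.Amb} {q : C2}
    (hf : X.PlotAt f q) (hq : X.proj (f q) ∈ U) (hfg : f =ᶠ[𝓝 q] g) : θ f =ᶠ[𝓝 q] θ g := by
  filter_upwards [hf.eventually, hf.eventually_mem hU hq, hfg.eventuallyEq_nhds] with z h1 h2 h3
  exact h.germ f g z h1 h2 h3

theorem e2_decomp (v : C2) : v = v 0 • e0 + v 1 • e1 := by
  funext i
  fin_cases i <;> simp [e0, e1]

theorem e2_alt (B : C2 →L[ℂ] (C2 →L[ℂ] ℂ)) (v w : C2) :
    B v w - B w v = (v 0 * w 1 - v 1 * w 0) * (B e0 e1 - B e1 e0) := by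
  have hv : B v w = v 0 * w 0 * B e0 e0 + v 0 * w 1 * B e0 e1 + v 1 * w 0 * B e1 e0 +
      v 1 * w 1 * B e1 e1 := by
    conv_lhs => rw [e2_decomp v, e2_decomp w]
    simp only [map_add, map_smul, ContinuousLinearMap.add_apply, ContinuousLinearMap.smul_apply,
      smul_eq_mul]
    ring
  have hw : B w v = w 0 * v 0 * B e0 e0 + w 0 * v 1 * B e0 e1 + w 1 * v 0 * B e1 e0 +
      w 1 * v 1 * B e1 e1 := by
    conv_lhs => rw [e2_decomp v, e2_decomp w]
    simp only [map_add, map_smul, ContinuousLinearMap.add_apply, ContinuousLinearMap.smul_apply,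
      smul_eq_mul]
    ring
  rw [hv, hw]
  ring

theorem curl_isPluri (h : X.IsForm1 U θ) (hU : IsOpen U) : X.IsPluri 1 U (X.curl θ) := by
  refine ⟨?_, ?_, ?_, ?_⟩
  · intro f g q h1 h2 h3
    have h4 := h.eventuallyEq hU h1 h2 h3
    unfold curl
    rw [h4.fderiv_eq]
  · intro f l q hf hq hl hl0
    have h4 : θ (fun z => act X.w (l z) (f z)) =ᶠ[𝓝 q] θ f := by
      filter_upwards [hf.eventually, hf.eventually_mem hU hq, hl.eventually,
        hl.continuousAt.eventually_ne hl0] with z h1 h2 h3 h5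
      exact h.scale f l z h1 h2 h3 h5
    unfold curl
    rw [h4.fderiv_eq]
  · intro f g q hg hf hq
    have h4 : θ (f ∘ g) =ᶠ[𝓝 q] fun z => (θ f (g z)).comp (fderiv ℂ g z) := by
      filter_upwards [hg.eventually, hg.continuousAt.eventually hf.eventually,
        hg.continuousAt.eventually (hf.eventually_mem hU hq)] with z h1 h2 h3
      exact h.pull f g z h1 h2 h3
    have hθ : HolAt (θ f) (g q) := h.holAt hU hf hq
    have hd1 : HasFDerivAt (fun z => θ f (g z))
        ((fderiv ℂ (θ f) (g q)).comp (fderiv ℂ g q)) q :=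
      hθ.differentiableAt.hasFDerivAt.comp q hg.differentiableAt.hasFDerivAt
    have hd2 : HasFDerivAt (fun z => fderiv ℂ g z) (fderiv ℂ (fun z => fderiv ℂ g z) q) q :=
      hg.fderiv.differentiableAt.hasFDerivAt
    have hd3 := hd1.clm_comp hd2
    have hval : ∀ a b : C2, fderiv ℂ (θ (f ∘ g)) q a b =
        θ f (g q) (fderiv ℂ (fun z => fderiv ℂ g z) q a b) +
          fderiv ℂ (θ f) (g q) (fderiv ℂ g q a) (fderiv ℂ g q b) := by
      intro a b
      rw [h4.fderiv_eq, hd3.fderiv]
      simp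
    have hsym := hg.snd_symm e0 e1
    unfold curl
    rw [hval, hval, hsym, pow_one, det_C2]
    have h5 := e2_alt (fderiv ℂ (θ f) (g q)) (fderiv ℂ g q e0) (fderiv ℂ g q e1)
    linear_combination h5
  · intro f q hf hq
    have h1 := (h.holAt hU hf hq).fderiv.differentiableAt
    unfold curl
    exact ((h1.clm_apply (differentiableAt_const _)).clm_apply (differentiableAt_const _)).sub
      ((h1.clm_apply (differentiableAt_const _)).clm_apply (differentiableAt_const _))

theorem curl_add (h : X.IsForm1 U θ) (h' : X.IsForm1 U θ') {f : C2 → X.Amb} {q : C2}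
    (hf : X.PlotAt f q) (hq : X.proj (f q) ∈ U) :
    X.curl (θ + θ') f q = X.curl θ f q + X.curl θ' f q := by
  have h1 := h.hol f q hf hq
  have h2 := h'.hol f q hf hq
  have h3 : fderiv ℂ ((θ + θ') f) q = fderiv ℂ (θ f) q + fderiv ℂ (θ' f) q :=
    fderiv_add h1 h2
  unfold curl
  rw [h3]
  simp only [ContinuousLinearMap.add_apply]
  ring

theorem curl_sub (h : X.IsForm1 U θ) (h' : X.IsForm1 U θ') {f : C2 → X.Amb} {q : C2}
    (hf : X.PlotAt f q) (hq : X.proj (f q) ∈ U) :
    X.curl (θ - θ') f q = X.curl θ f q - X.curl θ' f q := by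
  have h1 := h.hol f q hf hq
  have h2 := h'.hol f q hf hq
  have h3 : fderiv ℂ ((θ - θ') f) q = fderiv ℂ (θ f) q - fderiv ℂ (θ' f) q :=
    fderiv_sub h1 h2
  unfold curl
  rw [h3]
  simp only [ContinuousLinearMap.sub_apply]
  ring

theorem curl_smul (h : X.IsForm1 U θ) (r : ℂ) {f : C2 → X.Amb} {q : C2}
    (hf : X.PlotAt f q) (hq : X.proj (f q) ∈ U) :
    X.curl (r • θ) f q = r * X.curl θ f q := by
  have h1 := h.hol f q hf hq
  have h3 : fderiv ℂ ((r • θ) f) q = r • fderiv ℂ (θ f) q :=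
    fderiv_const_smul h1 r
  unfold curl
  rw [h3]
  simp only [ContinuousLinearMap.smul_apply, smul_eq_mul]
  ring

/-- Two 1-forms which agree on all local maps into the open set `U` have the same differential. -/
theorem curl_congr (hU : IsOpen U) {f : C2 → X.Amb} {q : C2}
    (hf : X.PlotAt f q) (hq : X.proj (f q) ∈ U)
    (h : ∀ g z, X.PlotAt g z → X.proj (g z) ∈ U → θ g z = θ' g z) :
    X.curl θ f q = X.curl θ' f q := by
  have h1 : θ f =ᶠ[𝓝 q] θ' f := by
    filter_upwards [hf.eventually, hf.eventually_mem hU hq] with z h2 h3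
    exact h f z h2 h3
  unfold curl
  rw [h1.fderiv_eq]

end Surf

end Pool.Agent.K3Pieces
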