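import Pool.Agent.Lib.MP_3004b3_ag.E2
import Pool.Agent.Lib.MP_3004b3_ag.C2
import Pool.Agent.Lib.MP_3004b3_ag.D1

/-!
# JOB E3: local primitives of closed 1-forms on the surface

Choose a chart `C` at `p` with `C.V ⊆ U`. The function `θ C.f : C2 → (C2 →L[ℂ] ℂ)` is holomorphic near
`0` (`IsForm1.holAt`) and closed; `poincare1` gives `H` with `fderiv H = θ C.f` near `0`. Choose an
open `D' ∋ 0`, `D' ⊆ C.D`, on which `H` is differentiable and this holds, let `W` be the image of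
`D'` (open by `Chart.open_sub`) and `h x = H (C.κ x)`. For a local holomorphic map `g` at `q` into
`W`: by `Chart.factor`, `g = act l (C.f ∘ d)` near `q` with `d z = C.κ (X.proj (g z))` holomorphic,
`d q ∈ D'`. So `h (proj (g z)) = H (d z)` is differentiable at `q` with derivative
`fderiv H (d q) ∘ Dd = (θ C.f (d q)).comp (fderiv d q) = θ (C.f ∘ d) q = θ g q` by `pull`, `scale`,
`germ`.
-/

set_option autoImplicit false

namespace Pool.Agent.K3Pieces

open scoped Topology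

namespace Surf

variable {X : Surf} {U : Set X.Pt} {θ : (C2 → X.Amb) → C2 → (C2 →L[ℂ] ℂ)}

theorem IsForm1.exists_primitive (h : X.IsForm1 U θ) (hU : IsOpen U)
    (hc : ∀ f q, X.PlotAt f q → X.proj (f q) ∈ U → X.curl θ f q = 0) {p : X.Pt} (hp : p ∈ U) :
    ∃ W : Set X.Pt, IsOpen W ∧ p ∈ W ∧ W ⊆ U ∧ ∃ g : X.Pt → ℂ, X.HolOn g W ∧
      ∀ f q, X.PlotAt f q → X.proj (f q) ∈ W → X.dfun g f q = θ f q := by
  obtain ⟨C, hCU⟩ := X.exists_chart p hU hp
  have hp0 : X.proj (C.f 0) ∈ U := by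
    rw [C.map]
    exact hp
  have hθ : HolAt (θ C.f) 0 := h.holAt hU (C.plot 0 C.mem) hp0
  have hD : ∀ᶠ z in 𝓝 (0 : C2), z ∈ C.D := C.isOpen.mem_nhds C.mem
  have hclosed : ∀ᶠ z in 𝓝 (0 : C2), fderiv ℂ (θ C.f) z (Pi.single 0 1) (Pi.single 1 1) =
      fderiv ℂ (θ C.f) z (Pi.single 1 1) (Pi.single 0 1) := by
    filter_upwards [hD] with z hz
    have h1 := hc C.f z (C.plot z hz) (hCU ⟨z, hz, rfl⟩)
    unfold curl at h1
    exact sub_eq_zero.1 h1
  obtain ⟨H, hH, hH'⟩ := poincare1 hθ hclosed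
  obtain ⟨D', hD', hD'o, h0⟩ := eventually_nhds_iff.1 (hD.and (hH.and hH'))
  have hsub : D' ⊆ C.D := fun z hz => (hD' z hz).1
  have hWV : (fun d => X.proj (C.f d)) '' D' ⊆ C.V := Set.image_mono hsub
  refine ⟨(fun d => X.proj (C.f d)) '' D', C.open_sub hD'o hsub, ⟨0, h0, C.map⟩,
    hWV.trans hCU, fun x => H (C.κ x), ?_, ?_⟩
  · intro f q hf hq
    obtain ⟨hd, -⟩ := C.factor hf (hWV hq)
    obtain ⟨d1, hd1, hd1'⟩ := hq
    have e1 : C.κ (X.proj (f q)) = d1 := by
      rw [← hd1']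
      exact C.κ_proj (hsub hd1)
    have hHd : DifferentiableAt ℂ H (C.κ (X.proj (f q))) := by
      rw [e1]
      exact (hD' d1 hd1).2.1
    exact hHd.comp q hd.differentiableAt
  · intro f q hf hq
    obtain ⟨hd, l, hl, hl0, hfl⟩ := C.factor hf (hWV hq)
    have hqU : X.proj (f q) ∈ U := hCU (hWV hq)
    have hqV : X.proj (f q) ∈ C.V := hWV hq
    obtain ⟨d1, hd1, hd1'⟩ := hq
    have e1 : C.κ (X.proj (f q)) = d1 := by
      rw [← hd1']
      exact C.κ_proj (hsub hd1)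
    have hHd : DifferentiableAt ℂ H (C.κ (X.proj (f q))) := by
      rw [e1]
      exact (hD' d1 hd1).2.1
    have hfd : fderiv ℂ H (C.κ (X.proj (f q))) = θ C.f (C.κ (X.proj (f q))) := by
      rw [e1]
      exact (hD' d1 hd1).2.2
    have hplot : X.PlotAt C.f (C.κ (X.proj (f q))) := by
      rw [e1]
      exact C.plot d1 (hsub hd1)
    have hprojκ : X.proj (C.f (C.κ (X.proj (f q)))) = X.proj (f q) := C.proj_κ hqV
    have hprojU : X.proj (C.f (C.κ (X.proj (f q)))) ∈ U := by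
      rw [hprojκ]
      exact hqU
    have s1 : X.dfun (fun x => H (C.κ x)) f q
        = (fderiv ℂ H (C.κ (X.proj (f q)))).comp (fderiv ℂ (fun z => C.κ (X.proj (f z))) q) :=
      fderiv_comp q hHd hd.differentiableAt
    have s2 : θ (C.f ∘ fun z => C.κ (X.proj (f z))) q
        = (θ C.f (C.κ (X.proj (f q)))).comp (fderiv ℂ (fun z => C.κ (X.proj (f z))) q) :=
      h.pull C.f (fun z => C.κ (X.proj (f z))) q hd hplot hprojU
    have hplot2 : X.PlotAt (fun z => C.f (C.κ (X.proj (f z)))) q := hplot.comp hd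
    have s3 : θ (fun z => act X.w (l z) (C.f (C.κ (X.proj (f z))))) q
        = θ (fun z => C.f (C.κ (X.proj (f z)))) q :=
      h.scale (fun z => C.f (C.κ (X.proj (f z)))) l q hplot2 hprojU hl hl0
    have s4 : θ f q = θ (fun z => act X.w (l z) (C.f (C.κ (X.proj (f z))))) q :=
      h.germ f _ q hf hqU hfl
    rw [s1, hfd, s4, s3]
    exact s2.symm

end Surf

end Pool.Agent.K3Pieces
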