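import Pool.Agent.Lib.MP_3004b3_ag.E2
import Pool.Agent.Lib.MP_3004b3_ag.C2
import Pool.Agent.Lib.MP_3004b3_ag.D1

/-!
# JOB E4: local primitives of 2-forms on the surface

Choose a chart `C` at `p` with `C.V ⊆ U`. The function `ω C.f : C2 → ℂ` is holomorphic near `0` (it is
differentiable at all points of `C.D`), `poincare2` gives `G` with `∂G/∂z_0 = ω C.f` near `0`.
Choose an open `D' ∋ 0`, `D' ⊆ C.D`, on which `G` is differentiable and this holds, let `W` be the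
image of `D'` (`Chart.open_sub`). Put, with `d z = C.κ (X.proj (g z))`,
`θ g q = G (d q) • (ContinuousLinearMap.proj 1).comp (fderiv ℂ d q)`.

* `θ` is a 1-form on `W`: `germ` clear, `scale` by `proj_act` (near `q`), `pull` by the chain rule
  (`d` of `g ∘ k` is `d ∘ k`, holomorphic by `Chart.factor`), `hol` by `HolAt.fderiv`.
* On `C.f` itself, at a point of `D'`: `d z = z`, `θ C.f z = G z • (proj 1)`, so
  `curl θ C.f = ∂G/∂z_0 = ω C.f`. In general `g = act l (C.f ∘ d)` near `q`, so by `germ`, `scale`,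
  `pull` for `curl θ` (`curl_isPluri`) and for `ω`:
  `curl θ g q = curl θ C.f (d q) * det Dd = ω C.f (d q) * det Dd = ω g q`.
-/

set_option autoImplicit false

namespace Pool.Agent.K3Pieces

open scoped Topology

namespace Surf

variable {X : Surf} {U : Set X.Pt} {ω : (C2 → X.Amb) → C2 → ℂ}

/-- The second coordinate, as a covector. -/
noncomputable def e4_pr : C2 →L[ℂ] ℂ := ContinuousLinearMap.proj (R := ℂ) (φ := fun _ : Fin 2 => ℂ) 1

/-- The 1-form `G dz_1` in the coordinates of the chart. -/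
noncomputable def e4_form {p : X.Pt} (C : X.Chart p) (G : C2 → ℂ) :
    (C2 → X.Amb) → C2 → (C2 →L[ℂ] ℂ) := fun g q =>
  G (C.κ (X.proj (g q))) • e4_pr.comp (fderiv ℂ (fun z => C.κ (X.proj (g z))) q)

theorem e4_congr {p : X.Pt} (C : X.Chart p) (G : C2 → ℂ) {f g : C2 → X.Amb} {q : C2}
    (h : (fun z => C.κ (X.proj (f z))) =ᶠ[𝓝 q] fun z => C.κ (X.proj (g z))) :
    e4_form C G f q = e4_form C G g q := by
  have h1 : C.κ (X.proj (f q)) = C.κ (X.proj (g q)) := h.self_of_nhds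
  unfold e4_form
  rw [h1, h.fderiv_eq]

theorem e4_isForm1 {p : X.Pt} (C : X.Chart p) (G : C2 → ℂ) {D' : Set C2} (hD' : IsOpen D')
    (hsub : D' ⊆ C.D) (hG : ∀ z ∈ D', HolAt G z) :
    X.IsForm1 ((fun d => X.proj (C.f d)) '' D') (e4_form C G) := by
  have hV : (fun d => X.proj (C.f d)) '' D' ⊆ C.V := Set.image_mono hsub
  have hκ : ∀ x ∈ (fun d => X.proj (C.f d)) '' D', C.κ x ∈ D' := by
    rintro x ⟨d, hd, rfl⟩
    simp only
    rw [C.κ_proj (hsub hd)]
    exact hd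
  refine ⟨fun f g q hf hq hfg => ?_, fun f l q hf hq hl hl0 => ?_, fun f g q hg hf hq => ?_,
    fun f q hf hq => ?_⟩
  · refine e4_congr C G ?_
    filter_upwards [hfg] with z hz
    rw [hz]
  · refine e4_congr C G ?_
    filter_upwards [hf.eventually, hl.continuousAt.eventually_ne hl0] with z h1 h2
    rw [X.proj_act h1.mem h2]
  · have h1 : HolAt (fun z => C.κ (X.proj (f z))) (g q) := (C.factor hf (hV hq)).1
    unfold e4_form
    have h2 : fderiv ℂ (fun z => C.κ (X.proj ((f ∘ g) z))) q =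
        (fderiv ℂ (fun z => C.κ (X.proj (f z))) (g q)).comp (fderiv ℂ g q) := by
      have h3 : (fun z => C.κ (X.proj ((f ∘ g) z))) = (fun z => C.κ (X.proj (f z))) ∘ g := rfl
      rw [h3, fderiv_comp q h1.differentiableAt hg.differentiableAt]
    rw [h2]
    rfl
  · have h1 : HolAt (fun z => C.κ (X.proj (f z))) q := (C.factor hf (hV hq)).1
    have h2 : HolAt (fun z => G (C.κ (X.proj (f z)))) q :=
      HolAt.comp (g := G) (f := fun z => C.κ (X.proj (f z))) (hG _ (hκ _ hq)) h1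
    have h3 : DifferentiableAt ℂ (fun z => e4_pr.comp (fderiv ℂ (fun z => C.κ (X.proj (f z))) z)) q :=
      (differentiableAt_const e4_pr).clm_comp h1.fderiv.differentiableAt
    exact h2.differentiableAt.smul h3

theorem e4_curl {p : X.Pt} (C : X.Chart p) (G : C2 → ℂ) {D' : Set C2} (hD' : IsOpen D')
    (hsub : D' ⊆ C.D) (hG : ∀ z ∈ D', HolAt G z) {z : C2} (hz : z ∈ D') :
    X.curl (e4_form C G) C.f z = fderiv ℂ G z e0 := by
  have h1 : e4_form C G C.f =ᶠ[𝓝 z] fun y => G y • e4_pr := by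
    filter_upwards [hD'.mem_nhds hz] with y hy
    have h2 : (fun x => C.κ (X.proj (C.f x))) =ᶠ[𝓝 y] fun x => x := by
      filter_upwards [hD'.mem_nhds hy] with x hx
      exact C.κ_proj (hsub hx)
    unfold e4_form
    rw [h2.fderiv_eq, C.κ_proj (hsub hy), fderiv_fun_id]
    rfl
  unfold curl
  rw [h1.fderiv_eq]
  have h3 : fderiv ℂ (fun y => G y • e4_pr) z = (fderiv ℂ G z).smulRight e4_pr :=
    ((hG z hz).differentiableAt.hasFDerivAt.smul_const e4_pr).fderiv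
  rw [h3]
  simp [e4_pr, e0, e1]

theorem IsPluri.exists_primitive (h : X.IsPluri 1 U ω) (hU : IsOpen U) {p : X.Pt} (hp : p ∈ U) :
    ∃ W : Set X.Pt, IsOpen W ∧ p ∈ W ∧ W ⊆ U ∧ ∃ θ : (C2 → X.Amb) → C2 → (C2 →L[ℂ] ℂ),
      X.IsForm1 W θ ∧ ∀ f q, X.PlotAt f q → X.proj (f q) ∈ W → X.curl θ f q = ω f q := by
  obtain ⟨C, hC⟩ := X.exists_chart p hU hp
  have h1 : HolAt (ω C.f) 0 := by
    filter_upwards [C.isOpen.mem_nhds C.mem] with d hd
    exact h.hol C.f d (C.plot d hd) (hC ⟨d, hd, rfl⟩)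
  obtain ⟨G, hG, hGω⟩ := poincare2 h1
  have h2 : ∀ᶠ z in 𝓝 (0 : C2), z ∈ C.D ∧ HolAt G z ∧
      fderiv ℂ G z (Pi.single 0 1) = ω C.f z := by
    filter_upwards [C.isOpen.mem_nhds C.mem, hG.eventually, hGω] with z h3 h4 h5
    exact ⟨h3, h4, h5⟩
  obtain ⟨D', hD1, hD2, hD3⟩ := eventually_nhds_iff.1 h2
  have hsub : D' ⊆ C.D := fun z hz => (hD1 z hz).1
  have hG' : ∀ z ∈ D', HolAt G z := fun z hz => (hD1 z hz).2.1
  have hV : (fun d => X.proj (C.f d)) '' D' ⊆ C.V := Set.image_mono hsub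
  have hκ : ∀ x ∈ (fun d => X.proj (C.f d)) '' D', C.κ x ∈ D' := by
    rintro x ⟨d, hd, rfl⟩
    simp only
    rw [C.κ_proj (hsub hd)]
    exact hd
  have hW : IsOpen ((fun d => X.proj (C.f d)) '' D') := C.open_sub hD2 hsub
  have hθ := e4_isForm1 C G hD2 hsub hG'
  refine ⟨_, hW, ⟨0, hD3, C.map⟩, hV.trans hC, e4_form C G, hθ, fun f q hf hq => ?_⟩
  have hcp := curl_isPluri hθ hW
  obtain ⟨hd, l, hl, hl0, hfl⟩ := C.factor hf (hV hq)
  set d : C2 → C2 := fun z => C.κ (X.proj (f z)) with hddef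
  have hdq : d q ∈ D' := hκ _ hq
  have hCf : X.PlotAt C.f (d q) := C.plot _ (hsub hdq)
  have hCfd : X.PlotAt (C.f ∘ d) q := hCf.comp hd
  have hmem : X.proj (C.f (d q)) ∈ (fun d => X.proj (C.f d)) '' D' := ⟨d q, hdq, rfl⟩
  have hmemU : X.proj (C.f (d q)) ∈ U := hC (hV hmem)
  have e1' : X.curl (e4_form C G) f q = X.curl (e4_form C G) C.f (d q) * (fderiv ℂ d q).det ^ 1 := by
    rw [hcp.germ f _ q hf hq hfl, ← hcp.pull C.f d q hd hCf hmem]
    exact hcp.scale (C.f ∘ d) l q hCfd hmem hl hl0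
  have e2' : ω f q = ω C.f (d q) * (fderiv ℂ d q).det ^ 1 := by
    rw [h.germ f _ q hf (hC (hV hq)) hfl, ← h.pull C.f d q hd hCf hmemU]
    exact h.scale (C.f ∘ d) l q hCfd hmemU hl hl0
  rw [e1', e2', e4_curl C G hD2 hsub hG' hdq]
  congr 1
  exact (hD1 _ hdq).2.2

end Surf

end Pool.Agent.K3Pieces
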