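import Pool.Agent.Lib.MP_3004b3_ag.E1
import Pool.Agent.Lib.MP_3004b3_ag.E2

/-!
# JOB G1: the 2-form of a class in `F²`

Given the covering `U` and `h`, `θ` as in the definition of `F2c`, put
`ω f q = curl (θ (X.proj (f q))) f q`. On `U x ∩ U y` one has `θ y - θ x = dfun (h x y)` (on local
maps), so `curl (θ x) = curl (θ y)` on local maps into `U x ∩ U y` (`curl_congr`, `curl_sub`,
`curl_dfun`). So for a local map `f` at `q` into `U x`: `ω f q = curl (θ x) f q`, with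
`y = X.proj (f q) ∈ U y`; and this holds at all points near `q`, which gives the four properties of
`IsPluri 1 Set.univ ω` from those of `curl (θ x)` (`curl_isPluri`), with `x = X.proj (f q)`.
-/

set_option autoImplicit false

namespace Pool.Agent.K3Pieces

open scoped Topology

namespace Surf

variable {X : Surf}

theorem g1_key {U : X.Pt → Set X.Pt} (hU : IsCover U) {h : X.Pt → X.Pt → X.Pt → ℂ}
    {θ : X.Pt → (C2 → X.Amb) → C2 → (C2 →L[ℂ] ℂ)}
    (h1 : ∀ x y, X.HolOn (h x y) (U x ∩ U y)) (h5 : ∀ x, X.IsForm1 (U x) (θ x))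
    (h6 : ∀ x y f q, X.PlotAt f q → X.proj (f q) ∈ U x ∩ U y →
      fderiv ℂ (fun z => h x y (X.proj (f z))) q = θ y f q - θ x f q)
    (x y : X.Pt) {f : C2 → X.Amb} {q : C2} (hf : X.PlotAt f q) (hx : X.proj (f q) ∈ U x)
    (hy : X.proj (f q) ∈ U y) : X.curl (θ x) f q = X.curl (θ y) f q := by
  have hV : IsOpen (U x ∩ U y) := (hU.isOpen x).inter (hU.isOpen y)
  have hq : X.proj (f q) ∈ U x ∩ U y := ⟨hx, hy⟩
  have e1 : X.curl (X.dfun (h x y)) f q = X.curl (θ y - θ x) f q :=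
    curl_congr hV hf hq fun g z hg hz => h6 x y g z hg hz
  rw [curl_dfun (h1 x y) hV hf hq] at e1
  have e2 := curl_sub ((h5 y).mono Set.inter_subset_right) ((h5 x).mono Set.inter_subset_left)
    hf hq
  rw [← e1] at e2
  exact (sub_eq_zero.1 e2.symm).symm

theorem exists_zig {c : X.Pt → X.Pt → X.Pt → X.Pt → ℂ} (hc : c ∈ X.F2c) :
    ∃ ω, X.IsPluri 1 Set.univ ω ∧ X.Zig c ω := by
  obtain ⟨U, hU, h, θ, h1, h5, h6, h2⟩ := hc
  have key := fun x y f q => g1_key (f := f) (q := q) hU h1 h5 h6 x y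
  have hP := fun x => curl_isPluri (h5 x) (hU.isOpen x)
  refine ⟨fun f q => X.curl (θ (X.proj (f q))) f q, ?_, U, hU, h, θ, h1, h5, h6, h2, ?_⟩
  · refine ⟨?_, ?_, ?_, ?_⟩
    · intro f g q hf _ hfg
      have e := hfg.eq_of_nhds
      show X.curl (θ (X.proj (f q))) f q = X.curl (θ (X.proj (g q))) g q
      rw [← e]
      exact (hP _).germ f g q hf (hU.mem _) hfg
    · intro f l q hf _ hl hl0
      show X.curl (θ (X.proj (act X.w (l q) (f q)))) (fun z => act X.w (l z) (f z)) q =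
        X.curl (θ (X.proj (f q))) f q
      rw [proj_act X hf.mem hl0]
      exact (hP _).scale f l q hf (hU.mem _) hl hl0
    · intro f g q hg hf _
      exact (hP _).pull f g q hg hf (hU.mem _)
    · intro f q hf _
      have h3 := (hP (X.proj (f q))).hol f q hf (hU.mem _)
      refine h3.congr_of_eventuallyEq ?_
      filter_upwards [hf.eventually, hf.eventually_mem (hU.isOpen _) (hU.mem (X.proj (f q)))]
        with z hz hzU
      exact key _ _ f z hz (hU.mem _) hzU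
  · intro x f q hf hq
    exact key x _ f q hf hq (hU.mem _)

theorem Zig.mem_F2c {c : X.Pt → X.Pt → X.Pt → X.Pt → ℂ} {ω : (C2 → X.Amb) → C2 → ℂ}
    (h : X.Zig c ω) : c ∈ X.F2c := by
  obtain ⟨U, hU, h, θ, h1, h5, h6, h2, _⟩ := h
  exact ⟨U, hU, h, θ, h1, h5, h6, h2⟩

/-- A 2-form which is zero on all local maps of one covering pair is a 2-form: linear
combinations. -/
theorem IsPluri.add {m : ℕ} {U : Set X.Pt} {ω ω' : (C2 → X.Amb) → C2 → ℂ}
    (h : X.IsPluri m U ω) (h' : X.IsPluri m U ω') : X.IsPluri m U (ω + ω') where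
  germ f g q h1 h2 h3 := by
    simp only [Pi.add_apply, h.germ f g q h1 h2 h3, h'.germ f g q h1 h2 h3]
  scale f l q h1 h2 h3 h4 := by
    simp only [Pi.add_apply, h.scale f l q h1 h2 h3 h4, h'.scale f l q h1 h2 h3 h4]
  pull f g q h1 h2 h3 := by
    simp only [Pi.add_apply, h.pull f g q h1 h2 h3, h'.pull f g q h1 h2 h3, add_mul]
  hol f q h1 h2 := (h.hol f q h1 h2).add (h'.hol f q h1 h2)

theorem IsPluri.smul {m : ℕ} {U : Set X.Pt} {ω : (C2 → X.Amb) → C2 → ℂ}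
    (h : X.IsPluri m U ω) (r : ℂ) : X.IsPluri m U (r • ω) where
  germ f g q h1 h2 h3 := by
    simp only [Pi.smul_apply, h.germ f g q h1 h2 h3]
  scale f l q h1 h2 h3 h4 := by
    simp only [Pi.smul_apply, h.scale f l q h1 h2 h3 h4]
  pull f g q h1 h2 h3 := by
    simp only [Pi.smul_apply, h.pull f g q h1 h2 h3, smul_eq_mul, mul_assoc]
  hol f q h1 h2 := (h.hol f q h1 h2).const_smul r

theorem Zig.add {c c' : X.Pt → X.Pt → X.Pt → X.Pt → ℂ} {ω ω' : (C2 → X.Amb) → C2 → ℂ}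
    (h : X.Zig c ω) (h' : X.Zig c' ω') : X.Zig (c + c') (ω + ω') := by
  obtain ⟨U, hU, b, θ, h1, h5, h6, h2, hω⟩ := h
  obtain ⟨V, hV, b', θ', h3, h7, h8, h4, hω'⟩ := h'
  refine ⟨_, hU.inter hV, b + b', θ + θ', fun x y f q hf hp => ?_, fun x => ?_,
    fun x y f q hf hp => ?_, fun x y z p hp => ?_, fun x f q hf hp => ?_⟩
  · exact (h1 x y f q hf ⟨hp.1.1, hp.2.1⟩).add (h3 x y f q hf ⟨hp.1.2, hp.2.2⟩)
  · exact ((h5 x).mono Set.inter_subset_left).add ((h7 x).mono Set.inter_subset_right)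
  · have h9 := h6 x y f q hf ⟨hp.1.1, hp.2.1⟩
    have h10 := h8 x y f q hf ⟨hp.1.2, hp.2.2⟩
    simp only [Pi.add_apply]
    rw [fderiv_fun_add (h1 x y f q hf ⟨hp.1.1, hp.2.1⟩) (h3 x y f q hf ⟨hp.1.2, hp.2.2⟩), h9,
      h10]
    abel
  · have h5 := h2 x y z p ⟨⟨hp.1.1.1, hp.1.2.1⟩, hp.2.1⟩
    have h6 := h4 x y z p ⟨⟨hp.1.1.2, hp.1.2.2⟩, hp.2.2⟩
    simp only [Pi.add_apply, h5, h6]
    abel
  · have e := curl_add ((h5 x).mono (V := U x ∩ V x) Set.inter_subset_left)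
      ((h7 x).mono (V := U x ∩ V x) Set.inter_subset_right) hf hp
    show X.curl (θ x + θ' x) f q = ω f q + ω' f q
    rw [e, hω x f q hf hp.1, hω' x f q hf hp.2]

theorem Zig.smul {c : X.Pt → X.Pt → X.Pt → X.Pt → ℂ} {ω : (C2 → X.Amb) → C2 → ℂ}
    (h : X.Zig c ω) (r : ℂ) : X.Zig (r • c) (r • ω) := by
  obtain ⟨U, hU, b, θ, h1, h5, h6, h2, hω⟩ := h
  refine ⟨U, hU, r • b, r • θ, fun x y f q hf hp => ?_, fun x => (h5 x).smul r,
    fun x y f q hf hp => ?_, fun x y z p hp => ?_, fun x f q hf hp => ?_⟩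
  · exact (h1 x y f q hf hp).const_mul r
  · simp only [Pi.smul_apply]
    rw [fderiv_fun_const_smul (h1 x y f q hf hp), h6 x y f q hf hp, smul_sub]
  · have h5 := h2 x y z p hp
    simp only [Pi.smul_apply, h5, smul_add, smul_sub]
  · have e := curl_smul (h5 x) r hf hp
    show X.curl (r • θ x) f q = r * ω f q
    rw [e, hω x f q hf hp]

/-- Only the values on local maps matter. -/
theorem Zig.congr {c : X.Pt → X.Pt → X.Pt → X.Pt → ℂ} {ω ω' : (C2 → X.Amb) → C2 → ℂ}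
    (h : X.Zig c ω) (h' : ∀ f q, X.PlotAt f q → ω f q = ω' f q) : X.Zig c ω' := by
  obtain ⟨U, hU, b, θ, h1, h5, h6, h2, hω⟩ := h
  exact ⟨U, hU, b, θ, h1, h5, h6, h2, fun x f q hf hp => (hω x f q hf hp).trans (h' f q hf)⟩

end Surf

end Pool.Agent.K3Pieces
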