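import Pool.Agent.Lib.MP_3004b3_ag.E1
import Pool.Agent.Lib.MP_3004b3_ag.E3

/-!
# JOB G3: a cochain represented by the zero 2-form is a coboundary

Let `U`, `h`, `θ` be the data of `Zig`. By `IsForm1.exists_primitive` choose for each `x` an open
`V x ∋ x`, `V x ⊆ U x`, and `g x : X.Pt → ℂ` holomorphic on `V x` with `dfun (g x) = θ x` on local
maps into `V x`. Put `b x y p = h x y p - (g y p - g x p)` on the covering `V`. On `V x ∩ V y` it is
holomorphic with zero differential (`dfun (h x y) = θ y - θ x`), so locally constant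
(`lc_of_dfun_zero`). And `b y z - b x z + b x y = h y z - h x z + h x y = c x y z`.
-/

set_option autoImplicit false

namespace Pool.Agent.K3Pieces

open scoped Topology

namespace Surf

variable {X : Surf}

theorem Zig.mem_B2 {c : X.Pt → X.Pt → X.Pt → X.Pt → ℂ} {ω : (C2 → X.Amb) → C2 → ℂ}
    (h : X.Zig c ω) (h0 : ∀ f q, X.PlotAt f q → ω f q = 0) : c ∈ B2 X.Pt ℂ ℂ := by
  obtain ⟨U, hU, hh, θ, h1, h2, h3, h4, h5⟩ := h
  have hp : ∀ x : X.Pt, ∃ W : Set X.Pt, IsOpen W ∧ x ∈ W ∧ W ⊆ U x ∧ ∃ g : X.Pt → ℂ, X.HolOn g W ∧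
      ∀ f q, X.PlotAt f q → X.proj (f q) ∈ W → X.dfun g f q = θ x f q := fun x =>
    (h2 x).exists_primitive (hU.isOpen x) (fun f q hf hq => (h5 x f q hf hq).trans (h0 f q hf))
      (hU.mem x)
  choose V hVo hVx hVU g hg hgd using hp
  refine ⟨V, ⟨hVo, hVx⟩, fun x y p => hh x y p - (g y p - g x p), fun x y => ?_,
    fun x y z p hp => ?_⟩
  · have hd1 : ∀ f q, X.PlotAt f q → X.proj (f q) ∈ V x ∩ V y →
        DifferentiableAt ℂ (fun z => hh x y (X.proj (f z))) q := fun f q hf hq =>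
      h1 x y f q hf ⟨hVU x hq.1, hVU y hq.2⟩
    refine lc_of_dfun_zero (fun f q hf hq => ?_) ((hVo x).inter (hVo y)) (fun f q hf hq => ?_)
    · exact (hd1 f q hf hq).sub ((hg y f q hf hq.2).sub (hg x f q hf hq.1))
    · have e1 := h3 x y f q hf ⟨hVU x hq.1, hVU y hq.2⟩
      have e2 := hgd y f q hf hq.2
      have e3 := hgd x f q hf hq.1
      unfold dfun at e2 e3 ⊢
      have d1 := hd1 f q hf hq
      have d2 := hg y f q hf hq.2
      have d3 := hg x f q hf hq.1
      have e4 : fderiv ℂ (fun z => g y (X.proj (f z)) - g x (X.proj (f z))) q =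
          fderiv ℂ (fun z => g y (X.proj (f z))) q - fderiv ℂ (fun z => g x (X.proj (f z))) q :=
        fderiv_fun_sub d2 d3
      have e5 : fderiv ℂ (fun z => hh x y (X.proj (f z)) -
          (g y (X.proj (f z)) - g x (X.proj (f z)))) q =
          fderiv ℂ (fun z => hh x y (X.proj (f z))) q -
            fderiv ℂ (fun z => g y (X.proj (f z)) - g x (X.proj (f z))) q :=
        fderiv_fun_sub d1 (d2.sub d3)
      show fderiv ℂ (fun z => hh x y (X.proj (f z)) -
          (g y (X.proj (f z)) - g x (X.proj (f z)))) q = 0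
      rw [e5, e4, e1, e2, e3, sub_self]
  · have e1 := h4 x y z p ⟨⟨hVU x hp.1.1, hVU y hp.1.2⟩, hVU z hp.2⟩
    rw [e1]
    ring

end Surf

end Pool.Agent.K3Pieces
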