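import Pool.Agent.Lib.MP_3004b3_ag.G4a
import Pool.Agent.Lib.MP_3004b3_ag.B1
import Pool.Agent.Lib.MP_3004b3_ag.B2
import Pool.Agent.Lib.MP_3004b3_ag.E1
import Pool.Agent.Lib.MP_3004b3_ag.E3
import Pool.Agent.Lib.MP_3004b3_ag.E4

/-!
# JOB G4: every 2-form represents a Čech cocycle

1. `IsPluri.exists_primitive`: for every `x` an open `W x ∋ x` and a 1-form `θ x` on `W x` with
   `curl (θ x) = ω` on local maps into `W x`. For `x ∈ W i ∩ W j` the 1-form `θ j - θ i` on the open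
   set `W i ∩ W j` has `curl = 0`, so by `IsForm1.exists_primitive` there is an open set
   `N i j x ∋ x` contained in `W i ∩ W j` and `g i j x` holomorphic on it with
   `dfun (g i j x) = θ j - θ i`. (Choose `N = univ`, `g = 0` for the other triples.)
2. `exists_good_refinement` gives `r` and `V`. Put `Θ x = θ (r x)` (a 1-form on `V x ⊆ W (r x)`) and
   `h x y = g (r x) (r y) x`. On `V x ∩ V y`: if it is empty there is nothing to check; otherwise
   `x ∈ W (r y)` and `x ∈ V x ⊆ W (r x)`, so `V x ⊆ N (r x) (r y) x`, and `h x y` is holomorphic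
   there with `dfun (h x y) = Θ y - Θ x`.
3. `c x y z p = h y z p - h x z p + h x y p`. On `V x ∩ V y ∩ V z` it is holomorphic with zero
   differential, hence locally constant (`lc_of_dfun_zero`, the intersection is open), and the
   cocycle identity is algebra. So `c ∈ Z2`, and `Zig c ω` by construction.
-/

set_option autoImplicit false

namespace Pool.Agent.K3Pieces

open scoped Topology

namespace Surf

variable {X : Surf}

theorem g4_curl_sub {U V : Set X.Pt} {α β : (C2 → X.Amb) → C2 → (C2 →L[ℂ] ℂ)}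
    (hα : X.IsForm1 U α) (hβ : X.IsForm1 V β) {f : C2 → X.Amb} {q : C2} (hf : X.PlotAt f q)
    (hU : X.proj (f q) ∈ U) (hV : X.proj (f q) ∈ V) :
    X.curl (β + (-1 : ℂ) • α) f q = X.curl β f q - X.curl α f q := by
  have h1 := hα.hol f q hf hU
  have h2 := hβ.hol f q hf hV
  have h3 : fderiv ℂ ((β + (-1 : ℂ) • α) f) q = fderiv ℂ (β f) q + (-1 : ℂ) • fderiv ℂ (α f) q := by
    have h4 : (β + (-1 : ℂ) • α) f = β f + (-1 : ℂ) • α f := rfl
    rw [h4, fderiv_add h2 (h1.const_smul _), fderiv_const_smul h1]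
  unfold curl
  rw [h3]
  simp only [add_apply, smul_apply, smul_eq_mul]
  ring

theorem exists_cocycle {ω : (C2 → X.Amb) → C2 → ℂ} (hω : X.IsPluri 1 Set.univ ω) :
    ∃ c ∈ Z2 X.Pt ℂ ℂ, X.Zig c ω := by
  classical
  have key1 : ∀ x : X.Pt, ∃ W : Set X.Pt, IsOpen W ∧ x ∈ W ∧ ∃ θ : (C2 → X.Amb) → C2 → (C2 →L[ℂ] ℂ),
      X.IsForm1 W θ ∧ ∀ f q, X.PlotAt f q → X.proj (f q) ∈ W → X.curl θ f q = ω f q := by
    intro x
    obtain ⟨W, h1, h2, -, θ, h3, h4⟩ := hω.exists_primitive isOpen_univ (Set.mem_univ x)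
    exact ⟨W, h1, h2, θ, h3, h4⟩
  choose W hWo hWm θ hθ hcurl using key1
  have key2 : ∀ i j x : X.Pt, ∃ (N : Set X.Pt) (g : X.Pt → ℂ), x ∈ W i → x ∈ W j →
      IsOpen N ∧ x ∈ N ∧ X.HolOn g N ∧
        ∀ f q, X.PlotAt f q → X.proj (f q) ∈ N → X.dfun g f q = θ j f q - θ i f q := by
    intro i j x
    by_cases hx : x ∈ W i ∧ x ∈ W j
    · have hform : X.IsForm1 (W i ∩ W j) (θ j + (-1 : ℂ) • θ i) :=
        ((hθ j).mono Set.inter_subset_right).add (((hθ i).mono Set.inter_subset_left).smul (-1))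
      obtain ⟨N, h1, h2, -, g, h3, h4⟩ := hform.exists_primitive ((hWo i).inter (hWo j))
        (fun f q hf hq => by
          rw [g4_curl_sub (hθ i) (hθ j) hf hq.1 hq.2, hcurl j f q hf hq.2, hcurl i f q hf hq.1,
            sub_self]) hx
      refine ⟨N, g, fun _ _ => ⟨h1, h2, h3, fun f q hf hq => ?_⟩⟩
      rw [h4 f q hf hq]
      refine ContinuousLinearMap.ext fun v => ?_
      change θ j f q v + (-1 : ℂ) * θ i f q v = θ j f q v - θ i f q v
      ring
    · exact ⟨Set.univ, 0, fun h1 h2 => absurd ⟨h1, h2⟩ hx⟩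
  choose N g hN using key2
  obtain ⟨r, V, hV, hVW, hVne, hVN⟩ := exists_good_refinement (Y := X.Pt) (W := W) ⟨hWo, hWm⟩ N
    (fun i j x hi hj => ⟨(hN i j x hi hj).1, (hN i j x hi hj).2.1⟩)
  have hself : ∀ x, x ∈ W (r x) := fun x => hVW x (hV.mem x)
  have hmain : ∀ x y, ∀ p ∈ V x ∩ V y, p ∈ N (r x) (r y) x ∧ X.HolOn (g (r x) (r y) x) (N (r x) (r y) x) ∧
      ∀ f q, X.PlotAt f q → X.proj (f q) ∈ N (r x) (r y) x →
        X.dfun (g (r x) (r y) x) f q = θ (r y) f q - θ (r x) f q := by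
    intro x y p hp
    have h1 : x ∈ W (r y) := hVne x y ⟨p, hp⟩
    have h2 := hVN x x y (hself x) h1 hp.1
    have h3 := hN (r x) (r y) x (hself x) h1
    exact ⟨h2, h3.2.2.1, h3.2.2.2⟩
  set h : X.Pt → X.Pt → X.Pt → ℂ := fun x y => g (r x) (r y) x with hh
  have hhol : ∀ x y, X.HolOn (h x y) (V x ∩ V y) := by
    intro x y f q hf hq
    obtain ⟨h1, h2, -⟩ := hmain x y _ hq
    exact h2 f q hf h1
  have hd : ∀ x y f q, X.PlotAt f q → X.proj (f q) ∈ V x ∩ V y →
      fderiv ℂ (fun z => h x y (X.proj (f z))) q = θ (r y) f q - θ (r x) f q := by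
    intro x y f q hf hq
    obtain ⟨h1, -, h3⟩ := hmain x y _ hq
    exact h3 f q hf h1
  set c : X.Pt → X.Pt → X.Pt → X.Pt → ℂ := fun x y z p => h y z p - h x z p + h x y p with hc
  have hcz : c ∈ Z2 X.Pt ℂ ℂ := by
    refine ⟨V, hV, fun x y z => ?_, fun x y z t p hp => ?_⟩
    · have ho : IsOpen (V x ∩ V y ∩ V z) := ((hV.isOpen x).inter (hV.isOpen y)).inter (hV.isOpen z)
      have hyz : ∀ {p}, p ∈ V x ∩ V y ∩ V z → p ∈ V y ∩ V z := fun hp => ⟨hp.1.2, hp.2⟩
      have hxz : ∀ {p}, p ∈ V x ∩ V y ∩ V z → p ∈ V x ∩ V z := fun hp => ⟨hp.1.1, hp.2⟩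
      have hxy : ∀ {p}, p ∈ V x ∩ V y ∩ V z → p ∈ V x ∩ V y := fun hp => hp.1
      have hhc : X.HolOn (c x y z) (V x ∩ V y ∩ V z) := by
        intro f q hf hq
        exact ((hhol y z f q hf (hyz hq)).sub (hhol x z f q hf (hxz hq))).add
          (hhol x y f q hf (hxy hq))
      refine lc_of_dfun_zero hhc ho fun f q hf hq => ?_
      have e1 := (((hhol y z f q hf (hyz hq)).hasFDerivAt.sub (hhol x z f q hf (hxz hq)).hasFDerivAt).add
        (hhol x y f q hf (hxy hq)).hasFDerivAt).fderiv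
      rw [hd y z f q hf (hyz hq), hd x z f q hf (hxz hq), hd x y f q hf (hxy hq)] at e1
      unfold dfun
      refine Eq.trans e1 ?_
      abel
    · simp only [hc]
      ring
  refine ⟨c, hcz, V, hV, h, fun x => θ (r x), hhol, fun x => (hθ (r x)).mono (hVW x), hd,
    fun x y z p _ => rfl, fun x f q hf hq => hcurl (r x) f q hf (hVW x hq)⟩

end Surf

end Pool.Agent.K3Pieces
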