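import Pool.Agent.Lib.MP_3004b3_ag.Defs

/-!
# JOB G4a: a good refinement of a covering of a compact Hausdorff space (pure topology)

For each `i` choose a closed neighbourhood `K i` of `i` with `K i ⊆ W i` (regular space:
`exists_mem_nhds_isClosed_subset`). By compactness there is a finite set `I` such that the interiors
of the `K i`, `i ∈ I`, cover `Y` (`CompactSpace.elim_nhds_subcover`). Choose `r x ∈ I` with
`x ∈ interior (K (r x))`. Put
`V x = interior (K (r x)) ∩ ⋂_{j ∈ I, x ∉ K j} (K j)ᶜ ∩ ⋂_{i, j ∈ I, x ∈ W i, x ∈ W j} N i j x`,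
a finite intersection of open sets containing `x`. If `V x ∩ V y` contains a point `p`, then
`p ∈ V y ⊆ K (r y)`, so `x ∈ K (r y)` (otherwise `V x ⊆ (K (r y))ᶜ`), hence `x ∈ W (r y)`.
-/

set_option autoImplicit false

namespace Pool.Agent.K3Pieces

open scoped Topology

theorem exists_good_refinement {Y : Type} [TopologicalSpace Y] [CompactSpace Y] [T2Space Y]
    {W : Y → Set Y} (hW : IsCover W) (N : Y → Y → Y → Set Y)
    (hN : ∀ i j x, x ∈ W i → x ∈ W j → IsOpen (N i j x) ∧ x ∈ N i j x) :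
    ∃ (r : Y → Y) (V : Y → Set Y), IsCover V ∧ (∀ x, V x ⊆ W (r x)) ∧
      (∀ x y, (V x ∩ V y).Nonempty → x ∈ W (r y)) ∧
      ∀ x y z, x ∈ W (r y) → x ∈ W (r z) → V x ⊆ N (r y) (r z) x := by
  choose K hK1 hK2 hK3 using fun i : Y =>
    exists_mem_nhds_isClosed_subset ((hW.isOpen i).mem_nhds (hW.mem i))
  obtain ⟨I, hI⟩ := CompactSpace.elim_nhds_subcover (fun i => interior (K i))
    (fun i => interior_mem_nhds.2 (hK1 i))
  have hex : ∀ x : Y, ∃ i ∈ I, x ∈ interior (K i) := by
    intro x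
    have h1 : x ∈ ⋃ i ∈ I, interior (K i) := by
      rw [hI]
      trivial
    obtain ⟨i, h2⟩ := Set.mem_iUnion.1 h1
    obtain ⟨h3, h4⟩ := Set.mem_iUnion.1 h2
    exact ⟨i, h3, h4⟩
  choose r hrI hr using hex
  refine ⟨r, fun x => interior (K (r x)) ∩ (⋂ j ∈ I, {p | x ∉ K j → p ∉ K j}) ∩
    ⋂ i ∈ I, ⋂ j ∈ I, {p | x ∈ W i → x ∈ W j → p ∈ N i j x}, ⟨fun x => ?_, fun x => ?_⟩, fun x => ?_,
    fun x y => ?_, fun x y z => ?_⟩
  · refine (isOpen_interior.inter ?_).inter ?_
    · refine isOpen_biInter_finset fun j _ => ?_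
      by_cases h : x ∈ K j
      · have h1 : {p | x ∉ K j → p ∉ K j} = Set.univ := by
          ext p
          simp [h]
        rw [h1]
        exact isOpen_univ
      · have h1 : {p | x ∉ K j → p ∉ K j} = (K j)ᶜ := by
          ext p
          simp [h]
        rw [h1]
        exact (hK2 j).isOpen_compl
    · refine isOpen_biInter_finset fun i _ => isOpen_biInter_finset fun j _ => ?_
      by_cases h : x ∈ W i ∧ x ∈ W j
      · have h1 : {p | x ∈ W i → x ∈ W j → p ∈ N i j x} = N i j x := by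
          ext p
          simp [h.1, h.2]
        rw [h1]
        exact (hN i j x h.1 h.2).1
      · have h1 : {p | x ∈ W i → x ∈ W j → p ∈ N i j x} = Set.univ := by
          ext p
          simp only [Set.mem_setOf_eq, Set.mem_univ, iff_true]
          intro h2 h3
          exact absurd ⟨h2, h3⟩ h
        rw [h1]
        exact isOpen_univ
  · refine ⟨⟨hr x, ?_⟩, ?_⟩
    · simp only [Set.mem_iInter, Set.mem_setOf_eq]
      exact fun j _ h => h
    · simp only [Set.mem_iInter, Set.mem_setOf_eq]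
      exact fun i _ j _ hi hj => (hN i j x hi hj).2
  · exact fun p hp => hK3 (r x) (interior_subset hp.1.1)
  · rintro ⟨p, hpx, hpy⟩
    have h1 := hpx.1.2
    simp only [Set.mem_iInter, Set.mem_setOf_eq] at h1
    have h2 : p ∈ K (r y) := interior_subset hpy.1.1
    refine hK3 (r y) ?_
    by_contra h3
    exact h1 (r y) (hrI y) h3 h2
  · intro hy hz p hp
    have h1 := hp.2
    simp only [Set.mem_iInter, Set.mem_setOf_eq] at h1
    exact h1 (r y) (hrI y) (r z) (hrI z) hy hz

end Pool.Agent.K3Pieces
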