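import Pool.Agent.Lib.MP_3004b3_ag.Defs

/-!
# JOB H1: functoriality of Čech cohomology, change of coefficients (formal)

* `pullC_mem_Z2`, `pullC_mem_B2`: the covering of `Y'` is `fun y => π ⁻¹' U (π y)`.
* `coef`: apply a `ℚ`-linear map `p : ℂ → ℚ` to the values of the cocycles. Construct it as
  `toC` in `Defs`: a `ℚ`-linear map `↥(Z2 Y ℂ ℂ) → ↥(Z2 Y ℚ ℚ)` followed by `mkQ`, which kills the
  coboundaries; `H2 Y ℂ ℂ` is a quotient by a `ℂ`-submodule, so descend with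
  `Submodule.liftQ` over `ℚ` applied to `Submodule.restrictScalars ℚ` and
  `Submodule.Quotient.restrictScalarsEquiv`, or construct the map with `Quotient.lift` /
  `QuotientAddGroup.lift` and prove linearity by hand.
* The remaining statements: by `Submodule.Quotient.induction_on` (or `obtain ⟨c, rfl⟩ :=
  Submodule.Quotient.mk_surjective _ ξ`) and the formulas for representatives.
-/

set_option autoImplicit false

namespace Pool.Agent.K3Pieces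

open scoped Topology

variable {Y Y' Y'' : Type} [TopologicalSpace Y] [TopologicalSpace Y'] [TopologicalSpace Y'']

/-- Pull back of a cochain. -/
def pullC {A : Type} (π : Y' → Y) (c : Y → Y → Y → Y → A) : Y' → Y' → Y' → Y' → A :=
  fun x y z p => c (π x) (π y) (π z) (π p)

section
variable (R A : Type) [Ring R] [AddCommGroup A] [Module R A]

theorem pullC_mem_Z2 {π : Y' → Y} (hπ : Continuous π) {c : Y → Y → Y → Y → A}
    (hc : c ∈ Z2 Y R A) : pullC π c ∈ Z2 Y' R A := by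
  obtain ⟨U, hU, h1, h2⟩ := hc
  refine ⟨fun y => π ⁻¹' U (π y), ⟨fun y => (hU.isOpen (π y)).preimage hπ, fun y => hU.mem (π y)⟩,
    fun x y z p hp => ?_, fun x y z t p hp => ?_⟩
  · exact (hπ.tendsto p).eventually (h1 (π x) (π y) (π z) (π p) hp)
  · exact h2 (π x) (π y) (π z) (π t) (π p) hp

theorem pullC_mem_B2 {π : Y' → Y} (hπ : Continuous π) {c : Y → Y → Y → Y → A}
    (hc : c ∈ B2 Y R A) : pullC π c ∈ B2 Y' R A := by
  obtain ⟨U, hU, b, h1, h2⟩ := hc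
  refine ⟨fun y => π ⁻¹' U (π y), ⟨fun y => (hU.isOpen (π y)).preimage hπ, fun y => hU.mem (π y)⟩,
    fun x y p => b (π x) (π y) (π p), fun x y p hp => ?_, fun x y z p hp => ?_⟩
  · exact (hπ.tendsto p).eventually (h1 (π x) (π y) (π p) hp)
  · exact h2 (π x) (π y) (π z) (π p) hp

/-- Pull back in cohomology. -/
def pull (π : C(Y', Y)) : H2 Y R A →ₗ[R] H2 Y' R A :=
  Submodule.mapQ _ _
    { toFun := fun c => ⟨pullC π c.1, pullC_mem_Z2 R A π.continuous c.2⟩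
      map_add' := fun _ _ => rfl
      map_smul' := fun _ _ => rfl } (fun _ hc => pullC_mem_B2 R A π.continuous hc)

theorem pull_mk (π : C(Y', Y)) (c : Z2 Y R A) :
    pull R A π (Submodule.Quotient.mk c) =
      Submodule.Quotient.mk ⟨pullC π c.1, pullC_mem_Z2 R A π.continuous c.2⟩ := rfl

theorem pull_pull (π : C(Y', Y)) (ρ : C(Y'', Y')) (ξ : H2 Y R A) :
    pull R A ρ (pull R A π ξ) = pull R A (π.comp ρ) ξ := by
  obtain ⟨c, rfl⟩ := Submodule.Quotient.mk_surjective _ ξ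
  rfl

end

theorem toC_mk (c : Z2 Y ℚ ℚ) : toC Y (Submodule.Quotient.mk c) =
    Submodule.Quotient.mk ⟨fun x y z p => (c.1 x y z p : ℂ), toC_mem Y c.2⟩ := rfl

theorem toC_pull (π : C(Y', Y)) (v : H2 Y ℚ ℚ) :
    toC Y' (pull ℚ ℚ π v) = pull ℂ ℂ π (toC Y v) := by
  obtain ⟨c, rfl⟩ := Submodule.Quotient.mk_surjective _ v
  rfl

theorem coef_mem_Z2 (p : ℂ →ₗ[ℚ] ℚ) {c : Y → Y → Y → Y → ℂ} (hc : c ∈ Z2 Y ℂ ℂ) :
    (fun x y z t => p (c x y z t)) ∈ Z2 Y ℚ ℚ := by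
  obtain ⟨U, hU, h1, h2⟩ := hc
  refine ⟨U, hU, fun x y z q hq => ?_, fun x y z t q hq => ?_⟩
  · filter_upwards [h1 x y z q hq] with r h5
    simp only [h5]
  · have := h2 x y z t q hq
    rw [← map_sub, ← map_add, ← map_sub, this, map_zero]

theorem coef_mem_B2 (p : ℂ →ₗ[ℚ] ℚ) {c : Y → Y → Y → Y → ℂ} (hc : c ∈ B2 Y ℂ ℂ) :
    (fun x y z t => p (c x y z t)) ∈ B2 Y ℚ ℚ := by
  obtain ⟨U, hU, b, h1, h2⟩ := hc
  refine ⟨U, hU, fun x y t => p (b x y t), fun x y q hq => ?_, fun x y z q hq => ?_⟩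
  · filter_upwards [h1 x y q hq] with r h5
    simp only [h5]
  · have := h2 x y z q hq
    simp only [this, map_add, map_sub]

/-- Apply a `ℚ`-linear map `ℂ → ℚ` to the cocycles. -/
noncomputable def coefZ (p : ℂ →ₗ[ℚ] ℚ) : ↥(Z2 Y ℂ ℂ) →ₗ[ℚ] ↥(Z2 Y ℚ ℚ) where
  toFun c := ⟨fun x y z t => p (c.1 x y z t), coef_mem_Z2 p c.2⟩
  map_add' c d := by ext; simp
  map_smul' r c := by ext; simp

/-- Apply a `ℚ`-linear map `ℂ → ℚ` to the coefficients. -/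
noncomputable def coef (p : ℂ →ₗ[ℚ] ℚ) : H2 Y ℂ ℂ →ₗ[ℚ] H2 Y ℚ ℚ :=
  LinearMap.comp
    (Submodule.liftQ (((B2 Y ℂ ℂ).comap (Z2 Y ℂ ℂ).subtype).restrictScalars ℚ)
      ((Submodule.mkQ ((B2 Y ℚ ℚ).comap (Z2 Y ℚ ℚ).subtype)).comp (coefZ p))
      (fun c hc => by
        rw [LinearMap.mem_ker]
        exact (Submodule.Quotient.mk_eq_zero _).2 (coef_mem_B2 p hc)))
    (Submodule.Quotient.restrictScalarsEquiv ℚ
      ((B2 Y ℂ ℂ).comap (Z2 Y ℂ ℂ).subtype)).symm.toLinearMap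

theorem coef_mk (p : ℂ →ₗ[ℚ] ℚ) (c : Z2 Y ℂ ℂ) : coef p (Submodule.Quotient.mk c : H2 Y ℂ ℂ) =
    Submodule.Quotient.mk ⟨fun x y z t => p (c.1 x y z t), coef_mem_Z2 p c.2⟩ := rfl

theorem coef_smul_toC (p : ℂ →ₗ[ℚ] ℚ) (a : ℂ) (v : H2 Y ℚ ℚ) :
    coef p (a • toC Y v) = p a • v := by
  obtain ⟨c, rfl⟩ := Submodule.Quotient.mk_surjective _ v
  have h1 : coef p (a • toC Y (Submodule.Quotient.mk c)) =
      Submodule.Quotient.mk ⟨fun x y z t => p (a * (c.1 x y z t : ℂ)),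
        coef_mem_Z2 p (Submodule.smul_mem _ a (toC_mem Y c.2))⟩ := rfl
  have h2 : p a • (Submodule.Quotient.mk c : H2 Y ℚ ℚ) = Submodule.Quotient.mk (p a • c) := rfl
  rw [h1, h2]
  congr 1
  ext x y z t
  have h3 : a * (c.1 x y z t : ℂ) = (c.1 x y z t) • a := by
    rw [Rat.smul_def, mul_comm]
  change p (a * (c.1 x y z t : ℂ)) = p a * c.1 x y z t
  rw [h3, map_smul, smul_eq_mul, mul_comm]

theorem coef_smul (p : ℂ →ₗ[ℚ] ℚ) (a : ℂ) (ξ : H2 Y ℂ ℂ) :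
    coef p (a • ξ) = coef (p ∘ₗ LinearMap.mulLeft ℚ a) ξ := by
  obtain ⟨c, rfl⟩ := Submodule.Quotient.mk_surjective _ ξ
  rfl

theorem coef_pull (p : ℂ →ₗ[ℚ] ℚ) (π : C(Y', Y)) (ξ : H2 Y ℂ ℂ) :
    coef p (pull ℂ ℂ π ξ) = pull ℚ ℚ π (coef p ξ) := by
  obtain ⟨c, rfl⟩ := Submodule.Quotient.mk_surjective _ ξ
  rfl

end Pool.Agent.K3Pieces
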