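import Pool.Agent.Lib.MP_3004b3_ag.Defs

/-!
# JOB H3a: change of the index map of a cocycle (the classical chain homotopy)

`c` is a cocycle for the covering `U` (conditions `h1`, `h2` as in `Z2`), `r : Y → Y` a map and `V` a
covering with `V x ⊆ U (r x)`. Then `c' x y z p = c (r x) (r y) (r z) p` is a cocycle for `V`, and
`c' - c` is a coboundary for the covering `fun x => V x ∩ U x`, with
`b x y p = c x (r x) (r y) p - c x y (r y) p`.
Check (suppress `p`), with `δb x y z = b y z - b x z + b x y`: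
`b y z = c y ry rz - c y z rz`, `b x z = c x rx rz - c x z rz`, `b x y = c x rx ry - c x y ry`. The
cocycle identities
`(x, rx, ry, rz)`: `c rx ry rz - c x ry rz + c x rx rz - c x rx ry = 0`,
`(x, y, ry, rz)`: `c y ry rz - c x ry rz + c x y rz - c x y ry = 0`,
`(x, y, z, rz)`: `c y z rz - c x z rz + c x y rz - c x y z = 0`
give `b y z - b x z + b x y = (c y ry rz - c y z rz) - (c x rx rz - c x z rz) + (c x rx ry - c x y ry)`
`= c rx ry rz - c x y z` (add the three identities with signs `+1` for the first and `-1`, `+1`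
arranged: check with `abel`-type linear arithmetic in the group `A`).
-/

set_option autoImplicit false

namespace Pool.Agent.K3Pieces

open scoped Topology

variable {Y A : Type} [TopologicalSpace Y] [AddCommGroup A]

/-- `c` is a cocycle on the covering `U`. -/
def IsCocycleOn (U : Y → Set Y) (c : Y → Y → Y → Y → A) : Prop :=
  (∀ x y z, LC (c x y z) (U x ∩ U y ∩ U z)) ∧
    ∀ x y z t, ∀ p ∈ U x ∩ U y ∩ U z ∩ U t,
      c y z t p - c x z t p + c x y t p - c x y z p = 0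

theorem isCocycleOn_reindex {U V : Y → Set Y} {c : Y → Y → Y → Y → A}
    (hc : IsCocycleOn U c) (r : Y → Y) (hr : ∀ x, V x ⊆ U (r x)) :
    IsCocycleOn V (fun x y z p => c (r x) (r y) (r z) p) := by
  refine ⟨fun x y z p hp => hc.1 _ _ _ p ⟨⟨hr x hp.1.1, hr y hp.1.2⟩, hr z hp.2⟩,
    fun x y z t p hp => hc.2 _ _ _ _ p ⟨⟨⟨hr x hp.1.1.1, hr y hp.1.1.2⟩, hr z hp.1.2⟩, hr t hp.2⟩⟩

theorem reindex_homotopy {U V : Y → Set Y} {c : Y → Y → Y → Y → A}
    (hc : IsCocycleOn U c) (r : Y → Y) (hr : ∀ x, V x ⊆ U (r x)) :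
    (∀ x y, LC (fun p => c x (r x) (r y) p - c x y (r y) p) ((V x ∩ U x) ∩ (V y ∩ U y))) ∧
      IsDelta (fun x => V x ∩ U x) (fun x y z p => c (r x) (r y) (r z) p - c x y z p)
        (fun x y p => c x (r x) (r y) p - c x y (r y) p) := by
  refine ⟨fun x y p hp => ?_, fun x y z p hp => ?_⟩
  · filter_upwards [hc.1 x (r x) (r y) p ⟨⟨hp.1.2, hr x hp.1.1⟩, hr y hp.2.1⟩,
      hc.1 x y (r y) p ⟨⟨hp.1.2, hp.2.2⟩, hr y hp.2.1⟩] with q h1 h2
    rw [h1, h2]
  · obtain ⟨⟨⟨hx1, hx2⟩, ⟨hy1, hy2⟩⟩, ⟨hz1, hz2⟩⟩ := hp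
    have i1 := hc.2 x (r x) (r y) (r z) p ⟨⟨⟨hx2, hr x hx1⟩, hr y hy1⟩, hr z hz1⟩
    have i2 := hc.2 x y (r y) (r z) p ⟨⟨⟨hx2, hy2⟩, hr y hy1⟩, hr z hz1⟩
    have i3 := hc.2 x y z (r z) p ⟨⟨⟨hx2, hy2⟩, hz2⟩, hr z hz1⟩
    show c (r x) (r y) (r z) p - c x y z p = (c y (r y) (r z) p - c y z (r z) p) -
      (c x (r x) (r z) p - c x z (r z) p) + (c x (r x) (r y) p - c x y (r y) p)
    rw [← sub_eq_zero]
    have h : c (r x) (r y) (r z) p - c x y z p - ((c y (r y) (r z) p - c y z (r z) p) -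
      (c x (r x) (r z) p - c x z (r z) p) + (c x (r x) (r y) p - c x y (r y) p)) =
        (c (r x) (r y) (r z) p - c x (r y) (r z) p + c x (r x) (r z) p - c x (r x) (r y) p) -
        (c y (r y) (r z) p - c x (r y) (r z) p + c x y (r z) p - c x y (r y) p) +
        (c y z (r z) p - c x z (r z) p + c x y (r z) p - c x y z p) := by abel
    rw [h, i1, i2, i3]
    simp

end Pool.Agent.K3Pieces
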