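import Pool.Agent.Lib.MP_3004b3_ag.H1
import Pool.Agent.Lib.MP_3004b3_ag.H3a

/-!
# JOB H3: complex classes are finite combinations of rational classes

`Y` compact Hausdorff, `ξ` represented by a cocycle `c` on the covering `U`.

1. `exists_finite_values`: choose for each `x` an open `V' x ∋ x` with `closure (V' x) ⊆ U x` (regular
   space), a finite set `I` such that the `V' i`, `i ∈ I`, cover `Y`, and `r : Y → I` with
   `x ∈ V' (r x)`. Put `V x = V' (r x)` (so `V x ⊆ U (r x)`) and `c' x y z p = c (r x) (r y) (r z) p`.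
   For `i, j, k ∈ I` the function `c i j k` is locally constant on the neighbourhood
   `U i ∩ U j ∩ U k` of the compact set `closure (V' i) ∩ closure (V' j) ∩ closure (V' k)`, so it
   takes finitely many values on that set. So all the values `c' x y z p`,
   `p ∈ V x ∩ V y ∩ V z`, lie in a finite set.
2. Let `E` be the `ℚ`-span of the finite set of values, `e_1, …, e_n` a `ℚ`-basis of `E`, and
   `p_k : ℂ → ℚ` a `ℚ`-linear extension of the `k`-th coordinate function
   (`LinearMap.exists_extend`). So `a = ∑ p_k a * e_k` for all values `a`.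
3. `c - c'` is a coboundary (`reindex_homotopy`), so `ξ = [c']`, and
   `[c'] = ∑ e_k • toC (coef p_k [c'])`, as the two cocycles agree on the covering `V` (a cochain
   which vanishes on a covering is a coboundary with `b = 0`).
-/

set_option autoImplicit false

namespace Pool.Agent.K3Pieces

open scoped Topology

variable {Y : Type} [TopologicalSpace Y]

/-- A locally constant function takes finitely many values on a compact set. -/
theorem h3_finite {A : Type} {g : Y → A} {O S : Set Y} (hg : LC g O) (hS : IsCompact S) (hSO : S ⊆ O) :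
    (g '' S).Finite := by
  obtain ⟨t, -, ht⟩ := hS.elim_nhds_subcover (fun y => {z | g z = g y}) (fun y hy => hg y (hSO hy))
  refine (t.finite_toSet.image g).subset ?_
  rintro _ ⟨z, hz, rfl⟩
  obtain ⟨y, h1⟩ := Set.mem_iUnion.1 (ht hz)
  obtain ⟨h2, h3⟩ := Set.mem_iUnion.1 h1
  exact ⟨y, h2, h3.symm⟩

theorem exists_finite_values {A : Type} [AddCommGroup A] [CompactSpace Y] [T2Space Y]
    {U : Y → Set Y} (hU : IsCover U) {c : Y → Y → Y → Y → A}
    (hc : IsCocycleOn U c) :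
    ∃ (r : Y → Y) (V : Y → Set Y), IsCover V ∧ (∀ x, V x ⊆ U (r x)) ∧
      {a : A | ∃ x y z, ∃ p ∈ V x ∩ V y ∩ V z, a = c (r x) (r y) (r z) p}.Finite := by
  choose K hK1 hK2 hK3 using fun i : Y =>
    exists_mem_nhds_isClosed_subset ((hU.isOpen i).mem_nhds (hU.mem i))
  obtain ⟨I, hI⟩ := CompactSpace.elim_nhds_subcover (fun i => interior (K i))
    (fun i => interior_mem_nhds.2 (hK1 i))
  have hex : ∀ x : Y, ∃ i ∈ I, x ∈ interior (K i) := by
    intro x
    have h1 : x ∈ ⋃ i ∈ I, interior (K i) := by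
      rw [hI]
      trivial
    obtain ⟨i, h2⟩ := Set.mem_iUnion.1 h1
    obtain ⟨h3, h4⟩ := Set.mem_iUnion.1 h2
    exact ⟨i, h3, h4⟩
  choose r hrI hr using hex
  refine ⟨r, fun x => interior (K (r x)), ⟨fun x => isOpen_interior, hr⟩,
    fun x => interior_subset.trans (hK3 (r x)), ?_⟩
  have hfin : (⋃ i ∈ I, ⋃ j ∈ I, ⋃ k ∈ I, (c i j k) '' (K i ∩ K j ∩ K k)).Finite := by
    refine I.finite_toSet.biUnion fun i _ => I.finite_toSet.biUnion fun j _ =>
      I.finite_toSet.biUnion fun k _ => h3_finite (hc.1 i j k) ?_ ?_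
    · exact (((hK2 i).inter (hK2 j)).inter (hK2 k)).isCompact
    · exact Set.inter_subset_inter (Set.inter_subset_inter (hK3 i) (hK3 j)) (hK3 k)
  refine hfin.subset ?_
  rintro a ⟨x, y, z, p, hp, rfl⟩
  simp only [Set.mem_iUnion]
  exact ⟨r x, hrI x, r y, hrI y, r z, hrI z, p,
    ⟨⟨interior_subset hp.1.1, interior_subset hp.1.2⟩, interior_subset hp.2⟩, rfl⟩

theorem exists_coef_expansion [CompactSpace Y] [T2Space Y] (ξ : H2 Y ℂ ℂ) :
    ∃ (n : ℕ) (e : Fin n → ℂ) (p : Fin n → (ℂ →ₗ[ℚ] ℚ)),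
      ξ = ∑ k, e k • toC Y (coef (p k) ξ) := by
  obtain ⟨c, rfl⟩ := Submodule.Quotient.mk_surjective _ ξ
  obtain ⟨U, hU, hc1, hc2⟩ := c.2
  have hc : IsCocycleOn U c.1 := ⟨hc1, hc2⟩
  obtain ⟨r, V, hV, hVU, hfin⟩ := exists_finite_values hU hc
  have hc' := isCocycleOn_reindex hc r hVU
  have hom := reindex_homotopy hc r hVU
  let c' : Z2 Y ℂ ℂ := ⟨fun x y z p => c.1 (r x) (r y) (r z) p, V, hV, hc'.1, hc'.2⟩
  have hcc' : (Submodule.Quotient.mk c : H2 Y ℂ ℂ) = Submodule.Quotient.mk c' := by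
    symm
    rw [Submodule.Quotient.eq]
    exact ⟨_, hV.inter hU, _, hom.1, hom.2⟩
  set F : Set ℂ := {a : ℂ | ∃ x y z, ∃ p ∈ V x ∩ V y ∩ V z, a = c.1 (r x) (r y) (r z) p} with hF
  haveI : FiniteDimensional ℚ (Submodule.span ℚ F) := FiniteDimensional.span_of_finite ℚ hfin
  let b := Module.finBasis ℚ (Submodule.span ℚ F)
  choose p hp using fun k => LinearMap.exists_extend (b.coord k)
  have hexp : ∀ a ∈ F, a = ∑ k, (b k : ℂ) * ((p k a : ℚ) : ℂ) := by
    intro a ha
    have h1 : a ∈ Submodule.span ℚ F := Submodule.subset_span ha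
    have h2 := b.sum_repr ⟨a, h1⟩
    have h3 : ∀ k, p k a = b.repr ⟨a, h1⟩ k := fun k => by
      have h4 := LinearMap.congr_fun (hp k) ⟨a, h1⟩
      simpa using h4
    have h5 := congrArg Subtype.val h2
    rw [Submodule.coe_sum] at h5
    refine h5.symm.trans (Finset.sum_congr rfl fun k _ => ?_)
    rw [h3 k, Submodule.coe_smul, Rat.smul_def, mul_comm]
  refine ⟨_, fun k => (b k : ℂ), p, ?_⟩
  rw [hcc']
  have h1 : ∀ k, toC Y (coef (p k) (Submodule.Quotient.mk c' : H2 Y ℂ ℂ)) =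
      Submodule.Quotient.mk ⟨fun x y z t => ((p k (c'.1 x y z t) : ℚ) : ℂ),
        toC_mem Y (coef_mem_Z2 (p k) c'.2)⟩ := fun k => rfl
  simp only [h1]
  rw [← sub_eq_zero]
  have h2 : (Submodule.Quotient.mk c' : H2 Y ℂ ℂ) - ∑ k, (b k : ℂ) •
      (Submodule.Quotient.mk ⟨fun x y z t => ((p k (c'.1 x y z t) : ℚ) : ℂ),
        toC_mem Y (coef_mem_Z2 (p k) c'.2)⟩ : H2 Y ℂ ℂ) =
      Submodule.mkQ _ (c' - ∑ k, (b k : ℂ) • ⟨fun x y z t => ((p k (c'.1 x y z t) : ℚ) : ℂ),
        toC_mem Y (coef_mem_Z2 (p k) c'.2)⟩) := by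
    rw [map_sub, map_sum]
    rfl
  rw [h2, Submodule.mkQ_apply, Submodule.Quotient.mk_eq_zero]
  refine ⟨V, hV, 0, fun x y t _ => by simp, fun x y z t ht => ?_⟩
  have h3 := hexp _ ⟨x, y, z, t, ht, rfl⟩
  simp only [Submodule.subtype_apply, Submodule.coe_sub, Submodule.coe_sum, Submodule.coe_smul,
    Pi.sub_apply, Finset.sum_apply, Pi.smul_apply, smul_eq_mul, Pi.zero_apply, sub_zero, add_zero]
  rw [sub_eq_zero]
  exact h3

end Pool.Agent.K3Pieces
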