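import Pool.Agent.Lib.MP_3004b3_ag.H1

/-!
# JOB H4: transfer for a double covering

`π : Y' → Y` is continuous, closed, surjective, `Y'` Hausdorff, `σ` an involution of `Y'` with
`π ∘ σ = π` and fibres of `π` equal to `{a, σ a}` (branch points allowed).

* `exists_transfer_cover`: let `s : Y → Y'` be a section (`Function.surjInv`). For `x : Y`, if
  `s x ≠ σ (s x)` choose disjoint open sets `O ∋ s x`, `O' ∋ σ (s x)` with `O ⊆ U (s x)`,
  `O' ⊆ U (σ (s x))`; put `k x y = s x` for `y ∈ O` and `σ (s x)` otherwise. If `s x = σ (s x)` take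
  `O = O' = U (s x)` and `k x y = s x` for all `y`. Let `W x` be the complement of the (closed) image
  under `π` of the complement of `O ∪ O'`: an open set containing `x`, and `π y ∈ W x` implies
  `y ∈ O ∪ O'`.
* `avg_lc`: Let `β y` be locally constant at both points `y0`, `σ y0` of the fibre of `p0`
  (`∀ᶠ y in 𝓝 y0, β y = β y0`, and the same at `σ y0`). Then
  `a p = half • (β (s p) + β (σ (s p)))` satisfies `∀ᶠ p in 𝓝 p0, a p = a p0`: the set of `y'` such
  that `β y' + β (σ y') = β y0 + β (σ y0)` is a neighbourhood of the fibre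
  `{y0, σ y0}`; its complement has closed image ... (`IsClosedMap` : the complement of the image of
  the complement of an open neighbourhood of the fibre is an open neighbourhood of `p0`).
* `pull_injective`: Let `pullC π c` be the coboundary of `b` on the covering `U` of `Y'` and `W`, `k` as
  above; put `a x x' p = half • (β (s p) + β (σ (s p)))` with `β y = b (k x y) (k x' y) y`. It is
  locally constant on `W x ∩ W x'` (near `y` with `π y ∈ W x ∩ W x'` the points `k x y'`, `k x' y'` are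
  constant, `y ∈ U (k x y) ∩ U (k x' y)`, and `b` is locally constant at `y`). And for
  `p ∈ W x ∩ W x' ∩ W x''`, `y = s p` or `σ (s p)`:
  `b (k x' y) (k x'' y) y - b (k x y) (k x'' y) y + b (k x y) (k x' y) y`
  `= c (π (k x y)) (π (k x' y)) (π (k x'' y)) (π y) = c x x' x'' p`, so the average is `c x x' x'' p`.
-/

set_option autoImplicit false

namespace Pool.Agent.K3Pieces

open scoped Topology

variable {Y Y' : Type} [TopologicalSpace Y] [TopologicalSpace Y']

/-- `π` is the quotient by the involution `σ`. -/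
structure IsDouble (π : C(Y', Y)) (σ : C(Y', Y')) : Prop where
  surj : Function.Surjective π
  closed : IsClosedMap π
  invol : ∀ y, σ (σ y) = y
  comm : ∀ y, π (σ y) = π y
  fibre : ∀ a b, π a = π b → b = a ∨ b = σ a

private theorem h4_tube {π : C(Y', Y)} {σ : C(Y', Y')} (h : IsDouble π σ) {T : Set Y'}
    (hT : IsOpen T) (x : Y) (hx : Function.surjInv h.surj x ∈ T)
    (hx' : σ (Function.surjInv h.surj x) ∈ T) :
    IsOpen (π '' Tᶜ)ᶜ ∧ x ∈ (π '' Tᶜ)ᶜ ∧ ∀ y, π y ∈ (π '' Tᶜ)ᶜ → y ∈ T := by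
  refine ⟨(h.closed _ hT.isClosed_compl).isOpen_compl, ?_, ?_⟩
  · rintro ⟨y, hy, hyx⟩
    have h1 : π (Function.surjInv h.surj x) = π y := by
      rw [Function.surjInv_eq h.surj, hyx]
    rcases h.fibre _ _ h1 with h2 | h2
    · exact hy (by rw [h2]; exact hx)
    · exact hy (by rw [h2]; exact hx')
  · intro y hy
    by_contra hyT
    exact hy ⟨y, hyT, rfl⟩

private theorem h4_one [T2Space Y'] {π : C(Y', Y)} {σ : C(Y', Y')} (h : IsDouble π σ)
    {U : Y' → Set Y'} (hU : IsCover U) (x : Y) :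
    ∃ (W : Set Y) (k : Y' → Y'), IsOpen W ∧ x ∈ W ∧
      ∀ y, π y ∈ W → π (k y) = x ∧ y ∈ U (k y) ∧ ∀ᶠ y' in 𝓝 y, k y' = k y := by
  classical
  set a := Function.surjInv h.surj x with ha
  have hax : π a = x := Function.surjInv_eq h.surj x
  by_cases hab : σ a = a
  · obtain ⟨h1, h2, h3⟩ := h4_tube h (hU.isOpen a) x (hU.mem a) (by
      rw [← ha, hab]; exact hU.mem a)
    exact ⟨_, fun _ => a, h1, h2, fun y hy => ⟨hax, h3 y hy, Filter.Eventually.of_forall
      fun _ => rfl⟩⟩
  · obtain ⟨u, v, hu, hv, hau, hbv, huv⟩ := t2_separation (Ne.symm hab)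
    have hOo : IsOpen (u ∩ U a) := hu.inter (hU.isOpen a)
    have hO'o : IsOpen (v ∩ U (σ a)) := hv.inter (hU.isOpen (σ a))
    obtain ⟨h1, h2, h3⟩ := h4_tube h (hOo.union hO'o) x (Or.inl ⟨hau, hU.mem a⟩)
      (Or.inr ⟨hbv, hU.mem (σ a)⟩)
    refine ⟨_, fun y => if y ∈ u ∩ U a then a else σ a, h1, h2, fun y hy => ?_⟩
    rcases h3 y hy with h4 | h4
    · have h5 : (if y ∈ u ∩ U a then a else σ a) = a := if_pos h4
      simp only [h5]
      refine ⟨hax, h4.2, ?_⟩
      filter_upwards [hOo.mem_nhds h4] with y' hy'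
      exact if_pos hy'
    · have h6 : ∀ y' ∈ v ∩ U (σ a), (if y' ∈ u ∩ U a then a else σ a) = σ a := by
        intro y' hy'
        exact if_neg fun h7 => Set.disjoint_left.1 huv h7.1 hy'.1
      have h5 := h6 y h4
      simp only [h5]
      refine ⟨by rw [h.comm, hax], h4.2, ?_⟩
      filter_upwards [hO'o.mem_nhds h4] with y' hy'
      exact h6 y' hy'

theorem exists_transfer_cover [T2Space Y'] {π : C(Y', Y)} {σ : C(Y', Y')} (h : IsDouble π σ)
    {U : Y' → Set Y'} (hU : IsCover U) :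
    ∃ (W : Y → Set Y) (k : Y → Y' → Y'), IsCover W ∧
      ∀ x y, π y ∈ W x → π (k x y) = x ∧ y ∈ U (k x y) ∧ ∀ᶠ y' in 𝓝 y, k x y' = k x y := by
  choose W k h1 h2 h3 using fun x => h4_one h hU x
  exact ⟨W, k, ⟨h1, h2⟩, h3⟩

/-- The average over the fibres. -/
noncomputable def avg {A : Type} [AddCommGroup A] {R : Type} [Ring R] [Module R A] (half : R)
    {π : C(Y', Y)} {σ : C(Y', Y')} (h : IsDouble π σ) (β : Y' → A) (p : Y) : A :=
  half • (β (Function.surjInv h.surj p) + β (σ (Function.surjInv h.surj p)))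

theorem avg_eq {A : Type} [AddCommGroup A] {R : Type} [Ring R] [Module R A] (half : R)
    {π : C(Y', Y)} {σ : C(Y', Y')} (h : IsDouble π σ) (β : Y' → A) (y : Y') :
    avg half h β (π y) = half • (β y + β (σ y)) := by
  unfold avg
  have h1 : π y = π (Function.surjInv h.surj (π y)) := (Function.surjInv_eq h.surj (π y)).symm
  rcases h.fibre _ _ h1 with h2 | h2
  · rw [h2]
  · rw [h2, h.invol, add_comm]

theorem avg_lc {A : Type} [AddCommGroup A] {R : Type} [Ring R] [Module R A] (half : R)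
    {π : C(Y', Y)} {σ : C(Y', Y')} (h : IsDouble π σ) (β : Y' → A) {O : Set Y} (hO : IsOpen O)
    (hβ : LC β (π ⁻¹' O)) : LC (avg half h β) O := by
  have _hO := hO
  intro p hp
  set y0 := Function.surjInv h.surj p with hy0
  have hπ : π y0 = p := Function.surjInv_eq h.surj p
  have hy0O : y0 ∈ π ⁻¹' O := by
    rw [Set.mem_preimage, hπ]; exact hp
  have hy1O : σ y0 ∈ π ⁻¹' O := by
    rw [Set.mem_preimage, h.comm, hπ]; exact hp
  have hN0 : ∀ᶠ y in 𝓝 y0, β y + β (σ y) = β y0 + β (σ y0) := by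
    filter_upwards [hβ y0 hy0O, (σ.continuous.tendsto y0).eventually (hβ _ hy1O)] with y h1 h2
    rw [h1, h2]
  have hN1 : ∀ᶠ y in 𝓝 (σ y0), β y + β (σ y) = β y0 + β (σ y0) := by
    have ht : Filter.Tendsto σ (𝓝 (σ y0)) (𝓝 y0) := by
      have := σ.continuous.tendsto (σ y0)
      rwa [h.invol] at this
    filter_upwards [hβ _ hy1O, ht.eventually (hβ y0 hy0O)] with y h1 h2
    rw [h1, h2, add_comm]
  obtain ⟨h1, h2, h3⟩ := h4_tube h
    (isOpen_interior (s := {y | β y + β (σ y) = β y0 + β (σ y0)})) p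
    (mem_interior_iff_mem_nhds.2 hN0) (mem_interior_iff_mem_nhds.2 hN1)
  filter_upwards [h1.mem_nhds h2] with p' hp'
  have h4 : Function.surjInv h.surj p' ∈ interior {y | β y + β (σ y) = β y0 + β (σ y0)} := by
    refine h3 _ ?_
    rw [Function.surjInv_eq h.surj]
    exact hp'
  have h5 := interior_subset h4
  unfold avg
  exact congrArg (fun v => half • v) h5

theorem pull_injective {R A : Type} [Ring R] [AddCommGroup A] [Module R A] (half : R)
    (hhalf : half + half = 1) [T2Space Y'] {π : C(Y', Y)} {σ : C(Y', Y')} (h : IsDouble π σ)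
    (ξ : H2 Y R A) (hξ : pull R A π ξ = 0) : ξ = 0 := by
  obtain ⟨c, rfl⟩ := Submodule.Quotient.mk_surjective _ ξ
  have h0 : pull R A π (Submodule.Quotient.mk c) = 0 := hξ
  rw [pull_mk] at h0
  have hB : pullC π c.1 ∈ B2 Y' R A := by
    have h1 := (Submodule.Quotient.mk_eq_zero _).1 h0
    exact h1
  obtain ⟨U, hU, b, hb, hδ⟩ := hB
  obtain ⟨W, k, hW, hk⟩ := exists_transfer_cover h hU
  refine (Submodule.Quotient.mk_eq_zero _).2 ?_
  show c.1 ∈ B2 Y R A
  refine ⟨W, hW, fun x x' => avg half h (fun y => b (k x y) (k x' y) y), ?_, ?_⟩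
  · intro x x'
    refine avg_lc half h _ ((hW.isOpen x).inter (hW.isOpen x')) ?_
    intro y hy
    obtain ⟨-, h2, h3⟩ := hk x y hy.1
    obtain ⟨-, h5, h6⟩ := hk x' y hy.2
    filter_upwards [h3, h6, hb (k x y) (k x' y) y ⟨h2, h5⟩] with y' h7 h8 h9
    rw [h7, h8]
    exact h9
  · intro x x' x'' p hp
    have hval : ∀ y, π y = p → b (k x' y) (k x'' y) y - b (k x y) (k x'' y) y +
        b (k x y) (k x' y) y = c.1 x x' x'' p := by
      intro y hy
      obtain ⟨h1, h2, -⟩ := hk x y (by rw [hy]; exact hp.1.1)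
      obtain ⟨h4, h5, -⟩ := hk x' y (by rw [hy]; exact hp.1.2)
      obtain ⟨h7, h8, -⟩ := hk x'' y (by rw [hy]; exact hp.2)
      rw [← hδ (k x y) (k x' y) (k x'' y) y ⟨⟨h2, h5⟩, h8⟩]
      show c.1 (π (k x y)) (π (k x' y)) (π (k x'' y)) (π y) = _
      rw [h1, h4, h7, hy]
    set y0 := Function.surjInv h.surj p with hy0
    have hπ0 : π y0 = p := Function.surjInv_eq h.surj p
    have hπ1 : π (σ y0) = p := by rw [h.comm, hπ0]
    have e0 := hval y0 hπ0
    have e1 := hval (σ y0) hπ1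
    show c.1 x x' x'' p =
      half • (b (k x' y0) (k x'' y0) y0 + b (k x' (σ y0)) (k x'' (σ y0)) (σ y0)) -
        half • (b (k x y0) (k x'' y0) y0 + b (k x (σ y0)) (k x'' (σ y0)) (σ y0)) +
        half • (b (k x y0) (k x' y0) y0 + b (k x (σ y0)) (k x' (σ y0)) (σ y0))
    rw [← smul_sub, ← smul_add]
    have e2 : (b (k x' y0) (k x'' y0) y0 + b (k x' (σ y0)) (k x'' (σ y0)) (σ y0)) -
        (b (k x y0) (k x'' y0) y0 + b (k x (σ y0)) (k x'' (σ y0)) (σ y0)) +
        (b (k x y0) (k x' y0) y0 + b (k x (σ y0)) (k x' (σ y0)) (σ y0)) =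
        c.1 x x' x'' p + c.1 x x' x'' p := by
      nth_rewrite 1 [← e0]
      rw [← e1]
      abel
    rw [e2, smul_add, ← add_smul, hhalf, one_smul]

end Pool.Agent.K3Pieces
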