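import Pool.Agent.Lib.MP_3004b3_ag.A1

/-!
# JOB H5a: Riemann's extension theorem on `ℂ²` (continuous version)

`u` is holomorphic near `q`, not identically zero near `q`; `g` is continuous near `q`, and complex
differentiable at all points near `q` where `u ≠ 0`. Then `g` is holomorphic near `q`.

Proof. 1. There is a direction `e` such that `s ↦ u (q + s • e)` is not identically zero near
`s = 0`: otherwise, for every `e` in the unit sphere, hence `u = 0` on a ball around `q` on which `u`
is differentiable (identity theorem on the disc `{s : q + s • e ∈ ball}`,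
`AnalyticOnNhd.eqOn_zero_of_preconnected_of_eventuallyEq_zero`; for each `z` in the ball take
`e = z - q`).
2. So there is `r > 0` (small) with `u (q + s • e) ≠ 0` for `‖s‖ = r` (isolated zeros), and by
compactness of the circle there is `δ > 0` with `u (z + s • e) ≠ 0` for `‖z - q‖ < δ`, `‖s‖ = r`, all
points in the good neighbourhood of `q`.
3. For `‖z - q‖ < δ`: `g z = (2 π i)⁻¹ ∮_{‖s‖ = r} g (z + s • e) / s`: the function
`s ↦ g (z + s • e)` is continuous on the closed disc and differentiable except at the zeros of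
`s ↦ u (z + s • e)` in the disc, a finite set as this function is not identically zero on
the disc; Mathlib: `Complex.circleIntegral_sub_inv_smul_of_differentiable_on_off_countable` (or
`Complex.two_pi_I_inv_smul_circleIntegral_sub_inv_smul_of_differentiable_on_off_countable`).
4. The right hand side is complex differentiable in `z` on `ball q δ'`, `δ' < δ`: differentiation
under the integral sign as in `Pool/Agent/Lib/MP_c0402d_ag/TE2.lean`, theorem `te2_dirderiv`
(`intervalIntegral.hasFDerivAt_integral_of_dominated_of_fderiv_le`), since `g` is holomorphic near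
the compact set `{q + s • e : ‖s‖ = r}` (so its derivative is continuous, hence bounded, near this
compact set by `HolAt.fderiv`).
-/

set_option autoImplicit false

namespace Pool.Agent.K3Pieces

open scoped Topology

private theorem h5a_zero {φ : ℂ → ℂ} {R : ℝ} (hφ : DifferentiableOn ℂ φ (Metric.ball 0 R)) {s1 : ℂ}
    (hs1 : s1 ∈ Metric.ball (0 : ℂ) R) (h : φ s1 ≠ 0) :
    ∀ x ∈ Metric.ball (0 : ℂ) R, ∀ᶠ s in 𝓝[≠] x, φ s ≠ 0 := by
  intro x hx
  have han := hφ.analyticOnNhd Metric.isOpen_ball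
  rcases (han x hx).eventually_eq_zero_or_eventually_ne_zero with h1 | h1
  · exact absurd (han.eqOn_zero_of_preconnected_of_eventuallyEq_zero
      (convex_ball (0 : ℂ) R).isPreconnected hx h1 hs1) h
  · exact h1

private theorem h5a_countable {φ : ℂ → ℂ} {R : ℝ} (hφ : DifferentiableOn ℂ φ (Metric.ball 0 R))
    {s1 : ℂ} (hs1 : s1 ∈ Metric.ball (0 : ℂ) R) (h : φ s1 ≠ 0) :
    {s : ℂ | s ∈ Metric.ball (0 : ℂ) R ∧ φ s = 0}.Countable := by
  have hdisc : DiscreteTopology {s : ℂ | s ∈ Metric.ball (0 : ℂ) R ∧ φ s = 0} := by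
    rw [discreteTopology_subtype_iff]
    intro x hx
    have h1 := h5a_zero hφ hs1 h x hx.1
    rw [← disjoint_iff, Filter.disjoint_principal_right]
    filter_upwards [h1] with s h2 h3
    exact h2 h3.2
  have : Countable {s : ℂ | s ∈ Metric.ball (0 : ℂ) R ∧ φ s = 0} :=
    countable_of_Lindelof_of_discrete
  exact this

theorem riemann_extension {u g : C2 → ℂ} {q : C2} (hu : HolAt u q)
    (hu0 : ∃ᶠ z in 𝓝 q, u z ≠ 0) (hg : ∀ᶠ z in 𝓝 q, ContinuousAt g z)
    (hd : ∀ᶠ z in 𝓝 q, u z ≠ 0 → DifferentiableAt ℂ g z) : HolAt g q := by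
  obtain ⟨ε, hε, hall⟩ := Metric.eventually_nhds_iff.1 (hu.and (hg.and hd))
  have hball : ∀ z ∈ Metric.ball q ε, DifferentiableAt ℂ u z ∧ ContinuousAt g z ∧
      (u z ≠ 0 → DifferentiableAt ℂ g z) := fun z hz => hall (Metric.mem_ball.1 hz)
  obtain ⟨z0, hz0, hz0b⟩ := (hu0.and_eventually (Metric.ball_mem_nhds q
    (show 0 < ε / 4 by positivity))).exists
  set e : C2 := z0 - q with he
  have hen : ‖e‖ < ε / 4 := by rw [he, ← dist_eq_norm]; exact hz0b
  -- points of the discs
  have hin : ∀ z ∈ Metric.ball q (ε / 2), ∀ s : ℂ, ‖s‖ < 2 → z + s • e ∈ Metric.ball q ε := by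
    intro z hz s hs
    rw [Metric.mem_ball, dist_eq_norm] at hz ⊢
    have h1 : ‖s • e‖ ≤ 2 * ‖e‖ := by
      rw [norm_smul]
      exact mul_le_mul_of_nonneg_right hs.le (norm_nonneg _)
    calc ‖z + s • e - q‖ = ‖(z - q) + s • e‖ := by congr 1; abel
      _ ≤ ‖z - q‖ + ‖s • e‖ := norm_add_le _ _
      _ < ε := by linarith
  have hline : ∀ z : C2, ∀ s : ℂ, DifferentiableAt ℂ (fun s : ℂ => z + s • e) s := fun z s =>
    (differentiableAt_id.smul_const e).const_add z
  have hdiff : ∀ z ∈ Metric.ball q (ε / 2),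
      DifferentiableOn ℂ (fun s : ℂ => u (z + s • e)) (Metric.ball 0 2) := by
    intro z hz s hs
    have h1 := (hball _ (hin z hz s (by simpa using hs))).1
    exact (DifferentiableAt.comp (f := fun s : ℂ => z + s • e) (g := u) s h1
      (hline z s)).differentiableWithinAt
  have hq2 : q ∈ Metric.ball q (ε / 2) := Metric.mem_ball_self (by positivity)
  -- the radius
  obtain ⟨r, hr0, hr1, hrne⟩ : ∃ r : ℝ, 0 < r ∧ r ≤ 1 ∧
      ∀ s ∈ Metric.sphere (0 : ℂ) r, u (q + s • e) ≠ 0 := by
    have h1 : (fun s : ℂ => u (q + s • e)) 1 ≠ 0 := by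
      show u (q + (1 : ℂ) • e) ≠ 0
      rw [one_smul, he, add_sub_cancel]
      exact hz0
    have h2 := h5a_zero (hdiff q hq2) (s1 := 1) (by simp) h1 0 (by simp)
    rw [eventually_nhdsWithin_iff] at h2
    obtain ⟨r0, hr0, h3⟩ := Metric.eventually_nhds_iff.1 h2
    refine ⟨min (r0 / 2) 1, lt_min (by positivity) one_pos, min_le_right _ _, fun s hs => ?_⟩
    rw [mem_sphere_zero_iff_norm] at hs
    have hpos : 0 < ‖s‖ := by rw [hs]; exact lt_min (by positivity) one_pos
    refine h3 (y := s) ?_ (norm_pos_iff.1 hpos)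
    rw [dist_zero_right, hs]
    exact lt_of_le_of_lt (min_le_left _ _) (by linarith)
  -- no zeros on the circles
  have hne : ∀ᶠ z in 𝓝 q, ∀ s ∈ Metric.sphere (0 : ℂ) r, u (z + s • e) ≠ 0 := by
    refine (isCompact_sphere (0 : ℂ) r).eventually_forall_of_forall_eventually
      (P := fun (z : C2) (s : ℂ) => u (z + s • e) ≠ 0) fun s hs => ?_
    have hs' : ‖s‖ < 2 := by
      rw [mem_sphere_zero_iff_norm] at hs
      linarith
    have h1 : ContinuousAt u (q + s • e) := (hball _ (hin q hq2 s hs')).1.continuousAt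
    have h2 : ContinuousAt (fun x : C2 × ℂ => u (x.1 + x.2 • e)) (q, s) := by
      have h3 : ContinuousAt (fun x : C2 × ℂ => x.1 + x.2 • e) (q, s) :=
        (continuous_fst.add (continuous_snd.smul continuous_const)).continuousAt
      exact ContinuousAt.comp (f := fun x : C2 × ℂ => x.1 + x.2 • e) (g := u) h1 h3
    exact h2.eventually_ne (hrne s hs)
  obtain ⟨V, hV, hVo, hqV⟩ := eventually_nhds_iff.1
    (hne.and (Metric.ball_mem_nhds q (show 0 < ε / 2 by positivity)))
  have hcirc : ∀ θ : ℝ, circleMap 0 r θ ∈ Metric.sphere (0 : ℂ) r := fun θ =>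
    circleMap_mem_sphere 0 hr0.le θ
  have hcirc2 : ∀ θ : ℝ, ‖circleMap 0 r θ‖ < 2 := by
    intro θ
    rw [norm_circleMap_zero, abs_of_pos hr0]
    linarith
  -- the integral formula
  have hrep : ∀ z ∈ V, g z = (2 * Real.pi : ℂ)⁻¹ *
      ∫ θ in (0 : ℝ)..2 * Real.pi, g (z + circleMap 0 r θ • e) := by
    intro z hz
    obtain ⟨hz1, hz2⟩ := hV z hz
    have hz2' : z ∈ Metric.ball q (ε / 2) := hz2
    have hrs : ((r : ℝ) : ℂ) ∈ Metric.sphere (0 : ℂ) r := by
      rw [mem_sphere_zero_iff_norm, Complex.norm_real, Real.norm_of_nonneg hr0.le]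
    have hcount := h5a_countable (hdiff z hz2') (s1 := (r : ℂ)) (by
      rw [mem_ball_zero_iff, Complex.norm_real, Real.norm_of_nonneg hr0.le]; linarith)
      (hz1 _ hrs)
    have hcont : ContinuousOn (fun s : ℂ => g (z + s • e)) (Metric.closedBall 0 r) := by
      intro s hs
      rw [mem_closedBall_zero_iff] at hs
      have h1 := (hball _ (hin z hz2' s (by linarith))).2.1
      exact (ContinuousAt.comp (f := fun s : ℂ => z + s • e) (g := g) h1
        (hline z s).continuousAt).continuousWithinAt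
    have hdif : ∀ s ∈ Metric.ball (0 : ℂ) r \ {s : ℂ | s ∈ Metric.ball (0 : ℂ) 2 ∧
        u (z + s • e) = 0}, DifferentiableAt ℂ (fun s : ℂ => g (z + s • e)) s := by
      rintro s ⟨hs, hs'⟩
      rw [mem_ball_zero_iff] at hs
      have hs2 : ‖s‖ < 2 := by linarith
      have h1 : u (z + s • e) ≠ 0 := fun h0 => hs' ⟨by rwa [mem_ball_zero_iff], h0⟩
      exact DifferentiableAt.comp (f := fun s : ℂ => z + s • e) (g := g) s
        ((hball _ (hin z hz2' s hs2)).2.2 h1) (hline z s)
    have hC := Complex.circleIntegral_sub_inv_smul_of_differentiable_on_off_countable hcount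
      (Metric.mem_ball_self hr0) hcont hdif
    have h2 : (∮ s in C(0, r), (s - 0)⁻¹ • g (z + s • e)) =
        Complex.I * ∫ θ in (0 : ℝ)..2 * Real.pi, g (z + circleMap 0 r θ • e) := by
      rw [circleIntegral, ← intervalIntegral.integral_const_mul]
      refine intervalIntegral.integral_congr fun θ _ => ?_
      simp only [deriv_circleMap, sub_zero, smul_eq_mul]
      have h3 : circleMap 0 r θ ≠ 0 := circleMap_ne_center hr0.ne'
      field_simp
    rw [h2, zero_smul, add_zero, smul_eq_mul] at hC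
    have hI : Complex.I ≠ 0 := Complex.I_ne_zero
    have hπ : (2 * Real.pi : ℂ) ≠ 0 := by
      have := Real.pi_ne_zero
      exact_mod_cast mul_ne_zero two_ne_zero this
    rw [eq_inv_mul_iff_mul_eq₀ hπ]
    have h4 : Complex.I * (2 * Real.pi * g z) =
        Complex.I * ∫ θ in (0 : ℝ)..2 * Real.pi, g (z + circleMap 0 r θ • e) := by
      rw [hC]; ring
    exact mul_left_cancel₀ hI h4
  -- holomorphy near the circles
  have hhol : ∀ z ∈ V, ∀ s ∈ Metric.sphere (0 : ℂ) r, HolAt g (z + s • e) := by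
    intro z hz s hs
    obtain ⟨hz1, hz2⟩ := hV z hz
    have hs2 : ‖s‖ < 2 := by
      rw [mem_sphere_zero_iff_norm] at hs
      linarith
    have h1 := hin z hz2 s hs2
    have h2 : ∀ᶠ x in 𝓝 (z + s • e), x ∈ Metric.ball q ε := Metric.isOpen_ball.mem_nhds h1
    have h3 : ∀ᶠ x in 𝓝 (z + s • e), u x ≠ 0 :=
      (hball _ h1).1.continuousAt.eventually_ne (hz1 s hs)
    filter_upwards [h2, h3] with x h4 h5
    exact (hball x h4).2.2 h5
  have hcm : Continuous fun θ : ℝ => circleMap 0 r θ • e :=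
    (continuous_circleMap 0 r).smul continuous_const
  have hgc : ∀ z ∈ V, Continuous fun θ : ℝ => g (z + circleMap 0 r θ • e) := by
    intro z hz
    rw [continuous_iff_continuousAt]
    intro θ
    have h1 : ContinuousAt g (z + circleMap 0 r θ • e) := (hhol z hz _ (hcirc θ)).continuousAt
    exact ContinuousAt.comp (f := fun θ : ℝ => z + circleMap 0 r θ • e) (g := g) h1
      (continuous_const.add hcm).continuousAt
  have hfc : ∀ z ∈ V, ∀ s ∈ Metric.sphere (0 : ℂ) r, ContinuousAt (fderiv ℂ g) (z + s • e) :=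
    fun z hz s hs => (HolAt.fderiv (hhol z hz s hs)).continuousAt
  have hmain : ∀ x0 ∈ V, DifferentiableAt ℂ g x0 := by
    intro x0 hx0
    obtain ⟨B0, hB0⟩ := (isCompact_sphere (0 : ℂ) r).exists_bound_of_continuousOn
      (f := fun s : ℂ => fderiv ℂ g (x0 + s • e)) (fun s hs => by
        refine ContinuousAt.continuousWithinAt ?_
        exact ContinuousAt.comp (f := fun s : ℂ => x0 + s • e) (g := fderiv ℂ g)
          (hfc x0 hx0 s hs) (hline x0 s).continuousAt)
    have hbd : ∀ᶠ x in 𝓝 x0, ∀ s ∈ Metric.sphere (0 : ℂ) r,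
        ‖fderiv ℂ g (x + s • e)‖ < B0 + 1 := by
      refine (isCompact_sphere (0 : ℂ) r).eventually_forall_of_forall_eventually
        (P := fun (x : C2) (s : ℂ) => ‖fderiv ℂ g (x + s • e)‖ < B0 + 1) fun s hs => ?_
      have h2 : ContinuousAt (fun x : C2 × ℂ => ‖fderiv ℂ g (x.1 + x.2 • e)‖) (x0, s) := by
        have h3 : ContinuousAt (fun x : C2 × ℂ => x.1 + x.2 • e) (x0, s) :=
          (continuous_fst.add (continuous_snd.smul continuous_const)).continuousAt
        exact (ContinuousAt.comp (f := fun x : C2 × ℂ => x.1 + x.2 • e) (g := fderiv ℂ g)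
          (hfc x0 hx0 s hs) h3).norm
      have h4 : ‖fderiv ℂ g (x0 + s • e)‖ < B0 + 1 := lt_of_le_of_lt (hB0 s hs) (by linarith)
      exact h2.eventually_lt_const h4
    obtain ⟨V', hV', hV'o, hxV'⟩ := eventually_nhds_iff.1 (hbd.and (hVo.mem_nhds hx0))
    have hV'V : ∀ x ∈ V', x ∈ V := fun x hx => (hV' x hx).2
    have hkey := intervalIntegral.hasFDerivAt_integral_of_dominated_of_fderiv_le (𝕜 := ℂ)
      (μ := MeasureTheory.volume) (a := 0) (b := 2 * Real.pi)
      (F := fun x θ => g (x + circleMap 0 r θ • e))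
      (F' := fun x θ => fderiv ℂ g (x + circleMap 0 r θ • e)) (x₀ := x0)
      (s := V') (bound := fun _ => B0 + 1) (hV'o.mem_nhds hxV') ?_ ?_ ?_ ?_ ?_ ?_
    · have h7 : HasFDerivAt (fun x => (2 * Real.pi : ℂ)⁻¹ * ∫ θ in (0 : ℝ)..2 * Real.pi,
          g (x + circleMap 0 r θ • e)) ((2 * Real.pi : ℂ)⁻¹ •
          ∫ θ in (0 : ℝ)..2 * Real.pi, fderiv ℂ g (x0 + circleMap 0 r θ • e)) x0 :=
        hkey.const_mul _
      have h8 : g =ᶠ[𝓝 x0] fun x => (2 * Real.pi : ℂ)⁻¹ * ∫ θ in (0 : ℝ)..2 * Real.pi,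
          g (x + circleMap 0 r θ • e) :=
        Filter.eventuallyEq_of_mem (hVo.mem_nhds hx0) hrep
      exact (h7.congr_of_eventuallyEq h8).differentiableAt
    · refine Filter.eventually_of_mem (hVo.mem_nhds hx0) fun x hx => ?_
      exact (hgc x hx).aestronglyMeasurable
    · exact (hgc x0 hx0).intervalIntegrable _ _
    · have : Continuous fun θ : ℝ => fderiv ℂ g (x0 + circleMap 0 r θ • e) := by
        rw [continuous_iff_continuousAt]
        intro θ
        exact ContinuousAt.comp (f := fun θ : ℝ => x0 + circleMap 0 r θ • e) (g := fderiv ℂ g)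
          (hfc x0 hx0 _ (hcirc θ)) (continuous_const.add hcm).continuousAt
      exact this.aestronglyMeasurable
    · refine Filter.Eventually.of_forall fun θ _ x hx => ?_
      exact ((hV' x hx).1 _ (hcirc θ)).le
    · exact continuous_const.intervalIntegrable _ _
    · refine Filter.Eventually.of_forall fun θ _ x hx => ?_
      have h9 : HasFDerivAt g (fderiv ℂ g (x + circleMap 0 r θ • e)) (x + circleMap 0 r θ • e) :=
        (hhol x (hV'V x hx) _ (hcirc θ)).differentiableAt.hasFDerivAt
      have h10 := h9.comp x ((hasFDerivAt_id x).add_const (circleMap 0 r θ • e))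
      rw [ContinuousLinearMap.comp_id] at h10
      exact h10
  exact Filter.eventually_of_mem (hVo.mem_nhds hqV) hmain

end Pool.Agent.K3Pieces
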