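import Pool.Agent.Lib.MP_3004b3_ag.B0
import Pool.Agent.Lib.MP_3004b3_ag.E0
import Pool.Agent.Lib.MP_3004b3_ag.H1

/-!
# JOB I0: morphisms of surfaces

A morphism is given by a holomorphic equivariant map of the cones.

* `toPt`: `Quotient.map` (for `v` in the cone: `toPt (proj v) = proj (P v)`, well defined by
  `equiv`); continuity: `Quotient` topology / `continuousOn_proj`.
* `pullRule`: pull back of forms. All the properties are those of the form applied to the local map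
  `P ∘ f` (`plot`).
* `isDelta_pullC`, `zig_pull`, `F1_pull`, `F2_pull`: the covering is `fun y => toPt ⁻¹' U (toPt y)`, the
  functions `h' x y p = h (toPt x) (toPt y) (toPt p)`, the forms
  `θ' x = pullRule (θ (toPt x))`.
-/

set_option autoImplicit false

namespace Pool.Agent.K3Pieces

open scoped Topology

/-- A morphism of surfaces. -/
structure Mor (S X : Surf) where
  P : S.Amb → X.Amb
  hol : Differentiable ℂ P
  equiv : ∀ (l : ℂ) (v : S.Amb), P (act S.w l v) = act X.w l (P v)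
  maps : ∀ v ∈ S.cone, P v ∈ X.cone

namespace Mor

variable {S X : Surf} (M : Mor S X)

/-- The continuous map on points. -/
noncomputable def toPt : C(S.Pt, X.Pt) where
  toFun := Quotient.lift (fun v : S.cone => X.proj (M.P v)) (by
    rintro u v ⟨l, hl, h⟩
    have h1 := M.maps u u.2
    have h2 : M.P v = act X.w l (M.P u) := by rw [h, M.equiv]
    show X.proj (M.P u) = X.proj (M.P v)
    rw [h2]
    exact (X.proj_act h1 hl).symm)
  continuous_toFun := by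
    refine Continuous.quotient_lift ?_ _
    exact X.continuousOn_proj.comp_continuous (M.hol.continuous.comp continuous_subtype_val)
      (fun v => M.maps v v.2)

theorem toPt_proj {v : S.Amb} (hv : v ∈ S.cone) : M.toPt (S.proj v) = X.proj (M.P v) := by
  have h1 : S.proj v = (Quotient.mk S.orbit ⟨v, hv⟩ : Quotient S.orbit) := dif_pos hv
  rw [h1]
  rfl

theorem plot {f : C2 → S.Amb} {q : C2} (hf : S.PlotAt f q) :
    X.PlotAt (fun z => M.P (f z)) q := by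
  have hf' : ∀ᶠ z in 𝓝 q, DifferentiableAt ℂ f z ∧ f z ∈ S.cone := hf
  show ∀ᶠ z in 𝓝 q, DifferentiableAt ℂ (fun z => M.P (f z)) z ∧ M.P (f z) ∈ X.cone
  filter_upwards [hf'] with z hz
  exact ⟨(M.hol (f z)).comp z hz.1, M.maps _ hz.2⟩

/-- Pull back of a rule. -/
def pullRule {B : Type} (α : (C2 → X.Amb) → C2 → B) : (C2 → S.Amb) → C2 → B :=
  fun f q => α (fun z => M.P (f z)) q

theorem i0_eq {f : C2 → S.Amb} {q : C2} (hf : S.PlotAt f q) (h : X.Pt → ℂ) :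
    (fun z => h (M.toPt (S.proj (f z)))) =ᶠ[𝓝 q] fun z => h (X.proj (M.P (f z))) := by
  filter_upwards [hf.eventually] with z hz
  rw [M.toPt_proj hz.mem]

theorem i0_cover {U : X.Pt → Set X.Pt} (hU : IsCover U) :
    IsCover (fun y => M.toPt ⁻¹' U (M.toPt y)) :=
  ⟨fun _ => (hU.isOpen _).preimage M.toPt.continuous, fun _ => hU.mem _⟩

theorem isForm1_pull {U : Set X.Pt} {α : (C2 → X.Amb) → C2 → (C2 →L[ℂ] ℂ)}
    (h : X.IsForm1 U α) : S.IsForm1 (M.toPt ⁻¹' U) (M.pullRule α) := by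
  have hU : ∀ {f : C2 → S.Amb} {q : C2}, S.PlotAt f q → S.proj (f q) ∈ M.toPt ⁻¹' U →
      X.proj (M.P (f q)) ∈ U := by
    intro f q h1 h2
    rw [Set.mem_preimage, M.toPt_proj h1.mem] at h2
    exact h2
  refine ⟨fun f g q h1 h2 h3 => ?_, fun f l q h1 h2 h3 h4 => ?_, fun f g q hg h1 h2 => ?_,
    fun f q h1 h2 => ?_⟩
  · exact h.germ _ _ q (M.plot h1) (hU h1 h2) (h3.mono fun z hz => congrArg M.P hz)
  · have h5 := h.scale _ l q (M.plot h1) (hU h1 h2) h3 h4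
    simp only [← M.equiv] at h5
    exact h5
  · exact h.pull (fun z => M.P (f z)) g q hg (M.plot h1) (hU h1 h2)
  · exact h.hol _ q (M.plot h1) (hU h1 h2)

theorem isPluri_pull {m : ℕ} {U : Set X.Pt} {α : (C2 → X.Amb) → C2 → ℂ}
    (h : X.IsPluri m U α) : S.IsPluri m (M.toPt ⁻¹' U) (M.pullRule α) := by
  have hU : ∀ {f : C2 → S.Amb} {q : C2}, S.PlotAt f q → S.proj (f q) ∈ M.toPt ⁻¹' U →
      X.proj (M.P (f q)) ∈ U := by
    intro f q h1 h2
    rw [Set.mem_preimage, M.toPt_proj h1.mem] at h2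
    exact h2
  refine ⟨fun f g q h1 h2 h3 => ?_, fun f l q h1 h2 h3 h4 => ?_, fun f g q hg h1 h2 => ?_,
    fun f q h1 h2 => ?_⟩
  · exact h.germ _ _ q (M.plot h1) (hU h1 h2) (h3.mono fun z hz => congrArg M.P hz)
  · have h5 := h.scale _ l q (M.plot h1) (hU h1 h2) h3 h4
    simp only [← M.equiv] at h5
    exact h5
  · exact h.pull (fun z => M.P (f z)) g q hg (M.plot h1) (hU h1 h2)
  · exact h.hol _ q (M.plot h1) (hU h1 h2)

theorem holOn_pull {U : Set X.Pt} {h : X.Pt → ℂ} (hh : X.HolOn h U) :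
    S.HolOn (fun p => h (M.toPt p)) (M.toPt ⁻¹' U) := by
  intro f q hf hp
  have h2 : X.proj (M.P (f q)) ∈ U := by
    rw [Set.mem_preimage, M.toPt_proj hf.mem] at hp
    exact hp
  refine (hh _ q (M.plot hf) h2).congr_of_eventuallyEq ?_
  exact M.i0_eq hf h

theorem zig_pull {c : X.Pt → X.Pt → X.Pt → X.Pt → ℂ} {ω : (C2 → X.Amb) → C2 → ℂ}
    (h : X.Zig c ω) : S.Zig (pullC M.toPt c) (M.pullRule ω) := by
  obtain ⟨U, hU, k, θ, h1, h2, h3, h4, h5⟩ := h
  have hU' : ∀ {f : C2 → S.Amb} {q : C2} {V : Set X.Pt}, S.PlotAt f q →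
      S.proj (f q) ∈ M.toPt ⁻¹' V → X.proj (M.P (f q)) ∈ V := by
    intro f q V h1 h2
    rw [Set.mem_preimage, M.toPt_proj h1.mem] at h2
    exact h2
  refine ⟨fun y => M.toPt ⁻¹' U (M.toPt y), M.i0_cover hU,
    fun x y p => k (M.toPt x) (M.toPt y) (M.toPt p), fun x => M.pullRule (θ (M.toPt x)),
    fun x y => M.holOn_pull (h1 _ _), fun x => M.isForm1_pull (h2 _), fun x y f q hf hp => ?_,
    fun x y z p hp => h4 _ _ _ _ hp, fun x f q hf hp => ?_⟩
  · rw [(M.i0_eq hf (k (M.toPt x) (M.toPt y))).fderiv_eq]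
    exact h3 _ _ _ q (M.plot hf) (hU' (V := U (M.toPt x) ∩ U (M.toPt y)) hf hp)
  · exact h5 _ _ q (M.plot hf) (hU' hf hp)

theorem F1_pull {ξ : H2 X.Pt ℂ ℂ} (h : ξ ∈ X.F1) : pull ℂ ℂ M.toPt ξ ∈ S.F1 := by
  obtain ⟨c, hc, rfl⟩ := h
  obtain ⟨U, hU, k, h1, h2⟩ := hc
  exact ⟨⟨pullC M.toPt c.1, pullC_mem_Z2 ℂ ℂ M.toPt.continuous c.2⟩,
    ⟨fun y => M.toPt ⁻¹' U (M.toPt y), M.i0_cover hU,
      fun x y p => k (M.toPt x) (M.toPt y) (M.toPt p), fun x y => M.holOn_pull (h1 _ _),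
      fun x y z p hp => h2 _ _ _ _ hp⟩, rfl⟩

theorem F2_pull {ξ : H2 X.Pt ℂ ℂ} (h : ξ ∈ X.F2) : pull ℂ ℂ M.toPt ξ ∈ S.F2 := by
  obtain ⟨c, hc, rfl⟩ := h
  obtain ⟨U, hU, k, θ, h1, h2, h3, h4⟩ := hc
  refine ⟨⟨pullC M.toPt c.1, pullC_mem_Z2 ℂ ℂ M.toPt.continuous c.2⟩,
    ⟨fun y => M.toPt ⁻¹' U (M.toPt y), M.i0_cover hU,
      fun x y p => k (M.toPt x) (M.toPt y) (M.toPt p), fun x => M.pullRule (θ (M.toPt x)),
      fun x y => M.holOn_pull (h1 _ _), fun x => M.isForm1_pull (h2 _), fun x y f q hf hp => ?_,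
      fun x y z p hp => h4 _ _ _ _ hp⟩, rfl⟩
  rw [(M.i0_eq hf (k (M.toPt x) (M.toPt y))).fderiv_eq]
  refine h3 _ _ _ q (M.plot hf) ?_
  have h5 : M.toPt (S.proj (f q)) ∈ U (M.toPt x) ∩ U (M.toPt y) := hp
  rw [M.toPt_proj hf.mem] at h5
  exact h5

end Mor

end Pool.Agent.K3Pieces
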