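import Pool.Agent.Lib.MP_3004b3_ag.H4
import Pool.Agent.Lib.MP_3004b3_ag.H5a
import Pool.Agent.Lib.MP_3004b3_ag.I0
import Pool.Agent.Lib.MP_3004b3_ag.E1

/-!
# JOB H5: the transfer respects `F¹`

`M : Mor S X` is (on points) the quotient by the involution given by `σ : Mor S S`, with the
following lifting property: for every local holomorphic map `f` at `q` to `X`, either `f` lifts to `S`
near `q`, or there is a holomorphic function `u`, not identically zero near `q`, such that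
`f` lifts locally at all points near `q` where `u ≠ 0`.

* `continuousOn_of_holOn`: a function with `HolOn h U`, `U` open, is continuous on `U`: charts
  (`exists_chart`, `h x = (h ∘ proj ∘ C.f) (C.κ x)`, `Chart.continuousOn_κ`).
* `mem_F1_of_pull`: let `ξ = [c]`, and let `pullC toPt c` be the coboundary (plus a locally constant
  coboundary, which is also holomorphic: `F1` is the image of `F1c`, so
  `pullC toPt c - c' ∈ B2` with `c' ∈ F1c`; `B2 ≤ F1c` by `holOn_of_lc`) of `h` on the covering `U`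
  with `h` holomorphic. As in `pull_injective` put
  `a x x' p = avg (1/2) β p` with `β y = h (k x y) (k x' y) y` and the covering `W`. As there, `c` is
  the coboundary of `a` on `W`. It remains to see that `a x x'` is holomorphic on `W x ∩ W x'`. Let `f`
  be a local map at `q` into this set, `A z = a x x' (X.proj (f z))`. If `f = M.P ∘ g` near `z0` with a
  local map `g` to `S`, then by `avg_eq`
  `A z = (1/2) * (β (S.proj (g z)) + β (S.proj (σ.P (g z))))` near `z0`, and `k x`, `k x'` are constant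
  near the two points, so `A` is differentiable at `z0` (`HolOn`). And `A` is continuous near
  `q`: `avg` of a function which is continuous at all points of the fibre is continuous
  (as in `avg_lc`; `β` is continuous at the points over `W x ∩ W x'` by `continuousOn_of_holOn`).
  Conclude by `riemann_extension`.
-/

set_option autoImplicit false

namespace Pool.Agent.K3Pieces

open scoped Topology

theorem Surf.continuousOn_of_holOn {X : Surf} {U : Set X.Pt} {h : X.Pt → ℂ}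
    (hh : X.HolOn h U) (hU : IsOpen U) : ContinuousOn h U := by
  intro p hp
  obtain ⟨C, hC⟩ := X.exists_chart p hU hp
  have hpV := C.mem_V
  have hnhds : C.V ∈ 𝓝 p := C.isOpen_V.mem_nhds hpV
  have hκ : ContinuousAt C.κ p := C.continuousOn_κ.continuousAt hnhds
  have hd : DifferentiableAt ℂ (fun z => h (X.proj (C.f z))) (C.κ p) :=
    hh C.f (C.κ p) (C.plot _ (C.κ_mem hpV)) (by rw [C.proj_κ hpV]; exact hp)
  have h1 : ContinuousAt (fun x => h (X.proj (C.f (C.κ x)))) p :=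
    ContinuousAt.comp (g := fun z => h (X.proj (C.f z))) hd.continuousAt hκ
  have h2 : (fun x => h (X.proj (C.f (C.κ x)))) =ᶠ[𝓝 p] h := by
    filter_upwards [hnhds] with x hx
    rw [C.proj_κ hx]
  exact ContinuousAt.continuousWithinAt (h1.congr h2)

theorem avg_continuousAt {Y Y' : Type} [TopologicalSpace Y] [TopologicalSpace Y']
    {π : C(Y', Y)} {σ : C(Y', Y')} (h : IsDouble π σ) (β : Y' → ℂ) {O : Set Y} (hO : IsOpen O)
    (hβ : ContinuousOn β (π ⁻¹' O)) : ContinuousOn (avg (1 / 2 : ℂ) h β) O := by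
  have hA : ContinuousOn (fun y => (1 / 2 : ℂ) • (β y + β (σ y))) (π ⁻¹' O) := by
    have hA1 : ContinuousOn (fun y => β y + β (σ y)) (π ⁻¹' O) := by
      refine hβ.add (hβ.comp σ.continuous.continuousOn fun y hy => ?_)
      show π (σ y) ∈ O
      rw [h.comm]
      exact hy
    exact hA1.const_smul (1 / 2 : ℂ)
  intro p0 hp0
  refine ContinuousAt.continuousWithinAt ?_
  rw [ContinuousAt, tendsto_nhds]
  intro V hV hpV
  have hG : IsOpen (π ⁻¹' O ∩ (fun y => (1 / 2 : ℂ) • (β y + β (σ y))) ⁻¹' V) :=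
    hA.isOpen_inter_preimage (hO.preimage π.continuous) hV
  have hK : IsOpen (π '' (π ⁻¹' O ∩ (fun y => (1 / 2 : ℂ) • (β y + β (σ y))) ⁻¹' V)ᶜ)ᶜ :=
    (h.closed _ hG.isClosed_compl).isOpen_compl
  have hm : p0 ∈ (π '' (π ⁻¹' O ∩ (fun y => (1 / 2 : ℂ) • (β y + β (σ y))) ⁻¹' V)ᶜ)ᶜ := by
    rintro ⟨y, hy, rfl⟩
    apply hy
    refine ⟨hp0, ?_⟩
    rw [avg_eq] at hpV
    exact hpV
  filter_upwards [hK.mem_nhds hm] with p hp
  obtain ⟨y, rfl⟩ := h.surj p
  have hy : y ∈ π ⁻¹' O ∩ (fun y => (1 / 2 : ℂ) • (β y + β (σ y))) ⁻¹' V := by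
    by_contra hy
    exact hp ⟨y, hy, rfl⟩
  show avg (1 / 2 : ℂ) h β (π y) ∈ V
  rw [avg_eq]
  exact hy.2

/-- The lifting property. -/
def Mor.Lifts {S X : Surf} (M : Mor S X) : Prop :=
  ∀ (f : C2 → X.Amb) (q : C2), X.PlotAt f q →
    (∃ g, S.PlotAt g q ∧ ∀ᶠ z in 𝓝 q, M.P (g z) = f z) ∨
    ∃ u : C2 → ℂ, HolAt u q ∧ (∃ᶠ z in 𝓝 q, u z ≠ 0) ∧
      ∀ᶠ z in 𝓝 q, u z ≠ 0 → ∃ g, S.PlotAt g z ∧ ∀ᶠ z' in 𝓝 z, M.P (g z') = f z'

/-- The choice of the sheet does not matter for differentiability. -/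
theorem h5_diff {S X : Surf} (M : Mor S X) {U : S.Pt → Set S.Pt} {hh : S.Pt → S.Pt → S.Pt → ℂ}
    (h1 : ∀ x y, S.HolOn (hh x y) (U x ∩ U y)) {W : X.Pt → Set X.Pt} {k : X.Pt → S.Pt → S.Pt}
    (hk : ∀ x y, M.toPt y ∈ W x → M.toPt (k x y) = x ∧ y ∈ U (k x y) ∧
      ∀ᶠ y' in 𝓝 y, k x y' = k x y) (x x' : X.Pt) {g : C2 → S.Amb} {z0 : C2}
    (hg : S.PlotAt g z0) (hz : M.toPt (S.proj (g z0)) ∈ W x ∩ W x') :
    DifferentiableAt ℂ
      (fun z => hh (k x (S.proj (g z))) (k x' (S.proj (g z))) (S.proj (g z))) z0 := by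
  obtain ⟨-, m1, e1⟩ := hk x _ hz.1
  obtain ⟨-, m2, e2⟩ := hk x' _ hz.2
  have hc := hg.continuousAt_proj
  have h2 := h1 (k x (S.proj (g z0))) (k x' (S.proj (g z0))) g z0 hg ⟨m1, m2⟩
  refine h2.congr_of_eventuallyEq ?_
  filter_upwards [Filter.Tendsto.eventually hc e1, Filter.Tendsto.eventually hc e2] with z a1 a2
  rw [a1, a2]

theorem h5_cont {S X : Surf} (M : Mor S X) {U : S.Pt → Set S.Pt} (hU : IsCover U)
    {hh : S.Pt → S.Pt → S.Pt → ℂ}
    (h1 : ∀ x y, S.HolOn (hh x y) (U x ∩ U y)) {W : X.Pt → Set X.Pt} {k : X.Pt → S.Pt → S.Pt}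
    (hk : ∀ x y, M.toPt y ∈ W x → M.toPt (k x y) = x ∧ y ∈ U (k x y) ∧
      ∀ᶠ y' in 𝓝 y, k x y' = k x y) (x x' : X.Pt) :
    ContinuousOn (fun y => hh (k x y) (k x' y) y) (M.toPt ⁻¹' (W x ∩ W x')) := by
  intro y0 hy0
  obtain ⟨-, m1, e1⟩ := hk x _ hy0.1
  obtain ⟨-, m2, e2⟩ := hk x' _ hy0.2
  have ho : IsOpen (U (k x y0) ∩ U (k x' y0)) := (hU.isOpen _).inter (hU.isOpen _)
  have h3 := (Surf.continuousOn_of_holOn (h1 (k x y0) (k x' y0)) ho).continuousAt
    (ho.mem_nhds ⟨m1, m2⟩)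
  refine ContinuousAt.continuousWithinAt (h3.congr ?_)
  filter_upwards [e1, e2] with y a1 a2
  rw [a1, a2]

/-- Locally constant coboundaries are coboundaries of holomorphic functions. -/
theorem h5_B2_le (S : Surf) {c : S.Pt → S.Pt → S.Pt → S.Pt → ℂ} (hc : c ∈ B2 S.Pt ℂ ℂ) :
    c ∈ S.F1c := by
  obtain ⟨U, hU, b, h1, h2⟩ := hc
  exact ⟨U, hU, b, fun x y => Surf.holOn_of_lc (h1 x y), h2⟩

theorem Mor.mem_F1_of_pull {S X : Surf} (M : Mor S X) (σ : Mor S S) [T2Space S.Pt]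
    (h : IsDouble M.toPt σ.toPt) (hL : M.Lifts) (ξ : H2 X.Pt ℂ ℂ)
    (hξ : pull ℂ ℂ M.toPt ξ ∈ S.F1) : ξ ∈ X.F1 := by
  obtain ⟨c, rfl⟩ := Submodule.Quotient.mk_surjective _ ξ
  rw [pull_mk] at hξ
  obtain ⟨c', hc', hcc'⟩ := hξ
  have h2 : c'.1 - pullC M.toPt c.1 ∈ B2 S.Pt ℂ ℂ := by
    have h2' : c' - ⟨pullC M.toPt c.1, pullC_mem_Z2 ℂ ℂ M.toPt.continuous c.2⟩ ∈
        (B2 S.Pt ℂ ℂ).comap (Z2 S.Pt ℂ ℂ).subtype := (Submodule.Quotient.eq _).1 hcc'
    exact h2'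
  have h3 : pullC M.toPt c.1 ∈ S.F1c := by
    have h4 := S.F1c.sub_mem hc' (h5_B2_le S h2)
    have e : (Z2 S.Pt ℂ ℂ).subtype c' - (c'.1 - pullC M.toPt c.1) = pullC M.toPt c.1 :=
      sub_sub_cancel _ _
    rwa [e] at h4
  obtain ⟨U, hU, hh, h1, hδ⟩ := h3
  obtain ⟨W, k, hW, hk⟩ := exists_transfer_cover h hU
  refine ⟨c, ?_, rfl⟩
  refine ⟨W, hW, fun x x' p => avg (1 / 2 : ℂ) h (fun y => hh (k x y) (k x' y) y) p,
    fun x x' f q hf hq => ?_, fun x x' x'' p hp => ?_⟩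
  · have hO : IsOpen (W x ∩ W x') := (hW.isOpen x).inter (hW.isOpen x')
    -- differentiability at the points where the map lifts
    have hD : ∀ z0 : C2, X.PlotAt f z0 → X.proj (f z0) ∈ W x ∩ W x' →
        (∃ g, S.PlotAt g z0 ∧ ∀ᶠ z in 𝓝 z0, M.P (g z) = f z) →
        DifferentiableAt ℂ (fun z => avg (1 / 2 : ℂ) h (fun y => hh (k x y) (k x' y) y)
          (X.proj (f z))) z0 := by
      rintro z0 hf0 hz0 ⟨g, hg, hgf⟩
      have e0 : M.toPt (S.proj (g z0)) = X.proj (f z0) := by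
        rw [M.toPt_proj hg.mem, hgf.self_of_nhds]
      have a1 := h5_diff M h1 hk x x' hg (by rw [e0]; exact hz0)
      have hg2 := σ.plot hg
      have e1 : M.toPt (S.proj (σ.P (g z0))) = X.proj (f z0) := by
        rw [← σ.toPt_proj hg.mem, h.comm, e0]
      have a2 := h5_diff M h1 hk x x' hg2 (by rw [e1]; exact hz0)
      refine ((a1.add a2).const_smul (1 / 2 : ℂ)).congr_of_eventuallyEq ?_
      filter_upwards [hg.eventually, hgf] with z b1 b2
      have e2 : X.proj (f z) = M.toPt (S.proj (g z)) := by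
        rw [M.toPt_proj b1.mem, b2]
      rw [e2, avg_eq, σ.toPt_proj b1.mem]
      rfl
    rcases hL f q hf with hl | ⟨u, hu, hu0, hl⟩
    · exact hD q hf hq hl
    · have hcont := avg_continuousAt h _ hO (h5_cont M hU h1 hk x x')
      have hnear : ∀ᶠ z in 𝓝 q, X.proj (f z) ∈ W x ∩ W x' := hf.eventually_mem hO hq
      refine (riemann_extension hu hu0 ?_ ?_).differentiableAt
      · filter_upwards [hf.eventually, hnear] with z b1 b2
        exact ContinuousAt.comp (g := fun p => avg (1 / 2 : ℂ) h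
          (fun y => hh (k x y) (k x' y) y) p) (hcont.continuousAt (hO.mem_nhds b2))
          b1.continuousAt_proj
      · filter_upwards [hf.eventually, hnear, hl] with z b1 b2 b3 b4
        exact hD z b1 b2 (b3 b4)
  · obtain ⟨y, rfl⟩ := h.surj p
    have key : ∀ y₁ : S.Pt, M.toPt y₁ = M.toPt y →
        hh (k x' y₁) (k x'' y₁) y₁ - hh (k x y₁) (k x'' y₁) y₁ + hh (k x y₁) (k x' y₁) y₁
          = c.1 x x' x'' (M.toPt y) := by
      intro y₁ hy₁
      obtain ⟨c1, m1, -⟩ := hk x y₁ (by rw [hy₁]; exact hp.1.1)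
      obtain ⟨c2, m2, -⟩ := hk x' y₁ (by rw [hy₁]; exact hp.1.2)
      obtain ⟨c3, m3, -⟩ := hk x'' y₁ (by rw [hy₁]; exact hp.2)
      have e := hδ (k x y₁) (k x' y₁) (k x'' y₁) y₁ ⟨⟨m1, m2⟩, m3⟩
      rw [← e]
      unfold pullC
      rw [c1, c2, c3, hy₁]
    have k1 := key y rfl
    have k2 := key (σ.toPt y) (h.comm y)
    simp only [avg_eq, smul_eq_mul]
    show c.1 x x' x'' (M.toPt y) = _
    linear_combination (-(1 / 2 : ℂ)) * k1 - (1 / 2 : ℂ) * k2

end Pool.Agent.K3Pieces
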