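import Pool.Agent.Lib.MP_3004b3_ag.H3
import Pool.Agent.Lib.MP_3004b3_ag.B1
import Pool.Agent.Lib.MP_3004b3_ag.B2

/-!
# JOB J1: description of the transcendental part

* `coef_mem_of_mem_span`: by `Submodule.span_induction` prove, for `ξ` in the complex span of
  `toC '' W`, the statement `∀ p, coef p ξ ∈ W`: generators by `coef_smul_toC` with `a = 1`, sums, and
  multiples by `coef_smul`.
* `T_eq_span`: `≥`: by `coef_mem_of_mem_span` for every admissible `W`. `≤`: the right hand side `W0`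
  is admissible: for `ξ ∈ F2`, `ξ = ∑ e_k • toC (coef (p k) ξ)` by `exists_coef_expansion`, and
  `coef (p k) ξ ∈ W0`.
* `F2_le_span`: the same expansion.
-/

set_option autoImplicit false

namespace Pool.Agent.K3Pieces

open scoped Topology TensorProduct

theorem coef_mem_of_mem_span {Y : Type} [TopologicalSpace Y] {W : Submodule ℚ (H2 Y ℚ ℚ)}
    {ξ : H2 Y ℂ ℂ} (h : ξ ∈ Submodule.span ℂ ((toC Y) '' (W : Set (H2 Y ℚ ℚ))))
    (p : ℂ →ₗ[ℚ] ℚ) : coef p ξ ∈ W := by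
  induction h using Submodule.span_induction generalizing p with
  | mem x hx =>
    obtain ⟨v, hv, rfl⟩ := hx
    have h1 := coef_smul_toC p 1 v
    rw [one_smul] at h1
    rw [h1]
    exact W.smul_mem _ hv
  | zero =>
    rw [map_zero]
    exact W.zero_mem
  | add x y _ _ hx hy =>
    rw [map_add]
    exact W.add_mem (hx p) (hy p)
  | smul a x _ hx =>
    rw [coef_smul]
    exact hx _

namespace Surf

variable (X : Surf)

theorem j1_mem_span {ξ : H2 X.Pt ℂ ℂ} {W : Submodule ℚ (H2 X.Pt ℚ ℚ)}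
    (h : ∀ p : ℂ →ₗ[ℚ] ℚ, coef p ξ ∈ W) :
    ξ ∈ Submodule.span ℂ ((toC X.Pt) '' (W : Set (H2 X.Pt ℚ ℚ))) := by
  obtain ⟨n, e, p, hξ⟩ := exists_coef_expansion ξ
  rw [hξ]
  refine Submodule.sum_mem _ fun k _ => Submodule.smul_mem _ _ (Submodule.subset_span ?_)
  exact ⟨_, h (p k), rfl⟩

theorem T_eq_span : X.T = Submodule.span ℚ
    {v | ∃ ξ ∈ X.F2, ∃ p : ℂ →ₗ[ℚ] ℚ, v = coef p ξ} := by
  apply le_antisymm
  · refine sInf_le ?_
    intro ξ hξ
    exact j1_mem_span X fun p => Submodule.subset_span ⟨ξ, hξ, p, rfl⟩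
  · rw [Submodule.span_le]
    rintro v ⟨ξ, hξ, p, rfl⟩
    show coef p ξ ∈ X.T
    unfold T
    rw [Submodule.mem_sInf]
    intro W hW
    exact coef_mem_of_mem_span (hW ξ hξ) p

theorem F2_le_span : X.F2 ≤ Submodule.span ℂ ((toC X.Pt) '' (X.T : Set (H2 X.Pt ℚ ℚ))) := by
  intro ξ hξ
  refine j1_mem_span X fun p => ?_
  rw [T_eq_span]
  exact Submodule.subset_span ⟨ξ, hξ, p, rfl⟩

theorem coef_mem_T {ξ : H2 X.Pt ℂ ℂ} (h : ξ ∈ X.F2) (p : ℂ →ₗ[ℚ] ℚ) : coef p ξ ∈ X.T := by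
  rw [T_eq_span]
  exact Submodule.subset_span ⟨ξ, h, p, rfl⟩

end Surf

end Pool.Agent.K3Pieces
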