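import Pool.Agent.Lib.MP_3004b3_ag.H4
import Pool.Agent.Lib.MP_3004b3_ag.H5
import Pool.Agent.Lib.MP_3004b3_ag.I0
import Pool.Agent.Lib.MP_3004b3_ag.G1
import Pool.Agent.Lib.MP_3004b3_ag.G3
import Pool.Agent.Lib.MP_3004b3_ag.G4
import Pool.Agent.Lib.MP_3004b3_ag.J1

/-!
# The data of a splitting, and first consequences (JOB J0)

`SplitData`: a surface `S`, surfaces `X j`, morphisms `M j : S → X j` which are the quotients by
involutions `σ j`, 2-forms `ω j` on `X j`, such that every 2-form of `S` is a combination of the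
pull backs, and `σ i` changes the sign of the pull back of `ω j` for `i ≠ j`.

Proofs. Write `π_j = (M j).toPt`, `s_i = (σ i).toPt`.
* `sigma_pull_self`: `π_j ∘ s_j = π_j` (`IsDouble.comm`), `pull_pull`.
* `add_sigma_form`: for a 2-form `η` on `X j` and `i ≠ j` the 2-form `π_j^* η + s_i^* π_j^* η` vanishes on
  local maps: by `span` write `π_j^* η = ∑ a_k π_k^* ω_k` (on local maps). Apply `s_j^*`
  (which fixes `π_j^* η`: on the local map `f`, `(M j).P (σ_j.P (f z))` and `(M j).P (f z)` define the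
  same rule by `comm_rule`) and add: `2 π_j^* η = 2 a_j π_j^* ω_j`. So `π_j^* η = a_j π_j^* ω_j`, and
  `sign` gives the claim.
* `add_sigma_F2`: for `ξ ∈ F2 (X j)`, `i ≠ j`: `π_j^* ξ + s_i^* π_j^* ξ = 0` in `H2 S.Pt ℂ ℂ`: `ξ = [c]`
  with `c ∈ F2c`, `exists_zig` gives `Zig c η`; the cochain
  `pullC π_j c + pullC s_i (pullC π_j c)` is represented (`zig_pull`, `Zig.add`) by the 2-form which
  vanishes, so it is in `B2` (`Zig.mem_B2`).
* `F2_span`: for `ξ ∈ F2 S` there are `ξ_j ∈ F2 (X j)` with `ξ = ∑ π_j^* ξ_j`: `ξ = [c]`, `Zig c η`,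
  `η = ∑ a_j π_j^* ω_j` on local maps; `exists_cocycle` gives `c_j` with `Zig c_j ω_j`; the class of
  `c - ∑ a_j π_j^* c_j` is represented by the zero form, so zero. Take `ξ_j = a_j [c_j]`.
-/

set_option autoImplicit false

namespace Pool.Agent.K3Pieces

open scoped Topology TensorProduct

/-- The geometric data of a splitting. -/
structure SplitData (S : Surf) {m : ℕ} (X : Fin m → Surf) where
  M : (j : Fin m) → Mor S (X j)
  σ : Fin m → Mor S S
  double : ∀ j, IsDouble (M j).toPt (σ j).toPt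
  lifts : ∀ j, (M j).Lifts
  comm_cone : ∀ j, ∀ v : S.Amb, (M j).P ((σ j).P v) = (M j).P v
  ω : (j : Fin m) → (C2 → (X j).Amb) → C2 → ℂ
  isPluri : ∀ j, (X j).IsPluri 1 Set.univ (ω j)
  span : ∀ η, S.IsPluri 1 Set.univ η → ∃ a : Fin m → ℂ, ∀ f q, S.PlotAt f q →
    η f q = ∑ j, a j * (M j).pullRule (ω j) f q
  sign : ∀ i j, i ≠ j → ∀ f q, S.PlotAt f q →
    (σ i).pullRule ((M j).pullRule (ω j)) f q = - (M j).pullRule (ω j) f q

namespace SplitData

variable {S : Surf} {m : ℕ} {X : Fin m → Surf} (D : SplitData S X)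

/-- The pull back `H²(X j, A) → H²(S, A)`. -/
noncomputable abbrev pl (R A : Type) [Ring R] [AddCommGroup A] [Module R A] (j : Fin m) :
    H2 (X j).Pt R A →ₗ[R] H2 S.Pt R A :=
  pull R A (D.M j).toPt

/-- The action of the involution on `H²(S, A)`. -/
noncomputable abbrev sg (R A : Type) [Ring R] [AddCommGroup A] [Module R A] (j : Fin m) :
    H2 S.Pt R A →ₗ[R] H2 S.Pt R A :=
  pull R A (D.σ j).toPt

theorem sigma_pull_self (R A : Type) [Ring R] [AddCommGroup A] [Module R A] (j : Fin m)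
    (ξ : H2 (X j).Pt R A) : D.sg R A j (D.pl R A j ξ) = D.pl R A j ξ := by
  show pull R A (D.σ j).toPt (pull R A (D.M j).toPt ξ) = pull R A (D.M j).toPt ξ
  rw [pull_pull]
  have h : (D.M j).toPt.comp (D.σ j).toPt = (D.M j).toPt := by
    ext y
    exact (D.double j).comm y
  rw [h]

theorem add_sigma_form {i j : Fin m} (hij : i ≠ j) {η : (C2 → (X j).Amb) → C2 → ℂ}
    (hη : (X j).IsPluri 1 Set.univ η) (f : C2 → S.Amb) (q : C2) (hf : S.PlotAt f q) :
    (D.M j).pullRule η f q + (D.σ i).pullRule ((D.M j).pullRule η) f q = 0 := by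
  obtain ⟨a, ha⟩ := D.span ((D.M j).pullRule η) ((D.M j).isPluri_pull hη)
  have key : ∀ (f : C2 → S.Amb) (q : C2), S.PlotAt f q →
      (D.M j).pullRule η f q = a j * (D.M j).pullRule (D.ω j) f q := by
    intro f q hf
    have h1 := ha f q hf
    have h2 := ha _ q ((D.σ j).plot hf)
    have h3 : (D.M j).pullRule η (fun z => (D.σ j).P (f z)) q = (D.M j).pullRule η f q := by
      show η (fun z => (D.M j).P ((D.σ j).P (f z))) q = η (fun z => (D.M j).P (f z)) q
      simp only [D.comm_cone]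
    have h4 : (D.M j).pullRule (D.ω j) (fun z => (D.σ j).P (f z)) q =
        (D.M j).pullRule (D.ω j) f q := by
      show D.ω j (fun z => (D.M j).P ((D.σ j).P (f z))) q = D.ω j (fun z => (D.M j).P (f z)) q
      simp only [D.comm_cone]
    have h5 : ∀ k, k ≠ j → (D.M k).pullRule (D.ω k) (fun z => (D.σ j).P (f z)) q =
        - (D.M k).pullRule (D.ω k) f q := fun k hk => D.sign j k hk.symm f q hf
    rw [h3] at h2
    rw [← Finset.add_sum_erase _ _ (Finset.mem_univ j)] at h1 h2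
    rw [h4] at h2
    have h6 : ∑ k ∈ Finset.univ.erase j, a k * (D.M k).pullRule (D.ω k)
        (fun z => (D.σ j).P (f z)) q =
        - ∑ k ∈ Finset.univ.erase j, a k * (D.M k).pullRule (D.ω k) f q := by
      rw [← Finset.sum_neg_distrib]
      refine Finset.sum_congr rfl fun k hk => ?_
      rw [h5 k (Finset.ne_of_mem_erase hk), mul_neg]
    rw [h6] at h2
    linear_combination (1 / 2) * h1 + (1 / 2) * h2
  have h7 := key f q hf
  have h8 : (D.σ i).pullRule ((D.M j).pullRule η) f q =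
      a j * (D.σ i).pullRule ((D.M j).pullRule (D.ω j)) f q := key _ q ((D.σ i).plot hf)
  rw [h7, h8, D.sign i j hij f q hf]
  ring

theorem add_sigma_F2 {i j : Fin m} (hij : i ≠ j) {ξ : H2 (X j).Pt ℂ ℂ} (hξ : ξ ∈ (X j).F2) :
    D.pl ℂ ℂ j ξ + D.sg ℂ ℂ i (D.pl ℂ ℂ j ξ) = 0 := by
  obtain ⟨c, hc, rfl⟩ := hξ
  obtain ⟨η, hη, hz⟩ := Surf.exists_zig (X := X j) (c := c.1) hc
  have h1 := (D.M j).zig_pull hz
  have h2 := (D.σ i).zig_pull h1
  have h3 := Surf.Zig.mem_B2 (h1.add h2) (fun f q hf => D.add_sigma_form hij hη f q hf)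
  exact (Submodule.Quotient.mk_eq_zero _).2 h3

theorem F2_span {ξ : H2 S.Pt ℂ ℂ} (hξ : ξ ∈ S.F2) :
    ∃ x : (j : Fin m) → H2 (X j).Pt ℂ ℂ, (∀ j, x j ∈ (X j).F2) ∧ ξ = ∑ j, D.pl ℂ ℂ j (x j) := by
  obtain ⟨c, hc, rfl⟩ := hξ
  obtain ⟨η, hη, hz⟩ := Surf.exists_zig (X := S) (c := c.1) hc
  obtain ⟨a, ha⟩ := D.span η hη
  choose cc hcc hzz using fun j => Surf.exists_cocycle (D.isPluri j)
  refine ⟨fun j => a j • Submodule.Quotient.mk ⟨cc j, hcc j⟩, fun j => ?_, ?_⟩
  · refine Submodule.smul_mem _ _ ?_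
    exact ⟨⟨cc j, hcc j⟩, (hzz j).mem_F2c, rfl⟩
  · have h1 : ∀ s : Finset (Fin m), S.Zig (∑ j ∈ s, a j • pullC (D.M j).toPt (cc j))
        (∑ j ∈ s, a j • (D.M j).pullRule (D.ω j)) := by
      intro s
      induction s using Finset.induction_on with
      | empty =>
        have h2 := hz.smul 0
        rw [zero_smul, zero_smul] at h2
        simpa using h2
      | insert j s hj ih =>
        rw [Finset.sum_insert hj, Finset.sum_insert hj]
        exact (((D.M j).zig_pull (hzz j)).smul (a j)).add ih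
    have h2 := hz.add ((h1 Finset.univ).smul (-1))
    have h3 := Surf.Zig.mem_B2 h2 (fun f q hf => by
      have h4 := ha f q hf
      simp only [Pi.add_apply, Pi.smul_apply, Finset.sum_apply, smul_eq_mul]
      rw [h4]
      ring)
    have h5 : (Submodule.Quotient.mk c : H2 S.Pt ℂ ℂ) - ∑ j, D.pl ℂ ℂ j
        (a j • Submodule.Quotient.mk ⟨cc j, hcc j⟩) = 0 := by
      have h6 : ∀ j, D.pl ℂ ℂ j (a j • Submodule.Quotient.mk ⟨cc j, hcc j⟩) =
          Submodule.Quotient.mk (a j • (⟨pullC (D.M j).toPt (cc j),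
            pullC_mem_Z2 ℂ ℂ (D.M j).toPt.continuous (hcc j)⟩ : Z2 S.Pt ℂ ℂ)) := by
        intro j
        rw [map_smul]
        rfl
      simp only [h6]
      have h7 : ∑ j, (Submodule.Quotient.mk (a j • (⟨pullC (D.M j).toPt (cc j),
            pullC_mem_Z2 ℂ ℂ (D.M j).toPt.continuous (hcc j)⟩ : Z2 S.Pt ℂ ℂ)) : H2 S.Pt ℂ ℂ) =
          Submodule.Quotient.mk (∑ j, a j • (⟨pullC (D.M j).toPt (cc j),
            pullC_mem_Z2 ℂ ℂ (D.M j).toPt.continuous (hcc j)⟩ : Z2 S.Pt ℂ ℂ)) :=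
        (map_sum (Submodule.mkQ ((B2 S.Pt ℂ ℂ).comap (Z2 S.Pt ℂ ℂ).subtype)) _ _).symm
      rw [h7, ← Submodule.Quotient.mk_sub]
      refine (Submodule.Quotient.mk_eq_zero _).2 ?_
      rw [Submodule.mem_comap]
      have h8 : (Z2 S.Pt ℂ ℂ).subtype (c - ∑ j, a j • (⟨pullC (D.M j).toPt (cc j),
            pullC_mem_Z2 ℂ ℂ (D.M j).toPt.continuous (hcc j)⟩ : Z2 S.Pt ℂ ℂ)) =
          c.1 + (-1 : ℂ) • ∑ j, a j • pullC (D.M j).toPt (cc j) := by
        rw [map_sub, map_sum, neg_one_smul, ← sub_eq_add_neg]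
        rfl
      rw [h8]
      exact h3
    exact sub_eq_zero.1 h5

end SplitData

end Pool.Agent.K3Pieces
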