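import Pool.Agent.Lib.MP_3004b3_ag.J0

/-!
# JOB J2: the isomorphism of the transcendental parts

* `pl_mem_T`: `T_eq_span` for `X j`, `coef_pull`, `F2_pull`, `coef_mem_T`, span induction.
* `add_sigma_T`: for `t ∈ T (X j)`, `i ≠ j`: `π_j^* t + s_i^* π_j^* t = 0`: for `t = coef p ξ`,
  `ξ ∈ F2 (X j)`: apply `coef p` to `add_sigma_F2` (`coef_pull`); span induction.
* `phi`: the linear map `(t_j) ↦ ∑ π_j^* t_j`.
* Injective: let `∑ π_j^* t_j = 0`. Apply `id + s_i^*`: only `2 π_i^* t_i = 0` remains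
  (`sigma_pull_self`, `add_sigma_T`). So `π_i^* t_i = 0` (a `ℚ`-vector space), `t_i = 0` by
  `pull_injective` (with `half = 1/2`).
* Surjective: `T_eq_span` for `S`: for `coef p ξ`, `ξ ∈ F2 S`, use `F2_span` and `coef_pull`,
  `coef_mem_T`.
-/

set_option autoImplicit false

namespace Pool.Agent.K3Pieces

open scoped Topology TensorProduct

namespace SplitData

variable {S : Surf} {m : ℕ} {X : Fin m → Surf} (D : SplitData S X)

theorem pl_mem_T (j : Fin m) {t : H2 (X j).Pt ℚ ℚ} (ht : t ∈ (X j).T) :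
    D.pl ℚ ℚ j t ∈ S.T := by
  rw [(X j).T_eq_span] at ht
  induction ht using Submodule.span_induction with
  | mem v hv =>
    obtain ⟨ξ, hξ, p, rfl⟩ := hv
    have h1 : D.pl ℚ ℚ j (coef p ξ) = coef p (pull ℂ ℂ (D.M j).toPt ξ) :=
      (coef_pull p (D.M j).toPt ξ).symm
    rw [h1]
    exact S.coef_mem_T ((D.M j).F2_pull hξ) p
  | zero =>
    rw [map_zero]
    exact Submodule.zero_mem _
  | add x y _ _ hx hy =>
    rw [map_add]
    exact Submodule.add_mem _ hx hy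
  | smul a x _ hx =>
    rw [map_smul]
    exact Submodule.smul_mem _ _ hx

theorem add_sigma_T {i j : Fin m} (hij : i ≠ j) {t : H2 (X j).Pt ℚ ℚ} (ht : t ∈ (X j).T) :
    D.pl ℚ ℚ j t + D.sg ℚ ℚ i (D.pl ℚ ℚ j t) = 0 := by
  rw [(X j).T_eq_span] at ht
  induction ht using Submodule.span_induction with
  | mem v hv =>
    obtain ⟨ξ, hξ, p, rfl⟩ := hv
    have h1 : D.pl ℚ ℚ j (coef p ξ) = coef p (pull ℂ ℂ (D.M j).toPt ξ) :=
      (coef_pull p (D.M j).toPt ξ).symm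
    have h2 : D.sg ℚ ℚ i (coef p (pull ℂ ℂ (D.M j).toPt ξ)) =
        coef p (pull ℂ ℂ (D.σ i).toPt (pull ℂ ℂ (D.M j).toPt ξ)) :=
      (coef_pull p (D.σ i).toPt _).symm
    rw [h1, h2, ← map_add]
    have h3 := D.add_sigma_F2 hij hξ
    have h4 : (pull ℂ ℂ (D.M j).toPt ξ + pull ℂ ℂ (D.σ i).toPt (pull ℂ ℂ (D.M j).toPt ξ)) = 0 := h3
    rw [h4, map_zero]
  | zero =>
    simp only [map_zero, add_zero]
  | add x y _ _ hx hy =>
    rw [map_add, map_add, add_add_add_comm, hx, hy, add_zero]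
  | smul a x _ hx =>
    rw [map_smul, map_smul, ← smul_add, hx, smul_zero]

/-- The map `⊕ H²_tr(X j) → H²_tr(S)`. -/
noncomputable def phi : ((j : Fin m) → (X j).T) →ₗ[ℚ] S.T where
  toFun t := ⟨∑ j, D.pl ℚ ℚ j (t j).1, Submodule.sum_mem _ fun j _ => D.pl_mem_T j (t j).2⟩
  map_add' s t := by
    ext
    simp [Finset.sum_add_distrib]
  map_smul' r t := by
    ext
    simp [Finset.smul_sum]

theorem phi_injective : Function.Injective D.phi := by
  intro s t hst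
  have hst' : ∑ j : Fin m, D.pl ℚ ℚ j (s j).1 = ∑ j : Fin m, D.pl ℚ ℚ j (t j).1 :=
    congrArg Subtype.val hst
  have h0 : ∑ j : Fin m, D.pl ℚ ℚ j ((s j).1 - (t j).1) = 0 := by
    have h01 : ∀ j : Fin m, D.pl ℚ ℚ j ((s j).1 - (t j).1) =
        D.pl ℚ ℚ j (s j).1 - D.pl ℚ ℚ j (t j).1 := fun j => map_sub _ _ _
    simp only [h01]
    rw [Finset.sum_sub_distrib, hst', sub_self]
  have hu : ∀ j : Fin m, (s j).1 - (t j).1 ∈ (X j).T := fun j =>
    Submodule.sub_mem _ (s j).2 (t j).2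
  funext i
  have h1 : ∑ j : Fin m, (D.pl ℚ ℚ j ((s j).1 - (t j).1) +
      D.sg ℚ ℚ i (D.pl ℚ ℚ j ((s j).1 - (t j).1))) = 0 := by
    rw [Finset.sum_add_distrib, ← map_sum, h0, map_zero, add_zero]
  have h2 : ∑ j : Fin m, (D.pl ℚ ℚ j ((s j).1 - (t j).1) +
      D.sg ℚ ℚ i (D.pl ℚ ℚ j ((s j).1 - (t j).1))) =
      D.pl ℚ ℚ i ((s i).1 - (t i).1) + D.sg ℚ ℚ i (D.pl ℚ ℚ i ((s i).1 - (t i).1)) := by
    refine Finset.sum_eq_single i (fun j _ hj => ?_) (fun h => absurd (Finset.mem_univ i) h)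
    exact D.add_sigma_T (Ne.symm hj) (hu j)
  rw [h2, D.sigma_pull_self ℚ ℚ i ((s i).1 - (t i).1)] at h1
  have h3 : D.pl ℚ ℚ i ((s i).1 - (t i).1) = 0 := by
    have h4 : (2 : ℚ) • D.pl ℚ ℚ i ((s i).1 - (t i).1) = 0 := by
      rw [two_smul]
      exact h1
    rcases smul_eq_zero.1 h4 with h5 | h5
    · norm_num at h5
    · exact h5
  have h6 : (s i).1 - (t i).1 = 0 :=
    pull_injective (R := ℚ) (A := ℚ) (1 / 2) (by norm_num) (D.double i) _ h3
  exact Subtype.ext (sub_eq_zero.1 h6)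

theorem phi_surjective : Function.Surjective D.phi := by
  have key : S.T ≤ Submodule.map S.T.subtype (LinearMap.range D.phi) := by
    conv_lhs => rw [S.T_eq_span]
    rw [Submodule.span_le]
    rintro v ⟨ξ, hξ, p, rfl⟩
    obtain ⟨x, hx, hxs⟩ := D.F2_span hξ
    have h1 : coef p ξ = ∑ j : Fin m, D.pl ℚ ℚ j (coef p (x j)) := by
      rw [hxs, map_sum]
      refine Finset.sum_congr rfl fun j _ => ?_
      exact coef_pull p (D.M j).toPt (x j)
    refine ⟨D.phi fun j => ⟨coef p (x j), (X j).coef_mem_T (hx j) p⟩, ⟨_, rfl⟩, ?_⟩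
    exact h1.symm
  rintro ⟨v, hv⟩
  obtain ⟨w, ⟨t, rfl⟩, hw⟩ := key hv
  exact ⟨t, Subtype.ext hw⟩

end SplitData

end Pool.Agent.K3Pieces
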