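import Pool.Agent.Lib.MP_3004b3_ag.J2

/-!
# JOB J3: the Hodge filtration

Let `τ ∈ ℂ ⊗ ∏ T (X j)` and `x_j = Tmap (baseChange (proj j) τ) ∈ H²(X j, ℂ)`.

* `Tmap_phi`: `S.Tmap (baseChange phi τ) = ∑ π_j^* x_j`: both sides are additive (`ℂ`-linear) in `τ`; for
  `τ = a ⊗ t`: `a • toC (∑ π_j^* t_j) = ∑ π_j^* (a • toC t_j)` by `toC_pull`.
  (`TensorProduct.induction_on`, `LinearMap.baseChange_tmul`, `LinearMap.liftBaseChange_tmul`.)
* `Tmap_mem_span`: `X.Tmap τ ∈ span_ℂ (toC '' T)`.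
* `add_sigma_span`: `id + s_i^*` kills `π_j^* ξ` for `ξ ∈ span_ℂ (toC '' T (X j))`, `i ≠ j`
  (`add_sigma_T`, `toC_pull`, span induction).
* `split_mem`: let `N ⊆ H²(S, ℂ)` be a submodule with `s_i^* N ⊆ N` and `x_j ∈ span_ℂ (toC '' T (X j))`
  with `∑ π_j^* x_j ∈ N`. Then `π_i^* x_i ∈ N` for all `i`: apply `id + s_i^*`, which gives
  `2 π_i^* x_i`.
* `phi_TF1`, `phi_TF2`: `⇐` by `F1_pull`, `F2_pull`. `⇒` for `F1`: `split_mem` with `N = S.F1`
  (stable by `F1_pull` for `σ i`), then `Mor.mem_F1_of_pull`. `⇒` for `F2`: `split_mem` gives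
  `π_i^* x_i ∈ S.F2`; by `F2_span` `π_i^* x_i = ∑ π_k^* y_k`, `y_k ∈ F2 (X k) ⊆ span` (`F2_le_span`);
  apply `id + s_i^*`: `2 π_i^* x_i = 2 π_i^* y_i`, so `x_i = y_i` by `pull_injective` over `ℂ`.
-/

set_option autoImplicit false

namespace Pool.Agent.K3Pieces

open scoped Topology TensorProduct

namespace SplitData

variable {S : Surf} {m : ℕ} {X : Fin m → Surf} (D : SplitData S X)

theorem Tmap_phi (τ : ℂ ⊗[ℚ] ((j : Fin m) → (X j).T)) :
    S.Tmap (D.phi.baseChange ℂ τ) = ∑ j, D.pl ℂ ℂ j ((X j).Tmap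
      ((LinearMap.proj j : ((j : Fin m) → (X j).T) →ₗ[ℚ] (X j).T).baseChange ℂ τ)) := by
  induction τ using TensorProduct.induction_on with
  | zero => simp
  | tmul a t =>
    rw [LinearMap.baseChange_tmul]
    unfold Surf.Tmap
    rw [LinearMap.liftBaseChange_tmul]
    have h1 : ((toC S.Pt).comp S.T.subtype) (D.phi t) = ∑ j, toC S.Pt (D.pl ℚ ℚ j (t j).1) := by
      rw [← map_sum]
      rfl
    rw [h1, Finset.smul_sum]
    refine Finset.sum_congr rfl fun j _ => ?_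
    rw [LinearMap.baseChange_tmul, LinearMap.liftBaseChange_tmul, map_smul]
    congr 1
    exact toC_pull (D.M j).toPt (t j).1
  | add τ τ' h h' =>
    rw [map_add, map_add, h, h', ← Finset.sum_add_distrib]
    refine Finset.sum_congr rfl fun j _ => ?_
    rw [map_add, map_add, map_add]

theorem Tmap_mem_span (Y : Surf) (τ : ℂ ⊗[ℚ] Y.T) :
    Y.Tmap τ ∈ Submodule.span ℂ ((toC Y.Pt) '' (Y.T : Set (H2 Y.Pt ℚ ℚ))) := by
  induction τ using TensorProduct.induction_on with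
  | zero =>
    rw [map_zero]
    exact Submodule.zero_mem _
  | tmul a t =>
    unfold Surf.Tmap
    rw [LinearMap.liftBaseChange_tmul]
    exact Submodule.smul_mem _ _ (Submodule.subset_span ⟨t.1, t.2, rfl⟩)
  | add τ τ' h h' =>
    rw [map_add]
    exact Submodule.add_mem _ h h'

theorem add_sigma_span {i j : Fin m} (hij : i ≠ j) {ξ : H2 (X j).Pt ℂ ℂ}
    (hξ : ξ ∈ Submodule.span ℂ ((toC (X j).Pt) '' ((X j).T : Set (H2 (X j).Pt ℚ ℚ)))) :
    D.pl ℂ ℂ j ξ + D.sg ℂ ℂ i (D.pl ℂ ℂ j ξ) = 0 := by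
  induction hξ using Submodule.span_induction with
  | mem v hv =>
    obtain ⟨t, ht, rfl⟩ := hv
    have h1 := D.add_sigma_T hij ht
    have h2 := congrArg (toC S.Pt) h1
    rw [map_add, map_zero] at h2
    have h3 : toC S.Pt (D.pl ℚ ℚ j t) = D.pl ℂ ℂ j (toC (X j).Pt t) := toC_pull (D.M j).toPt t
    have h4 : toC S.Pt (D.sg ℚ ℚ i (D.pl ℚ ℚ j t)) = D.sg ℂ ℂ i (D.pl ℂ ℂ j (toC (X j).Pt t)) := by
      rw [← h3]
      exact toC_pull (D.σ i).toPt (D.pl ℚ ℚ j t)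
    rw [h3, h4] at h2
    exact h2
  | zero => simp
  | add v w _ _ hv hw =>
    rw [map_add, map_add, add_add_add_comm, hv, hw, add_zero]
  | smul a v _ hv =>
    rw [map_smul, map_smul, ← smul_add, hv, smul_zero]

theorem j3_add_sigma (i : Fin m) {x : (j : Fin m) → H2 (X j).Pt ℂ ℂ}
    (hx : ∀ j, x j ∈ Submodule.span ℂ ((toC (X j).Pt) '' ((X j).T : Set (H2 (X j).Pt ℚ ℚ)))) :
    (∑ j, D.pl ℂ ℂ j (x j)) + D.sg ℂ ℂ i (∑ j, D.pl ℂ ℂ j (x j)) =
      (2 : ℂ) • D.pl ℂ ℂ i (x i) := by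
  rw [map_sum, ← Finset.sum_add_distrib, Finset.sum_eq_single i]
  · rw [D.sigma_pull_self, two_smul]
  · intro j _ hj
    exact D.add_sigma_span (Ne.symm hj) (hx j)
  · intro h
    exact absurd (Finset.mem_univ i) h

theorem split_mem (N : Submodule ℂ (H2 S.Pt ℂ ℂ))
    (hN : ∀ i, ∀ ξ ∈ N, D.sg ℂ ℂ i ξ ∈ N) {x : (j : Fin m) → H2 (X j).Pt ℂ ℂ}
    (hx : ∀ j, x j ∈ Submodule.span ℂ ((toC (X j).Pt) '' ((X j).T : Set (H2 (X j).Pt ℚ ℚ))))
    (h : ∑ j, D.pl ℂ ℂ j (x j) ∈ N) (i : Fin m) : D.pl ℂ ℂ i (x i) ∈ N := by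
  have h1 : (2 : ℂ) • D.pl ℂ ℂ i (x i) ∈ N := by
    rw [← D.j3_add_sigma i hx]
    exact Submodule.add_mem _ h (hN i _ h)
  have h2 := Submodule.smul_mem N (2 : ℂ)⁻¹ h1
  rwa [smul_smul, inv_mul_cancel₀ (by norm_num : (2 : ℂ) ≠ 0), one_smul] at h2

theorem phi_TF1 (τ : ℂ ⊗[ℚ] ((j : Fin m) → (X j).T)) :
    D.phi.baseChange ℂ τ ∈ S.TF1 ↔
      ∀ j, (LinearMap.proj j : ((j : Fin m) → (X j).T) →ₗ[ℚ] (X j).T).baseChange ℂ τ ∈
        (X j).TF1 := by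
  unfold Surf.TF1
  rw [Submodule.mem_comap, D.Tmap_phi]
  constructor
  · intro h j
    rw [Submodule.mem_comap]
    have h1 := D.split_mem S.F1 (fun i ξ hξ => (D.σ i).F1_pull hξ)
      (fun j => Tmap_mem_span (X j) _) h j
    exact (D.M j).mem_F1_of_pull (D.σ j) (D.double j) (D.lifts j) _ h1
  · intro h
    exact Submodule.sum_mem _ fun j _ => (D.M j).F1_pull (Submodule.mem_comap.1 (h j))

theorem phi_TF2 (τ : ℂ ⊗[ℚ] ((j : Fin m) → (X j).T)) :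
    D.phi.baseChange ℂ τ ∈ S.TF2 ↔
      ∀ j, (LinearMap.proj j : ((j : Fin m) → (X j).T) →ₗ[ℚ] (X j).T).baseChange ℂ τ ∈
        (X j).TF2 := by
  unfold Surf.TF2
  rw [Submodule.mem_comap, D.Tmap_phi]
  constructor
  · intro h j
    rw [Submodule.mem_comap]
    have h1 := D.split_mem S.F2 (fun i ξ hξ => (D.σ i).F2_pull hξ)
      (fun j => Tmap_mem_span (X j) _) h j
    obtain ⟨y, hy, h2⟩ := D.F2_span h1
    have h3 := D.j3_add_sigma j (fun k => (X k).F2_le_span (hy k))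
    rw [← h2, D.sigma_pull_self, ← two_smul ℂ] at h3
    have h4 := congrArg (fun v => (2 : ℂ)⁻¹ • v) h3
    simp only [smul_smul, inv_mul_cancel₀ (by norm_num : (2 : ℂ) ≠ 0), one_smul] at h4
    have h5 := pull_injective (R := ℂ) (A := ℂ) (1 / 2) (by norm_num) (D.double j)
      ((X j).Tmap ((LinearMap.proj j : ((j : Fin m) → (X j).T) →ₗ[ℚ] (X j).T).baseChange ℂ τ) - y j)
      (by
        rw [map_sub, sub_eq_zero]
        exact h4)
    rw [sub_eq_zero] at h5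
    rw [h5]
    exact hy j
  · intro h
    exact Submodule.sum_mem _ fun j _ => (D.M j).F2_pull (Submodule.mem_comap.1 (h j))

end SplitData

/-- The splitting theorem. -/
theorem trSplits_of_splitData {S : Surf} {m : ℕ} {X : Fin m → Surf} (D : SplitData S X) :
    TrSplits S X :=
  ⟨LinearEquiv.ofBijective D.phi ⟨D.phi_injective, D.phi_surjective⟩,
    fun τ => ⟨D.phi_TF1 τ, D.phi_TF2 τ⟩⟩

end Pool.Agent.K3Pieces
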