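import Pool.Agent.Lib.MP_3004b3_ag.A0

/-!
# The Horikawa surface and its double planes: equations (definitions and first lemmas)

`S`: `x_0² + x_1² + x_2² + x_3² = 0`, `z² = 9 x_0⁶ + 16 x_1⁶ + 25 x_2⁶ + 81 x_3⁶` in
`ℙ(1, 1, 1, 1, 3)`. In terms of `y_i = x_i²`: a `(ℤ/2)⁴`-covering of the plane `∑ y_i = 0`, branched
along the four lines `y_i = 0` and the cubic `Fc y = 0`.
-/

set_option autoImplicit false

namespace Pool.Agent.K3Pieces

open scoped Topology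

/-- The coefficients of the cubic. -/
def lam : Fin 4 → ℂ := ![9, 16, 25, 81]

/-- The weights. -/
def wS : Fin 5 → ℕ := ![1, 1, 1, 1, 3]

/-- The quadric. -/
noncomputable def eqQ : MvPolynomial (Fin 5) ℂ := ∑ i : Fin 4, MvPolynomial.X i.castSucc ^ 2

/-- The second equation. -/
noncomputable def eqP : MvPolynomial (Fin 5) ℂ :=
  MvPolynomial.X (Fin.last 4) ^ 2 -
    ∑ i : Fin 4, MvPolynomial.C (lam i) * MvPolynomial.X i.castSucc ^ 6

/-- The equations of the surface. -/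
def eqsS : Set (MvPolynomial (Fin 5) ℂ) := {eqQ, eqP}

/-- The punctured cone. -/
def SC : Set (Fin 5 → ℂ) := coneOf eqsS

/-- The squares of the first four coordinates. -/
def sqv (v : Fin 5 → ℂ) : Fin 4 → ℂ := fun i => v i.castSucc ^ 2

/-- The cubic form. -/
def Fc (y : Fin 4 → ℂ) : ℂ := ∑ i, lam i * y i ^ 3

/-- The five branch functions: the coordinates `y_i` and the cubic. -/
def Br (y : Fin 4 → ℂ) : Fin 5 → ℂ := Fin.snoc (α := fun _ => ℂ) y (Fc y)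

/-- The plane `∑ y_i = 0`. -/
def Pi0 (y : Fin 4 → ℂ) : Prop := ∑ i, y i = 0

theorem Br_castSucc (y : Fin 4 → ℂ) (i : Fin 4) : Br y i.castSucc = y i :=
  Fin.snoc_castSucc (α := fun _ => ℂ) _ _ _

theorem Br_last (y : Fin 4 → ℂ) : Br y (Fin.last 4) = Fc y :=
  Fin.snoc_last (α := fun _ => ℂ) _ _

theorem mem_SC {v : Fin 5 → ℂ} :
    v ∈ SC ↔ v ≠ 0 ∧ Pi0 (sqv v) ∧ v (Fin.last 4) ^ 2 = Fc (sqv v) := by
  simp only [SC, coneOf, eqsS, Set.mem_insert_iff, Set.mem_singleton_iff, Set.mem_ofPred_eq,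
    forall_eq_or_imp, forall_eq, eqQ, eqP, Pi0, Fc, sqv, map_sub, map_sum, map_mul, map_pow,
    MvPolynomial.eval_X, MvPolynomial.eval_C, sub_eq_zero, ← pow_mul]

theorem sq_eq_Br {v : Fin 5 → ℂ} (hv : v ∈ SC) (k : Fin 5) : v k ^ 2 = Br (sqv v) k := by
  refine Fin.lastCases ?_ (fun i => ?_) k
  · rw [Br_last]; exact (mem_SC.1 hv).2.2
  · rw [Br_castSucc]; rfl

/-- Conversely. -/
theorem mem_SC_of_sq {v : Fin 5 → ℂ} {y : Fin 4 → ℂ} (hy : Pi0 y) (hy0 : y ≠ 0)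
    (h : ∀ k, v k ^ 2 = Br y k) : v ∈ SC ∧ sqv v = y := by
  have h1 : sqv v = y := by
    funext i
    have := h i.castSucc
    rw [Br_castSucc] at this
    exact this
  refine ⟨mem_SC.2 ⟨?_, by rw [h1]; exact hy, ?_⟩, h1⟩
  · rintro rfl
    apply hy0
    rw [← h1]
    funext i
    simp [sqv]
  · rw [h1, ← Br_last]
    exact h _

/-- The part of the cone where all coordinates are nonzero. -/
def SC0 : Set (Fin 5 → ℂ) := {v | v ∈ SC ∧ ∀ k, v k ≠ 0}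

/-- Change the signs of the coordinates in `E ⊆ {0, 1, 2, 3}`. -/
def flip (E : Finset (Fin 4)) (v : Fin 5 → ℂ) : Fin 5 → ℂ :=
  Fin.snoc (α := fun _ => ℂ) (fun i : Fin 4 => if i ∈ E then - v i.castSucc else v i.castSucc)
    (v (Fin.last 4))

/-- Change the sign of one coordinate. -/
def flip1 (k : Fin 5) (v : Fin 5 → ℂ) : Fin 5 → ℂ := Function.update v k (- v k)

/-- Functions on `SC0` which are holomorphic along holomorphic arcs. -/
def ArcHol (r : (Fin 5 → ℂ) → ℂ) : Prop :=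
  ∀ (γ : ℂ → Fin 5 → ℂ) (s : ℂ), (∀ᶠ t in 𝓝 s, DifferentiableAt ℂ γ t ∧ γ t ∈ SC0) →
    DifferentiableAt ℂ (fun t => r (γ t)) s

/-- Weight `- N`. -/
def HasWt (N : ℕ) (r : (Fin 5 → ℂ) → ℂ) : Prop :=
  ∀ v ∈ SC0, ∀ l : ℂ, l ≠ 0 → l ^ N * r (act wS l v) = r v

/-- At most a pole of order one half along every branch curve (`v m * r v` is bounded near the
points where at most the coordinate `v m` vanishes). -/
def PoleBd (r : (Fin 5 → ℂ) → ℂ) : Prop :=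
  ∀ v0 ∈ SC, ∀ m, (∀ k, k ≠ m → v0 k ≠ 0) → ∃ M : ℝ, ∀ᶠ v in 𝓝 v0, v ∈ SC0 → ‖v m * r v‖ ≤ M

/-- `r` is bounded near the points where at most the coordinate `v m` vanishes. -/
def LocBd (m : Fin 5) (r : (Fin 5 → ℂ) → ℂ) : Prop :=
  ∀ v0 ∈ SC, (∀ k, k ≠ m → v0 k ≠ 0) → ∃ M : ℝ, ∀ᶠ v in 𝓝 v0, v ∈ SC0 → ‖r v‖ ≤ M

/-- Invariance under all sign changes. -/
def SignInv (r : (Fin 5 → ℂ) → ℂ) : Prop := ∀ v ∈ SC0, ∀ k, r (flip1 k v) = r v

end Pool.Agent.K3Pieces
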