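import Pool.Agent.Lib.MP_3004b3_ag.L1

/-!
# JOB K1: the surface `S`: homogeneity, freeness, smoothness, density of `SC0`

* `eqsS_homog`: `eqQ` is weighted homogeneous of degree `2`, `eqP` of degree `6`.
* `SC_free`: some `v i.castSucc ≠ 0` (otherwise `v (last)^2 = 0` too, `v = 0`), of weight one.
* `SC_smooth`: take `Φ u = ![eval u eqQ, eval u eqP]`. Its derivative at `v` is
  `h ↦ ![∑ 2 v_i h_i, 2 v_4 h_4 - ∑ 6 lam i v_i^5 h_i]`. Not surjective means a linear relation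
  `(α, β) ≠ 0` with `α 2 v_i = β 6 lam i v_i^5` for all `i < 4` and `β v_4 = 0`. If `β = 0` then
  `v_i = 0` for all `i`, contradiction. So `v_4 = 0` and `lam i * v_i^5 = c * v_i` with `c = α/(3 β)`, so
  for `v_i ≠ 0`: `lam i * v_i^4 = c`. Let `d^2 = c`. So `ν_i v_i^2 ∈ {d, -d}` with `ν = (3, 4, 5, 9)` or
  `v_i = 0`. As `∑ v_i^2 = 0`: `d * ∑_{i ∈ I} ± 1/ν_i = 0` for the nonempty set `I` of `i` with
  `v_i ≠ 0`; all signed sums over nonempty subsets of `1/3, 1/4, 1/5, 1/9` are nonzero (81 - 1 cases),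
  so `d = 0`, and `v_i = 0` for all `i`, contradiction. Near `v` membership in the cone is `Φ u = 0`
  (`u ≠ 0` near `v`).
* `SC_subset_closure`: let `v ∈ SC`, `y = sqv v ≠ 0`. There is `b` in the plane such that
  `Br (y + t b) k ≠ 0` for all `k` and all small `t ≠ 0`: for instance a `b` with all `Br b k ≠ 0`: then
  the polynomials `t ↦ Br (y + t b) k` are nonzero (leading coefficient `b k`, `Fc b`), so they have
  finitely many zeros. Then `exists_near_lift`. (`b = ![1, 1, 1, -3]`: `Fc b = 50 - 81 * 27 ≠ 0`.)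
* `SC_nonempty`, `SC0_nonempty`: `lft b`.
-/

set_option autoImplicit false

namespace Pool.Agent.K3Pieces

open scoped Topology

/-- the base point -/
noncomputable def k1b : Fin 4 → ℂ := ![1, 1, 1, -3]

theorem k1b_Pi0 : Pi0 k1b := by
  unfold Pi0 k1b
  simp [Fin.sum_univ_four]
  norm_num

theorem k1b_Fc : Fc k1b = -2137 := by
  unfold Fc k1b lam
  simp [Fin.sum_univ_four]
  norm_num

theorem k1b_ne (k : Fin 5) : Br k1b k ≠ 0 := by
  refine Fin.lastCases ?_ (fun i => ?_) k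
  · rw [Br_last, k1b_Fc]
    norm_num
  · rw [Br_castSucc]
    fin_cases i <;> simp [k1b]

theorem k1_sqv_ne {v : Fin 5 → ℂ} (hv : v ∈ SC) : sqv v ≠ 0 := by
  intro h
  obtain ⟨h0, -, h2⟩ := mem_SC.1 hv
  apply h0
  funext k
  refine Fin.lastCases ?_ (fun i => ?_) k
  · rw [h] at h2
    have h3 : Fc 0 = 0 := by simp [Fc]
    rw [h3] at h2
    exact pow_eq_zero_iff (two_ne_zero) |>.1 h2
  · have := congrFun h i
    exact pow_eq_zero_iff (two_ne_zero) |>.1 this

theorem k1_coeff (a b c d : ℂ) : (Polynomial.C a + Polynomial.C b * Polynomial.X +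
    Polynomial.C c * Polynomial.X ^ 2 + Polynomial.C d * Polynomial.X ^ 3).coeff 3 = d := by
  simp

/-- the finitely many bad parameters -/
theorem k1_finite (y : Fin 4 → ℂ) :
    {t : ℂ | ∃ k, Br (fun i => y i + t * k1b i) k = 0}.Finite := by
  have h : {t : ℂ | ∃ k, Br (fun i => y i + t * k1b i) k = 0} =
      ⋃ k, {t : ℂ | Br (fun i => y i + t * k1b i) k = 0} := by
    ext t
    simp
  rw [h]
  refine Set.finite_iUnion fun k => ?_
  refine Fin.lastCases ?_ (fun i => ?_) k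
  · set P : Polynomial ℂ := Polynomial.C (Fc y) +
      Polynomial.C (∑ i, 3 * lam i * y i ^ 2 * k1b i) * Polynomial.X +
      Polynomial.C (∑ i, 3 * lam i * y i * k1b i ^ 2) * Polynomial.X ^ 2 +
      Polynomial.C (Fc k1b) * Polynomial.X ^ 3 with hP
    have hP0 : P ≠ 0 := by
      intro h0
      have h1 : P.coeff 3 = Fc k1b := k1_coeff _ _ _ _
      rw [h0, k1b_Fc] at h1
      norm_num at h1
    refine (Polynomial.finite_setOfPred_isRoot hP0).subset fun t ht => ?_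
    have h2 : Br (fun i => y i + t * k1b i) (Fin.last 4) = 0 := ht
    rw [Br_last] at h2
    show P.eval t = 0
    rw [← h2, hP]
    simp only [Polynomial.eval_add, Polynomial.eval_mul, Polynomial.eval_C, Polynomial.eval_X,
      Polynomial.eval_pow, Fc, Fin.sum_univ_four]
    ring
  · have h1 : k1b i ≠ 0 := by
      have := k1b_ne i.castSucc
      rwa [Br_castSucc] at this
    refine (Set.finite_singleton (- y i / k1b i)).subset fun t ht => ?_
    have h2 : Br (fun i => y i + t * k1b i) i.castSucc = 0 := ht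
    rw [Br_castSucc] at h2
    rw [Set.mem_singleton_iff, eq_div_iff h1]
    linear_combination h2

/-- surjectivity from a nonzero minor -/
theorem k1_surj (A : (Fin 5 → ℂ) →L[ℂ] (Fin 2 → ℂ)) (p q : Fin 5 → ℂ)
    (h : A p 0 * A q 1 - A p 1 * A q 0 ≠ 0) : Function.Surjective A := by
  intro w
  set D := A p 0 * A q 1 - A p 1 * A q 0 with hD
  refine ⟨((w 0 * A q 1 - w 1 * A q 0) / D) • p + ((A p 0 * w 1 - A p 1 * w 0) / D) • q, ?_⟩
  rw [map_add, map_smul, map_smul]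
  funext k
  fin_cases k
  · show (w 0 * A q 1 - w 1 * A q 0) / D * A p 0 + (A p 0 * w 1 - A p 1 * w 0) / D * A q 0 = w 0
    field_simp
    rw [hD]
    ring
  · show (w 0 * A q 1 - w 1 * A q 0) / D * A p 1 + (A p 0 * w 1 - A p 1 * w 0) / D * A q 1 = w 1
    field_simp
    rw [hD]
    ring

/-- the sign cases -/
theorem k1_signs {y : Fin 4 → ℂ} {d : ℂ} (hy : Pi0 y)
    (h : ∀ i, y i = 0 ∨ lam i * y i ^ 2 = d ^ 2) (hd : d ≠ 0) : y = 0 := by
  have h1 : ∀ (ν : ℂ) (i : Fin 4), ν ≠ 0 → ν ^ 2 = lam i → ∃ e : ℤ, (e = 0 ∨ e = 1 ∨ e = -1) ∧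
      ν * y i = e * d := by
    intro ν i hν hl
    rcases h i with h2 | h2
    · exact ⟨0, Or.inl rfl, by rw [h2]; simp⟩
    · have h3 : (ν * y i) ^ 2 = d ^ 2 := by rw [mul_pow, hl, h2]
      rcases sq_eq_sq_iff_eq_or_eq_neg.1 h3 with h4 | h4
      · exact ⟨1, Or.inr (Or.inl rfl), by rw [h4]; simp⟩
      · exact ⟨-1, Or.inr (Or.inr rfl), by rw [h4]; simp⟩
  obtain ⟨e0, he0, h0⟩ := h1 3 0 (by norm_num) (by simp [lam]; norm_num)
  obtain ⟨e1, he1, h1'⟩ := h1 4 1 (by norm_num) (by simp [lam]; norm_num)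
  obtain ⟨e2, he2, h2⟩ := h1 5 2 (by norm_num) (by simp [lam]; norm_num)
  obtain ⟨e3, he3, h3⟩ := h1 9 3 (by norm_num) (by simp [lam]; norm_num)
  have hs : y 0 + y 1 + y 2 + y 3 = 0 := by
    have := hy
    unfold Pi0 at this
    rwa [Fin.sum_univ_four] at this
  have h4 : ((60 * e0 + 45 * e1 + 36 * e2 + 20 * e3 : ℤ) : ℂ) * d = 0 := by
    push_cast
    linear_combination 180 * hs - 60 * h0 - 45 * h1' - 36 * h2 - 20 * h3
  have h5 : 60 * e0 + 45 * e1 + 36 * e2 + 20 * e3 = 0 := by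
    rcases mul_eq_zero.1 h4 with h6 | h6
    · exact_mod_cast h6
    · exact absurd h6 hd
  have h6 : e0 = 0 ∧ e1 = 0 ∧ e2 = 0 ∧ e3 = 0 := by omega
  obtain ⟨rfl, rfl, rfl, rfl⟩ := h6
  have hz : ∀ (ν : ℂ) (i : Fin 4), ν ≠ 0 → ν * y i = ((0 : ℤ) : ℂ) * d → y i = 0 := by
    intro ν i hν hh
    rw [Int.cast_zero, zero_mul] at hh
    exact (mul_eq_zero.1 hh).resolve_left hν
  funext i
  fin_cases i
  · exact hz 3 0 (by norm_num) h0
  · exact hz 4 1 (by norm_num) h1'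
  · exact hz 5 2 (by norm_num) h2
  · exact hz 9 3 (by norm_num) h3

/-- the two equations as a map -/
noncomputable def k1Phi (u : Fin 5 → ℂ) : Fin 2 → ℂ :=
  ![∑ i : Fin 4, u i.castSucc ^ 2, u (Fin.last 4) ^ 2 - ∑ i : Fin 4, lam i * u i.castSucc ^ 6]

theorem k1Phi_diff : Differentiable ℂ k1Phi := by
  rw [differentiable_pi]
  intro k
  fin_cases k
  · show Differentiable ℂ fun u : Fin 5 → ℂ => ∑ i : Fin 4, u i.castSucc ^ 2
    fun_prop
  · show Differentiable ℂ fun u : Fin 5 → ℂ =>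
      u (Fin.last 4) ^ 2 - ∑ i : Fin 4, lam i * u i.castSucc ^ 6
    fun_prop

/-- the derivative of the map in a direction -/
theorem k1Phi_fderiv (v h : Fin 5 → ℂ) :
    fderiv ℂ k1Phi v h 0 = ∑ i : Fin 4, 2 * v i.castSucc * h i.castSucc ∧
    fderiv ℂ k1Phi v h 1 = 2 * v (Fin.last 4) * h (Fin.last 4) -
      ∑ i : Fin 4, 6 * lam i * v i.castSucc ^ 5 * h i.castSucc := by
  have hd : HasDerivAt (fun t : ℂ => v + t • h) h 0 := by
    simpa using ((hasDerivAt_id (0 : ℂ)).smul_const h).const_add v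
  have h1 : HasDerivAt (fun t : ℂ => k1Phi (v + t • h)) (fderiv ℂ k1Phi v h) 0 := by
    have h2 : HasFDerivAt k1Phi (fderiv ℂ k1Phi v) (v + (0 : ℂ) • h) := by
      rw [zero_smul, add_zero]
      exact (k1Phi_diff v).hasFDerivAt
    exact h2.comp_hasDerivAt (0 : ℂ) hd
  have hk : ∀ k, HasDerivAt (fun t : ℂ => v k + t * h k) (h k) 0 := by
    intro k
    simpa using ((hasDerivAt_id (0 : ℂ)).mul_const (h k)).const_add (v k)
  have hp : ∀ k (n : ℕ), HasDerivAt (fun t : ℂ => (v k + t * h k) ^ n)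
      (n * v k ^ (n - 1) * h k) 0 := by
    intro k n
    simpa using (hk k).fun_pow n
  rw [hasDerivAt_pi] at h1
  constructor
  · have h3 := h1 0
    have h4 : HasDerivAt (fun t : ℂ => ∑ i : Fin 4, (v i.castSucc + t * h i.castSucc) ^ 2)
        (∑ i : Fin 4, ((2 : ℕ) : ℂ) * v i.castSucc ^ (2 - 1) * h i.castSucc) 0 :=
      HasDerivAt.fun_sum fun i _ => hp _ 2
    have h5 := HasDerivAt.unique h3 h4
    rw [h5]
    simp
  · have h3 := h1 1
    have h4 : HasDerivAt (fun t : ℂ => (v (Fin.last 4) + t * h (Fin.last 4)) ^ 2 -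
        ∑ i : Fin 4, lam i * (v i.castSucc + t * h i.castSucc) ^ 6)
        (((2 : ℕ) : ℂ) * v (Fin.last 4) ^ (2 - 1) * h (Fin.last 4) -
          ∑ i : Fin 4, lam i * (((6 : ℕ) : ℂ) * v i.castSucc ^ (6 - 1) * h i.castSucc)) 0 :=
      (hp _ 2).sub (HasDerivAt.fun_sum fun i _ => (hp _ 6).const_mul _)
    have h5 := HasDerivAt.unique h3 h4
    rw [h5]
    simp only [Fin.sum_univ_four]
    push_cast
    ring

theorem k1Phi_surj {v : Fin 5 → ℂ} (hv : v ∈ SC) :
    Function.Surjective (fderiv ℂ k1Phi v) := by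
  by_contra hns
  have hm : ∀ p q : Fin 5 → ℂ, fderiv ℂ k1Phi v p 0 * fderiv ℂ k1Phi v q 1 -
      fderiv ℂ k1Phi v p 1 * fderiv ℂ k1Phi v q 0 = 0 := by
    intro p q
    by_contra h
    exact hns (k1_surj _ p q h)
  have hc : ∀ i : Fin 4, fderiv ℂ k1Phi v (Pi.single i.castSucc 1) 0 = 2 * v i.castSucc ∧
      fderiv ℂ k1Phi v (Pi.single i.castSucc 1) 1 = - (6 * lam i * v i.castSucc ^ 5) := by
    intro i
    obtain ⟨h1, h2⟩ := k1Phi_fderiv v (Pi.single i.castSucc 1)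
    rw [h1, h2]
    have h3 : ∀ j : Fin 4, (Pi.single (i.castSucc) (1 : ℂ) : Fin 5 → ℂ) j.castSucc =
        if j = i then 1 else 0 := by
      intro j
      rw [Pi.single_apply]
      simp [Fin.castSucc_inj]
    have h4 : (Pi.single (i.castSucc) (1 : ℂ) : Fin 5 → ℂ) (Fin.last 4) = 0 := by
      rw [Pi.single_apply, if_neg (Fin.castSucc_lt_last i).ne']
    simp only [h3, h4]
    constructor
    · simp
    · simp
  have hl : fderiv ℂ k1Phi v (Pi.single (Fin.last 4) 1) 0 = 0 ∧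
      fderiv ℂ k1Phi v (Pi.single (Fin.last 4) 1) 1 = 2 * v (Fin.last 4) := by
    obtain ⟨h1, h2⟩ := k1Phi_fderiv v (Pi.single (Fin.last 4) 1)
    rw [h1, h2]
    have h3 : ∀ j : Fin 4, (Pi.single (Fin.last 4) (1 : ℂ) : Fin 5 → ℂ) j.castSucc = 0 := by
      intro j
      rw [Pi.single_apply, if_neg (Fin.castSucc_lt_last j).ne]
    simp only [h3]
    constructor
    · simp
    · rw [Pi.single_eq_same]
      simp
  have hy := k1_sqv_ne hv
  obtain ⟨-, hP, hF⟩ := mem_SC.1 hv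
  have h0 : ∃ i0 : Fin 4, v i0.castSucc ≠ 0 := by
    by_contra h
    push Not at h
    apply hy
    funext i
    simp [sqv, h i]
  obtain ⟨i0, hi0⟩ := h0
  set d : ℂ := (![3, 4, 5, 9] : Fin 4 → ℂ) i0 * v i0.castSucc ^ 2 with hd
  have hν : (![3, 4, 5, 9] : Fin 4 → ℂ) i0 ^ 2 = lam i0 ∧ (![3, 4, 5, 9] : Fin 4 → ℂ) i0 ≠ 0 := by
    fin_cases i0 <;> simp [lam] <;> norm_num
  have hd0 : d ≠ 0 := mul_ne_zero hν.2 (pow_ne_zero _ hi0)
  have hd2 : d ^ 2 = lam i0 * v i0.castSucc ^ 4 := by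
    rw [hd, mul_pow, hν.1]
    ring
  apply hy
  refine k1_signs hP (fun i => ?_) hd0
  by_cases hvi : v i.castSucc = 0
  · left
    simp [sqv, hvi]
  · right
    have h1 := hm (Pi.single i.castSucc 1) (Pi.single i0.castSucc 1)
    rw [(hc i).1, (hc i).2, (hc i0).1, (hc i0).2] at h1
    have h2 : (12 * (v i.castSucc * v i0.castSucc)) *
        (lam i * v i.castSucc ^ 4 - lam i0 * v i0.castSucc ^ 4) = 0 := by
      linear_combination h1
    have h3 := (mul_eq_zero.1 h2).resolve_left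
      (mul_ne_zero (by norm_num) (mul_ne_zero hvi hi0))
    rw [hd2]
    simp only [sqv]
    linear_combination h3

theorem eqsS_homog : ∀ F ∈ eqsS, ∃ d, F.IsWeightedHomogeneous wS d := by
  have hw : ∀ i : Fin 4, wS i.castSucc = 1 := by
    intro i
    fin_cases i <;> rfl
  have hX : ∀ i : Fin 4, (MvPolynomial.X i.castSucc : MvPolynomial (Fin 5) ℂ).IsWeightedHomogeneous
      wS 1 := by
    intro i
    have := MvPolynomial.isWeightedHomogeneous_X ℂ wS i.castSucc
    rwa [hw i] at this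
  intro F hF
  rcases hF with rfl | hF
  · refine ⟨2, ?_⟩
    refine MvPolynomial.IsWeightedHomogeneous.sum _ _ _ fun i _ => ?_
    simpa using (hX i).pow 2
  · rw [Set.mem_singleton_iff] at hF
    subst hF
    refine ⟨6, ?_⟩
    have h1 : (MvPolynomial.X (Fin.last 4) ^ 2 : MvPolynomial (Fin 5) ℂ).IsWeightedHomogeneous
        wS 6 := by
      have := (MvPolynomial.isWeightedHomogeneous_X ℂ wS (Fin.last 4)).pow 2
      exact this
    have h2 : (∑ i : Fin 4, MvPolynomial.C (lam i) * MvPolynomial.X i.castSucc ^ 6 :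
        MvPolynomial (Fin 5) ℂ).IsWeightedHomogeneous wS 6 := by
      refine MvPolynomial.IsWeightedHomogeneous.sum _ _ _ fun i _ => ?_
      refine MvPolynomial.IsWeightedHomogeneous.C_mul ?_ _
      simpa using (hX i).pow 6
    exact (MvPolynomial.weightedHomogeneousSubmodule ℂ wS 6).sub_mem h1 h2

theorem SC_free : ∀ v ∈ SC, ∀ l : ℂ, act wS l v = v → l = 1 := by
  intro v hv l hl
  have hy := k1_sqv_ne hv
  have h0 : ∃ i0 : Fin 4, v i0.castSucc ≠ 0 := by
    by_contra h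
    push Not at h
    apply hy
    funext i
    simp [sqv, h i]
  obtain ⟨i, hi⟩ := h0
  have hw : wS i.castSucc = 1 := by
    fin_cases i <;> rfl
  have h1 := congrFun hl i.castSucc
  simp only [act] at h1
  rw [hw, pow_one] at h1
  exact mul_right_cancel₀ hi (by rw [h1, one_mul])

theorem SC_smooth : ∀ v ∈ SC, ∃ Φ : (Fin 5 → ℂ) → (Fin 2 → ℂ),
    HolAt Φ v ∧ Function.Surjective (fderiv ℂ Φ v) ∧ ∀ᶠ u in 𝓝 v, u ∈ SC ↔ Φ u = 0 := by
  intro v hv
  refine ⟨k1Phi, Differentiable.holAt k1Phi_diff v, k1Phi_surj hv, ?_⟩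
  have h1 : ∀ᶠ u in 𝓝 v, u ≠ 0 := continuousAt_id.eventually_ne (mem_SC.1 hv).1
  filter_upwards [h1] with u hu
  rw [mem_SC]
  have h2 : ∑ i : Fin 4, lam i * u i.castSucc ^ 6 = Fc (sqv u) := by
    unfold Fc sqv
    refine Finset.sum_congr rfl fun i _ => ?_
    ring
  constructor
  · rintro ⟨-, h3, h4⟩
    funext k
    fin_cases k
    · exact h3
    · show u (Fin.last 4) ^ 2 - ∑ i : Fin 4, lam i * u i.castSucc ^ 6 = 0
      rw [h2, h4, sub_self]
  · intro h3
    refine ⟨hu, ?_, ?_⟩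
    · exact congrFun h3 0
    · have h4 : u (Fin.last 4) ^ 2 - ∑ i : Fin 4, lam i * u i.castSucc ^ 6 = 0 := congrFun h3 1
      rw [h2] at h4
      exact sub_eq_zero.1 h4

theorem SC0_nonempty : SC0.Nonempty := by
  exact ⟨lft k1b, lft_mem0 k1b_Pi0 k1b_ne⟩

theorem SC_subset_closure : SC ⊆ closure SC0 := by
  intro v hv
  rw [mem_closure_iff_nhds]
  intro N hN
  have h1 := exists_near_lift hv hN
  have hP := (mem_SC.1 hv).2.1
  have hc : Continuous fun t : ℂ => (fun i => sqv v i + t * k1b i : Fin 4 → ℂ) := by fun_prop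
  have h2 : Filter.Tendsto (fun t : ℂ => (fun i => sqv v i + t * k1b i : Fin 4 → ℂ)) (𝓝[≠] 0)
      (𝓝 (sqv v)) := by
    have := (hc.tendsto 0).mono_left (nhdsWithin_le_nhds (s := {0}ᶜ))
    simpa using this
  have h3 : ∀ᶠ t in 𝓝[≠] (0 : ℂ), t ∉ {t : ℂ | ∃ k, Br (fun i => sqv v i + t * k1b i) k = 0} := by
    have hfin := (k1_finite (sqv v)).subset (Set.sdiff_subset (s := {t : ℂ | ∃ k,
      Br (fun i => sqv v i + t * k1b i) k = 0}) (t := {0}))
    have h4 := hfin.isClosed.isOpen_compl.mem_nhds (x := (0 : ℂ)) (by simp)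
    rw [eventually_nhdsWithin_iff]
    filter_upwards [h4] with t ht ht0 ht1
    exact ht ⟨ht1, ht0⟩
  obtain ⟨t, h5, h6⟩ := ((h2.eventually h1).and h3).exists
  have hPt : Pi0 (fun i => sqv v i + t * k1b i) := by
    have hb := k1b_Pi0
    unfold Pi0 at *
    rw [Finset.sum_add_distrib, ← Finset.mul_sum, hb, mul_zero, hP, add_zero]
  obtain ⟨u, huN, huS, huq⟩ := h5 hPt
  refine ⟨u, huN, huS, fun k hk => h6 ⟨k, ?_⟩⟩
  rw [← huq, ← sq_eq_Br huS, hk]
  norm_num

end Pool.Agent.K3Pieces
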