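import Pool.Agent.Lib.MP_3004b3_ag.L4

/-!
# JOB L5: components of functions under the sign changes

* `sum_projJ`: exchange the sums; `∑_J (-1)^|E ∩ J| = 16` for `E = ∅` and `0` otherwise; `flip ∅ v = v`.
  (A finite check: `decide`-type computations over `Finset (Fin 4)`, or
  `Finset.prod_add`-type identity `∑_J ∏_{i ∈ J} x_i = ∏ (1 + x_i)` with `x_i = ± 1`.)
* `projJ_flip1`: for `i : Fin 4`, `flip1 i.castSucc (flip E v) = flip (E ∆ {i}) v`, reindexing the sum
  gives the sign `(-1)^[i ∈ J]`.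
* `projJ_flipz`: `l = -1` in `HasWt D G` with `D` even: `G (act wS (-1) v) = G v`, and `act wS (-1) v` is
  `flip univ` followed by `flip1 (last 4)` (the weights are `1, 1, 1, 1, 3`). So
  `G (flip E (flip1 last v)) = G (flip Eᶜ v)`, and `(-1)^|Eᶜ ∩ J| = (-1)^|J| (-1)^|E ∩ J|`.
* `char_const`: apply `liouville` to
  `r v = projJ J G v * ∏_{k ∈ Jz J \ P} v k * (∏_{k ∈ Jz J ∩ P} v k)⁻¹` with
  `N = D + ∑_{Jz J ∩ P} wS - ∑_{Jz J \ P} wS`. Sign invariance: the two previous items (both factors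
  change by the sign of the product of the coordinates in `Jz J`). `ArcHol`: `flip E ∘ γ` is an arc.
  `PoleBd`: `flip E` is a homeomorphism preserving `SC`, `SC0`, so the bounds for `G` give bounds for
  `projJ J G`: `‖v m * projJ J G v‖ ≤ M` always, and `‖projJ J G v‖ ≤ M` if `m ∈ P`. Near `v0`
  (all `v0 k ≠ 0` for `k ≠ m`) the factors `v k`, `(v k)⁻¹`, `k ≠ m`, are bounded; the factor for
  `k = m` is `v m` (bounded), or `(v m)⁻¹` if `m ∈ Jz J ∩ P`, and then
  `‖v m * r v‖ ≤ ‖projJ J G v‖ * const`. Weight: count.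
-/

set_option autoImplicit false

namespace Pool.Agent.K3Pieces

open scoped Topology

/-- The component of `G` for the character `J`. -/
noncomputable def projJ (J : Finset (Fin 4)) (G : (Fin 5 → ℂ) → ℂ) (v : Fin 5 → ℂ) : ℂ :=
  (1 / 16) * ∑ E : Finset (Fin 4), (-1) ^ (E ∩ J).card * G (flip E v)

/-- The coordinates in which the component `J` is odd. -/
def Jz (J : Finset (Fin 4)) : Finset (Fin 5) :=
  J.map Fin.castSuccEmb ∪ if Odd J.card then {Fin.last 4} else ∅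

theorem l5_flip_castSucc (E : Finset (Fin 4)) (v : Fin 5 → ℂ) (i : Fin 4) :
    flip E v i.castSucc = if i ∈ E then - v i.castSucc else v i.castSucc :=
  Fin.snoc_castSucc (α := fun _ => ℂ) _ _ _

theorem l5_flip_last (E : Finset (Fin 4)) (v : Fin 5 → ℂ) :
    flip E v (Fin.last 4) = v (Fin.last 4) :=
  Fin.snoc_last (α := fun _ => ℂ) _ _

theorem l5_ext {v w : Fin 5 → ℂ} (h : ∀ i : Fin 4, v i.castSucc = w i.castSucc)
    (h' : v (Fin.last 4) = w (Fin.last 4)) : v = w := by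
  funext k
  exact Fin.lastCases h' h k

theorem l5_flip_empty (v : Fin 5 → ℂ) : flip ∅ v = v := by
  refine l5_ext (fun i => ?_) ?_
  · rw [l5_flip_castSucc]; simp
  · rw [l5_flip_last]

theorem l5_char_sum : ∀ E : Finset (Fin 4),
    ∑ J : Finset (Fin 4), (-1 : ℤ) ^ (E ∩ J).card = if E = ∅ then 16 else 0 := by
  decide +kernel

theorem l5_symm : ∀ (J E : Finset (Fin 4)) (i : Fin 4),
    (-1 : ℤ) ^ ((symmDiff E {i}) ∩ J).card = (if i ∈ J then -1 else 1) * (-1) ^ (E ∩ J).card := by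
  decide +kernel

theorem l5_compl : ∀ (J E : Finset (Fin 4)),
    (-1 : ℤ) ^ (Eᶜ ∩ J).card = (-1) ^ J.card * (-1) ^ (E ∩ J).card := by
  decide +kernel

theorem sum_projJ (G : (Fin 5 → ℂ) → ℂ) (v : Fin 5 → ℂ) : ∑ J, projJ J G v = G v := by
  unfold projJ
  rw [← Finset.mul_sum, Finset.sum_comm]
  have h1 : ∀ E : Finset (Fin 4), ∑ J : Finset (Fin 4), (-1 : ℂ) ^ (E ∩ J).card * G (flip E v)
      = if E = ∅ then 16 * G v else 0 := by
    intro E
    rw [← Finset.sum_mul]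
    have h2 : ∑ J : Finset (Fin 4), (-1 : ℂ) ^ (E ∩ J).card
        = ((if E = ∅ then 16 else 0 : ℤ) : ℂ) := by
      rw [← l5_char_sum E]
      push_cast
      rfl
    rw [h2]
    by_cases hE : E = ∅
    · rw [if_pos hE, if_pos hE, hE, l5_flip_empty]
      norm_num
    · rw [if_neg hE, if_neg hE]
      simp
  simp_rw [h1]
  rw [Finset.sum_ite_eq' Finset.univ (∅ : Finset (Fin 4)) (fun _ => 16 * G v)]
  simp only [Finset.mem_univ, if_true]
  ring

theorem l5_flip_flip1 (E : Finset (Fin 4)) (v : Fin 5 → ℂ) (i : Fin 4) :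
    flip E (flip1 i.castSucc v) = flip (symmDiff E {i}) v := by
  refine l5_ext (fun k => ?_) ?_
  · rw [l5_flip_castSucc, l5_flip_castSucc]
    unfold flip1
    by_cases hk : k = i
    · subst hk
      rw [Function.update_self]
      by_cases hE : k ∈ E
      · simp [hE, Finset.mem_symmDiff]
      · simp [hE, Finset.mem_symmDiff]
    · have h1 : k.castSucc ≠ i.castSucc := fun h => hk (Fin.castSucc_injective _ h)
      rw [Function.update_of_ne h1]
      by_cases hE : k ∈ E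
      · simp [hE, hk, Finset.mem_symmDiff]
      · simp [hE, hk, Finset.mem_symmDiff]
  · rw [l5_flip_last, l5_flip_last]
    unfold flip1
    rw [Function.update_of_ne]
    exact (Fin.castSucc_lt_last i).ne'

theorem projJ_flip1 (J : Finset (Fin 4)) (G : (Fin 5 → ℂ) → ℂ) (v : Fin 5 → ℂ) (i : Fin 4) :
    projJ J G (flip1 i.castSucc v) = (if i ∈ J then -1 else 1) * projJ J G v := by
  unfold projJ
  have h1 : ∑ E : Finset (Fin 4), (-1 : ℂ) ^ (E ∩ J).card * G (flip E (flip1 i.castSucc v))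
      = ∑ E : Finset (Fin 4), (-1 : ℂ) ^ ((symmDiff E {i}) ∩ J).card * G (flip E v) := by
    refine Finset.sum_nbij' (fun E => symmDiff E {i}) (fun E => symmDiff E {i})
      (fun _ _ => Finset.mem_univ _) (fun _ _ => Finset.mem_univ _)
      (fun E _ => symmDiff_symmDiff_cancel_right {i} E)
      (fun E _ => symmDiff_symmDiff_cancel_right {i} E) (fun E _ => ?_)
    rw [symmDiff_symmDiff_cancel_right, l5_flip_flip1]
  have h2 : ∀ E : Finset (Fin 4), (-1 : ℂ) ^ ((symmDiff E {i}) ∩ J).card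
      = (if i ∈ J then -1 else 1) * (-1) ^ (E ∩ J).card := by
    intro E
    have h3 := congrArg (fun z : ℤ => (z : ℂ)) (l5_symm J E i)
    push_cast at h3
    exact h3
  rw [h1]
  simp_rw [h2, mul_assoc]
  rw [← Finset.mul_sum]
  ring

theorem l5_act_flip (E : Finset (Fin 4)) (v : Fin 5 → ℂ) :
    act wS (-1) (flip E (flip1 (Fin.last 4) v)) = flip Eᶜ v := by
  refine l5_ext (fun k => ?_) ?_
  · have hw : wS k.castSucc = 1 := by
      fin_cases k <;> rfl
    have h1 : k.castSucc ≠ Fin.last 4 := (Fin.castSucc_lt_last k).ne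
    simp only [act]
    rw [hw, l5_flip_castSucc, l5_flip_castSucc]
    unfold flip1
    rw [Function.update_of_ne h1]
    by_cases hE : k ∈ E
    · simp [hE]
    · simp [hE]
  · have hw : wS (Fin.last 4) = 3 := rfl
    simp only [act]
    rw [hw, l5_flip_last, l5_flip_last]
    unfold flip1
    rw [Function.update_self]
    ring

theorem projJ_flipz (J : Finset (Fin 4)) {G : (Fin 5 → ℂ) → ℂ} {D : ℕ} (hD : Even D)
    (hw : HasWt D G) {v : Fin 5 → ℂ} (hv : v ∈ SC0) :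
    projJ J G (flip1 (Fin.last 4) v) = (-1) ^ J.card * projJ J G v := by
  unfold projJ
  have h0 : ∀ E : Finset (Fin 4), G (flip E (flip1 (Fin.last 4) v)) = G (flip Eᶜ v) := by
    intro E
    have h3 := hw _ (flip_mem (flip1_mem hv (Fin.last 4)).1 E).1 (-1) (by norm_num)
    rw [l5_act_flip, hD.neg_one_pow, one_mul] at h3
    exact h3.symm
  have h1 : ∑ E : Finset (Fin 4), (-1 : ℂ) ^ (E ∩ J).card * G (flip E (flip1 (Fin.last 4) v))
      = ∑ E : Finset (Fin 4), (-1 : ℂ) ^ (Eᶜ ∩ J).card * G (flip E v) := by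
    refine Finset.sum_nbij' (fun E => Eᶜ) (fun E => Eᶜ)
      (fun _ _ => Finset.mem_univ _) (fun _ _ => Finset.mem_univ _)
      (fun E _ => compl_compl E) (fun E _ => compl_compl E) (fun E _ => ?_)
    rw [compl_compl, h0]
  have h2 : ∀ E : Finset (Fin 4), (-1 : ℂ) ^ (Eᶜ ∩ J).card
      = (-1) ^ J.card * (-1) ^ (E ∩ J).card := by
    intro E
    have h3 := congrArg (fun z : ℤ => (z : ℂ)) (l5_compl J E)
    push_cast at h3
    exact h3
  rw [h1]
  simp_rw [h2, mul_assoc]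
  rw [← Finset.mul_sum]
  ring

/-! ### products of coordinates -/

theorem l5_prod_flip1 (S : Finset (Fin 5)) (k : Fin 5) (v : Fin 5 → ℂ) :
    ∏ i ∈ S, flip1 k v i = (if k ∈ S then -1 else 1) * ∏ i ∈ S, v i := by
  have h1 : ∀ i, flip1 k v i = (if i = k then -1 else 1) * v i := by
    intro i
    unfold flip1
    by_cases hi : i = k
    · subst hi; rw [Function.update_self]; simp
    · rw [Function.update_of_ne hi]; simp [hi]
  simp_rw [h1]
  rw [Finset.prod_mul_distrib]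
  congr 1
  rw [Finset.prod_ite_eq' S k (fun _ => (-1 : ℂ))]

theorem l5_prod_act (S : Finset (Fin 5)) (l : ℂ) (v : Fin 5 → ℂ) :
    ∏ i ∈ S, act wS l v i = l ^ (∑ i ∈ S, wS i) * ∏ i ∈ S, v i := by
  simp only [act]
  rw [Finset.prod_mul_distrib, Finset.prod_pow_eq_pow_sum]

theorem l5_mem_Jz_castSucc (J : Finset (Fin 4)) (i : Fin 4) : i.castSucc ∈ Jz J ↔ i ∈ J := by
  unfold Jz
  rw [Finset.mem_union]
  constructor
  · rintro (h | h)
    · rw [Finset.mem_map] at h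
      obtain ⟨j, hj, hj2⟩ := h
      have : j = i := Fin.castSucc_injective _ hj2
      rw [← this]; exact hj
    · exfalso
      by_cases hJ : Odd J.card
      · rw [if_pos hJ, Finset.mem_singleton] at h
        exact (Fin.castSucc_lt_last i).ne h
      · rw [if_neg hJ] at h
        exact (Finset.notMem_empty _ h)
  · intro h
    left
    rw [Finset.mem_map]
    exact ⟨i, h, rfl⟩

theorem l5_mem_Jz_last (J : Finset (Fin 4)) : Fin.last 4 ∈ Jz J ↔ Odd J.card := by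
  unfold Jz
  rw [Finset.mem_union]
  constructor
  · rintro (h | h)
    · rw [Finset.mem_map] at h
      obtain ⟨j, hj, hj2⟩ := h
      exact absurd hj2 (Fin.castSucc_lt_last j).ne
    · by_contra hJ
      rw [if_neg hJ] at h
      exact (Finset.notMem_empty _ h)
  · intro h
    right
    rw [if_pos h]
    exact Finset.mem_singleton_self _

/-- The sign of the component. -/
theorem l5_proj_sign (J : Finset (Fin 4)) {G : (Fin 5 → ℂ) → ℂ} {D : ℕ} (hD : Even D)
    (hw : HasWt D G) {v : Fin 5 → ℂ} (hv : v ∈ SC0) (k : Fin 5) :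
    projJ J G (flip1 k v) = (if k ∈ Jz J then -1 else 1) * projJ J G v := by
  refine Fin.lastCases ?_ (fun i => ?_) k
  · rw [projJ_flipz J hD hw hv]
    by_cases hJ : Odd J.card
    · rw [if_pos ((l5_mem_Jz_last J).2 hJ), hJ.neg_one_pow]
    · rw [if_neg (fun h => hJ ((l5_mem_Jz_last J).1 h)), (Nat.not_odd_iff_even.1 hJ).neg_one_pow]
  · rw [projJ_flip1]
    by_cases hi : i ∈ J
    · rw [if_pos hi, if_pos ((l5_mem_Jz_castSucc J i).2 hi)]
    · rw [if_neg hi, if_neg (fun h => hi ((l5_mem_Jz_castSucc J i).1 h))]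

theorem l5_flip_act (E : Finset (Fin 4)) (l : ℂ) (v : Fin 5 → ℂ) :
    flip E (act wS l v) = act wS l (flip E v) := by
  refine l5_ext (fun k => ?_) ?_
  · rw [l5_flip_castSucc]
    simp only [act]
    rw [l5_flip_castSucc]
    split_ifs
    · ring
    · rfl
  · rw [l5_flip_last]
    simp only [act]
    rw [l5_flip_last]

theorem l5_flip_norm (E : Finset (Fin 4)) (v : Fin 5 → ℂ) (k : Fin 5) :
    ‖flip E v k‖ = ‖v k‖ := by
  refine Fin.lastCases ?_ (fun i => ?_) k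
  · rw [l5_flip_last]
  · rw [l5_flip_castSucc]
    split_ifs
    · rw [norm_neg]
    · rfl

theorem l5_flip_ne (E : Finset (Fin 4)) {v : Fin 5 → ℂ} {k : Fin 5} (h : v k ≠ 0) :
    flip E v k ≠ 0 := by
  rw [← norm_ne_zero_iff, l5_flip_norm, norm_ne_zero_iff]
  exact h

theorem l5_flip_SC (E : Finset (Fin 4)) {v : Fin 5 → ℂ} (hv : v ∈ SC) : flip E v ∈ SC := by
  rw [mem_SC] at hv ⊢
  have h1 : sqv (flip E v) = sqv v := by
    funext i
    simp only [sqv]
    rw [l5_flip_castSucc]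
    split_ifs
    · ring
    · rfl
  refine ⟨?_, ?_, ?_⟩
  · intro h
    apply hv.1
    funext k
    have h2 := l5_flip_norm E v k
    rw [h] at h2
    simp only [Pi.zero_apply, norm_zero] at h2
    exact norm_eq_zero.1 h2.symm
  · rw [h1]; exact hv.2.1
  · rw [h1, l5_flip_last]; exact hv.2.2

theorem l5_flip_cont (E : Finset (Fin 4)) : Continuous (flip E) := by
  refine continuous_pi fun k => ?_
  refine Fin.lastCases ?_ (fun i => ?_) k
  · simp_rw [l5_flip_last]; exact continuous_apply _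
  · simp_rw [l5_flip_castSucc]
    by_cases hi : i ∈ E
    · simp only [hi, if_true]; exact (continuous_apply _).neg
    · simp only [hi, if_false]; exact continuous_apply _

theorem l5_proj_wt (J : Finset (Fin 4)) {G : (Fin 5 → ℂ) → ℂ} {D : ℕ}
    (hw : HasWt D G) {v : Fin 5 → ℂ} (hv : v ∈ SC0) {l : ℂ} (hl : l ≠ 0) :
    l ^ D * projJ J G (act wS l v) = projJ J G v := by
  unfold projJ
  rw [mul_left_comm, Finset.mul_sum]
  congr 1
  refine Finset.sum_congr rfl fun E _ => ?_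
  rw [l5_flip_act, mul_left_comm, hw _ (flip_mem hv E).1 l hl]

theorem l5_proj_arc (J : Finset (Fin 4)) {G : (Fin 5 → ℂ) → ℂ} (ha : ArcHol G)
    (γ : ℂ → Fin 5 → ℂ) (s : ℂ) (hγ : ∀ᶠ t in 𝓝 s, DifferentiableAt ℂ γ t ∧ γ t ∈ SC0) :
    DifferentiableAt ℂ (fun t => projJ J G (γ t)) s := by
  unfold projJ
  refine DifferentiableAt.const_mul ?_ _
  refine DifferentiableAt.fun_sum fun E _ => ?_
  refine DifferentiableAt.const_mul ?_ _
  refine ha (fun t => flip E (γ t)) s ?_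
  filter_upwards [hγ] with t ht
  refine ⟨?_, (flip_mem ht.2 E).1⟩
  have h1 := differentiableAt_pi.1 ht.1
  rw [differentiableAt_pi]
  intro k
  refine Fin.lastCases ?_ (fun i => ?_) k
  · simp_rw [l5_flip_last]; exact h1 _
  · simp_rw [l5_flip_castSucc]
    by_cases hi : i ∈ E
    · simp only [hi, if_true]; exact (h1 _).neg
    · simp only [hi, if_false]; exact h1 _

/-- A bound for all the translates of `G` gives a bound for its components. -/
theorem l5_proj_bd (J : Finset (Fin 4)) {G : (Fin 5 → ℂ) → ℂ} {v0 : Fin 5 → ℂ}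
    (a : (Fin 5 → ℂ) → ℝ) (h : ∀ E : Finset (Fin 4), ∃ M : ℝ, ∀ᶠ v in 𝓝 v0, v ∈ SC0 →
      a v * ‖G (flip E v)‖ ≤ M) (ha0 : ∀ v, 0 ≤ a v) :
    ∃ M : ℝ, 0 ≤ M ∧ ∀ᶠ v in 𝓝 v0, v ∈ SC0 → a v * ‖projJ J G v‖ ≤ M := by
  choose M hM using h
  refine ⟨∑ E, |M E|, Finset.sum_nonneg fun _ _ => abs_nonneg _, ?_⟩
  have h1 : ∀ᶠ v in 𝓝 v0, ∀ E, v ∈ SC0 → a v * ‖G (flip E v)‖ ≤ M E :=
    Filter.eventually_all.2 hM
  filter_upwards [h1] with v hv hvS
  have h2 : ‖projJ J G v‖ ≤ ∑ E : Finset (Fin 4), ‖G (flip E v)‖ := by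
    unfold projJ
    rw [norm_mul]
    have h3 : ‖(1 / 16 : ℂ)‖ ≤ 1 := by
      rw [norm_div]; norm_num
    have h4 : ‖∑ E : Finset (Fin 4), (-1 : ℂ) ^ (E ∩ J).card * G (flip E v)‖
        ≤ ∑ E : Finset (Fin 4), ‖G (flip E v)‖ := by
      refine (norm_sum_le _ _).trans (Finset.sum_le_sum fun E _ => ?_)
      rw [norm_mul, norm_pow, norm_neg, norm_one, one_pow, one_mul]
    calc ‖(1 / 16 : ℂ)‖ * ‖∑ E : Finset (Fin 4), (-1 : ℂ) ^ (E ∩ J).card * G (flip E v)‖
        ≤ 1 * ∑ E : Finset (Fin 4), ‖G (flip E v)‖ :=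
          mul_le_mul h3 h4 (norm_nonneg _) zero_le_one
      _ = ∑ E : Finset (Fin 4), ‖G (flip E v)‖ := one_mul _
  calc a v * ‖projJ J G v‖ ≤ a v * ∑ E : Finset (Fin 4), ‖G (flip E v)‖ :=
        mul_le_mul_of_nonneg_left h2 (ha0 v)
    _ = ∑ E : Finset (Fin 4), a v * ‖G (flip E v)‖ := by rw [Finset.mul_sum]
    _ ≤ ∑ E, |M E| := Finset.sum_le_sum fun E _ => (hv E hvS).trans (le_abs_self _)

theorem l5_bdd_of_cont {f : (Fin 5 → ℂ) → ℂ} {v0 : Fin 5 → ℂ} (hf : ContinuousAt f v0) :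
    ∀ᶠ v in 𝓝 v0, ‖f v‖ ≤ ‖f v0‖ + 1 := by
  have h1 : Filter.Tendsto (fun v => ‖f v‖) (𝓝 v0) (𝓝 ‖f v0‖) := hf.norm
  exact (h1.eventually_lt_const (by linarith)).mono fun v hv => hv.le

theorem l5_prod_cont (S : Finset (Fin 5)) : Continuous fun v : Fin 5 → ℂ => ∏ k ∈ S, v k :=
  continuous_finsetProd S fun k _ => continuous_apply k

/-- Components of a function of even weight `- D`, with poles of order at most one half, and
bounded near the general points of the branch curves in `P`. -/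
theorem char_const {G : (Fin 5 → ℂ) → ℂ} {D : ℕ} (hD : Even D) (P : Finset (Fin 5))
    (hw : HasWt D G) (ha : ArcHol G) (hp : PoleBd G) (hP : ∀ m ∈ P, LocBd m G)
    (J : Finset (Fin 4)) (hN : ∑ k ∈ Jz J \ P, wS k ≤ D + ∑ k ∈ Jz J ∩ P, wS k) :
    ∃ C : ℂ, (∀ v ∈ SC0, projJ J G v * ∏ k ∈ Jz J \ P, v k = C * ∏ k ∈ Jz J ∩ P, v k) ∧
      (∑ k ∈ Jz J \ P, wS k < D + ∑ k ∈ Jz J ∩ P, wS k → C = 0) := by
  set r : (Fin 5 → ℂ) → ℂ := fun v =>
    projJ J G v * (∏ k ∈ Jz J \ P, v k) * (∏ k ∈ Jz J ∩ P, v k)⁻¹ with hr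
  have hprod : ∀ (S : Finset (Fin 5)) (v : Fin 5 → ℂ), v ∈ SC0 → ∏ k ∈ S, v k ≠ 0 :=
    fun S v hv => Finset.prod_ne_zero_iff.2 fun k _ => hv.2 k
  have hsign : SignInv r := by
    intro v hv k
    simp only [hr]
    rw [l5_proj_sign J hD hw hv, l5_prod_flip1, l5_prod_flip1]
    by_cases hk : k ∈ Jz J
    · rw [if_pos hk]
      by_cases hkP : k ∈ P
      · have h1 : k ∉ Jz J \ P := fun h => (Finset.mem_sdiff.1 h).2 hkP
        have h2 : k ∈ Jz J ∩ P := Finset.mem_inter.2 ⟨hk, hkP⟩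
        rw [if_neg h1, if_pos h2, neg_one_mul, neg_one_mul, inv_neg, one_mul]
        ring
      · have h1 : k ∈ Jz J \ P := Finset.mem_sdiff.2 ⟨hk, hkP⟩
        have h2 : k ∉ Jz J ∩ P := fun h => hkP (Finset.mem_inter.1 h).2
        rw [if_pos h1, if_neg h2, one_mul]
        ring
    · have h1 : k ∉ Jz J \ P := fun h => hk (Finset.mem_sdiff.1 h).1
      have h2 : k ∉ Jz J ∩ P := fun h => hk (Finset.mem_inter.1 h).1
      rw [if_neg hk, if_neg h1, if_neg h2, one_mul, one_mul, one_mul]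
  have harc : ArcHol r := by
    intro γ s hγ
    have hs := hγ.self_of_nhds
    have h1 := differentiableAt_pi.1 hs.1
    simp only [hr]
    have hpr : ∀ S : Finset (Fin 5), DifferentiableAt ℂ (fun t => ∏ k ∈ S, γ t k) s := by
      intro S
      exact DifferentiableAt.fun_finsetProd fun k _ => h1 k
    exact ((l5_proj_arc J ha γ s hγ).mul (hpr _)).mul ((hpr _).inv (hprod _ _ hs.2))
  have hpole : PoleBd r := by
    intro v0 hv0 m hm
    obtain ⟨M1, hM10, hM1⟩ : ∃ M : ℝ, 0 ≤ M ∧ ∀ᶠ v in 𝓝 v0, v ∈ SC0 →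
        ‖v m‖ * ‖projJ J G v‖ ≤ M := by
      refine l5_proj_bd J (fun v => ‖v m‖) (fun E => ?_) (fun v => norm_nonneg _)
      obtain ⟨M, hM⟩ := hp (flip E v0) (l5_flip_SC E hv0) m (fun k hk => l5_flip_ne E (hm k hk))
      refine ⟨M, ?_⟩
      have h2 := (l5_flip_cont E).continuousAt.eventually hM
      filter_upwards [h2] with v hv hvS
      have h3 := hv (flip_mem hvS E).1
      rw [norm_mul, l5_flip_norm] at h3
      exact h3
    have hA := l5_bdd_of_cont (l5_prod_cont (Jz J \ P)).continuousAt (v0 := v0)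
    by_cases hmP : m ∈ Jz J ∩ P
    · obtain ⟨M2, hM20, hM2⟩ : ∃ M : ℝ, 0 ≤ M ∧ ∀ᶠ v in 𝓝 v0, v ∈ SC0 →
          (1 : ℝ) * ‖projJ J G v‖ ≤ M := by
        refine l5_proj_bd J (fun _ => 1) (fun E => ?_) (fun v => zero_le_one)
        obtain ⟨M, hM⟩ := hP m (Finset.mem_inter.1 hmP).2 (flip E v0) (l5_flip_SC E hv0)
          (fun k hk => l5_flip_ne E (hm k hk))
        refine ⟨M, ?_⟩
        have h2 := (l5_flip_cont E).continuousAt.eventually hM
        filter_upwards [h2] with v hv hvS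
        rw [one_mul]
        exact hv (flip_mem hvS E).1
      have hB : ContinuousAt (fun v : Fin 5 → ℂ => (∏ k ∈ (Jz J ∩ P).erase m, v k)⁻¹) v0 := by
        refine (l5_prod_cont _).continuousAt.inv₀ ?_
        exact Finset.prod_ne_zero_iff.2 fun k hk => hm k (Finset.ne_of_mem_erase hk)
      have hB2 := l5_bdd_of_cont hB
      refine ⟨M2 * (‖∏ k ∈ Jz J \ P, v0 k‖ + 1) *
        (‖(∏ k ∈ (Jz J ∩ P).erase m, v0 k)⁻¹‖ + 1), ?_⟩
      filter_upwards [hM2, hA, hB2] with v h3 h4 h5 hvS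
      have h6 : v m * r v = projJ J G v * (∏ k ∈ Jz J \ P, v k)
          * (∏ k ∈ (Jz J ∩ P).erase m, v k)⁻¹ := by
        simp only [hr]
        rw [← Finset.mul_prod_erase (Jz J ∩ P) (fun k => v k) hmP, mul_inv]
        have h7 := hvS.2 m
        field_simp
      rw [h6, norm_mul, norm_mul]
      have h8 := h3 hvS
      rw [one_mul] at h8
      exact mul_le_mul (mul_le_mul h8 h4 (norm_nonneg _) hM20) h5 (norm_nonneg _)
        (mul_nonneg hM20 (by positivity))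
    · have hB : ContinuousAt (fun v : Fin 5 → ℂ => (∏ k ∈ Jz J ∩ P, v k)⁻¹) v0 := by
        refine (l5_prod_cont _).continuousAt.inv₀ ?_
        refine Finset.prod_ne_zero_iff.2 fun k hk => hm k ?_
        rintro rfl
        exact hmP hk
      have hB2 := l5_bdd_of_cont hB
      refine ⟨M1 * (‖∏ k ∈ Jz J \ P, v0 k‖ + 1) * (‖(∏ k ∈ Jz J ∩ P, v0 k)⁻¹‖ + 1), ?_⟩
      filter_upwards [hM1, hA, hB2] with v h3 h4 h5 hvS
      have h6 : v m * r v = v m * projJ J G v * (∏ k ∈ Jz J \ P, v k)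
          * (∏ k ∈ Jz J ∩ P, v k)⁻¹ := by
        simp only [hr]
        ring
      rw [h6, norm_mul, norm_mul, norm_mul]
      exact mul_le_mul (mul_le_mul (h3 hvS) h4 (norm_nonneg _) hM10) h5 (norm_nonneg _)
        (mul_nonneg hM10 (by positivity))
  set N : ℕ := D + ∑ k ∈ Jz J ∩ P, wS k - ∑ k ∈ Jz J \ P, wS k with hNdef
  have hNN : N + ∑ k ∈ Jz J \ P, wS k = D + ∑ k ∈ Jz J ∩ P, wS k := by omega
  have hwt : HasWt N r := by
    intro v hv l hl
    simp only [hr]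
    rw [l5_prod_act, l5_prod_act, ← l5_proj_wt J hw hv hl]
    have h1 : l ^ N * l ^ (∑ k ∈ Jz J \ P, wS k) = l ^ D * l ^ (∑ k ∈ Jz J ∩ P, wS k) := by
      rw [← pow_add, ← pow_add, hNN]
    have h2 : l ^ (∑ k ∈ Jz J ∩ P, wS k) ≠ 0 := pow_ne_zero _ hl
    rw [mul_inv]
    calc l ^ N * (projJ J G (act wS l v) * (l ^ (∑ k ∈ Jz J \ P, wS k) * ∏ k ∈ Jz J \ P, v k)
          * ((l ^ (∑ k ∈ Jz J ∩ P, wS k))⁻¹ * (∏ k ∈ Jz J ∩ P, v k)⁻¹))
        = (l ^ N * l ^ (∑ k ∈ Jz J \ P, wS k)) * (l ^ (∑ k ∈ Jz J ∩ P, wS k))⁻¹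
          * (projJ J G (act wS l v) * (∏ k ∈ Jz J \ P, v k) * (∏ k ∈ Jz J ∩ P, v k)⁻¹) := by ring
      _ = l ^ D * (l ^ (∑ k ∈ Jz J ∩ P, wS k) * (l ^ (∑ k ∈ Jz J ∩ P, wS k))⁻¹)
          * (projJ J G (act wS l v) * (∏ k ∈ Jz J \ P, v k) * (∏ k ∈ Jz J ∩ P, v k)⁻¹) := by
            rw [h1]; ring
      _ = l ^ D * projJ J G (act wS l v) * (∏ k ∈ Jz J \ P, v k) * (∏ k ∈ Jz J ∩ P, v k)⁻¹ := by
            rw [mul_inv_cancel₀ h2]; ring
  obtain ⟨C, hC1, hC2⟩ := liouville hsign harc hpole hwt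
  refine ⟨C, fun v hv => ?_, fun h => hC2 (by omega)⟩
  rw [← hC1 v hv]
  simp only [hr]
  rw [inv_mul_cancel_right₀ (hprod _ _ hv)]

end Pool.Agent.K3Pieces
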