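import Pool.Agent.Lib.MP_3004b3_ag.K1
import Pool.Agent.Lib.MP_3004b3_ag.L5

/-!
# JOB K2: the cone of `S` is connected

`isPreconnected`: let `A` be a relatively clopen subset of `SC` (for `IsPreconnected` use
`isPreconnected_iff_subset_of_disjoint` or the subtype version `PreconnectedSpace` and
`isClopen_iff`), and `G v = 1` for `v ∈ A`, `0` otherwise, a function on `SC` which is locally
constant (continuous) on `SC`. Then `HasWt 0 G` on `SC0` (the orbit `ℂˣ v` is connected: path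
connectedness of `{l : ℂ | l ≠ 0}`, `isPathConnected_compl_singleton_of_one_lt_rank` or
`isConnected_compl_singleton_of_one_lt_rank`), `ArcHol G` (locally constant along arcs), `PoleBd G`
and `LocBd m G` (bounded by `1`). `char_const` with `D = 0` and `P = univ`: for `J ≠ ∅` the weights
`∑ k ∈ Jz J, wS k` are positive, so `C = 0` and `projJ J G = 0` on `SC0`; for `J = ∅` the component is
constant. So `G = ∑ projJ J G` is constant on `SC0`, hence on `SC` by density
(`SC_subset_closure`) and continuity of `G` on `SC`.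
-/

set_option autoImplicit false

namespace Pool.Agent.K3Pieces

open scoped Topology

theorem k2_near {f : (Fin 5 → ℂ) → Bool} (hf : ContinuousOn f SC) {v0 : Fin 5 → ℂ}
    (hv : v0 ∈ SC) : ∀ᶠ v in 𝓝 v0, v ∈ SC → f v = f v0 := by
  have h1 : Filter.Tendsto f (𝓝[SC] v0) (𝓝 (f v0)) := hf v0 hv
  rw [nhds_discrete] at h1
  have h2 : ∀ᶠ v in 𝓝[SC] v0, f v = f v0 := Filter.tendsto_pure.1 h1
  exact eventually_nhdsWithin_iff.1 h2

theorem k2_act {f : (Fin 5 → ℂ) → Bool} (hf : ContinuousOn f SC) {v : Fin 5 → ℂ}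
    (hv : v ∈ SC0) {l : ℂ} (hl : l ≠ 0) : f (act wS l v) = f v := by
  have h1 : IsPreconnected ({0}ᶜ : Set ℂ) := by
    refine (isConnected_compl_singleton_of_one_lt_rank ?_ 0).isPreconnected
    rw [Complex.rank_real_complex]
    norm_num
  have hc : Continuous (fun l : ℂ => act wS l v) := by
    refine continuous_pi fun i => ?_
    unfold act
    fun_prop
  have h2 : ContinuousOn (fun l : ℂ => f (act wS l v)) ({0}ᶜ : Set ℂ) :=
    hf.comp hc.continuousOn fun l hl => (act_mem_SC0 hv hl).1.1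
  have h3 := h1.constant h2 (x := l) (y := 1) hl one_ne_zero
  have h4 : act wS 1 v = v := by
    funext i
    simp [act]
  simp only [h4] at h3
  exact h3

/-- The indicator. -/
noncomputable def k2G (f : (Fin 5 → ℂ) → Bool) (v : Fin 5 → ℂ) : ℂ := if f v = true then 1 else 0

theorem k2G_norm (f : (Fin 5 → ℂ) → Bool) (v : Fin 5 → ℂ) : ‖k2G f v‖ ≤ 1 := by
  unfold k2G
  split_ifs <;> simp

theorem k2G_wt {f : (Fin 5 → ℂ) → Bool} (hf : ContinuousOn f SC) : HasWt 0 (k2G f) := by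
  intro v hv l hl
  unfold k2G
  rw [pow_zero, one_mul, k2_act hf hv hl]

theorem k2G_arc {f : (Fin 5 → ℂ) → Bool} (hf : ContinuousOn f SC) : ArcHol (k2G f) := by
  intro γ s h
  have h1 := h.self_of_nhds
  have h2 : ∀ᶠ t in 𝓝 s, γ t ∈ SC → f (γ t) = f (γ s) :=
    h1.1.continuousAt.eventually (k2_near hf h1.2.1)
  have h3 : (fun t => k2G f (γ t)) =ᶠ[𝓝 s] fun _ => k2G f (γ s) := by
    filter_upwards [h, h2] with t h4 h5
    unfold k2G
    rw [h5 h4.2.1]
  exact (differentiableAt_const _).congr_of_eventuallyEq h3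

theorem k2G_pole (f : (Fin 5 → ℂ) → Bool) : PoleBd (k2G f) := by
  intro v0 hv0 m _
  refine ⟨‖v0 m‖ + 1, ?_⟩
  have hc : Continuous (fun v : Fin 5 → ℂ => ‖v m‖) := (continuous_apply m).norm
  have h1 : ∀ᶠ v in 𝓝 v0, ‖v m‖ < ‖v0 m‖ + 1 :=
    hc.continuousAt.eventually_lt continuousAt_const (lt_add_one _)
  filter_upwards [h1] with v h2 _
  rw [norm_mul]
  calc ‖v m‖ * ‖k2G f v‖ ≤ ‖v m‖ * 1 := mul_le_mul_of_nonneg_left (k2G_norm f v) (norm_nonneg _)
    _ ≤ ‖v0 m‖ + 1 := by rw [mul_one]; exact h2.le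

theorem k2G_loc (f : (Fin 5 → ℂ) → Bool) (m : Fin 5) : LocBd m (k2G f) := by
  intro v0 _ _
  exact ⟨1, Filter.Eventually.of_forall fun v _ => k2G_norm f v⟩

theorem k2_wS (k : Fin 5) : 0 < wS k := by
  fin_cases k <;> simp [wS]

theorem k2_sdiff (s : Finset (Fin 5)) : s \ Finset.univ = ∅ :=
  Finset.sdiff_eq_empty_iff_subset.2 (Finset.subset_univ _)

theorem k2G_const {f : (Fin 5 → ℂ) → Bool} (hf : ContinuousOn f SC) :
    ∃ C : ℂ, ∀ v ∈ SC0, k2G f v = C := by
  have hch := fun J : Finset (Fin 4) => char_const (G := k2G f) (D := 0) (by decide) Finset.univ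
    (k2G_wt hf) (k2G_arc hf) (k2G_pole f) (fun m _ => k2G_loc f m) J (by rw [k2_sdiff]; simp)
  obtain ⟨C, hC, _⟩ := hch ∅
  refine ⟨C, fun v hv => ?_⟩
  have h0 : ∀ J : Finset (Fin 4), J ≠ ∅ → projJ J (k2G f) v = 0 := by
    intro J hJ
    obtain ⟨C', hC', hC0⟩ := hch J
    have h1 := hC' v hv
    have h2 : C' = 0 := by
      refine hC0 ?_
      have h3 : (Jz J ∩ Finset.univ).Nonempty := by
        rw [Finset.inter_univ]
        obtain ⟨j, hj⟩ := Finset.nonempty_iff_ne_empty.2 hJ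
        exact ⟨j.castSucc, Finset.mem_union_left _ (Finset.mem_map.2 ⟨j, hj, rfl⟩)⟩
      have h4 : 0 < ∑ k ∈ Jz J ∩ Finset.univ, wS k := Finset.sum_pos (fun k _ => k2_wS k) h3
      rw [k2_sdiff, Finset.sum_empty, zero_add]
      exact h4
    rw [h2, zero_mul] at h1
    rw [k2_sdiff, Finset.prod_empty, mul_one] at h1
    exact h1
  have h1 := hC v hv
  have h2 : Jz ∅ = ∅ := by simp [Jz]
  rw [h2, Finset.empty_sdiff, Finset.empty_inter, Finset.prod_empty, mul_one, mul_one] at h1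
  rw [← sum_projJ (k2G f) v, ← h1]
  exact Finset.sum_eq_single ∅ (fun J _ hJ => h0 J hJ) (fun h => absurd (Finset.mem_univ _) h)

theorem k2_const {f : (Fin 5 → ℂ) → Bool} (hf : ContinuousOn f SC) {v w : Fin 5 → ℂ}
    (hv : v ∈ SC0) (hw : w ∈ SC0) : f v = f w := by
  obtain ⟨C, hC⟩ := k2G_const hf
  have h1 := (hC v hv).trans (hC w hw).symm
  unfold k2G at h1
  cases h2 : f v <;> cases h3 : f w <;> simp [h2, h3] at h1 ⊢

theorem k2_approx {f : (Fin 5 → ℂ) → Bool} (hf : ContinuousOn f SC) {x : Fin 5 → ℂ}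
    (hx : x ∈ SC) : ∃ v ∈ SC0, f v = f x := by
  have h1 := mem_closure_iff_frequently.1 (SC_subset_closure hx)
  obtain ⟨v, hv, h2⟩ := (h1.and_eventually (k2_near hf hx)).exists
  exact ⟨v, hv, h2 hv.1⟩

theorem SC_isConnected : IsConnected SC := by
  refine ⟨?_, isPreconnected_of_forall_constant fun f hf x hx y hy => ?_⟩
  · obtain ⟨v, hv⟩ := SC0_nonempty
    exact ⟨v, hv.1⟩
  · obtain ⟨v, hv, h1⟩ := k2_approx hf hx
    obtain ⟨w, hw, h2⟩ := k2_approx hf hy
    rw [← h1, ← h2]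
    exact k2_const hf hv hw

/-- The Horikawa surface. -/
noncomputable def SS : Surf where
  c := 2
  w := wS
  w_pos := by
    intro i
    fin_cases i <;> simp [wS]
  eqs := eqsS
  homog := eqsS_homog
  free := SC_free
  smooth := SC_smooth
  conn := SC_isConnected

end Pool.Agent.K3Pieces
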