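import Pool.Agent.Lib.MP_3004b3_ag.K2

/-!
# JOB K3: the double planes

`X_j`: `z² = g_j(x)`, `g_j(x) = ∑_k lam (j.succAbove k) x_k⁶ - lam j (∑_k x_k²)³`, in `ℙ(1, 1, 1, 3)`.

* `eqX_homog`: weighted homogeneous of degree `6`.
* `XC_free`: as `SC_free`: if all `v k.castSucc = 0` then `v (last)^2 = 0`.
* `XC_grad`: the gradient of `g_j` vanishes only at `0`: with `L = ∑ x_k²` and `ν = (3, 4, 5, 9)`,
  `lam i = ν_i²`: `6 x_k (lam_k x_k⁴ - lam_j L²) = 0`, so for every `k` with `x_k ≠ 0`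
  `(ν_k x_k²)² = (ν_j L)²`, `x_k² = ± (ν_j / ν_k) L`. Summing: `L = L ∑_{k ∈ I} ± ν_j / ν_k`, and
  `1/ν_j ± 1/ν_k ± … ≠ 0` for all choices (signed sums over subsets of `1/3, 1/4, 1/5, 1/9` which
  contain `1/ν_j`), so `L = 0` and all `x_k = 0`.
* `XC_smooth`: `Φ u = ![eval u (eqX j)]`, derivative `h ↦ 2 v_3 h_3 - ∑ ∂_k g_j h_k`, nonzero since
  `v_3 ≠ 0` or the gradient is not zero (`x ≠ 0`).
* `pj_image`: `pj j '' SC = XC j`: `⊆`: `x_j² = - ∑_{k ≠ j} x_k²` so `x_j⁶ = - (∑ x_k²)³`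
  (`Fin.sum_univ_succAbove`). If `pj j v = 0` then `x_j² = 0` too. `⊇`: choose a square root `x_j` of
  `- ∑ x_k²` (`IsAlgClosed.exists_pow_nat_eq` or complex powers).
* `XC_isConnected`: image of a connected set under a continuous map.
-/

set_option autoImplicit false

namespace Pool.Agent.K3Pieces

open scoped Topology

/-- The weights. -/
def wX : Fin 4 → ℕ := ![1, 1, 1, 3]

/-- The sextic form. -/
def gx (j : Fin 4) (x : Fin 3 → ℂ) : ℂ :=
  ∑ k, lam (j.succAbove k) * x k ^ 6 - lam j * (∑ k, x k ^ 2) ^ 3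

/-- Its partial derivatives. -/
def gxd (j : Fin 4) (x : Fin 3 → ℂ) (i : Fin 3) : ℂ :=
  6 * x i * (lam (j.succAbove i) * x i ^ 4 - lam j * (∑ k, x k ^ 2) ^ 2)

/-- The equation of the double plane. -/
noncomputable def eqX (j : Fin 4) : MvPolynomial (Fin 4) ℂ :=
  MvPolynomial.X (Fin.last 3) ^ 2 -
    (∑ k : Fin 3, MvPolynomial.C (lam (j.succAbove k)) * MvPolynomial.X k.castSucc ^ 6 -
      MvPolynomial.C (lam j) * (∑ k : Fin 3, MvPolynomial.X k.castSucc ^ 2) ^ 3)

/-- The punctured cone. -/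
def XC (j : Fin 4) : Set (Fin 4 → ℂ) := coneOf {eqX j}

/-- Forget the coordinate `x_j`. -/
def pj (j : Fin 4) (v : Fin 5 → ℂ) : Fin 4 → ℂ :=
  Fin.snoc (α := fun _ => ℂ) (fun k : Fin 3 => v (j.succAbove k).castSucc) (v (Fin.last 4))

theorem mem_XC {j : Fin 4} {v : Fin 4 → ℂ} :
    v ∈ XC j ↔ v ≠ 0 ∧ v (Fin.last 3) ^ 2 = gx j (fun k => v k.castSucc) := by
  simp only [XC, coneOf, Set.mem_singleton_iff, Set.mem_ofPred_eq, forall_eq, eqX, gx, map_sub,
    map_sum, map_mul, map_pow, MvPolynomial.eval_X, MvPolynomial.eval_C, sub_eq_zero]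

theorem k3_wX (k : Fin 3) : wX k.castSucc = 1 := by
  fin_cases k <;> rfl

theorem k3_wX_last : wX (Fin.last 3) = 3 := rfl

theorem eqX_homog (j : Fin 4) : ∀ F ∈ ({eqX j} : Set (MvPolynomial (Fin 4) ℂ)),
    ∃ d, F.IsWeightedHomogeneous wX d := by
  intro F hF
  rw [Set.mem_singleton_iff] at hF
  subst hF
  refine ⟨6, ?_⟩
  have h1 : (MvPolynomial.X (Fin.last 3) ^ 2 : MvPolynomial (Fin 4) ℂ).IsWeightedHomogeneous
      wX 6 := by
    have h := (MvPolynomial.isWeightedHomogeneous_X ℂ wX (Fin.last 3)).pow 2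
    rw [k3_wX_last] at h
    exact h
  have h2 : ∀ (k : Fin 3) (n : ℕ), (MvPolynomial.X k.castSucc ^ n :
      MvPolynomial (Fin 4) ℂ).IsWeightedHomogeneous wX n := by
    intro k n
    have h := (MvPolynomial.isWeightedHomogeneous_X ℂ wX k.castSucc).pow n
    rw [k3_wX k, smul_eq_mul, mul_one] at h
    exact h
  have h3 : (∑ k : Fin 3, MvPolynomial.C (lam (j.succAbove k)) * MvPolynomial.X k.castSucc ^ 6 :
      MvPolynomial (Fin 4) ℂ).IsWeightedHomogeneous wX 6 :=
    MvPolynomial.IsWeightedHomogeneous.sum _ _ _ fun k _ => (h2 k 6).C_mul _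
  have h4 : (∑ k : Fin 3, MvPolynomial.X k.castSucc ^ 2 :
      MvPolynomial (Fin 4) ℂ).IsWeightedHomogeneous wX 2 :=
    MvPolynomial.IsWeightedHomogeneous.sum _ _ _ fun k _ => h2 k 2
  have h5 : (MvPolynomial.C (lam j) * (∑ k : Fin 3, MvPolynomial.X k.castSucc ^ 2) ^ 3 :
      MvPolynomial (Fin 4) ℂ).IsWeightedHomogeneous wX 6 := (h4.pow 3).C_mul _
  exact h1.sub (h3.sub h5)

theorem k3_gx_zero (j : Fin 4) {x : Fin 3 → ℂ} (hx : ∀ k, x k = 0) : gx j x = 0 := by
  simp [gx, hx]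

theorem k3_ne {j : Fin 4} {v : Fin 4 → ℂ} (hv : v ∈ XC j) : ∃ k : Fin 3, v k.castSucc ≠ 0 := by
  by_contra hcon
  push Not at hcon
  rw [mem_XC] at hv
  have h1 := hv.2
  rw [k3_gx_zero j hcon] at h1
  apply hv.1
  funext i
  refine Fin.lastCases ?_ (fun k => ?_) i
  · exact pow_eq_zero_iff (two_ne_zero) |>.1 h1
  · exact hcon k

theorem XC_free (j : Fin 4) : ∀ v ∈ XC j, ∀ l : ℂ, act wX l v = v → l = 1 := by
  intro v hv l hl
  obtain ⟨k, hk⟩ := k3_ne hv
  have h1 := congrFun hl k.castSucc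
  simp only [act, k3_wX, pow_one] at h1
  exact mul_right_cancel₀ hk (by rw [h1, one_mul])

theorem k3_grad_aux (j : Fin 4) {x : Fin 3 → ℂ} (h : ∀ i, gxd j x i = 0) :
    ∑ k, x k ^ 2 = 0 := by
  set L := ∑ k, x k ^ 2 with hL
  have hnu : ∀ i : Fin 4, lam i = ((![3, 4, 5, 9] : Fin 4 → ℂ) i) ^ 2 := by
    intro i
    fin_cases i <;> simp [lam] <;> norm_num
  set nu : Fin 4 → ℂ := ![3, 4, 5, 9] with hnud
  have hne : ∀ i, nu i ≠ 0 := by
    intro i
    fin_cases i <;> simp [nu]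
  have key : ∀ k : Fin 3, ∃ s : ℂ, (s = 0 ∨ s = 1 ∨ s = -1) ∧
      x k ^ 2 = s * (nu j / nu (j.succAbove k)) * L := by
    intro k
    have h1 := h k
    simp only [gxd, ← hL] at h1
    by_cases hx : x k = 0
    · exact ⟨0, Or.inl rfl, by rw [hx]; ring⟩
    · have h2 : lam (j.succAbove k) * x k ^ 4 - lam j * L ^ 2 = 0 := by
        rcases mul_eq_zero.1 h1 with h3 | h3
        · exfalso
          rcases mul_eq_zero.1 h3 with h4 | h4
          · norm_num at h4
          · exact hx h4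
        · exact h3
      rw [hnu, hnu] at h2
      have h3 : (nu (j.succAbove k) * x k ^ 2 - nu j * L) *
          (nu (j.succAbove k) * x k ^ 2 + nu j * L) = 0 := by
        linear_combination h2
      have hk := hne (j.succAbove k)
      rcases mul_eq_zero.1 h3 with h4 | h4
      · refine ⟨1, Or.inr (Or.inl rfl), ?_⟩
        field_simp
        linear_combination h4
      · refine ⟨-1, Or.inr (Or.inr rfl), ?_⟩
        field_simp
        linear_combination h4
  choose s hs hx using key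
  have h1 : L * (1 - (s 0 * (nu j / nu (j.succAbove 0)) + s 1 * (nu j / nu (j.succAbove 1)) +
      s 2 * (nu j / nu (j.succAbove 2)))) = 0 := by
    have h2 : L = x 0 ^ 2 + x 1 ^ 2 + x 2 ^ 2 := by rw [hL, Fin.sum_univ_three]
    have h3 := hx 0
    have h4 := hx 1
    have h5 := hx 2
    linear_combination h2 + h3 + h4 + h5
  rcases mul_eq_zero.1 h1 with h2 | h2
  · exact h2
  · exfalso
    have a0 := hs 0
    have a1 := hs 1
    have a2 := hs 2
    fin_cases j
    · have e0 : nu 0 = 3 := rfl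
      have e1 : nu (Fin.succAbove 0 0) = 4 := rfl
      have e2 : nu (Fin.succAbove 0 1) = 5 := rfl
      have e3 : nu (Fin.succAbove 0 2) = 9 := rfl
      simp only [Fin.zero_eta, e0, e1, e2, e3] at h2
      rcases a0 with a0 | a0 | a0 <;> rcases a1 with a1 | a1 | a1 <;>
        rcases a2 with a2 | a2 | a2 <;> rw [a0, a1, a2] at h2 <;> norm_num at h2
    · have e0 : nu 1 = 4 := rfl
      have e1 : nu (Fin.succAbove 1 0) = 3 := rfl
      have e2 : nu (Fin.succAbove 1 1) = 5 := rfl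
      have e3 : nu (Fin.succAbove 1 2) = 9 := rfl
      simp only [Fin.mk_one, e0, e1, e2, e3] at h2
      rcases a0 with a0 | a0 | a0 <;> rcases a1 with a1 | a1 | a1 <;>
        rcases a2 with a2 | a2 | a2 <;> rw [a0, a1, a2] at h2 <;> norm_num at h2
    · have e0 : nu 2 = 5 := rfl
      have e1 : nu (Fin.succAbove 2 0) = 3 := rfl
      have e2 : nu (Fin.succAbove 2 1) = 4 := rfl
      have e3 : nu (Fin.succAbove 2 2) = 9 := rfl
      simp only [Fin.reduceFinMk, e0, e1, e2, e3] at h2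
      rcases a0 with a0 | a0 | a0 <;> rcases a1 with a1 | a1 | a1 <;>
        rcases a2 with a2 | a2 | a2 <;> rw [a0, a1, a2] at h2 <;> norm_num at h2
    · have e0 : nu 3 = 9 := rfl
      have e1 : nu (Fin.succAbove 3 0) = 3 := rfl
      have e2 : nu (Fin.succAbove 3 1) = 4 := rfl
      have e3 : nu (Fin.succAbove 3 2) = 5 := rfl
      simp only [Fin.reduceFinMk, e0, e1, e2, e3] at h2
      rcases a0 with a0 | a0 | a0 <;> rcases a1 with a1 | a1 | a1 <;>
        rcases a2 with a2 | a2 | a2 <;> rw [a0, a1, a2] at h2 <;> norm_num at h2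

theorem k3_lam_ne (i : Fin 4) : lam i ≠ 0 := by
  fin_cases i <;> simp [lam]

theorem XC_grad (j : Fin 4) {x : Fin 3 → ℂ} (h : ∀ i, gxd j x i = 0) : x = 0 := by
  have hL := k3_grad_aux j h
  funext k
  have h1 := h k
  simp only [gxd, hL] at h1
  by_contra hx
  rcases mul_eq_zero.1 h1 with h3 | h3
  · rcases mul_eq_zero.1 h3 with h4 | h4
    · norm_num at h4
    · exact hx h4
  · have h5 : lam (j.succAbove k) * x k ^ 4 = 0 := by linear_combination h3
    rcases mul_eq_zero.1 h5 with h6 | h6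
    · exact k3_lam_ne _ h6
    · exact hx (pow_eq_zero_iff (by norm_num) |>.1 h6)

/-- The equation as a function. -/
def k3P (j : Fin 4) (u : Fin 4 → ℂ) : ℂ := u (Fin.last 3) ^ 2 - gx j (fun k => u k.castSucc)

theorem k3_hasFDerivAt (j : Fin 4) (v : Fin 4 → ℂ) :
    HasFDerivAt (k3P j) ((2 * v (Fin.last 3)) • (ContinuousLinearMap.proj (Fin.last 3) :
      (Fin 4 → ℂ) →L[ℂ] ℂ) - ∑ k : Fin 3, gxd j (fun k => v k.castSucc) k •
        (ContinuousLinearMap.proj k.castSucc : (Fin 4 → ℂ) →L[ℂ] ℂ)) v := by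
  have hp : ∀ i : Fin 4, HasFDerivAt (fun u : Fin 4 → ℂ => u i)
      (ContinuousLinearMap.proj i : (Fin 4 → ℂ) →L[ℂ] ℂ) v := fun i =>
    (ContinuousLinearMap.proj i : (Fin 4 → ℂ) →L[ℂ] ℂ).hasFDerivAt
  have h1 := (hp (Fin.last 3)).pow 2
  have h2 : HasFDerivAt (fun u : Fin 4 → ℂ => ∑ k : Fin 3,
      lam (j.succAbove k) * u k.castSucc ^ 6) _ v :=
    HasFDerivAt.fun_sum fun k _ => ((hp k.castSucc).pow 6).const_mul (lam (j.succAbove k))
  have h3 : HasFDerivAt (fun u : Fin 4 → ℂ => ∑ k : Fin 3, u k.castSucc ^ 2) _ v :=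
    HasFDerivAt.fun_sum fun k _ => (hp k.castSucc).pow 2
  have h4 := (h3.pow 3).const_mul (lam j)
  have h5 := h1.sub (h2.sub h4)
  refine h5.congr_fderiv ?_
  ext w
  simp only [gxd, Fin.sum_univ_three, sub_apply, add_apply,
    smul_apply, ContinuousLinearMap.proj_apply, smul_eq_mul, nsmul_eq_mul]
  push_cast
  ring

theorem k3_eval (j : Fin 4) (v w : Fin 4 → ℂ) :
    ((2 * v (Fin.last 3)) • (ContinuousLinearMap.proj (Fin.last 3) : (Fin 4 → ℂ) →L[ℂ] ℂ) -
      ∑ k : Fin 3, gxd j (fun k => v k.castSucc) k •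
        (ContinuousLinearMap.proj k.castSucc : (Fin 4 → ℂ) →L[ℂ] ℂ)) w =
    2 * v (Fin.last 3) * w (Fin.last 3) -
      ∑ k : Fin 3, gxd j (fun k => v k.castSucc) k * w k.castSucc := by
  simp [Fin.sum_univ_three]

theorem XC_smooth (j : Fin 4) : ∀ v ∈ XC j, ∃ Φ : (Fin 4 → ℂ) → (Fin 1 → ℂ),
    HolAt Φ v ∧ Function.Surjective (fderiv ℂ Φ v) ∧ ∀ᶠ u in 𝓝 v, u ∈ XC j ↔ Φ u = 0 := by
  intro v hv
  refine ⟨fun u _ => k3P j u, ?_, ?_, ?_⟩
  · refine Filter.Eventually.of_forall fun u => ?_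
    exact differentiableAt_pi.2 fun _ => (k3_hasFDerivAt j u).differentiableAt
  · have h1 : HasFDerivAt (fun (u : Fin 4 → ℂ) (_ : Fin 1) => k3P j u)
        (ContinuousLinearMap.pi fun _ : Fin 1 => ((2 * v (Fin.last 3)) •
          (ContinuousLinearMap.proj (Fin.last 3) : (Fin 4 → ℂ) →L[ℂ] ℂ) -
          ∑ k : Fin 3, gxd j (fun k => v k.castSucc) k •
          (ContinuousLinearMap.proj k.castSucc : (Fin 4 → ℂ) →L[ℂ] ℂ))) v :=
      hasFDerivAt_pi.2 fun _ => k3_hasFDerivAt j v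
    rw [h1.fderiv]
    obtain ⟨w, hw⟩ : ∃ w : Fin 4 → ℂ, ((2 * v (Fin.last 3)) •
          (ContinuousLinearMap.proj (Fin.last 3) : (Fin 4 → ℂ) →L[ℂ] ℂ) -
          ∑ k : Fin 3, gxd j (fun k => v k.castSucc) k •
          (ContinuousLinearMap.proj k.castSucc : (Fin 4 → ℂ) →L[ℂ] ℂ)) w ≠ 0 := by
      by_cases h2 : v (Fin.last 3) = 0
      · obtain ⟨i, hi⟩ : ∃ i, gxd j (fun k => v k.castSucc) i ≠ 0 := by
          by_contra hcon
          push Not at hcon
          have h3 := XC_grad j hcon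
          obtain ⟨k, hk⟩ := k3_ne hv
          exact hk (congrFun h3 k)
        refine ⟨Pi.single i.castSucc 1, ?_⟩
        rw [k3_eval, h2, Finset.sum_eq_single i]
        · simpa using hi
        · intro k _ hk
          rw [Pi.single_eq_of_ne (fun h => hk (Fin.castSucc_injective _ h)), mul_zero]
        · intro h
          exact absurd (Finset.mem_univ i) h
      · refine ⟨Pi.single (Fin.last 3) 1, ?_⟩
        rw [k3_eval, Finset.sum_eq_zero]
        · simpa using h2
        · intro k _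
          rw [Pi.single_eq_of_ne (Fin.castSucc_lt_last k).ne, mul_zero]
    intro z
    set A := ((2 * v (Fin.last 3)) •
          (ContinuousLinearMap.proj (Fin.last 3) : (Fin 4 → ℂ) →L[ℂ] ℂ) -
          ∑ k : Fin 3, gxd j (fun k => v k.castSucc) k •
          (ContinuousLinearMap.proj k.castSucc : (Fin 4 → ℂ) →L[ℂ] ℂ)) with hA
    refine ⟨(z 0 / A w) • w, ?_⟩
    funext i
    rw [ContinuousLinearMap.pi_apply, map_smul, smul_eq_mul, div_mul_cancel₀ _ hw,
      Subsingleton.elim i 0]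
  · have h0 : ∀ᶠ u in 𝓝 v, u ≠ 0 := by
      have := (mem_XC.1 hv).1
      exact eventually_ne_nhds this
    filter_upwards [h0] with u hu
    rw [mem_XC]
    constructor
    · rintro ⟨-, h⟩
      funext i
      simp only [k3P, Pi.zero_apply]
      rw [h, sub_self]
    · intro h
      refine ⟨hu, ?_⟩
      have h1 := congrFun h 0
      simp only [k3P, Pi.zero_apply] at h1
      exact sub_eq_zero.1 h1

theorem k3_pj_castSucc (j : Fin 4) (v : Fin 5 → ℂ) (k : Fin 3) :
    pj j v k.castSucc = v (j.succAbove k).castSucc :=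
  Fin.snoc_castSucc (α := fun _ => ℂ) _ _ _

theorem k3_pj_last (j : Fin 4) (v : Fin 5 → ℂ) : pj j v (Fin.last 3) = v (Fin.last 4) :=
  Fin.snoc_last (α := fun _ => ℂ) _ _

theorem k3_Fc (j : Fin 4) {v : Fin 5 → ℂ} (h : Pi0 (sqv v)) :
    v j.castSucc ^ 2 = - ∑ k : Fin 3, v (j.succAbove k).castSucc ^ 2 ∧
    Fc (sqv v) = gx j (fun k => v (j.succAbove k).castSucc) := by
  unfold Pi0 at h
  rw [Fin.sum_univ_succAbove _ j] at h
  simp only [sqv] at h
  have h1 : v j.castSucc ^ 2 = - ∑ k : Fin 3, v (j.succAbove k).castSucc ^ 2 := by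
    linear_combination h
  refine ⟨h1, ?_⟩
  unfold Fc gx
  rw [Fin.sum_univ_succAbove _ j]
  simp only [sqv]
  rw [h1]
  have h2 : ∀ k : Fin 3, lam (j.succAbove k) * (v (j.succAbove k).castSucc ^ 2) ^ 3 =
      lam (j.succAbove k) * v (j.succAbove k).castSucc ^ 6 := fun k => by ring
  simp only [h2]
  ring

theorem pj_image (j : Fin 4) : pj j '' SC = XC j := by
  apply Set.Subset.antisymm
  · rintro _ ⟨v, hv, rfl⟩
    rw [mem_SC] at hv
    obtain ⟨h1, h2⟩ := k3_Fc j hv.2.1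
    rw [mem_XC]
    simp only [k3_pj_castSucc, k3_pj_last]
    refine ⟨?_, by rw [hv.2.2, h2]⟩
    intro h0
    apply hv.1
    have h3 : ∀ k : Fin 3, v (j.succAbove k).castSucc = 0 := fun k => by
      rw [← k3_pj_castSucc j v k, h0]; rfl
    have h4 : v (Fin.last 4) = 0 := by rw [← k3_pj_last j v, h0]; rfl
    funext i
    refine Fin.lastCases h4 (fun i => ?_) i
    refine Fin.succAboveCases j ?_ (fun k => ?_) i
    · simp only [h3] at h1
      have h5 : v j.castSucc ^ 2 = 0 := by rw [h1]; simp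
      exact pow_eq_zero_iff (two_ne_zero) |>.1 h5
    · exact h3 k
  · intro u hu
    rw [mem_XC] at hu
    obtain ⟨s, hs⟩ := IsAlgClosed.exists_pow_nat_eq (- ∑ k : Fin 3, u k.castSucc ^ 2)
      (n := 2) (by norm_num)
    let v : Fin 5 → ℂ := Fin.snoc (α := fun _ => ℂ)
      (Fin.insertNth (α := fun _ => ℂ) j s (fun k : Fin 3 => u k.castSucc)) (u (Fin.last 3))
    have hvc : ∀ k : Fin 3, v (j.succAbove k).castSucc = u k.castSucc := by
      intro k
      simp only [v]
      rw [Fin.snoc_castSucc (α := fun _ => ℂ), Fin.insertNth_apply_succAbove]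
    have hvj : v j.castSucc = s := by
      simp only [v]
      rw [Fin.snoc_castSucc (α := fun _ => ℂ), Fin.insertNth_apply_same]
    have hvl : v (Fin.last 4) = u (Fin.last 3) := Fin.snoc_last (α := fun _ => ℂ) _ _
    have hpi : Pi0 (sqv v) := by
      unfold Pi0
      rw [Fin.sum_univ_succAbove _ j]
      simp only [sqv, hvc, hvj]
      rw [hs]
      ring
    have hpj : pj j v = u := by
      funext i
      refine Fin.lastCases ?_ (fun k => ?_) i
      · rw [k3_pj_last, hvl]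
      · rw [k3_pj_castSucc, hvc]
    refine ⟨v, mem_SC.2 ⟨?_, hpi, ?_⟩, hpj⟩
    · intro h0
      apply hu.1
      rw [← hpj, h0]
      funext i
      refine Fin.lastCases ?_ (fun k => ?_) i
      · rw [k3_pj_last]; rfl
      · rw [k3_pj_castSucc]; rfl
    · rw [(k3_Fc j hpi).2, hvl, hu.2]
      simp only [hvc]

theorem k3_pj_continuous (j : Fin 4) : Continuous (pj j) := by
  refine continuous_pi fun i => ?_
  refine Fin.lastCases ?_ (fun k => ?_) i
  · simp only [k3_pj_last]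
    exact continuous_apply _
  · simp only [k3_pj_castSucc]
    exact continuous_apply _

theorem XC_isConnected (j : Fin 4) : IsConnected (XC j) := by
  rw [← pj_image j]
  exact SC_isConnected.image _ (k3_pj_continuous j).continuousOn

/-- The double planes. -/
noncomputable def XX (j : Fin 4) : Surf where
  c := 1
  w := wX
  w_pos := by
    intro i
    fin_cases i <;> simp [wX]
  eqs := {eqX j}
  homog := eqX_homog j
  free := XC_free j
  smooth := XC_smooth j
  conn := XC_isConnected j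

end Pool.Agent.K3Pieces
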