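import Pool.Agent.Lib.MP_3004b3_ag.K3
import Pool.Agent.Lib.MP_3004b3_ag.H5
import Pool.Agent.Lib.MP_3004b3_ag.B1
import Pool.Agent.Lib.MP_3004b3_ag.B2

/-!
# JOB K4: the morphisms `S → X_j` and the involutions

`SS.cone = SC`, `(XX j).cone = XC j`, `SS.w = wS`, `(XX j).w = wX` hold by definition (`rfl`).

* `MJ`, `SJ`: linear maps; `maps` for `MJ` from `pj_image`.
* `double`: `surj`: `pj_image` and `proj_surj`. `closed`: a continuous map from a compact space to
  a Hausdorff space is closed (`Continuous.isClosedMap`). `invol`, `comm`: on representatives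
  (`toPt_proj`, `proj_surj`). `fibre`: let `a = proj u`, `b = proj v`; by `proj_eq_iff` there is
  `l ≠ 0` with `pj j v = act wX l (pj j u)`; replace `u` by `act wS l u` (same point): `pj j v = pj j u`,
  and `v_j² = - ∑_{k ≠ j} v_k² = u_j²`, so `v = u` or `v = flip1 j.castSucc u`.
* `lifts`: `f` a local map at `q` to `X_j`, `u z = - ∑_k (f z k.castSucc)²`, a holomorphic function. A
  lift is given by inserting the coordinate `x_j = s(z)` with `s² = u`. If `u q ≠ 0`, take
  `s z = s0 * (u z / u q) ^ (1/2)` with `s0² = u q` (holomorphic near `q`: complex power near `1`). If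
  `u = 0` near `q`, take `s = 0`. Otherwise `∃ᶠ z in 𝓝 q, u z ≠ 0`, and the first case applies at
  the points near `q` with `u ≠ 0`.
-/

set_option autoImplicit false

namespace Pool.Agent.K3Pieces

open scoped Topology

theorem SS_cone : SS.cone = SC := rfl

theorem XX_cone (j : Fin 4) : (XX j).cone = XC j := rfl

theorem k4_wS (k : Fin 4) : wS k.castSucc = 1 := by
  fin_cases k <;> rfl

theorem k4_pj_diff (j : Fin 4) : Differentiable ℂ (pj j) := by
  refine differentiable_pi.2 fun i => ?_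
  refine Fin.lastCases ?_ (fun k => ?_) i
  · simp only [k3_pj_last]
    exact differentiable_apply _
  · simp only [k3_pj_castSucc]
    exact differentiable_apply _

theorem k4_pj_act (j : Fin 4) (l : ℂ) (v : Fin 5 → ℂ) :
    pj j (act wS l v) = act wX l (pj j v) := by
  funext i
  refine Fin.lastCases ?_ (fun k => ?_) i
  · simp only [k3_pj_last, act]
    rfl
  · simp only [k3_pj_castSucc, act, k4_wS, k3_wX]

theorem k4_pj_maps (j : Fin 4) {v : Fin 5 → ℂ} (hv : v ∈ SC) : pj j v ∈ XC j := by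
  rw [← pj_image j]
  exact ⟨v, hv, rfl⟩

/-- The morphism `S → X_j`. -/
noncomputable def MJ (j : Fin 4) : Mor SS (XX j) where
  P := pj j
  hol := by exact k4_pj_diff j
  equiv := by exact fun l v => k4_pj_act j l v
  maps := by exact fun v hv => k4_pj_maps j hv

theorem k4_flip_diff (k : Fin 5) : Differentiable ℂ (flip1 k) := by
  refine differentiable_pi.2 fun i => ?_
  by_cases h : i = k
  · subst h
    simp only [flip1, Function.update_self]
    exact (differentiable_apply i).neg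
  · simp only [flip1, Function.update_of_ne h]
    exact differentiable_apply _

theorem k4_flip_act (k : Fin 5) (l : ℂ) (v : Fin 5 → ℂ) :
    flip1 k (act wS l v) = act wS l (flip1 k v) := by
  funext i
  by_cases h : i = k
  · subst h
    simp only [flip1, act, Function.update_self]
    ring
  · simp only [flip1, act, Function.update_of_ne h]

theorem k4_flip_sq (k : Fin 5) (v : Fin 5 → ℂ) (i : Fin 5) : flip1 k v i ^ 2 = v i ^ 2 := by
  by_cases h : i = k
  · subst h
    simp only [flip1, Function.update_self]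
    ring
  · simp only [flip1, Function.update_of_ne h]

theorem k4_flip_flip (k : Fin 5) (v : Fin 5 → ℂ) : flip1 k (flip1 k v) = v := by
  funext i
  by_cases h : i = k
  · subst h
    simp only [flip1, Function.update_self, neg_neg]
  · simp only [flip1, Function.update_of_ne h]

theorem k4_flip_maps (k : Fin 5) {v : Fin 5 → ℂ} (hv : v ∈ SC) : flip1 k v ∈ SC := by
  rw [mem_SC] at hv ⊢
  have h1 : sqv (flip1 k v) = sqv v := by
    funext i
    exact k4_flip_sq k v _
  rw [h1, k4_flip_sq]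
  refine ⟨?_, hv.2⟩
  intro h0
  apply hv.1
  rw [← k4_flip_flip k v, h0]
  funext i
  by_cases h : i = k
  · subst h
    simp [flip1]
  · simp only [flip1, Function.update_of_ne h]

/-- The involution `x_j ↦ - x_j`. -/
noncomputable def SJ (j : Fin 4) : Mor SS SS where
  P := flip1 j.castSucc
  hol := by exact k4_flip_diff j.castSucc
  equiv := by exact fun l v => k4_flip_act j.castSucc l v
  maps := by exact fun v hv => k4_flip_maps j.castSucc hv

theorem k4_pj_flip (j : Fin 4) (v : Fin 5 → ℂ) : pj j (flip1 j.castSucc v) = pj j v := by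
  funext i
  refine Fin.lastCases ?_ (fun k => ?_) i
  · rw [k3_pj_last, k3_pj_last]
    exact Function.update_of_ne (Fin.castSucc_lt_last j).ne' _ _
  · rw [k3_pj_castSucc, k3_pj_castSucc]
    refine Function.update_of_ne (fun h => ?_) _ _
    exact Fin.succAbove_ne j k (Fin.castSucc_injective _ h)

theorem k4_MJ_proj (j : Fin 4) {v : Fin 5 → ℂ} (hv : v ∈ SC) :
    (MJ j).toPt (SS.proj v) = (XX j).proj (pj j v) := (MJ j).toPt_proj hv

theorem k4_SJ_proj (j : Fin 4) {v : Fin 5 → ℂ} (hv : v ∈ SC) :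
    (SJ j).toPt (SS.proj v) = SS.proj (flip1 j.castSucc v) := (SJ j).toPt_proj hv

/-- two points of the cone with the same image -/
theorem k4_fibre (j : Fin 4) {u v : Fin 5 → ℂ} (hu : u ∈ SC) (hv : v ∈ SC)
    (h : pj j v = pj j u) : v = u ∨ v = flip1 j.castSucc u := by
  have h1 : ∀ k : Fin 3, v (j.succAbove k).castSucc = u (j.succAbove k).castSucc := fun k => by
    rw [← k3_pj_castSucc j v k, ← k3_pj_castSucc j u k, h]
  have h2 : v (Fin.last 4) = u (Fin.last 4) := by
    rw [← k3_pj_last j v, ← k3_pj_last j u, h]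
  have h3 : v j.castSucc ^ 2 = u j.castSucc ^ 2 := by
    rw [(k3_Fc j (mem_SC.1 hv).2.1).1, (k3_Fc j (mem_SC.1 hu).2.1).1]
    simp only [h1]
  rcases sq_eq_sq_iff_eq_or_eq_neg.1 h3 with h4 | h4
  · left
    funext i
    refine Fin.lastCases h2 (fun i => ?_) i
    refine Fin.succAboveCases j ?_ (fun k => ?_) i
    · exact h4
    · exact h1 k
  · right
    funext i
    refine Fin.lastCases ?_ (fun i => ?_) i
    · rw [h2]
      exact (Function.update_of_ne (Fin.castSucc_lt_last j).ne' _ _).symm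
    · refine Fin.succAboveCases j ?_ (fun k => ?_) i
      · rw [h4]
        simp only [flip1, Function.update_self]
      · rw [h1 k]
        refine (Function.update_of_ne (fun h => ?_) _ _).symm
        exact Fin.succAbove_ne j k (Fin.castSucc_injective _ h)

theorem k4_surj_S (p : SS.Pt) : ∃ v : Fin 5 → ℂ, v ∈ SC ∧ SS.proj v = p := by
  obtain ⟨v, hv, h⟩ := SS.proj_surj p
  exact ⟨v, hv, h⟩

theorem k4_surj_X (j : Fin 4) (p : (XX j).Pt) :
    ∃ v : Fin 4 → ℂ, v ∈ XC j ∧ (XX j).proj v = p := by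
  obtain ⟨v, hv, h⟩ := (XX j).proj_surj p
  exact ⟨v, hv, h⟩

theorem k4_proj_act {u : Fin 5 → ℂ} (hu : u ∈ SC) {l : ℂ} (hl : l ≠ 0) :
    SS.proj (act wS l u) = SS.proj u := SS.proj_act hu hl

theorem k4_act_mem {u : Fin 5 → ℂ} (hu : u ∈ SC) {l : ℂ} (hl : l ≠ 0) :
    act wS l u ∈ SC := SS.act_mem_cone hu hl

theorem k4_proj_eq (j : Fin 4) {a b : Fin 4 → ℂ} (ha : a ∈ XC j) (hb : b ∈ XC j)
    (h : (XX j).proj a = (XX j).proj b) : ∃ l : ℂ, l ≠ 0 ∧ b = act wX l a :=
  ((XX j).proj_eq_iff ha hb).1 h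

theorem MJ_double (j : Fin 4) : IsDouble (MJ j).toPt (SJ j).toPt := by
  refine ⟨?_, ?_, ?_, ?_, ?_⟩
  · intro p
    obtain ⟨u, hu, rfl⟩ := k4_surj_X j p
    rw [← pj_image j] at hu
    obtain ⟨v, hv, rfl⟩ := hu
    exact ⟨SS.proj v, k4_MJ_proj j hv⟩
  · exact (MJ j).toPt.continuous.isClosedMap
  · intro y
    obtain ⟨v, hv, rfl⟩ := k4_surj_S y
    rw [k4_SJ_proj j hv, k4_SJ_proj j (k4_flip_maps _ hv), k4_flip_flip]
  · intro y
    obtain ⟨v, hv, rfl⟩ := k4_surj_S y
    rw [k4_SJ_proj j hv, k4_MJ_proj j hv, k4_MJ_proj j (k4_flip_maps _ hv), k4_pj_flip]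
  · intro a b hab
    obtain ⟨u, hu, rfl⟩ := k4_surj_S a
    obtain ⟨v, hv, rfl⟩ := k4_surj_S b
    rw [k4_MJ_proj j hu, k4_MJ_proj j hv] at hab
    obtain ⟨l, hl, h1⟩ := k4_proj_eq j (k4_pj_maps j hu) (k4_pj_maps j hv) hab
    rw [← k4_pj_act] at h1
    have hu2 := k4_act_mem hu hl
    rcases k4_fibre j hu2 hv h1 with h3 | h3
    · left
      rw [h3]
      exact k4_proj_act hu hl
    · right
      rw [k4_SJ_proj j hu, h3, k4_flip_act]
      exact k4_proj_act (k4_flip_maps j.castSucc hu) hl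

/-- Insert the coordinate `x_j = s`. -/
noncomputable def k4ins (j : Fin 4) (s : ℂ) (u : Fin 4 → ℂ) : Fin 5 → ℂ :=
  Fin.snoc (α := fun _ => ℂ)
    (Fin.insertNth (α := fun _ => ℂ) j s (fun k : Fin 3 => u k.castSucc)) (u (Fin.last 3))

theorem k4_ins_c (j : Fin 4) (s : ℂ) (u : Fin 4 → ℂ) (k : Fin 3) :
    k4ins j s u (j.succAbove k).castSucc = u k.castSucc := by
  simp only [k4ins]
  rw [Fin.snoc_castSucc (α := fun _ => ℂ), Fin.insertNth_apply_succAbove]

theorem k4_ins_j (j : Fin 4) (s : ℂ) (u : Fin 4 → ℂ) : k4ins j s u j.castSucc = s := by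
  simp only [k4ins]
  rw [Fin.snoc_castSucc (α := fun _ => ℂ), Fin.insertNth_apply_same]

theorem k4_ins_last (j : Fin 4) (s : ℂ) (u : Fin 4 → ℂ) :
    k4ins j s u (Fin.last 4) = u (Fin.last 3) := Fin.snoc_last (α := fun _ => ℂ) _ _

theorem k4_pj_ins (j : Fin 4) (s : ℂ) (u : Fin 4 → ℂ) : pj j (k4ins j s u) = u := by
  funext i
  refine Fin.lastCases ?_ (fun k => ?_) i
  · rw [k3_pj_last, k4_ins_last]
  · rw [k3_pj_castSucc, k4_ins_c]

theorem k4_ins_mem (j : Fin 4) {s : ℂ} {u : Fin 4 → ℂ} (hu : u ∈ XC j)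
    (hs : s ^ 2 = - ∑ k : Fin 3, u k.castSucc ^ 2) : k4ins j s u ∈ SC := by
  rw [mem_XC] at hu
  have hpi : Pi0 (sqv (k4ins j s u)) := by
    unfold Pi0
    rw [Fin.sum_univ_succAbove _ j]
    simp only [sqv, k4_ins_c, k4_ins_j]
    rw [hs]
    ring
  refine mem_SC.2 ⟨?_, hpi, ?_⟩
  · intro h0
    apply hu.1
    rw [← k4_pj_ins j s u, h0]
    funext i
    refine Fin.lastCases ?_ (fun k => ?_) i
    · rw [k3_pj_last]; rfl
    · rw [k3_pj_castSucc]; rfl
  · rw [(k3_Fc j hpi).2, k4_ins_last, hu.2]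
    simp only [k4_ins_c]

theorem k4_ins_diff (j : Fin 4) {s : C2 → ℂ} {f : C2 → Fin 4 → ℂ} {z : C2}
    (hs : DifferentiableAt ℂ s z) (hf : DifferentiableAt ℂ f z) :
    DifferentiableAt ℂ (fun z => k4ins j (s z) (f z)) z := by
  have hf' := differentiableAt_pi.1 hf
  refine differentiableAt_pi.2 fun i => ?_
  refine Fin.lastCases ?_ (fun i => ?_) i
  · simp only [k4_ins_last]
    exact hf' _
  · refine Fin.succAboveCases j ?_ (fun k => ?_) i
    · simp only [k4_ins_j]
      exact hs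
    · simp only [k4_ins_c]
      exact hf' _

/-- A lift from a square root. -/
theorem k4_lift (j : Fin 4) {f : C2 → (XX j).Amb} {q : C2} (hf : (XX j).PlotAt f q)
    {s : C2 → ℂ} (hs : HolAt s q)
    (hsq : ∀ᶠ z in 𝓝 q, s z ^ 2 = - ∑ k : Fin 3, (f z : Fin 4 → ℂ) k.castSucc ^ 2) :
    ∃ g, SS.PlotAt g q ∧ ∀ᶠ z in 𝓝 q, (MJ j).P (g z) = f z := by
  refine ⟨fun z => k4ins j (s z) (f z), ?_, Filter.Eventually.of_forall fun z =>
    k4_pj_ins j (s z) (f z)⟩
  have hf1 : ∀ᶠ z in 𝓝 q, DifferentiableAt ℂ f z ∧ f z ∈ (XX j).cone := hf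
  filter_upwards [hf1, hs, hsq] with z h1 h2 h3
  exact ⟨k4_ins_diff j h2 h1.1, k4_ins_mem j h1.2 h3⟩

theorem k4_sqrt {u : C2 → ℂ} {q : C2} (hu : HolAt u q) (h0 : u q ≠ 0) :
    ∃ s : C2 → ℂ, HolAt s q ∧ ∀ z, s z ^ 2 = u z := by
  obtain ⟨s0, hs0⟩ := IsAlgClosed.exists_pow_nat_eq (u q) (n := 2) (by norm_num)
  refine ⟨fun z => s0 * (u z / u q) ^ ((2 : ℕ)⁻¹ : ℂ), ?_, fun z => ?_⟩
  · have h1 : HolAt (fun z => u z / u q) q := hu.div (holAt_const _ _) h0
    have h2 : ∀ᶠ z in 𝓝 q, u z / u q ∈ Complex.slitPlane := by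
      refine h1.continuousAt.eventually_mem (Complex.isOpen_slitPlane.mem_nhds ?_)
      rw [div_self h0]
      exact Complex.one_mem_slitPlane
    filter_upwards [h1, h2] with z h3 h4
    exact (h3.cpow (differentiableAt_const _) h4).const_mul s0
  · rw [mul_pow, hs0, Complex.cpow_nat_inv_pow _ two_ne_zero, mul_div_cancel₀ _ h0]

theorem MJ_lifts (j : Fin 4) : (MJ j).Lifts := by
  intro f q hf
  let u : C2 → ℂ := fun z => - ∑ k : Fin 3, (f z : Fin 4 → ℂ) k.castSucc ^ 2
  have hu : ∀ z, (XX j).PlotAt f z → HolAt u z := by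
    intro z hz
    have h1 : ∀ i : Fin 4, HolAt (fun z => (f z : Fin 4 → ℂ) i) z := holAt_pi.1 hz.holAt
    have h2 : HolAt (fun z => (f z : Fin 4 → ℂ) (Fin.castSucc 0) ^ 2 +
        (f z : Fin 4 → ℂ) (Fin.castSucc 1) ^ 2 + (f z : Fin 4 → ℂ) (Fin.castSucc 2) ^ 2) z :=
      (((h1 _).pow 2).add ((h1 _).pow 2)).add ((h1 _).pow 2)
    refine h2.neg.congr (Filter.Eventually.of_forall fun z => ?_)
    simp only [u, Fin.sum_univ_three]
    rfl
  by_cases hfr : ∃ᶠ z in 𝓝 q, u z ≠ 0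
  · right
    refine ⟨u, hu q hf, hfr, ?_⟩
    filter_upwards [hf.eventually] with z hz h0
    obtain ⟨s, hs, hsq⟩ := k4_sqrt (hu z hz) h0
    exact k4_lift j hz hs (Filter.Eventually.of_forall hsq)
  · left
    rw [Filter.not_frequently] at hfr
    refine k4_lift j hf (s := fun _ => 0) (holAt_const _ _) ?_
    filter_upwards [hfr] with z hz
    have h1 : u z = 0 := not_not.1 hz
    have h2 : u z = - ∑ k : Fin 3, (f z : Fin 4 → ℂ) k.castSucc ^ 2 := rfl
    rw [← h2, h1]
    norm_num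

theorem MJ_comm (j : Fin 4) (v : SS.Amb) : (MJ j).P ((SJ j).P v) = (MJ j).P v := by
  exact k4_pj_flip j v

end Pool.Agent.K3Pieces
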