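import Pool.Agent.Lib.MP_3004b3_ag.K0

/-!
# JOB L1: lifts and sign changes

* `lft y k = (Br y k) ^ (1/2)` (complex power): its square is `Br y k`, also for `Br y k = 0`.
* `larc v y k = v k * (Br y k / Br (sqv v) k) ^ (1/2)`: for `v ∈ SC0` and `y` near `sqv v` a
  holomorphic function of `y` (near `1` the complex power is holomorphic: `Complex.slitPlane`),
  equal to `v` at `y = sqv v`, and `(larc v y k) ^ 2 = v k ^ 2 * Br y k / Br (sqv v) k = Br y k`.
* `sign_inv`: if `v, v' ∈ SC0` have the same squares then `v' k = ± v k` for all `k`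
  (`sq_eq_Br`), so `v'` is obtained from `v` by at most five applications of `flip1`
  (go through the coordinates one by one; all the intermediate vectors are in `SC0` by
  `mem_SC_of_sq`).
* `r_lft`: the function `y ↦ r (lft y)` computes `r` at all lifts.
-/

set_option autoImplicit false

namespace Pool.Agent.K3Pieces

open scoped Topology

/-- A lift of the point `y` of the plane. -/
noncomputable def lft (y : Fin 4 → ℂ) : Fin 5 → ℂ := fun k => (Br y k) ^ (1 / 2 : ℂ)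

/-- The local lift near `v`. -/
noncomputable def larc (v : Fin 5 → ℂ) (y : Fin 4 → ℂ) : Fin 5 → ℂ :=
  fun k => v k * (Br y k / Br (sqv v) k) ^ (1 / 2 : ℂ)

theorem l1_half_sq (z : ℂ) : (z ^ (1 / 2 : ℂ)) ^ 2 = z := by
  have h := Complex.cpow_nat_inv_pow z (n := 2) two_ne_zero
  have e : (1 / 2 : ℂ) = ((2 : ℕ) : ℂ)⁻¹ := by norm_num
  rw [e]
  exact h

theorem l1_sqv_ne {v : Fin 5 → ℂ} (hv : v ∈ SC0) : sqv v ≠ 0 := by
  intro h
  have h1 : sqv v 0 = 0 := by rw [h]; rfl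
  have h2 : v (Fin.castSucc 0) ^ 2 = 0 := h1
  exact hv.2 _ (pow_eq_zero_iff two_ne_zero |>.1 h2)

theorem l1_mem {v u : Fin 5 → ℂ} (hv : v ∈ SC0) (h : ∀ k, u k ^ 2 = v k ^ 2) :
    u ∈ SC0 ∧ sqv u = sqv v := by
  have h1 : ∀ k, u k ^ 2 = Br (sqv v) k := fun k => by rw [h k, sq_eq_Br hv.1]
  obtain ⟨h2, h3⟩ := mem_SC_of_sq (mem_SC.1 hv.1).2.1 (l1_sqv_ne hv) h1
  refine ⟨⟨h2, fun k hk => ?_⟩, h3⟩
  have h4 := h k
  rw [hk] at h4
  have h5 : v k ^ 2 = 0 := by rw [← h4]; ring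
  exact hv.2 k (pow_eq_zero_iff two_ne_zero |>.1 h5)

theorem l1_near (a : ℂ) {ε : ℝ} (hε : 0 < ε) : ∀ᶠ z in 𝓝 (a ^ 2), ∃ w : ℂ, ‖w - a‖ < ε ∧ w ^ 2 = z := by
  have h1 : ∀ᶠ z in 𝓝 (a ^ 2), ‖z - a ^ 2‖ < ε ^ 2 := by
    have h2 := Metric.ball_mem_nhds (a ^ 2) (pow_pos hε 2)
    filter_upwards [h2] with z hz
    rwa [Metric.mem_ball, dist_eq_norm] at hz
  filter_upwards [h1] with z hz
  set w0 : ℂ := z ^ (1 / 2 : ℂ) with hw0
  have hw : w0 ^ 2 = z := l1_half_sq z
  have h3 : ‖w0 - a‖ * ‖w0 + a‖ < ε ^ 2 := by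
    rw [← norm_mul]
    have : (w0 - a) * (w0 + a) = z - a ^ 2 := by rw [← hw]; ring
    rwa [this]
  by_cases h4 : ‖w0 - a‖ < ε
  · exact ⟨w0, h4, hw⟩
  · push Not at h4
    refine ⟨-w0, ?_, by rw [neg_sq, hw]⟩
    have h5 : ‖-w0 - a‖ = ‖w0 + a‖ := by
      rw [← norm_neg]
      congr 1
      ring
    rw [h5]
    by_contra h6
    push Not at h6
    nlinarith [mul_le_mul h4 h6 hε.le (norm_nonneg _)]

theorem lft_sq (y : Fin 4 → ℂ) (k : Fin 5) : lft y k ^ 2 = Br y k := by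
  exact l1_half_sq _

theorem lft_mem {y : Fin 4 → ℂ} (hy : Pi0 y) (hy0 : y ≠ 0) : lft y ∈ SC ∧ sqv (lft y) = y := by
  exact mem_SC_of_sq hy hy0 (lft_sq y)

theorem lft_mem0 {y : Fin 4 → ℂ} (hy : Pi0 y) (h : ∀ k, Br y k ≠ 0) : lft y ∈ SC0 := by
  have hy0 : y ≠ 0 := by
    rintro rfl
    have h1 := h (Fin.castSucc 0)
    rw [Br_castSucc] at h1
    exact h1 rfl
  refine ⟨(lft_mem hy hy0).1, fun k hk => h k ?_⟩
  rw [← lft_sq y k, hk]
  ring

theorem continuous_Br : Continuous Br := by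
  refine continuous_pi fun k => ?_
  refine Fin.lastCases ?_ (fun i => ?_) k
  · simp only [Br_last]
    unfold Fc
    fun_prop
  · simp only [Br_castSucc]
    fun_prop

theorem differentiable_Br : Differentiable ℂ Br := by
  refine differentiable_pi.2 fun k => ?_
  refine Fin.lastCases ?_ (fun i => ?_) k
  · simp only [Br_last]
    unfold Fc
    fun_prop
  · simp only [Br_castSucc]
    fun_prop

theorem Br_ne_zero {v : Fin 5 → ℂ} (hv : v ∈ SC0) (k : Fin 5) : Br (sqv v) k ≠ 0 := by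
  rw [← sq_eq_Br hv.1 k]
  exact pow_ne_zero 2 (hv.2 k)

theorem larc_self {v : Fin 5 → ℂ} (hv : v ∈ SC0) : larc v (sqv v) = v := by
  funext k
  unfold larc
  rw [div_self (Br_ne_zero hv k), Complex.one_cpow, mul_one]

theorem larc_mem {v : Fin 5 → ℂ} (hv : v ∈ SC0) {y : Fin 4 → ℂ} (hy : Pi0 y)
    (h : ∀ k, Br y k ≠ 0) : larc v y ∈ SC0 ∧ sqv (larc v y) = y := by
  have hy0 : y ≠ 0 := by
    rintro rfl
    have h1 := h (Fin.castSucc 0)
    rw [Br_castSucc] at h1
    exact h1 rfl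
  have h1 : ∀ k, larc v y k ^ 2 = Br y k := by
    intro k
    unfold larc
    rw [mul_pow, l1_half_sq, sq_eq_Br hv.1 k]
    have := Br_ne_zero hv k
    field_simp
  obtain ⟨h2, h3⟩ := mem_SC_of_sq hy hy0 h1
  refine ⟨⟨h2, fun k hk => h k ?_⟩, h3⟩
  rw [← h1 k, hk]
  ring

theorem larc_holAt {v : Fin 5 → ℂ} (hv : v ∈ SC0) : HolAt (larc v) (sqv v) := by
  have h1 : ∀ k, ∀ᶠ y in 𝓝 (sqv v), Br y k / Br (sqv v) k ∈ Complex.slitPlane := by
    intro k
    have hc : ContinuousAt (fun y => Br y k / Br (sqv v) k) (sqv v) :=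
      (((continuous_apply k).comp continuous_Br).div_const _).continuousAt
    refine hc.eventually_mem (Complex.isOpen_slitPlane.mem_nhds ?_)
    rw [div_self (Br_ne_zero hv k)]
    exact Complex.one_mem_slitPlane
  have h2 : ∀ᶠ y in 𝓝 (sqv v), ∀ k, Br y k / Br (sqv v) k ∈ Complex.slitPlane :=
    Filter.eventually_all.2 h1
  filter_upwards [h2] with y hy
  refine differentiableAt_pi.2 fun k => ?_
  unfold larc
  refine DifferentiableAt.const_mul ?_ _
  refine DifferentiableAt.cpow ?_ (differentiableAt_const _) (hy k)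
  have h3 : DifferentiableAt ℂ (fun x => Br x k) y := differentiableAt_pi.1 (differentiable_Br y) k
  simpa only [div_eq_mul_inv] using h3.mul_const ((Br (sqv v) k)⁻¹)

theorem flip1_mem {v : Fin 5 → ℂ} (hv : v ∈ SC0) (k : Fin 5) :
    flip1 k v ∈ SC0 ∧ sqv (flip1 k v) = sqv v := by
  refine l1_mem hv fun j => ?_
  unfold flip1
  by_cases hj : j = k
  · subst hj
    rw [Function.update_self, neg_sq]
  · rw [Function.update_of_ne hj]

theorem flip_mem {v : Fin 5 → ℂ} (hv : v ∈ SC0) (E : Finset (Fin 4)) :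
    flip E v ∈ SC0 ∧ sqv (flip E v) = sqv v := by
  refine l1_mem hv fun j => ?_
  refine Fin.lastCases ?_ (fun i => ?_) j
  · unfold flip
    rw [Fin.snoc_last]
  · unfold flip
    rw [Fin.snoc_castSucc]
    split_ifs
    · rw [neg_sq]
    · rfl

theorem act_mem_SC0 {v : Fin 5 → ℂ} (hv : v ∈ SC0) {l : ℂ} (hl : l ≠ 0) :
    act wS l v ∈ SC0 ∧ sqv (act wS l v) = fun i => l ^ 2 * sqv v i := by
  have hy : Pi0 (fun i => l ^ 2 * sqv v i) := by
    unfold Pi0
    rw [← Finset.mul_sum]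
    have h1 : ∑ i, sqv v i = 0 := (mem_SC.1 hv.1).2.1
    rw [h1, mul_zero]
  have hy0 : (fun i => l ^ 2 * sqv v i) ≠ 0 := by
    intro h
    apply l1_sqv_ne hv
    funext i
    have h1 := congrFun h i
    exact (mul_eq_zero.1 h1).resolve_left (pow_ne_zero 2 hl)
  have h1 : ∀ k, act wS l v k ^ 2 = Br (fun i => l ^ 2 * sqv v i) k := by
    intro k
    refine Fin.lastCases ?_ (fun i => ?_) k
    · rw [Br_last]
      have h2 : v (Fin.last 4) ^ 2 = Fc (sqv v) := (mem_SC.1 hv.1).2.2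
      have h3 : act wS l v (Fin.last 4) = l ^ 3 * v (Fin.last 4) := rfl
      rw [h3, mul_pow, h2]
      unfold Fc
      rw [Finset.mul_sum]
      refine Finset.sum_congr rfl fun i _ => ?_
      ring
    · rw [Br_castSucc]
      have h2 : wS i.castSucc = 1 := by
        fin_cases i <;> rfl
      have h3 : act wS l v i.castSucc = l ^ 1 * v i.castSucc := by
        unfold act
        rw [h2]
      rw [h3]
      unfold sqv
      ring
  obtain ⟨h2, h3⟩ := mem_SC_of_sq hy hy0 h1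
  refine ⟨⟨h2, fun k => ?_⟩, h3⟩
  exact mul_ne_zero (pow_ne_zero _ hl) (hv.2 k)

theorem sign_inv {r : (Fin 5 → ℂ) → ℂ} (hr : SignInv r) {v v' : Fin 5 → ℂ} (hv : v ∈ SC0)
    (hv' : v' ∈ SC0) (h : sqv v = sqv v') : r v = r v' := by
  classical
  have key : ∀ D : Finset (Fin 5), ∀ v ∈ SC0, ∀ v' ∈ SC0, (∀ k, v k ^ 2 = v' k ^ 2) →
      (∀ k, k ∉ D → v k = v' k) → r v = r v' := by
    intro D
    induction D using Finset.induction_on with
    | empty =>
      intro v _ v' _ _ h2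
      rw [funext fun k => h2 k (Finset.notMem_empty k)]
    | insert a D ha ih =>
      intro v hv v' hv' h1 h2
      by_cases hva : v a = v' a
      · refine ih v hv v' hv' h1 fun k hk => ?_
        by_cases hka : k = a
        · rw [hka, hva]
        · exact h2 k (by simp [hka, hk])
      · have h3 : v a = - v' a := (sq_eq_sq_iff_eq_or_eq_neg.1 (h1 a)).resolve_left hva
        rw [← hr v hv a]
        refine ih (flip1 a v) (flip1_mem hv a).1 v' hv' (fun k => ?_) fun k hk => ?_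
        · rw [← h1 k]
          unfold flip1
          by_cases hka : k = a
          · subst hka
            rw [Function.update_self, neg_sq]
          · rw [Function.update_of_ne hka]
        · unfold flip1
          by_cases hka : k = a
          · subst hka
            rw [Function.update_self, h3, neg_neg]
          · rw [Function.update_of_ne hka]
            exact h2 k (by simp [hka, hk])
  refine key Finset.univ v hv v' hv' (fun k => ?_) (fun k hk => absurd (Finset.mem_univ k) hk)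
  rw [sq_eq_Br hv.1, sq_eq_Br hv'.1, h]

/-- Lifts of nearby points, near a given lift (branch points allowed). -/
theorem exists_near_lift {v0 : Fin 5 → ℂ} (hv0 : v0 ∈ SC) {N : Set (Fin 5 → ℂ)} (hN : N ∈ 𝓝 v0) :
    ∀ᶠ y in 𝓝 (sqv v0), Pi0 y → ∃ v ∈ N, v ∈ SC ∧ sqv v = y := by
  obtain ⟨ε, hε, hball⟩ := Metric.mem_nhds_iff.1 hN
  have h1 : ∀ k, ∀ᶠ y in 𝓝 (sqv v0), ∃ w : ℂ, ‖w - v0 k‖ < ε ∧ w ^ 2 = Br y k := by
    intro k
    have hc : ContinuousAt (fun y => Br y k) (sqv v0) :=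
      ((continuous_apply k).comp continuous_Br).continuousAt
    have h2 := l1_near (v0 k) hε
    rw [sq_eq_Br hv0 k] at h2
    exact hc.eventually h2
  have h2 : ∀ᶠ y in 𝓝 (sqv v0), ∀ k, ∃ w : ℂ, ‖w - v0 k‖ < ε ∧ w ^ 2 = Br y k :=
    Filter.eventually_all.2 h1
  have h3 : sqv v0 ≠ 0 := by
    intro h
    apply (mem_SC.1 hv0).1
    funext k
    have h4 := sq_eq_Br hv0 k
    rw [h] at h4
    have h5 : Br 0 k = 0 := by
      refine Fin.lastCases ?_ (fun i => ?_) k
      · rw [Br_last]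
        unfold Fc
        simp
      · rw [Br_castSucc]
        rfl
    rw [h5] at h4
    exact pow_eq_zero_iff two_ne_zero |>.1 h4
  have h4 : ∀ᶠ y in 𝓝 (sqv v0), y ≠ 0 := isOpen_ne.mem_nhds h3
  filter_upwards [h2, h4] with y hy hy0 hyP
  choose w hw1 hw2 using hy
  obtain ⟨h5, h6⟩ := mem_SC_of_sq hyP hy0 hw2
  refine ⟨w, hball ?_, h5, h6⟩
  rw [Metric.mem_ball, dist_pi_lt_iff hε]
  intro k
  rw [dist_eq_norm]
  exact hw1 k

end Pool.Agent.K3Pieces
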