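import Pool.Agent.Lib.MP_3004b3_ag.L1

/-!
# JOB L2: general lines in the plane

The plane `∑ y_i = 0` is parametrised by `t : Fin 3 → ℂ`,
`b t = ![-(t 0 + t 1 + t 2), t 0, t 1, t 2]`. Each of the finitely many conditions
on `b` in `Good a b` and `Good a' b` is `eval t p ≠ 0` for a polynomial `p ∈ ℂ[t_0, t_1, t_2]`. Each of
these polynomials is nonzero, as it has a nonzero value at some `t`:
* `Br b k ≠ 0`: for `k < 4` a difference of coordinate vectors `e_k - e_l`; for the cubic
  `Fc (e_0 - e_1) = 9 - 16`.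
* `a k * b i - a i * b k` (`i ≠ k`): `b = e_i - e_l` with `l ≠ i, k`: value `a k`.
* `Fc (b i • a - a i • b)`: `b = e_k - e_l` with `k, l ≠ i`, `k ≠ l`: value
  `- a i ^ 3 * (lam k - lam l)`, and the `lam` are different.
The product of these polynomials is nonzero, so it has a nonzero value somewhere
(`MvPolynomial.funext`).
-/

set_option autoImplicit false

namespace Pool.Agent.K3Pieces

open scoped Topology

/-- The line `a + s b` is in general position. -/
def Good (a b : Fin 4 → ℂ) : Prop :=
  (∀ k, Br b k ≠ 0) ∧ (∀ i k : Fin 4, i ≠ k → a k * b i - a i * b k ≠ 0) ∧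
    ∀ i : Fin 4, Fc (fun k => b i * a k - a i * b k) ≠ 0

open MvPolynomial in
theorem l2_gen {ι : Type} [Fintype ι] (p : ι → MvPolynomial (Fin 3) ℂ)
    (h : ∀ j, ∃ t, eval t (p j) ≠ 0) : ∃ t, ∀ j, eval t (p j) ≠ 0 := by
  classical
  have h1 : ∏ j, p j ≠ 0 := by
    refine Finset.prod_ne_zero_iff.2 fun j _ h0 => ?_
    obtain ⟨t, ht⟩ := h j
    rw [h0, map_zero] at ht
    exact ht rfl
  by_contra hcon
  push Not at hcon
  apply h1
  refine MvPolynomial.funext fun t => ?_
  obtain ⟨j, hj⟩ := hcon t
  rw [map_prod, map_zero]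
  exact Finset.prod_eq_zero (Finset.mem_univ j) hj

/-- The parametrisation of the plane. -/
noncomputable def l2_bp : Fin 4 → MvPolynomial (Fin 3) ℂ :=
  Fin.cons (-(∑ j, MvPolynomial.X j)) (fun j => MvPolynomial.X j)

theorem l2_bp_zero : l2_bp 0 = -(∑ j, MvPolynomial.X j) := rfl

theorem l2_bp_succ (j : Fin 3) : l2_bp j.succ = MvPolynomial.X j := rfl

theorem l2_bp_eval {b : Fin 4 → ℂ} (hb : Pi0 b) (i : Fin 4) :
    MvPolynomial.eval (fun j : Fin 3 => b j.succ) (l2_bp i) = b i := by
  have h1 : b 0 + ∑ j : Fin 3, b j.succ = 0 := by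
    rw [← Fin.sum_univ_succ]
    exact hb
  refine Fin.cases ?_ (fun j => ?_) i
  · rw [l2_bp_zero, map_neg, map_sum]
    simp only [MvPolynomial.eval_X]
    linear_combination -h1
  · rw [l2_bp_succ, MvPolynomial.eval_X]

theorem l2_bp_plane (t : Fin 3 → ℂ) : Pi0 (fun i => MvPolynomial.eval t (l2_bp i)) := by
  unfold Pi0
  rw [Fin.sum_univ_succ]
  simp only [l2_bp_zero, l2_bp_succ, map_neg, map_sum, MvPolynomial.eval_X]
  ring

/-- Difference of two coordinate vectors. -/
def l2_e (k l : Fin 4) : Fin 4 → ℂ := fun i => (if i = k then 1 else 0) - (if i = l then 1 else 0)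

theorem l2_e_plane (k l : Fin 4) : Pi0 (l2_e k l) := by
  unfold Pi0 l2_e
  rw [Finset.sum_sub_distrib]
  simp

/-- The conditions. -/
inductive l2_I : Type
  | br (k : Fin 5)
  | pr (c : Bool) (i k : Fin 4)
  | cu (c : Bool) (i : Fin 4)

/-- The index type is finite. -/
def l2_eq : l2_I ≃ Fin 5 ⊕ (Bool × Fin 4 × Fin 4) ⊕ (Bool × Fin 4) where
  toFun x := match x with
    | .br k => Sum.inl k
    | .pr c i k => Sum.inr (Sum.inl (c, i, k))
    | .cu c i => Sum.inr (Sum.inr (c, i))
  invFun x := match x with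
    | Sum.inl k => .br k
    | Sum.inr (Sum.inl (c, i, k)) => .pr c i k
    | Sum.inr (Sum.inr (c, i)) => .cu c i
  left_inv x := by cases x <;> rfl
  right_inv x := by
    rcases x with k | ⟨c, i, k⟩ | ⟨c, i⟩ <;> rfl

noncomputable instance l2_fin : Fintype l2_I := Fintype.ofEquiv _ l2_eq.symm

/-- The value of the condition at `b`. -/
noncomputable def l2_val (a a' b : Fin 4 → ℂ) : l2_I → ℂ
  | .br k => Br b k
  | .pr c i k => if i = k then 1 else (if c then a else a') k * b i - (if c then a else a') i * b k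
  | .cu c i => Fc (fun k => b i * (if c then a else a') k - (if c then a else a') i * b k)

open MvPolynomial in
/-- The polynomial of the condition. -/
noncomputable def l2_pol (a a' : Fin 4 → ℂ) : l2_I → MvPolynomial (Fin 3) ℂ
  | .br k => Fin.snoc (α := fun _ => MvPolynomial (Fin 3) ℂ) l2_bp (∑ i, C (lam i) * l2_bp i ^ 3) k
  | .pr c i k => if i = k then 1 else
      C ((if c then a else a') k) * l2_bp i - C ((if c then a else a') i) * l2_bp k
  | .cu c i => ∑ k, C (lam k) *
      (l2_bp i * C ((if c then a else a') k) - C ((if c then a else a') i) * l2_bp k) ^ 3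

theorem l2_eval (a a' : Fin 4 → ℂ) (t : Fin 3 → ℂ) (x : l2_I) :
    MvPolynomial.eval t (l2_pol a a' x) =
      l2_val a a' (fun i => MvPolynomial.eval t (l2_bp i)) x := by
  cases x with
  | br k =>
    simp only [l2_pol, l2_val]
    refine Fin.lastCases ?_ (fun i => ?_) k
    · rw [Fin.snoc_last, Br_last, Fc]
      simp only [map_sum, map_mul, map_pow, MvPolynomial.eval_C]
    · rw [Fin.snoc_castSucc, Br_castSucc]
  | pr c i k =>
    simp only [l2_pol, l2_val]
    split_ifs <;> simp
  | cu c i =>
    simp only [l2_pol, l2_val, Fc]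
    simp only [map_sum, map_mul, map_pow, map_sub, MvPolynomial.eval_C]

theorem l2_Br_ne {a : Fin 4 → ℂ} (h : ∀ k, Br a k ≠ 0) (i : Fin 4) : a i ≠ 0 := by
  have := h i.castSucc
  rwa [Br_castSucc] at this

theorem l2_exists (a a' : Fin 4 → ℂ) (h : ∀ k, Br a k ≠ 0) (h' : ∀ k, Br a' k ≠ 0) (x : l2_I) :
    ∃ b, Pi0 b ∧ l2_val a a' b x ≠ 0 := by
  have hc : ∀ (c : Bool) (i : Fin 4), (if c then a else a') i ≠ 0 := by
    intro c i
    cases c
    · exact l2_Br_ne h' i
    · exact l2_Br_ne h i
  cases x with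
  | br k =>
    simp only [l2_val]
    refine Fin.lastCases ?_ (fun i => ?_) k
    · refine ⟨l2_e 0 1, l2_e_plane _ _, ?_⟩
      rw [Br_last, Fc]
      simp only [Fin.sum_univ_four, l2_e, lam]
      norm_num [Fin.ext_iff]
    · obtain ⟨l, hl⟩ : ∃ l : Fin 4, i ≠ l := ⟨i + 1, by fin_cases i <;> decide⟩
      refine ⟨l2_e i l, l2_e_plane _ _, ?_⟩
      rw [Br_castSucc, l2_e, if_pos rfl, if_neg hl]
      norm_num
  | pr c i k =>
    simp only [l2_val]
    by_cases hik : i = k
    · refine ⟨l2_e 0 1, l2_e_plane _ _, ?_⟩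
      rw [if_pos hik]
      exact one_ne_zero
    · obtain ⟨l, hl, hl'⟩ : ∃ l : Fin 4, i ≠ l ∧ k ≠ l := by
        fin_cases i <;> fin_cases k <;> first | exact ⟨0, by decide⟩ | exact ⟨1, by decide⟩ | exact ⟨2, by decide⟩
      refine ⟨l2_e i l, l2_e_plane _ _, ?_⟩
      rw [if_neg hik]
      have e1 : l2_e i l i = 1 := by
        rw [l2_e, if_pos rfl, if_neg hl]
        norm_num
      have e2 : l2_e i l k = 0 := by
        rw [l2_e, if_neg (fun h => hik h.symm), if_neg hl']
        norm_num
      rw [e1, e2, mul_one, mul_zero, sub_zero]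
      exact hc c k
  | cu c i =>
    simp only [l2_val]
    obtain ⟨k, l, hki, hli, hkl⟩ : ∃ k l : Fin 4, i ≠ k ∧ i ≠ l ∧ lam k - lam l ≠ 0 := by
      fin_cases i
      · exact ⟨1, 2, by decide, by decide, by simp [lam]; norm_num⟩
      · exact ⟨0, 2, by decide, by decide, by simp [lam]; norm_num⟩
      · exact ⟨0, 1, by decide, by decide, by simp [lam]; norm_num⟩
      · exact ⟨0, 1, by decide, by decide, by simp [lam]; norm_num⟩
    refine ⟨l2_e k l, l2_e_plane _ _, ?_⟩
    have e1 : l2_e k l i = 0 := by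
      rw [l2_e, if_neg hki, if_neg hli]
      norm_num
    have hne : k ≠ l := by
      rintro rfl
      exact hkl (sub_self _)
    have e3 : Fc (fun k' => l2_e k l i * (if c then a else a') k' -
        (if c then a else a') i * l2_e k l k') = -((if c then a else a') i) ^ 3 * (lam k - lam l) := by
      rw [e1, Fc]
      have e4 : ∀ k', lam k' * (0 * (if c then a else a') k' -
          (if c then a else a') i * l2_e k l k') ^ 3 =
          -((if c then a else a') i) ^ 3 * ((if k' = k then lam k' else 0) -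
            (if k' = l then lam k' else 0)) := by
        intro k'
        unfold l2_e
        by_cases h1 : k' = k
        · have h2 : k' ≠ l := fun h2 => hne (h1.symm.trans h2)
          rw [if_pos h1, if_neg h2, if_pos h1, if_neg h2]
          ring
        · by_cases h2 : k' = l
          · rw [if_neg h1, if_pos h2, if_neg h1, if_pos h2]
            ring
          · rw [if_neg h1, if_neg h2, if_neg h1, if_neg h2]
            ring
      rw [Finset.sum_congr rfl fun k' _ => e4 k', ← Finset.mul_sum, Finset.sum_sub_distrib]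
      simp
    rw [e3]
    exact mul_ne_zero (neg_ne_zero.2 (pow_ne_zero 3 (hc c i))) hkl

/-- Two branch functions do not vanish at the same point of the line. -/
theorem l2_two {a b : Fin 4 → ℂ} (hg : Good a b) {s : ℂ} {k k' : Fin 5}
    (hk : Br (fun i => a i + s * b i) k = 0) (hk' : Br (fun i => a i + s * b i) k' = 0) : k = k' := by
  obtain ⟨hg1, hg2, hg3⟩ := hg
  have key1 : ∀ i j : Fin 4, a i + s * b i = 0 → a j + s * b j = 0 → i = j := by
    intro i j h1 h2
    by_contra hij
    apply hg2 i j hij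
    linear_combination b i * h2 - b j * h1
  have key2 : ∀ i : Fin 4, a i + s * b i = 0 → Fc (fun i => a i + s * b i) ≠ 0 := by
    intro i h1 h2
    apply hg3 i
    have e : (fun k => b i * a k - a i * b k) = fun k => b i * (a k + s * b k) := by
      funext k
      linear_combination - b k * h1
    rw [e]
    have e2 : Fc (fun k => b i * (a k + s * b k)) = b i ^ 3 * Fc (fun i => a i + s * b i) := by
      unfold Fc
      rw [Finset.mul_sum]
      refine Finset.sum_congr rfl fun k _ => ?_
      ring
    rw [e2, h2, mul_zero]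
  revert hk hk'
  refine Fin.lastCases ?_ (fun i => ?_) k
  · refine Fin.lastCases ?_ (fun j => ?_) k'
    · intro _ _
      rfl
    · intro h1 h2
      rw [Br_last] at h1
      rw [Br_castSucc] at h2
      exact absurd h1 (key2 j h2)
  · refine Fin.lastCases ?_ (fun j => ?_) k'
    · intro h1 h2
      rw [Br_last] at h2
      rw [Br_castSucc] at h1
      exact absurd h2 (key2 i h1)
    · intro h1 h2
      rw [Br_castSucc] at h1 h2
      rw [key1 i j h1 h2]

theorem exists_good {a a' : Fin 4 → ℂ} (ha : Pi0 a) (ha' : Pi0 a') (h : ∀ k, Br a k ≠ 0)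
    (h' : ∀ k, Br a' k ≠ 0) : ∃ b, Pi0 b ∧ Good a b ∧ Good a' b := by
  obtain ⟨t, ht⟩ := l2_gen (l2_pol a a') (fun x => by
    obtain ⟨b, hb, hx⟩ := l2_exists a a' h h' x
    refine ⟨fun j => b j.succ, ?_⟩
    rw [l2_eval]
    have e : (fun i => MvPolynomial.eval (fun j : Fin 3 => b j.succ) (l2_bp i)) = b :=
      funext fun i => l2_bp_eval hb i
    rw [e]
    exact hx)
  simp only [l2_eval] at ht
  refine ⟨_, l2_bp_plane t, ⟨fun k => ht (.br k), fun i k hik => ?_, fun i => ?_⟩,
    ⟨fun k => ht (.br k), fun i k hik => ?_, fun i => ?_⟩⟩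
  · have h1 := ht (.pr true i k)
    simp only [l2_val, if_neg hik, if_true] at h1
    exact h1
  · have h1 := ht (.cu true i)
    simp only [l2_val, if_true] at h1
    exact h1
  · have h1 := ht (.pr false i k)
    simp only [l2_val, if_neg hik, Bool.false_eq_true, if_false] at h1
    exact h1
  · have h1 := ht (.cu false i)
    simp only [l2_val, Bool.false_eq_true, if_false] at h1
    exact h1

/-- The zeros of the branch functions on a line in general position. -/
theorem good_zeros {a b : Fin 4 → ℂ} (ha : Pi0 a) (hb : Pi0 b) (h : ∀ k, Br a k ≠ 0)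
    (hg : Good a b) :
    {s : ℂ | ∃ k, Br (fun i => a i + s * b i) k = 0}.Finite ∧
      ∀ s : ℂ, (fun i => a i + s * b i) ≠ 0 ∧
        ∃ m, ∀ k, k ≠ m → Br (fun i => a i + s * b i) k ≠ 0 := by
  constructor
  · have h1 : {s : ℂ | ∃ k, Br (fun i => a i + s * b i) k = 0} =
        ⋃ k, {s : ℂ | Br (fun i => a i + s * b i) k = 0} := by
      ext s
      simp
    rw [h1]
    refine Set.finite_iUnion fun k => ?_
    refine Fin.lastCases ?_ (fun i => ?_) k
    · set P : Polynomial ℂ := ∑ i, Polynomial.C (lam i) *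
        (Polynomial.C (a i) + Polynomial.X * Polynomial.C (b i)) ^ 3 with hP
      have h2 : ∀ s, P.eval s = Fc (fun i => a i + s * b i) := by
        intro s
        rw [hP, Polynomial.eval_finsetSum, Fc]
        refine Finset.sum_congr rfl fun i _ => ?_
        simp only [Polynomial.eval_mul, Polynomial.eval_C, Polynomial.eval_pow, Polynomial.eval_add,
          Polynomial.eval_X]
      have hP0 : P ≠ 0 := by
        intro h0
        have h3 := h2 0
        rw [h0, Polynomial.eval_zero] at h3
        have h4 := h (Fin.last 4)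
        rw [Br_last] at h4
        apply h4
        rw [h3]
        congr 1
        funext i
        ring
      refine (P.roots.toFinset.finite_toSet).subset fun s hs => ?_
      have h3 : Br (fun i => a i + s * b i) (Fin.last 4) = 0 := hs
      rw [Br_last, ← h2] at h3
      simp only [Finset.mem_coe, Multiset.mem_toFinset]
      exact (Polynomial.mem_roots hP0).2 h3
    · refine (Set.finite_singleton (-(a i) / b i)).subset fun s hs => ?_
      have h3 : Br (fun i => a i + s * b i) i.castSucc = 0 := hs
      rw [Br_castSucc] at h3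
      have hb : b i ≠ 0 := l2_Br_ne hg.1 i
      rw [Set.mem_singleton_iff, eq_div_iff hb]
      linear_combination h3
  · intro s
    have hex : ∃ m, ∀ k, k ≠ m → Br (fun i => a i + s * b i) k ≠ 0 := by
      by_cases h1 : ∃ m, Br (fun i => a i + s * b i) m = 0
      · obtain ⟨m, hm⟩ := h1
        exact ⟨m, fun k hk h2 => hk (l2_two hg h2 hm)⟩
      · push Not at h1
        exact ⟨0, fun k _ => h1 k⟩
    refine ⟨fun h0 => ?_, hex⟩
    have h1 : Br (fun i => a i + s * b i) (Fin.castSucc 0) = 0 := by
      rw [h0, Br_castSucc]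
      rfl
    have h2 : Br (fun i => a i + s * b i) (Fin.castSucc 1) = 0 := by
      rw [h0, Br_castSucc]
      rfl
    exact absurd (l2_two hg h1 h2) (by decide)

end Pool.Agent.K3Pieces
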