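import Pool.Agent.Lib.MP_3004b3_ag.L1

/-!
# JOB L3: bound at the points of the branch curves

`r` is sign invariant, holomorphic along arcs, with `PoleBd r`; put `R y = r (lft y)`
(`R (sqv v) = r v` for `v ∈ SC0` by `sign_inv`). Let `y0 ≠ 0` be in the plane with `Br y0 k ≠ 0` for
all `k ≠ m`.

1. `half_bound`: there is `M` with `‖Br y m‖ ^ (1/2) * ‖R y‖ ≤ M` for all `y` near `y0` in the plane with
   all `Br y k ≠ 0`: `PoleBd` at `v0 = lft y0` gives `M` and a neighbourhood `N` of `v0`;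
   `exists_near_lift` gives a lift `v ∈ N` of `y`; `‖v m‖ = ‖Br y m‖ ^ (1/2)`, `r v = R y`.
2. If `Br y0 m ≠ 0` we are done (`‖Br y m‖` is bounded below near `y0`). Assume `Br y0 m = 0`. There is a
   direction `e` in the plane (`∑ e_i = 0`) in which the derivative `κ` of `Br · m` at `y0` is
   not zero: for `m < 4` take `e = e_m - e_l`, `κ = 1`. For `m = 4` (the cubic):
   `κ = 3 ∑ lam i * y0 i ^ 2 * e i`, and for `e = e_a - e_b` it is
   `3 (lam a * y0 a ^ 2 - lam b * y0 b ^ 2)`; if all these vanish then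
   `(3 y0 0)² = (4 y0 1)² = (5 y0 2)² = (9 y0 3)²`, so `y0 1 = ± 3/4 y0 0`, `y0 2 = ± 3/5 y0 0`,
   `y0 3 = ± 1/3 y0 0`, and `∑ y0 i = 0` gives `y0 0 = 0` in all eight cases, then `y0 = 0`.
3. There is `δ > 0` such that for all `y` in the plane near `y0` and `‖τ‖, ‖τ'‖ ≤ δ`:
   `‖φ τ - φ τ'‖ ≥ (‖κ‖ / 2) ‖τ - τ'‖` with `φ τ = Br (y + τ e) m` (mean value inequality for
   `φ τ - κ τ`, whose derivative is small), all `Br (y + τ e) k ≠ 0` for `k ≠ m`, and the bound of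
   step 1 holds at `y + τ e`. For `y` near `y0`, `‖φ 0‖ ≤ ‖κ‖ δ / 4`, so `‖φ τ‖ ≥ ‖κ‖ δ / 4` on the
   circle `‖τ‖ = δ`, where therefore `‖R (y + τ e)‖ ≤ M' = M / (‖κ‖ δ / 4) ^ (1/2)`.
4. In the disc `φ` has at most one zero `τ*`, and `‖R (y + τ e)‖ ≤ M (‖κ‖ ‖τ - τ*‖ / 2) ^ (- 1/2)` for
   `τ ≠ τ*`. The function `τ ↦ R (y + τ e)` is differentiable at `τ ≠ τ*` (`line_differentiable`), so
   the singularity at `τ*` is removable
   (`Complex.differentiableOn_update_limUnder_of_isLittleO`), and by the maximum principle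
   (`Complex.norm_le_of_forall_mem_frontier_norm_le`) `‖R y‖ ≤ M'` (if all `Br y k ≠ 0`).
-/

set_option autoImplicit false

namespace Pool.Agent.K3Pieces

open scoped Topology

theorem l3_affine_diff (y e : Fin 4 → ℂ) :
    Differentiable ℂ (fun t : ℂ => (fun i => y i + t * e i : Fin 4 → ℂ)) := by
  refine differentiable_pi.2 fun i => ?_
  fun_prop

theorem l3_pi0 {y e : Fin 4 → ℂ} (hy : Pi0 y) (he : Pi0 e) (t : ℂ) :
    Pi0 (fun i => y i + t * e i) := by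
  unfold Pi0 at *
  rw [Finset.sum_add_distrib, ← Finset.mul_sum, hy, he]
  ring

theorem l3_ne {y : Fin 4 → ℂ} (h : ∀ k, Br y k ≠ 0) : y ≠ 0 := by
  rintro rfl
  have h1 := h (Fin.castSucc 0)
  rw [Br_castSucc] at h1
  exact h1 rfl

theorem l3_sqv {y : Fin 4 → ℂ} (hy : Pi0 y) (h : ∀ k, Br y k ≠ 0) : sqv (lft y) = y :=
  (lft_mem hy (l3_ne h)).2

/-- Along lines the function `R` is holomorphic at the unbranched points: near `τ` it is
`r (larc v (y + τ' e))`, `v = lft (y + τ e)`. -/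
theorem line_differentiable {r : (Fin 5 → ℂ) → ℂ} (hr : SignInv r) (ha : ArcHol r)
    {y e : Fin 4 → ℂ} (hy : Pi0 y) (he : Pi0 e) {τ : ℂ}
    (h : ∀ k, Br (fun i => y i + τ * e i) k ≠ 0) :
    DifferentiableAt ℂ (fun t : ℂ => r (lft (fun i => y i + t * e i))) τ := by
  have hP1 : Pi0 (fun i => y i + τ * e i) := l3_pi0 hy he τ
  have hv : lft (fun i => y i + τ * e i) ∈ SC0 := lft_mem0 hP1 h
  have hsq : sqv (lft (fun i => y i + τ * e i)) = (fun i => y i + τ * e i) := l3_sqv hP1 h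
  have hL : Differentiable ℂ (fun t : ℂ => (fun i => y i + t * e i : Fin 4 → ℂ)) :=
    l3_affine_diff y e
  have hcont : ContinuousAt (fun t : ℂ => (fun i => y i + t * e i : Fin 4 → ℂ)) τ :=
    (hL τ).continuousAt
  have h1 : ∀ᶠ t in 𝓝 τ, ∀ k, Br (fun i => y i + t * e i) k ≠ 0 := by
    refine Filter.eventually_all.2 fun k => ?_
    have hc : ContinuousAt (fun t : ℂ => Br (fun i => y i + t * e i) k) τ :=
      ((continuous_apply k).comp (continuous_Br.comp hL.continuous)).continuousAt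
    exact hc.eventually_ne (h k)
  have h2 : ∀ᶠ t in 𝓝 τ, DifferentiableAt ℂ (larc (lft (fun i => y i + τ * e i)))
      (fun i => y i + t * e i) := by
    have h3 := larc_holAt hv
    rw [hsq] at h3
    exact hcont.eventually h3
  have h3 : DifferentiableAt ℂ
      (fun t : ℂ => r (larc (lft (fun i => y i + τ * e i)) (fun i => y i + t * e i))) τ := by
    refine ha (fun t => larc (lft (fun i => y i + τ * e i)) (fun i => y i + t * e i)) τ ?_
    filter_upwards [h1, h2] with t ht1 ht2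
    have h6 : DifferentiableAt ℂ ((larc (lft (fun i => y i + τ * e i))) ∘
        (fun t : ℂ => (fun i => y i + t * e i : Fin 4 → ℂ))) t := DifferentiableAt.comp t ht2 (hL t)
    exact ⟨h6, (larc_mem hv (l3_pi0 hy he t) ht1).1⟩
  refine h3.congr_of_eventuallyEq ?_
  filter_upwards [h1] with t ht
  have hPt := l3_pi0 hy he t
  have h5 := larc_mem hv hPt ht
  have h6 := lft_mem0 hPt ht
  exact sign_inv hr h6 h5.1 (by rw [h5.2, l3_sqv hPt ht])

theorem half_bound {r : (Fin 5 → ℂ) → ℂ} (hr : SignInv r) (hp : PoleBd r)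
    {y0 : Fin 4 → ℂ} (hy0 : Pi0 y0) (h0 : y0 ≠ 0) {m : Fin 5} (hm : ∀ k, k ≠ m → Br y0 k ≠ 0) :
    ∃ M : ℝ, 0 ≤ M ∧ ∀ᶠ y in 𝓝 y0, Pi0 y → (∀ k, Br y k ≠ 0) →
      ‖Br y m‖ ^ (1 / 2 : ℝ) * ‖r (lft y)‖ ≤ M := by
  obtain ⟨hvS, hvq⟩ := lft_mem hy0 h0
  have hvk : ∀ k, k ≠ m → lft y0 k ≠ 0 := by
    intro k hk hz
    apply hm k hk
    rw [← lft_sq y0 k, hz]
    ring
  obtain ⟨M, hM⟩ := hp (lft y0) hvS m hvk
  have h1 := exists_near_lift hvS hM
  rw [hvq] at h1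
  refine ⟨max M 0, le_max_right _ _, ?_⟩
  filter_upwards [h1] with y hy hP hB
  obtain ⟨v, hvN, hvS', hvq'⟩ := hy hP
  have hv0 : v ∈ SC0 := by
    refine ⟨hvS', fun k hk => hB k ?_⟩
    rw [← hvq', ← sq_eq_Br hvS' k, hk]
    ring
  have h2 : ‖v m * r v‖ ≤ M := hvN hv0
  have h3 : ‖v m‖ = ‖Br y m‖ ^ (1 / 2 : ℝ) := by
    rw [← hvq', ← sq_eq_Br hvS' m, norm_pow, ← Real.sqrt_eq_rpow, Real.sqrt_sq (norm_nonneg _)]
  have h4 : r v = r (lft y) :=
    sign_inv hr hv0 (lft_mem0 hP hB) (by rw [hvq', l3_sqv hP hB])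
  rw [norm_mul, h3, h4] at h2
  exact h2.trans (le_max_left _ _)

theorem l3_dir {y0 : Fin 4 → ℂ} (hy0 : Pi0 y0) (h0 : y0 ≠ 0) (m : Fin 5) :
    ∃ (e : Fin 4 → ℂ) (Ψ : (Fin 4 → ℂ) × ℂ × ℂ → ℂ), Pi0 e ∧ Continuous Ψ ∧
      Ψ (y0, 0, 0) ≠ 0 ∧ ∀ (y : Fin 4 → ℂ) (τ τ' : ℂ),
        Br (fun i => y i + τ * e i) m - Br (fun i => y i + τ' * e i) m =
          (τ - τ') * Ψ (y, τ, τ') := by
  refine Fin.lastCases ?_ (fun j => ?_) m
  · have hex : ∃ e : Fin 4 → ℂ, Pi0 e ∧ ∑ i, lam i * e i * (3 * y0 i ^ 2) ≠ 0 := by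
      by_contra hcon
      push Not at hcon
      have h1 := hcon ![1, -1, 0, 0] (by simp [Pi0, Fin.sum_univ_four])
      have h2 := hcon ![1, 0, -1, 0] (by simp [Pi0, Fin.sum_univ_four])
      have h3 := hcon ![1, 0, 0, -1] (by simp [Pi0, Fin.sum_univ_four])
      simp only [Fin.sum_univ_four, lam, Matrix.cons_val] at h1 h2 h3
      have e1 : (3 * y0 0) ^ 2 = (4 * y0 1) ^ 2 := by linear_combination h1 / 3
      have e2 : (3 * y0 0) ^ 2 = (5 * y0 2) ^ 2 := by linear_combination h2 / 3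
      have e3 : (3 * y0 0) ^ 2 = (9 * y0 3) ^ 2 := by linear_combination h3 / 3
      have hs : y0 0 + y0 1 + y0 2 + y0 3 = 0 := by
        have := hy0
        unfold Pi0 at this
        rwa [Fin.sum_univ_four] at this
      have hz : y0 0 = 0 := by
        rcases sq_eq_sq_iff_eq_or_eq_neg.1 e1 with f1 | f1 <;>
        rcases sq_eq_sq_iff_eq_or_eq_neg.1 e2 with f2 | f2 <;>
        rcases sq_eq_sq_iff_eq_or_eq_neg.1 e3 with f3 | f3
        · linear_combination (60 * hs + 15 * f1 + 12 * f2 + (20 / 3) * f3) / 161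
        · linear_combination (60 * hs + 15 * f1 + 12 * f2 - (20 / 3) * f3) / 121
        · linear_combination (60 * hs + 15 * f1 - 12 * f2 + (20 / 3) * f3) / 89
        · linear_combination (60 * hs + 15 * f1 - 12 * f2 - (20 / 3) * f3) / 49
        · linear_combination (60 * hs - 15 * f1 + 12 * f2 + (20 / 3) * f3) / 71
        · linear_combination (60 * hs - 15 * f1 + 12 * f2 - (20 / 3) * f3) / 31
        · linear_combination (60 * hs - 15 * f1 - 12 * f2 + (20 / 3) * f3) / (-1)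
        · linear_combination (60 * hs - 15 * f1 - 12 * f2 - (20 / 3) * f3) / (-41)
      rw [hz] at e1 e2 e3
      have g1 : y0 1 = 0 := by
        have : y0 1 ^ 2 = 0 := by linear_combination -e1 / 16
        exact pow_eq_zero_iff two_ne_zero |>.1 this
      have g2 : y0 2 = 0 := by
        have : y0 2 ^ 2 = 0 := by linear_combination -e2 / 25
        exact pow_eq_zero_iff two_ne_zero |>.1 this
      have g3 : y0 3 = 0 := by
        have : y0 3 ^ 2 = 0 := by linear_combination -e3 / 81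
        exact pow_eq_zero_iff two_ne_zero |>.1 this
      apply h0
      funext i
      fin_cases i
      · exact hz
      · exact g1
      · exact g2
      · exact g3
    obtain ⟨e, he, hne⟩ := hex
    refine ⟨e, fun p => ∑ i, lam i * e i * ((p.1 i + p.2.1 * e i) ^ 2 +
      (p.1 i + p.2.1 * e i) * (p.1 i + p.2.2 * e i) + (p.1 i + p.2.2 * e i) ^ 2), he, ?_, ?_, ?_⟩
    · fun_prop
    · have h1 : (∑ i, lam i * e i * ((y0 i + 0 * e i) ^ 2 +
          (y0 i + 0 * e i) * (y0 i + 0 * e i) + (y0 i + 0 * e i) ^ 2)) =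
          ∑ i, lam i * e i * (3 * y0 i ^ 2) := by
        refine Finset.sum_congr rfl fun i _ => ?_
        ring
      show (∑ i, lam i * e i * ((y0 i + 0 * e i) ^ 2 +
          (y0 i + 0 * e i) * (y0 i + 0 * e i) + (y0 i + 0 * e i) ^ 2)) ≠ 0
      rw [h1]
      exact hne
    · intro y τ τ'
      rw [Br_last, Br_last]
      unfold Fc
      rw [← Finset.sum_sub_distrib, Finset.mul_sum]
      refine Finset.sum_congr rfl fun i _ => ?_
      ring
  · have hex : ∃ e : Fin 4 → ℂ, Pi0 e ∧ e j = 1 := by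
      fin_cases j
      · exact ⟨![1, -1, 0, 0], by simp [Pi0, Fin.sum_univ_four], rfl⟩
      · exact ⟨![-1, 1, 0, 0], by simp [Pi0, Fin.sum_univ_four], rfl⟩
      · exact ⟨![-1, 0, 1, 0], by simp [Pi0, Fin.sum_univ_four], rfl⟩
      · exact ⟨![-1, 0, 0, 1], by simp [Pi0, Fin.sum_univ_four], rfl⟩
    obtain ⟨e, he, hj⟩ := hex
    refine ⟨e, fun _ => 1, he, continuous_const, one_ne_zero, ?_⟩
    intro y τ τ'
    rw [Br_castSucc, Br_castSucc, hj]
    ring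

theorem l3_disc {g φ : ℂ → ℂ} {c δ M : ℝ} (hc : 0 < c) (hδ : 0 < δ) (hM : 0 ≤ M)
    (hφ : ∀ τ τ' : ℂ, ‖τ‖ ≤ δ → ‖τ'‖ ≤ δ → c * ‖τ - τ'‖ ≤ ‖φ τ - φ τ'‖)
    (hg : ∀ τ : ℂ, ‖τ‖ ≤ δ → φ τ ≠ 0 → DifferentiableAt ℂ g τ)
    (hb : ∀ τ : ℂ, ‖τ‖ ≤ δ → φ τ ≠ 0 → ‖φ τ‖ ^ (1 / 2 : ℝ) * ‖g τ‖ ≤ M)
    (h0 : φ 0 ≠ 0) (h0' : ‖φ 0‖ ≤ c * δ / 2) :
    ‖g 0‖ ≤ M / (c * δ / 2) ^ (1 / 2 : ℝ) := by
  have hcd : 0 < c * δ / 2 := by positivity
  have hcirc : ∀ τ : ℂ, ‖τ‖ = δ → c * δ / 2 ≤ ‖φ τ‖ := by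
    intro τ hτ
    have h1 := hφ τ 0 hτ.le (by rw [norm_zero]; exact hδ.le)
    rw [sub_zero, hτ] at h1
    have h2 := norm_sub_le (φ τ) (φ 0)
    linarith
  have hbd : ∀ τ : ℂ, ‖τ‖ = δ → ‖g τ‖ ≤ M / (c * δ / 2) ^ (1 / 2 : ℝ) := by
    intro τ hτ
    have h1 := hcirc τ hτ
    have hne : φ τ ≠ 0 := norm_pos_iff.1 (hcd.trans_le h1)
    have h2 := hb τ hτ.le hne
    rw [le_div_iff₀ (Real.rpow_pos_of_pos hcd _)]
    have h3 : (c * δ / 2) ^ (1 / 2 : ℝ) ≤ ‖φ τ‖ ^ (1 / 2 : ℝ) :=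
      Real.rpow_le_rpow hcd.le h1 (by norm_num)
    calc ‖g τ‖ * (c * δ / 2) ^ (1 / 2 : ℝ) ≤ ‖g τ‖ * ‖φ τ‖ ^ (1 / 2 : ℝ) :=
          mul_le_mul_of_nonneg_left h3 (norm_nonneg _)
      _ = ‖φ τ‖ ^ (1 / 2 : ℝ) * ‖g τ‖ := mul_comm _ _
      _ ≤ M := h2
  have hmain : ∀ G : ℂ → ℂ, (∀ τ : ℂ, ‖τ‖ ≤ δ → DifferentiableAt ℂ G τ) →
      (∀ τ : ℂ, ‖τ‖ = δ → ‖G τ‖ ≤ M / (c * δ / 2) ^ (1 / 2 : ℝ)) →
      ‖G 0‖ ≤ M / (c * δ / 2) ^ (1 / 2 : ℝ) := by
    intro G hG hGb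
    have hd : DiffContOnCl ℂ G (Metric.ball 0 δ) := by
      refine DifferentiableOn.diffContOnCl ?_
      rw [closure_ball (0 : ℂ) hδ.ne']
      intro τ hτ
      exact (hG τ (by simpa using hτ)).differentiableWithinAt
    refine Complex.norm_le_of_forall_mem_frontier_norm_le (U := Metric.ball (0 : ℂ) δ)
      Metric.isBounded_ball hd ?_ (subset_closure (Metric.mem_ball_self hδ))
    intro z hz
    rw [frontier_ball (0 : ℂ) hδ.ne'] at hz
    exact hGb z (by simpa using hz)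
  by_cases hex : ∃ t : ℂ, ‖t‖ ≤ δ ∧ φ t = 0
  · obtain ⟨t, htδ, ht⟩ := hex
    have htlt : ‖t‖ < δ := by
      refine lt_of_le_of_ne htδ fun h => ?_
      have h1 := hcirc t h
      rw [ht, norm_zero] at h1
      linarith
    have ht0 : t ≠ 0 := by
      rintro rfl
      exact h0 ht
    have hlow : ∀ z : ℂ, ‖z‖ ≤ δ → c * ‖z - t‖ ≤ ‖φ z‖ := by
      intro z hz
      have h1 := hφ z t hz htδ
      rwa [ht, sub_zero] at h1
    have hnz : ∀ z : ℂ, ‖z‖ ≤ δ → z ≠ t → φ z ≠ 0 := by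
      intro z hz hne hzz
      have h1 := hlow z hz
      rw [hzz, norm_zero] at h1
      have h2 : 0 < ‖z - t‖ := norm_pos_iff.2 (sub_ne_zero.2 hne)
      have h3 : 0 < c * ‖z - t‖ := mul_pos hc h2
      linarith
    have hball : Metric.ball (0 : ℂ) δ ∈ 𝓝 t :=
      Metric.isOpen_ball.mem_nhds (by simpa using htlt)
    have ho : (fun z => g z - g t) =o[𝓝[≠] t] fun z => (z - t)⁻¹ := by
      refine Asymptotics.isLittleO_of_tendsto' ?_ ?_
      · filter_upwards [self_mem_nhdsWithin] with z hz h1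
        exact absurd h1 (inv_ne_zero (sub_ne_zero.2 hz))
      · have ht1 : Filter.Tendsto (fun z : ℂ => M * √(c * ‖z - t‖) / c + ‖g t‖ * ‖z - t‖)
            (𝓝[≠] t) (𝓝 0) := by
          have hcont : Continuous (fun z : ℂ => M * √(c * ‖z - t‖) / c + ‖g t‖ * ‖z - t‖) := by
            fun_prop
          exact (hcont.tendsto' t 0 (by simp)).mono_left nhdsWithin_le_nhds
        refine squeeze_zero_norm' ?_ ht1
        filter_upwards [self_mem_nhdsWithin, mem_nhdsWithin_of_mem_nhds hball] with z hz hzb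
        have hzδ : ‖z‖ ≤ δ := by
          have : ‖z‖ < δ := by simpa using hzb
          exact this.le
        have h1 := hb z hzδ (hnz z hzδ hz)
        have h2 := hlow z hzδ
        have h3 : √(c * ‖z - t‖) ≤ ‖φ z‖ ^ (1 / 2 : ℝ) := by
          rw [← Real.sqrt_eq_rpow]
          exact Real.sqrt_le_sqrt h2
        have h4 : √(c * ‖z - t‖) * ‖g z‖ ≤ M :=
          (mul_le_mul_of_nonneg_right h3 (norm_nonneg _)).trans h1
        have h5 : √(c * ‖z - t‖) * √(c * ‖z - t‖) = c * ‖z - t‖ :=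
          Real.mul_self_sqrt (mul_nonneg hc.le (norm_nonneg _))
        have h6 : ‖g z‖ * ‖z - t‖ ≤ M * √(c * ‖z - t‖) / c := by
          rw [le_div_iff₀ hc]
          calc ‖g z‖ * ‖z - t‖ * c = ‖g z‖ * (c * ‖z - t‖) := by ring
            _ = ‖g z‖ * (√(c * ‖z - t‖) * √(c * ‖z - t‖)) := by rw [h5]
            _ = √(c * ‖z - t‖) * ‖g z‖ * √(c * ‖z - t‖) := by ring
            _ ≤ M * √(c * ‖z - t‖) := mul_le_mul_of_nonneg_right h4 (Real.sqrt_nonneg _)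
        rw [div_inv_eq_mul, norm_mul]
        calc ‖g z - g t‖ * ‖z - t‖ ≤ (‖g z‖ + ‖g t‖) * ‖z - t‖ :=
              mul_le_mul_of_nonneg_right (norm_sub_le _ _) (norm_nonneg _)
          _ = ‖g z‖ * ‖z - t‖ + ‖g t‖ * ‖z - t‖ := by ring
          _ ≤ M * √(c * ‖z - t‖) / c + ‖g t‖ * ‖z - t‖ := by linarith
    obtain ⟨L, hD⟩ : ∃ L : ℂ, DifferentiableOn ℂ (Function.update g t L) (Metric.ball (0 : ℂ) δ) :=
      ⟨_, Complex.differentiableOn_update_limUnder_of_isLittleO (f := g) (c := t)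
      (s := Metric.ball (0 : ℂ) δ) hball (fun z hz => by
        have hzδ : ‖z‖ ≤ δ := by
          have : ‖z‖ < δ := by simpa using hz.1
          exact this.le
        exact (hg z hzδ (hnz z hzδ hz.2)).differentiableWithinAt) ho⟩
    have h1 := hmain (Function.update g t L) ?_ ?_
    · rwa [Function.update_of_ne (Ne.symm ht0)] at h1
    · intro z hz
      by_cases hzt : z = t
      · rw [hzt]
        exact hD.differentiableAt hball
      · refine (hg z hz (hnz z hz hzt)).congr_of_eventuallyEq ?_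
        filter_upwards [eventually_ne_nhds hzt] with w hw
        exact Function.update_of_ne hw _ _
    · intro z hz
      have hzt : z ≠ t := by
        rintro rfl
        linarith
      rw [Function.update_of_ne hzt]
      exact hbd z hz
  · push Not at hex
    exact hmain g (fun τ hτ => hg τ hτ (hex τ hτ)) hbd

theorem branch_bound {r : (Fin 5 → ℂ) → ℂ} (hr : SignInv r) (ha : ArcHol r) (hp : PoleBd r)
    {y0 : Fin 4 → ℂ} (hy0 : Pi0 y0) (h0 : y0 ≠ 0) {m : Fin 5} (hm : ∀ k, k ≠ m → Br y0 k ≠ 0) :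
    ∃ M : ℝ, ∀ᶠ y in 𝓝 y0, Pi0 y → (∀ k, Br y k ≠ 0) → ‖r (lft y)‖ ≤ M := by
  obtain ⟨M, hM0, hM⟩ := half_bound hr hp hy0 h0 hm
  have hcB : ∀ k, Continuous (fun y => Br y k) := fun k => (continuous_apply k).comp continuous_Br
  by_cases hB : Br y0 m = 0
  · obtain ⟨e, Ψ, he, hΨc, hΨ0, hΨ⟩ := l3_dir hy0 h0 m
    set c : ℝ := ‖Ψ (y0, 0, 0)‖ / 2 with hcdef
    have hn0 : 0 < ‖Ψ (y0, 0, 0)‖ := norm_pos_iff.2 hΨ0
    have hc : 0 < c := by rw [hcdef]; linarith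
    have hQ : ∀ᶠ y in 𝓝 y0, (∀ k, k ≠ m → Br y k ≠ 0) ∧
        (Pi0 y → (∀ k, Br y k ≠ 0) → ‖Br y m‖ ^ (1 / 2 : ℝ) * ‖r (lft y)‖ ≤ M) := by
      refine Filter.Eventually.and ?_ hM
      refine Filter.eventually_all.2 fun k => ?_
      by_cases hk : k = m
      · exact Filter.Eventually.of_forall fun y h => absurd hk h
      · filter_upwards [(hcB k).continuousAt.eventually_ne (hm k hk)] with y h _
        exact h
    have hLc : Continuous (fun p : (Fin 4 → ℂ) × ℂ × ℂ => (fun i => p.1 i + p.2.1 * e i :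
        Fin 4 → ℂ)) := by
      fun_prop
    have hL0 : (fun i => ((y0, 0, 0) : (Fin 4 → ℂ) × ℂ × ℂ).1 i +
        ((y0, 0, 0) : (Fin 4 → ℂ) × ℂ × ℂ).2.1 * e i) = y0 := by
      funext i
      simp
    have h1 : ∀ᶠ p in 𝓝 ((y0, 0, 0) : (Fin 4 → ℂ) × ℂ × ℂ), c ≤ ‖Ψ p‖ := by
      have hlt : c < ‖Ψ (y0, 0, 0)‖ := by rw [hcdef]; linarith
      filter_upwards [(hΨc.norm.continuousAt (x := (y0, 0, 0))).eventually_const_lt hlt] with p hp'
      exact hp'.le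
    have h2 : ∀ᶠ p in 𝓝 ((y0, 0, 0) : (Fin 4 → ℂ) × ℂ × ℂ),
        (∀ k, k ≠ m → Br (fun i => p.1 i + p.2.1 * e i) k ≠ 0) ∧
        (Pi0 (fun i => p.1 i + p.2.1 * e i) → (∀ k, Br (fun i => p.1 i + p.2.1 * e i) k ≠ 0) →
          ‖Br (fun i => p.1 i + p.2.1 * e i) m‖ ^ (1 / 2 : ℝ) *
            ‖r (lft (fun i => p.1 i + p.2.1 * e i))‖ ≤ M) := by
      have h3 : Filter.Tendsto (fun p : (Fin 4 → ℂ) × ℂ × ℂ => (fun i => p.1 i + p.2.1 * e i :
        Fin 4 → ℂ)) (𝓝 (y0, 0, 0)) (𝓝 y0) := by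
        have h4 := hLc.tendsto ((y0, 0, 0) : (Fin 4 → ℂ) × ℂ × ℂ)
        rwa [hL0] at h4
      exact h3.eventually hQ
    obtain ⟨ε, hε, hbox⟩ := Metric.eventually_nhds_iff.1 (h1.and h2)
    have hδ : 0 < ε / 2 := by linarith
    have hcd : 0 < c * (ε / 2) / 2 := by positivity
    have hbox' : ∀ y : Fin 4 → ℂ, dist y y0 < ε → ∀ τ τ' : ℂ, ‖τ‖ ≤ ε / 2 → ‖τ'‖ ≤ ε / 2 →
        dist ((y, τ, τ') : (Fin 4 → ℂ) × ℂ × ℂ) (y0, 0, 0) < ε := by
      intro y hy τ τ' hτ hτ'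
      rw [Prod.dist_eq, Prod.dist_eq]
      refine max_lt hy (max_lt ?_ ?_)
      · show dist τ 0 < ε
        rw [dist_zero_right]
        linarith
      · show dist τ' 0 < ε
        rw [dist_zero_right]
        linarith
    refine ⟨M / (c * (ε / 2) / 2) ^ (1 / 2 : ℝ), ?_⟩
    have h3 : ∀ᶠ y in 𝓝 y0, ‖Br y m‖ < c * (ε / 2) / 2 := by
      refine (hcB m).norm.continuousAt.eventually_lt_const ?_
      show ‖Br y0 m‖ < c * (ε / 2) / 2
      rw [hB, norm_zero]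
      exact hcd
    have h4 : ∀ᶠ y in 𝓝 y0, dist y y0 < ε := Metric.ball_mem_nhds y0 hε
    filter_upwards [h3, h4] with y hy3 hy4 hP hBk
    have hy0' : (fun i => y i + (0 : ℂ) * e i) = y := by
      funext i
      ring
    have hsmall : ∀ τ τ' : ℂ, ‖τ‖ ≤ ε / 2 → ‖τ'‖ ≤ ε / 2 → _ :=
      fun τ τ' hτ hτ' => hbox (hbox' y hy4 τ τ' hτ hτ')
    have hz0 : ‖(0 : ℂ)‖ ≤ ε / 2 := by rw [norm_zero]; exact hδ.le
    have h5 := l3_disc (g := fun τ : ℂ => r (lft (fun i => y i + τ * e i)))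
      (φ := fun τ : ℂ => Br (fun i => y i + τ * e i) m) hc hδ hM0 ?_ ?_ ?_ ?_ ?_
    · simp only [hy0'] at h5
      exact h5
    · intro τ τ' hτ hτ'
      have h6 := (hsmall τ τ' hτ hτ').1
      show c * ‖τ - τ'‖ ≤ ‖Br (fun i => y i + τ * e i) m - Br (fun i => y i + τ' * e i) m‖
      rw [hΨ y τ τ', norm_mul, mul_comm]
      exact mul_le_mul_of_nonneg_left h6 (norm_nonneg _)
    · intro τ hτ hne
      refine line_differentiable hr ha hP he ?_
      intro k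
      by_cases hk : k = m
      · rw [hk]
        exact hne
      · exact (hsmall τ 0 hτ hz0).2.1 k hk
    · intro τ hτ hne
      refine (hsmall τ 0 hτ hz0).2.2 (l3_pi0 hP he τ) ?_
      intro k
      by_cases hk : k = m
      · rw [hk]
        exact hne
      · exact (hsmall τ 0 hτ hz0).2.1 k hk
    · show Br (fun i => y i + (0 : ℂ) * e i) m ≠ 0
      rw [hy0']
      exact hBk m
    · show ‖Br (fun i => y i + (0 : ℂ) * e i) m‖ ≤ c * (ε / 2) / 2
      rw [hy0']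
      exact hy3.le
  · have hn0 : 0 < ‖Br y0 m‖ := norm_pos_iff.2 hB
    have hn1 : 0 < ‖Br y0 m‖ / 2 := by linarith
    refine ⟨M / (‖Br y0 m‖ / 2) ^ (1 / 2 : ℝ), ?_⟩
    have h3 : ∀ᶠ y in 𝓝 y0, ‖Br y0 m‖ / 2 < ‖Br y m‖ := by
      refine (hcB m).norm.continuousAt.eventually_const_lt ?_
      linarith
    filter_upwards [hM, h3] with y hy hy3 hP hBk
    have h4 := hy hP hBk
    rw [le_div_iff₀ (Real.rpow_pos_of_pos hn1 _)]
    have h5 : (‖Br y0 m‖ / 2) ^ (1 / 2 : ℝ) ≤ ‖Br y m‖ ^ (1 / 2 : ℝ) :=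
      Real.rpow_le_rpow hn1.le hy3.le (by norm_num)
    calc ‖r (lft y)‖ * (‖Br y0 m‖ / 2) ^ (1 / 2 : ℝ) ≤ ‖r (lft y)‖ * ‖Br y m‖ ^ (1 / 2 : ℝ) :=
          mul_le_mul_of_nonneg_left h5 (norm_nonneg _)
      _ = ‖Br y m‖ ^ (1 / 2 : ℝ) * ‖r (lft y)‖ := mul_comm _ _
      _ ≤ M := h4

end Pool.Agent.K3Pieces
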