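import Pool.Agent.Lib.MP_3004b3_ag.L2
import Pool.Agent.Lib.MP_3004b3_ag.L3

/-!
# JOB L4: the Liouville theorem on the covering

1. `line_const`. Let `a`, `b` be a good pair, `R y = r (lft y)`, `ρ s = R (a + s b)`. Off the finite set
   `Z` of zeros (`good_zeros`) `ρ` is differentiable (`line_differentiable`), and near each point of
   `Z` it is bounded (`branch_bound`). So it extends to an entire function
   (`Complex.differentiableOn_update_limUnder_of_bddAbove`, finitely many points; or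
   `fun s => limUnder (𝓝[≠] s) ρ`).
2. Weight: for `c ≠ 0` choose `l` with `l ^ 2 = c`; `act wS l (lft y)` is a lift of `c • y`
   (`act_mem_SC0`), so `l ^ N * R (c • y) = R y`, `‖R (c • y)‖ = ‖c‖ ^ (- N / 2) ‖R y‖`, and
   `R (c • y) = R y` if `N = 0`. As `a + s b = s (b + s⁻¹ a)` and `R` is bounded near `b` (all
   `Br b k ≠ 0`; `branch_bound` with any `m`), `ρ` is bounded for large `s`. So the entire extension is
   bounded, hence constant (`Differentiable.apply_eq_apply_of_bounded`).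
3. If `N > 0`, `ρ s → 0` for `s → ∞`, so the constant is `0`. If `N = 0`: for small `t ≠ 0`,
   `R (b + t a) = R (a + t⁻¹ b)` is the constant, and `t ↦ R (b + t a)` is continuous at `0`
   (`line_differentiable` at `b`), so `R b` is the constant `ρ 0 = R a`.
4. `liouville`: for `v, v' ∈ SC0` choose `b` by `exists_good` for `a = sqv v`, `a' = sqv v'`; so
   `r v = R a = R b = R a' = r v'`, and `= 0` if `N > 0`. (If `SC0` is empty there is nothing to
   prove.)
-/

set_option autoImplicit false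

namespace Pool.Agent.K3Pieces

open scoped Topology

open Filter in
theorem l4_extend {ρ : ℂ → ℂ} {Z : Set ℂ} (hZ : Z.Finite)
    (hd : ∀ s, s ∉ Z → DifferentiableAt ℂ ρ s)
    (hb : ∀ s0, ∃ M : ℝ, ∀ᶠ s in 𝓝 s0, s ∉ Z → ‖ρ s‖ ≤ M) :
    ∃ g : ℂ → ℂ, Differentiable ℂ g ∧ ∀ s, s ∉ Z → g s = ρ s := by
  have hg : ∀ s, s ∉ Z → limUnder (𝓝[≠] s) ρ = ρ s := fun s hs =>
    ((hd s hs).continuousAt.tendsto.mono_left nhdsWithin_le_nhds).limUnder_eq
  refine ⟨fun s => limUnder (𝓝[≠] s) ρ, fun s0 => ?_, hg⟩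
  obtain ⟨M, hM⟩ := hb s0
  set U : Set ℂ := {s | s ∉ Z \ {s0} ∧ (s ∉ Z → ‖ρ s‖ ≤ M)} with hU
  have hUn : U ∈ 𝓝 s0 := by
    have h1 : (Z \ {s0})ᶜ ∈ 𝓝 s0 :=
      (hZ.subset Set.sdiff_subset).isClosed.isOpen_compl.mem_nhds (by simp)
    filter_upwards [h1, hM] with s h2 h3
    exact ⟨h2, h3⟩
  have hUZ : ∀ s ∈ U \ {s0}, s ∉ Z := fun s hs h => hs.1.1 ⟨h, hs.2⟩
  have h1 := Complex.differentiableOn_update_limUnder_of_bddAbove hUn (f := ρ)
    (fun s hs => (hd s (hUZ s hs)).differentiableWithinAt) (by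
      refine ⟨M, ?_⟩
      rintro _ ⟨s, hs, rfl⟩
      exact hs.1.2 (hUZ s hs))
  refine (h1.differentiableAt hUn).congr_of_eventuallyEq ?_
  filter_upwards [hUn] with s hs
  by_cases h : s = s0
  · rw [h, Function.update_self]
  · rw [Function.update_of_ne h]
    exact hg s (hUZ s ⟨hs, h⟩)

theorem l4_Pi0_smul {y : Fin 4 → ℂ} (hy : Pi0 y) (c : ℂ) : Pi0 (fun i => c * y i) := by
  unfold Pi0 at *
  rw [← Finset.mul_sum, hy, mul_zero]

theorem l4_Pi0_add {a b : Fin 4 → ℂ} (ha : Pi0 a) (hb : Pi0 b) (s : ℂ) :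
    Pi0 (fun i => a i + s * b i) := by
  unfold Pi0 at *
  rw [Finset.sum_add_distrib, ← Finset.mul_sum, hb, mul_zero, ha, add_zero]

theorem weight_lft {r : (Fin 5 → ℂ) → ℂ} {N : ℕ} (hr : SignInv r) (hw : HasWt N r)
    {y : Fin 4 → ℂ} (hy : Pi0 y) (h : ∀ k, Br y k ≠ 0) {l : ℂ} (hl : l ≠ 0) :
    l ^ N * r (lft (fun i => l ^ 2 * y i)) = r (lft y) := by
  have h1 := lft_mem0 hy h
  have hy0 : y ≠ 0 := by
    rintro rfl
    exact h 0 (by rw [show (0 : Fin 5) = Fin.castSucc (0 : Fin 4) from rfl, Br_castSucc]; rfl)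
  have h2 := (lft_mem hy hy0).2
  obtain ⟨h3, h4⟩ := act_mem_SC0 h1 hl
  rw [h2] at h4
  have h5 : ∀ k, Br (fun i => l ^ 2 * y i) k ≠ 0 := fun k => by
    rw [← h4]
    exact Br_ne_zero h3 k
  have h6 := lft_mem0 (l4_Pi0_smul hy (l ^ 2)) h5
  have h7 : (fun i => l ^ 2 * y i) ≠ 0 := by
    intro h8
    exact h5 0 (by rw [h8, show (0 : Fin 5) = Fin.castSucc (0 : Fin 4) from rfl, Br_castSucc]; rfl)
  have h8 := (lft_mem (l4_Pi0_smul hy (l ^ 2)) h7).2
  rw [sign_inv hr h6 h3 (h8.trans h4.symm)]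
  exact hw _ h1 l hl

theorem line_const {r : (Fin 5 → ℂ) → ℂ} {N : ℕ} (hr : SignInv r) (ha : ArcHol r)
    (hp : PoleBd r) (hw : HasWt N r) {a b : Fin 4 → ℂ} (hpa : Pi0 a) (hpb : Pi0 b)
    (h : ∀ k, Br a k ≠ 0) (hg : Good a b) :
    r (lft a) = r (lft b) ∧ (0 < N → r (lft a) = 0) := by
  obtain ⟨hZ, hZ2⟩ := good_zeros hpa hpb h hg
  set Z : Set ℂ := {s : ℂ | ∃ k, Br (fun i => a i + s * b i) k = 0} with hZdef
  have hnZ : ∀ s, s ∉ Z → ∀ k, Br (fun i => a i + s * b i) k ≠ 0 := fun s hs k hk => hs ⟨k, hk⟩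
  set ρ : ℂ → ℂ := fun s => r (lft (fun i => a i + s * b i)) with hρ
  have hd : ∀ s, s ∉ Z → DifferentiableAt ℂ ρ s := fun s hs =>
    line_differentiable hr ha hpa hpb (hnZ s hs)
  have hbd : ∀ s0, ∃ M : ℝ, ∀ᶠ s in 𝓝 s0, s ∉ Z → ‖ρ s‖ ≤ M := by
    intro s0
    obtain ⟨h1, m, hm⟩ := hZ2 s0
    obtain ⟨M, hM⟩ := branch_bound hr ha hp (l4_Pi0_add hpa hpb s0) h1 hm
    refine ⟨M, ?_⟩
    have hc : Continuous fun s : ℂ => (fun i => a i + s * b i : Fin 4 → ℂ) := by fun_prop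
    have h2 := (hc.tendsto s0).eventually hM
    filter_upwards [h2] with s h3 hs
    exact h3 (l4_Pi0_add hpa hpb s) (hnZ s hs)
  obtain ⟨g, hgd, hgρ⟩ := l4_extend hZ hd hbd
  have h0Z : (0 : ℂ) ∉ Z := by
    rintro ⟨k, hk⟩
    apply h k
    simpa using hk
  have hg0 : g 0 = r (lft a) := by
    rw [hgρ 0 h0Z, hρ]
    simp
  set G : ℂ → ℂ := fun t => r (lft (fun i => b i + t * a i)) with hG
  have hG0 : G 0 = r (lft b) := by
    rw [hG]
    simp
  have hGc : ContinuousAt G 0 :=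
    (line_differentiable hr ha hpb hpa (τ := 0) (by simpa using hg.1)).continuousAt
  choose L hL using fun s : ℂ => IsAlgClosed.exists_pow_nat_eq s (n := 2) two_pos
  have hinv : Filter.Tendsto (fun s : ℂ => s⁻¹) (Bornology.cobounded ℂ) (𝓝 0) :=
    Filter.tendsto_inv₀_cobounded
  have hGinv : Filter.Tendsto (fun s : ℂ => G s⁻¹) (Bornology.cobounded ℂ) (𝓝 (G 0)) :=
    hGc.tendsto.comp hinv
  have hLinv : Filter.Tendsto (fun s : ℂ => (L s)⁻¹) (Bornology.cobounded ℂ) (𝓝 0) := by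
    rw [tendsto_zero_iff_norm_tendsto_zero]
    have h1 : ∀ s : ℂ, ‖(L s)⁻¹‖ = Real.sqrt ‖s⁻¹‖ := by
      intro s
      rw [← Real.sqrt_sq (norm_nonneg (L s)⁻¹), ← norm_pow, inv_pow, hL]
    simp only [h1]
    have h2 := (Real.continuous_sqrt.tendsto 0).comp (hinv.norm.trans (by rw [norm_zero]))
    rw [Real.sqrt_zero] at h2
    exact h2
  have hrel : ∀ᶠ s in Bornology.cobounded ℂ, s ≠ 0 ∧ (L s) ^ N * g s = G s⁻¹ := by
    have h1 : ∀ᶠ s in Bornology.cobounded ℂ, s ∉ Z := by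
      have := hZ.isBounded
      exact Bornology.isBounded_def.1 this
    have h2 : ∀ᶠ s in Bornology.cobounded ℂ, s ≠ (0 : ℂ) := by
      have h4 : Bornology.IsBounded ({0} : Set ℂ) := Bornology.isBounded_singleton
      exact Bornology.isBounded_def.1 h4
    have h3 : ∀ᶠ t in 𝓝 (0 : ℂ), ∀ k, Br (fun i => b i + t * a i) k ≠ 0 := by
      rw [Filter.eventually_all]
      intro k
      have hc : Continuous fun t : ℂ => Br (fun i => b i + t * a i) k :=
        (continuous_apply k).comp (continuous_Br.comp (by fun_prop))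
      refine hc.continuousAt.eventually_ne ?_
      simpa using hg.1 k
    filter_upwards [h1, h2, hinv.eventually h3] with s h4 h5 h6
    refine ⟨h5, ?_⟩
    have hLs : L s ≠ 0 := by
      intro h7
      have := hL s
      rw [h7] at this
      exact h5 (by rw [← this]; norm_num)
    have h7 := weight_lft hr hw (l4_Pi0_add hpb hpa s⁻¹) h6 hLs
    have h8 : (fun i => L s ^ 2 * (b i + s⁻¹ * a i)) = fun i => a i + s * b i := by
      funext i
      rw [hL]
      field_simp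
      ring
    rw [h8] at h7
    rw [hgρ s h4]
    exact h7
  have hlim : Filter.Tendsto g (Bornology.cobounded ℂ) (𝓝 (G 0 * 0 ^ N)) := by
    refine (hGinv.mul (hLinv.pow N)).congr' ?_
    filter_upwards [hrel] with s hs
    have hLs : L s ≠ 0 := by
      intro h7
      have := hL s
      rw [h7] at this
      exact hs.1 (by rw [← this]; norm_num)
    rw [← hs.2, inv_pow]
    field_simp
  rw [Metric.cobounded_eq_cocompact] at hlim
  have hconst : ∀ s, g s = G 0 * 0 ^ N := fun s => hgd.apply_eq_of_tendsto_cocompact s hlim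
  rcases Nat.eq_zero_or_pos N with hN | hN
  · refine ⟨?_, fun h => absurd h (by omega)⟩
    rw [← hg0, ← hG0, hconst 0, hN, pow_zero, mul_one]
  · have h1 : ∀ s, g s = 0 := fun s => by rw [hconst s, zero_pow hN.ne', mul_zero]
    have h2 : r (lft a) = 0 := by rw [← hg0, h1]
    have h3 : G 0 = 0 := by
      refine tendsto_nhds_unique hGinv ?_
      refine tendsto_const_nhds.congr' ?_
      filter_upwards [hrel] with s hs
      rw [← hs.2, h1, mul_zero]
    exact ⟨by rw [h2, ← hG0, h3], fun _ => h2⟩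

/-- A sign invariant function of weight `- N ≤ 0`, holomorphic along arcs and with at most
poles of order one half along the branch curves, is constant, and zero if `N > 0`. -/
theorem liouville {r : (Fin 5 → ℂ) → ℂ} {N : ℕ} (hr : SignInv r) (ha : ArcHol r)
    (hp : PoleBd r) (hw : HasWt N r) :
    ∃ C : ℂ, (∀ v ∈ SC0, r v = C) ∧ (0 < N → C = 0) := by
  have key : ∀ v ∈ SC0, r (lft (sqv v)) = r v := by
    intro v hv
    have h1 := (mem_SC.1 hv.1).2.1
    have h2 := Br_ne_zero hv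
    have h3 : sqv v ≠ 0 := by
      intro h4
      have := h2 0
      rw [h4] at this
      exact this (by rw [show (0 : Fin 5) = Fin.castSucc (0 : Fin 4) from rfl, Br_castSucc]; rfl)
    exact sign_inv hr (lft_mem0 h1 h2) hv (lft_mem h1 h3).2
  by_cases hne : SC0.Nonempty
  · obtain ⟨v0, hv0⟩ := hne
    have key2 : ∀ v ∈ SC0, r v = r v0 ∧ (0 < N → r v = 0) := by
      intro v hv
      obtain ⟨b, hb, hg, hg'⟩ := exists_good (mem_SC.1 hv.1).2.1 (mem_SC.1 hv0.1).2.1
        (Br_ne_zero hv) (Br_ne_zero hv0)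
      have h1 := line_const hr ha hp hw (mem_SC.1 hv.1).2.1 hb (Br_ne_zero hv) hg
      have h2 := line_const hr ha hp hw (mem_SC.1 hv0.1).2.1 hb (Br_ne_zero hv0) hg'
      rw [key v hv] at h1
      rw [key v0 hv0] at h2
      exact ⟨h1.1.trans h2.1.symm, h1.2⟩
    exact ⟨r v0, fun v hv => (key2 v hv).1, (key2 v0 hv0).2⟩
  · exact ⟨0, fun v hv => absurd ⟨v, hv⟩ hne, fun _ => rfl⟩

end Pool.Agent.K3Pieces
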