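import Pool.Agent.Lib.MP_3004b3_ag.C2
import Pool.Agent.Lib.MP_3004b3_ag.E0

/-!
# JOB M0: two forms which agree over a dense part of the surface are equal

`O` is a subset of the ambient space, stable under the action of `ℂˣ` on the cone, with
`X.cone ⊆ closure (X.cone ∩ O)`.

Proof. 1. Let `C` be a chart. The set `{d ∈ C.D | C.f d ∈ O}` is dense in `C.D`: let `D' ⊆ C.D` be open
and not empty, `d' ∈ D'`, `v = C.f d'`. The image `V'` of `D'` is open (`Chart.open_sub`) and contains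
`X.proj v`; as `X.proj` is continuous on the cone (`continuousOn_proj`) and
`v ∈ closure (cone ∩ O)`, there is `u ∈ cone ∩ O` with `X.proj u ∈ V'`, so
`X.proj u = X.proj (C.f d'')` with `d'' ∈ D'`, and `C.f d'' = act l u ∈ O` (`proj_eq_iff`).
2. `ω C.f` and `ω' C.f` are continuous on `C.D` (they are differentiable at all points) and agree on
the dense subset, so they agree on `C.D`.
3. Let `g` be a local map at `q`, `C` a chart at `X.proj (g q)`. By `Chart.factor`, near `q`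
`g = act l (C.f ∘ d)` with `d z = C.κ (X.proj (g z))`, so by `germ`, `scale`, `pull`:
`ω g q = ω C.f (d q) * (fderiv ℂ d q).det ^ m`, and the same for `ω'`.
-/

set_option autoImplicit false

namespace Pool.Agent.K3Pieces

open scoped Topology

namespace Surf

variable {X : Surf}

theorem m0_dense {p : X.Pt} (C : X.Chart p) {O : Set X.Amb}
    (hO : ∀ v ∈ X.cone ∩ O, ∀ l : ℂ, l ≠ 0 → act X.w l v ∈ O)
    (hd : X.cone ⊆ closure (X.cone ∩ O)) {D' : Set C2} (hD' : IsOpen D') (hsub : D' ⊆ C.D)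
    (hne : D'.Nonempty) : ∃ d ∈ D', C.f d ∈ O := by
  obtain ⟨d', hd'⟩ := hne
  have hv : C.f d' ∈ X.cone := (C.plot d' (hsub hd')).mem
  have hV' := C.open_sub hD' hsub
  have h1 : Filter.Tendsto X.proj (𝓝[X.cone] (C.f d')) (𝓝 (X.proj (C.f d'))) :=
    continuousOn_proj X (C.f d') hv
  have h2 : ∀ᶠ u in 𝓝[X.cone] (C.f d'), X.proj u ∈ (fun d => X.proj (C.f d)) '' D' :=
    h1.eventually (hV'.mem_nhds ⟨d', hd', rfl⟩)
  rw [eventually_nhdsWithin_iff] at h2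
  have h3 := mem_closure_iff_frequently.1 (hd hv)
  obtain ⟨u, ⟨hu, huO⟩, h4⟩ := (h3.and_eventually h2).exists
  obtain ⟨d'', hd'', h5⟩ := h4 hu
  obtain ⟨l, hl, h6⟩ := (proj_eq_iff X hu (C.plot d'' (hsub hd'')).mem).1 h5.symm
  exact ⟨d'', hd'', by rw [h6]; exact hO u ⟨hu, huO⟩ l hl⟩

theorem m0_chart {T : Type} [TopologicalSpace T] [T2Space T] {p : X.Pt} (C : X.Chart p)
    {O : Set X.Amb} (hO : ∀ v ∈ X.cone ∩ O, ∀ l : ℂ, l ≠ 0 → act X.w l v ∈ O)
    (hd : X.cone ⊆ closure (X.cone ∩ O)) {F F' : C2 → T} (hF : ∀ d ∈ C.D, ContinuousAt F d)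
    (hF' : ∀ d ∈ C.D, ContinuousAt F' d) (he : ∀ d ∈ C.D, C.f d ∈ O → F d = F' d) :
    ∀ d ∈ C.D, F d = F' d := by
  intro d hdD
  by_contra hne
  have h1 : ∀ᶠ z in 𝓝 d, F z ≠ F' z := by
    have h3 : IsOpen (Set.diagonal T)ᶜ := isClosed_diagonal.isOpen_compl
    exact ((hF d hdD).prodMk (hF' d hdD)).eventually_mem (h3.mem_nhds hne)
  have h2 : ∀ᶠ z in 𝓝 d, z ∈ C.D := C.isOpen.mem_nhds hdD
  obtain ⟨t, ht, hto, hdt⟩ := eventually_nhds_iff.1 (h1.and h2)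
  obtain ⟨z, hz, hzO⟩ := m0_dense C hO hd hto (fun x hx => (ht x hx).2) ⟨d, hdt⟩
  exact (ht z hz).1 (he z (ht z hz).2 hzO)

/-- The factorisation through a chart. -/
theorem m0_factor {g : C2 → X.Amb} {q : C2} (hg : X.PlotAt g q) :
    ∃ C : X.Chart (X.proj (g q)), ∃ d : C2 → C2, ∃ l : C2 → ℂ, HolAt d q ∧ HolAt l q ∧ l q ≠ 0 ∧
      d q ∈ C.D ∧ X.PlotAt (fun z => C.f (d z)) q ∧
      g =ᶠ[𝓝 q] fun z => act X.w (l z) ((fun z => C.f (d z)) z) := by
  obtain ⟨C, _⟩ := exists_chart X (X.proj (g q)) isOpen_univ (Set.mem_univ _)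
  obtain ⟨h1, l, h2, h3, h4⟩ := C.factor hg C.mem_V
  have h5 : C.κ (X.proj (g q)) ∈ C.D := C.κ_mem C.mem_V
  exact ⟨C, fun z => C.κ (X.proj (g z)), l, h1, h2, h3, h5, (C.plot _ h5).comp h1, h4⟩

theorem IsPluri.ext_of_dense {m : ℕ} {ω ω' : (C2 → X.Amb) → C2 → ℂ}
    (h : X.IsPluri m Set.univ ω) (h' : X.IsPluri m Set.univ ω') {O : Set X.Amb}
    (hO : ∀ v ∈ X.cone ∩ O, ∀ l : ℂ, l ≠ 0 → act X.w l v ∈ O)
    (hd : X.cone ⊆ closure (X.cone ∩ O))
    (he : ∀ f q, X.PlotAt f q → f q ∈ O → ω f q = ω' f q) :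
    ∀ f q, X.PlotAt f q → ω f q = ω' f q := by
  intro g q hg
  obtain ⟨C, d, l, h1, h2, h3, h4, h5, h6⟩ := m0_factor hg
  have h7 : ω C.f (d q) = ω' C.f (d q) :=
    m0_chart C hO hd
      (fun z hz => (h.hol C.f z (C.plot z hz) (Set.mem_univ _)).continuousAt)
      (fun z hz => (h'.hol C.f z (C.plot z hz) (Set.mem_univ _)).continuousAt)
      (fun z hz hzO => he C.f z (C.plot z hz) hzO) (d q) h4
  rw [h.germ g _ q hg (Set.mem_univ _) h6, h'.germ g _ q hg (Set.mem_univ _) h6,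
    h.scale (fun z => C.f (d z)) l q h5 (Set.mem_univ _) h2 h3,
    h'.scale (fun z => C.f (d z)) l q h5 (Set.mem_univ _) h2 h3]
  have h8 := h.pull C.f d q h1 (C.plot _ h4) (Set.mem_univ _)
  have h9 := h'.pull C.f d q h1 (C.plot _ h4) (Set.mem_univ _)
  have h10 : C.f ∘ d = fun z => C.f (d z) := rfl
  rw [h10] at h8 h9
  rw [h8, h9, h7]

theorem IsForm1.ext_of_dense {α α' : (C2 → X.Amb) → C2 → (C2 →L[ℂ] ℂ)}
    (h : X.IsForm1 Set.univ α) (h' : X.IsForm1 Set.univ α') {O : Set X.Amb}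
    (hO : ∀ v ∈ X.cone ∩ O, ∀ l : ℂ, l ≠ 0 → act X.w l v ∈ O)
    (hd : X.cone ⊆ closure (X.cone ∩ O))
    (he : ∀ f q, X.PlotAt f q → f q ∈ O → α f q = α' f q) :
    ∀ f q, X.PlotAt f q → α f q = α' f q := by
  intro g q hg
  obtain ⟨C, d, l, h1, h2, h3, h4, h5, h6⟩ := m0_factor hg
  have h7 : α C.f (d q) = α' C.f (d q) :=
    m0_chart C hO hd
      (fun z hz => (h.hol C.f z (C.plot z hz) (Set.mem_univ _)).continuousAt)
      (fun z hz => (h'.hol C.f z (C.plot z hz) (Set.mem_univ _)).continuousAt)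
      (fun z hz hzO => he C.f z (C.plot z hz) hzO) (d q) h4
  rw [h.germ g _ q hg (Set.mem_univ _) h6, h'.germ g _ q hg (Set.mem_univ _) h6,
    h.scale (fun z => C.f (d z)) l q h5 (Set.mem_univ _) h2 h3,
    h'.scale (fun z => C.f (d z)) l q h5 (Set.mem_univ _) h2 h3]
  have h8 := h.pull C.f d q h1 (C.plot _ h4) (Set.mem_univ _)
  have h9 := h'.pull C.f d q h1 (C.plot _ h4) (Set.mem_univ _)
  have h10 : C.f ∘ d = fun z => C.f (d z) := rfl
  rw [h10] at h8 h9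
  rw [h8, h9, h7]

end Surf

end Pool.Agent.K3Pieces
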