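import Pool.Agent.Lib.MP_3004b3_ag.C2
import Pool.Agent.Lib.MP_3004b3_ag.E0

/-!
# JOB M1: a form as a tensor on the cone

Let `v0` be in the cone, `C` a chart at `X.proj v0` (`exists_chart` with `N = univ`), and `c`, `l` from
`C.coord` at `v0`. For `u` in the cone near `v0` and a local map `g` at `q` with `g q = u`:
near `q`, `g z = act (l (g z)) (C.f (c (g z)))`. So by `germ`, `scale`, `pull`
`ω g q = ω (C.f ∘ (c ∘ g)) q = ω C.f (c u) * det (fderiv c u ∘ fderiv g q)`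
`= W u (fderiv g q e0) (fderiv g q e1)` with
`W u a b = ω C.f (c u) * (Dc(u) a 0 * Dc(u) b 1 - Dc(u) a 1 * Dc(u) b 0)` (`det_C2`). Here
`Dc(u) = fderiv ℂ c u` is holomorphic in `u` near `v0` (`HolAt.fderiv`), `ω C.f` is holomorphic near
`c v0 ∈ C.D`. Build the continuous bilinear map from `ContinuousLinearMap.smulRight`, `proj`, `comp`.
`W u a a = 0` is clear. `Dc(u) (euler u) = 0`: for `s` near `1` the vector `act s u` is in the cone
near `v0`, `act s u = act (l (act s u)) (C.f (c (act s u)))` so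
`X.proj (C.f (c (act s u))) = X.proj u = X.proj (C.f (c u))`, and `c (act s u) = c u` by
injectivity of the chart (`C.inj`; `c (act s u) ∈ C.D` near `v0` by continuity); the derivative in
`s` at `s = 1` of `act s u` is `euler u`. The same for 1-forms with
`A u a = α C.f (c u) (Dc(u) a)`.
-/

set_option autoImplicit false

namespace Pool.Agent.K3Pieces

open scoped Topology

namespace Surf

variable {X : Surf}

theorem m1_smulRight {V E F : Type} [NormedAddCommGroup V] [NormedSpace ℂ V] [NormedAddCommGroup E]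
    [NormedSpace ℂ E] [NormedAddCommGroup F] [NormedSpace ℂ F] {φ : V → (E →L[ℂ] ℂ)} {ψ : V → F} {v : V}
    (h : HolAt φ v) (h' : HolAt ψ v) : HolAt (fun u => (φ u).smulRight (ψ u)) v := by
  have h2 : HolAt (fun A : E →L[ℂ] ℂ => ContinuousLinearMap.smulRightL ℂ E F A) (φ v) :=
    Differentiable.holAt (ContinuousLinearMap.differentiable _) _
  exact HolAt.clm_apply (HolAt.comp h2 h) h'

theorem m1_euler (u : X.Amb) : HasDerivAt (fun s : ℂ => act X.w s u) (X.euler u) 1 := by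
  rw [hasDerivAt_pi]
  intro i
  have h := (hasDerivAt_pow (X.w i) (1 : ℂ)).mul_const (u i)
  simpa [act, euler] using h

theorem m1_good {v0 : X.Amb} (hv0 : v0 ∈ X.cone) : ∃ (f : C2 → X.Amb) (D : Set C2) (c : X.Amb → C2) (l : X.Amb → ℂ),
    IsOpen D ∧ (∀ d ∈ D, X.PlotAt f d) ∧ HolAt c v0 ∧ c v0 ∈ D ∧
      ∀ᶠ u in 𝓝 v0, HolAt c u ∧ HolAt l u ∧ l u ≠ 0 ∧ c u ∈ D ∧
        (∀ᶠ u' in 𝓝 u, u' ∈ X.cone → u' = act X.w (l u') (f (c u'))) ∧
        (u ∈ X.cone → fderiv ℂ c u (X.euler u) = 0) := by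
  obtain ⟨C, -⟩ := X.exists_chart (X.proj v0) isOpen_univ (Set.mem_univ _)
  obtain ⟨c, l, hc, hl, hl0, hcD, hloc⟩ := C.coord v0 hv0 ⟨0, C.mem, C.map⟩
  refine ⟨C.f, C.D, c, l, C.isOpen, C.plot, hc, hcD, ?_⟩
  have h1 : ∀ᶠ u in 𝓝 v0, ∀ᶠ u' in 𝓝 u, (u' ∈ X.cone → u' = act X.w (l u') (C.f (c u'))) :=
    eventually_eventually_nhds.2 hloc
  have h2 : ∀ᶠ u in 𝓝 v0, c u ∈ C.D := hc.continuousAt.eventually (C.isOpen.mem_nhds hcD)
  have h3 : ∀ᶠ u in 𝓝 v0, l u ≠ 0 := hl.continuousAt.eventually_ne hl0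
  filter_upwards [h1, h2, h3, hc.eventually, hl.eventually] with u k1 k2 k3 k4 k5
  refine ⟨k4, k5, k3, k2, k1, fun hu => ?_⟩
  have hact : HasDerivAt (fun s : ℂ => act X.w s u) (X.euler u) 1 := m1_euler u
  have hcont : Filter.Tendsto (fun s : ℂ => act X.w s u) (𝓝 1) (𝓝 u) := by
    have h : Filter.Tendsto (fun s : ℂ => act X.w s u) (𝓝 1) (𝓝 (act X.w 1 u)) := hact.continuousAt
    rwa [act_one] at h
  have k6 : ∀ᶠ u' in 𝓝 u, c u' ∈ C.D := k4.continuousAt.eventually (C.isOpen.mem_nhds k2)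
  have k7 : ∀ᶠ u' in 𝓝 u, l u' ≠ 0 := k5.continuousAt.eventually_ne k3
  have hev : (fun s : ℂ => c (act X.w s u)) =ᶠ[𝓝 1] fun _ => c u := by
    filter_upwards [hcont.eventually k1, hcont.eventually k6, hcont.eventually k7,
      eventually_ne_nhds (one_ne_zero : (1 : ℂ) ≠ 0)] with s a1 a2 a3 a4
    have b1 : act X.w s u ∈ X.cone := X.act_mem_cone hu a4
    have b3 : X.proj (act X.w s u) = X.proj (C.f (c (act X.w s u))) :=
      (congrArg X.proj (a1 b1)).trans (X.proj_act (C.plot _ a2).mem a3)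
    have b4 : X.proj (act X.w s u) = X.proj u := X.proj_act hu a4
    have b5 : X.proj u = X.proj (C.f (c u)) :=
      (congrArg X.proj (k1.self_of_nhds hu)).trans (X.proj_act (C.plot _ k2).mem k3)
    exact C.inj a2 k2 ((b3.symm.trans b4).trans b5)
  have hd1 : HasDerivAt (fun s : ℂ => c (act X.w s u)) (fderiv ℂ c u (X.euler u)) 1 := by
    have h := k4.differentiableAt.hasFDerivAt
    have h' : HasFDerivAt c (fderiv ℂ c u) (act X.w 1 u) := by
      rw [act_one]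
      exact h
    exact h'.comp_hasDerivAt (1 : ℂ) hact
  have hd2 : HasDerivAt (fun s : ℂ => c (act X.w s u)) 0 1 :=
    (hasDerivAt_const (1 : ℂ) (c u)).congr_of_eventuallyEq hev
  exact hd1.unique hd2

theorem m1_plot {f : C2 → X.Amb} {D : Set C2} {c : X.Amb → C2} {l : X.Amb → ℂ} (hplot : ∀ d ∈ D, X.PlotAt f d)
    {g : C2 → X.Amb} {q : C2} (hg : X.PlotAt g q) (hc : HolAt c (g q)) (hl : HolAt l (g q)) (hcD : c (g q) ∈ D)
    (hloc : ∀ᶠ u' in 𝓝 (g q), u' ∈ X.cone → u' = act X.w (l u') (f (c u'))) :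
    g =ᶠ[𝓝 q] (fun z => act X.w (l (g z)) (f (c (g z)))) ∧ X.PlotAt (fun z => f (c (g z))) q ∧
      HolAt (fun z => l (g z)) q ∧ HolAt (fun z => c (g z)) q ∧
      fderiv ℂ (fun z => c (g z)) q = (fderiv ℂ c (g q)).comp (fderiv ℂ g q) := by
  have h1 : HolAt (fun z => c (g z)) q := hc.comp hg.holAt
  have h2 : HolAt (fun z => l (g z)) q := hl.comp hg.holAt
  refine ⟨?_, (hplot _ hcD).comp h1, h2, h1, ?_⟩
  · filter_upwards [hg, hg.holAt.continuousAt.eventually hloc] with z hz hz2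
    exact hz2 hz.2
  · exact (hc.differentiableAt.hasFDerivAt.comp q hg.holAt.differentiableAt.hasFDerivAt).fderiv

theorem IsPluri.local_rep {ω : (C2 → X.Amb) → C2 → ℂ} (h : X.IsPluri 1 Set.univ ω)
    {v0 : X.Amb} (hv0 : v0 ∈ X.cone) :
    ∃ W : X.Amb → (X.Amb →L[ℂ] X.Amb →L[ℂ] ℂ), HolAt W v0 ∧
      ∀ᶠ u in 𝓝 v0, u ∈ X.cone → (∀ a, W u a a = 0) ∧ (∀ b, W u (X.euler u) b = 0) ∧
        ∀ g q, X.PlotAt g q → g q = u →
          ω g q = W u (fderiv ℂ g q e0) (fderiv ℂ g q e1) := by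
  obtain ⟨f, D, c, l, hD, hplot, hc, hcD, hgood⟩ := m1_good hv0
  have hproj : ∀ i : Fin 2, HolAt (fun u => (ContinuousLinearMap.proj (R := ℂ) (φ := fun _ : Fin 2 => ℂ) i).comp
      (fderiv ℂ c u)) v0 := by
    intro i
    have h1 : HolAt (fun u => fderiv ℂ c u) v0 := hc.fderiv
    have h2 : HolAt (fun A : X.Amb →L[ℂ] C2 => (ContinuousLinearMap.compL ℂ X.Amb C2 ℂ)
        (ContinuousLinearMap.proj (R := ℂ) (φ := fun _ : Fin 2 => ℂ) i) A) (fderiv ℂ c v0) :=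
      Differentiable.holAt (ContinuousLinearMap.differentiable _) _
    exact HolAt.comp h2 h1
  have hB : ∀ i j : Fin 2, HolAt (fun u =>
      ((ContinuousLinearMap.proj (R := ℂ) (φ := fun _ : Fin 2 => ℂ) i).comp (fderiv ℂ c u)).smulRight
      ((ContinuousLinearMap.proj (R := ℂ) (φ := fun _ : Fin 2 => ℂ) j).comp (fderiv ℂ c u))) v0 := by
    intro i j
    exact m1_smulRight (hproj i) (hproj j)
  have hom : HolAt (fun u => ω f (c u)) v0 := by
    have h1 : HolAt (ω f) (c v0) := by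
      filter_upwards [hD.mem_nhds hcD] with d hd
      exact h.hol f d (hplot d hd) (Set.mem_univ _)
    exact HolAt.comp h1 hc
  refine ⟨fun u => ω f (c u) •
    (((ContinuousLinearMap.proj (R := ℂ) (φ := fun _ : Fin 2 => ℂ) 0).comp (fderiv ℂ c u)).smulRight
      ((ContinuousLinearMap.proj (R := ℂ) (φ := fun _ : Fin 2 => ℂ) 1).comp (fderiv ℂ c u)) -
    ((ContinuousLinearMap.proj (R := ℂ) (φ := fun _ : Fin 2 => ℂ) 1).comp (fderiv ℂ c u)).smulRight
      ((ContinuousLinearMap.proj (R := ℂ) (φ := fun _ : Fin 2 => ℂ) 0).comp (fderiv ℂ c u))),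
    hom.smul ((hB 0 1).sub (hB 1 0)), ?_⟩
  have hform : ∀ (u a b : X.Amb), (ω f (c u) •
    (((ContinuousLinearMap.proj (R := ℂ) (φ := fun _ : Fin 2 => ℂ) 0).comp (fderiv ℂ c u)).smulRight
      ((ContinuousLinearMap.proj (R := ℂ) (φ := fun _ : Fin 2 => ℂ) 1).comp (fderiv ℂ c u)) -
    ((ContinuousLinearMap.proj (R := ℂ) (φ := fun _ : Fin 2 => ℂ) 1).comp (fderiv ℂ c u)).smulRight
      ((ContinuousLinearMap.proj (R := ℂ) (φ := fun _ : Fin 2 => ℂ) 0).comp (fderiv ℂ c u)))) a b =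
      ω f (c u) * (fderiv ℂ c u a 0 * fderiv ℂ c u b 1 - fderiv ℂ c u a 1 * fderiv ℂ c u b 0) := by
    intro u a b
    rfl
  filter_upwards [hgood] with u ⟨k1, k2, k3, k4, k5, k6⟩ hu
  refine ⟨fun a => ?_, fun b => ?_, fun g q hg hgq => ?_⟩
  · rw [hform]
    ring
  · rw [hform, k6 hu]
    simp
  · rw [hform]
    subst hgq
    obtain ⟨p1, p2, p3, p4, p5⟩ := m1_plot hplot hg k1 k2 k4 k5
    rw [h.germ g _ q hg (Set.mem_univ _) p1,
      h.scale (fun z => f (c (g z))) (fun z => l (g z)) q p2 (Set.mem_univ _) p3 k3]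
    have h5 := h.pull f (fun z => c (g z)) q p4 (hplot _ k4) (Set.mem_univ _)
    rw [pow_one, p5, det_C2] at h5
    exact h5

theorem IsForm1.local_rep {α : (C2 → X.Amb) → C2 → (C2 →L[ℂ] ℂ)}
    (h : X.IsForm1 Set.univ α) {v0 : X.Amb} (hv0 : v0 ∈ X.cone) :
    ∃ A : X.Amb → (X.Amb →L[ℂ] ℂ), HolAt A v0 ∧
      ∀ᶠ u in 𝓝 v0, u ∈ X.cone → A u (X.euler u) = 0 ∧
        ∀ g q, X.PlotAt g q → g q = u → ∀ e, α g q e = A u (fderiv ℂ g q e) := by
  obtain ⟨f, D, c, l, hD, hplot, hc, hcD, hgood⟩ := m1_good hv0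
  have hal : HolAt (fun u => α f (c u)) v0 := by
    have h1 : HolAt (α f) (c v0) := by
      filter_upwards [hD.mem_nhds hcD] with d hd
      exact h.hol f d (hplot d hd) (Set.mem_univ _)
    exact HolAt.comp h1 hc
  have hA : HolAt (fun u => (α f (c u)).comp (fderiv ℂ c u)) v0 := by
    filter_upwards [hal, hc.fderiv] with u h1 h2
    exact h1.clm_comp h2
  refine ⟨fun u => (α f (c u)).comp (fderiv ℂ c u), hA, ?_⟩
  filter_upwards [hgood] with u ⟨k1, k2, k3, k4, k5, k6⟩ hu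
  refine ⟨?_, fun g q hg hgq e => ?_⟩
  · show α f (c u) (fderiv ℂ c u (X.euler u)) = 0
    rw [k6 hu, map_zero]
  · subst hgq
    obtain ⟨p1, p2, p3, p4, p5⟩ := m1_plot hplot hg k1 k2 k4 k5
    rw [h.germ g _ q hg (Set.mem_univ _) p1,
      h.scale (fun z => f (c (g z))) (fun z => l (g z)) q p2 (Set.mem_univ _) p3 k3]
    have h5 := h.pull f (fun z => c (g z)) q p4 (hplot _ k4) (Set.mem_univ _)
    rw [p5] at h5
    have h6 := congrArg (fun A : C2 →L[ℂ] ℂ => A e) h5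
    exact h6

end Surf

end Pool.Agent.K3Pieces
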