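import Pool.Agent.Lib.MP_3004b3_ag.K2

/-!
# JOB M2: tangent vectors of the cone of `S` in terms of the plane

`tau v β` is the tangent vector of the cone at `v` over the vector `β` of the plane `∑ β_i = 0`:
its coordinates are `dBr_k(β) / (2 v_k)`, since `v_k² = Br_k`.

* `fderiv_Br`: `Br y k.castSucc = y k`, `Br y last = ∑ lam i y_i³`.
* `fderiv_plot`: differentiate `(g z k)² = Br (sqv (g z)) k` (`sq_eq_Br`) at `q`.
* `plot_pi0`: differentiate `∑ i, sqv (g z) i = 0`.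
* `PL v β0 β1 t = larc v (sqv v + t 0 β0 + t 1 β1)`: by `larc_mem`, `larc_holAt`,
  `sqv (PL … t) = sqv v + t 0 β0 + t 1 β1` near `0` (for `t` near `0` all `Br … k ≠ 0`).
* `tau_euler`: coordinates `v_k² / (2 v_k)` for `k < 4` and `3 Fc / (2 v_4) = 3 v_4 / 2`.
* `tau_bound`: near `v0` (all coordinates other than `m` nonzero) the functions `1 / v_k`, `k ≠ m`, and
  the derivatives of `Br` are bounded.
* `tau_bound_of_zero`: if `m = i.castSucc` and `β i = 0` the coordinate `m` of `tau v β` is `0`.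
-/

set_option autoImplicit false

namespace Pool.Agent.K3Pieces

open scoped Topology

/-- The derivative of the branch functions. -/
def dBr (y β : Fin 4 → ℂ) : Fin 5 → ℂ :=
  Fin.snoc (α := fun _ => ℂ) β (∑ i, 3 * lam i * y i ^ 2 * β i)

theorem m2_dBr_castSucc (y β : Fin 4 → ℂ) (i : Fin 4) : dBr y β i.castSucc = β i :=
  Fin.snoc_castSucc (α := fun _ => ℂ) _ _ _

theorem m2_dBr_last (y β : Fin 4 → ℂ) :
    dBr y β (Fin.last 4) = ∑ i, 3 * lam i * y i ^ 2 * β i :=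
  Fin.snoc_last (α := fun _ => ℂ) _ _

theorem m2_hasFDerivAt_coord (y : Fin 4 → ℂ) (i : Fin 4) :
    HasFDerivAt (fun y : Fin 4 → ℂ => y i)
      (ContinuousLinearMap.proj i : (Fin 4 → ℂ) →L[ℂ] ℂ) y :=
  (ContinuousLinearMap.proj i : (Fin 4 → ℂ) →L[ℂ] ℂ).hasFDerivAt

theorem m2_fderiv_comp {n : ℕ} {E : Type} [NormedAddCommGroup E] [NormedSpace ℂ E]
    {f : E → (Fin n → ℂ)} {q : E} (h : DifferentiableAt ℂ f q) (k : Fin n) (e : E) :
    fderiv ℂ (fun z => f z k) q e = fderiv ℂ f q e k := by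
  have h1 : HasFDerivAt (fun z => f z k)
      ((ContinuousLinearMap.proj k : (Fin n → ℂ) →L[ℂ] ℂ).comp (fderiv ℂ f q)) q :=
    (ContinuousLinearMap.proj k : (Fin n → ℂ) →L[ℂ] ℂ).hasFDerivAt.comp q h.hasFDerivAt
  rw [h1.fderiv]
  rfl

theorem m2_fderiv_Fc (y β : Fin 4 → ℂ) :
    fderiv ℂ Fc y β = ∑ i, 3 * lam i * y i ^ 2 * β i := by
  have h1 : ∀ i ∈ (Finset.univ : Finset (Fin 4)), HasFDerivAt (fun y : Fin 4 → ℂ => lam i * y i ^ 3)
      (lam i • ((3 * y i ^ 2) • (ContinuousLinearMap.proj i : (Fin 4 → ℂ) →L[ℂ] ℂ))) y := by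
    intro i _
    refine HasFDerivAt.const_mul ?_ (lam i)
    refine (HasFDerivAt.pow (m2_hasFDerivAt_coord y i) 3).congr_fderiv ?_
    ext b
    simp
  have h2 : HasFDerivAt Fc (∑ i, lam i • ((3 * y i ^ 2) •
      (ContinuousLinearMap.proj i : (Fin 4 → ℂ) →L[ℂ] ℂ))) y := HasFDerivAt.fun_sum h1
  rw [h2.fderiv, sum_apply]
  refine Finset.sum_congr rfl fun i _ => ?_
  simp only [smul_apply, ContinuousLinearMap.proj_apply, smul_eq_mul]
  ring

theorem fderiv_Br (y β : Fin 4 → ℂ) : fderiv ℂ Br y β = dBr y β := by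
  have hd : DifferentiableAt ℂ Br y := differentiable_Br y
  funext k
  rw [← m2_fderiv_comp hd k β]
  refine Fin.lastCases ?_ (fun i => ?_) k
  · have h1 : (fun z : Fin 4 → ℂ => Br z (Fin.last 4)) = Fc := by
      funext z
      exact Br_last z
    rw [h1, m2_fderiv_Fc, m2_dBr_last]
  · have h1 : (fun z : Fin 4 → ℂ => Br z i.castSucc) = fun z => z i := by
      funext z
      exact Br_castSucc z i
    rw [h1, (m2_hasFDerivAt_coord y i).fderiv, m2_dBr_castSucc]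
    rfl

/-- The tangent vector at `v` over `β`. -/
noncomputable def tau (v : Fin 5 → ℂ) (β : Fin 4 → ℂ) : Fin 5 → ℂ :=
  fun k => dBr (sqv v) β k / (2 * v k)

theorem tau_add_smul (v : Fin 5 → ℂ) (β β' : Fin 4 → ℂ) (c : ℂ) :
    tau v (fun i => β i + c * β' i) = fun k => tau v β k + c * tau v β' k := by
  funext k
  unfold tau
  have h : dBr (sqv v) (fun i => β i + c * β' i) k
      = dBr (sqv v) β k + c * dBr (sqv v) β' k := by
    refine Fin.lastCases ?_ (fun i => ?_) k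
    · rw [m2_dBr_last, m2_dBr_last, m2_dBr_last, Finset.mul_sum, ← Finset.sum_add_distrib]
      refine Finset.sum_congr rfl fun i _ => ?_
      ring
    · rw [m2_dBr_castSucc, m2_dBr_castSucc, m2_dBr_castSucc]
  rw [h]
  ring

theorem m2_sqv_diff {E : Type} [NormedAddCommGroup E] [NormedSpace ℂ E] {g : E → Fin 5 → ℂ}
    {q : E} (h : DifferentiableAt ℂ g q) : DifferentiableAt ℂ (fun z => sqv (g z)) q := by
  refine differentiableAt_pi.2 fun i => ?_
  exact (differentiableAt_pi.1 h i.castSucc).pow 2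

theorem fderiv_plot {g : C2 → Fin 5 → ℂ} {q : C2} (hg : SS.PlotAt g q) (h0 : g q ∈ SC0) (e : C2) :
    fderiv ℂ g q e = tau (g q) (fderiv ℂ (fun z => sqv (g z)) q e) := by
  have hd : DifferentiableAt ℂ g q := (Filter.Eventually.self_of_nhds hg).1
  have hs : DifferentiableAt ℂ (fun z => sqv (g z)) q := m2_sqv_diff hd
  have hc : ∀ᶠ z in 𝓝 q, g z ∈ SC := by
    filter_upwards [hg] with z hz
    exact hz.2
  have hB0 : HasFDerivAt Br (fderiv ℂ Br (sqv (g q))) (sqv (g q)) :=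
    (differentiable_Br (sqv (g q))).hasFDerivAt
  have hB : HasFDerivAt (fun z => Br (sqv (g z)))
      ((fderiv ℂ Br (sqv (g q))).comp (fderiv ℂ (fun z => sqv (g z)) q)) q :=
    HasFDerivAt.comp (g := Br) (f := fun z => sqv (g z)) q hB0 hs.hasFDerivAt
  funext k
  have h1 : (fun z => g z k ^ 2) =ᶠ[𝓝 q] fun z => Br (sqv (g z)) k := by
    filter_upwards [hc] with z hz
    exact sq_eq_Br hz k
  have h2 : fderiv ℂ (fun z => g z k ^ 2) q e = 2 * g q k * fderiv ℂ g q e k := by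
    have h3 : HasFDerivAt (fun z => g z k)
        ((ContinuousLinearMap.proj k : (Fin 5 → ℂ) →L[ℂ] ℂ).comp (fderiv ℂ g q)) q :=
      (ContinuousLinearMap.proj k : (Fin 5 → ℂ) →L[ℂ] ℂ).hasFDerivAt.comp q hd.hasFDerivAt
    have h4 : HasFDerivAt (fun z => g z k ^ 2) _ q := HasFDerivAt.pow h3 2
    rw [h4.fderiv]
    simp
  have h4 : fderiv ℂ (fun z => Br (sqv (g z)) k) q e
      = dBr (sqv (g q)) (fderiv ℂ (fun z => sqv (g z)) q e) k := by
    rw [m2_fderiv_comp hB.differentiableAt k e, hB.fderiv, ContinuousLinearMap.comp_apply,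
      fderiv_Br]
  have h5 : 2 * g q k * fderiv ℂ g q e k
      = dBr (sqv (g q)) (fderiv ℂ (fun z => sqv (g z)) q e) k := by
    rw [← h2, h1.fderiv_eq, h4]
  have h6 : g q k ≠ 0 := h0.2 k
  unfold tau
  rw [← h5]
  field_simp

theorem plot_pi0 {g : C2 → Fin 5 → ℂ} {q : C2} (hg : SS.PlotAt g q) (e : C2) :
    Pi0 (fderiv ℂ (fun z => sqv (g z)) q e) := by
  have hd : DifferentiableAt ℂ g q := (Filter.Eventually.self_of_nhds hg).1
  have hs : DifferentiableAt ℂ (fun z => sqv (g z)) q := m2_sqv_diff hd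
  have h1 : (fun z => ∑ i, sqv (g z) i) =ᶠ[𝓝 q] fun _ => (0 : ℂ) := by
    filter_upwards [hg] with z hz
    exact (mem_SC.1 hz.2).2.1
  have h2 : fderiv ℂ (fun z => ∑ i, sqv (g z) i) q e = 0 := by
    rw [h1.fderiv_eq]
    simp
  have h3 : ∀ i ∈ (Finset.univ : Finset (Fin 4)), DifferentiableAt ℂ (fun z => sqv (g z) i) q :=
    fun i _ => differentiableAt_pi.1 hs i
  rw [fderiv_fun_sum h3, sum_apply] at h2
  unfold Pi0
  rw [← h2]
  refine Finset.sum_congr rfl fun i _ => ?_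
  exact (m2_fderiv_comp hs i e).symm

/-- A local map with given derivatives. -/
noncomputable def PL (v : Fin 5 → ℂ) (β0 β1 : Fin 4 → ℂ) (t : C2) : Fin 5 → ℂ :=
  larc v (fun i => sqv v i + t 0 * β0 i + t 1 * β1 i)

theorem m2_aff_hasFDerivAt (v : Fin 5 → ℂ) (β0 β1 : Fin 4 → ℂ) (t : C2) :
    DifferentiableAt ℂ (fun t : C2 => (fun i => sqv v i + t 0 * β0 i + t 1 * β1 i : Fin 4 → ℂ)) t
      ∧ ∀ e : C2, fderiv ℂ (fun t : C2 => (fun i => sqv v i + t 0 * β0 i + t 1 * β1 i : Fin 4 → ℂ))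
        t e = fun i => e 0 * β0 i + e 1 * β1 i := by
  have h1 : ∀ i, HasFDerivAt (fun t : C2 => sqv v i + t 0 * β0 i + t 1 * β1 i)
      (β0 i • (ContinuousLinearMap.proj 0 : C2 →L[ℂ] ℂ)
        + β1 i • (ContinuousLinearMap.proj 1 : C2 →L[ℂ] ℂ)) t := by
    intro i
    have e0 : HasFDerivAt (fun t : C2 => t 0) (ContinuousLinearMap.proj 0 : C2 →L[ℂ] ℂ) t :=
      (ContinuousLinearMap.proj 0 : C2 →L[ℂ] ℂ).hasFDerivAt
    have e1 : HasFDerivAt (fun t : C2 => t 1) (ContinuousLinearMap.proj 1 : C2 →L[ℂ] ℂ) t :=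
      (ContinuousLinearMap.proj 1 : C2 →L[ℂ] ℂ).hasFDerivAt
    exact ((e0.mul_const (β0 i)).const_add (sqv v i)).fun_add (e1.mul_const (β1 i))
  have h2 : DifferentiableAt ℂ
      (fun t : C2 => (fun i => sqv v i + t 0 * β0 i + t 1 * β1 i : Fin 4 → ℂ)) t :=
    differentiableAt_pi.2 fun i => (h1 i).differentiableAt
  refine ⟨h2, fun e => ?_⟩
  funext i
  rw [← m2_fderiv_comp h2 i e, (h1 i).fderiv]
  simp only [add_apply, smul_apply,
    ContinuousLinearMap.proj_apply, smul_eq_mul]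
  ring

theorem m2_aff_ev {v : Fin 5 → ℂ} (hv : v ∈ SC0) {β0 β1 : Fin 4 → ℂ} (h0 : Pi0 β0)
    (h1 : Pi0 β1) : ∀ᶠ t : C2 in 𝓝 0, DifferentiableAt ℂ (PL v β0 β1) t ∧
      PL v β0 β1 t ∈ SC0 ∧ sqv (PL v β0 β1 t) = fun i => sqv v i + t 0 * β0 i + t 1 * β1 i := by
  set A : C2 → Fin 4 → ℂ := fun t i => sqv v i + t 0 * β0 i + t 1 * β1 i with hA
  have hA0 : A 0 = sqv v := by
    funext i
    simp [hA]
  have hAd : ∀ t, DifferentiableAt ℂ A t := fun t => (m2_aff_hasFDerivAt v β0 β1 t).1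
  have hAc : Filter.Tendsto A (𝓝 0) (𝓝 (sqv v)) := by
    have := (hAd 0).continuousAt.tendsto
    rwa [hA0] at this
  have hB : ∀ᶠ y in 𝓝 (sqv v), ∀ k, Br y k ≠ 0 := by
    refine Filter.eventually_all.2 fun k => ?_
    exact ((continuous_apply k).comp continuous_Br).continuousAt.eventually_ne (Br_ne_zero hv k)
  filter_upwards [hAc.eventually (larc_holAt hv), hAc.eventually hB] with t h2 h3
  have h4 : Pi0 (A t) := by
    have h5 := (mem_SC.1 hv.1).2.1
    unfold Pi0 at h0 h1 h5 ⊢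
    simp only [hA, Finset.sum_add_distrib, ← Finset.mul_sum, h0, h1, h5, mul_zero, add_zero]
  have h6 := larc_mem hv h4 h3
  exact ⟨h2.comp t (hAd t), h6.1, h6.2⟩

theorem PL_plotAt {v : Fin 5 → ℂ} (hv : v ∈ SC0) {β0 β1 : Fin 4 → ℂ} (h0 : Pi0 β0)
    (h1 : Pi0 β1) : SS.PlotAt (PL v β0 β1) 0 ∧ PL v β0 β1 0 = v := by
  refine ⟨?_, ?_⟩
  · filter_upwards [m2_aff_ev hv h0 h1] with t ht
    exact ⟨ht.1, ht.2.1.1⟩
  · unfold PL
    have h2 : (fun i => sqv v i + (0 : C2) 0 * β0 i + (0 : C2) 1 * β1 i) = sqv v := by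
      funext i
      simp
    rw [h2, larc_self hv]

theorem PL_sqv {v : Fin 5 → ℂ} (hv : v ∈ SC0) {β0 β1 : Fin 4 → ℂ} (h0 : Pi0 β0)
    (h1 : Pi0 β1) : fderiv ℂ (fun z => sqv (PL v β0 β1 z)) 0 (Pi.single 0 1) = β0 ∧
      fderiv ℂ (fun z => sqv (PL v β0 β1 z)) 0 (Pi.single 1 1) = β1 := by
  have h2 : (fun z => sqv (PL v β0 β1 z)) =ᶠ[𝓝 0]
      fun t : C2 => (fun i => sqv v i + t 0 * β0 i + t 1 * β1 i : Fin 4 → ℂ) := by
    filter_upwards [m2_aff_ev hv h0 h1] with t ht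
    exact ht.2.2
  rw [h2.fderiv_eq]
  have h3 := (m2_aff_hasFDerivAt v β0 β1 0).2
  constructor
  · rw [h3]
    funext i
    simp
  · rw [h3]
    funext i
    simp

theorem tau_euler {v : Fin 5 → ℂ} (hv : v ∈ SC0) :
    tau v (sqv v) = fun k => (1 / 2) * ((wS k : ℂ) * v k) := by
  funext k
  have hk := hv.2 k
  unfold tau
  rw [div_eq_iff (mul_ne_zero two_ne_zero hk)]
  revert hk
  refine Fin.lastCases ?_ (fun i => ?_) k
  · intro _
    rw [m2_dBr_last]
    have h1 : ∑ i, 3 * lam i * sqv v i ^ 2 * sqv v i = 3 * Fc (sqv v) := by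
      unfold Fc
      rw [Finset.mul_sum]
      refine Finset.sum_congr rfl fun i _ => ?_
      ring
    have h2 : wS (Fin.last 4) = 3 := rfl
    rw [h1, ← (mem_SC.1 hv.1).2.2, h2]
    push_cast
    ring
  · intro _
    rw [m2_dBr_castSucc]
    have h2 : wS i.castSucc = 1 := by
      fin_cases i <;> rfl
    rw [h2]
    unfold sqv
    push_cast
    ring

theorem m2_dBr_diff (β : Fin 4 → ℂ) (k : Fin 5) : Differentiable ℂ (fun y => dBr y β k) := by
  refine Fin.lastCases ?_ (fun i => ?_) k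
  · simp only [m2_dBr_last]
    fun_prop
  · simp only [m2_dBr_castSucc]
    fun_prop

theorem tau_arc {γ : ℂ → Fin 5 → ℂ} {s : ℂ} (h : DifferentiableAt ℂ γ s) (h0 : γ s ∈ SC0)
    (β : Fin 4 → ℂ) : DifferentiableAt ℂ (fun t => tau (γ t) β) s := by
  refine differentiableAt_pi.2 fun k => ?_
  unfold tau
  have h1 : DifferentiableAt ℂ (fun t => dBr (sqv (γ t)) β k) s :=
    DifferentiableAt.comp (g := fun y => dBr y β k) (f := fun t => sqv (γ t)) s
      (m2_dBr_diff β k (sqv (γ s))) (m2_sqv_diff h)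
  have h2 : DifferentiableAt ℂ (fun t => 2 * γ t k) s := (differentiableAt_pi.1 h k).const_mul 2
  exact h1.div h2 (mul_ne_zero two_ne_zero (h0.2 k))

theorem m2_dBr_cont (β : Fin 4 → ℂ) (k : Fin 5) :
    Continuous (fun v : Fin 5 → ℂ => dBr (sqv v) β k) := by
  have h1 : Continuous (sqv : (Fin 5 → ℂ) → Fin 4 → ℂ) := by
    refine continuous_pi fun i => ?_
    exact (continuous_apply i.castSucc).pow 2
  exact (m2_dBr_diff β k).continuous.comp h1

theorem m2_nn (z : ℂ) : 0 ≤ ‖z‖ + 1 := add_nonneg (norm_nonneg _) zero_le_one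

theorem m2_bound {F : (Fin 5 → ℂ) → ℂ} {v0 : Fin 5 → ℂ} (h : ContinuousAt F v0) :
    ∀ᶠ v in 𝓝 v0, ‖F v‖ ≤ ‖F v0‖ + 1 := by
  have h1 : ∀ᶠ v in 𝓝 v0, ‖F v‖ < ‖F v0‖ + 1 :=
    (h.norm).eventually_lt continuousAt_const (by simp)
  filter_upwards [h1] with v hv
  exact hv.le

theorem tau_bound {v0 : Fin 5 → ℂ} {m : Fin 5} (hm : ∀ k, k ≠ m → v0 k ≠ 0) (β : Fin 4 → ℂ) :
    ∃ M : ℝ, ∀ᶠ v in 𝓝 v0, v ∈ SC0 → ‖v m‖ * ‖tau v β‖ ≤ M := by
  have h1 : ∀ k : Fin 5, ∃ M : ℝ, 0 ≤ M ∧ ∀ᶠ v in 𝓝 v0, v ∈ SC0 → ‖v m * tau v β k‖ ≤ M := by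
    intro k
    by_cases hk : k = m
    · subst hk
      have h2 : ContinuousAt (fun v : Fin 5 → ℂ => dBr (sqv v) β k / 2) v0 :=
        ((m2_dBr_cont β k).div_const 2).continuousAt
      refine ⟨‖dBr (sqv v0) β k / 2‖ + 1, m2_nn _, (m2_bound h2).mono fun v hv hS => ?_⟩
      have h3 : v k * tau v β k = dBr (sqv v) β k / 2 := by
        have := hS.2 k
        unfold tau
        field_simp
      rw [h3]
      exact hv
    · have h2 : ContinuousAt (fun v : Fin 5 → ℂ => v m * (dBr (sqv v) β k / (2 * v k))) v0 := by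
        refine ContinuousAt.mul (continuous_apply m).continuousAt ?_
        refine ContinuousAt.div (m2_dBr_cont β k).continuousAt
          (continuous_const.mul (continuous_apply k)).continuousAt ?_
        exact mul_ne_zero two_ne_zero (hm k hk)
      exact ⟨_, m2_nn _, (m2_bound h2).mono fun v hv _ => hv⟩
  choose M hM0 hM using h1
  refine ⟨∑ k, M k, ?_⟩
  filter_upwards [Filter.eventually_all.2 hM] with v hv hS
  rw [← norm_smul, pi_norm_le_iff_of_nonneg (Finset.sum_nonneg fun k _ => hM0 k)]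
  intro k
  exact (hv k hS).trans (Finset.single_le_sum (fun k _ => hM0 k) (Finset.mem_univ k))

theorem tau_bound_of_zero {v0 : Fin 5 → ℂ} {i : Fin 4}
    (hm : ∀ k, k ≠ i.castSucc → v0 k ≠ 0) {β : Fin 4 → ℂ} (hβ : β i = 0) :
    ∃ M : ℝ, ∀ᶠ v in 𝓝 v0, v ∈ SC0 → ‖tau v β‖ ≤ M := by
  have h1 : ∀ k : Fin 5, ∃ M : ℝ, 0 ≤ M ∧ ∀ᶠ v in 𝓝 v0, ‖tau v β k‖ ≤ M := by
    intro k
    by_cases hk : k = i.castSucc
    · subst hk
      refine ⟨0, le_rfl, Filter.Eventually.of_forall fun v => ?_⟩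
      unfold tau
      rw [m2_dBr_castSucc, hβ]
      simp
    · have h2 : ContinuousAt (fun v : Fin 5 → ℂ => dBr (sqv v) β k / (2 * v k)) v0 := by
        refine ContinuousAt.div (m2_dBr_cont β k).continuousAt
          (continuous_const.mul (continuous_apply k)).continuousAt ?_
        exact mul_ne_zero two_ne_zero (hm k hk)
      exact ⟨_, m2_nn _, (m2_bound h2).mono fun v hv => hv⟩
  choose M hM0 hM using h1
  refine ⟨∑ k, M k, ?_⟩
  filter_upwards [Filter.eventually_all.2 hM] with v hv _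
  rw [pi_norm_le_iff_of_nonneg (Finset.sum_nonneg fun k _ => hM0 k)]
  intro k
  exact (hv k).trans (Finset.single_le_sum (fun k _ => hM0 k) (Finset.mem_univ k))

end Pool.Agent.K3Pieces
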