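import Pool.Agent.Lib.MP_3004b3_ag.M1
import Pool.Agent.Lib.MP_3004b3_ag.M2

/-!
# JOB M3: a 2-form on `S` as a function on the cone

Let `ε1 = e_1 - e_0`, `ε2 = e_2 - e_0` in the plane (`![-1, 1, 0, 0]`, `![-1, 0, 1, 0]`) and
`H v = ω (PL v ε1 ε2) 0 / sqv v 3`.

* `alt_det3`: let `B` be a bilinear alternating form on vectors of the plane with `B y · = 0` where
  `y 3 ≠ 0`: for `β` in the plane, `β = s y + (β 1 - s y 1) ε1 + (β 2 - s y 2) ε2` with `s = β 3 / y 3`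
  (check the four coordinates, the coordinate `0` from `Pi0`). So
  `B β0 β1 = ((β0 1 - s0 y 1) (β1 2 - s1 y 2) - (β0 2 - s0 y 2) (β1 1 - s1 y 1)) B ε1 ε2`, and
  `det3 y β0 β1` is `y 3` times the same bracket.
* `rep`: let `g` be a local map at `q` with `u = g q ∈ SC0`, and `W` from `local_rep` at `u`. By
  `fderiv_plot`, `ω g q = W u (tau u β0) (tau u β1)` with `β_i` the derivatives of `sqv ∘ g` (in the
  plane: `plot_pi0`), also for `g = PL u ε1 ε2` (`PL_sqv`). Apply `alt_det3` to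
  `B β β' = W u (tau u β) (tau u β')`: linear by `tau_add_smul`, alternating, and
  `B y · = 0` for `y = sqv u`, as `tau u y = (1/2) euler u` (`tau_euler`).
* Weight: for constant `l ≠ 0`, `g = act wS l ∘ PL v ε1 ε2` has `ω g 0 = ω (PL v ε1 ε2) 0` (`scale`), and
  by `rep` it is `H (act wS l v) * det3 (l² y) (l² ε1) (l² ε2) = l⁶ H (act wS l v) y 3`.
* `ArcHol`: near `s`, with `W` from `local_rep` at `γ s`:
  `H (γ t) = W (γ t) (tau (γ t) ε1) (tau (γ t) ε2) / sqv (γ t) 3`, differentiable (`tau_arc`; `HolAt W`).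
* `PoleBd` at `v0`, `m`: let `y0 = sqv v0`, `W` from `local_rep` at `v0`, `‖W v‖ ≤ M` near `v0`. For any
  `β0, β1` in the plane, `v ∈ SC0` near `v0`:
  `H v * det3 (sqv v) β0 β1 = ω (PL v β0 β1) 0 = W v (tau v β0) (tau v β1)` (`rep`, `PL_sqv`).
  Case `m = i.castSucc`: choose `β0 = e_a - e_b` with `a, b ≠ i` (bounded `tau`: `tau_bound_of_zero`)
  and `β1 = e_i - e_a`; `det3 y0 β0 β1 = ± y0 c ≠ 0`-type computation (`{a, b, c}` the indices other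
  than `i`, `y0 i = 0` or not: `y0 = v0²` has `y0 c ≠ 0`; use `Pi0 y0`; if `y0 i ≠ 0` the value is a
  combination, so treat the case `v0 m ≠ 0` separately: then all `tau` are bounded near `v0` and any
  `β0, β1` with `det3 y0 β0 β1 ≠ 0` works, for instance `ε1, ε2`, `det3 = y0 3`). So
  `‖v m‖ * ‖H v‖ ≤ M * const`.
  Case `m = 4`, `v0 4 = 0`: `Fc y0 = 0`. Let `φ(β) = ∑ 3 lam i y_i² β_i`; there are `a, b` with
  `φ0(e_a - e_b) ≠ 0` (see the header of `L3`, step 2); put `γ2 = e_a - e_b` and choose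
  `γ1` in the plane with `det3 y0 γ1 γ2 ≠ 0` (as `φ0(y0) = 3 Fc y0 = 0`, `y0` and `γ2` are independent;
  one of `ε1, ε2, e_3 - e_0` works). For `v` near `v0` put
  `β0 = γ1 - (φ(γ1)/φ(γ2)) γ2` (depending on `v`), so `φ(β0) = 0`, and `tau v β0` is bounded (the
  coordinate `4` is `0`), `det3 y β0 γ2 = det3 y γ1 γ2`.
-/

set_option autoImplicit false

namespace Pool.Agent.K3Pieces

open scoped Topology

/-- The determinant of the coordinates `1, 2, 3`. -/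
def det3 (a b c : Fin 4 → ℂ) : ℂ :=
  a 1 * (b 2 * c 3 - b 3 * c 2) - a 2 * (b 1 * c 3 - b 3 * c 1) + a 3 * (b 1 * c 2 - b 2 * c 1)

/-! ### Auxiliary lemmas -/

theorem m3_bound {E : Type} [NormedAddCommGroup E] {B : (Fin 5 → ℂ) → E} {v0 : Fin 5 → ℂ}
    (hB : ContinuousAt B v0) : ∀ᶠ v in 𝓝 v0, ‖B v‖ ≤ ‖B v0‖ + 1 := by
  have h := hB.norm.eventually (Iio_mem_nhds (lt_add_one ‖B v0‖))
  filter_upwards [h] with v hv
  exact le_of_lt hv

theorem m3_sqv_act (l : ℂ) (u : Fin 5 → ℂ) :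
    sqv (act wS l u) = (l ^ 2 : ℂ) • sqv u := by
  funext i
  have hw : wS i.castSucc = 1 := by
    fin_cases i <;> rfl
  simp only [sqv, act, hw, pow_one, mul_pow, Pi.smul_apply, smul_eq_mul]

theorem m3_sqv_diff : Differentiable ℂ sqv := by
  refine differentiable_pi.2 fun i => ?_
  have h : Differentiable ℂ fun v : Fin 5 → ℂ => v i.castSucc := by fun_prop
  exact h.pow 2

theorem m3_pi_e1 : Pi0 ![-1, 1, 0, 0] := by
  simp [Pi0, Fin.sum_univ_four]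

theorem m3_pi_e2 : Pi0 ![-1, 0, 1, 0] := by
  simp [Pi0, Fin.sum_univ_four]

theorem m3_det_e (y : Fin 4 → ℂ) : det3 y ![-1, 1, 0, 0] ![-1, 0, 1, 0] = y 3 := by
  simp [det3]

theorem m3_det_smul (y a b : Fin 4 → ℂ) (c : ℂ) :
    det3 (c • y) (c • a) (c • b) = c ^ 3 * det3 y a b := by
  simp only [det3, Pi.smul_apply, smul_eq_mul]
  ring

theorem alt_det3 {B : (Fin 4 → ℂ) → (Fin 4 → ℂ) → ℂ} {y : Fin 4 → ℂ} (hy : Pi0 y)
    (hy3 : y 3 ≠ 0)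
    (hl : ∀ β β' γ, Pi0 β → Pi0 β' → Pi0 γ → ∀ c : ℂ,
      B (fun i => β i + c * β' i) γ = B β γ + c * B β' γ)
    (ha : ∀ β γ, Pi0 β → Pi0 γ → B β γ = - B γ β) (h0 : ∀ γ, Pi0 γ → B y γ = 0)
    {β0 β1 : Fin 4 → ℂ} (hβ0 : Pi0 β0) (hβ1 : Pi0 β1) :
    B β0 β1 = B ![-1, 1, 0, 0] ![-1, 0, 1, 0] / y 3 * det3 y β0 β1 := by
  have hself : ∀ β, Pi0 β → B β β = 0 := by
    intro β hβ
    have h := ha β β hβ hβ
    linear_combination h / 2
  have hz : Pi0 (fun _ => (0 : ℂ)) := by simp [Pi0]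
  have hz0 : ∀ γ, Pi0 γ → B (fun _ => (0 : ℂ)) γ = 0 := by
    intro γ hγ
    have h := hl _ _ γ hz hz hγ 1
    have e : (fun _ : Fin 4 => (0 : ℂ) + 1 * 0) = fun _ => 0 := by funext i; simp
    rw [e] at h
    linear_combination -h
  have hsm : ∀ β γ, Pi0 β → Pi0 γ → ∀ c : ℂ, B (fun i => c * β i) γ = c * B β γ := by
    intro β γ hβ hγ c
    have h := hl _ β γ hz hβ hγ c
    have e : (fun i : Fin 4 => (0 : ℂ) + c * β i) = fun i => c * β i := by funext i; simp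
    rw [e, hz0 γ hγ, zero_add] at h
    exact h
  have hpm : ∀ β, Pi0 β → ∀ c : ℂ, Pi0 (fun i => c * β i) := by
    intro β hβ c
    unfold Pi0 at *
    rw [← Finset.mul_sum, hβ, mul_zero]
  have hpa : ∀ β β', Pi0 β → Pi0 β' → ∀ c : ℂ, Pi0 (fun i => β i + c * β' i) := by
    intro β β' hβ hβ' c
    unfold Pi0 at *
    rw [Finset.sum_add_distrib, ← Finset.mul_sum, hβ, hβ', mul_zero, add_zero]
  have hdec : ∀ β, Pi0 β → ∀ γ, Pi0 γ → B β γ =
      (β 1 - β 3 / y 3 * y 1) * B ![-1, 1, 0, 0] γ +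
        (β 2 - β 3 / y 3 * y 2) * B ![-1, 0, 1, 0] γ := by
    intro β hβ γ hγ
    have e : β = fun i => (fun j => (β 3 / y 3) * y j + (β 1 - β 3 / y 3 * y 1) *
        (![-1, 1, 0, 0] : Fin 4 → ℂ) j) i + (β 2 - β 3 / y 3 * y 2) *
          (![-1, 0, 1, 0] : Fin 4 → ℂ) i := by
      have hb : β 0 + β 1 + β 2 + β 3 = 0 := by
        have := hβ
        simpa [Pi0, Fin.sum_univ_four] using this
      have hyy : y 0 + y 1 + y 2 + y 3 = 0 := by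
        have := hy
        simpa [Pi0, Fin.sum_univ_four] using this
      have hs : β 3 / y 3 * y 3 = β 3 := div_mul_cancel₀ _ hy3
      funext i
      fin_cases i
      · simp
        linear_combination hb - β 3 / y 3 * hyy + hs
      · simp
      · simp
      · simp [hs]
    have h1 := hl (fun j => (β 3 / y 3) * y j + (β 1 - β 3 / y 3 * y 1) *
        (![-1, 1, 0, 0] : Fin 4 → ℂ) j) ![-1, 0, 1, 0] γ
        (hpa _ _ (hpm _ hy _) m3_pi_e1 _) m3_pi_e2 hγ (β 2 - β 3 / y 3 * y 2)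
    have h2 := hl (fun j => (β 3 / y 3) * y j) ![-1, 1, 0, 0] γ (hpm _ hy _) m3_pi_e1 hγ
      (β 1 - β 3 / y 3 * y 1)
    have h3 := hsm y γ hy hγ (β 3 / y 3)
    rw [← e] at h1
    rw [h1, h2, h3, h0 γ hγ, mul_zero, zero_add]
  have k1 := hdec β0 hβ0 β1 hβ1
  have k2 : B ![-1, 1, 0, 0] β1 =
      -((β1 1 - β1 3 / y 3 * y 1) * B ![-1, 1, 0, 0] ![-1, 1, 0, 0] +
        (β1 2 - β1 3 / y 3 * y 2) * B ![-1, 0, 1, 0] ![-1, 1, 0, 0]) := by
    rw [ha _ _ m3_pi_e1 hβ1, hdec β1 hβ1 _ m3_pi_e1]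
  have k3 : B ![-1, 0, 1, 0] β1 =
      -((β1 1 - β1 3 / y 3 * y 1) * B ![-1, 1, 0, 0] ![-1, 0, 1, 0] +
        (β1 2 - β1 3 / y 3 * y 2) * B ![-1, 0, 1, 0] ![-1, 0, 1, 0]) := by
    rw [ha _ _ m3_pi_e2 hβ1, hdec β1 hβ1 _ m3_pi_e2]
  rw [k1, k2, k3, hself _ m3_pi_e1, hself _ m3_pi_e2, ha _ _ m3_pi_e2 m3_pi_e1]
  unfold det3
  field_simp
  ring

/-! ### Local representation -/

theorem m3_rep {ω : (C2 → SS.Amb) → C2 → ℂ} (h : SS.IsPluri 1 Set.univ ω)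
    {v0 : Fin 5 → ℂ} (hv0 : v0 ∈ SC) :
    ∃ W : (Fin 5 → ℂ) → ((Fin 5 → ℂ) →L[ℂ] (Fin 5 → ℂ) →L[ℂ] ℂ), HolAt W v0 ∧
      ∀ᶠ u in 𝓝 v0, u ∈ SC0 → (∀ a, W u a a = 0) ∧
        (∀ b, W u (fun k => (wS k : ℂ) * u k) b = 0) ∧
        ∀ (g : C2 → Fin 5 → ℂ) (q : C2), SS.PlotAt g q → g q = u →
          ω g q = W u (tau u (fderiv ℂ (fun z => sqv (g z)) q (Pi.single 0 1)))
            (tau u (fderiv ℂ (fun z => sqv (g z)) q (Pi.single 1 1))) := by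
  obtain ⟨W, hW, hu⟩ := Surf.IsPluri.local_rep h (v0 := v0) hv0
  refine ⟨W, hW, ?_⟩
  refine Filter.Eventually.mono hu fun u h1 h2 => ?_
  obtain ⟨h3, h3', h4⟩ := h1 h2.1
  refine ⟨h3, h3', fun g q hg hgu => ?_⟩
  have h5 := h4 g q hg hgu
  have h6 := fderiv_plot hg (by rw [hgu]; exact h2) (Pi.single 0 1)
  have h7 := fderiv_plot hg (by rw [hgu]; exact h2) (Pi.single 1 1)
  rw [hgu] at h6 h7
  exact h5.trans (congrArg₂ (fun a b => W u a b) h6 h7)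

/-- The function on the cone. -/
noncomputable def m3_H (ω : (C2 → SS.Amb) → C2 → ℂ) (v : Fin 5 → ℂ) : ℂ :=
  ω (PL v ![-1, 1, 0, 0] ![-1, 0, 1, 0]) 0 / sqv v 3

theorem m3_sqv3 {v : Fin 5 → ℂ} (hv : v ∈ SC0) (i : Fin 4) : sqv v i ≠ 0 :=
  pow_ne_zero 2 (hv.2 i.castSucc)

theorem m3_loc {ω : (C2 → SS.Amb) → C2 → ℂ} (h : SS.IsPluri 1 Set.univ ω)
    {v0 : Fin 5 → ℂ} (hv0 : v0 ∈ SC) :
    ∃ W : (Fin 5 → ℂ) → ((Fin 5 → ℂ) →L[ℂ] (Fin 5 → ℂ) →L[ℂ] ℂ), HolAt W v0 ∧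
      ∀ᶠ u in 𝓝 v0, u ∈ SC0 →
        (∀ β0 β1, Pi0 β0 → Pi0 β1 →
          W u (tau u β0) (tau u β1) = m3_H ω u * det3 (sqv u) β0 β1) ∧
        ∀ (g : C2 → Fin 5 → ℂ) (q : C2), SS.PlotAt g q → g q = u →
          ω g q = W u (tau u (fderiv ℂ (fun z => sqv (g z)) q (Pi.single 0 1)))
            (tau u (fderiv ℂ (fun z => sqv (g z)) q (Pi.single 1 1))) := by
  obtain ⟨W, hW, hu⟩ := m3_rep h hv0
  refine ⟨W, hW, ?_⟩
  filter_upwards [hu] with u h1 h2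
  obtain ⟨h3, h3', h4⟩ := h1 h2
  refine ⟨fun β0 β1 hβ0 hβ1 => ?_, h4⟩
  obtain ⟨h5, h6⟩ := PL_plotAt h2 m3_pi_e1 m3_pi_e2
  have h7 := h4 (PL u ![-1, 1, 0, 0] ![-1, 0, 1, 0]) 0 h5 h6
  obtain ⟨h8, h9⟩ := PL_sqv h2 m3_pi_e1 m3_pi_e2
  rw [h8, h9] at h7
  have hy : Pi0 (sqv u) := (mem_SC.1 h2.1).2.1
  have h10 := alt_det3 (B := fun β γ => W u (tau u β) (tau u γ)) hy (m3_sqv3 h2 3)
    (by
      intro β β' γ _ _ _ c
      rw [tau_add_smul]
      have e : (fun k => tau u β k + c * tau u β' k) = tau u β + c • tau u β' := rfl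
      rw [e, map_add, map_smul]
      rfl)
    (by
      intro β γ _ _
      have k := h3 (tau u β + tau u γ)
      have k1 := h3 (tau u β)
      have k2 := h3 (tau u γ)
      rw [(W u).map_add, _root_.add_apply, map_add, map_add, k1, k2] at k
      linear_combination k)
    (by
      intro γ _
      rw [tau_euler h2]
      have e : (fun k => (1 / 2 : ℂ) * ((wS k : ℂ) * u k)) =
        (1 / 2 : ℂ) • (fun k => (wS k : ℂ) * u k) := rfl
      rw [e, map_smul, _root_.smul_apply, h3', smul_zero])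
    hβ0 hβ1
  rw [h10, ← h7]
  rfl

theorem m3_form {ω : (C2 → SS.Amb) → C2 → ℂ} (h : SS.IsPluri 1 Set.univ ω)
    {g : C2 → Fin 5 → ℂ} {q : C2} (hg : SS.PlotAt g q) (h0 : g q ∈ SC0) :
    ω g q = m3_H ω (g q) * det3 (sqv (g q))
      (fderiv ℂ (fun z => sqv (g z)) q (Pi.single 0 1))
      (fderiv ℂ (fun z => sqv (g z)) q (Pi.single 1 1)) := by
  obtain ⟨W, -, hu⟩ := m3_loc h h0.1
  obtain ⟨h1, h2⟩ := hu.self_of_nhds h0
  rw [h2 g q hg rfl, h1 _ _ (plot_pi0 hg _) (plot_pi0 hg _)]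

theorem m3_wt {ω : (C2 → SS.Amb) → C2 → ℂ} (h : SS.IsPluri 1 Set.univ ω) :
    HasWt 6 (m3_H ω) := by
  intro v hv l hl
  obtain ⟨h1, h2⟩ := PL_plotAt hv m3_pi_e1 m3_pi_e2
  have h3 : SS.PlotAt (fun z => act (n := 5) wS l (PL v ![-1, 1, 0, 0] ![-1, 0, 1, 0] z)) 0 :=
    h1.act (l := fun _ => l) (holAt_const l 0) hl
  have h4 : ω (fun z => act (n := 5) wS l (PL v ![-1, 1, 0, 0] ![-1, 0, 1, 0] z)) 0 =
      ω (PL v ![-1, 1, 0, 0] ![-1, 0, 1, 0]) 0 :=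
    h.scale (PL v ![-1, 1, 0, 0] ![-1, 0, 1, 0]) (fun _ => l) 0 h1 (Set.mem_univ _)
      (holAt_const l 0) hl
  have h5 := m3_form h h3 (by rw [h2]; exact (act_mem_SC0 hv hl).1)
  have h0 := m3_form h h1 (by rw [h2]; exact hv)
  rw [h4] at h5
  have e1 : (fun z => sqv (act (n := 5) wS l (PL v ![-1, 1, 0, 0] ![-1, 0, 1, 0] z))) =
      fun z => (l ^ 2 : ℂ) • sqv (PL v ![-1, 1, 0, 0] ![-1, 0, 1, 0] z) := by
    funext z
    exact m3_sqv_act l _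
  have e2 : DifferentiableAt ℂ (fun z => sqv (PL v ![-1, 1, 0, 0] ![-1, 0, 1, 0] z)) 0 :=
    (m3_sqv_diff _).comp 0 h1.holAt.differentiableAt
  rw [e1, fderiv_fun_const_smul e2 (l ^ 2 : ℂ), _root_.smul_apply, _root_.smul_apply,
    h2, m3_sqv_act, m3_det_smul] at h5
  rw [h2] at h0
  have h6 := h0.symm.trans h5
  rw [(PL_sqv hv m3_pi_e1 m3_pi_e2).1, (PL_sqv hv m3_pi_e1 m3_pi_e2).2, m3_det_e] at h6
  have h7 := m3_sqv3 hv 3
  refine mul_right_cancel₀ h7 ?_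
  rw [h6]
  ring

theorem m3_arc {ω : (C2 → SS.Amb) → C2 → ℂ} (h : SS.IsPluri 1 Set.univ ω) :
    ArcHol (m3_H ω) := by
  intro γ s hγ
  have hs := hγ.self_of_nhds
  obtain ⟨W, hW, hu⟩ := m3_loc h hs.2.1
  have hc : ContinuousAt γ s := hs.1.continuousAt
  have h1 : (fun t => m3_H ω (γ t)) =ᶠ[𝓝 s]
      fun t => W (γ t) (tau (γ t) ![-1, 1, 0, 0]) (tau (γ t) ![-1, 0, 1, 0]) /
        sqv (γ t) 3 := by
    filter_upwards [hc.eventually hu, hγ] with t h2 h3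
    have h4 := (h2 h3.2).1 _ _ m3_pi_e1 m3_pi_e2
    rw [m3_det_e] at h4
    rw [h4, mul_div_cancel_right₀ _ (m3_sqv3 h3.2 3)]
  refine DifferentiableAt.congr_of_eventuallyEq ?_ h1
  refine DifferentiableAt.div ?_ ?_ (m3_sqv3 hs.2 3)
  · exact ((hW.differentiableAt.comp s hs.1).clm_apply (tau_arc hs.1 hs.2 _)).clm_apply
      (tau_arc hs.1 hs.2 _)
  · exact differentiableAt_pi.1 ((m3_sqv_diff _).comp s hs.1) 3

/-! ### Bounds -/

theorem m3_pole_aux {ω : (C2 → SS.Amb) → C2 → ℂ} (h : SS.IsPluri 1 Set.univ ω)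
    {v0 : Fin 5 → ℂ} (hv0 : v0 ∈ SC) {m : Fin 5} (hm : ∀ k, k ≠ m → v0 k ≠ 0)
    {β1 : Fin 4 → ℂ} (hβ1 : Pi0 β1) (β0 : (Fin 5 → ℂ) → Fin 4 → ℂ) (hβ0 : ∀ v, Pi0 (β0 v))
    (hb : ∃ M : ℝ, ∀ᶠ v in 𝓝 v0, v ∈ SC0 → ‖tau v (β0 v)‖ ≤ M)
    (hd : ContinuousAt (fun v => det3 (sqv v) (β0 v) β1) v0)
    (hne : det3 (sqv v0) (β0 v0) β1 ≠ 0) :
    ∃ M : ℝ, ∀ᶠ v in 𝓝 v0, v ∈ SC0 → ‖v m * m3_H ω v‖ ≤ M := by
  obtain ⟨W, hW, hu⟩ := m3_loc h hv0
  obtain ⟨M0, hM0⟩ := hb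
  obtain ⟨M1, hM1⟩ := tau_bound hm β1
  have hpos : 0 < ‖det3 (sqv v0) (β0 v0) β1‖ := norm_pos_iff.2 hne
  have hlow : ∀ᶠ v in 𝓝 v0, ‖det3 (sqv v0) (β0 v0) β1‖ / 2 < ‖det3 (sqv v) (β0 v) β1‖ :=
    hd.norm.eventually (Ioi_mem_nhds (half_lt_self hpos))
  refine ⟨(‖W v0‖ + 1) * M0 * M1 / (‖det3 (sqv v0) (β0 v0) β1‖ / 2), ?_⟩
  filter_upwards [hu, hM0, hM1, m3_bound hW.continuousAt, hlow] with v h1 h2 h3 h4 h5 hv
  have h6 := (h1 hv).1 _ _ (hβ0 v) hβ1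
  rw [le_div_iff₀ (half_pos hpos)]
  have h7 : ‖W v (tau v (β0 v)) (tau v β1)‖ ≤ ‖W v‖ * ‖tau v (β0 v)‖ * ‖tau v β1‖ :=
    (W v).le_opNorm₂ _ _
  rw [h6, norm_mul] at h7
  calc ‖v m * m3_H ω v‖ * (‖det3 (sqv v0) (β0 v0) β1‖ / 2)
      ≤ ‖v m * m3_H ω v‖ * ‖det3 (sqv v) (β0 v) β1‖ :=
        mul_le_mul_of_nonneg_left h5.le (norm_nonneg _)
    _ = ‖v m‖ * (‖m3_H ω v‖ * ‖det3 (sqv v) (β0 v) β1‖) := by rw [norm_mul]; ring
    _ ≤ ‖v m‖ * (‖W v‖ * ‖tau v (β0 v)‖ * ‖tau v β1‖) :=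
        mul_le_mul_of_nonneg_left h7 (norm_nonneg _)
    _ = (‖W v‖ * ‖tau v (β0 v)‖) * (‖v m‖ * ‖tau v β1‖) := by ring
    _ ≤ ((‖W v0‖ + 1) * M0) * M1 := by
        refine mul_le_mul (mul_le_mul h4 (h2 hv) (norm_nonneg _) (by positivity)) (h3 hv)
          (mul_nonneg (norm_nonneg _) (norm_nonneg _)) ?_
        exact mul_nonneg (by positivity) ((norm_nonneg _).trans (h2 hv))

theorem m3_det_cont {β0 : (Fin 5 → ℂ) → Fin 4 → ℂ} {v0 : Fin 5 → ℂ} (h : ContinuousAt β0 v0)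
    (β1 : Fin 4 → ℂ) : ContinuousAt (fun v => det3 (sqv v) (β0 v) β1) v0 := by
  have h1 : ∀ i : Fin 4, ContinuousAt (fun v => β0 v i) v0 := fun i => continuousAt_pi.1 h i
  have h2 : ∀ i : Fin 4, ContinuousAt (fun v => sqv v i) v0 := fun i =>
    continuousAt_pi.1 m3_sqv_diff.continuous.continuousAt i
  unfold det3
  exact ((((h2 1).mul (((h1 2).mul continuousAt_const).sub
    ((h1 3).mul continuousAt_const))).sub ((h2 2).mul (((h1 1).mul continuousAt_const).sub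
      ((h1 3).mul continuousAt_const)))).add ((h2 3).mul (((h1 1).mul continuousAt_const).sub
        ((h1 2).mul continuousAt_const))))

/-- The case of a point where no coordinate vanishes. -/
theorem m3_pole0 {ω : (C2 → SS.Amb) → C2 → ℂ} (h : SS.IsPluri 1 Set.univ ω)
    {v0 : Fin 5 → ℂ} (hv0 : v0 ∈ SC) {m : Fin 5} (hm : ∀ k, k ≠ m → v0 k ≠ 0)
    (hm0 : v0 m ≠ 0) :
    ∃ M : ℝ, ∀ᶠ v in 𝓝 v0, v ∈ SC0 → ‖v m * m3_H ω v‖ ≤ M := by
  have hall : ∀ k, v0 k ≠ 0 := fun k => by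
    by_cases hk : k = m
    · rw [hk]; exact hm0
    · exact hm k hk
  refine m3_pole_aux h hv0 hm m3_pi_e2 (fun _ => ![-1, 1, 0, 0]) (fun _ => m3_pi_e1) ?_
    (m3_det_cont continuousAt_const _) ?_
  · obtain ⟨M, hM⟩ := tau_bound hm ![-1, 1, 0, 0]
    have hpos : 0 < ‖v0 m‖ := norm_pos_iff.2 hm0
    have hc : ContinuousAt (fun v : Fin 5 → ℂ => v m) v0 := (continuous_apply m).continuousAt
    have hlow : ∀ᶠ v in 𝓝 v0, ‖v0 m‖ / 2 < ‖(v : Fin 5 → ℂ) m‖ :=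
      hc.norm.eventually (Ioi_mem_nhds (half_lt_self hpos))
    refine ⟨M / (‖v0 m‖ / 2), ?_⟩
    filter_upwards [hM, hlow] with v h1 h2 hv
    rw [le_div_iff₀ (half_pos hpos)]
    calc ‖tau v ![-1, 1, 0, 0]‖ * (‖v0 m‖ / 2) ≤ ‖tau v ![-1, 1, 0, 0]‖ * ‖v m‖ :=
          mul_le_mul_of_nonneg_left h2.le (norm_nonneg _)
      _ = ‖v m‖ * ‖tau v ![-1, 1, 0, 0]‖ := mul_comm _ _
      _ ≤ M := h1 hv
  · rw [m3_det_e]
    exact pow_ne_zero 2 (hall _)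

/-- The case of a point of a line `y i = 0`. -/
theorem m3_pole1 {ω : (C2 → SS.Amb) → C2 → ℂ} (h : SS.IsPluri 1 Set.univ ω)
    {v0 : Fin 5 → ℂ} (hv0 : v0 ∈ SC) {i : Fin 4} (hm : ∀ k, k ≠ i.castSucc → v0 k ≠ 0)
    (hm0 : v0 i.castSucc = 0) :
    ∃ M : ℝ, ∀ᶠ v in 𝓝 v0, v ∈ SC0 → ‖v i.castSucc * m3_H ω v‖ ≤ M := by
  have hne : ∀ k : Fin 4, k ≠ i → sqv v0 k ≠ 0 := fun k hk =>
    pow_ne_zero 2 (hm _ fun h => hk (Fin.castSucc_injective _ h))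
  have hy0 : sqv v0 i = 0 := by
    simp [sqv, hm0]
  have hpi := (mem_SC.1 hv0).2.1
  have hsum : sqv v0 0 + sqv v0 1 + sqv v0 2 + sqv v0 3 = 0 := by
    simpa [Pi0, Fin.sum_univ_four] using hpi
  have key : ∃ β0 β1 : Fin 4 → ℂ, Pi0 β0 ∧ Pi0 β1 ∧ β0 i = 0 ∧ det3 (sqv v0) β0 β1 ≠ 0 := by
    fin_cases i
    · refine ⟨![0, 1, -1, 0], ![1, -1, 0, 0], by simp [Pi0, Fin.sum_univ_four],
        by simp [Pi0, Fin.sum_univ_four], by simp, ?_⟩
      have e : det3 (sqv v0) ![0, 1, -1, 0] ![1, -1, 0, 0] = - sqv v0 3 := by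
        simp [det3]
      rw [e]
      exact neg_ne_zero.2 (hne 3 (by decide))
    · refine ⟨![0, 0, 1, -1], ![0, 1, -1, 0], by simp [Pi0, Fin.sum_univ_four],
        by simp [Pi0, Fin.sum_univ_four], by simp, ?_⟩
      have e : det3 (sqv v0) ![0, 0, 1, -1] ![0, 1, -1, 0] = sqv v0 0 := by
        simp [det3]
        linear_combination -hsum
      rw [e]
      exact hne 0 (by decide)
    · refine ⟨![0, 1, 0, -1], ![0, -1, 1, 0], by simp [Pi0, Fin.sum_univ_four],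
        by simp [Pi0, Fin.sum_univ_four], by simp, ?_⟩
      have e : det3 (sqv v0) ![0, 1, 0, -1] ![0, -1, 1, 0] = - sqv v0 0 := by
        simp [det3]
        linear_combination hsum
      rw [e]
      exact neg_ne_zero.2 (hne 0 (by decide))
    · refine ⟨![0, 1, -1, 0], ![0, -1, 0, 1], by simp [Pi0, Fin.sum_univ_four],
        by simp [Pi0, Fin.sum_univ_four], by simp, ?_⟩
      have e : det3 (sqv v0) ![0, 1, -1, 0] ![0, -1, 0, 1] = sqv v0 0 := by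
        simp [det3]
        linear_combination -hsum
      rw [e]
      exact hne 0 (by decide)
  obtain ⟨β0, β1, hβ0, hβ1, hz, hd⟩ := key
  exact m3_pole_aux h hv0 hm hβ1 (fun _ => β0) (fun _ => hβ0) (tau_bound_of_zero hm hz)
    (m3_det_cont continuousAt_const _) hd

/-- The derivative of the cubic. -/
noncomputable def m3_phi (y β : Fin 4 → ℂ) : ℂ := ∑ i, 3 * lam i * y i ^ 2 * β i

theorem m3_phi_add (y β β' : Fin 4 → ℂ) (c : ℂ) :
    m3_phi y (fun i => β i + c * β' i) = m3_phi y β + c * m3_phi y β' := by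
  simp only [m3_phi]
  rw [Finset.mul_sum, ← Finset.sum_add_distrib]
  refine Finset.sum_congr rfl fun i _ => ?_
  ring

theorem m3_phi_cont (β : Fin 4 → ℂ) : Continuous (fun v : Fin 5 → ℂ => m3_phi (sqv v) β) := by
  refine continuous_finsetSum _ fun i _ => ?_
  have h : Continuous (fun v : Fin 5 → ℂ => sqv v i) :=
    (continuous_apply i).comp m3_sqv_diff.continuous
  exact (continuous_const.mul (h.pow 2)).mul continuous_const

/-- The three differences do not vanish simultaneously. -/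
theorem m3_phi_ne {y : Fin 4 → ℂ} (hy : Pi0 y) (hy0 : y 0 ≠ 0) :
    9 * y 0 ^ 2 ≠ 16 * y 1 ^ 2 ∨ 9 * y 0 ^ 2 ≠ 25 * y 2 ^ 2 ∨ 9 * y 0 ^ 2 ≠ 81 * y 3 ^ 2 := by
  by_contra hcon
  push Not at hcon
  obtain ⟨h1, h2, h3⟩ := hcon
  have hsum : y 0 + y 1 + y 2 + y 3 = 0 := by
    simpa [Pi0, Fin.sum_univ_four] using hy
  have k1 : y 1 = 3 / 4 * y 0 ∨ y 1 = - (3 / 4 * y 0) := by
    apply sq_eq_sq_iff_eq_or_eq_neg.1
    linear_combination -h1 / 16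
  have k2 : y 2 = 3 / 5 * y 0 ∨ y 2 = - (3 / 5 * y 0) := by
    apply sq_eq_sq_iff_eq_or_eq_neg.1
    linear_combination -h2 / 25
  have k3 : y 3 = 1 / 3 * y 0 ∨ y 3 = - (1 / 3 * y 0) := by
    apply sq_eq_sq_iff_eq_or_eq_neg.1
    linear_combination -h3 / 81
  apply hy0
  rcases k1 with k1 | k1 <;> rcases k2 with k2 | k2 <;> rcases k3 with k3 | k3 <;>
    rw [k1, k2, k3] at hsum
  · linear_combination hsum * 60 / 161
  · linear_combination hsum * 60 / 121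
  · linear_combination hsum * 60 / 89
  · linear_combination hsum * 60 / 49
  · linear_combination hsum * 60 / 71
  · linear_combination hsum * 60 / 31
  · linear_combination hsum * 60 / (-1)
  · linear_combination hsum * 60 / (-41)

theorem m3_pole4 {ω : (C2 → SS.Amb) → C2 → ℂ} (h : SS.IsPluri 1 Set.univ ω)
    {v0 : Fin 5 → ℂ} (hv0 : v0 ∈ SC) (hm : ∀ k, k ≠ Fin.last 4 → v0 k ≠ 0) :
    ∃ M : ℝ, ∀ᶠ v in 𝓝 v0, v ∈ SC0 → ‖v (Fin.last 4) * m3_H ω v‖ ≤ M := by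
  have hx : ∀ i : Fin 4, v0 i.castSucc ≠ 0 := fun i => hm _ (Fin.castSucc_lt_last i).ne
  have hne : ∀ k : Fin 4, sqv v0 k ≠ 0 := fun k => pow_ne_zero 2 (hx k)
  have hpi := (mem_SC.1 hv0).2.1
  have key : ∃ γ1 γ2 : Fin 4 → ℂ, Pi0 γ1 ∧ Pi0 γ2 ∧ m3_phi (sqv v0) γ2 ≠ 0 ∧
      det3 (sqv v0) γ1 γ2 ≠ 0 := by
    rcases m3_phi_ne hpi (hne 0) with hh | hh | hh
    · refine ⟨![-1, 0, 1, 0], ![1, -1, 0, 0], by simp [Pi0, Fin.sum_univ_four],
        by simp [Pi0, Fin.sum_univ_four], ?_, ?_⟩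
      · intro h0
        apply hh
        simp [m3_phi, Fin.sum_univ_four, lam] at h0
        linear_combination h0 / 3
      · have e : det3 (sqv v0) ![-1, 0, 1, 0] ![1, -1, 0, 0] = sqv v0 3 := by
          simp [det3]
        rw [e]
        exact hne 3
    · refine ⟨![-1, 1, 0, 0], ![1, 0, -1, 0], by simp [Pi0, Fin.sum_univ_four],
        by simp [Pi0, Fin.sum_univ_four], ?_, ?_⟩
      · intro h0
        apply hh
        simp [m3_phi, Fin.sum_univ_four, lam] at h0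
        linear_combination h0 / 3
      · have e : det3 (sqv v0) ![-1, 1, 0, 0] ![1, 0, -1, 0] = - sqv v0 3 := by
          simp [det3]
        rw [e]
        exact neg_ne_zero.2 (hne 3)
    · refine ⟨![-1, 1, 0, 0], ![1, 0, 0, -1], by simp [Pi0, Fin.sum_univ_four],
        by simp [Pi0, Fin.sum_univ_four], ?_, ?_⟩
      · intro h0
        apply hh
        simp [m3_phi, Fin.sum_univ_four, lam] at h0
        linear_combination h0 / 3
      · have e : det3 (sqv v0) ![-1, 1, 0, 0] ![1, 0, 0, -1] = sqv v0 2 := by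
          simp [det3]
        rw [e]
        exact hne 2
  obtain ⟨γ1, γ2, hγ1, hγ2, hphi, hdet⟩ := key
  have hcc : ContinuousAt (fun v : Fin 5 → ℂ => - (m3_phi (sqv v) γ1 / m3_phi (sqv v) γ2)) v0 :=
    ((m3_phi_cont γ1).continuousAt.div (m3_phi_cont γ2).continuousAt hphi).neg
  have hbc : ContinuousAt (fun (v : Fin 5 → ℂ) (i : Fin 4) =>
      γ1 i + - (m3_phi (sqv v) γ1 / m3_phi (sqv v) γ2) * γ2 i) v0 :=
    continuousAt_pi.2 fun i => continuousAt_const.add (hcc.mul continuousAt_const)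
  refine m3_pole_aux h hv0 hm hγ2
    (fun v i => γ1 i + - (m3_phi (sqv v) γ1 / m3_phi (sqv v) γ2) * γ2 i) ?_ ?_
    (m3_det_cont hbc _) ?_
  · intro v
    unfold Pi0 at *
    rw [Finset.sum_add_distrib, ← Finset.mul_sum, hγ1, hγ2, mul_zero, add_zero]
  · obtain ⟨F, hFd⟩ : ∃ F : (Fin 5 → ℂ) → Fin 5 → ℂ,
        F = fun v => (Fin.snoc (α := fun _ => ℂ)
        (fun i : Fin 4 => (γ1 i + - (m3_phi (sqv v) γ1 / m3_phi (sqv v) γ2) * γ2 i) /
          (2 * v i.castSucc)) 0 : Fin 5 → ℂ) := ⟨_, rfl⟩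
    have hF : ContinuousAt F v0 := by
      rw [hFd]
      refine continuousAt_pi.2 fun k => ?_
      refine Fin.lastCases ?_ (fun i => ?_) k
      · simp only [Fin.snoc_last]
        exact continuousAt_const
      · simp only [Fin.snoc_castSucc]
        have c2 : ContinuousAt (fun v : Fin 5 → ℂ => 2 * v i.castSucc) v0 :=
          (continuous_const.mul (continuous_apply _)).continuousAt
        exact (continuousAt_const.add (hcc.mul continuousAt_const)).div c2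
          (mul_ne_zero two_ne_zero (hx i))
    refine ⟨‖F v0‖ + 1, ?_⟩
    filter_upwards [m3_bound hF, (m3_phi_cont γ2).continuousAt.eventually_ne hphi] with v h1 h2 _
    have e : tau v (fun i => γ1 i + - (m3_phi (sqv v) γ1 / m3_phi (sqv v) γ2) * γ2 i) =
        F v := by
      rw [hFd]
      funext k
      refine Fin.lastCases ?_ (fun i => ?_) k
      · have e2 : m3_phi (sqv v)
            (fun i => γ1 i + - (m3_phi (sqv v) γ1 / m3_phi (sqv v) γ2) * γ2 i) = 0 := by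
          rw [m3_phi_add]
          field_simp
          ring
        simp only [tau, dBr, Fin.snoc_last]
        change m3_phi (sqv v) _ / _ = 0
        rw [e2, zero_div]
      · simp only [tau, dBr, Fin.snoc_castSucc]
    rw [e]
    exact h1
  · have e : det3 (sqv v0) (fun i => γ1 i + - (m3_phi (sqv v0) γ1 / m3_phi (sqv v0) γ2) * γ2 i)
        γ2 = det3 (sqv v0) γ1 γ2 := by
      simp only [det3]
      ring
    rw [e]
    exact hdet

theorem m3_pole {ω : (C2 → SS.Amb) → C2 → ℂ} (h : SS.IsPluri 1 Set.univ ω) :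
    PoleBd (m3_H ω) := by
  intro v0 hv0 m hm
  by_cases hm0 : v0 m = 0
  · revert hm hm0
    refine Fin.lastCases ?_ (fun i => ?_) m
    · intro hm _
      exact m3_pole4 h hv0 hm
    · intro hm hm0
      exact m3_pole1 h hv0 hm hm0
  · exact m3_pole0 h hv0 hm hm0

theorem exists_H {ω : (C2 → SS.Amb) → C2 → ℂ} (h : SS.IsPluri 1 Set.univ ω) :
    ∃ H : (Fin 5 → ℂ) → ℂ, HasWt 6 H ∧ ArcHol H ∧ PoleBd H ∧
      ∀ (g : C2 → Fin 5 → ℂ) (q : C2), SS.PlotAt g q → g q ∈ SC0 →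
        ω g q = H (g q) * det3 (sqv (g q)) (fderiv ℂ (fun z => sqv (g z)) q (Pi.single 0 1))
          (fderiv ℂ (fun z => sqv (g z)) q (Pi.single 1 1)) :=
  ⟨m3_H ω, m3_wt h, m3_arc h, m3_pole h, fun _ _ hg h0 => m3_form h hg h0⟩

end Pool.Agent.K3Pieces
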