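import Pool.Agent.Lib.MP_3004b3_ag.M1
import Pool.Agent.Lib.MP_3004b3_ag.M2

/-!
# JOB M4: a 1-form on `S` as a function on the cone

`A v β = α (PL v β β) 0 (Pi.single 0 1)`.

* `rep`: for a local map `g` at `q` with `u = g q ∈ SC0` and `B` from `IsForm1.local_rep` at `u`:
  `α g q e = B u (fderiv g q e) = B u (tau u (fderiv (sqv ∘ g) q e))` (`fderiv_plot`), the same for
  `PL u β β` (`PL_sqv`): `A u β = B u (tau u β)` for `β` in the plane.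
* `lin`: `tau_add_smul`. `eul`: `tau_euler` and `B u (euler u) = 0`.
* `wt`: `act wS l ∘ PL v β β` (`l` constant): `scale`, and `rep`:
  `A (act wS l v) (l² β) = A v β`.
* `arc`: near `s`, with `B` from `local_rep` at `γ s`: `A (γ t) β = B (γ t) (tau (γ t) β)`, `tau_arc`.
* `PoleBd`, `LocBd`: with `B` from `local_rep` at `v0`, `‖B v‖ ≤ M` near `v0`, and `tau_bound`,
  `tau_bound_of_zero`.
* `lim`: with `B` from `local_rep` at `v0`: for `v ∈ SC0` near `v0`,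
  `v 4 * A v β = B v (v 4 • tau v β)`, and `v 4 • tau v β` has the coordinates
  `v 4 * β i / (2 v i)` (`→ 0`, as `v0 4 = 0`) and `(∑ 3 lam i y_i² β i) / 2`; so the limit is
  `K * ∑ lam i y0_i² β i` with `K = (3/2) * B v0 (Pi.single 4 1)`.
-/

set_option autoImplicit false

namespace Pool.Agent.K3Pieces

open scoped Topology

/-- The properties of the function on the cone given by a 1-form. -/
structure IsA (A : (Fin 5 → ℂ) → (Fin 4 → ℂ) → ℂ) : Prop where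
  lin : ∀ v ∈ SC0, ∀ β β', Pi0 β → Pi0 β' → ∀ c : ℂ,
    A v (fun i => β i + c * β' i) = A v β + c * A v β'
  eul : ∀ v ∈ SC0, A v (sqv v) = 0
  wt : ∀ β, Pi0 β → HasWt 2 (fun v => A v β)
  arc : ∀ β, Pi0 β → ArcHol (fun v => A v β)
  pole : ∀ β, Pi0 β → PoleBd (fun v => A v β)
  loc : ∀ β, Pi0 β → ∀ i : Fin 4, β i = 0 → LocBd i.castSucc (fun v => A v β)
  lim : ∀ v0 ∈ SC, v0 (Fin.last 4) = 0 → (∀ i : Fin 4, v0 i.castSucc ≠ 0) →
    ∃ K : ℂ, ∀ β, Pi0 β → Filter.Tendsto (fun v => v (Fin.last 4) * A v β) (𝓝[SC0] v0)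
      (𝓝 (K * ∑ i, lam i * sqv v0 i ^ 2 * β i))

/-! ### Auxiliary lemmas -/

theorem m4_bound {E : Type} [NormedAddCommGroup E] {B : (Fin 5 → ℂ) → E} {v0 : Fin 5 → ℂ}
    (hB : ContinuousAt B v0) : ∀ᶠ v in 𝓝 v0, ‖B v‖ ≤ ‖B v0‖ + 1 := by
  have h := hB.norm.eventually (Iio_mem_nhds (lt_add_one ‖B v0‖))
  filter_upwards [h] with v hv
  exact le_of_lt hv

theorem m4_pi0 {β β' : Fin 4 → ℂ} (h : Pi0 β) (h' : Pi0 β') (c : ℂ) :
    Pi0 (fun i => β i + c * β' i) := by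
  unfold Pi0 at *
  rw [Finset.sum_add_distrib, ← Finset.mul_sum, h, h', mul_zero, add_zero]

theorem m4_pi0_mul {β : Fin 4 → ℂ} (h : Pi0 β) (c : ℂ) : Pi0 (fun i => c * β i) := by
  unfold Pi0 at *
  rw [← Finset.mul_sum, h, mul_zero]

theorem m4_sqv_act (l : ℂ) (u : Fin 5 → ℂ) :
    sqv (act wS l u) = (l ^ 2 : ℂ) • sqv u := by
  funext i
  have hw : wS i.castSucc = 1 := by
    fin_cases i <;> rfl
  simp only [sqv, act, hw, pow_one, mul_pow, Pi.smul_apply, smul_eq_mul]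

theorem m4_sqv_diff : Differentiable ℂ sqv := by
  refine differentiable_pi.2 fun i => ?_
  have h : Differentiable ℂ fun v : Fin 5 → ℂ => v i.castSucc := by fun_prop
  exact h.pow 2

theorem m4_rep {α : (C2 → SS.Amb) → C2 → (C2 →L[ℂ] ℂ)} (h : SS.IsForm1 Set.univ α)
    {v0 : Fin 5 → ℂ} (hv0 : v0 ∈ SC) :
    ∃ B : (Fin 5 → ℂ) → ((Fin 5 → ℂ) →L[ℂ] ℂ), HolAt B v0 ∧
      ∀ᶠ u in 𝓝 v0, u ∈ SC0 → (B u (fun k => (wS k : ℂ) * u k) = 0) ∧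
        ∀ (g : C2 → Fin 5 → ℂ) (q : C2), SS.PlotAt g q → g q = u → ∀ e,
          α g q e = B u (tau u (fderiv ℂ (fun z => sqv (g z)) q e)) := by
  obtain ⟨B, hB, hu⟩ := Surf.IsForm1.local_rep h (v0 := v0) hv0
  refine ⟨B, hB, ?_⟩
  refine Filter.Eventually.mono hu fun u h1 h2 => ?_
  obtain ⟨h3, h4⟩ := h1 h2.1
  refine ⟨h3, fun g q hg hgu e => ?_⟩
  have h5 := h4 g q hg hgu e
  have h6 := fderiv_plot hg (by rw [hgu]; exact h2) e
  rw [hgu] at h6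
  exact h5.trans (congrArg (B u) h6)

/-- The function on the cone. -/
noncomputable def m4_A (α : (C2 → SS.Amb) → C2 → (C2 →L[ℂ] ℂ)) (v : Fin 5 → ℂ)
    (β : Fin 4 → ℂ) : ℂ :=
  α (PL v β β) 0 (Pi.single 0 1)

theorem m4_loc {α : (C2 → SS.Amb) → C2 → (C2 →L[ℂ] ℂ)} (h : SS.IsForm1 Set.univ α)
    {v0 : Fin 5 → ℂ} (hv0 : v0 ∈ SC) :
    ∃ B : (Fin 5 → ℂ) → ((Fin 5 → ℂ) →L[ℂ] ℂ), HolAt B v0 ∧
      ∀ᶠ u in 𝓝 v0, u ∈ SC0 → (B u (fun k => (wS k : ℂ) * u k) = 0) ∧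
        (∀ β, Pi0 β → m4_A α u β = B u (tau u β)) ∧
        ∀ (g : C2 → Fin 5 → ℂ) (q : C2), SS.PlotAt g q → g q = u → ∀ e,
          α g q e = B u (tau u (fderiv ℂ (fun z => sqv (g z)) q e)) := by
  obtain ⟨B, hB, hu⟩ := m4_rep h hv0
  refine ⟨B, hB, ?_⟩
  filter_upwards [hu] with u h1 h2
  obtain ⟨h3, h4⟩ := h1 h2
  refine ⟨h3, fun β hβ => ?_, h4⟩
  obtain ⟨h5, h6⟩ := PL_plotAt h2 hβ hβ
  have h7 := h4 (PL u β β) 0 h5 h6 (Pi.single 0 1)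
  rw [(PL_sqv h2 hβ hβ).1] at h7
  exact h7

theorem m4_at {α : (C2 → SS.Amb) → C2 → (C2 →L[ℂ] ℂ)} (h : SS.IsForm1 Set.univ α)
    {v : Fin 5 → ℂ} (hv : v ∈ SC0) :
    ∃ B : (Fin 5 → ℂ) →L[ℂ] ℂ, (B (fun k => (wS k : ℂ) * v k) = 0) ∧
        (∀ β, Pi0 β → m4_A α v β = B (tau v β)) ∧
        ∀ (g : C2 → Fin 5 → ℂ) (q : C2), SS.PlotAt g q → g q = v → ∀ e,
          α g q e = B (tau v (fderiv ℂ (fun z => sqv (g z)) q e)) := by
  obtain ⟨B, _, hu⟩ := m4_loc h hv.1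
  exact ⟨B v, hu.self_of_nhds hv⟩

theorem m4_form {α : (C2 → SS.Amb) → C2 → (C2 →L[ℂ] ℂ)} (h : SS.IsForm1 Set.univ α)
    {g : C2 → Fin 5 → ℂ} {q : C2} (hg : SS.PlotAt g q) (h0 : g q ∈ SC0) (e : C2) :
    α g q e = m4_A α (g q) (fderiv ℂ (fun z => sqv (g z)) q e) := by
  obtain ⟨B, -, h2, h3⟩ := m4_at h h0
  rw [h3 g q hg rfl e, h2 _ (plot_pi0 hg e)]

theorem m4_lin {α : (C2 → SS.Amb) → C2 → (C2 →L[ℂ] ℂ)} (h : SS.IsForm1 Set.univ α)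
    {v : Fin 5 → ℂ} (hv : v ∈ SC0) {β β' : Fin 4 → ℂ} (hβ : Pi0 β) (hβ' : Pi0 β') (c : ℂ) :
    m4_A α v (fun i => β i + c * β' i) = m4_A α v β + c * m4_A α v β' := by
  obtain ⟨B, -, h2, -⟩ := m4_at h hv
  rw [h2 _ (m4_pi0 hβ hβ' c), h2 _ hβ, h2 _ hβ', tau_add_smul]
  have h3 : (fun k => tau v β k + c * tau v β' k) = tau v β + c • tau v β' := rfl
  rw [h3, map_add, map_smul, smul_eq_mul]

theorem m4_mul {α : (C2 → SS.Amb) → C2 → (C2 →L[ℂ] ℂ)} (h : SS.IsForm1 Set.univ α)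
    {v : Fin 5 → ℂ} (hv : v ∈ SC0) {β : Fin 4 → ℂ} (hβ : Pi0 β) (c : ℂ) :
    m4_A α v (c • β) = c * m4_A α v β := by
  have h0 : Pi0 (fun _ => (0 : ℂ)) := by simp [Pi0]
  have h1 := m4_lin h hv h0 h0 1
  have h2 := m4_lin h hv h0 hβ c
  have e1 : (fun _ : Fin 4 => (0 : ℂ) + 1 * 0) = fun _ => 0 := by funext i; simp
  have e2 : (fun i : Fin 4 => (0 : ℂ) + c * β i) = c • β := by funext i; simp
  rw [e1] at h1
  rw [e2] at h2
  have h3 : m4_A α v (fun _ => 0) = 0 := by linear_combination -h1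
  rw [h2, h3, zero_add]

theorem m4_eul {α : (C2 → SS.Amb) → C2 → (C2 →L[ℂ] ℂ)} (h : SS.IsForm1 Set.univ α)
    {v : Fin 5 → ℂ} (hv : v ∈ SC0) : m4_A α v (sqv v) = 0 := by
  obtain ⟨B, h1, h2, -⟩ := m4_at h hv
  rw [h2 _ (mem_SC.1 hv.1).2.1, tau_euler hv]
  have h3 : (fun k => (1 / 2 : ℂ) * ((wS k : ℂ) * v k)) =
    (1 / 2 : ℂ) • (fun k => (wS k : ℂ) * v k) := rfl
  rw [h3, map_smul, h1, smul_zero]

theorem m4_wt {α : (C2 → SS.Amb) → C2 → (C2 →L[ℂ] ℂ)} (h : SS.IsForm1 Set.univ α)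
    {β : Fin 4 → ℂ} (hβ : Pi0 β) : HasWt 2 (fun v => m4_A α v β) := by
  intro v hv l hl
  obtain ⟨h1, h2⟩ := PL_plotAt hv hβ hβ
  have h3 : SS.PlotAt (fun z => act (n := 5) wS l (PL v β β z)) 0 :=
    h1.act (l := fun _ => l) (holAt_const l 0) hl
  have h4 : α (fun z => act (n := 5) wS l (PL v β β z)) 0 = α (PL v β β) 0 :=
    h.scale (PL v β β) (fun _ => l) 0 h1 (Set.mem_univ _) (holAt_const l 0) hl
  have h5 := m4_form h h3 (by rw [h2]; exact (act_mem_SC0 hv hl).1) (Pi.single 0 1)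
  rw [h4] at h5
  have h6 : fderiv ℂ (fun z => sqv (act wS l (PL v β β z))) 0 (Pi.single 0 1) =
      (l ^ 2 : ℂ) • β := by
    have e1 : (fun z => sqv (act wS l (PL v β β z))) =
        fun z => (l ^ 2 : ℂ) • sqv (PL v β β z) := by
      funext z
      exact m4_sqv_act l _
    have e2 : DifferentiableAt ℂ (fun z => sqv (PL v β β z)) 0 :=
      (m4_sqv_diff _).comp 0 h1.holAt.differentiableAt
    rw [e1, fderiv_fun_const_smul e2 (l ^ 2 : ℂ), _root_.smul_apply,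
      (PL_sqv hv hβ hβ).1]
  rw [h6, h2, m4_mul h (act_mem_SC0 hv hl).1 hβ] at h5
  exact h5.symm

theorem m4_arc {α : (C2 → SS.Amb) → C2 → (C2 →L[ℂ] ℂ)} (h : SS.IsForm1 Set.univ α)
    {β : Fin 4 → ℂ} (hβ : Pi0 β) : ArcHol (fun v => m4_A α v β) := by
  intro γ s hγ
  have hs := hγ.self_of_nhds
  obtain ⟨B, hB, hu⟩ := m4_loc h hs.2.1
  have hc : ContinuousAt γ s := hs.1.continuousAt
  have h1 : (fun t => m4_A α (γ t) β) =ᶠ[𝓝 s] fun t => B (γ t) (tau (γ t) β) := by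
    filter_upwards [hc.eventually hu, hγ] with t h2 h3
    exact (h2 h3.2).2.1 β hβ
  refine DifferentiableAt.congr_of_eventuallyEq ?_ h1
  exact (hB.differentiableAt.comp s hs.1).clm_apply (tau_arc hs.1 hs.2 β)

theorem m4_pole {α : (C2 → SS.Amb) → C2 → (C2 →L[ℂ] ℂ)} (h : SS.IsForm1 Set.univ α)
    {β : Fin 4 → ℂ} (hβ : Pi0 β) : PoleBd (fun v => m4_A α v β) := by
  intro v0 hv0 m hm
  obtain ⟨B, hB, hu⟩ := m4_loc h hv0
  obtain ⟨M, hM⟩ := tau_bound hm β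
  refine ⟨(‖B v0‖ + 1) * M, ?_⟩
  filter_upwards [hu, hM, m4_bound hB.continuousAt] with v h1 h2 h3 hv
  rw [(h1 hv).2.1 β hβ, norm_mul]
  calc ‖v m‖ * ‖B v (tau v β)‖ ≤ ‖v m‖ * (‖B v‖ * ‖tau v β‖) :=
        mul_le_mul_of_nonneg_left ((B v).le_opNorm _) (norm_nonneg _)
    _ = ‖B v‖ * (‖v m‖ * ‖tau v β‖) := by ring
    _ ≤ (‖B v0‖ + 1) * M :=
        mul_le_mul h3 (h2 hv) (mul_nonneg (norm_nonneg _) (norm_nonneg _)) (by positivity)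

theorem m4_locBd {α : (C2 → SS.Amb) → C2 → (C2 →L[ℂ] ℂ)} (h : SS.IsForm1 Set.univ α)
    {β : Fin 4 → ℂ} (hβ : Pi0 β) {i : Fin 4} (hi : β i = 0) :
    LocBd i.castSucc (fun v => m4_A α v β) := by
  intro v0 hv0 hm
  obtain ⟨B, hB, hu⟩ := m4_loc h hv0
  obtain ⟨M, hM⟩ := tau_bound_of_zero hm hi
  refine ⟨(‖B v0‖ + 1) * M, ?_⟩
  filter_upwards [hu, hM, m4_bound hB.continuousAt] with v h1 h2 h3 hv
  rw [(h1 hv).2.1 β hβ]
  calc ‖B v (tau v β)‖ ≤ ‖B v‖ * ‖tau v β‖ := (B v).le_opNorm _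
    _ ≤ (‖B v0‖ + 1) * M :=
        mul_le_mul h3 (h2 hv) (norm_nonneg _) (by positivity)

/-- The vector `v 4 • tau v β`, without the denominator `v 4`. -/
noncomputable def m4_F (β : Fin 4 → ℂ) (v : Fin 5 → ℂ) : Fin 5 → ℂ :=
  Fin.snoc (α := fun _ => ℂ) (fun i : Fin 4 => v (Fin.last 4) * (β i / (2 * v i.castSucc)))
    ((∑ i, 3 * lam i * sqv v i ^ 2 * β i) / 2)

theorem m4_F_eq (β : Fin 4 → ℂ) {v : Fin 5 → ℂ} (hv : v ∈ SC0) :
    m4_F β v = v (Fin.last 4) • tau v β := by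
  funext k
  refine Fin.lastCases ?_ (fun i => ?_) k
  · have h0 := hv.2 (Fin.last 4)
    simp only [m4_F, tau, dBr, Fin.snoc_last, Pi.smul_apply, smul_eq_mul]
    field_simp
  · simp only [m4_F, tau, dBr, Fin.snoc_castSucc, Pi.smul_apply, smul_eq_mul]

theorem m4_F_cont (β : Fin 4 → ℂ) {v0 : Fin 5 → ℂ} (hx : ∀ i : Fin 4, v0 i.castSucc ≠ 0) :
    ContinuousAt (m4_F β) v0 := by
  refine continuousAt_pi.2 fun k => ?_
  refine Fin.lastCases ?_ (fun i => ?_) k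
  · simp only [m4_F, Fin.snoc_last, sqv]
    refine (Continuous.div_const (continuous_finsetSum _ fun i _ => ?_) 2).continuousAt
    exact (continuous_const.mul (((continuous_apply _).pow 2).pow 2)).mul continuous_const
  · simp only [m4_F, Fin.snoc_castSucc]
    have h2 : (2 : ℂ) * v0 i.castSucc ≠ 0 := mul_ne_zero two_ne_zero (hx i)
    have c1 : ContinuousAt (fun v : Fin 5 → ℂ => v (Fin.last 4)) v0 :=
      (continuous_apply _).continuousAt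
    have c2 : ContinuousAt (fun v : Fin 5 → ℂ => 2 * v i.castSucc) v0 :=
      (continuous_const.mul (continuous_apply _)).continuousAt
    exact c1.mul (continuousAt_const.div c2 h2)

theorem m4_F_zero (β : Fin 4 → ℂ) {v0 : Fin 5 → ℂ} (hz : v0 (Fin.last 4) = 0) :
    m4_F β v0 = (3 / 2 * ∑ i, lam i * sqv v0 i ^ 2 * β i) •
      (Pi.single (Fin.last 4) 1 : Fin 5 → ℂ) := by
  funext k
  refine Fin.lastCases ?_ (fun i => ?_) k
  · simp only [m4_F, Fin.snoc_last, Pi.smul_apply, smul_eq_mul, Pi.single_eq_same, mul_one]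
    rw [Finset.mul_sum, Finset.sum_div]
    refine Finset.sum_congr rfl fun i _ => ?_
    ring
  · simp only [m4_F, Fin.snoc_castSucc, Pi.smul_apply, smul_eq_mul, hz, zero_mul]
    rw [Pi.single_eq_of_ne (Fin.castSucc_lt_last i).ne, mul_zero]

theorem m4_lim {α : (C2 → SS.Amb) → C2 → (C2 →L[ℂ] ℂ)} (h : SS.IsForm1 Set.univ α)
    {v0 : Fin 5 → ℂ} (hv0 : v0 ∈ SC) (hz : v0 (Fin.last 4) = 0)
    (hx : ∀ i : Fin 4, v0 i.castSucc ≠ 0) :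
    ∃ K : ℂ, ∀ β, Pi0 β → Filter.Tendsto (fun v => v (Fin.last 4) * m4_A α v β) (𝓝[SC0] v0)
      (𝓝 (K * ∑ i, lam i * sqv v0 i ^ 2 * β i)) := by
  obtain ⟨B, hB, hu⟩ := m4_loc h hv0
  refine ⟨3 / 2 * B v0 (Pi.single (Fin.last 4) 1), fun β hβ => ?_⟩
  have h1 : Filter.Tendsto (fun v => B v (m4_F β v)) (𝓝 v0) (𝓝 (B v0 (m4_F β v0))) :=
    hB.continuousAt.clm_apply (m4_F_cont β hx)
  have h3 : B v0 (m4_F β v0) = 3 / 2 * B v0 (Pi.single (Fin.last 4) 1) *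
      ∑ i, lam i * sqv v0 i ^ 2 * β i := by
    rw [m4_F_zero β hz, map_smul, smul_eq_mul]
    ring
  rw [← h3]
  refine (h1.mono_left nhdsWithin_le_nhds).congr' ?_
  filter_upwards [nhdsWithin_le_nhds hu, self_mem_nhdsWithin] with v h4 h5
  rw [(h4 h5).2.1 β hβ, m4_F_eq β h5, map_smul, smul_eq_mul]

theorem exists_A {α : (C2 → SS.Amb) → C2 → (C2 →L[ℂ] ℂ)} (h : SS.IsForm1 Set.univ α) :
    ∃ A : (Fin 5 → ℂ) → (Fin 4 → ℂ) → ℂ, IsA A ∧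
      ∀ (g : C2 → Fin 5 → ℂ) (q : C2), SS.PlotAt g q → g q ∈ SC0 → ∀ e,
        α g q e = A (g q) (fderiv ℂ (fun z => sqv (g z)) q e) :=
  ⟨m4_A α,
    { lin := fun _ hv _ _ hβ hβ' c => m4_lin h hv hβ hβ' c
      eul := fun _ hv => m4_eul h hv
      wt := fun _ hβ => m4_wt h hβ
      arc := fun _ hβ => m4_arc h hβ
      pole := fun _ hβ => m4_pole h hβ
      loc := fun _ hβ _ hi => m4_locBd h hβ hi
      lim := fun _ hv0 hz hx => m4_lim h hv0 hz hx },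
    fun _ _ hg h0 e => m4_form h hg h0 e⟩

end Pool.Agent.K3Pieces
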