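import Pool.Agent.Lib.MP_3004b3_ag.M3

/-!
# JOB M5: the functions on the cone given by 2-forms

`char_const` with `D = 6`, `P = ∅`: the weight of `Jz J` is `0, 4, 2, 6, 4` for `|J| = 0, 1, 2, 3, 4`, so
`projJ J H * ∏_{k ∈ Jz J} v k` is `0` on `SC0` unless `|J| = 3`, and a constant `C_j` for
`J = {j}ᶜ`. For `J = {j}ᶜ`: `∏_{k ∈ Jz J} v k = ∏_{i ≠ j} v i * v 4`, so
`projJ J H * ∏ k, v k = C_j * v j`. Sum over `J` (`sum_projJ`).
-/

set_option autoImplicit false

namespace Pool.Agent.K3Pieces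

open scoped Topology

theorem m5_wt : ∀ J : Finset (Fin 4), ∑ k ∈ Jz J, wS k ≤ 6 := by
  unfold Jz wS
  decide

theorem m5_wt' : ∀ J : Finset (Fin 4), (∑ k ∈ Jz J, wS k < 6) ∨ ∃ j, J = {j}ᶜ := by
  unfold Jz wS
  decide

theorem m5_Jz : ∀ j : Fin 4, Jz {j}ᶜ = {j.castSucc}ᶜ := by
  unfold Jz
  decide

theorem H_form {H : (Fin 5 → ℂ) → ℂ} (hw : HasWt 6 H) (ha : ArcHol H) (hp : PoleBd H) :
    ∃ C : Fin 4 → ℂ, ∀ v ∈ SC0, H v * ∏ k, v k = ∑ j : Fin 4, C j * v j.castSucc := by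
  have h1 : ∀ J : Finset (Fin 4), ∃ C : ℂ,
      (∀ v ∈ SC0, projJ J H v * ∏ k ∈ Jz J, v k = C) ∧ (∑ k ∈ Jz J, wS k < 6 → C = 0) := by
    intro J
    obtain ⟨C, h2, h3⟩ := char_const (D := 6) (by decide) ∅ hw ha hp (by simp) J
      (by simpa using m5_wt J)
    simp only [Finset.sdiff_empty, Finset.inter_empty, Finset.prod_empty, Finset.sum_empty,
      mul_one, add_zero] at h2 h3
    exact ⟨C, h2, h3⟩
  choose C hC hC0 using h1
  refine ⟨fun j => C {j}ᶜ, fun v hv => ?_⟩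
  have hz : ∀ J : Finset (Fin 4), (∀ j, J ≠ {j}ᶜ) → projJ J H v = 0 := by
    intro J hJ
    have h4 : C J = 0 := hC0 J ((m5_wt' J).resolve_right (by
      rintro ⟨j, hj⟩
      exact hJ j hj))
    have h5 := hC J v hv
    rw [h4] at h5
    exact (mul_eq_zero.1 h5).resolve_right (Finset.prod_ne_zero_iff.2 fun k _ => hv.2 k)
  have hinj : Function.Injective (fun j : Fin 4 => ({j}ᶜ : Finset (Fin 4))) := by
    intro i j hij
    have : ({i} : Finset (Fin 4)) = {j} := compl_injective hij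
    exact Finset.singleton_injective this
  have hs : ∑ j : Fin 4, projJ {j}ᶜ H v = H v := by
    rw [← sum_projJ H v]
    rw [← Finset.sum_image (s := Finset.univ) (g := fun j : Fin 4 => ({j}ᶜ : Finset (Fin 4)))
      (f := fun J => projJ J H v) (fun i _ j _ h => hinj h)]
    refine Finset.sum_subset (Finset.subset_univ _) fun J _ hJ => hz J fun j hj => hJ ?_
    exact Finset.mem_image.2 ⟨j, Finset.mem_univ _, hj.symm⟩
  rw [← hs, Finset.sum_mul]
  refine Finset.sum_congr rfl fun j _ => ?_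
  have h6 : ∏ k, v k = (∏ k ∈ Jz {j}ᶜ, v k) * v j.castSucc := by
    rw [m5_Jz, mul_comm]
    rw [← Finset.mul_prod_erase Finset.univ v (Finset.mem_univ j.castSucc)]
    congr 1
    refine Finset.prod_congr ?_ fun _ _ => rfl
    ext k
    simp
  rw [h6, ← mul_assoc, hC _ v hv]

end Pool.Agent.K3Pieces
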