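import Pool.Agent.Lib.MP_3004b3_ag.M4
import Pool.Agent.Lib.MP_3004b3_ag.L5

/-!
# JOB M6: the functions on the cone given by 1-forms vanish

Write `A_J v β = projJ J (fun v => A v β) v`; it is linear in `β` in the plane, and
`A_J v (sqv v) = 0` (as `sqv (flip E v) = sqv v`). Let `d a b = e_a - e_b`. `char_const` for
`G = A · (d a b)` with `D = 2` and `P = {i.castSucc | i ≠ a, b}`: let `t = |J ∩ {a, b}|`,
`u = |J \ {a, b}|`, and `o = 3` if `|J|` is odd, else `0`. The condition is `t + o ≤ 2 + u`, and then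
`A_J v (d a b) * ∏_{J ∩ {a,b}} v_i * (v_4 if |J| odd) = C * ∏_{J \ {a, b}} v_i`, with `C = 0` if
`t + o < 2 + u`.

(Even) `|J| = 0`: `C = 0`. `|J| = 2`: for `t ≤ 1` we get `A_J v (d a b) = 0`; for `J = {a, b}` use
`d a b = d a c + d c b`. `|J| = 4`: `t = 2`, `u = 2`: `C = 0`. So `A_J = 0` for `|J|` even.

(`|J| = 1`, `J = {j}`) For `a, b ≠ j` (`t = 0`, `u = 1`, `o = 3`): `A_J v (d a b) * v_4 = C_ab * v_j`.
Let `v0 = lft P` with `P = P1` or `P2` (points of the cubic with nonzero coordinates: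
`P1 = ![1, -2, 2, -1]`, `P2 = ![2, -2, -1, 1]`; `Fc P = 0`), so `v0 4 = 0`. By `lim` at all the
points `flip E v0` there is `K` with `v_4 * A_J v β → K * ∑ lam i P_i² β i` for `v → v0` in `SC0` (the
maps `flip E` are continuous and preserve `SC0`, `v ↦ v 4` is `flip`-invariant; this limit is
`lim_J`). So `C_ab v0_j = K (lam a P_a² - lam b P_b²)` (limits are unique: `v0 ∈ closure SC0`).
The vectors `(9·1, 16·4, 25·4, 81·1) = (9, 64, 100, 81)` for `P1` and `(36, 64, 25, 81)` for `P2`: for the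
three indices `a, b, c` other than `j` the pairs of differences at `P1` and `P2` are not
proportional, so `K = 0` for one (hence both) points and all `C_ab = 0`:
`C_ab K' D'_ac = …`. In detail: from `C_ab x = K D_ab`, `C_ac x = K D_ac`, `C_ab x' = K' D'_ab`,
`C_ac x' = K' D'_ac` with `x, x' ≠ 0` we get `K K' (D_ab D'_ac - D_ac D'_ab) = 0`.
So `A_J v β = 0` for `β j = 0`. Finally `sqv v = y_j (d j a) + β` with `β j = 0` in the plane and
`A_J v (sqv v) = 0`, `y_j ≠ 0`, give `A_J v (d j a) = 0`.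

(`|J| = 3`, `J = {i}ᶜ`) For `l ≠ i` (`t = 1`, `u = 2`, `o = 3`): with `{l, k, m} = J`,
`A_J v (d l i) * v_l * v_4 = c_l * v_k * v_m`. In the limit `v → v0 = lft P`:
`K (lam l P_l² - lam i P_i²) v0_l = c_l v0_k v0_m`, so (multiply by `v0_l`)
`K P_l (lam l P_l² - lam i P_i²) = c_l x`, `x = v0_l v0_k v0_m ≠ 0`. The vectors
`(P_l (lam l P_l² - lam i P_i²))_{l ≠ i}` for `P1` and `P2` are not proportional (for every `i`), so all
`c_l = 0` as before, and `A_J v (d l i) = 0` for all `l`; these vectors span the plane.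

So all `A_J = 0`, and `A = ∑ A_J` (`sum_projJ`).
-/

set_option autoImplicit false

namespace Pool.Agent.K3Pieces

open scoped Topology

theorem m6_ex1 : ∀ j : Fin 4, ∃ r : Fin 4, r ≠ j := by decide

theorem m6_ex2 : ∀ a b : Fin 4, ∃ c : Fin 4, c ≠ a ∧ c ≠ b := by decide

theorem m6_ex3 : ∀ j a b : Fin 4, ∃ c : Fin 4, c ≠ j ∧ c ≠ a ∧ c ≠ b := by decide

theorem m6_flip_last (E : Finset (Fin 4)) (v : Fin 5 → ℂ) : flip E v (Fin.last 4) = v (Fin.last 4) :=
  Fin.snoc_last (α := fun _ => ℂ) _ _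

theorem m6_flip_castSucc (E : Finset (Fin 4)) (v : Fin 5 → ℂ) (i : Fin 4) :
    flip E v i.castSucc = if i ∈ E then - v i.castSucc else v i.castSucc :=
  Fin.snoc_castSucc (α := fun _ => ℂ) _ _ _

theorem m6_sqv_flip (E : Finset (Fin 4)) (v : Fin 5 → ℂ) : sqv (flip E v) = sqv v := by
  funext i
  unfold sqv
  rw [m6_flip_castSucc]
  split_ifs <;> ring

theorem m6_flip_mem {v : Fin 5 → ℂ} (hv : v ∈ SC) (E : Finset (Fin 4)) : flip E v ∈ SC := by
  rw [mem_SC] at hv ⊢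
  refine ⟨?_, by rw [m6_sqv_flip]; exact hv.2.1, by rw [m6_sqv_flip, m6_flip_last]; exact hv.2.2⟩
  intro h
  apply hv.1
  funext k
  refine Fin.lastCases ?_ (fun i => ?_) k
  · rw [← m6_flip_last E v, h]
  · have h1 := m6_flip_castSucc E v i
    rw [h] at h1
    have h2 : (0 : Fin 5 → ℂ) i.castSucc = 0 := rfl
    rw [h2] at h1
    split_ifs at h1 with h3
    · rw [h2]; linear_combination h1
    · rw [h2]; exact h1.symm

theorem m6_continuous_flip (E : Finset (Fin 4)) : Continuous (flip E) := by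
  refine continuous_pi fun k => ?_
  refine Fin.lastCases ?_ (fun i => ?_) k
  · simp only [m6_flip_last]
    exact continuous_apply _
  · simp only [m6_flip_castSucc]
    by_cases h : i ∈ E
    · simp only [h, if_true]
      exact (continuous_apply _).neg
    · simp only [h, if_false]
      exact continuous_apply _

theorem m6_tendsto_flip (E : Finset (Fin 4)) (v0 : Fin 5 → ℂ) :
    Filter.Tendsto (flip E) (𝓝[SC0] v0) (𝓝[SC0] (flip E v0)) := by
  refine tendsto_nhdsWithin_iff.2 ⟨?_, ?_⟩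
  · exact ((m6_continuous_flip E).tendsto v0).mono_left nhdsWithin_le_nhds
  · filter_upwards [self_mem_nhdsWithin] with v hv
    exact (flip_mem hv E).1

/-- The limit statement for the components. -/
theorem lim_J {A : (Fin 5 → ℂ) → (Fin 4 → ℂ) → ℂ} (hA : IsA A) (J : Finset (Fin 4))
    {v0 : Fin 5 → ℂ} (h0 : v0 ∈ SC) (hz : v0 (Fin.last 4) = 0)
    (hx : ∀ i : Fin 4, v0 i.castSucc ≠ 0) :
    ∃ K : ℂ, ∀ β, Pi0 β →
      Filter.Tendsto (fun v => v (Fin.last 4) * projJ J (fun v => A v β) v) (𝓝[SC0] v0)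
        (𝓝 (K * ∑ i, lam i * sqv v0 i ^ 2 * β i)) := by
  have h1 : ∀ E : Finset (Fin 4), ∃ K : ℂ, ∀ β, Pi0 β →
      Filter.Tendsto (fun v => v (Fin.last 4) * A v β) (𝓝[SC0] (flip E v0))
      (𝓝 (K * ∑ i, lam i * sqv (flip E v0) i ^ 2 * β i)) := fun E =>
    hA.lim _ (m6_flip_mem h0 E) (by rw [m6_flip_last]; exact hz) (fun i => by
      rw [m6_flip_castSucc]
      split_ifs
      · exact neg_ne_zero.2 (hx i)
      · exact hx i)
  choose K hK using h1
  refine ⟨(1 / 16) * ∑ E : Finset (Fin 4), (-1) ^ (E ∩ J).card * K E, fun β hβ => ?_⟩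
  have h2 : ∀ E : Finset (Fin 4), Filter.Tendsto (fun v => v (Fin.last 4) * A (flip E v) β) (𝓝[SC0] v0)
      (𝓝 (K E * ∑ i, lam i * sqv v0 i ^ 2 * β i)) := by
    intro E
    have h3 := (hK E β hβ).comp (m6_tendsto_flip E v0)
    rw [m6_sqv_flip] at h3
    refine h3.congr fun v => ?_
    simp only [Function.comp, m6_flip_last]
  have h4 : Filter.Tendsto (fun v => (1 / 16 : ℂ) * ∑ E : Finset (Fin 4), (-1) ^ (E ∩ J).card *
      (v (Fin.last 4) * A (flip E v) β)) (𝓝[SC0] v0)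
      (𝓝 ((1 / 16 : ℂ) * ∑ E : Finset (Fin 4), (-1) ^ (E ∩ J).card *
        (K E * ∑ i, lam i * sqv v0 i ^ 2 * β i))) :=
    (tendsto_finsetSum _ fun E _ => (h2 E).const_mul _).const_mul _
  have h5 : ((1 / 16 : ℂ) * ∑ E : Finset (Fin 4), (-1) ^ (E ∩ J).card *
        (K E * ∑ i, lam i * sqv v0 i ^ 2 * β i))
      = (1 / 16) * (∑ E : Finset (Fin 4), (-1) ^ (E ∩ J).card * K E) * ∑ i, lam i * sqv v0 i ^ 2 * β i := by
    rw [mul_assoc, Finset.sum_mul]
    congr 1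
    exact Finset.sum_congr rfl fun E _ => by ring
  rw [h5] at h4
  refine h4.congr fun v => ?_
  unfold projJ
  rw [Finset.mul_sum, Finset.mul_sum, Finset.mul_sum]
  exact Finset.sum_congr rfl fun E _ => by ring

/-- The difference of two coordinate vectors. -/
def dab (a b : Fin 4) : Fin 4 → ℂ := fun i => (if i = a then 1 else 0) - (if i = b then 1 else 0)

theorem m6_pi_dab (a b : Fin 4) : Pi0 (dab a b) := by
  unfold Pi0 dab
  simp [Finset.sum_sub_distrib]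

theorem m6_pi_sqv {v : Fin 5 → ℂ} (hv : v ∈ SC0) : Pi0 (sqv v) := (mem_SC.1 hv.1).2.1

theorem m6_lin {A : (Fin 5 → ℂ) → (Fin 4 → ℂ) → ℂ} (hA : IsA A) (J : Finset (Fin 4))
    {v : Fin 5 → ℂ} (hv : v ∈ SC0) {β β' : Fin 4 → ℂ} (h : Pi0 β) (h' : Pi0 β') (c : ℂ) :
    projJ J (fun v => A v (fun i => β i + c * β' i)) v =
      projJ J (fun v => A v β) v + c * projJ J (fun v => A v β') v := by
  unfold projJ
  have h1 : ∀ E : Finset (Fin 4), A (flip E v) (fun i => β i + c * β' i) =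
      A (flip E v) β + c * A (flip E v) β' := fun E => hA.lin _ (flip_mem hv E).1 β β' h h' c
  simp only [h1]
  rw [Finset.mul_sum, Finset.mul_sum, Finset.mul_sum, Finset.mul_sum, ← Finset.sum_add_distrib]
  exact Finset.sum_congr rfl fun E _ => by ring

theorem m6_eul {A : (Fin 5 → ℂ) → (Fin 4 → ℂ) → ℂ} (hA : IsA A) (J : Finset (Fin 4))
    {v : Fin 5 → ℂ} (hv : v ∈ SC0) : projJ J (fun w => A w (sqv v)) v = 0 := by
  unfold projJ
  have h1 : ∀ E : Finset (Fin 4), A (flip E v) (sqv v) = 0 := fun E => by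
    have h2 := hA.eul _ (flip_mem hv E).1
    rw [m6_sqv_flip] at h2
    exact h2
  simp only [h1, mul_zero, Finset.sum_const_zero]

theorem m6_mu {A : (Fin 5 → ℂ) → (Fin 4 → ℂ) → ℂ} (hA : IsA A) (J : Finset (Fin 4))
    {v : Fin 5 → ℂ} (hv : v ∈ SC0) :
    ∃ μ : Fin 4 → ℂ, ∀ β, Pi0 β → projJ J (fun v => A v β) v = ∑ i, μ i * β i := by
  have hp0 : Pi0 (fun _ => (0 : ℂ)) := by simp [Pi0]
  have h0 : projJ J (fun v => A v (fun _ => (0 : ℂ))) v = 0 := by
    have h1 := m6_lin hA J hv hp0 hp0 1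
    simp only [mul_zero, add_zero, one_mul] at h1
    linear_combination -h1
  refine ⟨![projJ J (fun v => A v (dab 0 3)) v, projJ J (fun v => A v (dab 1 3)) v,
    projJ J (fun v => A v (dab 2 3)) v, 0], fun β hβ => ?_⟩
  have hs : β 0 + β 1 + β 2 + β 3 = 0 := by
    have h1 := hβ
    unfold Pi0 at h1
    rwa [Fin.sum_univ_four] at h1
  have q1 : Pi0 (fun i => (0 : ℂ) + β 0 * dab 0 3 i) := by
    have h1 := m6_pi_dab 0 3
    unfold Pi0 at h1 ⊢
    simp only [zero_add]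
    rw [← Finset.mul_sum, h1, mul_zero]
  have q2 : Pi0 (fun i => ((0 : ℂ) + β 0 * dab 0 3 i) + β 1 * dab 1 3 i) := by
    have h1 := m6_pi_dab 1 3
    unfold Pi0 at h1 q1 ⊢
    rw [Finset.sum_add_distrib, q1, ← Finset.mul_sum, h1, mul_zero, zero_add]
  have e1 := m6_lin hA J hv hp0 (m6_pi_dab 0 3) (β 0)
  have e2 := m6_lin hA J hv q1 (m6_pi_dab 1 3) (β 1)
  have e3 := m6_lin hA J hv q2 (m6_pi_dab 2 3) (β 2)
  have e4 : (fun i => (((0 : ℂ) + β 0 * dab 0 3 i) + β 1 * dab 1 3 i) + β 2 * dab 2 3 i) = β := by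
    funext i
    fin_cases i
    · simp [dab]
    · simp [dab]
    · simp [dab]
    · simp [dab]
      linear_combination -hs
  rw [e4] at e3
  rw [e3, e2, e1, h0, Fin.sum_univ_four]
  simp
  ring

theorem m6_zero {A : (Fin 5 → ℂ) → (Fin 4 → ℂ) → ℂ} (hA : IsA A) (J : Finset (Fin 4))
    {v : Fin 5 → ℂ} (hv : v ∈ SC0) (r : Fin 4)
    (h : ∀ a, a ≠ r → projJ J (fun v => A v (dab a r)) v = 0) :
    ∀ β, Pi0 β → projJ J (fun v => A v β) v = 0 := by
  obtain ⟨μ, hμ⟩ := m6_mu hA J hv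
  have h1 : ∀ a, μ a = μ r := by
    intro a
    by_cases har : a = r
    · rw [har]
    · have h2 := h a har
      rw [hμ _ (m6_pi_dab a r)] at h2
      simp only [dab, mul_sub, Finset.sum_sub_distrib, mul_ite, mul_one, mul_zero, Finset.sum_ite_eq',
        Finset.mem_univ, if_true] at h2
      exact sub_eq_zero.1 h2
  intro β hβ
  rw [hμ β hβ]
  have h3 : ∑ i, μ i * β i = μ r * ∑ i, β i := by
    rw [Finset.mul_sum]
    exact Finset.sum_congr rfl fun i _ => by rw [h1 i]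
  have h4 : ∑ i, β i = 0 := hβ
  rw [h3, h4, mul_zero]

theorem m6_zero' {A : (Fin 5 → ℂ) → (Fin 4 → ℂ) → ℂ} (hA : IsA A) (J : Finset (Fin 4))
    {v : Fin 5 → ℂ} (hv : v ∈ SC0) (j : Fin 4)
    (h : ∀ a b, a ≠ j → b ≠ j → a ≠ b → projJ J (fun v => A v (dab a b)) v = 0) :
    ∀ β, Pi0 β → projJ J (fun v => A v β) v = 0 := by
  obtain ⟨μ, hμ⟩ := m6_mu hA J hv
  obtain ⟨r, hr⟩ : ∃ r : Fin 4, r ≠ j := m6_ex1 j
  have h1 : ∀ a, a ≠ j → μ a = μ r := by
    intro a haj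
    by_cases har : a = r
    · rw [har]
    · have h2 := h a r haj hr har
      rw [hμ _ (m6_pi_dab a r)] at h2
      simp only [dab, mul_sub, Finset.sum_sub_distrib, mul_ite, mul_one, mul_zero, Finset.sum_ite_eq',
        Finset.mem_univ, if_true] at h2
      exact sub_eq_zero.1 h2
  have h5 : μ j = μ r := by
    have h2 := m6_eul hA J hv
    rw [hμ _ (m6_pi_sqv hv)] at h2
    have h3 : ∑ i, sqv v i = 0 := m6_pi_sqv hv
    have h4 : ∑ i, (μ i - μ r) * sqv v i = 0 := by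
      simp only [sub_mul, Finset.sum_sub_distrib]
      rw [h2, ← Finset.mul_sum, h3, mul_zero, sub_zero]
    rw [Finset.sum_eq_single j] at h4
    · have h6 : sqv v j ≠ 0 := pow_ne_zero 2 (hv.2 _)
      rcases mul_eq_zero.1 h4 with h7 | h7
      · exact sub_eq_zero.1 h7
      · exact absurd h7 h6
    · intro i _ hi
      rw [h1 i hi, sub_self, zero_mul]
    · intro hj
      exact absurd (Finset.mem_univ j) hj
  refine m6_zero hA J hv j fun a ha => ?_
  rw [hμ _ (m6_pi_dab a j)]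
  simp only [dab, mul_sub, Finset.sum_sub_distrib, mul_ite, mul_one, mul_zero, Finset.sum_ite_eq',
    Finset.mem_univ, if_true]
  rw [h1 a ha, h5, sub_self]

theorem m6_wS (i : Fin 4) : wS i.castSucc = 1 := by
  fin_cases i <;> rfl

theorem m6_wS_last : wS (Fin.last 4) = 3 := rfl

theorem m6_sets (J : Finset (Fin 4)) (S : Finset (Fin 4)) :
    Jz J \ (Sᶜ).map Fin.castSuccEmb =
      (J ∩ S).map Fin.castSuccEmb ∪ (if Odd J.card then {Fin.last 4} else ∅) ∧
    Jz J ∩ (Sᶜ).map Fin.castSuccEmb = (J \ S).map Fin.castSuccEmb := by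
  have hl : ∀ T : Finset (Fin 4), Fin.last 4 ∉ T.map Fin.castSuccEmb := by
    intro T hT
    obtain ⟨i, _, hi⟩ := Finset.mem_map.1 hT
    exact (Fin.castSucc_lt_last i).ne hi
  have hc : ∀ (T : Finset (Fin 4)) (i : Fin 4), i.castSucc ∈ T.map Fin.castSuccEmb ↔ i ∈ T := by
    intro T i
    exact Finset.mem_map' Fin.castSuccEmb
  have ho : ∀ i : Fin 4, i.castSucc ∉ (if Odd J.card then ({Fin.last 4} : Finset (Fin 5)) else ∅) := by
    intro i
    split_ifs
    · rw [Finset.mem_singleton]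
      exact (Fin.castSucc_lt_last i).ne
    · exact Finset.notMem_empty _
  constructor
  · ext k
    refine Fin.lastCases ?_ (fun i => ?_) k
    · simp only [Jz, Finset.mem_sdiff, Finset.mem_union, hl, false_or, not_false_eq_true, and_true]
    · simp only [Jz, Finset.mem_sdiff, Finset.mem_union, hc, ho, or_false, Finset.mem_compl, not_not,
        Finset.mem_inter]
  · ext k
    refine Fin.lastCases ?_ (fun i => ?_) k
    · simp only [Finset.mem_inter, hl, and_false]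
    · simp only [Jz, Finset.mem_sdiff, Finset.mem_union, hc, ho, or_false, Finset.mem_compl,
        Finset.mem_inter]

theorem m6_disj (J T : Finset (Fin 4)) : Disjoint (T.map Fin.castSuccEmb)
    (if Odd J.card then ({Fin.last 4} : Finset (Fin 5)) else ∅) := by
  split_ifs
  · rw [Finset.disjoint_singleton_right]
    intro hT
    obtain ⟨i, _, hi⟩ := Finset.mem_map.1 hT
    exact (Fin.castSucc_lt_last i).ne hi
  · exact Finset.disjoint_empty_right _

/-- `char_const` for `A · (e_a - e_b)`. -/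
theorem char_A {A : (Fin 5 → ℂ) → (Fin 4 → ℂ) → ℂ} (hA : IsA A) (J : Finset (Fin 4))
    {a b : Fin 4} (hab : a ≠ b)
    (hN : (J ∩ {a, b}).card + (if Odd J.card then 3 else 0) ≤ 2 + (J \ {a, b}).card) :
    ∃ C : ℂ, (∀ v ∈ SC0, projJ J (fun v => A v (dab a b)) v *
        ((∏ i ∈ J ∩ {a, b}, v i.castSucc) * (if Odd J.card then v (Fin.last 4) else 1)) =
          C * ∏ i ∈ J \ {a, b}, v i.castSucc) ∧
      ((J ∩ {a, b}).card + (if Odd J.card then 3 else 0) < 2 + (J \ {a, b}).card → C = 0) := by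
  obtain ⟨s1, s2⟩ := m6_sets J {a, b}
  have w1 : ∑ k ∈ Jz J \ ((({a, b} : Finset (Fin 4))ᶜ).map Fin.castSuccEmb), wS k =
      (J ∩ {a, b}).card + (if Odd J.card then 3 else 0) := by
    rw [s1, Finset.sum_union (m6_disj J _), Finset.sum_map]
    congr 1
    · rw [Finset.card_eq_sum_ones]
      exact Finset.sum_congr rfl fun i _ => m6_wS i
    · split_ifs
      · rw [Finset.sum_singleton, m6_wS_last]
      · rfl
  have w2 : ∑ k ∈ Jz J ∩ ((({a, b} : Finset (Fin 4))ᶜ).map Fin.castSuccEmb), wS k = (J \ {a, b}).card := by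
    rw [s2, Finset.sum_map, Finset.card_eq_sum_ones]
    exact Finset.sum_congr rfl fun i _ => m6_wS i
  have hP : ∀ m ∈ (({a, b} : Finset (Fin 4))ᶜ).map Fin.castSuccEmb, LocBd m (fun v => A v (dab a b)) := by
    intro m hm
    obtain ⟨i, hi, rfl⟩ := Finset.mem_map.1 hm
    rw [Finset.mem_compl, Finset.mem_insert, Finset.mem_singleton, not_or] at hi
    refine hA.loc _ (m6_pi_dab a b) i ?_
    simp [dab, hi.1, hi.2]
  obtain ⟨C, hC1, hC2⟩ := char_const even_two _ (hA.wt _ (m6_pi_dab a b)) (hA.arc _ (m6_pi_dab a b))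
    (hA.pole _ (m6_pi_dab a b)) hP J (by rw [w1, w2]; exact hN)
  refine ⟨C, fun v hv => ?_, fun h => hC2 (by rw [w1, w2]; exact h)⟩
  have h1 := hC1 v hv
  have p1 : ∏ k ∈ Jz J \ ((({a, b} : Finset (Fin 4))ᶜ).map Fin.castSuccEmb), v k =
      (∏ i ∈ J ∩ {a, b}, v i.castSucc) * (if Odd J.card then v (Fin.last 4) else 1) := by
    rw [s1, Finset.prod_union (m6_disj J _), Finset.prod_map]
    congr 1
    split_ifs
    · rw [Finset.prod_singleton]
    · rfl
  have p2 : ∏ k ∈ Jz J ∩ ((({a, b} : Finset (Fin 4))ᶜ).map Fin.castSuccEmb), v k =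
      ∏ i ∈ J \ {a, b}, v i.castSucc := by
    rw [s2, Finset.prod_map]
    rfl
  rw [p1, p2] at h1
  exact h1

theorem A_even {A : (Fin 5 → ℂ) → (Fin 4 → ℂ) → ℂ} (hA : IsA A) (J : Finset (Fin 4))
    (hJ : Even J.card) : ∀ v ∈ SC0, ∀ β, Pi0 β → projJ J (fun v => A v β) v = 0 := by
  intro v hv
  have ho : ¬ Odd J.card := Nat.not_odd_iff_even.2 hJ
  -- all pairs different from `J`
  have h1 : ∀ a b : Fin 4, a ≠ b → J ≠ {a, b} → projJ J (fun v => A v (dab a b)) v = 0 := by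
    intro a b hab hne
    have hc : (J ∩ {a, b}).card ≤ 2 := by
      calc (J ∩ {a, b}).card ≤ ({a, b} : Finset (Fin 4)).card := Finset.card_le_card Finset.inter_subset_right
        _ ≤ 2 := Finset.card_le_two
    have hlt : (J ∩ {a, b}).card < 2 + (J \ {a, b}).card := by
      rcases Nat.eq_zero_or_pos (J \ {a, b}).card with h2 | h2
      · have h3 : J ⊆ {a, b} := by
          rw [Finset.card_eq_zero, Finset.sdiff_eq_empty_iff_subset] at h2
          exact h2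
        have h4 : J ⊂ {a, b} := lt_of_le_of_ne h3 hne
        have h5 := Finset.card_lt_card h4
        have h6 : ({a, b} : Finset (Fin 4)).card = 2 := Finset.card_pair hab
        have h7 : (J ∩ {a, b}).card ≤ J.card := Finset.card_le_card Finset.inter_subset_left
        omega
      · omega
    obtain ⟨C, hC1, hC2⟩ := char_A hA J hab (by rw [if_neg ho]; omega)
    have hC : C = 0 := hC2 (by rw [if_neg ho]; omega)
    have h2 := hC1 v hv
    rw [hC, zero_mul, if_neg ho, mul_one] at h2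
    rcases mul_eq_zero.1 h2 with h3 | h3
    · exact h3
    · exact absurd h3 (Finset.prod_ne_zero_iff.2 fun i _ => hv.2 _)
  obtain ⟨μ, hμ⟩ := m6_mu hA J hv
  have h2 : ∀ a b : Fin 4, a ≠ b → J ≠ {a, b} → μ a = μ b := by
    intro a b hab hne
    have h3 := h1 a b hab hne
    rw [hμ _ (m6_pi_dab a b)] at h3
    simp only [dab, mul_sub, Finset.sum_sub_distrib, mul_ite, mul_one, mul_zero, Finset.sum_ite_eq',
      Finset.mem_univ, if_true] at h3
    exact sub_eq_zero.1 h3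
  refine m6_zero hA J hv 0 fun a ha => ?_
  rw [hμ _ (m6_pi_dab a 0)]
  simp only [dab, mul_sub, Finset.sum_sub_distrib, mul_ite, mul_one, mul_zero, Finset.sum_ite_eq',
    Finset.mem_univ, if_true]
  rw [sub_eq_zero]
  by_cases hJa : J = {a, 0}
  · obtain ⟨c, hc1, hc2⟩ := m6_ex2 a 0
    have h3 : J ≠ {a, c} := by
      rw [hJa]
      intro h4
      have h5 : c ∈ ({a, 0} : Finset (Fin 4)) := by rw [h4]; simp
      rw [Finset.mem_insert, Finset.mem_singleton] at h5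
      rcases h5 with h5 | h5
      · exact hc1 h5
      · exact hc2 h5
    have h4 : J ≠ {c, 0} := by
      rw [hJa]
      intro h4
      have h5 : c ∈ ({a, 0} : Finset (Fin 4)) := by rw [h4]; simp
      rw [Finset.mem_insert, Finset.mem_singleton] at h5
      rcases h5 with h5 | h5
      · exact hc1 h5
      · exact hc2 h5
    exact (h2 a c hc1.symm h3).trans (h2 c 0 hc2 h4)
  · exact h2 a 0 ha hJa

/-- the two points of the cubic -/
def m6_P1 : Fin 4 → ℤ := ![1, -2, 2, -1]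

def m6_P2 : Fin 4 → ℤ := ![2, -2, -1, 1]

def m6_lz : Fin 4 → ℤ := ![9, 16, 25, 81]

def m6_D (P : Fin 4 → ℤ) (i : Fin 4) : ℤ := m6_lz i * P i ^ 2

theorem m6_lam (i : Fin 4) : lam i = (m6_lz i : ℂ) := by
  fin_cases i <;> simp [lam, m6_lz]

theorem m6_det1 : ∀ a b c : Fin 4, a ≠ b → a ≠ c → b ≠ c →
    (m6_D m6_P1 a - m6_D m6_P1 b) * (m6_D m6_P2 a - m6_D m6_P2 c) -
      (m6_D m6_P1 a - m6_D m6_P1 c) * (m6_D m6_P2 a - m6_D m6_P2 b) ≠ 0 := by
  decide

theorem m6_det3 : ∀ i l m : Fin 4, l ≠ i → m ≠ i → l ≠ m →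
    (m6_P1 l * (m6_D m6_P1 l - m6_D m6_P1 i)) * (m6_P2 m * (m6_D m6_P2 m - m6_D m6_P2 i)) -
      (m6_P1 m * (m6_D m6_P1 m - m6_D m6_P1 i)) * (m6_P2 l * (m6_D m6_P2 l - m6_D m6_P2 i)) ≠ 0 := by
  decide

/-- a point of the cubic with nonzero coordinates gives a point of the cone -/
theorem m6_point {P : Fin 4 → ℤ} (h1 : ∑ i, P i = 0) (h2 : ∑ i, m6_lz i * P i ^ 3 = 0)
    (h3 : ∀ i, P i ≠ 0) : ∃ v0 ∈ SC, v0 (Fin.last 4) = 0 ∧ (∀ i : Fin 4, v0 i.castSucc ≠ 0) ∧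
      (∀ i, sqv v0 i = (P i : ℂ)) := by
  have q1 : Pi0 (fun i => (P i : ℂ)) := by
    unfold Pi0
    rw [← Int.cast_sum, h1, Int.cast_zero]
  have q2 : (fun i => (P i : ℂ)) ≠ 0 := by
    intro h
    have h4 := congrFun h 0
    simp only [Pi.zero_apply, Int.cast_eq_zero] at h4
    exact h3 0 h4
  obtain ⟨q3, q4⟩ := lft_mem q1 q2
  have q5 : Fc (fun i => (P i : ℂ)) = 0 := by
    unfold Fc
    have h5 : ((∑ i, m6_lz i * P i ^ 3 : ℤ) : ℂ) = 0 := by rw [h2, Int.cast_zero]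
    push_cast at h5
    rw [← h5]
    exact Finset.sum_congr rfl fun i _ => by rw [m6_lam]
  refine ⟨_, q3, ?_, ?_, ?_⟩
  · have h5 := lft_sq (fun i => (P i : ℂ)) (Fin.last 4)
    rw [Br_last, q5] at h5
    exact pow_eq_zero_iff (two_ne_zero) |>.1 h5
  · intro i hi
    have h5 := lft_sq (fun i => (P i : ℂ)) i.castSucc
    rw [Br_castSucc, hi] at h5
    apply h3 i
    have h6 : (P i : ℂ) = 0 := by rw [← h5]; ring
    exact_mod_cast h6
  · intro i
    rw [q4]

theorem m6_K {A : (Fin 5 → ℂ) → (Fin 4 → ℂ) → ℂ} (hA : IsA A) (J : Finset (Fin 4))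
    {P : Fin 4 → ℤ} {v0 : Fin 5 → ℂ} (h0 : v0 ∈ SC) (hz : v0 (Fin.last 4) = 0)
    (hx : ∀ i : Fin 4, v0 i.castSucc ≠ 0) (hs : ∀ i, sqv v0 i = (P i : ℂ)) :
    ∃ K : ℂ, ∀ a b : Fin 4,
      Filter.Tendsto (fun v => v (Fin.last 4) * projJ J (fun v => A v (dab a b)) v) (𝓝[SC0] v0)
        (𝓝 (K * ((m6_D P a - m6_D P b : ℤ) : ℂ))) := by
  obtain ⟨K, hK⟩ := lim_J hA J h0 hz hx
  refine ⟨K, fun a b => ?_⟩
  have h1 := hK _ (m6_pi_dab a b)
  have h2 : ∑ i, lam i * sqv v0 i ^ 2 * dab a b i = ((m6_D P a - m6_D P b : ℤ) : ℂ) := by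
    simp only [dab, mul_sub, Finset.sum_sub_distrib, mul_ite, mul_one, mul_zero, Finset.sum_ite_eq',
      Finset.mem_univ, if_true, hs, m6_lam, m6_D]
    push_cast
    ring
  rw [h2] at h1
  exact h1

theorem m6_neBot {v0 : Fin 5 → ℂ} (h0 : v0 ∈ SC) : (𝓝[SC0] v0).NeBot :=
  mem_closure_iff_nhdsWithin_neBot.1 (SC_subset_closure h0)

theorem A_one {A : (Fin 5 → ℂ) → (Fin 4 → ℂ) → ℂ} (hA : IsA A) (j : Fin 4) :
    ∀ v ∈ SC0, ∀ β, Pi0 β → projJ {j} (fun v => A v β) v = 0 := by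
  have ho : Odd ({j} : Finset (Fin 4)).card := by rw [Finset.card_singleton]; exact odd_one
  have hcA : ∀ a b : Fin 4, a ≠ j → b ≠ j → a ≠ b → ∃ C : ℂ, ∀ v ∈ SC0,
      v (Fin.last 4) * projJ {j} (fun v => A v (dab a b)) v = C * v j.castSucc := by
    intro a b ha hb hab
    have e1 : ({j} : Finset (Fin 4)) ∩ {a, b} = ∅ := by
      rw [Finset.singleton_inter_of_notMem]
      rw [Finset.mem_insert, Finset.mem_singleton, not_or]
      exact ⟨ha.symm, hb.symm⟩
    have e2 : ({j} : Finset (Fin 4)) \ {a, b} = {j} := by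
      rw [Finset.sdiff_eq_self_iff_disjoint, Finset.disjoint_iff_inter_eq_empty, e1]
    obtain ⟨C, hC1, _⟩ := char_A hA {j} hab (by rw [if_pos ho, e1, e2]; simp)
    refine ⟨C, fun v hv => ?_⟩
    have h1 := hC1 v hv
    rw [if_pos ho, e1, e2, Finset.prod_empty, Finset.prod_singleton, one_mul] at h1
    rw [← h1, mul_comm]
  obtain ⟨v1, a1, a2, a3, a4⟩ := m6_point (P := m6_P1) (by decide) (by decide) (by decide)
  obtain ⟨v2, b1, b2, b3, b4⟩ := m6_point (P := m6_P2) (by decide) (by decide) (by decide)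
  obtain ⟨K1, hK1⟩ := m6_K hA {j} a1 a2 a3 a4
  obtain ⟨K2, hK2⟩ := m6_K hA {j} b1 b2 b3 b4
  have n1 := m6_neBot a1
  have n2 := m6_neBot b1
  have key : ∀ a b : Fin 4, a ≠ j → b ≠ j → a ≠ b → ∀ v ∈ SC0,
      projJ {j} (fun v => A v (dab a b)) v = 0 := by
    intro a b ha hb hab v hv
    obtain ⟨c, hc1, hc2, hc3⟩ := m6_ex3 j a b
    obtain ⟨Cb, hCb⟩ := hcA a b ha hb hab
    obtain ⟨Cc, hCc⟩ := hcA a c ha hc1 hc2.symm
    have lim : ∀ (v0 : Fin 5 → ℂ) (_ : (𝓝[SC0] v0).NeBot) (C x : ℂ) (b : Fin 4)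
        (_ : ∀ v ∈ SC0, v (Fin.last 4) * projJ {j} (fun v => A v (dab a b)) v = C * v j.castSucc)
        (_ : Filter.Tendsto (fun v => v (Fin.last 4) * projJ {j} (fun v => A v (dab a b)) v) (𝓝[SC0] v0)
          (𝓝 x)), C * v0 j.castSucc = x := by
      intro v0 hn C x b h1 h2
      have h3 : Filter.Tendsto (fun v : Fin 5 → ℂ => C * v j.castSucc) (𝓝[SC0] v0)
          (𝓝 (C * v0 j.castSucc)) :=
        (((continuous_apply (j.castSucc)).const_mul C).tendsto v0).mono_left nhdsWithin_le_nhds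
      have h4 : Filter.Tendsto (fun v : Fin 5 → ℂ => C * v j.castSucc) (𝓝[SC0] v0) (𝓝 x) := by
        refine h2.congr' ?_
        filter_upwards [self_mem_nhdsWithin] with v hv
        exact h1 v hv
      exact tendsto_nhds_unique h3 h4
    have l1 := lim v1 n1 Cb _ b hCb (hK1 a b)
    have l2 := lim v1 n1 Cc _ c hCc (hK1 a c)
    have l3 := lim v2 n2 Cb _ b hCb (hK2 a b)
    have l4 := lim v2 n2 Cc _ c hCc (hK2 a c)
    have x1 := a3 j
    have x2 := b3 j
    have hd : (((m6_D m6_P1 a - m6_D m6_P1 b) * (m6_D m6_P2 a - m6_D m6_P2 c) -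
      (m6_D m6_P1 a - m6_D m6_P1 c) * (m6_D m6_P2 a - m6_D m6_P2 b) : ℤ) : ℂ) ≠ 0 := by
      exact_mod_cast m6_det1 a b c hab hc2.symm hc3.symm
    have t1 : Cb * ((m6_D m6_P1 a - m6_D m6_P1 c : ℤ) : ℂ) = Cc * ((m6_D m6_P1 a - m6_D m6_P1 b : ℤ) : ℂ) := by
      apply mul_left_cancel₀ x1
      linear_combination ((m6_D m6_P1 a - m6_D m6_P1 c : ℤ) : ℂ) * l1 - ((m6_D m6_P1 a - m6_D m6_P1 b : ℤ) : ℂ) * l2
    have t2 : Cb * ((m6_D m6_P2 a - m6_D m6_P2 c : ℤ) : ℂ) = Cc * ((m6_D m6_P2 a - m6_D m6_P2 b : ℤ) : ℂ) := by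
      apply mul_left_cancel₀ x2
      linear_combination ((m6_D m6_P2 a - m6_D m6_P2 c : ℤ) : ℂ) * l3 - ((m6_D m6_P2 a - m6_D m6_P2 b : ℤ) : ℂ) * l4
    have hCb0 : Cb = 0 := by
      have h5 : Cb * (((m6_D m6_P1 a - m6_D m6_P1 b) * (m6_D m6_P2 a - m6_D m6_P2 c) -
        (m6_D m6_P1 a - m6_D m6_P1 c) * (m6_D m6_P2 a - m6_D m6_P2 b) : ℤ) : ℂ) = 0 := by
        push_cast at t1 t2 ⊢
        linear_combination ((m6_D m6_P1 a : ℂ) - m6_D m6_P1 b) * t2 - ((m6_D m6_P2 a : ℂ) - m6_D m6_P2 b) * t1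
      exact (mul_eq_zero.1 h5).resolve_right hd
    have h6 := hCb v hv
    rw [hCb0, zero_mul] at h6
    exact (mul_eq_zero.1 h6).resolve_left (hv.2 _)
  intro v hv
  exact m6_zero' hA {j} hv j fun a b ha hb hab => key a b ha hb hab v hv

theorem A_three {A : (Fin 5 → ℂ) → (Fin 4 → ℂ) → ℂ} (hA : IsA A) (i : Fin 4) :
    ∀ v ∈ SC0, ∀ β, Pi0 β → projJ {i}ᶜ (fun v => A v β) v = 0 := by
  have hcard : (({i} : Finset (Fin 4))ᶜ).card = 3 := by
    rw [Finset.card_compl, Finset.card_singleton, Fintype.card_fin]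
  have ho : Odd (({i} : Finset (Fin 4))ᶜ).card := by rw [hcard]; decide
  have hcA : ∀ l : Fin 4, l ≠ i → ∃ C : ℂ, ∀ v ∈ SC0,
      (v (Fin.last 4) * projJ {i}ᶜ (fun v => A v (dab l i)) v) * (v l.castSucc * v l.castSucc) =
        C * ∏ k ∈ ({i} : Finset (Fin 4))ᶜ, v k.castSucc := by
    intro l hl
    have hlJ : l ∈ ({i} : Finset (Fin 4))ᶜ := by
      rw [Finset.mem_compl, Finset.mem_singleton]; exact hl
    have e1 : ({i} : Finset (Fin 4))ᶜ ∩ {l, i} = {l} := by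
      ext k
      simp only [Finset.mem_inter, Finset.mem_compl, Finset.mem_singleton, Finset.mem_insert]
      constructor
      · rintro ⟨h1, h2 | h2⟩
        · exact h2
        · exact absurd h2 h1
      · rintro rfl
        exact ⟨hl, Or.inl rfl⟩
    have e2 : ({i} : Finset (Fin 4))ᶜ \ {l, i} = (({i} : Finset (Fin 4))ᶜ).erase l := by
      ext k
      simp only [Finset.mem_sdiff, Finset.mem_compl, Finset.mem_singleton, Finset.mem_insert,
        Finset.mem_erase]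
      tauto
    have e3 : ((({i} : Finset (Fin 4))ᶜ).erase l).card = 2 := by
      rw [Finset.card_erase_of_mem hlJ, hcard]
    obtain ⟨C, hC1, _⟩ := char_A hA ({i}ᶜ) hl (by rw [if_pos ho, e1, e2, e3]; simp)
    refine ⟨C, fun v hv => ?_⟩
    have h1 := hC1 v hv
    rw [if_pos ho, e1, e2, Finset.prod_singleton] at h1
    have h2 := Finset.mul_prod_erase (({i} : Finset (Fin 4))ᶜ) (fun k => v k.castSucc) hlJ
    rw [← h2]
    linear_combination v l.castSucc * h1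
  obtain ⟨v1, a1, a2, a3, a4⟩ := m6_point (P := m6_P1) (by decide) (by decide) (by decide)
  obtain ⟨v2, b1, b2, b3, b4⟩ := m6_point (P := m6_P2) (by decide) (by decide) (by decide)
  obtain ⟨K1, hK1⟩ := m6_K hA {i}ᶜ a1 a2 a3 a4
  obtain ⟨K2, hK2⟩ := m6_K hA {i}ᶜ b1 b2 b3 b4
  have n1 := m6_neBot a1
  have n2 := m6_neBot b1
  have key : ∀ l : Fin 4, l ≠ i → ∀ v ∈ SC0, projJ {i}ᶜ (fun v => A v (dab l i)) v = 0 := by
    intro l hl v hv
    obtain ⟨m, hm1, hm2⟩ := m6_ex2 i l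
    obtain ⟨Cl, hCl⟩ := hcA l hl
    obtain ⟨Cm, hCm⟩ := hcA m hm1
    have lim : ∀ (P : Fin 4 → ℤ) (v0 : Fin 5 → ℂ) (_ : (𝓝[SC0] v0).NeBot)
        (_ : ∀ i, sqv v0 i = (P i : ℂ)) (C K : ℂ) (l : Fin 4)
        (_ : ∀ v ∈ SC0, (v (Fin.last 4) * projJ {i}ᶜ (fun v => A v (dab l i)) v) *
          (v l.castSucc * v l.castSucc) = C * ∏ k ∈ ({i} : Finset (Fin 4))ᶜ, v k.castSucc)
        (_ : Filter.Tendsto (fun v => v (Fin.last 4) * projJ {i}ᶜ (fun v => A v (dab l i)) v) (𝓝[SC0] v0)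
          (𝓝 (K * ((m6_D P l - m6_D P i : ℤ) : ℂ)))),
        C * ∏ k ∈ ({i} : Finset (Fin 4))ᶜ, v0 k.castSucc =
          K * ((P l * (m6_D P l - m6_D P i) : ℤ) : ℂ) := by
      intro P v0 hn hs C K l h1 h2
      have h3 : Filter.Tendsto (fun v : Fin 5 → ℂ => C * ∏ k ∈ ({i} : Finset (Fin 4))ᶜ, v k.castSucc)
          (𝓝[SC0] v0) (𝓝 (C * ∏ k ∈ ({i} : Finset (Fin 4))ᶜ, v0 k.castSucc)) :=
        (((continuous_finsetProd _ fun k _ => continuous_apply (k.castSucc)).const_mul C).tendsto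
          v0).mono_left nhdsWithin_le_nhds
      have h5 : Filter.Tendsto (fun v : Fin 5 → ℂ => v l.castSucc * v l.castSucc) (𝓝[SC0] v0)
          (𝓝 (v0 l.castSucc * v0 l.castSucc)) :=
        (((continuous_apply (l.castSucc)).mul (continuous_apply (l.castSucc))).tendsto v0).mono_left
          nhdsWithin_le_nhds
      have h4 : Filter.Tendsto (fun v : Fin 5 → ℂ => C * ∏ k ∈ ({i} : Finset (Fin 4))ᶜ, v k.castSucc)
          (𝓝[SC0] v0) (𝓝 ((K * ((m6_D P l - m6_D P i : ℤ) : ℂ)) * (v0 l.castSucc * v0 l.castSucc))) := by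
        refine (h2.mul h5).congr' ?_
        filter_upwards [self_mem_nhdsWithin] with v hv
        exact h1 v hv
      rw [tendsto_nhds_unique h3 h4]
      have h6 : v0 l.castSucc * v0 l.castSucc = (P l : ℂ) := by
        rw [← hs l]
        unfold sqv
        ring
      rw [h6]
      push_cast
      ring
    have l1 := lim m6_P1 v1 n1 a4 Cl K1 l hCl (hK1 l i)
    have l2 := lim m6_P1 v1 n1 a4 Cm K1 m hCm (hK1 m i)
    have l3 := lim m6_P2 v2 n2 b4 Cl K2 l hCl (hK2 l i)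
    have l4 := lim m6_P2 v2 n2 b4 Cm K2 m hCm (hK2 m i)
    have x1 : ∏ k ∈ ({i} : Finset (Fin 4))ᶜ, v1 k.castSucc ≠ 0 :=
      Finset.prod_ne_zero_iff.2 fun k _ => a3 k
    have x2 : ∏ k ∈ ({i} : Finset (Fin 4))ᶜ, v2 k.castSucc ≠ 0 :=
      Finset.prod_ne_zero_iff.2 fun k _ => b3 k
    generalize ∏ k ∈ ({i} : Finset (Fin 4))ᶜ, v1 k.castSucc = y1 at l1 l2 x1
    generalize ∏ k ∈ ({i} : Finset (Fin 4))ᶜ, v2 k.castSucc = y2 at l3 l4 x2
    have hd := m6_det3 i l m hl hm1 hm2.symm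
    generalize m6_P1 l * (m6_D m6_P1 l - m6_D m6_P1 i) = Wl at l1 hd
    generalize m6_P1 m * (m6_D m6_P1 m - m6_D m6_P1 i) = Wm at l2 hd
    generalize m6_P2 l * (m6_D m6_P2 l - m6_D m6_P2 i) = Wl' at l3 hd
    generalize m6_P2 m * (m6_D m6_P2 m - m6_D m6_P2 i) = Wm' at l4 hd
    have hd' : (Wl : ℂ) * Wm' - Wm * Wl' ≠ 0 := by exact_mod_cast hd
    have t1 : Cl * (Wm : ℂ) = Cm * Wl := by
      apply mul_left_cancel₀ x1
      linear_combination (Wm : ℂ) * l1 - (Wl : ℂ) * l2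
    have t2 : Cl * (Wm' : ℂ) = Cm * Wl' := by
      apply mul_left_cancel₀ x2
      linear_combination (Wm' : ℂ) * l3 - (Wl' : ℂ) * l4
    have hCl0 : Cl = 0 := by
      have h5 : Cl * ((Wl : ℂ) * Wm' - Wm * Wl') = 0 := by
        linear_combination (Wl : ℂ) * t2 - (Wl' : ℂ) * t1
      exact (mul_eq_zero.1 h5).resolve_right hd'
    have h6 := hCl v hv
    rw [hCl0, zero_mul] at h6
    have h7 := (mul_eq_zero.1 h6).resolve_right (mul_ne_zero (hv.2 _) (hv.2 _))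
    exact (mul_eq_zero.1 h7).resolve_left (hv.2 _)
  intro v hv
  exact m6_zero hA {i}ᶜ hv i fun a ha => key a ha v hv

theorem A_zero {A : (Fin 5 → ℂ) → (Fin 4 → ℂ) → ℂ} (hA : IsA A) :
    ∀ v ∈ SC0, ∀ β, Pi0 β → A v β = 0 := by
  intro v hv β hβ
  have h1 := sum_projJ (fun v => A v β) v
  rw [← h1]
  refine Finset.sum_eq_zero fun J _ => ?_
  rcases Nat.even_or_odd J.card with hJ | hJ
  · exact A_even hA J hJ v hv β hβ
  · have h2 : J.card ≤ 4 := by
      have := Finset.card_le_univ J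
      rwa [Fintype.card_fin] at this
    have h3 : J.card = 1 ∨ J.card = 3 := by
      obtain ⟨k, hk⟩ := hJ
      omega
    rcases h3 with h3 | h3
    · obtain ⟨j, rfl⟩ := Finset.card_eq_one.1 h3
      exact A_one hA j v hv β hβ
    · have h4 : (Jᶜ).card = 1 := by
        rw [Finset.card_compl, Fintype.card_fin, h3]
      obtain ⟨i, hi⟩ := Finset.card_eq_one.1 h4
      have h5 : J = {i}ᶜ := by rw [← hi, compl_compl]
      rw [h5]
      exact A_three hA i v hv β hβ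

end Pool.Agent.K3Pieces
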