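import Pool.Agent.Lib.MP_3004b3_ag.K3
import Pool.Agent.Lib.MP_3004b3_ag.C0
import Pool.Agent.Lib.MP_3004b3_ag.E0

/-!
# JOB N1: the 2-form of the double plane `z² = g(x)` (algebra)

For `v = (x, z)` in the cone and tangent vectors `a`, `b` (vectors of `ℂ⁴` with
`2 z a_3 = ∑ g_i a_i`, the same for `b`; `g_i = gxd j x i`), let `M` be the determinant of the
`x`-coordinates of `v, a, b` and `N = 3 z (a × b) + a_3 (b × x) + b_3 (x × a)` (cross products of the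
`x`-coordinates). Euler: `∑ x_i g_i = 6 g(x) = 6 z²`.

* `gx_euler`: `∑ x_i gxd_i = 6 gx` (expand over `Fin 3`).
* `mdet_grad`: `M g_i = 2 z N_i`: `g (x · a × b) = (g·x)(a × b) + (g·a)(b × x) + (g·b)(x × a)`,
  coordinatewise a polynomial identity.
* `nvec_grad`: `g_i N_k = g_k N_i`: cross product of `N` with `g`, using
  `(u × w) × g = w (u·g) - u (w·g)`.
* `omv`: `(conj z * M + ∑ conj g_i * 2 N_i) / (|z|² + ∑ |g_i|²)`. Then `omv * z = M`,
  `omv * g_i = 2 N_i`; the denominator is not zero (`XC_grad`: `z ≠ 0` or some `g_i ≠ 0`, as `v ≠ 0`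
  implies `x ≠ 0` or `z ≠ 0`).
* `omv_comb`: `M` and `N` are alternating and bilinear in `(a, b)`.
* `omv_act`: for `v' = act wX l v`, `a' = l`-weighted `a` plus `α` times the vector
  `(x, 3 l² z)` (that is `a'_k = l a_k + α x_k`, `a'_3 = l³ a_3 + 3 l² α z`), similarly `b'` with `β`:
  `M' = l³ M`, `N' = l⁵ N`, `g' = l⁵ g`, `z' = l³ z`, so `omv' z' = M'` and `omv' g'_i = 2 N'_i` give
  `omv' = omv`.
* `omv_ne_zero`: let `omv = 0`, so `M = 0` and `N = 0`, and let `E = (x, 3 z)`, `a`, `b` be linearly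
  independent. As `M = 0` there is `(c0, c1, c2) ≠ 0` with `c0 x + c1 a + c2 b = 0` in the
  `x`-coordinates (`Matrix.exists_vecMul_eq_zero_iff` or similar), so `c0 E + c1 a + c2 b` has only the
  last coordinate `t`, and `t ≠ 0` by independence. Apply the gradient:
  `0 = c0 6 z² + c1 2 z a_3 + c2 2 z b_3 = 2 z t`, so `z = 0`. Then `N = x × (b_3 a - a_3 b) = 0` (up
  to sign), `x ≠ 0`, so `b_3 a - a_3 b = s x` in the `x`-coordinates, and the last coordinates agree too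
  (`0 = 3 s z`); by independence `a_3 = b_3 = s = 0`, so `t = c0 3 z + c1 a_3 + c2 b_3 = 0`,
  contradiction.
-/

set_option autoImplicit false

namespace Pool.Agent.K3Pieces

open scoped Topology ComplexConjugate

/-- The first three coordinates. -/
def xc (v : Fin 4 → ℂ) : Fin 3 → ℂ := fun k => v k.castSucc

/-- Determinant of the first three coordinates. -/
def Md (v a b : Fin 4 → ℂ) : ℂ :=
  v 0 * (a 1 * b 2 - a 2 * b 1) - v 1 * (a 0 * b 2 - a 2 * b 0) + v 2 * (a 0 * b 1 - a 1 * b 0)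

/-- The vector `3 z (a × b) + a_3 (b × x) + b_3 (x × a)`. -/
def Nv (v a b : Fin 4 → ℂ) : Fin 3 → ℂ :=
  ![3 * v 3 * (a 1 * b 2 - a 2 * b 1) + a 3 * (b 1 * v 2 - b 2 * v 1) +
      b 3 * (v 1 * a 2 - v 2 * a 1),
    3 * v 3 * (a 2 * b 0 - a 0 * b 2) + a 3 * (b 2 * v 0 - b 0 * v 2) +
      b 3 * (v 2 * a 0 - v 0 * a 2),
    3 * v 3 * (a 0 * b 1 - a 1 * b 0) + a 3 * (b 0 * v 1 - b 1 * v 0) +
      b 3 * (v 0 * a 1 - v 1 * a 0)]

/-- The value of the 2-form on tangent vectors. -/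
noncomputable def omv (j : Fin 4) (v a b : Fin 4 → ℂ) : ℂ :=
  (conj (v 3) * Md v a b + ∑ i, conj (gxd j (xc v) i) * (2 * Nv v a b i)) /
    (conj (v 3) * v 3 + ∑ i, conj (gxd j (xc v) i) * gxd j (xc v) i)

/-- `a` is tangent to the cone at `v`. -/
def Tan (j : Fin 4) (v a : Fin 4 → ℂ) : Prop :=
  2 * v 3 * a 3 = ∑ i : Fin 3, gxd j (xc v) i * a i.castSucc

theorem gx_euler (j : Fin 4) (x : Fin 3 → ℂ) : ∑ i, x i * gxd j x i = 6 * gx j x := by
  simp only [gxd, gx, Fin.sum_univ_three]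
  ring

theorem n1_sq {j : Fin 4} {v : Fin 4 → ℂ} (hv : v ∈ XC j) : v 3 ^ 2 = gx j (xc v) :=
  (mem_XC.1 hv).2

/-- The three linear relations, in coordinates. -/
theorem n1_euler {j : Fin 4} {v : Fin 4 → ℂ} (hv : v ∈ XC j) :
    gxd j (xc v) 0 * v 0 + gxd j (xc v) 1 * v 1 + gxd j (xc v) 2 * v 2 = 6 * v 3 ^ 2 := by
  have h1 := gx_euler j (xc v)
  rw [← n1_sq hv, Fin.sum_univ_three] at h1
  have h2 : xc v 0 = v 0 := rfl
  have h3 : xc v 1 = v 1 := rfl
  have h4 : xc v 2 = v 2 := rfl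
  rw [h2, h3, h4] at h1
  linear_combination h1

theorem n1_tan {j : Fin 4} {v a : Fin 4 → ℂ} (ha : Tan j v a) :
    gxd j (xc v) 0 * a 0 + gxd j (xc v) 1 * a 1 + gxd j (xc v) 2 * a 2 = 2 * v 3 * a 3 := by
  have h1 := ha
  unfold Tan at h1
  rw [Fin.sum_univ_three] at h1
  exact h1.symm

theorem n1_of_tan {j : Fin 4} {v a : Fin 4 → ℂ}
    (h : gxd j (xc v) 0 * a 0 + gxd j (xc v) 1 * a 1 + gxd j (xc v) 2 * a 2 = 2 * v 3 * a 3) :
    Tan j v a := by
  unfold Tan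
  rw [Fin.sum_univ_three]
  exact h.symm

theorem n1_Nv0 (v a b : Fin 4 → ℂ) : Nv v a b 0 =
    3 * v 3 * (a 1 * b 2 - a 2 * b 1) + a 3 * (b 1 * v 2 - b 2 * v 1) +
      b 3 * (v 1 * a 2 - v 2 * a 1) := rfl

theorem n1_Nv1 (v a b : Fin 4 → ℂ) : Nv v a b 1 =
    3 * v 3 * (a 2 * b 0 - a 0 * b 2) + a 3 * (b 2 * v 0 - b 0 * v 2) +
      b 3 * (v 2 * a 0 - v 0 * a 2) := rfl

theorem n1_Nv2 (v a b : Fin 4 → ℂ) : Nv v a b 2 =
    3 * v 3 * (a 0 * b 1 - a 1 * b 0) + a 3 * (b 0 * v 1 - b 1 * v 0) +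
      b 3 * (v 0 * a 1 - v 1 * a 0) := rfl

theorem mdet_grad {j : Fin 4} {v a b : Fin 4 → ℂ} (hv : v ∈ XC j) (ha : Tan j v a)
    (hb : Tan j v b) (i : Fin 3) : Md v a b * gxd j (xc v) i = 2 * v 3 * Nv v a b i := by
  have h1 := n1_euler hv
  have h2 := n1_tan ha
  have h3 := n1_tan hb
  fin_cases i
  · show Md v a b * gxd j (xc v) 0 = 2 * v 3 * Nv v a b 0
    rw [n1_Nv0]
    unfold Md
    linear_combination (a 1 * b 2 - a 2 * b 1) * h1 + (b 1 * v 2 - b 2 * v 1) * h2 +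
      (v 1 * a 2 - v 2 * a 1) * h3
  · show Md v a b * gxd j (xc v) 1 = 2 * v 3 * Nv v a b 1
    rw [n1_Nv1]
    unfold Md
    linear_combination (a 2 * b 0 - a 0 * b 2) * h1 + (b 2 * v 0 - b 0 * v 2) * h2 +
      (v 2 * a 0 - v 0 * a 2) * h3
  · show Md v a b * gxd j (xc v) 2 = 2 * v 3 * Nv v a b 2
    rw [n1_Nv2]
    unfold Md
    linear_combination (a 0 * b 1 - a 1 * b 0) * h1 + (b 0 * v 1 - b 1 * v 0) * h2 +
      (v 0 * a 1 - v 1 * a 0) * h3

theorem n1_cross {j : Fin 4} {v a b : Fin 4 → ℂ} (hv : v ∈ XC j) (ha : Tan j v a)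
    (hb : Tan j v b) :
    gxd j (xc v) 0 * Nv v a b 1 = gxd j (xc v) 1 * Nv v a b 0 ∧
    gxd j (xc v) 1 * Nv v a b 2 = gxd j (xc v) 2 * Nv v a b 1 ∧
    gxd j (xc v) 2 * Nv v a b 0 = gxd j (xc v) 0 * Nv v a b 2 := by
  have h1 := n1_euler hv
  have h2 := n1_tan ha
  have h3 := n1_tan hb
  refine ⟨?_, ?_, ?_⟩
  · rw [n1_Nv0, n1_Nv1]
    linear_combination (-1 : ℂ) * ((3 * v 3 * b 2 - b 3 * v 2) * h2
      + (a 3 * v 2 - 3 * v 3 * a 2) * h3 + (b 3 * a 2 - a 3 * b 2) * h1)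
  · rw [n1_Nv1, n1_Nv2]
    linear_combination (-1 : ℂ) * ((3 * v 3 * b 0 - b 3 * v 0) * h2
      + (a 3 * v 0 - 3 * v 3 * a 0) * h3 + (b 3 * a 0 - a 3 * b 0) * h1)
  · rw [n1_Nv0, n1_Nv2]
    linear_combination (-1 : ℂ) * ((3 * v 3 * b 1 - b 3 * v 1) * h2
      + (a 3 * v 1 - 3 * v 3 * a 1) * h3 + (b 3 * a 1 - a 3 * b 1) * h1)

theorem nvec_grad {j : Fin 4} {v a b : Fin 4 → ℂ} (hv : v ∈ XC j) (ha : Tan j v a)
    (hb : Tan j v b) (i k : Fin 3) :
    gxd j (xc v) i * Nv v a b k = gxd j (xc v) k * Nv v a b i := by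
  obtain ⟨h1, h2, h3⟩ := n1_cross hv ha hb
  fin_cases i <;> fin_cases k
  · rfl
  · exact h1
  · exact h3.symm
  · exact h1.symm
  · rfl
  · exact h2
  · exact h3
  · exact h2.symm
  · rfl

theorem grad_or {j : Fin 4} {v : Fin 4 → ℂ} (hv : v ∈ XC j) :
    v 3 ≠ 0 ∨ ∃ i, gxd j (xc v) i ≠ 0 := by
  by_contra hcon
  push Not at hcon
  obtain ⟨h1, h2⟩ := hcon
  have h3 := XC_grad j h2
  apply (mem_XC.1 hv).1
  funext k
  refine Fin.lastCases ?_ (fun i => ?_) k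
  · exact h1
  · exact congrFun h3 i

theorem n1_den_ne {j : Fin 4} {v : Fin 4 → ℂ} (hv : v ∈ XC j) :
    conj (v 3) * v 3 + ∑ i, conj (gxd j (xc v) i) * gxd j (xc v) i ≠ 0 := by
  have h1 : conj (v 3) * v 3 + ∑ i, conj (gxd j (xc v) i) * gxd j (xc v) i
      = ((Complex.normSq (v 3) + ∑ i, Complex.normSq (gxd j (xc v) i) : ℝ) : ℂ) := by
    push_cast
    simp only [Complex.normSq_eq_conj_mul_self]
  rw [h1]
  apply Complex.ofReal_ne_zero.2
  apply ne_of_gt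
  have h2 : 0 ≤ ∑ i, Complex.normSq (gxd j (xc v) i) :=
    Finset.sum_nonneg fun i _ => Complex.normSq_nonneg _
  rcases grad_or hv with h | ⟨i, hi⟩
  · have h3 := Complex.normSq_pos.2 h
    linarith
  · have h3 := Complex.normSq_pos.2 hi
    have h4 : Complex.normSq (gxd j (xc v) i) ≤ ∑ i, Complex.normSq (gxd j (xc v) i) :=
      Finset.single_le_sum (f := fun i => Complex.normSq (gxd j (xc v) i))
        (fun i _ => Complex.normSq_nonneg _) (Finset.mem_univ i)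
    have h5 := Complex.normSq_nonneg (v 3)
    linarith

theorem omv_z {j : Fin 4} {v a b : Fin 4 → ℂ} (hv : v ∈ XC j) (ha : Tan j v a)
    (hb : Tan j v b) : omv j v a b * v 3 = Md v a b := by
  unfold omv
  rw [div_mul_eq_mul_div, div_eq_iff (n1_den_ne hv)]
  have h1 : ∀ i, conj (gxd j (xc v) i) * (2 * Nv v a b i) * v 3
      = conj (gxd j (xc v) i) * gxd j (xc v) i * Md v a b := by
    intro i
    have := mdet_grad hv ha hb i
    linear_combination (-conj (gxd j (xc v) i)) * this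
  rw [add_mul, Finset.sum_mul, Finset.sum_congr rfl fun i _ => h1 i, ← Finset.sum_mul]
  ring

theorem omv_g {j : Fin 4} {v a b : Fin 4 → ℂ} (hv : v ∈ XC j) (ha : Tan j v a)
    (hb : Tan j v b) (i : Fin 3) : omv j v a b * gxd j (xc v) i = 2 * Nv v a b i := by
  unfold omv
  rw [div_mul_eq_mul_div, div_eq_iff (n1_den_ne hv)]
  have h1 : ∀ k, conj (gxd j (xc v) k) * (2 * Nv v a b k) * gxd j (xc v) i
      = conj (gxd j (xc v) k) * gxd j (xc v) k * (2 * Nv v a b i) := by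
    intro k
    have := nvec_grad hv ha hb i k
    linear_combination (2 * conj (gxd j (xc v) k)) * this
  have h2 := mdet_grad hv ha hb i
  rw [add_mul, Finset.sum_mul, Finset.sum_congr rfl fun k _ => h1 k, ← Finset.sum_mul]
  linear_combination (conj (v 3)) * h2

theorem omv_comb (j : Fin 4) (v a b : Fin 4 → ℂ) (p q r s : ℂ) :
    omv j v (fun k => p * a k + q * b k) (fun k => r * a k + s * b k) =
      (p * s - q * r) * omv j v a b := by
  have h1 : Md v (fun k => p * a k + q * b k) (fun k => r * a k + s * b k)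
      = (p * s - q * r) * Md v a b := by
    unfold Md
    ring
  have h2 : ∀ i, Nv v (fun k => p * a k + q * b k) (fun k => r * a k + s * b k) i
      = (p * s - q * r) * Nv v a b i := by
    intro i
    fin_cases i
    · show Nv _ _ _ 0 = _ * Nv _ _ _ 0
      rw [n1_Nv0, n1_Nv0]
      ring
    · show Nv _ _ _ 1 = _ * Nv _ _ _ 1
      rw [n1_Nv1, n1_Nv1]
      ring
    · show Nv _ _ _ 2 = _ * Nv _ _ _ 2
      rw [n1_Nv2, n1_Nv2]
      ring
  unfold omv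
  rw [h1]
  simp_rw [h2]
  rw [← mul_div_assoc]
  congr 1
  simp only [Fin.sum_univ_three]
  ring

theorem n1_xc_act (l : ℂ) (v : Fin 4 → ℂ) : xc (act wX l v) = fun k => l * xc v k := by
  funext k
  have hw : wX k.castSucc = 1 := by fin_cases k <;> rfl
  simp only [xc, act]
  rw [hw, pow_one]

theorem n1_gxd_act (j : Fin 4) (l : ℂ) (v : Fin 4 → ℂ) (i : Fin 3) :
    gxd j (xc (act wX l v)) i = l ^ 5 * gxd j (xc v) i := by
  rw [n1_xc_act]
  simp only [gxd, Fin.sum_univ_three]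
  ring

theorem n1_act_coord (l : ℂ) (v : Fin 4 → ℂ) :
    act wX l v 0 = l * v 0 ∧ act wX l v 1 = l * v 1 ∧ act wX l v 2 = l * v 2 ∧
      act wX l v 3 = l ^ 3 * v 3 := by
  refine ⟨?_, ?_, ?_, ?_⟩ <;> simp [act, wX]

theorem n1_act_mem {j : Fin 4} {v : Fin 4 → ℂ} (hv : v ∈ XC j) {l : ℂ} (hl : l ≠ 0) :
    act wX l v ∈ XC j := by
  rw [mem_XC]
  have h0 := (mem_XC.1 hv).1
  constructor
  · intro h
    apply h0
    funext k
    have h1 := congrFun h k
    simp only [act, Pi.zero_apply, mul_eq_zero] at h1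
    rcases h1 with h1 | h1
    · exact absurd h1 (pow_ne_zero _ hl)
    · exact h1
  · have h1 := n1_sq hv
    have h2 : (fun k : Fin 3 => act wX l v k.castSucc) = fun k => l * xc v k := n1_xc_act l v
    rw [h2]
    have h3 : act wX l v (Fin.last 3) = l ^ 3 * v 3 := (n1_act_coord l v).2.2.2
    rw [h3, mul_pow, h1]
    simp only [gx, Fin.sum_univ_three]
    ring

theorem n1_tan_act {j : Fin 4} {v a : Fin 4 → ℂ} (hv : v ∈ XC j) (ha : Tan j v a) (l α : ℂ) :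
    Tan j (act wX l v) (fun k => l ^ wX k * a k + α * (wX k * l ^ (wX k - 1) * v k)) := by
  have h1 := n1_euler hv
  have h2 := n1_tan ha
  apply n1_of_tan
  rw [n1_gxd_act, n1_gxd_act, n1_gxd_act, (n1_act_coord l v).2.2.2]
  have w0 : wX 0 = 1 := rfl
  have w1 : wX 1 = 1 := rfl
  have w2 : wX 2 = 1 := rfl
  have w3 : wX 3 = 3 := rfl
  simp only [w0, w1, w2, w3]
  norm_num
  linear_combination l ^ 6 * h2 + α * l ^ 5 * h1

theorem omv_act {j : Fin 4} {v a b : Fin 4 → ℂ} (hv : v ∈ XC j) (ha : Tan j v a)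
    (hb : Tan j v b) {l : ℂ} (hl : l ≠ 0) (α β : ℂ) :
    omv j (act wX l v) (fun k => l ^ wX k * a k + α * (wX k * l ^ (wX k - 1) * v k))
      (fun k => l ^ wX k * b k + β * (wX k * l ^ (wX k - 1) * v k)) = omv j v a b := by
  have hv' := n1_act_mem hv hl
  have ha' := n1_tan_act hv ha l α
  have hb' := n1_tan_act hv hb l β
  set a' : Fin 4 → ℂ := fun k => l ^ wX k * a k + α * (wX k * l ^ (wX k - 1) * v k) with ha'd
  set b' : Fin 4 → ℂ := fun k => l ^ wX k * b k + β * (wX k * l ^ (wX k - 1) * v k) with hb'd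
  have hz := omv_z hv' ha' hb'
  have hg := omv_g hv' ha' hb'
  have hz0 := omv_z hv ha hb
  have hg0 := omv_g hv ha hb
  obtain ⟨c0, c1, c2, c3⟩ := n1_act_coord l v
  have a0 : a' 0 = l * a 0 + α * v 0 := by simp [ha'd, wX]
  have a1 : a' 1 = l * a 1 + α * v 1 := by simp [ha'd, wX]
  have a2 : a' 2 = l * a 2 + α * v 2 := by simp [ha'd, wX]
  have a3 : a' 3 = l ^ 3 * a 3 + α * (3 * l ^ 2 * v 3) := by simp [ha'd, wX]
  have b0 : b' 0 = l * b 0 + β * v 0 := by simp [hb'd, wX]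
  have b1 : b' 1 = l * b 1 + β * v 1 := by simp [hb'd, wX]
  have b2 : b' 2 = l * b 2 + β * v 2 := by simp [hb'd, wX]
  have b3 : b' 3 = l ^ 3 * b 3 + β * (3 * l ^ 2 * v 3) := by simp [hb'd, wX]
  have hM : Md (act wX l v) a' b' = l ^ 3 * Md v a b := by
    unfold Md
    rw [c0, c1, c2, a0, a1, a2, b0, b1, b2]
    ring
  have hN : ∀ i, Nv (act wX l v) a' b' i = l ^ 5 * Nv v a b i := by
    intro i
    fin_cases i
    · show Nv _ _ _ 0 = _ * Nv _ _ _ 0
      rw [n1_Nv0, n1_Nv0]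
      simp only [c0, c1, c2, c3, a0, a1, a2, a3, b0, b1, b2, b3]
      ring
    · show Nv _ _ _ 1 = _ * Nv _ _ _ 1
      rw [n1_Nv1, n1_Nv1]
      simp only [c0, c1, c2, c3, a0, a1, a2, a3, b0, b1, b2, b3]
      ring
    · show Nv _ _ _ 2 = _ * Nv _ _ _ 2
      rw [n1_Nv2, n1_Nv2]
      simp only [c0, c1, c2, c3, a0, a1, a2, a3, b0, b1, b2, b3]
      ring
  rcases grad_or hv with h | ⟨i, hi⟩
  · rw [hM, c3, ← hz0] at hz
    have h1 : l ^ 3 * v 3 ≠ 0 := mul_ne_zero (pow_ne_zero _ hl) h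
    refine mul_right_cancel₀ h1 ?_
    rw [hz]
    ring
  · have h2 := hg i
    rw [hN, n1_gxd_act] at h2
    have h3 := hg0 i
    have h1 : l ^ 5 * gxd j (xc v) i ≠ 0 := mul_ne_zero (pow_ne_zero _ hl) hi
    refine mul_right_cancel₀ h1 ?_
    rw [h2]
    linear_combination (-l ^ 5) * h3

theorem n1_det (w v a b : Fin 4 → ℂ) :
    (Matrix.of ![w, (fun k => (wX k : ℂ) * v k : Fin 4 → ℂ), a, b]).det
      = w 0 * Nv v a b 0 + w 1 * Nv v a b 1 + w 2 * Nv v a b 2 - w 3 * Md v a b := by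
  rw [n1_Nv0, n1_Nv1, n1_Nv2]
  unfold Md
  rw [Matrix.det_succ_row_zero]
  simp only [Fin.sum_univ_four, Matrix.det_fin_three]
  simp [Fin.succAbove, wX]
  ring

theorem omv_ne_zero {j : Fin 4} {v a b : Fin 4 → ℂ} (hv : v ∈ XC j) (ha : Tan j v a)
    (hb : Tan j v b)
    (hi : LinearIndependent ℂ ![(fun k => (wX k : ℂ) * v k : Fin 4 → ℂ), a, b]) :
    omv j v a b ≠ 0 := by
  intro h0
  have hM : Md v a b = 0 := by
    rw [← omv_z hv ha hb, h0, zero_mul]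
  have hN : ∀ i, Nv v a b i = 0 := by
    intro i
    have h1 := omv_g hv ha hb i
    rw [h0, zero_mul] at h1
    have h2 : (2 : ℂ) ≠ 0 := two_ne_zero
    exact (mul_eq_zero.1 h1.symm).resolve_left h2
  obtain ⟨w, hw⟩ := exists_linearIndependent_cons_of_lt_finrank hi (by simp)
  have h1 := Matrix.linearIndependent_rows_iff_isUnit (K := ℂ)
    (A := Matrix.of ![w, (fun k => (wX k : ℂ) * v k : Fin 4 → ℂ), a, b])
  have h2 : LinearIndependent ℂ
      (Matrix.of ![w, (fun k => (wX k : ℂ) * v k : Fin 4 → ℂ), a, b]).row := hw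
  have h3 := h1.1 h2
  rw [Matrix.isUnit_iff_isUnit_det, n1_det, hN, hN, hN, hM] at h3
  simp at h3

end Pool.Agent.K3Pieces
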