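import Pool.Agent.Lib.MP_3004b3_ag.N1
import Pool.Agent.Lib.MP_3004b3_ag.E2

/-!
# JOB N2: the nowhere vanishing 2-form of the double plane

`om j f q = omv j (f q) (Df e0) (Df e1)`.

* `tan_of_plot`: differentiate `(f z 3)² = gx j (xc (f z))` near `q`.
* `om_isPluri`: `germ`: `f q` and `fderiv f q` depend only on the germ. `scale`: the derivative of
  `act wX (l z) (f z)` in the direction `e` is `l^w * Df e + (Dl e) * (w l^(w-1) f)`; `omv_act`. `pull`:
  the derivative of `f ∘ g` in the direction `e_i` is a combination of `Df e0`, `Df e1` with the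
  coefficients `Dg e_i 0`, `Dg e_i 1`; `omv_comb` and `det_C2`. `hol` at `q`: if `f q 3 ≠ 0` then near `q`
  `om j f z = Md / f z 3` (`omv_z`), differentiable since `f` and its derivative are
  (`HolAt.fderiv`); otherwise some `gxd i (f q) ≠ 0` (`grad_or`), and near `q`
  `om j f z = 2 Nv i / gxd i` (`omv_g`).
* `om_ne_zero`: `omv_ne_zero`; the Euler vector is `fun k => w k * v k`.
-/

set_option autoImplicit false

namespace Pool.Agent.K3Pieces

open scoped Topology

/-- The 2-form of the double plane. -/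
noncomputable def om (j : Fin 4) (f : C2 → (XX j).Amb) (q : C2) : ℂ :=
  omv j (f q) (fderiv ℂ f q (Pi.single 0 1)) (fderiv ℂ f q (Pi.single 1 1))

/-- Derivatives along lines. -/
theorem n2_line {E : Type} [NormedAddCommGroup E] [NormedSpace ℂ E] {F : C2 → E} {q : C2}
    (hF : DifferentiableAt ℂ F q) (e : C2) :
    HasDerivAt (fun t : ℂ => F (q + t • e)) (fderiv ℂ F q e) 0 := by
  have hl : HasDerivAt (fun t : ℂ => q + t • e) e 0 := by
    have h1 : HasDerivAt (fun t : ℂ => t • e) ((1:ℂ) • e) 0 := (hasDerivAt_id (0:ℂ)).smul_const e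
    rw [one_smul] at h1
    exact h1.const_add q
  have h1 : HasFDerivAt F (fderiv ℂ F q) (q + (0:ℂ) • e) := by
    rw [zero_smul, add_zero]; exact hF.hasFDerivAt
  exact h1.comp_hasDerivAt (0:ℂ) hl

theorem n2_tan {j : Fin 4} {f : C2 → Fin 4 → ℂ} {q : C2} (hd : DifferentiableAt ℂ f q)
    (hf : ∀ᶠ z in 𝓝 q, f z ∈ XC j) (e : C2) : Tan j (f q) (fderiv ℂ f q e) := by
  have hγ := n2_line hd e
  set a : Fin 4 → ℂ := fderiv ℂ f q e with ha
  have h0 : q + (0:ℂ) • e = q := by rw [zero_smul, add_zero]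
  have hk : ∀ k, HasDerivAt (fun t : ℂ => f (q + t • e) k) (a k) 0 := hasDerivAt_pi.1 hγ
  have hc : ∀ᶠ t : ℂ in 𝓝 0, f (q + t • e) ∈ XC j := by
    have h1 : Filter.Tendsto (fun t : ℂ => q + t • e) (𝓝 0) (𝓝 q) := by
      have h2 : Continuous (fun t : ℂ => q + t • e) := by fun_prop
      have := h2.tendsto 0
      rwa [h0] at this
    exact h1.eventually hf
  have hL : HasDerivAt (fun t : ℂ => f (q + t • e) 3 ^ 2) (2 * f q 3 * a 3) 0 := by
    have h1 := (hk 3).fun_pow 2
    simp only [h0] at h1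
    exact h1.congr_deriv (by norm_num)
  have hR : HasDerivAt (fun t : ℂ => gx j (xc (f (q + t • e))))
      (∑ i : Fin 3, gxd j (xc (f q)) i * a i.castSucc) 0 := by
    have h1 : ∀ k : Fin 3, HasDerivAt (fun t : ℂ => xc (f (q + t • e)) k) (a k.castSucc) 0 :=
      fun k => hk k.castSucc
    have h2 : HasDerivAt (fun t : ℂ => ∑ k, lam (j.succAbove k) * xc (f (q + t • e)) k ^ 6)
        (∑ k : Fin 3, lam (j.succAbove k) * (((6:ℕ):ℂ) * xc (f (q + (0:ℂ) • e)) k ^ 5
          * a k.castSucc)) 0 := by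
      refine HasDerivAt.fun_sum fun k _ => ?_
      exact ((h1 k).fun_pow 6).const_mul _
    have h3 : HasDerivAt (fun t : ℂ => ∑ k : Fin 3, xc (f (q + t • e)) k ^ 2)
        (∑ k : Fin 3, ((2:ℕ):ℂ) * xc (f (q + (0:ℂ) • e)) k ^ 1 * a k.castSucc) 0 := by
      refine HasDerivAt.fun_sum fun k _ => ?_
      exact (h1 k).fun_pow 2
    have h4 := (h3.fun_pow 3).const_mul (lam j)
    have h5 := h2.fun_sub h4
    refine h5.congr_deriv ?_
    rw [h0]
    simp only [gxd, Fin.sum_univ_three]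
    push_cast
    ring
  have heq : (fun t : ℂ => f (q + t • e) 3 ^ 2) =ᶠ[𝓝 0] fun t : ℂ => gx j (xc (f (q + t • e))) := by
    filter_upwards [hc] with t ht
    exact (mem_XC.1 ht).2
  exact (hL.congr_of_eventuallyEq heq.symm).unique hR

/-- Derivative of the weighted action. -/
theorem n2_act {f : C2 → Fin 4 → ℂ} {l : C2 → ℂ} {q : C2} (hf : DifferentiableAt ℂ f q)
    (hl : DifferentiableAt ℂ l q) (e : C2) :
    fderiv ℂ (fun z => act wX (l z) (f z)) q e
      = fun k => l q ^ wX k * fderiv ℂ f q e k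
          + fderiv ℂ l q e * (wX k * l q ^ (wX k - 1) * f q k) := by
  have h0 : q + (0:ℂ) • e = q := by rw [zero_smul, add_zero]
  have hF : DifferentiableAt ℂ (fun z => act wX (l z) (f z)) q := by
    refine differentiableAt_pi.2 fun i => ?_
    exact (hl.pow (wX i)).mul (differentiableAt_pi.1 hf i)
  funext k
  have h1 : HasDerivAt (fun t : ℂ => l (q + t • e) ^ wX k * f (q + t • e) k)
      (fderiv ℂ (fun z => act wX (l z) (f z)) q e k) 0 :=
    hasDerivAt_pi.1 (n2_line hF e) k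
  have h2 := ((n2_line hl e).fun_pow (wX k)).fun_mul (hasDerivAt_pi.1 (n2_line hf e) k)
  simp only [h0] at h2
  rw [h1.unique h2]
  ring

theorem tan_of_plot {j : Fin 4} {f : C2 → (XX j).Amb} {q : C2} (hf : (XX j).PlotAt f q)
    (e : C2) : Tan j (f q) (fderiv ℂ f q e) :=
  n2_tan (f := f) (Filter.Eventually.self_of_nhds hf).1 (hf.mono fun _ h => h.2) e

/-- Holomorphy of the 2-form. -/
theorem n2_hol {j : Fin 4} {f : C2 → Fin 4 → ℂ} {q : C2} (hfh : HolAt f q)
    (hf : ∀ᶠ z in 𝓝 q, f z ∈ XC j) :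
    DifferentiableAt ℂ (fun z => omv j (f z) (fderiv ℂ f z (Pi.single 0 1))
      (fderiv ℂ f z (Pi.single 1 1))) q := by
  have hdh : HolAt (fun z => fderiv ℂ f z) q := HolAt.fderiv hfh
  have ha : HolAt (fun z => fderiv ℂ f z (Pi.single 0 1)) q := hdh.clm_apply (holAt_const _ q)
  have hb : HolAt (fun z => fderiv ℂ f z (Pi.single 1 1)) q := hdh.clm_apply (holAt_const _ q)
  have fk : ∀ k, HolAt (fun z => f z k) q := holAt_pi.1 hfh
  have ak : ∀ k, HolAt (fun z => fderiv ℂ f z (Pi.single 0 1) k) q := holAt_pi.1 ha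
  have bk : ∀ k, HolAt (fun z => fderiv ℂ f z (Pi.single 1 1) k) q := holAt_pi.1 hb
  have hev : ∀ᶠ z in 𝓝 q, f z ∈ XC j ∧ Tan j (f z) (fderiv ℂ f z (Pi.single 0 1)) ∧
      Tan j (f z) (fderiv ℂ f z (Pi.single 1 1)) := by
    filter_upwards [hfh, hf, eventually_eventually_nhds.2 hf] with z h1 h2 h3
    exact ⟨h2, n2_tan h1 h3 _, n2_tan h1 h3 _⟩
  have hm : f q ∈ XC j := hf.self_of_nhds
  rcases grad_or hm with h3 | ⟨i, hi⟩
  · have hM : HolAt (fun z => Md (f z) (fderiv ℂ f z (Pi.single 0 1))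
        (fderiv ℂ f z (Pi.single 1 1))) q :=
      (((fk 0).mul (((ak 1).mul (bk 2)).sub ((ak 2).mul (bk 1)))).sub
        ((fk 1).mul (((ak 0).mul (bk 2)).sub ((ak 2).mul (bk 0))))).add
        ((fk 2).mul (((ak 0).mul (bk 1)).sub ((ak 1).mul (bk 0))))
    have h := hM.div (fk 3) h3
    refine (h.congr ?_).differentiableAt
    filter_upwards [hev, (fk 3).continuousAt.eventually_ne h3] with z hz hz3
    rw [div_eq_iff hz3]
    exact (omv_z hz.1 hz.2.1 hz.2.2).symm
  · have hN : HolAt (fun z => Nv (f z) (fderiv ℂ f z (Pi.single 0 1))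
        (fderiv ℂ f z (Pi.single 1 1)) i) q := by
      have h33 : HolAt (fun z => 3 * f z 3) q := (holAt_const (3:ℂ) q).mul (fk 3)
      match i with
      | 0 =>
        exact ((h33.mul (((ak 1).mul (bk 2)).sub ((ak 2).mul (bk 1)))).add
          ((ak 3).mul (((bk 1).mul (fk 2)).sub ((bk 2).mul (fk 1))))).add
          ((bk 3).mul (((fk 1).mul (ak 2)).sub ((fk 2).mul (ak 1))))
      | 1 =>
        exact ((h33.mul (((ak 2).mul (bk 0)).sub ((ak 0).mul (bk 2)))).add
          ((ak 3).mul (((bk 2).mul (fk 0)).sub ((bk 0).mul (fk 2))))).add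
          ((bk 3).mul (((fk 2).mul (ak 0)).sub ((fk 0).mul (ak 2))))
      | 2 =>
        exact ((h33.mul (((ak 0).mul (bk 1)).sub ((ak 1).mul (bk 0)))).add
          ((ak 3).mul (((bk 0).mul (fk 1)).sub ((bk 1).mul (fk 0))))).add
          ((bk 3).mul (((fk 0).mul (ak 1)).sub ((fk 1).mul (ak 0))))
    have hg : HolAt (fun z => gxd j (xc (f z)) i) q := by
      have xk : ∀ k : Fin 3, HolAt (fun z => xc (f z) k) q := fun k => fk k.castSucc
      have hS : HolAt (fun z => ∑ k : Fin 3, xc (f z) k ^ 2) q := by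
        simp only [Fin.sum_univ_three]
        exact (((xk 0).pow 2).add ((xk 1).pow 2)).add ((xk 2).pow 2)
      exact ((holAt_const (6:ℂ) q).mul (xk i)).mul
        (((holAt_const (lam (j.succAbove i)) q).mul ((xk i).pow 4)).sub
          ((holAt_const (lam j) q).mul (hS.pow 2)))
    have h := ((holAt_const (2:ℂ) q).mul hN).div hg hi
    refine (h.congr ?_).differentiableAt
    filter_upwards [hev, hg.continuousAt.eventually_ne hi] with z hz hz3
    rw [div_eq_iff hz3]
    exact (omv_g hz.1 hz.2.1 hz.2.2 i).symm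

theorem n2_comp {f : C2 → Fin 4 → ℂ} {g : C2 → C2} {q : C2} (hf : DifferentiableAt ℂ f (g q))
    (hg : DifferentiableAt ℂ g q) (e : C2) :
    fderiv ℂ (f ∘ g) q e = fun k => fderiv ℂ g q e 0 * fderiv ℂ f (g q) (Pi.single 0 1) k
      + fderiv ℂ g q e 1 * fderiv ℂ f (g q) (Pi.single 1 1) k := by
  have hdec : ∀ v : C2, v = v 0 • (Pi.single 0 1 : C2) + v 1 • (Pi.single 1 1 : C2) := by
    intro v
    funext i
    fin_cases i <;> simp
  rw [fderiv_comp q hf hg, ContinuousLinearMap.comp_apply]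
  conv_lhs => rw [hdec (fderiv ℂ g q e)]
  rw [map_add, map_smul, map_smul]
  rfl

theorem n2_pull {j : Fin 4} {f : C2 → Fin 4 → ℂ} {g : C2 → C2} {q : C2}
    (hf : DifferentiableAt ℂ f (g q)) (hg : DifferentiableAt ℂ g q) :
    omv j (f (g q)) (fderiv ℂ (f ∘ g) q (Pi.single 0 1)) (fderiv ℂ (f ∘ g) q (Pi.single 1 1))
      = omv j (f (g q)) (fderiv ℂ f (g q) (Pi.single 0 1))
            (fderiv ℂ f (g q) (Pi.single 1 1)) * (fderiv ℂ g q).det ^ 1 := by
  rw [n2_comp hf hg, n2_comp hf hg, omv_comb, pow_one, det_C2]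
  ring

theorem n2_scale {j : Fin 4} {f : C2 → Fin 4 → ℂ} {l : C2 → ℂ} {q : C2}
    (hf : DifferentiableAt ℂ f q) (hl : DifferentiableAt ℂ l q) (h0 : l q ≠ 0)
    (hm : ∀ᶠ z in 𝓝 q, f z ∈ XC j) :
    omv j (act wX (l q) (f q)) (fderiv ℂ (fun z => act wX (l z) (f z)) q (Pi.single 0 1))
        (fderiv ℂ (fun z => act wX (l z) (f z)) q (Pi.single 1 1))
        = omv j (f q) (fderiv ℂ f q (Pi.single 0 1)) (fderiv ℂ f q (Pi.single 1 1)) := by
  rw [n2_act hf hl, n2_act hf hl]
  exact omv_act hm.self_of_nhds (n2_tan hf hm _) (n2_tan hf hm _) h0 _ _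

theorem om_isPluri (j : Fin 4) : (XX j).IsPluri 1 Set.univ (om j) where
  germ f g q hf _ hfg := by
    unfold om
    rw [hfg.fderiv_eq, hfg.eq_of_nhds]
  scale f l q hf _ hl h0 :=
    n2_scale (f := f) (Filter.Eventually.self_of_nhds hf).1 hl.differentiableAt h0
      (hf.mono fun _ h => h.2)
  pull f g q hg hf _ :=
    n2_pull (f := f) (Filter.Eventually.self_of_nhds hf).1 hg.differentiableAt
  hol f q hf _ := n2_hol (f := f) (hf.mono fun _ h => h.1) (hf.mono fun _ h => h.2)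

theorem om_ne_zero (j : Fin 4) {f : C2 → (XX j).Amb} {q : C2} (hf : (XX j).PlotAt f q)
    (hi : (XX j).Immersive f q) : om j f q ≠ 0 :=
  omv_ne_zero (Filter.Eventually.self_of_nhds hf).2 (tan_of_plot hf _) (tan_of_plot hf _) hi

end Pool.Agent.K3Pieces
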