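import Pool.Agent.Lib.MP_3004b3_ag.N2
import Pool.Agent.Lib.MP_3004b3_ag.K4
import Pool.Agent.Lib.MP_3004b3_ag.M5
import Pool.Agent.Lib.MP_3004b3_ag.M0
import Pool.Agent.Lib.MP_3004b3_ag.J3

/-!
# JOB N3: all 2-forms of `S`; the splitting data

* `pull_om`: let `g` be a local map to `S` at `q`, `v = g q ∈ SC0`, `y = sqv v`, and `β0`, `β1` the
  derivatives of `sqv ∘ g`. Then
  `(MJ j).pullRule (om j) g q * (4 * ∏ k, v k) = (-1) ^ j * v_j * det3 y β0 β1`. Proof: `om` at
  `pj j ∘ g` times `v 4` is `Md` of the `x`-coordinates `x_k`, `k ≠ j`, (`omv_z`, `tan_of_plot`). As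
  `y_k = x_k²`, `β_k = 2 x_k Dx_k`, the determinant of the coordinates `k ≠ j` of `y, β0, β1` is
  `4 ∏_{k ≠ j} x_k * Md`. And this determinant is `(-1)^j det3 y β0 β1` since the three
  vectors have coordinate sum zero (`plot_pi0`): check `j = 0, 1, 2, 3` (`fin_cases`).
* `om_sign`: the rule `(MJ j).pullRule (om j)` at `flip1 i.castSucc ∘ f`, `i ≠ j`: one of the
  `x`-coordinates of the map to `X_j` changes its sign: `Md` changes its sign, `z` does not, the
  gradient and `Nv` change accordingly, so `omv` changes its sign (use `omv_z`, `omv_g` and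
  `grad_or`; or, shorter: by `pull_om` both sides agree on local maps into `SC0`, and
  `IsPluri.ext_of_dense` with `O = SC0` (`SC_subset_closure`) applied to the two 2-forms
  `(SJ i).pullRule ((MJ j).pullRule (om j))` and `(-1) • (MJ j).pullRule (om j)`; `Mor.isPluri_pull`.)
* `om_span`: `exists_H`, `H_form` give `H v * ∏ v k = ∑ C j v_j` on `SC0`. With
  `a j = 4 * (-1)^j * C j`: `η g q = H v det3 = ∑ a j * (MJ j).pullRule (om j) g q` for `g q ∈ SC0` by
  `pull_om`; `IsPluri.ext_of_dense`.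
-/

set_option autoImplicit false

namespace Pool.Agent.K3Pieces

open scoped Topology

/-! ### Auxiliary lemmas -/

/-- The index of the coordinates of `pj j`. -/
def n3_idx (j : Fin 4) : Fin 4 → Fin 5 :=
  Fin.snoc (α := fun _ => Fin 5) (fun k : Fin 3 => (j.succAbove k).castSucc) (Fin.last 4)

theorem n3_pj (j : Fin 4) (v : Fin 5 → ℂ) : pj j v = fun k => v (n3_idx j k) := by
  funext k
  refine Fin.lastCases ?_ (fun i => ?_) k
  · rw [pj, n3_idx, Fin.snoc_last, Fin.snoc_last]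
  · rw [pj, n3_idx, Fin.snoc_castSucc, Fin.snoc_castSucc]

theorem n3_det_alg (x1 x2 x3 a1 a2 a3 b1 b2 b3 : ℂ) (h1 : x1 ≠ 0) (h2 : x2 ≠ 0) (h3 : x3 ≠ 0) :
    (x1 * (a2 / (2 * x2) * (b3 / (2 * x3)) - a3 / (2 * x3) * (b2 / (2 * x2))) -
      x2 * (a1 / (2 * x1) * (b3 / (2 * x3)) - a3 / (2 * x3) * (b1 / (2 * x1))) +
      x3 * (a1 / (2 * x1) * (b2 / (2 * x2)) - a2 / (2 * x2) * (b1 / (2 * x1)))) *
        (4 * (x1 * x2 * x3)) =
      x1 ^ 2 * (a2 * b3 - a3 * b2) - x2 ^ 2 * (a1 * b3 - a3 * b1) +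
        x3 ^ 2 * (a1 * b2 - a2 * b1) := by
  field_simp
  ring

/-- The determinant of the coordinates other than `j`. -/
theorem n3_det_minor (j : Fin 4) {y a b : Fin 4 → ℂ} (hy : Pi0 y) (ha : Pi0 a) (hb : Pi0 b) :
    y (j.succAbove 0) * (a (j.succAbove 1) * b (j.succAbove 2) -
        a (j.succAbove 2) * b (j.succAbove 1)) -
      y (j.succAbove 1) * (a (j.succAbove 0) * b (j.succAbove 2) -
        a (j.succAbove 2) * b (j.succAbove 0)) +
      y (j.succAbove 2) * (a (j.succAbove 0) * b (j.succAbove 1) -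
        a (j.succAbove 1) * b (j.succAbove 0)) = (-1) ^ (j : ℕ) * det3 y a b := by
  have hy0 : y 0 = - (y 1 + y 2 + y 3) := by
    have := hy
    simp only [Pi0, Fin.sum_univ_four] at this
    linear_combination this
  have ha0 : a 0 = - (a 1 + a 2 + a 3) := by
    have := ha
    simp only [Pi0, Fin.sum_univ_four] at this
    linear_combination this
  have hb0 : b 0 = - (b 1 + b 2 + b 3) := by
    have := hb
    simp only [Pi0, Fin.sum_univ_four] at this
    linear_combination this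
  have s00 : (0 : Fin 4).succAbove (0 : Fin 3) = 1 := by decide
  have s01 : (0 : Fin 4).succAbove (1 : Fin 3) = 2 := by decide
  have s02 : (0 : Fin 4).succAbove (2 : Fin 3) = 3 := by decide
  have s10 : (1 : Fin 4).succAbove (0 : Fin 3) = 0 := by decide
  have s11 : (1 : Fin 4).succAbove (1 : Fin 3) = 2 := by decide
  have s12 : (1 : Fin 4).succAbove (2 : Fin 3) = 3 := by decide
  have s20 : (2 : Fin 4).succAbove (0 : Fin 3) = 0 := by decide
  have s21 : (2 : Fin 4).succAbove (1 : Fin 3) = 1 := by decide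
  have s22 : (2 : Fin 4).succAbove (2 : Fin 3) = 3 := by decide
  have s30 : (3 : Fin 4).succAbove (0 : Fin 3) = 0 := by decide
  have s31 : (3 : Fin 4).succAbove (1 : Fin 3) = 1 := by decide
  have s32 : (3 : Fin 4).succAbove (2 : Fin 3) = 2 := by decide
  have c0 : (((0 : Fin 4) : ℕ)) = 0 := rfl
  have c1 : (((1 : Fin 4) : ℕ)) = 1 := rfl
  have c2 : (((2 : Fin 4) : ℕ)) = 2 := rfl
  have c3 : (((3 : Fin 4) : ℕ)) = 3 := rfl
  rcases (by revert j; decide : j = 0 ∨ j = 1 ∨ j = 2 ∨ j = 3) with h | h | h | h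
  · subst h
    rw [s00, s01, s02, c0, det3]
    ring
  · subst h
    rw [s10, s11, s12, c1, det3, hy0, ha0, hb0]
    ring
  · subst h
    rw [s20, s21, s22, c2, det3, hy0, ha0, hb0]
    ring
  · subst h
    rw [s30, s31, s32, c3, det3, hy0, ha0, hb0]
    ring

/-- The derivative of `pj j ∘ g`. -/
theorem n3_fderiv_pj (j : Fin 4) {g : C2 → Fin 5 → ℂ} {q : C2} (hg : DifferentiableAt ℂ g q)
    (e : C2) : fderiv ℂ (fun z => pj j (g z)) q e = pj j (fderiv ℂ g q e) := by
  have h1 : HasFDerivAt (fun z => pj j (g z))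
      (ContinuousLinearMap.pi fun k => (ContinuousLinearMap.proj (R := ℂ) (φ := fun _ => ℂ)
        (n3_idx j k)).comp (fderiv ℂ g q)) q := by
    rw [hasFDerivAt_pi']
    intro k
    have h2 := hasFDerivAt_pi'.1 hg.hasFDerivAt (n3_idx j k)
    have h3 : (fun z => pj j (g z) k) = fun z => g z (n3_idx j k) := by
      funext z
      rw [n3_pj]
    rw [h3]
    exact h2
  rw [h1.fderiv, n3_pj]
  rfl

theorem n3_sqv_flip1 (i : Fin 4) (v : Fin 5 → ℂ) : sqv (flip1 i.castSucc v) = sqv v := by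
  funext k
  simp only [sqv, flip1, Function.update_apply]
  split_ifs with h
  · rw [h]
    ring
  · rfl

theorem n3_prod_flip1 (k : Fin 5) (v : Fin 5 → ℂ) : ∏ l, flip1 k v l = - ∏ l, v l := by
  unfold flip1
  rw [Finset.prod_update_of_mem (Finset.mem_univ k)]
  rw [neg_mul, ← Finset.mul_prod_erase Finset.univ v (Finset.mem_univ k)]
  congr 2
  refine Finset.prod_congr ?_ fun _ _ => rfl
  ext l
  simp

theorem n3_sum_isPluri {X : Surf} {m n : ℕ} {U : Set X.Pt} {b : Fin n → (C2 → X.Amb) → C2 → ℂ}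
    (hb : ∀ i, X.IsPluri m U (b i)) (a : Fin n → ℂ) :
    X.IsPluri m U (fun f q => ∑ i, a i * b i f q) where
  germ f g q h1 h2 h3 := Finset.sum_congr rfl fun i _ => by rw [(hb i).germ f g q h1 h2 h3]
  scale f l q h1 h2 h3 h4 := Finset.sum_congr rfl fun i _ => by
    rw [(hb i).scale f l q h1 h2 h3 h4]
  pull f g q h1 h2 h3 := by
    rw [Finset.sum_mul]
    exact Finset.sum_congr rfl fun i _ => by rw [(hb i).pull f g q h1 h2 h3, mul_assoc]
  hol f q h1 h2 := by
    have h3 : ∀ i ∈ (Finset.univ : Finset (Fin n)),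
        DifferentiableAt ℂ (fun q => a i * b i f q) q :=
      fun i _ => ((hb i).hol f q h1 h2).const_mul (a i)
    exact DifferentiableAt.fun_sum h3

theorem n3_neg_isPluri {X : Surf} {m : ℕ} {U : Set X.Pt} {b : (C2 → X.Amb) → C2 → ℂ}
    (hb : X.IsPluri m U b) : X.IsPluri m U (fun f q => - b f q) where
  germ f g q h1 h2 h3 := by rw [hb.germ f g q h1 h2 h3]
  scale f l q h1 h2 h3 h4 := by rw [hb.scale f l q h1 h2 h3 h4]
  pull f g q h1 h2 h3 := by rw [hb.pull f g q h1 h2 h3, neg_mul]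
  hol f q h1 h2 := (hb.hol f q h1 h2).neg

theorem n3_span_alg {e h D Q : ℂ} {C x P : Fin 4 → ℂ} (hQ : Q ≠ 0) (h1 : e = h * D)
    (h2 : h * Q = ∑ j, C j * x j) (h3 : ∀ j, P j * (4 * Q) = (-1) ^ (j : ℕ) * x j * D) :
    e = ∑ j : Fin 4, 4 * (-1) ^ (j : ℕ) * C j * P j := by
  refine mul_right_cancel₀ hQ ?_
  rw [Finset.sum_mul]
  have h4 : ∀ j : Fin 4, 4 * (-1) ^ (j : ℕ) * C j * P j * Q = C j * x j * D := by
    intro j
    have h5 : ((-1 : ℂ) ^ (j : ℕ)) * (-1) ^ (j : ℕ) = 1 := by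
      rw [← mul_pow]
      norm_num
    calc 4 * (-1) ^ (j : ℕ) * C j * P j * Q
        = (-1) ^ (j : ℕ) * C j * (P j * (4 * Q)) := by ring
      _ = (((-1 : ℂ) ^ (j : ℕ)) * (-1) ^ (j : ℕ)) * (C j * x j * D) := by rw [h3 j]; ring
      _ = _ := by rw [h5, one_mul]
  rw [Finset.sum_congr rfl fun j _ => h4 j, ← Finset.sum_mul, ← h2, h1]
  ring

theorem n3_pull_alg {W z x p M r : ℂ} (h1 : W * z = M) (h2 : M * (4 * p) = r) {s d : ℂ}
    (h3 : r = s * d) : W * (4 * ((x * p) * z)) = s * x * d := by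
  rw [show W * (4 * ((x * p) * z)) = ((W * z) * (4 * p)) * x by ring, h1, h2, h3]
  ring

theorem n3_sign_alg {P P' Q r : ℂ} (hQ : Q ≠ 0) (h1 : P * (4 * Q) = r)
    (h2 : P' * (4 * - Q) = r) : P' = - P := by
  have h3 : (4 * Q) ≠ 0 := mul_ne_zero (by norm_num) hQ
  refine mul_right_cancel₀ h3 ?_
  linear_combination h1 - h2

/-! ### The statements -/

theorem pull_om (j : Fin 4) {g : C2 → Fin 5 → ℂ} {q : C2} (hg : SS.PlotAt g q)
    (h0 : g q ∈ SC0) :
    (MJ j).pullRule (om j) g q * (4 * ∏ k, g q k) = (-1) ^ (j : ℕ) * g q j.castSucc *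
      det3 (sqv (g q)) (fderiv ℂ (fun z => sqv (g z)) q (Pi.single 0 1))
        (fderiv ℂ (fun z => sqv (g z)) q (Pi.single 1 1)) := by
  set β0 := fderiv ℂ (fun z => sqv (g z)) q (Pi.single 0 1) with hβ0
  set β1 := fderiv ℂ (fun z => sqv (g z)) q (Pi.single 1 1) with hβ1
  have hd : DifferentiableAt ℂ g q := (Surf.PlotAt.holAt hg).differentiableAt
  have hp : (XX j).PlotAt (fun z => pj j (g z)) q := (MJ j).plot hg
  have hmem : pj j (g q) ∈ XC j := by
    rw [← pj_image]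
    exact ⟨g q, h0.1, rfl⟩
  have ht0 : Tan j (pj j (g q)) (pj j (fderiv ℂ g q (Pi.single 0 1))) := by
    have h : Tan j (pj j (g q)) (fderiv ℂ (fun z => pj j (g z)) q (Pi.single 0 1)) :=
      tan_of_plot hp (Pi.single 0 1)
    rwa [n3_fderiv_pj j hd] at h
  have ht1 : Tan j (pj j (g q)) (pj j (fderiv ℂ g q (Pi.single 1 1))) := by
    have h : Tan j (pj j (g q)) (fderiv ℂ (fun z => pj j (g z)) q (Pi.single 1 1)) :=
      tan_of_plot hp (Pi.single 1 1)
    rwa [n3_fderiv_pj j hd] at h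
  have hL : (MJ j).pullRule (om j) g q = omv j (pj j (g q)) (pj j (fderiv ℂ g q (Pi.single 0 1)))
      (pj j (fderiv ℂ g q (Pi.single 1 1))) := by
    show omv j (pj j (g q)) (fderiv ℂ (fun z => pj j (g z)) q (Pi.single 0 1))
      (fderiv ℂ (fun z => pj j (g z)) q (Pi.single 1 1)) = _
    rw [n3_fderiv_pj j hd, n3_fderiv_pj j hd]
  rw [hL]
  have hz := omv_z hmem ht0 ht1
  have h3 : pj j (g q) 3 = g q (Fin.last 4) := by
    rw [n3_pj]
    show g q (n3_idx j (Fin.last 3)) = _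
    rw [n3_idx, Fin.snoc_last]
  rw [h3] at hz
  have hprod : ∏ k, g q k = (g q j.castSucc * (g q (j.succAbove 0).castSucc *
      g q (j.succAbove 1).castSucc * g q (j.succAbove 2).castSucc)) * g q (Fin.last 4) := by
    rw [Fin.prod_univ_castSucc, Fin.prod_univ_succAbove _ j, Fin.prod_univ_three]
  have hx : ∀ k : Fin 3, pj j (g q) k.castSucc = g q (j.succAbove k).castSucc := by
    intro k
    rw [n3_pj]
    simp [n3_idx]
  have hab : ∀ (e : C2) (k : Fin 3), pj j (fderiv ℂ g q e) k.castSucc =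
      fderiv ℂ (fun z => sqv (g z)) q e (j.succAbove k) / (2 * g q (j.succAbove k).castSucc) := by
    intro e k
    rw [n3_pj, fderiv_plot hg h0 e]
    simp [n3_idx, tau, dBr]
  have hM : Md (pj j (g q)) (pj j (fderiv ℂ g q (Pi.single 0 1)))
      (pj j (fderiv ℂ g q (Pi.single 1 1))) * (4 * (g q (j.succAbove 0).castSucc *
        g q (j.succAbove 1).castSucc * g q (j.succAbove 2).castSucc)) =
      (-1) ^ (j : ℕ) * det3 (sqv (g q)) β0 β1 := by
    rw [← n3_det_minor j (mem_SC.1 h0.1).2.1 (plot_pi0 hg _) (plot_pi0 hg _)]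
    have e0 := hx 0
    have e1 := hx 1
    have e2 := hx 2
    have a0 := hab (Pi.single 0 1) 0
    have a1 := hab (Pi.single 0 1) 1
    have a2 := hab (Pi.single 0 1) 2
    have b0 := hab (Pi.single 1 1) 0
    have b1 := hab (Pi.single 1 1) 1
    have b2 := hab (Pi.single 1 1) 2
    have c0 : (0 : Fin 3).castSucc = (0 : Fin 4) := rfl
    have c1 : (1 : Fin 3).castSucc = (1 : Fin 4) := rfl
    have c2 : (2 : Fin 3).castSucc = (2 : Fin 4) := rfl
    rw [c0] at e0 a0 b0
    rw [c1] at e1 a1 b1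
    rw [c2] at e2 a2 b2
    rw [Md, e0, e1, e2, a0, a1, a2, b0, b1, b2]
    rw [n3_det_alg _ _ _ _ _ _ _ _ _ (h0.2 _) (h0.2 _) (h0.2 _)]
    rfl
  rw [hprod]
  exact n3_pull_alg hz hM rfl

theorem pull_om_isPluri (j : Fin 4) :
    SS.IsPluri 1 Set.univ ((MJ j).pullRule (om j)) := by
  have h := (MJ j).isPluri_pull (om_isPluri j)
  rwa [Set.preimage_univ] at h

/-- Density, in the form needed for `ext_of_dense`. -/
theorem SS_dense : (∀ v ∈ SS.cone ∩ SC0, ∀ l : ℂ, l ≠ 0 → act SS.w l v ∈ SC0) ∧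
    SS.cone ⊆ closure (SS.cone ∩ SC0) := by
  refine ⟨fun v hv l hl => (act_mem_SC0 hv.2 hl).1, ?_⟩
  have h1 : SS.cone ∩ SC0 = SC0 := Set.inter_eq_right.2 fun v hv => hv.1
  rw [h1]
  exact SC_subset_closure

theorem om_sign (i j : Fin 4) (hij : i ≠ j) (f : C2 → SS.Amb) (q : C2) (hf : SS.PlotAt f q) :
    (SJ i).pullRule ((MJ j).pullRule (om j)) f q = - (MJ j).pullRule (om j) f q := by
  have h1 : SS.IsPluri 1 Set.univ ((SJ i).pullRule ((MJ j).pullRule (om j))) := by
    have h := (SJ i).isPluri_pull (pull_om_isPluri j)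
    rwa [Set.preimage_univ] at h
  have h2 := n3_neg_isPluri (pull_om_isPluri j)
  refine Surf.IsPluri.ext_of_dense h1 h2 (O := SC0) SS_dense.1 SS_dense.2 ?_ f q hf
  intro f q hf h0
  have h3 := pull_om j hf h0
  have h4 := pull_om j (g := fun z => flip1 i.castSucc (f z)) ((SJ i).plot hf)
    (flip1_mem h0 i.castSucc).1
  have h5 : (MJ j).pullRule (om j) (fun z => flip1 i.castSucc (f z)) q =
    (SJ i).pullRule ((MJ j).pullRule (om j)) f q := rfl
  rw [h5] at h4
  simp only [n3_sqv_flip1] at h4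
  rw [n3_prod_flip1] at h4
  have h6 : flip1 i.castSucc (f q) j.castSucc = f q j.castSucc := by
    unfold flip1
    rw [Function.update_of_ne]
    intro h
    exact hij (Fin.castSucc_injective 4 h).symm
  have h7 : (∏ k, f q k) ≠ 0 := Finset.prod_ne_zero_iff.2 fun k _ => h0.2 k
  rw [h6] at h4
  exact n3_sign_alg h7 h3 h4

theorem om_span (η : (C2 → SS.Amb) → C2 → ℂ) (hη : SS.IsPluri 1 Set.univ η) :
    ∃ a : Fin 4 → ℂ, ∀ f q, SS.PlotAt f q → η f q = ∑ j, a j * (MJ j).pullRule (om j) f q := by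
  obtain ⟨H, hw, ha, hp, hH⟩ := exists_H hη
  obtain ⟨C, hC⟩ := H_form hw ha hp
  refine ⟨fun j => 4 * (-1) ^ (j : ℕ) * C j, ?_⟩
  refine Surf.IsPluri.ext_of_dense hη (n3_sum_isPluri (fun j => pull_om_isPluri j) _) (O := SC0)
    SS_dense.1 SS_dense.2 ?_
  intro f q hf h0
  exact n3_span_alg (Finset.prod_ne_zero_iff.2 fun k _ => h0.2 k) (hH f q hf h0) (hC (f q) h0)
    fun j => pull_om j hf h0

/-- The splitting data. -/
noncomputable def SD : SplitData SS XX where
  M := MJ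
  σ := SJ
  double := MJ_double
  lifts := MJ_lifts
  comm_cone := MJ_comm
  ω := om
  isPluri := om_isPluri
  span := om_span
  sign := om_sign

end Pool.Agent.K3Pieces
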