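import Pool.Agent.Lib.MP_3004b3_ag.N2
import Pool.Agent.Lib.MP_3004b3_ag.K4
import Pool.Agent.Lib.MP_3004b3_ag.M6
import Pool.Agent.Lib.MP_3004b3_ag.M0

/-!
# JOB N4: no 1-forms; the double planes are K3 surfaces

* `SS_form1`: `exists_A`, `A_zero` (and `plot_pi0`): `α g q = 0` for `g q ∈ SC0`;
  `IsForm1.ext_of_dense` with `α' = 0` and `O = SC0` (`SC_subset_closure`, `act_mem_SC0`).
* `XX_form1`: let `α` be a 1-form on `X_j`; `(MJ j).pullRule α` is a 1-form on `S`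
  (`Mor.isForm1_pull`), so zero. Let `f` be a local map at `q`. By `MJ_lifts`: if `f` lifts near `q` to
  a local map `g`, then `α f q = α ((MJ j).P ∘ g) q = (MJ j).pullRule α g q = 0` (`germ`). Otherwise
  there is `u`, holomorphic at `q`, with `u z ≠ 0` for `z` arbitrarily near `q`, and `α f z = 0` for all
  such `z` near `q`; `α f` is continuous at `q` (`hol`), so `α f q = 0`.
* `XX_isK3`: `om_isPluri`, `om_ne_zero`, `XX_form1`.
-/

set_option autoImplicit false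

namespace Pool.Agent.K3Pieces

open scoped Topology

theorem SS_form1 (α : (C2 → SS.Amb) → C2 → (C2 →L[ℂ] ℂ)) (hα : SS.IsForm1 Set.univ α)
    (f : C2 → SS.Amb) (q : C2) (hf : SS.PlotAt f q) : α f q = 0 := by
  obtain ⟨A, hA, hrep⟩ := exists_A hα
  have hd : SS.cone ⊆ closure (SS.cone ∩ SC0) := by
    have h1 : SS.cone ∩ SC0 = SC0 := Set.inter_eq_right.2 fun v hv => hv.1
    rw [h1]
    exact SC_subset_closure
  refine hα.ext_of_dense (α' := 0) (Surf.IsForm1.zero SS Set.univ) (O := SC0)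
    (fun v hv l hl => (act_mem_SC0 hv.2 hl).1) hd (fun g q hg h0 => ?_) f q hf
  ext e
  have h1 := hrep g q hg h0 e
  rw [h1, A_zero hA _ h0 _ (plot_pi0 hg e)]
  rfl

theorem XX_form1 (j : Fin 4) (α : (C2 → (XX j).Amb) → C2 → (C2 →L[ℂ] ℂ))
    (hα : (XX j).IsForm1 Set.univ α) (f : C2 → (XX j).Amb) (q : C2)
    (hf : (XX j).PlotAt f q) : α f q = 0 := by
  have hS : SS.IsForm1 Set.univ ((MJ j).pullRule α) := (MJ j).isForm1_pull hα
  have key : ∀ (g : C2 → SS.Amb) (z : C2), (XX j).PlotAt f z → SS.PlotAt g z →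
      (∀ᶠ z' in 𝓝 z, (MJ j).P (g z') = f z') → α f z = 0 := by
    intro g z hfz hg he
    have h1 : f =ᶠ[𝓝 z] fun z' => (MJ j).P (g z') := he.mono fun _ h => h.symm
    rw [hα.germ f _ z hfz (Set.mem_univ _) h1]
    exact SS_form1 _ hS g z hg
  rcases MJ_lifts j f q hf with ⟨g, hg, he⟩ | ⟨u, _, hfr, hu⟩
  · exact key g q hf hg he
  · by_contra hne
    have hc : ContinuousAt (α f) q := (hα.hol f q hf (Set.mem_univ _)).continuousAt
    have h1 : ∀ᶠ z in 𝓝 q, α f z ≠ 0 := hc.eventually_ne hne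
    have h2 : ∀ᶠ z in 𝓝 q, u z ≠ 0 → α f z = 0 := by
      filter_upwards [hu, hf.eventually] with z h3 h4 h5
      obtain ⟨g, hg, he⟩ := h3 h5
      exact key g z h4 hg he
    obtain ⟨z, hz, h3, h4⟩ := (hfr.and_eventually (h1.and h2)).exists
    exact h3 (h4 hz)

theorem XX_isK3 (j : Fin 4) : (XX j).IsK3 :=
  ⟨⟨om j, om_isPluri j, fun _ _ hf hi => om_ne_zero j hf hi⟩,
    fun α hα f q hf => XX_form1 j α hα f q hf⟩

end Pool.Agent.K3Pieces
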