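import Pool.Agent.Lib.MP_3004b3_ag.N3

/-!
# JOB N5: geometric genus four and general type

* `SS_pg`: the basis is `j ↦ (MJ j).pullRule (om j)`; existence is `om_span`. Uniqueness: let
  `∑ c j * (MJ j).pullRule (om j) f q = 0` for all local maps. Let `v ∈ SC0` (`SC0_nonempty`), and for
  `E ⊆ {0, 1, 2, 3}` take the local map `PL (flip E v) ε1 ε2` at `0` with `ε1 = ![-1, 1, 0, 0]`,
  `ε2 = ![-1, 0, 1, 0]`, where `det3 y ε1 ε2 = y 3 ≠ 0`: `pull_om` gives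
  `∑ j, c j (-1)^j (flip E v)_j = 0`. Adding the equations for `E = ∅` and `E = {j}ᶜ` gives `c j = 0`.
* `SS_generalType`: `m = 1`, `s i = (MJ i).pullRule (om i)` for `i = 0, 1, 2`. At the local map
  `f = PL v ε1 ε2`, near `0`: `s i f z * 4 ∏ f z k = (-1)^i f z i * det3`, so
  `s 1 / s 0 = - f z 1 / f z 0`, `s 2 / s 0 = f z 2 / f z 0` near `0` (`det3 (sqv (f z)) ε1 ε2 ≠ 0` near
  `0`). With `y_i(z) = sqv (f z) i` (`y_0 = y_0(0) - z_0 - z_1`, `y_1 = y_1(0) + z_0`,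
  `y_2 = y_2(0) + z_1`) and `fderiv f 0 e = tau v (…)` (`fderiv_plot`, `PL_sqv`): the derivative of
  `f_i / f_0` in the direction `β` is `(f_i / (2 f_0)) (β_i / y_i - β_0 / y_0)`. The Jacobian
  determinant of `(- f_1/f_0, f_2/f_0)` is, with `r = f_1 f_2 / (4 f_0²)`:
  `- r ((1/y_1 + 1/y_0) (1/y_2 + 1/y_0) - 1/y_0²) = - r (y_0 + y_1 + y_2) / (y_0 y_1 y_2)`
  `= r y_3 / (y_0 y_1 y_2) ≠ 0`.
-/

set_option autoImplicit false

namespace Pool.Agent.K3Pieces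

open scoped Topology

/-! ### Auxiliary lemmas -/

theorem n5_eps1 : Pi0 ![-1, 1, 0, 0] := by
  simp [Pi0, Fin.sum_univ_four]

theorem n5_eps2 : Pi0 ![-1, 0, 1, 0] := by
  simp [Pi0, Fin.sum_univ_four]

theorem n5_det3 (y : Fin 4 → ℂ) : det3 y ![-1, 1, 0, 0] ![-1, 0, 1, 0] = y 3 := by
  simp [det3]

/-- The value of the pull backs of the 2-forms on the standard local map. -/
theorem n5_val (j : Fin 4) {v : Fin 5 → ℂ} (hv : v ∈ SC0) :
    (MJ j).pullRule (om j) (PL v ![-1, 1, 0, 0] ![-1, 0, 1, 0]) 0 * (4 * ∏ k, v k) =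
      (-1) ^ (j : ℕ) * v j.castSucc * sqv v 3 := by
  obtain ⟨h1, h2⟩ := PL_plotAt hv n5_eps1 n5_eps2
  obtain ⟨h3, h4⟩ := PL_sqv hv n5_eps1 n5_eps2
  have h5 := pull_om j h1 (by rw [h2]; exact hv)
  rw [h2, h3, h4, n5_det3] at h5
  exact h5

theorem n5_ne {v : Fin 5 → ℂ} (hv : v ∈ SC0) :
    (MJ 0).pullRule (om 0) (PL v ![-1, 1, 0, 0] ![-1, 0, 1, 0]) 0 ≠ 0 := by
  intro h
  have h1 := n5_val 0 hv
  rw [h, zero_mul] at h1
  exact mul_ne_zero (mul_ne_zero (pow_ne_zero _ (by norm_num)) (hv.2 _))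
    (pow_ne_zero 2 (hv.2 _)) h1.symm

theorem n5_sqv3 {v : Fin 5 → ℂ} (hv : v ∈ SC0) : sqv v 3 ≠ 0 :=
  pow_ne_zero 2 (hv.2 _)

theorem n5_rel_alg {c P s : Fin 4 → ℂ} {Q y : ℂ} (hy : y ≠ 0) (h1 : ∑ j, c j * P j = 0)
    (h2 : ∀ j, P j * Q = s j * y) : ∑ j, c j * s j = 0 := by
  refine mul_right_cancel₀ hy ?_
  rw [zero_mul, Finset.sum_mul]
  have h3 : ∑ j, c j * P j * Q = 0 := by
    rw [← Finset.sum_mul, h1, zero_mul]
  rw [← h3]
  refine Finset.sum_congr rfl fun j _ => ?_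
  rw [mul_assoc, mul_assoc, h2 j]

/-- A relation between the 2-forms gives a relation between the coordinates. -/
theorem n5_rel {c : Fin 4 → ℂ}
    (hc : ∀ f q, SS.PlotAt f q → ∑ j, c j * (MJ j).pullRule (om j) f q = 0)
    {v : Fin 5 → ℂ} (hv : v ∈ SC0) : ∑ j : Fin 4, c j * ((-1) ^ (j : ℕ) * v j.castSucc) = 0 := by
  exact n5_rel_alg (n5_sqv3 hv) (hc _ _ (PL_plotAt hv n5_eps1 n5_eps2).1) fun j => n5_val j hv

theorem n5_indep {c : Fin 4 → ℂ}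
    (hc : ∀ f q, SS.PlotAt f q → ∑ j, c j * (MJ j).pullRule (om j) f q = 0) (i : Fin 4) :
    c i = 0 := by
  obtain ⟨v, hv⟩ := SC0_nonempty
  have h1 := n5_rel hc hv
  have h2 := n5_rel hc (flip1_mem hv i.castSucc).1
  have h3 : ∑ j : Fin 4, (c j * ((-1) ^ (j : ℕ) * v j.castSucc) -
      c j * ((-1) ^ (j : ℕ) * flip1 i.castSucc v j.castSucc)) = 0 := by
    rw [Finset.sum_sub_distrib, h1, h2, sub_zero]
  rw [Finset.sum_eq_single i] at h3
  · have h4 : flip1 i.castSucc v i.castSucc = - v i.castSucc := by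
      unfold flip1
      rw [Function.update_self]
    rw [h4] at h3
    have h5 : c i * ((-1) ^ (i : ℕ) * v i.castSucc) = 0 := by linear_combination (1 / 2 : ℂ) * h3
    rcases mul_eq_zero.1 h5 with h6 | h6
    · exact h6
    · exact absurd h6 (mul_ne_zero (pow_ne_zero _ (by norm_num)) (hv.2 _))
  · intro j _ hj
    have h4 : flip1 i.castSucc v j.castSucc = v j.castSucc := by
      unfold flip1
      rw [Function.update_of_ne]
      intro h
      exact hj (Fin.castSucc_injective 4 h)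
    rw [h4, sub_self]
  · intro h
    exact absurd (Finset.mem_univ i) h

theorem SS_pg : SS.HasPg 4 := by
  refine ⟨fun j => (MJ j).pullRule (om j), pull_om_isPluri, fun ω hω => ?_⟩
  obtain ⟨a, ha⟩ := om_span ω hω
  refine ⟨a, ha, fun a' ha' => ?_⟩
  funext i
  have h1 : ∀ f q, SS.PlotAt f q →
      ∑ j, (a' j - a j) * (MJ j).pullRule (om j) f q = 0 := by
    intro f q hf
    have h2 : ∑ j, (a' j - a j) * (MJ j).pullRule (om j) f q =
        ∑ j, a' j * (MJ j).pullRule (om j) f q - ∑ j, a j * (MJ j).pullRule (om j) f q := by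
      rw [← Finset.sum_sub_distrib]
      exact Finset.sum_congr rfl fun j _ => sub_mul _ _ _
    rw [h2, ← ha' f q hf, ← ha f q hf, sub_self]
  exact sub_eq_zero.1 (n5_indep (c := fun j => a' j - a j) h1 i)

/-- The derivative of a quotient. -/
theorem n5_fderiv_div {f g : C2 → ℂ} (hf : DifferentiableAt ℂ f 0) (hg : DifferentiableAt ℂ g 0)
    (h0 : g 0 ≠ 0) (e : C2) : fderiv ℂ (fun z => f z / g z) 0 e =
      (fderiv ℂ f 0 e * g 0 - f 0 * fderiv ℂ g 0 e) / g 0 ^ 2 := by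
  have hq : DifferentiableAt ℂ (fun z => f z / g z) 0 := by
    have h := hf.mul (hg.inv h0)
    simp only [div_eq_mul_inv]
    exact h
  have h1 : (fun z => (f z / g z) * g z) =ᶠ[𝓝 0] f := by
    filter_upwards [hg.continuousAt.eventually_ne h0] with z hz
    exact div_mul_cancel₀ _ hz
  have h2 := h1.fderiv_eq (𝕜 := ℂ)
  rw [fderiv_fun_mul hq hg] at h2
  have h3 := congrArg (fun L : C2 →L[ℂ] ℂ => L e) h2
  simp only [add_apply, smul_apply, smul_eq_mul] at h3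
  rw [eq_div_iff (pow_ne_zero 2 h0)]
  field_simp at h3
  linear_combination h3

theorem n5_det_alg {x0 x1 x2 x3 : ℂ} (h0 : x0 ≠ 0) (h1 : x1 ≠ 0) (h2 : x2 ≠ 0)
    (h : x0 ^ 2 + x1 ^ 2 + x2 ^ 2 + x3 ^ 2 = 0) :
    (-(1 / (2 * x1) * x0 - x1 * (-1 / (2 * x0))) / x0 ^ 2) *
      ((1 / (2 * x2) * x0 - x2 * (-1 / (2 * x0))) / x0 ^ 2) -
      ((0 * x0 - x2 * (-1 / (2 * x0))) / x0 ^ 2) *
      (-(0 * x0 - x1 * (-1 / (2 * x0))) / x0 ^ 2) = x3 ^ 2 / (4 * x0 ^ 4 * x1 * x2) := by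
  field_simp
  linear_combination (-4 * x0 ^ 2) * h

theorem n5_ratio_alg {P0 Pi Q x0 xi d s : ℂ} (hP : P0 ≠ 0) (hx : x0 ≠ 0) (hQ : Q ≠ 0)
    (h0 : P0 * Q = 1 * x0 * d) (hi : Pi * Q = s * xi * d) : Pi / P0 = s * xi / x0 := by
  rw [div_eq_div_iff hP hx]
  refine mul_right_cancel₀ hQ ?_
  linear_combination x0 * hi - (s * xi) * h0

/-- The ratios of the 2-forms are ratios of coordinates. -/
theorem n5_ratio (j : Fin 4) {g : C2 → Fin 5 → ℂ} {q : C2} (hg : SS.PlotAt g q)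
    (h0 : g q ∈ SC0) (hn : (MJ 0).pullRule (om 0) g q ≠ 0) :
    (MJ j).pullRule (om j) g q / (MJ 0).pullRule (om 0) g q =
      (-1) ^ (j : ℕ) * g q j.castSucc / g q 0 := by
  have h1 := pull_om j hg h0
  have h2 := pull_om 0 hg h0
  have h3 : (∏ k, g q k) ≠ 0 := Finset.prod_ne_zero_iff.2 fun k _ => h0.2 k
  have h4 : (4 * ∏ k, g q k) ≠ 0 := mul_ne_zero (by norm_num) h3
  have h5 : ((-1 : ℂ) ^ ((0 : Fin 4) : ℕ)) = 1 := by simp
  rw [h5] at h2
  exact n5_ratio_alg hn (h0.2 0) h4 h2 h1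

theorem n5_fderiv_coord {g : C2 → Fin 5 → ℂ} (hg : DifferentiableAt ℂ g 0) (k : Fin 5) (e : C2) :
    fderiv ℂ (fun z => g z k) 0 e = fderiv ℂ g 0 e k := by
  have h2 := hasFDerivAt_pi'.1 hg.hasFDerivAt k
  rw [h2.fderiv]
  rfl

/-- The Jacobian determinant. -/
theorem n5_jac {v : Fin 5 → ℂ} (hv : v ∈ SC0) :
    (fderiv ℂ (fun z => (![(-1) * PL v ![-1, 1, 0, 0] ![-1, 0, 1, 0] z 1 /
      PL v ![-1, 1, 0, 0] ![-1, 0, 1, 0] z 0, PL v ![-1, 1, 0, 0] ![-1, 0, 1, 0] z 2 /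
        PL v ![-1, 1, 0, 0] ![-1, 0, 1, 0] z 0] : C2)) 0).det ≠ 0 := by
  obtain ⟨h1, h2⟩ := PL_plotAt hv n5_eps1 n5_eps2
  obtain ⟨h3, h4⟩ := PL_sqv hv n5_eps1 n5_eps2
  have hd : DifferentiableAt ℂ (PL v ![-1, 1, 0, 0] ![-1, 0, 1, 0]) 0 :=
    (Surf.PlotAt.holAt h1).differentiableAt
  have hfd := fun e => fderiv_plot h1 (by rw [h2]; exact hv) e
  set g := PL v ![-1, 1, 0, 0] ![-1, 0, 1, 0] with hg
  have ha : fderiv ℂ g 0 e0 = tau v ![-1, 1, 0, 0] := by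
    have := hfd e0
    rw [h3, h2] at this
    exact this
  have hb : fderiv ℂ g 0 e1 = tau v ![-1, 0, 1, 0] := by
    have := hfd e1
    rw [h4, h2] at this
    exact this
  have hk : ∀ k, DifferentiableAt ℂ (fun z => g z k) 0 := fun k => differentiableAt_pi.1 hd k
  have hg0 : g 0 0 ≠ 0 := by
    rw [h2]
    exact hv.2 0
  have hA := fun e => n5_fderiv_div (f := fun z => (-1) * g z 1) (g := fun z => g z 0)
    ((hk 1).const_mul _) (hk 0) hg0 e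
  have hB := fun e => n5_fderiv_div (f := fun z => g z 2) (g := fun z => g z 0)
    (hk 2) (hk 0) hg0 e
  have hC : ∀ e, fderiv ℂ (fun z => (-1) * g z 1) 0 e = - fderiv ℂ g 0 e 1 := by
    intro e
    rw [fderiv_const_mul (hk 1), smul_apply, n5_fderiv_coord hd, smul_eq_mul, neg_one_mul]
  have hdA : DifferentiableAt ℂ (fun z => (-1) * g z 1 / g z 0) 0 := by
    have h := ((hk 1).const_mul (-1 : ℂ)).mul ((hk 0).inv hg0)
    simp only [div_eq_mul_inv]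
    exact h
  have hdB : DifferentiableAt ℂ (fun z => g z 2 / g z 0) 0 := by
    have h := (hk 2).mul ((hk 0).inv hg0)
    simp only [div_eq_mul_inv]
    exact h
  have hF : HasFDerivAt (fun z => (![(-1) * g z 1 / g z 0, g z 2 / g z 0] : C2))
      (ContinuousLinearMap.pi ![fderiv ℂ (fun z => (-1) * g z 1 / g z 0) 0,
        fderiv ℂ (fun z => g z 2 / g z 0) 0]) 0 := by
    rw [hasFDerivAt_pi]
    intro i
    fin_cases i
    · exact hdA.hasFDerivAt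
    · exact hdB.hasFDerivAt
  rw [hF.fderiv, det_C2]
  have c0 : ∀ e, (ContinuousLinearMap.pi ![fderiv ℂ (fun z => (-1) * g z 1 / g z 0) 0,
        fderiv ℂ (fun z => g z 2 / g z 0) 0] : C2 →L[ℂ] C2) e 0 =
      fderiv ℂ (fun z => (-1) * g z 1 / g z 0) 0 e := fun e => rfl
  have c1 : ∀ e, (ContinuousLinearMap.pi ![fderiv ℂ (fun z => (-1) * g z 1 / g z 0) 0,
        fderiv ℂ (fun z => g z 2 / g z 0) 0] : C2 →L[ℂ] C2) e 1 =
      fderiv ℂ (fun z => g z 2 / g z 0) 0 e := fun e => rfl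
  rw [c0, c0, c1, c1, hA, hA, hB, hB, hC, hC, n5_fderiv_coord hd, n5_fderiv_coord hd,
    n5_fderiv_coord hd, n5_fderiv_coord hd, ha, hb, h2]
  have hk4 : ∀ (β : Fin 4 → ℂ) (k : Fin 4), tau v β k.castSucc = β k / (2 * v k.castSucc) := by
    intro β k
    rw [tau, dBr, Fin.snoc_castSucc]
  have a0 : tau v ![-1, 1, 0, 0] 0 = -1 / (2 * v 0) := hk4 _ 0
  have a1 : tau v ![-1, 1, 0, 0] 1 = 1 / (2 * v 1) := hk4 _ 1
  have a2 : tau v ![-1, 1, 0, 0] 2 = 0 / (2 * v 2) := hk4 _ 2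
  have b0 : tau v ![-1, 0, 1, 0] 0 = -1 / (2 * v 0) := hk4 _ 0
  have b1 : tau v ![-1, 0, 1, 0] 1 = 0 / (2 * v 1) := hk4 _ 1
  have b2 : tau v ![-1, 0, 1, 0] 2 = 1 / (2 * v 2) := hk4 _ 2
  have hs : v 0 ^ 2 + v 1 ^ 2 + v 2 ^ 2 + v 3 ^ 2 = 0 := by
    have h := (mem_SC.1 hv.1).2.1
    simp only [Pi0, Fin.sum_univ_four] at h
    exact h
  rw [a0, a1, a2, b0, b1, b2]
  have h6 := n5_det_alg (hv.2 0) (hv.2 1) (hv.2 2) hs
  have h7 : v 3 ^ 2 / (4 * v 0 ^ 4 * v 1 * v 2) ≠ 0 :=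
    div_ne_zero (pow_ne_zero 2 (hv.2 3)) (mul_ne_zero (mul_ne_zero (mul_ne_zero (by norm_num)
      (pow_ne_zero 4 (hv.2 0))) (hv.2 1)) (hv.2 2))
  rw [← h6] at h7
  refine fun h8 => h7 (Eq.trans ?_ h8)
  ring

theorem SS_generalType : SS.GeneralType := by
  obtain ⟨v, hv⟩ := SC0_nonempty
  obtain ⟨h1, h2⟩ := PL_plotAt hv n5_eps1 n5_eps2
  set g := PL v ![-1, 1, 0, 0] ![-1, 0, 1, 0] with hg
  refine ⟨1, le_rfl, ![(MJ 0).pullRule (om 0), (MJ 1).pullRule (om 1), (MJ 2).pullRule (om 2)],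
    ?_, g, 0, h1, ?_, ?_⟩
  · intro i
    fin_cases i
    · exact pull_om_isPluri 0
    · exact pull_om_isPluri 1
    · exact pull_om_isPluri 2
  · exact n5_ne hv
  · have h3 : ∀ᶠ z in 𝓝 (0 : C2), SS.PlotAt g z ∧ g z ∈ SC0 ∧
        (MJ 0).pullRule (om 0) g z ≠ 0 := by
      have h4 := Surf.PlotAt.eventually h1
      have h5 : ContinuousAt g 0 := (Surf.PlotAt.holAt h1).continuousAt
      have h6 : ∀ᶠ z in 𝓝 (0 : C2), ∀ k, g z k ≠ 0 := by
        rw [Filter.eventually_all]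
        intro k
        have h7 : ContinuousAt (fun z => g z k) 0 := (continuous_apply k).continuousAt.comp h5
        refine h7.eventually_ne ?_
        rw [h2]
        exact hv.2 k
      have h7 : ContinuousAt (fun z => (MJ 0).pullRule (om 0) g z) 0 :=
        ((pull_om_isPluri 0).hol g 0 h1 (Set.mem_univ _)).continuousAt
      filter_upwards [h4, h6, h7.eventually_ne (n5_ne hv)] with z h8 h9 h10
      exact ⟨h8, ⟨Surf.PlotAt.mem h8, h9⟩, h10⟩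
    have h4 : (fun z => (![(MJ 1).pullRule (om 1) g z / (MJ 0).pullRule (om 0) g z,
        (MJ 2).pullRule (om 2) g z / (MJ 0).pullRule (om 0) g z] : C2)) =ᶠ[𝓝 0]
        fun z => (![(-1) * g z 1 / g z 0, g z 2 / g z 0] : C2) := by
      filter_upwards [h3] with z hz
      have h5 := n5_ratio 1 hz.1 hz.2.1 hz.2.2
      have h6 := n5_ratio 2 hz.1 hz.2.1 hz.2.2
      have h7 : ((-1 : ℂ) ^ ((1 : Fin 4) : ℕ)) = -1 := by simp
      have h8 : ((-1 : ℂ) ^ ((2 : Fin 4) : ℕ)) = 1 := by simp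
      rw [h7] at h5
      rw [h8, one_mul] at h6
      rw [h5, h6]
      rfl
    have h5 := n5_jac hv
    rw [← hg, ← h4.fderiv_eq (𝕜 := ℂ)] at h5
    exact h5

end Pool.Agent.K3Pieces
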