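import Pool.Agent.Lib.MP_3004b3_ag.Defs

/-!
# Čech cohomology in degree two, the Hodge filtration and the transcendental part: statement layer

* `Coh k Y`: Čech cohomology `Ȟ²(Y, k)` with coefficients in the constant sheaf `k` (a field): the
  quotient of the cocycles (of some open covering) by the coboundaries (of some open covering).
* `HF1`, `HF2`: the Hodge filtration `F¹`, `F²` of `H²(X, ℂ)`.
* `Tr`: the transcendental part of `H²(X, ℚ)`.
-/

set_option autoImplicit false

namespace Pool.Agent.K3Pieces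

open scoped Topology TensorProduct

/-- Čech 2-cochains of `Y` with coefficients in `k`, for coverings indexed by the points of `Y`. -/
def Cochain (k Y : Type) : Type := Y → Y → Y → Y → k

section

variable (k Y : Type) [Field k]

instance instAddCommGroupCochain : AddCommGroup (Cochain k Y) :=
  (Pi.addCommGroup : AddCommGroup (Y → Y → Y → Y → k))

instance instModuleCochain : Module k (Cochain k Y) :=
  (Pi.module _ _ _ : Module k (Y → Y → Y → Y → k))

variable [TopologicalSpace Y]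

theorem zero_isZ2 : IsZ2 (0 : Cochain k Y) := IsZ2.zero (A := k) (Y := Y)

theorem zero_isB2 : IsB2 (0 : Cochain k Y) := IsB2.zero (A := k) (Y := Y)

variable {k Y}

theorem add_isZ2 {c d : Cochain k Y} (hc : IsZ2 c) (hd : IsZ2 d) : IsZ2 (c + d) :=
  IsZ2.add (A := k) (Y := Y) hc hd

theorem smul_isZ2 (r : k) {c : Cochain k Y} (hc : IsZ2 c) : IsZ2 (r • c) :=
  IsZ2.smul (A := k) (Y := Y) r hc

theorem add_isB2 {c d : Cochain k Y} (hc : IsB2 c) (hd : IsB2 d) : IsB2 (c + d) :=
  IsB2.add (A := k) (Y := Y) hc hd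

theorem smul_isB2 (r : k) {c : Cochain k Y} (hc : IsB2 c) : IsB2 (r • c) :=
  IsB2.smul (A := k) (Y := Y) r hc

variable (k Y)

/-- The Čech 2-cocycles. -/
def cocycles : Submodule k (Cochain k Y) where
  carrier := {c | IsZ2 c}
  zero_mem' := zero_isZ2 k Y
  add_mem' := add_isZ2
  smul_mem' r _ h := smul_isZ2 r h

/-- The Čech 2-coboundaries. -/
def coboundaries : Submodule k (Cochain k Y) where
  carrier := {c | IsB2 c}
  zero_mem' := zero_isB2 k Y
  add_mem' := add_isB2
  smul_mem' r _ h := smul_isB2 r h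

/-- The type of cocycles. -/
def Cocycle : Type := ↥(cocycles k Y)

instance instAddCommGroupCocycle : AddCommGroup (Cocycle k Y) :=
  (Submodule.addCommGroup (cocycles k Y) : AddCommGroup ↥(cocycles k Y))

instance instModuleCocycle : Module k (Cocycle k Y) :=
  (Submodule.module (cocycles k Y) : Module k ↥(cocycles k Y))

/-- The coboundaries, as a subspace of the space of cocycles. -/
def relations : Submodule k (Cocycle k Y) := (coboundaries k Y).comap (cocycles k Y).subtype

/-- Čech cohomology `Ȟ²(Y, k)`. -/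
def Coh : Type := Cocycle k Y ⧸ relations k Y

instance instAddCommGroupCoh : AddCommGroup (Coh k Y) :=
  (Submodule.Quotient.addCommGroup (relations k Y) : AddCommGroup (Cocycle k Y ⧸ relations k Y))

instance instModuleCoh : Module k (Coh k Y) :=
  (Submodule.Quotient.module (relations k Y) : Module k (Cocycle k Y ⧸ relations k Y))

/-- The class of a cocycle. -/
def cls (c : Cocycle k Y) : Coh k Y := Submodule.Quotient.mk c

end

section

variable (Y : Type) [TopologicalSpace Y]

theorem castCoc_isZ2 (c : Cocycle ℚ Y) :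
    (fun x y z p => (c.1 x y z p : ℂ) : Cochain ℂ Y) ∈ cocycles ℂ Y :=
  toC_mem Y c.2

/-- A rational cocycle as a complex cocycle. -/
noncomputable def castCoc (c : Cocycle ℚ Y) : Cocycle ℂ Y :=
  ⟨fun x y z p => (c.1 x y z p : ℂ), castCoc_isZ2 Y c⟩

theorem castCoc_rel (c d : Cocycle ℚ Y) (h : cls ℚ Y c = cls ℚ Y d) :
    cls ℂ Y (castCoc Y c) = cls ℂ Y (castCoc Y d) :=
  congrArg (toC Y) h

/-- The natural map `Ȟ²(Y, ℚ) → Ȟ²(Y, ℂ)`. -/
noncomputable def cohCast (ξ : Coh ℚ Y) : Coh ℂ Y :=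
  Quotient.liftOn' ξ (fun c => cls ℂ Y (castCoc Y c))
    (fun c d h => castCoc_rel Y c d (Quotient.sound' h))

end

namespace Surf

variable (X : Surf)

/-- `F¹ H²(X, ℂ)`: the classes of the cocycles which are coboundaries of holomorphic cochains. -/
def HF1 : Set (Coh ℂ X.Pt) := {ξ | ∃ c : Cocycle ℂ X.Pt, X.IsF1 c.1 ∧ cls ℂ X.Pt c = ξ}

/-- `F² H²(X, ℂ)`: the classes of the cocycles which are coboundaries of holomorphic cochains `h`,
such that `dh` is the coboundary of a cochain of holomorphic 1-forms. -/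
def HF2 : Set (Coh ℂ X.Pt) := {ξ | ∃ c : Cocycle ℂ X.Pt, X.IsF2 c.1 ∧ cls ℂ X.Pt c = ξ}

/-- The transcendental part of `H²(X, ℚ)`: the smallest rational subspace whose complexification
contains `F² H²(X, ℂ) = H^{2,0}(X)`. -/
def Tr : Submodule ℚ (Coh ℚ X.Pt) :=
  sInf {W | ∀ ξ ∈ X.HF2, ξ ∈ Submodule.span ℂ (cohCast X.Pt '' (W : Set (Coh ℚ X.Pt)))}

/-- The transcendental part, as a rational vector space. -/
def TrV : Type := ↥X.Tr

instance instAddCommGroupTrV : AddCommGroup X.TrV := (Submodule.addCommGroup X.Tr : _)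

instance instModuleTrV : Module ℚ X.TrV := (Submodule.module X.Tr : _)

/-- The natural map `H²_tr(X) → H²(X, ℂ)`. -/
noncomputable def trC (t : X.TrV) : Coh ℂ X.Pt := cohCast X.Pt t.1

end Surf

/-- `H²_tr(S)` is isomorphic, as a rational Hodge structure, to the direct sum of the
`H²_tr(X j)`: there is an isomorphism `φ` of rational vector spaces whose complexification
identifies the Hodge filtrations (`∑ a_k φ(t_k)` is in `F^p` if and only if all components of
`∑ a_k t_k` are in `F^p`, for all complex numbers `a_k`). -/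
def TrSplit (S : Surf) {m : ℕ} (X : Fin m → Surf) : Prop :=
  ∃ φ : ((j : Fin m) → (X j).TrV) ≃ₗ[ℚ] S.TrV, ∀ (n : ℕ) (a : Fin n → ℂ)
    (t : Fin n → (j : Fin m) → (X j).TrV),
    (∑ k, a k • S.trC (φ (t k)) ∈ S.HF1 ↔ ∀ j, ∑ k, a k • (X j).trC (t k j) ∈ (X j).HF1) ∧
    (∑ k, a k • S.trC (φ (t k)) ∈ S.HF2 ↔ ∀ j, ∑ k, a k • (X j).trC (t k j) ∈ (X j).HF2)

/-! ### Comparison with the definitions used in the proofs -/

theorem sum_of_trSplits {S : Surf} {m : ℕ} {X : Fin m → Surf} (h : TrSplits S X) :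
    ∃ φ : ((j : Fin m) → (X j).T) ≃ₗ[ℚ] S.T, ∀ (n : ℕ) (a : Fin n → ℂ)
      (t : Fin n → (j : Fin m) → (X j).T),
      (∑ k, a k • toC S.Pt (φ (t k)) ∈ S.F1 ↔
        ∀ j, ∑ k, a k • toC (X j).Pt (t k j) ∈ (X j).F1) ∧
      (∑ k, a k • toC S.Pt (φ (t k)) ∈ S.F2 ↔
        ∀ j, ∑ k, a k • toC (X j).Pt (t k j) ∈ (X j).F2) := by
  obtain ⟨φ, hφ⟩ := h
  refine ⟨φ, fun n a t => ?_⟩
  have h1 := hφ (∑ k, a k ⊗ₜ[ℚ] t k)
  have h2 : S.Tmap (φ.toLinearMap.baseChange ℂ (∑ k, a k ⊗ₜ[ℚ] t k)) =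
      ∑ k, a k • toC S.Pt (φ (t k)) := by
    simp only [map_sum, LinearMap.baseChange_tmul]
    rfl
  have h3 : ∀ j, (X j).Tmap ((LinearMap.proj j : ((j : Fin m) → (X j).T) →ₗ[ℚ] (X j).T).baseChange
      ℂ (∑ k, a k ⊗ₜ[ℚ] t k)) = ∑ k, a k • toC (X j).Pt (t k j) := by
    intro j
    simp only [map_sum, LinearMap.baseChange_tmul]
    rfl
  simp only [Surf.TF1, Surf.TF2, Submodule.mem_comap, h2, h3] at h1
  exact h1

theorem trSplit_of_trSplits {S : Surf} {m : ℕ} {X : Fin m → Surf} (h : TrSplits S X) :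
    TrSplit S X :=
  sum_of_trSplits h

end Pool.Agent.K3Pieces
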